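import Mathlib
import Pool.Agent.Helper25.CliqueGame.Final
import Pool.Agent.Helper78.CG.Defs

/-!
# The biased clique game: the asymptotic value (definitions for the upper bound)

Memo: `memo_MP_d32cb0_co_helper5.md` (team store).
-/

set_option autoImplicit false

namespace Pool.Agent.Helper5.CV

open Finset Pool.Agent.Helper25.CliqueGame
open Pool.Agent.Helper78.CG (EI)

/-! ### Costs -/

/-- `Λ_j = ln (1 + b j / m)`: the cost of `j` edges claimed by Maker in one move. -/
noncomputable def lam (m b j : ℕ) : ℝ := Real.log (1 + (b : ℝ) * j / m)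

/-- `μ = Λ_m / m`. -/
noncomputable def mu (m b : ℕ) : ℝ := lam m b m / m

/-- `κ(n)`: the least cost of `n` edges (full moves and one remainder). -/
noncomputable def kap (m b n : ℕ) : ℝ := ((n / m : ℕ) : ℝ) * lam m b m + lam m b (n % m)

/-- `K_c = m Λ_1 - Λ_m`. -/
noncomputable def Kc (m b : ℕ) : ℝ := m * lam m b 1 - lam m b m

/-- `S* = (m - 1) / K_c`. -/
noncomputable def Sst (m b : ℕ) : ℝ := ((m : ℝ) - 1) / Kc m b

/-- `Q* = (1 + √(1 + (m - 1)² Λ_m / K_c)) / Λ_m`. -/
noncomputable def Qst (m b : ℕ) : ℝ :=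
  (1 + √(1 + ((m : ℝ) - 1) ^ 2 * lam m b m / Kc m b)) / lam m b m

open Classical in
/-- The constant `c*`. -/
noncomputable def cst (m b : ℕ) : ℝ :=
  max (m / lam m b m) (if Sst m b ≤ Qst m b then Qst m b else 2 / lam m b 1)

/-! ### Positions and potentials -/

section game

variable {α : Type*} [DecidableEq α]

/-- The union of a list of sets. -/
def uni (l : List (Finset α)) : Finset α := l.foldr (· ∪ ·) ∅

/-- A position: the moves of Maker (newest first) and the set of Breaker. -/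
structure Pos (α : Type*) where
  /-- the moves of Maker, newest first -/
  mv : List (Finset α)
  /-- the set of Breaker -/
  B : Finset α

/-- The set of Maker. -/
def Pos.M (P : Pos α) : Finset α := uni P.mv

/-- The gain of the set `S` along the list of moves `l` of Maker. -/
noncomputable def gain (m b : ℕ) (l : List (Finset α)) (S : Finset α) : ℝ :=
  (l.map (fun X => 1 + (b : ℝ) / m * ((S ∩ X).card : ℝ))).prod

/-- The potential of the family with the weights `w` at the position `P`. -/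
noncomputable def pot [Fintype α] (m b : ℕ) (w : Finset α → ℝ) (P : Pos α) : ℝ :=
  ∑ S ∈ univ.filter (fun S : Finset α => Disjoint S P.B), w S * gain m b P.mv S

/-- Basic properties of a position in the game. -/
structure GP (m : ℕ) (board : Finset α) (P : Pos α) : Prop where
  card : ∀ X ∈ P.mv, X.card ≤ m
  pw : P.mv.Pairwise Disjoint
  dj : Disjoint P.M P.B
  sub : P.M ⊆ board
  subB : P.B ⊆ board

/-- The index of the move (in the list) which contains `e`. -/
def tix (l : List (Finset α)) (e : α) : ℕ := l.findIdx (fun X => decide (e ∈ X))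

/-- The status of the element `e`: `0` claimed by Breaker, `1` not claimed, `t + 2` claimed by Maker
in the move with index `t`. -/
def tn0 (P : Pos α) (e : α) : ℕ :=
  if e ∈ P.B then 0 else if e ∈ P.M then tix P.mv e + 2 else 1

end game

/-- The `q`-sets of vertices without an edge of Breaker and with exactly `u` edges not claimed by
Maker. -/
def AA {N : ℕ} (P : Pos (Sym2 (Fin N))) (q u : ℕ) : Finset (Finset (Fin N)) :=
  univ.filter (fun A => A.card = q ∧ Disjoint (EI A) P.B ∧ (EI A \ P.M).card = u)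

/-! ### Families of sets, pinning -/

section fam

variable {V : Type*} [DecidableEq V]

/-- The number of members of `ℱ` which contain `R`. -/
def nn (ℱ : Finset (Finset V)) (R : Finset V) : ℕ := (ℱ.filter (fun A => R ⊆ A)).card

/-- The link of `W`. -/
def lk (ℱ : Finset (Finset V)) (W : Finset V) : Finset (Finset V) :=
  (ℱ.filter (fun A => W ⊆ A)).image (fun A => A \ W)

/-- Thresholds. -/
structure Thr where
  F : ℝ
  p0 : ℝ
  p1 : ℝ
  p2 : ℝ

/-- `{u, v}` is a mate of `{x, y}` inside `A`. -/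
def Mate (tn : Sym2 V → ℕ) (A : Finset V) (x y u v : V) : Prop :=
  u ∈ A ∧ v ∈ A ∧ u ≠ v ∧ s(u, v) ≠ s(x, y) ∧ 2 ≤ tn s(x, y) ∧ tn s(u, v) = tn s(x, y)

/-- The pair is not flat. -/
def B0 (ℬ : Finset (Finset V)) (T : Thr) (x y : V) : Prop :=
  T.F * nn ℬ {x} * nn ℬ {y} < (nn ℬ {x, y} : ℝ) * nn ℬ ∅

/-- A mate is rare. -/
def B1 (ℬ : Finset (Finset V)) (tn : Sym2 V → ℕ) (T : Thr) (A : Finset V) (x y : V) : Prop :=
  ∃ u v, Mate tn A x y u v ∧ (nn ℬ {x, y, u, v} : ℝ) < T.p0 * nn ℬ {x, y}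

/-- `u` is common given `x, y` and rare given `y`. -/
def Gm (ℬ : Finset (Finset V)) (T : Thr) (x y u : V) : Prop :=
  u ≠ x ∧ u ≠ y ∧ T.p0 * nn ℬ {x, y} ≤ (nn ℬ {x, y, u} : ℝ) ∧
    (nn ℬ {y, u} : ℝ) < T.p1 * nn ℬ {y}

/-- Both ends of a mate depend on `x`. -/
def B2 (ℬ : Finset (Finset V)) (tn : Sym2 V → ℕ) (T : Thr) (A : Finset V) (x y : V) : Prop :=
  ∃ u v, Mate tn A x y u v ∧ (u = x ∨ Gm ℬ T x y u) ∧ (v = x ∨ Gm ℬ T x y v)

/-- A rare vertex which is common given `x` and common given `y`. -/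
def B3 (ℬ : Finset (Finset V)) (T : Thr) (x y : V) : Prop :=
  ¬ B0 ℬ T x y ∧ ∃ z, z ≠ x ∧ z ≠ y ∧ (nn ℬ {z} : ℝ) < T.p2 * nn ℬ ∅ ∧
    T.p1 * nn ℬ {x} ≤ (nn ℬ {x, z} : ℝ) ∧ T.p1 * nn ℬ {y} ≤ (nn ℬ {y, z} : ℝ)

/-- A chain `x → z → y` to a rare vertex. -/
def B4 (ℬ : Finset (Finset V)) (T : Thr) (x y : V) : Prop :=
  ¬ B0 ℬ T x y ∧ (nn ℬ {y} : ℝ) < T.p2 * nn ℬ ∅ ∧ ∃ z, z ≠ x ∧ z ≠ y ∧
    T.p1 * nn ℬ {x} ≤ (nn ℬ {x, z} : ℝ) ∧ T.p1 * nn ℬ {z} ≤ (nn ℬ {z, y} : ℝ)

/-- The ordered pair `(x, y)` is bad in `A`. -/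
def Bad (ℬ : Finset (Finset V)) (tn : Sym2 V → ℕ) (T : Thr) (A : Finset V) (x y : V) : Prop :=
  B0 ℬ T x y ∨ B1 ℬ tn T A x y ∨ B2 ℬ tn T A x y ∨ B3 ℬ T x y ∨ B4 ℬ T x y

open Classical in
/-- The bad ordered pairs in `A`. -/
noncomputable def badP (ℬ : Finset (Finset V)) (tn : Sym2 V → ℕ) (T : Thr) (A : Finset V) :
    Finset (V × V) := A.offDiag.filter (fun p => Bad ℬ tn T A p.1 p.2)

/-- `a ~ b` (for different vertices). -/
def Sim (ℬ : Finset (Finset V)) (T : Thr) (a b : V) : Prop :=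
  T.p1 * nn ℬ {a} ≤ (nn ℬ {a, b} : ℝ) ∧ T.p1 * nn ℬ {b} ≤ (nn ℬ {a, b} : ℝ)

open Classical in
/-- The number of triples (`A`, `W`, pair) with property `Pr`; `W` runs over the `k`-subsets of `A`
and the pair over the ordered pairs of `A \ W`. -/
noncomputable def mass (ℱ : Finset (Finset V)) (k : ℕ)
    (Pr : Finset V → Finset V → V → V → Prop) : ℕ :=
  ∑ A ∈ ℱ, ∑ W ∈ A.powersetCard k, ((A \ W).offDiag.filter (fun p => Pr W A p.1 p.2)).card

/-- `φ_k`: the mean of `ln (n(W) / n(W + x))` over the first `k` and the next element `x` of a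
randomly ordered random member of `ℱ` (all members have `s` elements). -/
noncomputable def phi [Fintype V] (ℱ : Finset (Finset V)) (s k : ℕ) : ℝ :=
  (∑ W ∈ powersetCard k (univ : Finset V), ∑ x ∈ univ \ W,
    (nn ℱ (insert x W) : ℝ) * Real.log ((nn ℱ W : ℝ) / nn ℱ (insert x W))) /
  (ℱ.card * s.choose k * (s - k : ℕ))

/-- The quotient `n(W) n(W + x + y) / (n(W + x) n(W + y))`. -/
noncomputable def rat (ℱ : Finset (Finset V)) (W : Finset V) (x y : V) : ℝ :=
  (nn ℱ W : ℝ) * nn ℱ (insert x (insert y W)) / (nn ℱ (insert x W) * nn ℱ (insert y W))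

end fam

/-! ### Data, levels, sequences -/

section lev

variable {V : Type*} [DecidableEq V]

/-- Data: the bucket of a vertex (`0` = none), the similar pairs, the status of a pair. -/
structure Dat (V : Type*) where
  bk : V → ℕ
  sm : Finset (V × V)
  tn : Sym2 V → ℕ

/-- The sum of the buckets of the two ends. -/
def bks (d : Dat V) (e : Sym2 V) : ℕ :=
  Sym2.lift ⟨fun x y => d.bk x + d.bk y, fun _ _ => Nat.add_comm _ _⟩ e

/-- The window pairs at the level `i`: pairs with `i + 3 ≤ sum of the buckets ≤ i + K`. -/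
def wp (d : Dat V) (K i : ℕ) (A : Finset V) : Finset (Sym2 V) :=
  A.sym2.filter (fun e => ¬ e.IsDiag ∧ i + 3 ≤ bks d e ∧ bks d e ≤ i + K)

/-- The points of bucket at most `i - 3`. -/
def old (d : Dat V) (i : ℕ) (A : Finset V) : Finset V :=
  A.filter (fun v => 1 ≤ d.bk v ∧ d.bk v + 3 ≤ i)

/-- The points of bucket larger than `i - K - 3`. -/
def nw (d : Dat V) (K i : ℕ) (A : Finset V) : Finset V :=
  A.filter (fun v => i < d.bk v + K + 3)

/-- The relation whose classes are the classes of `A`. -/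
def rel (sm : Finset (V × V)) (A : Finset V) (u v : V) : Prop := u ∈ A ∧ v ∈ A ∧ (u, v) ∈ sm

open Classical in
/-- The class of `v` in `A`. -/
noncomputable def cl (sm : Finset (V × V)) (A : Finset V) (v : V) : Finset V :=
  A.filter (fun u => Relation.EqvGen (rel sm A) v u)

/-- The class pair of the pair `e`. -/
noncomputable def cp (sm : Finset (V × V)) (A : Finset V) (e : Sym2 V) : Sym2 (Finset V) :=
  e.map (cl sm A)

open Classical in
/-- The cost of the set `G` of pairs of `A`: the sum of `κ` over the class pairs. -/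
noncomputable def cw (m b : ℕ) (sm : Finset (V × V)) (A : Finset V) (G : Finset (Sym2 V)) : ℝ :=
  ∑ c ∈ G.image (cp sm A), kap m b (G.filter (fun e => cp sm A e = c)).card

/-- `A` is good at the level `i` with cost at least `c`. -/
def GoodC (m b : ℕ) (d : Dat V) (K i c : ℕ) (A : Finset V) : Prop :=
  (∀ e ∈ wp d K i A, d.tn e ≠ 0) ∧
  ∃ G ⊆ wp d K i A, (∀ e ∈ G, 2 ≤ d.tn e) ∧
    (∀ e ∈ G, ∀ e' ∈ G, d.tn e = d.tn e' → cp d.sm A e = cp d.sm A e') ∧
    (c : ℝ) ≤ cw m b d.sm A G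

/-- `A` is generated from `t` points by adding similar points. -/
inductive Gen (sm : Finset (V × V)) (t : ℕ) : Finset V → Prop
  | base (T : Finset V) (h : T.card = t) : Gen sm t T
  | step (A : Finset V) (a b : V) (hA : Gen sm t A) (ha : a ∈ A) (hab : (a, b) ∈ sm) :
      Gen sm t (insert b A)

/-- The pairs of points of bucket between `1` and `i - 3` with sum of the buckets at most `i`. -/
def lowPair (d : Dat V) (i : ℕ) (e : Sym2 V) : Prop :=
  ¬ e.IsDiag ∧ (∀ v ∈ e, 1 ≤ d.bk v ∧ d.bk v + 3 ≤ i) ∧ bks d e ≤ i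

open Classical in
/-- The data restricted to the level `i`. -/
noncomputable def resD (d : Dat V) (i : ℕ) : Dat V where
  bk := fun v => if d.bk v + 3 ≤ i then d.bk v else 0
  sm := d.sm.filter (fun p => (1 ≤ d.bk p.1 ∧ d.bk p.1 + 3 ≤ i) ∧ (1 ≤ d.bk p.2 ∧ d.bk p.2 + 3 ≤ i))
  tn := fun e => if lowPair d i e then d.tn e else 0

/-- The number of tokens of the data. -/
def size [Fintype V] (d : Dat V) : ℕ :=
  (univ.filter (fun v => d.bk v ≠ 0)).card + d.sm.card + (univ.filter (fun e => d.tn e ≠ 0)).card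

/-- The index types of the sequences: blocks of blocks. -/
def Idx (r0 R : ℕ) : ℕ → Type
  | 0 => Fin r0
  | l + 1 => Fin R × Idx r0 R l

instance instFintypeIdx (r0 R : ℕ) : (l : ℕ) → Fintype (Idx r0 R l)
  | 0 => inferInstanceAs (Fintype (Fin r0))
  | l + 1 => by
      haveI := instFintypeIdx r0 R l
      exact inferInstanceAs (Fintype (Fin R × Idx r0 R l))

instance instDecEqIdx (r0 R : ℕ) : (l : ℕ) → DecidableEq (Idx r0 R l)
  | 0 => inferInstanceAs (DecidableEq (Fin r0))
  | l + 1 => by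
      haveI := instDecEqIdx r0 R l
      exact inferInstanceAs (DecidableEq (Fin R × Idx r0 R l))

/-- The parameters of the recursion. -/
structure Sys where
  /-- bound for the size of the sets -/
  q : ℕ
  /-- number of copies at the bottom -/
  r0 : ℕ
  /-- number of blocks of a sequence -/
  R : ℕ
  /-- window length -/
  K : ℕ
  /-- offset -/
  i0 : ℕ
  /-- number of classes of the new part -/
  t : ℕ → ℕ
  /-- cost -/
  c : ℕ → ℕ
  /-- bound for the number of collisions -/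
  cB : ℕ → ℕ
  /-- bound for the number of bad blocks -/
  bB : ℕ

/-- The value of `i` at the level `l`. -/
def Sys.i (Y : Sys) (l : ℕ) : ℕ := Y.i0 + Y.K * l

/-- The number of copies. -/
def Sys.rr (Y : Sys) (l : ℕ) : ℕ := Y.R ^ l * Y.r0

open Classical in
/-- The collisions between different copies. -/
noncomputable def coll {ι : Type*} [Fintype ι] [Fintype V] (d : Dat V) (K i : ℕ)
    (f : ι → Finset V) : Finset ((ι × ι) × (Sym2 V × Sym2 V)) :=
  univ.filter (fun x => x.1.1 ≠ x.1.2 ∧ x.2.1 ∈ wp d K i (f x.1.1) ∧ x.2.2 ∈ wp d K i (f x.1.2) ∧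
    2 ≤ d.tn x.2.1 ∧ d.tn x.2.1 = d.tn x.2.2)

/-- The size, position and generation conditions for the sequence `f` at the level `l + 1`. -/
def SeqN (Y : Sys) (l : ℕ) (d : Dat V) (f : Idx Y.r0 Y.R (l + 1) → Finset V) : Prop :=
  ∀ k, (f k).card ≤ Y.q ∧ (∀ v ∈ f k, 1 ≤ d.bk v ∧ d.bk v + 3 ≤ Y.i (l + 1)) ∧
    Gen d.sm (Y.t l) (nw d Y.K (Y.i (l + 1)) (f k))

open Classical in
/-- The property of a sequence of sets at the level `l` which is counted. -/
noncomputable def SeqP [Fintype V] (m b : ℕ) (Y : Sys) :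
    (l : ℕ) → Dat V → (Idx Y.r0 Y.R l → Finset V) → Prop
  | 0, _, f => ∀ k, f k = ∅
  | l + 1, d, f =>
      SeqN Y l d f ∧ (∀ k, GoodC m b d Y.K (Y.i (l + 1)) (Y.c l) (f k)) ∧
      (coll d Y.K (Y.i (l + 1)) f).card ≤ Y.cB l ∧
      (univ.filter (fun j : Fin Y.R => ¬ SeqP m b Y l (resD d (Y.i (l + 1)))
        (fun k => old d (Y.i l) (f (j, k))))).card ≤ Y.bB

open Classical in
/-- The part of `SeqP` which depends only on the restricted data. -/
noncomputable def SeqQ [Fintype V] (m b : ℕ) (Y : Sys) (l : ℕ) (d : Dat V)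
    (f : Idx Y.r0 Y.R (l + 1) → Finset V) : Prop :=
  SeqN Y l d f ∧
    (univ.filter (fun j : Fin Y.R => ¬ SeqP m b Y l d
      (fun k => old d (Y.i l) (f (j, k))))).card ≤ Y.bB

/-- The set of pairs of the sequence `f`. -/
def SSf {ι : Type*} [Fintype ι] (d : Dat V) (K i : ℕ) (f : ι → Finset V) : Finset (Sym2 V) :=
  univ.biUnion (fun k => wp d K i (f k))

/-- The finite type of the names of data. -/
abbrev DatF (V : Type*) (nb nt : ℕ) := (V → Fin nb) × Finset (V × V) × (Sym2 V → Fin nt)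

/-- The data with the name `x`. -/
def toDat {nb nt : ℕ} (x : DatF V nb nt) : Dat V where
  bk := fun v => x.1 v
  sm := x.2.1
  tn := fun e => x.2.2 e

end lev

open Classical in
/-- The static family of the level `l`. -/
noncomputable def wlev {N : ℕ} (m b : ℕ) (Y : Sys) (l nb nt : ℕ) (S : Finset (Sym2 (Fin N))) : ℝ :=
  ∑ x : DatF (Fin N) nb nt, ((N : ℝ) ^ 10)⁻¹ ^ size (toDat x) *
    (((univ.filter (fun f : Idx Y.r0 Y.R (l + 1) → Finset (Fin N) => SeqQ m b Y l (toDat x) f ∧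
        SSf (toDat x) Y.K (Y.i (l + 1)) f = S)).card : ℝ) /
      (univ.filter (fun f : Idx Y.r0 Y.R (l + 1) → Finset (Fin N) =>
        SeqQ m b Y l (toDat x) f)).card)

/-- The properties of the true data at the position `P` (and of its restrictions) used in the
recursion. -/
structure DatOK {N : ℕ} (P : Pos (Sym2 (Fin N))) (Y : Sys) (nb nt Δ nZ : ℕ) (τ : ℕ → ℕ)
    (d : Dat (Fin N)) : Prop where
  tnB : ∀ e, d.tn e ≠ 0 → e ∉ P.B
  tnM : ∀ e, 2 ≤ d.tn e → e ∈ P.M ∧ d.tn e = tix P.mv e + 2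
  bkn : ∀ v, d.bk v < nb
  tnn : ∀ e, d.tn e < nt
  deg : ∀ a, (d.sm.filter (fun p => p.1 = a)).card ≤ Δ
  card : (univ.filter (fun v => 1 ≤ d.bk v)).card ≤ nZ
  size : ∀ l, size (resD d (Y.i (l + 1))) ≤ τ l

/-! ### The families for the two star bounds -/

/-- The pairs between two sets. -/
def bip {V : Type*} [DecidableEq V] (R U : Finset V) : Finset (Sym2 V) :=
  (R ×ˢ U).image (fun p => s(p.1, p.2))

/-- The family for the bound of the size of the root: a root and `r` sets. -/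
noncomputable def wD1 {N : ℕ} (q r : ℕ) (S : Finset (Sym2 (Fin N))) : ℝ :=
  ∑ R ∈ univ.filter (fun R : Finset (Fin N) => R.card ≤ q),
    ∑ U ∈ univ.filter (fun U : Fin r → Finset (Fin N) => ∀ k, (U k).card ≤ q),
      if bip R (univ.biUnion U) = S then
        ((q : ℝ) + 1)⁻¹ ^ (r + 1) * (N : ℝ)⁻¹ ^ (R.card + ∑ k, (U k).card) else 0

/-- The family for the bound of the number of vertices which see the root. -/
noncomputable def wD2 {N : ℕ} (q : ℕ) (S : Finset (Sym2 (Fin N))) : ℝ :=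
  ∑ R ∈ univ.filter (fun R : Finset (Fin N) => R.card ≤ q), ∑ Z : Finset (Fin N),
      if bip R Z = S then
        ((q : ℝ) + 1)⁻¹ * (N : ℝ)⁻¹ ^ R.card * ((N : ℝ) + 1)⁻¹ * ((N.choose Z.card : ℕ) : ℝ)⁻¹
      else 0

end Pool.Agent.Helper5.CV
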