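import Mathlib
import Pool.Agent.Helper5.CV.Defs

/-!
# MP_d32cb0_co, module S01: Markov's inequality for blocks

PROOF.  `Σ_F #{j : ¬ Q(F(j,·))} = Σ_j #{F : ¬ Q(F(j,·))} ≤ R · p · |Ω|^{R|ι|}`: for fixed `j` the number of `F` with `¬ Q(F(j,·))` is
`#{g : ¬Q g} · |Ω|^{(R-1)|ι|}` (curry: `F ↔ (j ↦ F(j,·))`, `Equiv.curry`).  Every `F` counted on the left has
`#{j : ¬Q} ≥ bB + 1`.
-/

set_option autoImplicit false

namespace Pool.Agent.Helper5.CV

open Finset

open Classical in
private theorem block_one {Ω ι : Type*} [Fintype Ω] [Fintype ι] (R : ℕ) (Q : (ι → Ω) → Prop)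
    {p : ℝ} (hp : ((univ.filter (fun g : ι → Ω => ¬ Q g)).card : ℝ) ≤
      p * Fintype.card (ι → Ω)) (j : Fin R) :
    ((univ.filter (fun F : Fin R × ι → Ω => ¬ Q (fun k => F (j, k)))).card : ℝ) ≤
      p * Fintype.card (Fin R × ι → Ω) := by
  have h1 : (univ.filter (fun F : Fin R × ι → Ω => ¬ Q (fun k => F (j, k)))).card =
      (univ.filter (fun f : Fin R → ι → Ω => ¬ Q (f j))).card := by
    apply Finset.card_equiv (Equiv.curry (Fin R) ι Ω)
    intro F
    rw [mem_filter, mem_filter]
    exact ⟨fun h => ⟨mem_univ _, h.2⟩, fun h => ⟨mem_univ _, h.2⟩⟩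
  have h2 : (univ.filter (fun f : Fin R → ι → Ω => ¬ Q (f j))) =
      Fintype.piFinset (Function.update (fun _ : Fin R => (univ : Finset (ι → Ω))) j
        (univ.filter (fun g : ι → Ω => ¬ Q g))) := by
    ext f
    simp only [mem_filter, mem_univ, true_and, Fintype.mem_piFinset]
    constructor
    · intro hf i
      by_cases hi : i = j
      · subst hi
        simp [hf]
      · rw [Function.update_of_ne hi]
        exact mem_univ _
    · intro hf
      have := hf j
      simpa using this
  have h3 : (Fintype.piFinset (Function.update (fun _ : Fin R => (univ : Finset (ι → Ω))) j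
        (univ.filter (fun g : ι → Ω => ¬ Q g)))).card =
      (univ.filter (fun g : ι → Ω => ¬ Q g)).card * (Fintype.card (ι → Ω)) ^ (R - 1) := by
    rw [Fintype.card_piFinset, ← Finset.mul_prod_erase univ _ (mem_univ j),
      Function.update_self]
    congr 1
    rw [Finset.prod_congr rfl (g := fun _ => Fintype.card (ι → Ω))]
    · rw [Finset.prod_const, Finset.card_erase_of_mem (mem_univ j), Finset.card_univ,
        Fintype.card_fin]
    · intro i hi
      rw [Function.update_of_ne (Finset.ne_of_mem_erase hi)]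
      rfl
  have h4 : Fintype.card (Fin R × ι → Ω) = (Fintype.card (ι → Ω)) ^ (R - 1) *
      Fintype.card (ι → Ω) := by
    rw [← pow_succ, Nat.sub_add_cancel (Fin.pos j), Fintype.card_congr (Equiv.curry (Fin R) ι Ω),
      Fintype.card_fun, Fintype.card_fin]
  rw [h1, h2, h3, h4]
  push_cast
  have h5 : (0 : ℝ) ≤ (Fintype.card (ι → Ω) : ℝ) ^ (R - 1) := by positivity
  calc ((univ.filter (fun g : ι → Ω => ¬ Q g)).card : ℝ) * (Fintype.card (ι → Ω) : ℝ) ^ (R - 1)
      ≤ (p * Fintype.card (ι → Ω)) * (Fintype.card (ι → Ω) : ℝ) ^ (R - 1) :=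
        mul_le_mul_of_nonneg_right hp h5
    _ = _ := by ring

open Classical in
theorem block_markov {Ω ι : Type*} [Fintype Ω] [Fintype ι] (R bB : ℕ) (Q : (ι → Ω) → Prop)
    {p : ℝ} (hp : ((univ.filter (fun g : ι → Ω => ¬ Q g)).card : ℝ) ≤
      p * Fintype.card (ι → Ω)) :
    ((univ.filter (fun F : Fin R × ι → Ω =>
        bB < (univ.filter (fun j : Fin R => ¬ Q (fun k => F (j, k)))).card)).card : ℝ) *
      (bB + 1) ≤ p * R * Fintype.card (Fin R × ι → Ω) := by
  have h1 : (univ.filter (fun F : Fin R × ι → Ω =>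
        bB < (univ.filter (fun j : Fin R => ¬ Q (fun k => F (j, k)))).card)).card * (bB + 1) ≤
      ∑ F : Fin R × ι → Ω, (univ.filter (fun j : Fin R => ¬ Q (fun k => F (j, k)))).card := by
    calc _ = ∑ F ∈ univ.filter (fun F : Fin R × ι → Ω =>
        bB < (univ.filter (fun j : Fin R => ¬ Q (fun k => F (j, k)))).card), (bB + 1) := by
          rw [Finset.sum_const, smul_eq_mul]
      _ ≤ ∑ F ∈ univ.filter (fun F : Fin R × ι → Ω =>
        bB < (univ.filter (fun j : Fin R => ¬ Q (fun k => F (j, k)))).card),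
          (univ.filter (fun j : Fin R => ¬ Q (fun k => F (j, k)))).card := by
          apply Finset.sum_le_sum
          intro F hF
          exact (mem_filter.1 hF).2
      _ ≤ _ := Finset.sum_le_sum_of_subset (Finset.filter_subset _ _)
  have h2 : ∑ F : Fin R × ι → Ω, (univ.filter (fun j : Fin R => ¬ Q (fun k => F (j, k)))).card =
      ∑ j : Fin R, (univ.filter (fun F : Fin R × ι → Ω => ¬ Q (fun k => F (j, k)))).card := by
    simp only [Finset.card_filter]
    rw [Finset.sum_comm]
  have h3 : ((∑ j : Fin R, (univ.filter (fun F : Fin R × ι → Ω =>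
      ¬ Q (fun k => F (j, k)))).card : ℕ) : ℝ) ≤ ∑ _j : Fin R,
        p * Fintype.card (Fin R × ι → Ω) := by
    push_cast
    exact Finset.sum_le_sum fun j _ => block_one R Q hp j
  rw [Finset.sum_const, Finset.card_univ, Fintype.card_fin, nsmul_eq_mul] at h3
  have h4 : (((univ.filter (fun F : Fin R × ι → Ω =>
        bB < (univ.filter (fun j : Fin R => ¬ Q (fun k => F (j, k)))).card)).card *
          (bB + 1) : ℕ) : ℝ) ≤ ((∑ j : Fin R, (univ.filter (fun F : Fin R × ι → Ω =>
      ¬ Q (fun k => F (j, k)))).card : ℕ) : ℝ) := by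
    exact_mod_cast h1.trans h2.le
  push_cast at h4
  push_cast at h3
  calc _ ≤ _ := h4
    _ ≤ _ := h3
    _ = _ := by ring

end Pool.Agent.Helper5.CV
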