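import Mathlib
import Pool.Agent.Helper5.CV.Defs

/-!
# The biased clique game: the true data, trimming, profiles (definitions)
-/

set_option autoImplicit false

namespace Pool.Agent.Helper5.CV

open Finset Pool.Agent.Helper25.CliqueGame
open Pool.Agent.Helper78.CG (EI)

/-- The thresholds: `F = e^{Γ/16}`, `p0 = e^{-Γ/16}`, `p1 = e^{-Γ/8}`, `p2 = e^{-(j0-1)Γ}`. -/
noncomputable def thr (Γ : ℝ) (j0 : ℕ) : Thr where
  F := Real.exp (Γ / 16)
  p0 := Real.exp (-(Γ / 16))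
  p1 := Real.exp (-(Γ / 8))
  p2 := Real.exp (-(((j0 : ℝ) - 1) * Γ))

/-- The raw bucket of a vertex: `⌈ln(|ℬ|/n(v))/Γ⌉`. -/
noncomputable def bkt {V : Type*} [DecidableEq V] (ℬ : Finset (Finset V)) (Γ : ℝ) (v : V) : ℕ :=
  ⌈Real.log ((ℬ.card : ℝ) / nn ℬ {v}) / Γ⌉₊

open Classical in
/-- The vertices which see the root: no edge of Breaker, at most `s2` unclaimed edges. -/
noncomputable def Zs {N : ℕ} (P : Pos (Sym2 (Fin N))) (ρ : Finset (Fin N)) (s2 : ℝ) :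
    Finset (Fin N) :=
  univ.filter (fun v => v ∉ ρ ∧ Disjoint (bip ρ {v}) P.B ∧ ((bip ρ {v} \ P.M).card : ℝ) ≤ s2)

open Classical in
/-- The bucket of a vertex: `0` if it is not in `Z` or if its raw bucket is not in `[j0, nb]`. -/
noncomputable def bkD {V : Type*} [DecidableEq V] (ℬ : Finset (Finset V)) (Γ : ℝ) (Z : Finset V)
    (j0 nb : ℕ) (v : V) : ℕ :=
  if v ∈ Z ∧ 0 < nn ℬ {v} ∧ j0 ≤ bkt ℬ Γ v ∧ bkt ℬ Γ v ≤ nb then bkt ℬ Γ v else 0

open Classical in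
/-- The true data. -/
noncomputable def dat {N : ℕ} (P : Pos (Sym2 (Fin N))) (ℬ : Finset (Finset (Fin N))) (Γ : ℝ)
    (Z : Finset (Fin N)) (j0 nb : ℕ) : Dat (Fin N) where
  bk := bkD ℬ Γ Z j0 nb
  sm := univ.filter (fun p => 1 ≤ bkD ℬ Γ Z j0 nb p.1 ∧ 1 ≤ bkD ℬ Γ Z j0 nb p.2 ∧
    Sim ℬ (thr Γ j0) p.1 p.2)
  tn := fun e => if e ∈ P.B then 0 else
    if e ∈ P.M ∧ ∀ x y, e = s(x, y) → ¬ B0 ℬ (thr Γ j0) x y then tix P.mv e + 2 else 1

/-- The trimmed set: bucketed points whose bucket is not `≡ i0 - 3` modulo `K`. -/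
def trim {V : Type*} [DecidableEq V] (d : Dat V) (K i0 : ℕ) (B : Finset V) : Finset V :=
  B.filter (fun v => 1 ≤ d.bk v ∧ (d.bk v + 3) % K ≠ i0 % K)

/-- The lost pairs of `A`: the sum of the buckets is `≡ i0 + 1` or `≡ i0 + 2` modulo `K`. -/
def lost {V : Type*} [DecidableEq V] (d : Dat V) (K i0 : ℕ) (A : Finset V) : Finset (Sym2 V) :=
  A.sym2.filter (fun e => ¬ e.IsDiag ∧
    (bks d e % K = (i0 + 1) % K ∨ bks d e % K = (i0 + 2) % K))

open Classical in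
/-- The good window pairs of `A` (inside `B ∈ ℬ`) at the level `i`. -/
noncomputable def gp {N : ℕ} (P : Pos (Sym2 (Fin N))) (ℬ : Finset (Finset (Fin N))) (T : Thr)
    (d : Dat (Fin N)) (K i : ℕ) (B A : Finset (Fin N)) : Finset (Sym2 (Fin N)) :=
  (wp d K i A).filter (fun e => e ∈ P.M ∧ ∀ x y, e = s(x, y) → ¬ Bad ℬ (tn0 P) T B x y)

/-- The number of classes of the new part at the level `l`. -/
noncomputable def tl {V : Type*} [DecidableEq V] (d : Dat V) (K i0 l : ℕ) (B : Finset V) : ℕ :=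
  ((nw d K (i0 + K * (l + 1)) (old d (i0 + K * (l + 1)) (trim d K i0 B))).image
    (cl d.sm (nw d K (i0 + K * (l + 1)) (old d (i0 + K * (l + 1)) (trim d K i0 B))))).card

/-- The cost of the good window pairs at the level `l`. -/
noncomputable def cwl {N : ℕ} (m b : ℕ) (P : Pos (Sym2 (Fin N))) (ℬ : Finset (Finset (Fin N)))
    (T : Thr) (d : Dat (Fin N)) (K i0 l : ℕ) (B : Finset (Fin N)) : ℝ :=
  cw m b d.sm (old d (i0 + K * (l + 1)) (trim d K i0 B))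
    (gp P ℬ T d K (i0 + K * (l + 1)) B (old d (i0 + K * (l + 1)) (trim d K i0 B)))

/-- The parameters of the recursion for the offset `i0` and the profile `(t, c)`. -/
noncomputable def mkY (q K : ℕ) (Γ ηB ηC : ℝ) (i0 : ℕ) (t c : ℕ → ℕ) : Sys where
  q := q
  r0 := ⌈Real.exp (((i0 : ℝ) + 1 / 2) * Γ)⌉₊
  R := ⌈Real.exp ((K : ℝ) * Γ)⌉₊
  K := K
  i0 := i0
  t := t
  c := c
  cB := fun l => ⌊ηC * ((⌈Real.exp ((K : ℝ) * Γ)⌉₊ : ℝ) ^ (l + 1) *
    ⌈Real.exp (((i0 : ℝ) + 1 / 2) * Γ)⌉₊) * (q : ℝ) ^ 2⌋₊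
  bB := ⌊ηB * ⌈Real.exp ((K : ℝ) * Γ)⌉₊⌋₊

/-- The profiles: for every level the number of classes (at most `q`) and the cost (at most `cm`). -/
abbrev Prof (q cm tp : ℕ) := Fin tp → Fin (q + 1) × Fin (cm + 1)

/-- The number of classes of the profile as a function on `ℕ`. -/
def Prof.t {q cm tp : ℕ} (π : Prof q cm tp) (l : ℕ) : ℕ := if h : l < tp then (π ⟨l, h⟩).1 else 0

/-- The cost of the profile as a function on `ℕ`. -/
def Prof.c {q cm tp : ℕ} (π : Prof q cm tp) (l : ℕ) : ℕ := if h : l < tp then (π ⟨l, h⟩).2 else 0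

/-- The complete static family: the two star families and the families of all levels, offsets
(`lo ≤ i0 < lo + K`) and profiles. -/
noncomputable def w0 {N : ℕ} (m b q r K : ℕ) (Γ ηB ηC : ℝ) (lo cm tp nb nt : ℕ)
    (S : Finset (Sym2 (Fin N))) : ℝ :=
  wD1 q r S + wD2 q S +
    ∑ i0 ∈ Ico lo (lo + K), ∑ π : Prof q cm tp, ∑ l ∈ range tp,
      ((K : ℝ) * (Fintype.card (Prof q cm tp) : ℝ) * tp)⁻¹ *
        wlev m b (mkY q K Γ ηB ηC i0 π.t π.c) l nb nt S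

end Pool.Agent.Helper5.CV
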