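import Mathlib
import Pool.Agent.Helper5.CV.Defs

/-!
# MP_d32cb0_co, module P01: degrees in a family of sets, links

`nn ℱ R` = number of members of `ℱ` containing `R`; `lk ℱ W` = link (`A \ W` for `W ⊆ A ∈ ℱ`).
PROOFS.  `sum_nn_insert`: double count the pairs `(x, A)`, `x ∉ W`, `W + x ⊆ A`: every `A ⊇ W` has `s - |W|` such `x`.
`sum_nn_powersetCard`: double count the pairs `(W, A)`.  `card_lk`: `A ↦ A \ W` is injective on `{A ⊇ W}`.
`nn_lk`: `A ↦ A \ W` is a bijection from `{A ∈ ℱ : W ∪ R ⊆ A}` to `{B ∈ lk : R ⊆ B}` when `R` is disjoint from `W`.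
`sum_lk`: `Finset.sum_image` with this injectivity.
-/

set_option autoImplicit false

namespace Pool.Agent.Helper5.CV

open Finset

variable {V : Type*} [DecidableEq V]

theorem nn_anti (ℱ : Finset (Finset V)) {R R' : Finset V} (h : R ⊆ R') : nn ℱ R' ≤ nn ℱ R := by
  unfold nn
  apply Finset.card_le_card
  intro A hA
  rw [Finset.mem_filter] at hA ⊢
  exact ⟨hA.1, h.trans hA.2⟩

theorem nn_empty (ℱ : Finset (Finset V)) : nn ℱ ∅ = ℱ.card := by
  unfold nn
  rw [Finset.filter_true_of_mem]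
  intro A _
  exact Finset.empty_subset A

theorem nn_pos_of_mem {ℱ : Finset (Finset V)} {A R : Finset V} (hA : A ∈ ℱ) (h : R ⊆ A) :
    0 < nn ℱ R := by
  unfold nn
  exact Finset.card_pos.mpr ⟨A, Finset.mem_filter.mpr ⟨hA, h⟩⟩

theorem nn_le_card (ℱ : Finset (Finset V)) (R : Finset V) : nn ℱ R ≤ ℱ.card := by
  unfold nn
  exact Finset.card_filter_le _ _

theorem sum_nn_insert [Fintype V] {ℱ : Finset (Finset V)} {s : ℕ} (hs : ∀ A ∈ ℱ, A.card = s)
    (W : Finset V) : ∑ x ∈ univ \ W, nn ℱ (insert x W) = (s - W.card) * nn ℱ W := by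
  have h1 : ∀ x : V, nn ℱ (insert x W) =
      ∑ A ∈ ℱ.filter (fun A => W ⊆ A), if x ∈ A then 1 else 0 := by
    intro x
    unfold nn
    rw [← Finset.card_filter, Finset.filter_filter]
    congr 1
    ext A
    simp only [Finset.mem_filter, Finset.insert_subset_iff]
    tauto
  have h2 : ∀ A ∈ ℱ.filter (fun A => W ⊆ A),
      (∑ x ∈ univ \ W, if x ∈ A then 1 else 0) = s - W.card := by
    intro A hA
    rw [Finset.mem_filter] at hA
    rw [← Finset.card_filter]
    have h3 : (univ \ W).filter (fun x => x ∈ A) = A \ W := by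
      ext x
      simp only [Finset.mem_filter, Finset.mem_sdiff, Finset.mem_univ, true_and]
      tauto
    rw [h3, Finset.card_sdiff_of_subset hA.2, hs A hA.1]
  calc ∑ x ∈ univ \ W, nn ℱ (insert x W)
      = ∑ x ∈ univ \ W, ∑ A ∈ ℱ.filter (fun A => W ⊆ A), (if x ∈ A then 1 else 0) :=
        Finset.sum_congr rfl (fun x _ => h1 x)
    _ = ∑ A ∈ ℱ.filter (fun A => W ⊆ A), ∑ x ∈ univ \ W, (if x ∈ A then 1 else 0) :=
        Finset.sum_comm
    _ = ∑ A ∈ ℱ.filter (fun A => W ⊆ A), (s - W.card) := Finset.sum_congr rfl h2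
    _ = (s - W.card) * nn ℱ W := by
        rw [Finset.sum_const, smul_eq_mul, mul_comm]
        rfl

theorem sum_nn_powersetCard [Fintype V] {ℱ : Finset (Finset V)} {s : ℕ}
    (hs : ∀ A ∈ ℱ, A.card = s) (k : ℕ) :
    ∑ W ∈ powersetCard k (univ : Finset V), nn ℱ W = ℱ.card * s.choose k := by
  have h1 : ∀ W : Finset V, nn ℱ W = ∑ A ∈ ℱ, if W ⊆ A then 1 else 0 := by
    intro W
    unfold nn
    rw [← Finset.card_filter]
  have h2 : ∀ A ∈ ℱ, (∑ W ∈ powersetCard k (univ : Finset V), if W ⊆ A then 1 else 0) =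
      s.choose k := by
    intro A hA
    rw [← Finset.card_filter]
    have h3 : (powersetCard k (univ : Finset V)).filter (fun W => W ⊆ A) = powersetCard k A := by
      ext W
      simp only [Finset.mem_filter, Finset.mem_powersetCard, Finset.subset_univ, true_and]
      tauto
    rw [h3, Finset.card_powersetCard, hs A hA]
  calc ∑ W ∈ powersetCard k (univ : Finset V), nn ℱ W
      = ∑ W ∈ powersetCard k (univ : Finset V), ∑ A ∈ ℱ, (if W ⊆ A then 1 else 0) :=
        Finset.sum_congr rfl (fun W _ => h1 W)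
    _ = ∑ A ∈ ℱ, ∑ W ∈ powersetCard k (univ : Finset V), (if W ⊆ A then 1 else 0) :=
        Finset.sum_comm
    _ = ∑ A ∈ ℱ, s.choose k := Finset.sum_congr rfl h2
    _ = ℱ.card * s.choose k := by rw [Finset.sum_const, smul_eq_mul]

theorem sum_nn_singleton [Fintype V] {ℱ : Finset (Finset V)} {s : ℕ}
    (hs : ∀ A ∈ ℱ, A.card = s) : ∑ x : V, nn ℱ {x} = s * ℱ.card := by
  have h := sum_nn_insert hs (∅ : Finset V)
  rw [Finset.sdiff_empty, nn_empty, Finset.card_empty, Nat.sub_zero] at h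
  rw [← h]
  rfl

private theorem card_filter_mem_le [Fintype V] (A : Finset V) :
    (∑ x : V, if x ∈ A then 1 else 0) = A.card := by
  rw [← Finset.card_filter]
  congr 1
  ext x
  simp

theorem sum_nn_pair_le [Fintype V] {ℱ : Finset (Finset V)} {s : ℕ}
    (hs : ∀ A ∈ ℱ, A.card ≤ s) (a : V) : ∑ x : V, nn ℱ {a, x} ≤ s * nn ℱ {a} := by
  have h1 : ∀ x : V, nn ℱ {a, x} =
      ∑ A ∈ ℱ.filter (fun A => {a} ⊆ A), if x ∈ A then 1 else 0 := by
    intro x
    unfold nn
    rw [← Finset.card_filter, Finset.filter_filter]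
    congr 1
    ext A
    simp only [Finset.mem_filter, Finset.insert_subset_iff, Finset.singleton_subset_iff]
  calc ∑ x : V, nn ℱ {a, x}
      = ∑ x : V, ∑ A ∈ ℱ.filter (fun A => {a} ⊆ A), (if x ∈ A then 1 else 0) :=
        Finset.sum_congr rfl (fun x _ => h1 x)
    _ = ∑ A ∈ ℱ.filter (fun A => {a} ⊆ A), ∑ x : V, (if x ∈ A then 1 else 0) :=
        Finset.sum_comm
    _ = ∑ A ∈ ℱ.filter (fun A => {a} ⊆ A), A.card :=
        Finset.sum_congr rfl (fun A _ => card_filter_mem_le A)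
    _ ≤ ∑ A ∈ ℱ.filter (fun A => {a} ⊆ A), s :=
        Finset.sum_le_sum (fun A hA => hs A (Finset.mem_filter.mp hA).1)
    _ = s * nn ℱ {a} := by
        rw [Finset.sum_const, smul_eq_mul, mul_comm]
        rfl

theorem mem_lk {ℱ : Finset (Finset V)} {W B : Finset V} :
    B ∈ lk ℱ W ↔ Disjoint W B ∧ W ∪ B ∈ ℱ := by
  unfold lk
  rw [Finset.mem_image]
  constructor
  · rintro ⟨A, hA, rfl⟩
    rw [Finset.mem_filter] at hA
    refine ⟨Finset.disjoint_sdiff, ?_⟩
    rw [Finset.union_sdiff_of_subset hA.2]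
    exact hA.1
  · rintro ⟨hd, hm⟩
    refine ⟨W ∪ B, Finset.mem_filter.mpr ⟨hm, Finset.subset_union_left⟩, ?_⟩
    rw [Finset.union_sdiff_left, Finset.sdiff_eq_self_iff_disjoint]
    exact hd.symm

private theorem inj_sdiff (ℱ : Finset (Finset V)) (W : Finset V) :
    Set.InjOn (fun A : Finset V => A \ W) (ℱ.filter (fun A => W ⊆ A) : Finset (Finset V)) := by
  intro A hA A' hA' h
  rw [Finset.mem_coe, Finset.mem_filter] at hA hA'
  have h' : A \ W = A' \ W := h
  calc A = W ∪ (A \ W) := (Finset.union_sdiff_of_subset hA.2).symm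
    _ = W ∪ (A' \ W) := by rw [h']
    _ = A' := Finset.union_sdiff_of_subset hA'.2

theorem card_lk (ℱ : Finset (Finset V)) (W : Finset V) : (lk ℱ W).card = nn ℱ W := by
  unfold lk nn
  exact Finset.card_image_of_injOn (inj_sdiff ℱ W)

theorem nn_lk (ℱ : Finset (Finset V)) {W R : Finset V} (h : Disjoint W R) :
    nn (lk ℱ W) R = nn ℱ (W ∪ R) := by
  have h1 : (lk ℱ W).filter (fun B => R ⊆ B) =
      (ℱ.filter (fun A => W ∪ R ⊆ A)).image (fun A => A \ W) := by
    ext B
    rw [Finset.mem_filter, mem_lk, Finset.mem_image]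
    constructor
    · rintro ⟨⟨hd, hm⟩, hR⟩
      refine ⟨W ∪ B, Finset.mem_filter.mpr ⟨hm, Finset.union_subset_union_right hR⟩, ?_⟩
      rw [Finset.union_sdiff_left, Finset.sdiff_eq_self_iff_disjoint]
      exact hd.symm
    · rintro ⟨A, hA, rfl⟩
      rw [Finset.mem_filter] at hA
      have hW : W ⊆ A := Finset.union_subset_left hA.2
      have hRA : R ⊆ A := Finset.union_subset_right hA.2
      refine ⟨⟨Finset.disjoint_sdiff, ?_⟩, ?_⟩
      · rw [Finset.union_sdiff_of_subset hW]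
        exact hA.1
      · intro x hx
        rw [Finset.mem_sdiff]
        exact ⟨hRA hx, fun hxW => (Finset.disjoint_left.mp h hxW) hx⟩
  have h2 : nn (lk ℱ W) R = ((lk ℱ W).filter (fun B => R ⊆ B)).card := rfl
  rw [h2, h1]
  unfold nn
  apply Finset.card_image_of_injOn
  apply (inj_sdiff ℱ W).mono
  intro A hA
  rw [Finset.mem_coe, Finset.mem_filter] at hA ⊢
  exact ⟨hA.1, Finset.union_subset_left hA.2⟩

theorem sum_lk (ℱ : Finset (Finset V)) (W : Finset V) (g : Finset V → ℕ) :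
    ∑ B ∈ lk ℱ W, g B = ∑ A ∈ ℱ.filter (fun A => W ⊆ A), g (A \ W) := by
  unfold lk
  exact Finset.sum_image (inj_sdiff ℱ W)

end Pool.Agent.Helper5.CV
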