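import Mathlib
import Pool.Agent.Helper5.CV.DefsT
import Pool.Agent.Helper5.CV.NN

/-!
# MP_d32cb0_co, module T01: buckets

`x = log(|ℬ|/n(v))/Γ ≥ 0`, `bkt = ⌈x⌉₊`, `n(v) = |ℬ| e^{-xΓ}` (`n(v) > 0`).
PROOFS.  `bkD_spec`: `1 ≤ bkD` forces the `if` to be true, `bkD = ⌈x⌉₊ = j`: `x ≤ j` (`Nat.le_ceil`) and `j - 1 < x`
(`Nat.ceil_lt_add_one`, `x ≥ 0` because `n(v) ≤ |ℬ|`), so `e^{-jΓ}|ℬ| ≤ n(v) < e^{-(j-1)Γ}|ℬ|`; with `j ≥ j0`: `n(v) < p2 |ℬ|`.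
`bkD_cases`: `⌈x⌉₊ < j0` gives `x ≤ j0 - 1`, so `n(v) ≥ p2|ℬ|`; `⌈x⌉₊ > nb` gives `x > nb` (`Nat.lt_ceil`).
`sim_bkD`: if `bkD a ≥ bkD c + 2` then `n(a) < e^{-(bkD a - 1)Γ}|ℬ| ≤ e^{-Γ} e^{-bkD c Γ}|ℬ| ≤ e^{-Γ} n(c)`, but `e^{-Γ/8} n(c) ≤ n(ac) ≤ n(a)`.
`card_low`: each such `v` has `n(v) ≥ e^{-jΓ}|ℬ|`, and `Σ_v n(v) = Σ_B |B| ≤ q|ℬ|`.
-/

set_option autoImplicit false

namespace Pool.Agent.Helper5.CV

open Finset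

variable {V : Type*} [DecidableEq V]

private theorem bkt_le_iff {ℬ : Finset (Finset V)} {Γ : ℝ} (hΓ : 0 < Γ) {v : V}
    (hn : 0 < nn ℬ {v}) (j : ℕ) :
    bkt ℬ Γ v ≤ j ↔ Real.exp (-((j : ℝ) * Γ)) * ℬ.card ≤ nn ℬ {v} := by
  have hn' : (0 : ℝ) < nn ℬ {v} := by exact_mod_cast hn
  have hc : (0 : ℝ) < ℬ.card := by
    have : nn ℬ {v} ≤ ℬ.card := nn_le_card ℬ {v}
    have h2 : 0 < ℬ.card := by omega
    exact_mod_cast h2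
  unfold bkt
  rw [Nat.ceil_le, div_le_iff₀ hΓ, Real.log_le_iff_le_exp (div_pos hc hn'), div_le_iff₀ hn',
    Real.exp_neg, inv_mul_le_iff₀ (Real.exp_pos _)]

theorem bkD_le {ℬ : Finset (Finset V)} {Γ : ℝ} {Z : Finset V} {j0 nb : ℕ} (v : V) :
    bkD ℬ Γ Z j0 nb v ≤ nb := by
  unfold bkD
  split_ifs with h
  · exact h.2.2.2
  · exact Nat.zero_le _

set_option linter.unusedVariables false in
theorem bkD_spec {ℬ : Finset (Finset V)} {Γ : ℝ} {Z : Finset V} {j0 nb : ℕ} (hΓ : 0 < Γ)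
    (hj0 : 1 ≤ j0) {v : V} (h : 1 ≤ bkD ℬ Γ Z j0 nb v) :
    v ∈ Z ∧ 0 < nn ℬ {v} ∧ j0 ≤ bkD ℬ Γ Z j0 nb v ∧ bkD ℬ Γ Z j0 nb v ≤ nb ∧
      Real.exp (-((bkD ℬ Γ Z j0 nb v : ℝ) * Γ)) * ℬ.card ≤ nn ℬ {v} ∧
      (nn ℬ {v} : ℝ) < Real.exp (-(((bkD ℬ Γ Z j0 nb v : ℝ) - 1) * Γ)) * ℬ.card ∧
      (nn ℬ {v} : ℝ) < (thr Γ j0).p2 * nn ℬ ∅ := by
  have hif : v ∈ Z ∧ 0 < nn ℬ {v} ∧ j0 ≤ bkt ℬ Γ v ∧ bkt ℬ Γ v ≤ nb := by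
    by_contra hno
    unfold bkD at h
    rw [if_neg hno] at h
    omega
  have he : bkD ℬ Γ Z j0 nb v = bkt ℬ Γ v := by
    unfold bkD
    rw [if_pos hif]
  rw [he]
  obtain ⟨h1, h2, h3, h4⟩ := hif
  have h5 : (nn ℬ {v} : ℝ) < Real.exp (-(((bkt ℬ Γ v : ℝ) - 1) * Γ)) * ℬ.card := by
    have h6 : ¬ bkt ℬ Γ v ≤ bkt ℬ Γ v - 1 := by omega
    rw [bkt_le_iff hΓ h2, not_le] at h6
    rwa [Nat.cast_sub (by omega : 1 ≤ bkt ℬ Γ v), Nat.cast_one] at h6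
  refine ⟨h1, h2, h3, h4, (bkt_le_iff hΓ h2 _).1 le_rfl, h5, ?_⟩
  refine h5.trans_le ?_
  rw [nn_empty]
  refine mul_le_mul_of_nonneg_right ?_ (Nat.cast_nonneg _)
  change Real.exp _ ≤ Real.exp _
  rw [Real.exp_le_exp]
  have h7 : (j0 : ℝ) ≤ bkt ℬ Γ v := by exact_mod_cast h3
  nlinarith

theorem bkD_cases {ℬ : Finset (Finset V)} {Γ : ℝ} {Z : Finset V} {j0 nb : ℕ} (hΓ : 0 < Γ)
    (hj0 : 1 ≤ j0) {v : V} (hv : v ∈ Z) (hn : 0 < nn ℬ {v}) :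
    1 ≤ bkD ℬ Γ Z j0 nb v ∨ (thr Γ j0).p2 * ℬ.card ≤ (nn ℬ {v} : ℝ) ∨
      (nn ℬ {v} : ℝ) < Real.exp (-((nb : ℝ) * Γ)) * ℬ.card := by
  by_cases h1 : j0 ≤ bkt ℬ Γ v
  · by_cases h2 : bkt ℬ Γ v ≤ nb
    · left
      unfold bkD
      rw [if_pos ⟨hv, hn, h1, h2⟩]
      exact hj0.trans h1
    · right; right
      rwa [bkt_le_iff hΓ hn, not_le] at h2
  · right; left
    have h2 : bkt ℬ Γ v ≤ j0 - 1 := by omega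
    rw [bkt_le_iff hΓ hn, Nat.cast_sub hj0, Nat.cast_one] at h2
    exact h2

theorem sim_bkD {ℬ : Finset (Finset V)} {Γ : ℝ} {Z : Finset V} {j0 nb : ℕ} (hΓ : 0 < Γ)
    (hj0 : 1 ≤ j0) {a c : V} (ha : 1 ≤ bkD ℬ Γ Z j0 nb a) (hc : 1 ≤ bkD ℬ Γ Z j0 nb c)
    (h : Sim ℬ (thr Γ j0) a c) : bkD ℬ Γ Z j0 nb a ≤ bkD ℬ Γ Z j0 nb c + 1 := by
  by_contra hlt
  push Not at hlt
  obtain ⟨-, ha2, -, -, -, ha6, -⟩ := bkD_spec hΓ hj0 ha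
  obtain ⟨-, hc2, -, -, hc5, -, -⟩ := bkD_spec hΓ hj0 hc
  set x := bkD ℬ Γ Z j0 nb a
  set y := bkD ℬ Γ Z j0 nb c
  have hxy : (y : ℝ) + 2 ≤ x := by exact_mod_cast hlt
  have h1 : Real.exp (-(((x : ℝ) - 1) * Γ)) ≤ Real.exp (-Γ) * Real.exp (-((y : ℝ) * Γ)) := by
    rw [← Real.exp_add, Real.exp_le_exp]
    nlinarith
  have h2 : (nn ℬ {a} : ℝ) < Real.exp (-Γ) * nn ℬ {c} := by
    calc (nn ℬ {a} : ℝ) < Real.exp (-(((x : ℝ) - 1) * Γ)) * ℬ.card := ha6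
      _ ≤ (Real.exp (-Γ) * Real.exp (-((y : ℝ) * Γ))) * ℬ.card :=
        mul_le_mul_of_nonneg_right h1 (Nat.cast_nonneg _)
      _ = Real.exp (-Γ) * (Real.exp (-((y : ℝ) * Γ)) * ℬ.card) := by ring
      _ ≤ Real.exp (-Γ) * nn ℬ {c} := mul_le_mul_of_nonneg_left hc5 (Real.exp_pos _).le
  have h3 : Real.exp (-(Γ / 8)) * nn ℬ {c} ≤ (nn ℬ {a, c} : ℝ) := h.2
  have h4 : (nn ℬ {a, c} : ℝ) ≤ nn ℬ {a} := by
    have : nn ℬ {a, c} ≤ nn ℬ {a} := nn_anti ℬ (by simp)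
    exact_mod_cast this
  have h5 : Real.exp (-Γ) ≤ Real.exp (-(Γ / 8)) := by
    rw [Real.exp_le_exp]; linarith
  have h6 : (0 : ℝ) < nn ℬ {c} := by exact_mod_cast hc2
  have h7 := mul_le_mul_of_nonneg_right h5 h6.le
  linarith

theorem card_low [Fintype V] {ℬ : Finset (Finset V)} {Γ : ℝ} {Z : Finset V} {j0 nb q : ℕ}
    (hne : ℬ.Nonempty) (hΓ : 0 < Γ) (hj0 : 1 ≤ j0) (hs : ∀ B ∈ ℬ, B.card ≤ q) (j : ℕ) :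
    ((univ.filter (fun v => 1 ≤ bkD ℬ Γ Z j0 nb v ∧ bkD ℬ Γ Z j0 nb v ≤ j)).card : ℝ) ≤
      q * Real.exp (j * Γ) := by
  have hc : (0 : ℝ) < ℬ.card := by exact_mod_cast hne.card_pos
  set F := univ.filter (fun v => 1 ≤ bkD ℬ Γ Z j0 nb v ∧ bkD ℬ Γ Z j0 nb v ≤ j) with hF
  have h1 : (F.card : ℝ) * (Real.exp (-((j : ℝ) * Γ)) * ℬ.card) ≤ ∑ v ∈ F, (nn ℬ {v} : ℝ) := by
    rw [← nsmul_eq_mul]
    refine Finset.card_nsmul_le_sum _ _ _ (fun v hv => ?_)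
    rw [hF, Finset.mem_filter] at hv
    obtain ⟨-, -, -, -, h5, -, -⟩ := bkD_spec hΓ hj0 hv.2.1
    refine le_trans ?_ h5
    refine mul_le_mul_of_nonneg_right ?_ hc.le
    rw [Real.exp_le_exp]
    have h6 : (bkD ℬ Γ Z j0 nb v : ℝ) ≤ j := by exact_mod_cast hv.2.2
    nlinarith
  have h2 : ∑ v ∈ F, nn ℬ {v} ≤ q * ℬ.card := by
    calc ∑ v ∈ F, nn ℬ {v} = ∑ v ∈ F, ∑ A ∈ ℬ, (if v ∈ A then 1 else 0) := by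
          refine Finset.sum_congr rfl (fun v _ => ?_)
          unfold nn
          rw [← Finset.card_filter]
          congr 1
          ext A
          simp
      _ = ∑ A ∈ ℬ, ∑ v ∈ F, (if v ∈ A then 1 else 0) := Finset.sum_comm
      _ ≤ ∑ A ∈ ℬ, q := by
          refine Finset.sum_le_sum (fun A hA => ?_)
          rw [← Finset.card_filter]
          refine le_trans (Finset.card_le_card ?_) (hs A hA)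
          intro v hv
          exact (Finset.mem_filter.1 hv).2
      _ = q * ℬ.card := by rw [Finset.sum_const, smul_eq_mul, mul_comm]
  have h3 : ∑ v ∈ F, (nn ℬ {v} : ℝ) ≤ q * ℬ.card := by exact_mod_cast h2
  have h4 : (F.card : ℝ) * Real.exp (-((j : ℝ) * Γ)) ≤ q := by
    have h5 := h1.trans h3
    rw [← mul_assoc] at h5
    exact le_of_mul_le_mul_right h5 hc
  rw [Real.exp_neg, ← div_eq_mul_inv, div_le_iff₀ (Real.exp_pos _)] at h4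
  exact h4

end Pool.Agent.Helper5.CV
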