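import Mathlib
import Pool.Agent.Helper5.CV.Defs
import Pool.Agent.Helper5.CV.NN

/-!
# MP_d32cb0_co, module P03: `0 ≤ φ_k ≤ ln N`

PROOF.  For `W` with `n = n(W) > 0` put `p_x = n(W+x)/((s-k) n)` for `x ∉ W`: `Σ p_x = 1` (`sum_nn_insert`), at most `N`
indices.  `Σ_x n(W+x) ln(n/n(W+x)) = n (s-k) Σ_x p_x ln(1/((s-k) p_x)) ≤ n (s-k) Σ_x p_x ln(1/p_x) ≤ n (s-k) ln N`
(Jensen, or `ln(1/(N p)) ≤ 1/(N p) - 1` and summing: `Σ p ln(1/(N p)) ≤ Σ (1/N - p) ≤ 0`; terms with `p = 0` are `0`).
All terms are `≥ 0` since `n(W+x) ≤ n(W)`.  Sum over `W` with `Σ_W n(W) = |ℱ| C(s,k)`.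
-/

set_option autoImplicit false

namespace Pool.Agent.Helper5.CV

open Finset

variable {V : Type*} [DecidableEq V]

theorem phi_nonneg [Fintype V] {ℱ : Finset (Finset V)} {s k : ℕ} (hk : k < s) :
    0 ≤ phi ℱ s k := by
  have _ := hk
  unfold phi
  apply div_nonneg
  · refine sum_nonneg (fun W _ => sum_nonneg (fun x _ => ?_))
    rcases Nat.eq_zero_or_pos (nn ℱ (insert x W)) with h0 | h0
    · rw [h0]; simp
    · have h1 : nn ℱ (insert x W) ≤ nn ℱ W := nn_anti ℱ (subset_insert x W)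
      have h0' : (0 : ℝ) < nn ℱ (insert x W) := by exact_mod_cast h0
      have h1' : (nn ℱ (insert x W) : ℝ) ≤ nn ℱ W := by exact_mod_cast h1
      apply mul_nonneg h0'.le
      apply Real.log_nonneg
      rw [le_div_iff₀ h0']
      linarith
  · positivity

private theorem one_W [Fintype V] {ℱ : Finset (Finset V)} {s k : ℕ} (hN : 0 < Fintype.card V)
    (hs : ∀ A ∈ ℱ, A.card = s) (hk : k < s) (W : Finset V) (hW : W.card = k) :
    ∑ x ∈ univ \ W, (nn ℱ (insert x W) : ℝ) * Real.log ((nn ℱ W : ℝ) / nn ℱ (insert x W)) ≤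
      (nn ℱ W : ℝ) * (s - k : ℕ) * Real.log (Fintype.card V) := by
  set N : ℝ := (Fintype.card V : ℝ) with hNdef
  have hN' : 0 < N := by rw [hNdef]; exact_mod_cast hN
  set d : ℝ := ((s - k : ℕ) : ℝ) with hd
  have hd1 : 1 ≤ d := by
    rw [hd]; exact_mod_cast (show 1 ≤ s - k by omega)
  have hsum : ∑ x ∈ univ \ W, (nn ℱ (insert x W) : ℝ) = d * nn ℱ W := by
    have := sum_nn_insert hs W
    rw [hW] at this
    rw [hd]
    exact_mod_cast this
  have hn0 : (0 : ℝ) ≤ nn ℱ W := Nat.cast_nonneg _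
  have hterm : ∀ x ∈ univ \ W,
      (nn ℱ (insert x W) : ℝ) * Real.log ((nn ℱ W : ℝ) / nn ℱ (insert x W)) ≤
        nn ℱ W * d / N - nn ℱ (insert x W) + nn ℱ (insert x W) * Real.log N := by
    intro x _
    rcases Nat.eq_zero_or_pos (nn ℱ (insert x W)) with h0 | h0
    · rw [h0]
      simp only [Nat.cast_zero, zero_mul, sub_zero, add_zero]
      positivity
    · have h1 : nn ℱ (insert x W) ≤ nn ℱ W := nn_anti ℱ (subset_insert x W)
      have h0' : (0 : ℝ) < nn ℱ (insert x W) := by exact_mod_cast h0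
      have h1' : (nn ℱ (insert x W) : ℝ) ≤ nn ℱ W := by exact_mod_cast h1
      have hn : (0 : ℝ) < nn ℱ W := lt_of_lt_of_le h0' h1'
      set c : ℝ := (nn ℱ (insert x W) : ℝ) with hc
      set n : ℝ := (nn ℱ W : ℝ) with hnn
      have hdpos : 0 < d := by linarith
      have e1 : Real.log (n / c) = Real.log (d * n / (N * c)) + Real.log N - Real.log d := by
        have : n / c = d * n / (N * c) * N / d := by
          field_simp
        rw [this, Real.log_div (by positivity) (by positivity),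
          Real.log_mul (by positivity) (by positivity)]
      have e2 : Real.log (d * n / (N * c)) ≤ d * n / (N * c) - 1 :=
        Real.log_le_sub_one_of_pos (by positivity)
      have e3 : 0 ≤ Real.log d := Real.log_nonneg hd1
      have e4 : c * (d * n / (N * c) - 1) = n * d / N - c := by
        field_simp
      have e5 : Real.log (n / c) ≤ (d * n / (N * c) - 1) + Real.log N := by linarith
      have e6 := mul_le_mul_of_nonneg_left e5 h0'.le
      rw [mul_add, e4] at e6
      exact e6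
  refine (sum_le_sum hterm).trans ?_
  rw [sum_add_distrib, sum_sub_distrib, ← sum_mul, hsum, sum_const, nsmul_eq_mul]
  have hcard : ((univ \ W).card : ℝ) ≤ N := by
    rw [hNdef]; exact_mod_cast (card_le_univ _)
  have h7 : ((univ \ W).card : ℝ) * (nn ℱ W * d / N) ≤ N * (nn ℱ W * d / N) := by
    apply mul_le_mul_of_nonneg_right hcard
    positivity
  have h8 : N * (nn ℱ W * d / N) = nn ℱ W * d := by field_simp
  have h9 : (nn ℱ W : ℝ) * d * Real.log N = d * nn ℱ W * Real.log N := by ring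
  rw [h9]
  rw [h8] at h7
  linarith

theorem phi_le [Fintype V] {ℱ : Finset (Finset V)} {s k : ℕ} (hne : ℱ.Nonempty)
    (hs : ∀ A ∈ ℱ, A.card = s) (hk : k < s) :
    phi ℱ s k ≤ Real.log (Fintype.card V) := by
  obtain ⟨A, hA⟩ := hne
  have hN : 0 < Fintype.card V := by
    have h1 := hs A hA
    have h2 := card_le_univ A
    omega
  have hF : 0 < ℱ.card := card_pos.2 ⟨A, hA⟩
  have hF' : (0 : ℝ) < ℱ.card := by exact_mod_cast hF
  have hC : (0 : ℝ) < s.choose k := by exact_mod_cast Nat.choose_pos hk.le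
  have hd : (0 : ℝ) < (s - k : ℕ) := by exact_mod_cast (show 0 < s - k by omega)
  unfold phi
  rw [div_le_iff₀ (by positivity)]
  have hsum : ∑ W ∈ powersetCard k (univ : Finset V), (nn ℱ W : ℝ) = ℱ.card * s.choose k := by
    exact_mod_cast sum_nn_powersetCard hs k
  calc ∑ W ∈ powersetCard k (univ : Finset V), ∑ x ∈ univ \ W,
        (nn ℱ (insert x W) : ℝ) * Real.log ((nn ℱ W : ℝ) / nn ℱ (insert x W))
      ≤ ∑ W ∈ powersetCard k (univ : Finset V),
          (nn ℱ W : ℝ) * (s - k : ℕ) * Real.log (Fintype.card V) := by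
        apply sum_le_sum
        intro W hW
        exact one_W hN hs hk W (mem_powersetCard.1 hW).2
    _ = Real.log (Fintype.card V) * (ℱ.card * s.choose k * (s - k : ℕ)) := by
        rw [← sum_mul, ← sum_mul, hsum]
        ring

end Pool.Agent.Helper5.CV
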