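import Mathlib
import Pool.Agent.Helper5.CV.Defs
import Pool.Agent.Helper5.CV.NN

/-!
# MP_d32cb0_co, module P02: the mass of a property of ordered pairs

`mass ℱ k Pr` = number of (A, W, (x, y)), A ∈ ℱ, W ⊆ A, |W| = k, x ≠ y in A \ W, with `Pr W A x y`.
PROOFS.  `mass_eq`: exchange the sums (for given `W, x, y` with `x, y ∉ W`, `x ≠ y`, the members `A` with
`W + x + y ⊆ A` are counted by `nn ℱ (insert x (insert y W))`).  `mass_total`: `mass_eq` or directly.
`mass_le_of_cond`: exchange the sums, the inner count is over the `A ⊇ W + x + y`.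
`mass_choose`: choosing `W` (Markov twice): weights `n(W)/(|ℱ| C(s,k))` on the `k`-sets `W`:
`Σ_W n(W) [4 N^k n(W) < |ℱ|] ≤ C(N,k) |ℱ|/(4N^k) ≤ |ℱ|/4 ≤ |ℱ| C(s,k)/4`, and
`Σ_W n(W) [4 ε s^2 n(W) < mass_W] ≤ Σ_W mass_W/(4 ε s^2) ≤ |ℱ| C(s,k)/4` where `mass_W = Σ_{A ⊇ W} #{(x,y) : Pr W A x y}`,
`Σ_W mass_W = mass`.  Since `Σ_W n(W) = |ℱ| C(s,k)` (`sum_nn_powersetCard`), some `W` with `n(W) > 0` has neither property.
-/

set_option autoImplicit false

namespace Pool.Agent.Helper5.CV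

open Finset

variable {V : Type*} [DecidableEq V]

private theorem card_filter_or_le {α : Type*} (s : Finset α) (p q r : α → Prop)
    (dp : DecidablePred p) (dq : DecidablePred q) (dr : DecidablePred r)
    (h : ∀ a ∈ s, r a → p a ∨ q a) :
    (@Finset.filter α r dr s).card ≤
      (@Finset.filter α p dp s).card + (@Finset.filter α q dq s).card := by
  classical
  refine le_trans (Finset.card_le_card ?_) (Finset.card_union_le _ _)
  intro a ha
  rw [Finset.mem_filter] at ha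
  rw [Finset.mem_union, Finset.mem_filter, Finset.mem_filter]
  rcases h a ha.1 ha.2 with h | h
  · exact Or.inl ⟨ha.1, h⟩
  · exact Or.inr ⟨ha.1, h⟩

private theorem filter_true_eq {α : Type*} (s : Finset α)
    (d : DecidablePred (fun _ : α => True)) : @Finset.filter α (fun _ => True) d s = s := by
  ext a
  simp only [Finset.mem_filter, and_true]

theorem mass_mono (ℱ : Finset (Finset V)) (k : ℕ) {P Q : Finset V → Finset V → V → V → Prop}
    (h : ∀ A ∈ ℱ, ∀ W ⊆ A, W.card = k → ∀ x ∈ A \ W, ∀ y ∈ A \ W, x ≠ y → P W A x y → Q W A x y) :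
    mass ℱ k P ≤ mass ℱ k Q := by
  classical
  unfold mass
  refine Finset.sum_le_sum fun A hA => Finset.sum_le_sum fun W hW => Finset.card_le_card ?_
  rw [Finset.mem_powersetCard] at hW
  intro p hp
  rw [Finset.mem_filter] at hp ⊢
  obtain ⟨h1, h2, h3⟩ := Finset.mem_offDiag.1 hp.1
  exact ⟨hp.1, h A hA W hW.1 hW.2 p.1 h1 p.2 h2 h3 hp.2⟩

theorem mass_or_le (ℱ : Finset (Finset V)) (k : ℕ) (P Q : Finset V → Finset V → V → V → Prop) :
    mass ℱ k (fun W A x y => P W A x y ∨ Q W A x y) ≤ mass ℱ k P + mass ℱ k Q := by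
  classical
  unfold mass
  rw [← Finset.sum_add_distrib]
  refine Finset.sum_le_sum fun A _ => ?_
  rw [← Finset.sum_add_distrib]
  refine Finset.sum_le_sum fun W _ => ?_
  exact card_filter_or_le _ _ _ _ _ _ _ (fun a _ h => h)

open Classical in
private theorem mass_eq_sum [Fintype V] (ℱ : Finset (Finset V)) (k : ℕ)
    (Pr : Finset V → Finset V → V → V → Prop) :
    mass ℱ k Pr = ∑ W ∈ powersetCard k (univ : Finset V), ∑ A ∈ ℱ.filter (fun A => W ⊆ A),
      ((A \ W).offDiag.filter (fun p => Pr W A p.1 p.2)).card := by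
  unfold mass
  refine Finset.sum_comm' ?_
  intro A W
  simp only [Finset.mem_powersetCard, Finset.mem_filter, Finset.subset_univ, true_and]
  tauto

open Classical in
private theorem card_offDiag_filter [Fintype V] (A W : Finset V) (hW : W ⊆ A) (P : V → V → Prop) :
    ((A \ W).offDiag.filter (fun p => P p.1 p.2)).card =
      ∑ x ∈ univ \ W, ∑ y ∈ univ \ insert x W,
        if insert x (insert y W) ⊆ A ∧ P x y then 1 else 0 := by
  rw [Finset.sum_sigma' (univ \ W) (fun x => univ \ insert x W)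
    (fun x y => if insert x (insert y W) ⊆ A ∧ P x y then 1 else 0), ← Finset.card_filter]
  refine Finset.card_bij' (fun p _ => ⟨p.1, p.2⟩) (fun p _ => (p.1, p.2)) ?_ ?_ ?_ ?_
  · intro p hp
    simp only [Finset.mem_filter, Finset.mem_offDiag, Finset.mem_sdiff, Finset.mem_sigma,
      Finset.mem_univ, true_and, Finset.mem_insert, not_or, Finset.insert_subset_iff] at hp ⊢
    obtain ⟨⟨⟨h1, h2⟩, ⟨h3, h4⟩, h5⟩, h6⟩ := hp
    exact ⟨⟨h2, fun h => h5 h.symm, h4⟩, ⟨h1, h3, hW⟩, h6⟩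
  · intro p hp
    simp only [Finset.mem_filter, Finset.mem_offDiag, Finset.mem_sdiff, Finset.mem_sigma,
      Finset.mem_univ, true_and, Finset.mem_insert, not_or, Finset.insert_subset_iff] at hp ⊢
    obtain ⟨⟨h2, h5, h4⟩, ⟨h1, h3, _⟩, h6⟩ := hp
    exact ⟨⟨⟨h1, h2⟩, ⟨h3, h4⟩, fun h => h5 h.symm⟩, h6⟩
  · intro p _
    rfl
  · intro p _
    rfl

open Classical in
private theorem mass_eq_gen [Fintype V] (ℱ : Finset (Finset V)) (k : ℕ)
    (Pr : Finset V → Finset V → V → V → Prop) :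
    mass ℱ k Pr = ∑ W ∈ powersetCard k (univ : Finset V), ∑ x ∈ univ \ W,
      ∑ y ∈ univ \ insert x W,
        (ℱ.filter (fun A => insert x (insert y W) ⊆ A ∧ Pr W A x y)).card := by
  rw [mass_eq_sum]
  refine Finset.sum_congr rfl fun W _ => ?_
  have h1 : ∀ A ∈ ℱ.filter (fun A => W ⊆ A),
      ((A \ W).offDiag.filter (fun p => Pr W A p.1 p.2)).card =
      ∑ x ∈ univ \ W, ∑ y ∈ univ \ insert x W,
        if insert x (insert y W) ⊆ A ∧ Pr W A x y then 1 else 0 := by
    intro A hA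
    exact card_offDiag_filter A W (Finset.mem_filter.1 hA).2 (fun x y => Pr W A x y)
  rw [Finset.sum_congr rfl h1, Finset.sum_comm]
  refine Finset.sum_congr rfl fun x _ => ?_
  rw [Finset.sum_comm]
  refine Finset.sum_congr rfl fun y _ => ?_
  rw [← Finset.card_filter, Finset.filter_filter]
  congr 1
  refine Finset.filter_congr fun A _ => ?_
  constructor
  · rintro ⟨_, h, h'⟩
    exact ⟨h, h'⟩
  · rintro ⟨h, h'⟩
    refine ⟨?_, h, h'⟩
    exact fun z hz => h (Finset.mem_insert_of_mem (Finset.mem_insert_of_mem hz))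

open Classical in
theorem mass_eq [Fintype V] (ℱ : Finset (Finset V)) (k : ℕ) (Q : Finset V → V → V → Prop) :
    mass ℱ k (fun W _ x y => Q W x y) =
      ∑ W ∈ powersetCard k (univ : Finset V), ∑ x ∈ univ \ W, ∑ y ∈ univ \ insert x W,
        if Q W x y then nn ℱ (insert x (insert y W)) else 0 := by
  rw [mass_eq_gen]
  refine Finset.sum_congr rfl fun W _ => Finset.sum_congr rfl fun x _ =>
    Finset.sum_congr rfl fun y _ => ?_
  by_cases h : Q W x y
  · rw [if_pos h]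
    unfold nn
    congr 1
    refine Finset.filter_congr fun A _ => ?_
    simp [h]
  · rw [if_neg h]
    simp [h]

theorem mass_total {ℱ : Finset (Finset V)} {s : ℕ} (hs : ∀ A ∈ ℱ, A.card = s) {k : ℕ}
    (hk : k + 2 ≤ s) :
    mass ℱ k (fun _ _ _ _ => True) = ℱ.card * s.choose k * (s - k) * (s - k - 1) := by
  unfold mass
  have h1 : ∀ A ∈ ℱ, (∑ W ∈ A.powersetCard k,
      ((A \ W).offDiag).card) = s.choose k * ((s - k) * (s - k - 1)) := by
    intro A hA
    have h2 : ∀ W ∈ A.powersetCard k,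
        ((A \ W).offDiag).card = (s - k) * (s - k - 1) := by
      intro W hW
      rw [Finset.mem_powersetCard] at hW
      rw [Finset.offDiag_card, Finset.card_sdiff_of_subset hW.1, hs A hA, hW.2]
      exact (Nat.mul_sub_one _ _).symm
    rw [Finset.sum_congr rfl h2, Finset.sum_const, Finset.card_powersetCard, hs A hA, smul_eq_mul]
  have h3 : (∑ A ∈ ℱ, ∑ W ∈ A.powersetCard k, ((A \ W).offDiag).card) =
      ∑ A ∈ ℱ, s.choose k * ((s - k) * (s - k - 1)) := Finset.sum_congr rfl h1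
  have h4 : (∑ A ∈ ℱ, s.choose k * ((s - k) * (s - k - 1))) =
      ℱ.card * s.choose k * (s - k) * (s - k - 1) := by
    rw [Finset.sum_const, smul_eq_mul]
    ring
  rw [← h4, ← h3]
  exact Finset.sum_congr rfl fun A _ => Finset.sum_congr rfl fun W _ =>
    congrArg Finset.card (filter_true_eq _ _)

open Classical in
theorem mass_le_of_cond [Fintype V] {ℱ : Finset (Finset V)} {s : ℕ}
    (hs : ∀ A ∈ ℱ, A.card = s) {k : ℕ} (hk : k + 2 ≤ s) (Pr : Finset V → Finset V → V → V → Prop)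
    {ε : ℝ} (hε : 0 ≤ ε)
    (h : ∀ W x y, W.card = k → x ∉ W → y ∉ W → x ≠ y →
      ((ℱ.filter (fun A => insert x (insert y W) ⊆ A ∧ Pr W A x y)).card : ℝ) ≤
        ε * nn ℱ (insert x (insert y W))) :
    (mass ℱ k Pr : ℝ) ≤ ε * (ℱ.card * s.choose k * (s - k : ℕ) * (s - k - 1 : ℕ)) := by
  have h1 : (ε * (ℱ.card * s.choose k * (s - k : ℕ) * (s - k - 1 : ℕ)) : ℝ) =
      ε * (mass ℱ k (fun _ _ _ _ => True) : ℕ) := by
    rw [mass_total hs hk]
    push_cast
    ring
  rw [h1, mass_eq ℱ k (fun _ _ _ => True), mass_eq_gen]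
  push_cast
  rw [Finset.mul_sum]
  refine Finset.sum_le_sum fun W hW => ?_
  rw [Finset.mul_sum]
  refine Finset.sum_le_sum fun x hx => ?_
  rw [Finset.mul_sum]
  refine Finset.sum_le_sum fun y hy => ?_
  rw [Finset.mem_sdiff, Finset.mem_insert, not_or] at hy
  rw [Finset.mem_sdiff] at hx
  exact h W x y (Finset.mem_powersetCard.1 hW).2 hx.2 hy.2.2 (fun h => hy.2.1 h.symm)

open Classical in
theorem mass_choose [Fintype V] {ℱ : Finset (Finset V)} {s k : ℕ} (hne : ℱ.Nonempty)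
    (hs : ∀ A ∈ ℱ, A.card = s) (hk : k ≤ s) (hV : 1 ≤ Fintype.card V)
    (Pr : Finset V → Finset V → V → V → Prop) {ε : ℝ} (hε : 0 < ε) (hs1 : 1 ≤ s)
    (h : (mass ℱ k Pr : ℝ) ≤ ε * (ℱ.card * s.choose k * (s : ℝ) ^ 2)) :
    ∃ W : Finset V, W.card = k ∧ 0 < nn ℱ W ∧
      (ℱ.card : ℝ) ≤ 4 * (Fintype.card V : ℝ) ^ k * nn ℱ W ∧
      ((∑ A ∈ ℱ.filter (fun A => W ⊆ A),
        ((A \ W).offDiag.filter (fun p => Pr W A p.1 p.2)).card : ℕ) : ℝ) ≤
          4 * ε * (s : ℝ) ^ 2 * nn ℱ W := by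
  by_contra hcon
  push Not at hcon
  set mW : Finset V → ℕ := fun W => ∑ A ∈ ℱ.filter (fun A => W ⊆ A),
        ((A \ W).offDiag.filter (fun p => Pr W A p.1 p.2)).card with hmW
  have hmass : mass ℱ k Pr = ∑ W ∈ powersetCard k (univ : Finset V), mW W := mass_eq_sum ℱ k Pr
  have hF : (0 : ℝ) < ℱ.card := by exact_mod_cast hne.card_pos
  have hC : (0 : ℝ) < s.choose k := by exact_mod_cast Nat.choose_pos hk
  have hC1 : (1 : ℝ) ≤ s.choose k := by exact_mod_cast Nat.choose_pos hk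
  have hN : (1 : ℝ) ≤ (Fintype.card V : ℝ) := by exact_mod_cast hV
  have hNk : (0 : ℝ) < (Fintype.card V : ℝ) ^ k := by positivity
  have hs0 : (0 : ℝ) < (s : ℝ) := by exact_mod_cast hs1
  have hes : 0 < 4 * ε * (s : ℝ) ^ 2 := by positivity
  -- pointwise bound
  have key : ∀ W ∈ powersetCard k (univ : Finset V),
      (nn ℱ W : ℝ) ≤ (ℱ.card : ℝ) / (4 * (Fintype.card V : ℝ) ^ k) +
        (mW W : ℝ) / (4 * ε * (s : ℝ) ^ 2) := by
    intro W hW
    have hWk := (Finset.mem_powersetCard.1 hW).2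
    have hm0 : (0 : ℝ) ≤ (mW W : ℝ) / (4 * ε * (s : ℝ) ^ 2) := by positivity
    have hf0 : (0 : ℝ) ≤ (ℱ.card : ℝ) / (4 * (Fintype.card V : ℝ) ^ k) := by positivity
    rcases Nat.eq_zero_or_pos (nn ℱ W) with h0 | h0
    · rw [h0]
      push_cast
      linarith
    · by_cases hb : (ℱ.card : ℝ) ≤ 4 * (Fintype.card V : ℝ) ^ k * nn ℱ W
      · have h2 := hcon W hWk h0 hb
        have h3 : (nn ℱ W : ℝ) ≤ (mW W : ℝ) / (4 * ε * (s : ℝ) ^ 2) := by
          rw [le_div_iff₀ hes]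
          have : (4 * ε * (s : ℝ) ^ 2 * nn ℱ W : ℝ) < (mW W : ℝ) := h2
          linarith
        linarith
      · push Not at hb
        have h3 : (nn ℱ W : ℝ) ≤ (ℱ.card : ℝ) / (4 * (Fintype.card V : ℝ) ^ k) := by
          rw [le_div_iff₀ (by positivity)]
          linarith
        linarith
  have hsum := Finset.sum_le_sum key
  have h1 : (∑ W ∈ powersetCard k (univ : Finset V), (nn ℱ W : ℝ)) = ℱ.card * s.choose k := by
    have := sum_nn_powersetCard hs k
    exact_mod_cast this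
  rw [h1, Finset.sum_add_distrib, Finset.sum_const, Finset.card_powersetCard, Finset.card_univ,
    nsmul_eq_mul, ← Finset.sum_div] at hsum
  have h2 : (((Fintype.card V).choose k : ℕ) : ℝ) ≤ (Fintype.card V : ℝ) ^ k := by
    exact_mod_cast Nat.choose_le_pow (Fintype.card V) k
  have h3 : (((Fintype.card V).choose k : ℕ) : ℝ) *
      ((ℱ.card : ℝ) / (4 * (Fintype.card V : ℝ) ^ k)) ≤ (ℱ.card : ℝ) / 4 := by
    rw [mul_div_assoc', div_le_div_iff₀ (by positivity) (by norm_num)]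
    nlinarith [mul_le_mul_of_nonneg_right h2 hF.le]
  have h4 : (∑ W ∈ powersetCard k (univ : Finset V), (mW W : ℝ)) / (4 * ε * (s : ℝ) ^ 2) ≤
      (ℱ.card * s.choose k : ℝ) / 4 := by
    have h5 : (∑ W ∈ powersetCard k (univ : Finset V), (mW W : ℝ)) ≤
        ε * (ℱ.card * s.choose k * (s : ℝ) ^ 2) := by
      have : ((∑ W ∈ powersetCard k (univ : Finset V), mW W : ℕ) : ℝ) ≤
        ε * (ℱ.card * s.choose k * (s : ℝ) ^ 2) := by
        rw [← hmass]
        exact h
      push_cast at this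
      exact this
    rw [div_le_div_iff₀ hes (by norm_num)]
    nlinarith [h5]
  have h6 : (ℱ.card : ℝ) / 4 ≤ (ℱ.card * s.choose k : ℝ) / 4 := by
    have : (ℱ.card : ℝ) * 1 ≤ ℱ.card * s.choose k := mul_le_mul_of_nonneg_left hC1 hF.le
    linarith
  have h7 : (0 : ℝ) < ℱ.card * s.choose k := mul_pos hF hC
  linarith

end Pool.Agent.Helper5.CV
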