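import Mathlib
import Pool.Agent.Helper5.CV.Defs
import Pool.Agent.Helper5.CV.NN
import Pool.Agent.Helper5.CV.Mass
import Pool.Agent.Helper5.CV.Phi

/-!
# MP_d32cb0_co, module P04: the quotient `rat` and its logarithm

`D = |ℱ| C(s,k) (s-k) (s-k-1)`.  `Y = ln rat(W,x,y)`, `rat = n(W) n(W+x+y) / (n(W+x) n(W+y))`.
Put `e_k = phi k - phi (k+1)`.
PROOFS.
* `sum_log_rat`: where `n(W+x+y) > 0`: `ln rat = ln(n(W)/n(W+y)) - ln(n(W+x)/n(W+x+y))`.  First part: for fixed `W, y`: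
  `Σ_x n(W+x+y) = (s-k-1) n(W+y)`, so the sum is `(s-k-1) Σ_W Σ_y n(W+y) ln(n(W)/n(W+y)) = D phi k`.  Second part: substitute
  `W' = W + x` (a `(k+1)`-set; every `W'` arises `k+1` times): `(k+1) Σ_{W'} Σ_{y∉W'} n(W'+y) ln(n(W')/n(W'+y))
  = (k+1) |ℱ| C(s,k+1) (s-k-1) phi (k+1) = D phi (k+1)` (`Nat.succ_mul_choose_eq`-like: `(k+1) C(s,k+1) = (s-k) C(s,k)`).
* `sum_inv_rat`: `Σ_{W,x≠y} n(W+x+y)/rat ≤ Σ_W Σ_{x,y} n(W+x) n(W+y)/n(W) ≤ Σ_W (s-k)^2 n(W) = |ℱ| C(s,k) (s-k)^2 ≤ 2 D`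
  (`s-k ≤ 2(s-k-1)` as `s - k ≥ 2`).
* `e_lower`: `ln rat ≥ 1 - 1/rat`, so `D e_k ≥ D - Σ n/rat ≥ D - 2D = -D` , i.e. `e_k ≥ -1`.
* `tail`: for `τ > 0`, the mass of `rat ≥ e^τ` (weights `n(W+x+y)`) is `≤ D (e_k + 2)/τ`:
  `τ 1[Y ≥ τ] ≤ Y^+ = Y + Y^-` and `Y^- ≤ e^{-Y}`; sum with `sum_log_rat` and `sum_inv_rat`.
-/

set_option autoImplicit false

namespace Pool.Agent.Helper5.CV

open Finset

variable {V : Type*} [DecidableEq V]

/-- raise the size by one -/
private theorem rt_sum_up [Fintype V] (k : ℕ) (g : Finset V → ℝ) :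
    ∑ W ∈ powersetCard k (univ : Finset V), ∑ x ∈ univ \ W, g (insert x W) =
      ((k : ℝ) + 1) * ∑ W ∈ powersetCard (k + 1) (univ : Finset V), g W := by
  have h1 : ((k : ℝ) + 1) * ∑ W ∈ powersetCard (k + 1) (univ : Finset V), g W =
      ∑ W ∈ powersetCard (k + 1) (univ : Finset V), ∑ _x ∈ W, g W := by
    rw [mul_sum]
    apply sum_congr rfl
    intro W hW
    rw [sum_const, (mem_powersetCard.1 hW).2, nsmul_eq_mul]
    push_cast
    ring
  rw [h1, sum_sigma', sum_sigma']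
  refine sum_bij' (fun p _ => ⟨insert p.2 p.1, p.2⟩) (fun p _ => ⟨p.1.erase p.2, p.2⟩)
    ?_ ?_ ?_ ?_ ?_
  · rintro ⟨W, x⟩ h
    simp only [mem_sigma, mem_powersetCard, mem_sdiff, subset_univ, mem_univ, true_and] at h ⊢
    refine ⟨?_, mem_insert_self _ _⟩
    rw [card_insert_of_notMem h.2, h.1]
  · rintro ⟨W, x⟩ h
    simp only [mem_sigma, mem_powersetCard, mem_sdiff, subset_univ, mem_univ, true_and] at h ⊢
    refine ⟨?_, notMem_erase _ _⟩
    rw [card_erase_of_mem h.2, h.1]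
    rfl
  · rintro ⟨W, x⟩ h
    simp only [mem_sigma, mem_powersetCard, mem_sdiff, subset_univ, mem_univ, true_and] at h
    simp only [erase_insert h.2]
  · rintro ⟨W, x⟩ h
    simp only [mem_sigma, mem_powersetCard, subset_univ, true_and] at h
    simp only [insert_erase h.2]
  · rintro ⟨W, x⟩ _
    rfl

/-- exchange the two last elements -/
private theorem rt_swap [Fintype V] (W : Finset V) (f : V → V → ℝ) :
    ∑ x ∈ univ \ W, ∑ y ∈ univ \ insert x W, f x y =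
      ∑ y ∈ univ \ W, ∑ x ∈ univ \ insert y W, f x y := by
  apply sum_comm'
  intro x y
  simp only [mem_sdiff, mem_univ, mem_insert, true_and, not_or]
  constructor
  · rintro ⟨h1, h2, h3⟩
    exact ⟨⟨fun h => h2 h.symm, h1⟩, h3⟩
  · rintro ⟨⟨h1, h2⟩, h3⟩
    exact ⟨h2, fun h => h1 h.symm, h3⟩

private theorem rt_ins [Fintype V] {ℱ : Finset (Finset V)} {s : ℕ} (hs : ∀ A ∈ ℱ, A.card = s)
    (W : Finset V) {k : ℕ} (hW : W.card = k) :
    ∑ x ∈ univ \ W, (nn ℱ (insert x W) : ℝ) = ((s - k : ℕ) : ℝ) * nn ℱ W := by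
  rw [← hW]
  exact_mod_cast sum_nn_insert hs W

private theorem rt_tot [Fintype V] {ℱ : Finset (Finset V)} {s : ℕ} (hs : ∀ A ∈ ℱ, A.card = s)
    (k : ℕ) : ∑ W ∈ powersetCard k (univ : Finset V), (nn ℱ W : ℝ) =
      ℱ.card * s.choose k := by
  exact_mod_cast sum_nn_powersetCard hs k

private theorem rt_total [Fintype V] {ℱ : Finset (Finset V)} {s k : ℕ}
    (hs : ∀ A ∈ ℱ, A.card = s) :
    ∑ W ∈ powersetCard k (univ : Finset V), ∑ x ∈ univ \ W, ∑ y ∈ univ \ insert x W,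
      (nn ℱ (insert x (insert y W)) : ℝ) =
    (ℱ.card * s.choose k * (s - k : ℕ) * (s - k - 1 : ℕ)) := by
  have h1 : ∀ W ∈ powersetCard k (univ : Finset V), ∑ x ∈ univ \ W, ∑ y ∈ univ \ insert x W,
      (nn ℱ (insert x (insert y W)) : ℝ) =
      ((s - k - 1 : ℕ) : ℝ) * (((s - k : ℕ) : ℝ) * nn ℱ W) := by
    intro W hW
    have hW' := (mem_powersetCard.1 hW).2
    rw [← rt_ins hs W hW', mul_sum]
    apply sum_congr rfl
    intro x hx
    rw [mem_sdiff] at hx
    have h2 : (insert x W).card = k + 1 := by rw [card_insert_of_notMem hx.2, hW']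
    have h3 : s - k - 1 = s - (k + 1) := by omega
    rw [h3, ← rt_ins hs (insert x W) h2]
    apply sum_congr rfl
    intro y _
    rw [insert_comm]
  rw [sum_congr rfl h1, ← mul_sum, ← mul_sum, rt_tot hs]
  ring

private theorem rt_phi [Fintype V] {ℱ : Finset (Finset V)} {s k : ℕ} (hne : ℱ.Nonempty)
    (hk : k < s) :
    ∑ W ∈ powersetCard k (univ : Finset V), ∑ x ∈ univ \ W,
      (nn ℱ (insert x W) : ℝ) * Real.log ((nn ℱ W : ℝ) / nn ℱ (insert x W)) =
    (ℱ.card * s.choose k * (s - k : ℕ)) * phi ℱ s k := by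
  have h1 : ((ℱ.card : ℝ) * s.choose k * (s - k : ℕ)) ≠ 0 := by
    have h2 : 0 < ℱ.card := hne.card_pos
    have h3 : 0 < s.choose k := Nat.choose_pos hk.le
    have h4 : 0 < s - k := by omega
    positivity
  unfold phi
  rw [mul_div_cancel₀]
  exact h1

private theorem rt_pos {ℱ : Finset (Finset V)} {W : Finset V} {x y : V}
    (h : 0 < nn ℱ (insert x (insert y W))) :
    0 < nn ℱ W ∧ 0 < nn ℱ (insert x W) ∧ 0 < nn ℱ (insert y W) := by
  refine ⟨lt_of_lt_of_le h (nn_anti ℱ ?_), lt_of_lt_of_le h (nn_anti ℱ ?_),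
    lt_of_lt_of_le h (nn_anti ℱ ?_)⟩
  · exact (subset_insert _ _).trans (subset_insert _ _)
  · exact insert_subset_insert _ (subset_insert _ _)
  · exact subset_insert _ _

theorem sum_log_rat [Fintype V] {ℱ : Finset (Finset V)} {s k : ℕ} (hs : ∀ A ∈ ℱ, A.card = s)
    (hne : ℱ.Nonempty) (hk : k + 2 ≤ s) :
    ∑ W ∈ powersetCard k (univ : Finset V), ∑ x ∈ univ \ W, ∑ y ∈ univ \ insert x W,
      (nn ℱ (insert x (insert y W)) : ℝ) * Real.log (rat ℱ W x y) =
    (ℱ.card * s.choose k * (s - k : ℕ) * (s - k - 1 : ℕ)) * (phi ℱ s k - phi ℱ s (k + 1)) := by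
  have hterm : ∀ W x y, (nn ℱ (insert x (insert y W)) : ℝ) * Real.log (rat ℱ W x y) =
      (nn ℱ (insert x (insert y W)) : ℝ) * Real.log ((nn ℱ W : ℝ) / nn ℱ (insert y W)) -
      (nn ℱ (insert y (insert x W)) : ℝ) *
        Real.log ((nn ℱ (insert x W) : ℝ) / nn ℱ (insert y (insert x W))) := by
    intro W x y
    rw [insert_comm y x W]
    rcases Nat.eq_zero_or_pos (nn ℱ (insert x (insert y W))) with h0 | h0
    · rw [h0]
      simp
    · obtain ⟨h1, h2, h3⟩ := rt_pos h0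
      have h0' : (nn ℱ (insert x (insert y W)) : ℝ) ≠ 0 := by positivity
      have h1' : (nn ℱ W : ℝ) ≠ 0 := by positivity
      have h2' : (nn ℱ (insert x W) : ℝ) ≠ 0 := by positivity
      have h3' : (nn ℱ (insert y W) : ℝ) ≠ 0 := by positivity
      unfold rat
      rw [Real.log_div (mul_ne_zero h1' h0') (mul_ne_zero h2' h3'), Real.log_mul h1' h0',
        Real.log_mul h2' h3', Real.log_div h1' h3', Real.log_div h2' h0']
      ring
  have hA : ∑ W ∈ powersetCard k (univ : Finset V), ∑ x ∈ univ \ W, ∑ y ∈ univ \ insert x W,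
      (nn ℱ (insert x (insert y W)) : ℝ) * Real.log ((nn ℱ W : ℝ) / nn ℱ (insert y W)) =
      ((s - k - 1 : ℕ) : ℝ) * ((ℱ.card * s.choose k * (s - k : ℕ)) * phi ℱ s k) := by
    rw [← rt_phi hne (by omega : k < s), mul_sum]
    apply sum_congr rfl
    intro W hW
    have hW' := (mem_powersetCard.1 hW).2
    rw [rt_swap W (fun x y => (nn ℱ (insert x (insert y W)) : ℝ) *
      Real.log ((nn ℱ W : ℝ) / nn ℱ (insert y W))), mul_sum]
    apply sum_congr rfl
    intro y hy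
    rw [mem_sdiff] at hy
    have h2 : (insert y W).card = k + 1 := by rw [card_insert_of_notMem hy.2, hW']
    have h3 : s - k - 1 = s - (k + 1) := by omega
    rw [← sum_mul, rt_ins hs (insert y W) h2, h3]
    ring
  have hB : ∑ W ∈ powersetCard k (univ : Finset V), ∑ x ∈ univ \ W, ∑ y ∈ univ \ insert x W,
      (nn ℱ (insert y (insert x W)) : ℝ) *
        Real.log ((nn ℱ (insert x W) : ℝ) / nn ℱ (insert y (insert x W))) =
      ((k : ℝ) + 1) * ((ℱ.card * s.choose (k + 1) * (s - (k + 1) : ℕ)) * phi ℱ s (k + 1)) := by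
    rw [← rt_phi hne (by omega : k + 1 < s)]
    exact rt_sum_up k (fun W => ∑ y ∈ univ \ W,
      (nn ℱ (insert y W) : ℝ) * Real.log ((nn ℱ W : ℝ) / nn ℱ (insert y W)))
  have hch : ((s.choose (k + 1) : ℕ) : ℝ) * ((k : ℝ) + 1) = (s.choose k : ℕ) * ((s - k : ℕ) : ℝ) := by
    exact_mod_cast Nat.choose_succ_right_eq s k
  have hsub : ((s - (k + 1) : ℕ) : ℝ) = ((s - k - 1 : ℕ) : ℝ) := by
    rw [Nat.sub_sub]
  calc _ = ∑ W ∈ powersetCard k (univ : Finset V), ∑ x ∈ univ \ W, ∑ y ∈ univ \ insert x W,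
      ((nn ℱ (insert x (insert y W)) : ℝ) * Real.log ((nn ℱ W : ℝ) / nn ℱ (insert y W)) -
      (nn ℱ (insert y (insert x W)) : ℝ) *
        Real.log ((nn ℱ (insert x W) : ℝ) / nn ℱ (insert y (insert x W)))) := by
        apply sum_congr rfl
        intro W _
        apply sum_congr rfl
        intro x _
        apply sum_congr rfl
        intro y _
        exact hterm W x y
    _ = _ := by
        simp only [sum_sub_distrib]
        rw [hA, hB, hsub]
        linear_combination (-(ℱ.card : ℝ) * ((s - k - 1 : ℕ) : ℝ) * phi ℱ s (k + 1)) * hch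

theorem sum_inv_rat [Fintype V] {ℱ : Finset (Finset V)} {s k : ℕ} (hs : ∀ A ∈ ℱ, A.card = s)
    (hk : k + 2 ≤ s) :
    ∑ W ∈ powersetCard k (univ : Finset V), ∑ x ∈ univ \ W, ∑ y ∈ univ \ insert x W,
      (nn ℱ (insert x (insert y W)) : ℝ) * (rat ℱ W x y)⁻¹ ≤
    2 * (ℱ.card * s.choose k * (s - k : ℕ) * (s - k - 1 : ℕ)) := by
  have hterm : ∀ W x y, (nn ℱ (insert x (insert y W)) : ℝ) * (rat ℱ W x y)⁻¹ ≤
      (nn ℱ (insert x W) : ℝ) * (nn ℱ (insert y W) : ℝ) / nn ℱ W := by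
    intro W x y
    rcases Nat.eq_zero_or_pos (nn ℱ (insert x (insert y W))) with h0 | h0
    · rw [h0]
      simp only [Nat.cast_zero, zero_mul]
      positivity
    · obtain ⟨h1, h2, h3⟩ := rt_pos h0
      have h0' : (nn ℱ (insert x (insert y W)) : ℝ) ≠ 0 := by positivity
      have h1' : (nn ℱ W : ℝ) ≠ 0 := by positivity
      have h2' : (nn ℱ (insert x W) : ℝ) ≠ 0 := by positivity
      have h3' : (nn ℱ (insert y W) : ℝ) ≠ 0 := by positivity
      apply le_of_eq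
      unfold rat
      field_simp
  have hW1 : ∀ W ∈ powersetCard k (univ : Finset V), ∑ x ∈ univ \ W, ∑ y ∈ univ \ insert x W,
      (nn ℱ (insert x (insert y W)) : ℝ) * (rat ℱ W x y)⁻¹ ≤
      ((s - k : ℕ) : ℝ) ^ 2 * nn ℱ W := by
    intro W hW
    have hW' := (mem_powersetCard.1 hW).2
    have h1 : ∑ x ∈ univ \ W, ∑ y ∈ univ \ insert x W,
      (nn ℱ (insert x (insert y W)) : ℝ) * (rat ℱ W x y)⁻¹ ≤
      ∑ x ∈ univ \ W, ∑ y ∈ univ \ W,
        (nn ℱ (insert x W) : ℝ) * (nn ℱ (insert y W) : ℝ) / nn ℱ W := by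
      apply sum_le_sum
      intro x _
      refine (sum_le_sum fun y _ => hterm W x y).trans ?_
      apply sum_le_sum_of_subset_of_nonneg
      · exact sdiff_subset_sdiff (subset_refl _) (subset_insert _ _)
      · intro y _ _
        positivity
    refine h1.trans ?_
    have h2 : ∑ x ∈ univ \ W, ∑ y ∈ univ \ W,
        (nn ℱ (insert x W) : ℝ) * (nn ℱ (insert y W) : ℝ) / nn ℱ W =
        (((s - k : ℕ) : ℝ) * nn ℱ W) * (((s - k : ℕ) : ℝ) * nn ℱ W) / nn ℱ W := by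
      rw [← rt_ins hs W hW', sum_mul_sum, sum_div]
      apply sum_congr rfl
      intro x _
      rw [sum_div]
    rw [h2]
    rcases Nat.eq_zero_or_pos (nn ℱ W) with h0 | h0
    · rw [h0]
      simp
    · have h1' : (nn ℱ W : ℝ) ≠ 0 := by positivity
      apply le_of_eq
      field_simp
  refine (sum_le_sum hW1).trans ?_
  rw [← mul_sum, rt_tot hs]
  have h3 : ((s - k : ℕ) : ℝ) ≤ 2 * ((s - k - 1 : ℕ) : ℝ) := by
    have h4 : s - k ≤ 2 * (s - k - 1) := by omega
    exact_mod_cast h4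
  have h5 : (0 : ℝ) ≤ (ℱ.card : ℝ) * s.choose k * ((s - k : ℕ) : ℝ) := by positivity
  nlinarith [mul_le_mul_of_nonneg_left h3 h5]

theorem e_lower [Fintype V] {ℱ : Finset (Finset V)} {s k : ℕ} (hs : ∀ A ∈ ℱ, A.card = s)
    (hne : ℱ.Nonempty) (hk : k + 2 ≤ s) : -1 ≤ phi ℱ s k - phi ℱ s (k + 1) := by
  have hsum : ∑ W ∈ powersetCard k (univ : Finset V), ∑ x ∈ univ \ W, ∑ y ∈ univ \ insert x W,
      ((nn ℱ (insert x (insert y W)) : ℝ) -
        (nn ℱ (insert x (insert y W)) : ℝ) * (rat ℱ W x y)⁻¹) ≤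
      ∑ W ∈ powersetCard k (univ : Finset V), ∑ x ∈ univ \ W, ∑ y ∈ univ \ insert x W,
      (nn ℱ (insert x (insert y W)) : ℝ) * Real.log (rat ℱ W x y) := by
    apply sum_le_sum
    intro W _
    apply sum_le_sum
    intro x _
    apply sum_le_sum
    intro y _
    rcases Nat.eq_zero_or_pos (nn ℱ (insert x (insert y W))) with h0 | h0
    · rw [h0]
      simp
    · obtain ⟨h1, h2, h3⟩ := rt_pos h0
      have hr : 0 < rat ℱ W x y := by
        unfold rat
        positivity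
      have h4 := Real.one_sub_inv_le_log_of_pos hr
      have h5 : (0 : ℝ) ≤ (nn ℱ (insert x (insert y W)) : ℝ) := by positivity
      nlinarith [mul_le_mul_of_nonneg_left h4 h5]
  simp only [sum_sub_distrib] at hsum
  rw [sum_log_rat hs hne hk, rt_total hs] at hsum
  have h2 := sum_inv_rat hs hk (ℱ := ℱ)
  have hD : (0 : ℝ) < ((ℱ.card : ℝ) * s.choose k * (s - k : ℕ) * (s - k - 1 : ℕ)) := by
    have h2 : 0 < ℱ.card := hne.card_pos
    have h3 : 0 < s.choose k := Nat.choose_pos (by omega)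
    have h4 : 0 < s - k := by omega
    have h5 : 0 < s - k - 1 := by omega
    positivity
  by_contra hcon
  push Not at hcon
  have h3 := mul_lt_mul_of_pos_left hcon hD
  linarith

/-- The tail bound, in terms of `mass`. -/
theorem tail [Fintype V] {ℱ : Finset (Finset V)} {s k : ℕ} (hs : ∀ A ∈ ℱ, A.card = s)
    (hne : ℱ.Nonempty) (hk : k + 2 ≤ s) {τ : ℝ} (hτ : 0 < τ) :
    (mass ℱ k (fun W _ x y => Real.exp τ ≤ rat ℱ W x y) : ℝ) ≤
      (phi ℱ s k - phi ℱ s (k + 1) + 2) / τ *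
        (ℱ.card * s.choose k * (s - k : ℕ) * (s - k - 1 : ℕ)) := by
  classical
  have hD : (0 : ℝ) < ((ℱ.card : ℝ) * s.choose k * (s - k : ℕ) * (s - k - 1 : ℕ)) := by
    have h2 : 0 < ℱ.card := hne.card_pos
    have h3 : 0 < s.choose k := Nat.choose_pos (by omega)
    have h4 : 0 < s - k := by omega
    have h5 : 0 < s - k - 1 := by omega
    positivity
  have h1 : τ * (mass ℱ k (fun W _ x y => Real.exp τ ≤ rat ℱ W x y) : ℝ) ≤
      ∑ W ∈ powersetCard k (univ : Finset V), ∑ x ∈ univ \ W, ∑ y ∈ univ \ insert x W,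
      ((nn ℱ (insert x (insert y W)) : ℝ) * Real.log (rat ℱ W x y) +
      (nn ℱ (insert x (insert y W)) : ℝ) * (rat ℱ W x y)⁻¹) := by
    rw [mass_eq ℱ k (fun W x y => Real.exp τ ≤ rat ℱ W x y)]
    push_cast
    rw [mul_sum]
    apply sum_le_sum
    intro W _
    rw [mul_sum]
    apply sum_le_sum
    intro x _
    rw [mul_sum]
    apply sum_le_sum
    intro y _
    rcases Nat.eq_zero_or_pos (nn ℱ (insert x (insert y W))) with h0 | h0
    · rw [h0]
      simp
    · obtain ⟨h1, h2, h3⟩ := rt_pos h0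
      have hr : 0 < rat ℱ W x y := by
        unfold rat
        positivity
      have h5 : (0 : ℝ) ≤ (nn ℱ (insert x (insert y W)) : ℝ) := by positivity
      rw [← mul_add]
      split_ifs with hQ
      · rw [mul_comm τ]
        apply mul_le_mul_of_nonneg_left _ h5
        have h6 : τ ≤ Real.log (rat ℱ W x y) := (Real.le_log_iff_exp_le hr).2 hQ
        have h7 : (0 : ℝ) < (rat ℱ W x y)⁻¹ := inv_pos.2 hr
        linarith
      · rw [mul_zero]
        apply mul_nonneg h5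
        have h6 := Real.one_sub_inv_le_log_of_pos hr
        linarith
  simp only [sum_add_distrib] at h1
  rw [sum_log_rat hs hne hk] at h1
  have h2 := sum_inv_rat hs hk (ℱ := ℱ)
  rw [div_mul_eq_mul_div, le_div_iff₀ hτ]
  linarith

end Pool.Agent.Helper5.CV
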