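import Mathlib
import Pool.Agent.Helper5.CV.Defs
import Pool.Agent.Helper5.CV.Phi
import Pool.Agent.Helper5.CV.Rat

/-!
# MP_d32cb0_co, module P05: the choice of `k`

PROOF.  `Σ_{k=K0}^{2K0-1} [(φ_k - φ_{k+1}) + (φ_{k+1} - φ_{k+2})] = (φ_{K0} - φ_{2K0}) + (φ_{K0+1} - φ_{2K0+1}) ≤ 2L`
(`Finset.sum_range_sub'`; `0 ≤ φ ≤ L` for indices `< s`).  So some `k` has `e_k + e_{k+1} ≤ 2L/K0`; as
`e ≥ -1` (`e_lower`), each of the two is `≤ 2L/K0 + 1`.
-/

set_option autoImplicit false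

namespace Pool.Agent.Helper5.CV

open Finset

variable {V : Type*} [DecidableEq V]

theorem exists_k [Fintype V] {ℱ : Finset (Finset V)} {s K0 : ℕ} (hs : ∀ A ∈ ℱ, A.card = s)
    (hne : ℱ.Nonempty) (hK : 1 ≤ K0) (hKs : 2 * K0 + 3 ≤ s) :
    ∃ k, K0 ≤ k ∧ k < 2 * K0 ∧
      phi ℱ s k - phi ℱ s (k + 1) ≤ 2 * Real.log (Fintype.card V) / K0 + 1 ∧
      phi ℱ s (k + 1) - phi ℱ s (k + 2) ≤ 2 * Real.log (Fintype.card V) / K0 + 1 := by
  by_contra hcon
  push Not at hcon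
  set L : ℝ := Real.log (Fintype.card V) with hL
  have hK' : (0 : ℝ) < K0 := by exact_mod_cast hK
  have hterm : ∀ i ∈ range K0, 2 * L / K0 <
      (phi ℱ s (K0 + i) - phi ℱ s (K0 + (i + 1))) +
      (phi ℱ s (K0 + 1 + i) - phi ℱ s (K0 + 1 + (i + 1))) := by
    intro i hi
    have hi' := mem_range.1 hi
    have e1 : K0 + (i + 1) = K0 + i + 1 := by ring
    have e2 : K0 + 1 + i = K0 + i + 1 := by ring
    have e3 : K0 + 1 + (i + 1) = K0 + i + 2 := by ring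
    rw [e1, e2, e3]
    have h1 := e_lower hs hne (k := K0 + i) (by omega)
    have h2 := e_lower hs hne (k := K0 + i + 1) (by omega)
    have h3 := hcon (K0 + i) (by omega) (by omega)
    by_cases h4 : phi ℱ s (K0 + i) - phi ℱ s (K0 + i + 1) ≤ 2 * L / K0 + 1
    · have h5 := h3 h4
      linarith
    · rw [not_le] at h4
      have h2' : -1 ≤ phi ℱ s (K0 + i + 1) - phi ℱ s (K0 + i + 2) := h2
      linarith
  have hsum := sum_lt_sum_of_nonempty (s := range K0) ⟨0, mem_range.2 hK⟩ hterm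
  rw [sum_const, card_range, nsmul_eq_mul, sum_add_distrib,
    sum_range_sub' (fun i => phi ℱ s (K0 + i)), sum_range_sub' (fun i => phi ℱ s (K0 + 1 + i))]
    at hsum
  have h6 : (K0 : ℝ) * (2 * L / K0) = 2 * L := by field_simp
  rw [h6] at hsum
  have a1 := phi_le hne hs (k := K0 + 0) (by omega)
  have a2 := phi_le hne hs (k := K0 + 1 + 0) (by omega)
  have a3 := phi_nonneg (ℱ := ℱ) (s := s) (k := K0 + K0) (by omega)
  have a4 := phi_nonneg (ℱ := ℱ) (s := s) (k := K0 + 1 + K0) (by omega)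
  linarith

end Pool.Agent.Helper5.CV
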