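import Mathlib
import Pool.Agent.Helper5.CV.Defs
import Pool.Agent.Helper5.CV.NN

/-!
# MP_d32cb0_co, module P10: mates of a good pair are similar

Write `n(R) = nn ℬ R`, `a → b` for `a = b ∨ p1 n(a) ≤ n(ab)`.  All of `x, y, u, v` lie in `A ∈ ℬ`, so all the numbers
`n(..)` of their subsets are `≥ 1`.
PROOF.  (0) For `a ≠ b ∈ {x,y}` or `∈ {u,v}`: `a ↛ b`: by `¬B0`: `n(ab) n(∅) ≤ F n(a) n(b) < F p2 n(a) n(∅)` if `F > 0` (rare `b`), so
`n(ab) < F p2 n(a) ≤ p1 n(a)` (if `F = 0`: `n(ab) n(∅) ≤ 0`, impossible).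
(1) `¬B1` for `(x,y)`: `p0 n(xy) ≤ n(xyuv) ≤ n(xyu), n(xyv)` (and the same for the other three ordered pairs;
`{x,y,u,v}` is a mate in both directions: `tn` equal, `2 ≤ tn`).
(2) `¬B2` for `(x,y)` with the mate `{u,v}`: some `w ∈ {u,v}` has `w ≠ x` and `¬Gm x y w`; since `p0 n(xy) ≤ n(xyw)` this means
`w = y` or `p1 n(y) ≤ n(yw)`, i.e. `y → w`.  So `y → u ∨ y → v`; from `(y,x)`: `x → u ∨ x → v`; from `(u,v)`: `v → x ∨ v → y`;
from `(v,u)`: `u → x ∨ u → y`.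
(3) `¬B3` for `(x,y)`: there is no `z ∈ {u,v}` with `x → z` and `y → z`: for `z ∉ {x,y}` this is B3 (z rare); for `z = x`: `y → x`
contradicts (0); same for `z = y`.  Similarly for `(u,v)`.
(4) So either [`x → u`, `y → v`, `x ↛ v`, `y ↛ u`] or [`x → v`, `y → u`, …].  By symmetry (exchange `u`, `v`) assume the
first.  For `(u,v)`: either [`u → x`, `v → y`]: done; or [`u → y`, `v → x`]: then `x → u → y`: if `u ∉ {x,y}` this is B4
for `(x,y)` (y rare); `u = x`: `x → y` contradicts (0); `u = y`: `x → u = y` contradicts (0).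
The final statement needs both directions: `Sim ℬ T a b` is `a → b` and `b → a` for `a ≠ b` (`{a,b} = {b,a}`: `Finset.pair_comm`).
-/

set_option autoImplicit false

namespace Pool.Agent.Helper5.CV

open Finset

variable {V : Type*} [DecidableEq V]

/-- `a → b`. -/
private def ar (ℬ : Finset (Finset V)) (T : Thr) (a b : V) : Prop :=
  a = b ∨ T.p1 * nn ℬ {a} ≤ (nn ℬ {a, b} : ℝ)

private theorem cm0 {ℬ : Finset (Finset V)} {T : Thr} (hF : 0 ≤ T.F)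
    (hFp : T.F * T.p2 ≤ T.p1) {A : Finset V} (hA : A ∈ ℬ) {x y : V}
    (hx : x ∈ A) (hy : y ∈ A) (hxy : x ≠ y) (h0 : ¬ B0 ℬ T x y)
    (ry : (nn ℬ {y} : ℝ) < T.p2 * nn ℬ ∅) : ¬ ar ℬ T x y := by
  rintro (h | h)
  · exact hxy h
  · have p1 : (0 : ℝ) < nn ℬ {x} := by
      exact_mod_cast nn_pos_of_mem hA (singleton_subset_iff.2 hx)
    have p2 : (0 : ℝ) < nn ℬ {x, y} := by
      exact_mod_cast nn_pos_of_mem hA (insert_subset hx (singleton_subset_iff.2 hy))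
    have p3 : (0 : ℝ) < nn ℬ ∅ := by
      exact_mod_cast nn_pos_of_mem hA (empty_subset A)
    unfold B0 at h0
    rw [not_lt] at h0
    rcases hF.eq_or_lt with hF0 | hF0
    · rw [← hF0, zero_mul, zero_mul] at h0
      have := mul_pos p2 p3
      linarith
    · have h1 : T.F * nn ℬ {x} * nn ℬ {y} < T.F * nn ℬ {x} * (T.p2 * nn ℬ ∅) :=
        mul_lt_mul_of_pos_left ry (mul_pos hF0 p1)
      have h2 : T.F * T.p2 * (nn ℬ {x} * nn ℬ ∅) ≤ T.p1 * (nn ℬ {x} * nn ℬ ∅) :=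
        mul_le_mul_of_nonneg_right hFp (mul_pos p1 p3).le
      have h3 : T.p1 * nn ℬ {x} * nn ℬ ∅ ≤ (nn ℬ {x, y} : ℝ) * nn ℬ ∅ :=
        mul_le_mul_of_nonneg_right h p3.le
      nlinarith

private theorem cm2 {ℬ : Finset (Finset V)} {tn : Sym2 V → ℕ} {T : Thr} {A : Finset V}
    {x y u v : V} (hm : Mate tn A x y u v) (h : ¬ Bad ℬ tn T A x y) :
    ar ℬ T y u ∨ ar ℬ T y v := by
  unfold Bad at h
  push Not at h
  obtain ⟨-, h1, h2, -, -⟩ := h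
  have e1 : T.p0 * nn ℬ {x, y} ≤ (nn ℬ {x, y, u, v} : ℝ) := by
    by_contra h3
    exact h1 ⟨u, v, hm, not_le.1 h3⟩
  have key : ∀ w, w ∈ ({u, v} : Finset V) → ¬ (w = x ∨ Gm ℬ T x y w) → ar ℬ T y w := by
    intro w hw hn
    rw [not_or] at hn
    obtain ⟨hn1, hn2⟩ := hn
    by_cases hwy : w = y
    · exact Or.inl hwy.symm
    · right
      by_contra h4
      apply hn2
      refine ⟨hn1, hwy, e1.trans ?_, not_le.1 h4⟩
      exact_mod_cast nn_anti ℬ (by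
        intro z hz
        simp only [mem_insert, mem_singleton] at hz hw ⊢
        rcases hz with rfl | rfl | rfl
        · exact Or.inl rfl
        · exact Or.inr (Or.inl rfl)
        · rcases hw with rfl | rfl
          · exact Or.inr (Or.inr (Or.inl rfl))
          · exact Or.inr (Or.inr (Or.inr rfl)))
  by_cases hu : (u = x ∨ Gm ℬ T x y u)
  · by_cases hv : (v = x ∨ Gm ℬ T x y v)
    · exact absurd ⟨u, v, hm, hu, hv⟩ h2
    · exact Or.inr (key v (by simp) hv)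
  · exact Or.inl (key u (by simp) hu)

private theorem cm3 {ℬ : Finset (Finset V)} {tn : Sym2 V → ℕ} {T : Thr} (hF : 0 ≤ T.F)
    (hFp : T.F * T.p2 ≤ T.p1) {A : Finset V} (hA : A ∈ ℬ) {x y z : V}
    (hx : x ∈ A) (hy : y ∈ A) (hxy : x ≠ y)
    (rx : (nn ℬ {x} : ℝ) < T.p2 * nn ℬ ∅) (ry : (nn ℬ {y} : ℝ) < T.p2 * nn ℬ ∅)
    (rz : (nn ℬ {z} : ℝ) < T.p2 * nn ℬ ∅)
    (h1 : ¬ Bad ℬ tn T A x y) (h2 : ¬ Bad ℬ tn T A y x) : ¬ (ar ℬ T x z ∧ ar ℬ T y z) := by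
  rintro ⟨a1, a2⟩
  unfold Bad at h1 h2
  push Not at h1 h2
  by_cases hzx : z = x
  · subst hzx
    exact cm0 hF hFp hA hy hx hxy.symm h2.1 rx a2
  · by_cases hzy : z = y
    · subst hzy
      exact cm0 hF hFp hA hx hy hxy h1.1 ry a1
    · rcases a1 with a1 | a1
      · exact hzx a1.symm
      · rcases a2 with a2 | a2
        · exact hzy a2.symm
        · exact h1.2.2.2.1 ⟨h1.1, z, hzx, hzy, rz, a1, a2⟩

private theorem cm4 {ℬ : Finset (Finset V)} {tn : Sym2 V → ℕ} {T : Thr} (hF : 0 ≤ T.F)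
    (hFp : T.F * T.p2 ≤ T.p1) {A : Finset V} (hA : A ∈ ℬ) {x y z : V}
    (hx : x ∈ A) (hy : y ∈ A) (hxy : x ≠ y)
    (ry : (nn ℬ {y} : ℝ) < T.p2 * nn ℬ ∅)
    (h1 : ¬ Bad ℬ tn T A x y) : ¬ (ar ℬ T x z ∧ ar ℬ T z y) := by
  rintro ⟨a1, a2⟩
  unfold Bad at h1
  push Not at h1
  by_cases hzx : z = x
  · subst hzx
    exact cm0 hF hFp hA hx hy hxy h1.1 ry a2
  · by_cases hzy : z = y
    · subst hzy
      exact cm0 hF hFp hA hx hy hxy h1.1 ry a1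
    · rcases a1 with a1 | a1
      · exact hzx a1.symm
      · rcases a2 with a2 | a2
        · exact hzy a2
        · exact h1.2.2.2.2 ⟨h1.1, ry, z, hzx, hzy, a1, a2⟩

private theorem cmS {ℬ : Finset (Finset V)} {T : Thr} {a b : V} (h1 : ar ℬ T a b)
    (h2 : ar ℬ T b a) : a = b ∨ Sim ℬ T a b := by
  rcases h1 with h1 | h1
  · exact Or.inl h1
  · rcases h2 with h2 | h2
    · exact Or.inl h2.symm
    · right
      refine ⟨h1, ?_⟩
      rw [pair_comm a b]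
      exact h2

theorem claimM {ℬ : Finset (Finset V)} {tn : Sym2 V → ℕ} {T : Thr} (hF : 0 ≤ T.F)
    (hFp : T.F * T.p2 ≤ T.p1) {A : Finset V} (hA : A ∈ ℬ) {x y u v : V}
    (hx : x ∈ A) (hy : y ∈ A) (hu : u ∈ A) (hv : v ∈ A) (hxy : x ≠ y) (huv : u ≠ v)
    (hne : s(u, v) ≠ s(x, y)) (ht : 2 ≤ tn s(x, y)) (ht' : tn s(u, v) = tn s(x, y))
    (rx : (nn ℬ {x} : ℝ) < T.p2 * nn ℬ ∅) (ry : (nn ℬ {y} : ℝ) < T.p2 * nn ℬ ∅)
    (ru : (nn ℬ {u} : ℝ) < T.p2 * nn ℬ ∅) (rv : (nn ℬ {v} : ℝ) < T.p2 * nn ℬ ∅)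
    (h1 : ¬ Bad ℬ tn T A x y) (h2 : ¬ Bad ℬ tn T A y x)
    (h3 : ¬ Bad ℬ tn T A u v) (h4 : ¬ Bad ℬ tn T A v u) :
    ((x = u ∨ Sim ℬ T x u) ∧ (y = v ∨ Sim ℬ T y v)) ∨
      ((x = v ∨ Sim ℬ T x v) ∧ (y = u ∨ Sim ℬ T y u)) := by
  have m1 : Mate tn A x y u v := ⟨hu, hv, huv, hne, ht, ht'⟩
  have m2 : Mate tn A y x u v := by
    refine ⟨hu, hv, huv, ?_, ?_, ?_⟩
    · rw [Sym2.eq_swap (a := y) (b := x)]; exact hne
    · rw [Sym2.eq_swap (a := y) (b := x)]; exact ht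
    · rw [Sym2.eq_swap (a := y) (b := x)]; exact ht'
  have m3 : Mate tn A u v x y := ⟨hx, hy, hxy, hne.symm, by rw [ht']; exact ht, ht'.symm⟩
  have m4 : Mate tn A v u x y := by
    refine ⟨hx, hy, hxy, ?_, ?_, ?_⟩
    · rw [Sym2.eq_swap (a := v) (b := u)]; exact hne.symm
    · rw [Sym2.eq_swap (a := v) (b := u), ht']; exact ht
    · rw [Sym2.eq_swap (a := v) (b := u)]; exact ht'.symm
  have a1 := cm2 m1 h1
  have a2 := cm2 m2 h2
  have a3 := cm2 m3 h3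
  have a4 := cm2 m4 h4
  have b1 := cm3 hF hFp hA hx hy hxy rx ry ru h1 h2
  have b2 := cm3 hF hFp hA hx hy hxy rx ry rv h1 h2
  have c1 := cm4 (z := u) hF hFp hA hx hy hxy ry h1
  have c2 := cm4 (z := v) hF hFp hA hx hy hxy ry h1
  have c3 := cm4 (z := u) hF hFp hA hy hx hxy.symm rx h2
  have c4 := cm4 (z := v) hF hFp hA hy hx hxy.symm rx h2
  have fin : (ar ℬ T x u ∧ ar ℬ T u x ∧ ar ℬ T y v ∧ ar ℬ T v y) ∨
      (ar ℬ T x v ∧ ar ℬ T v x ∧ ar ℬ T y u ∧ ar ℬ T u y) := by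
    tauto
  rcases fin with ⟨f1, f2, f3, f4⟩ | ⟨f1, f2, f3, f4⟩
  · exact Or.inl ⟨cmS f1 f2, cmS f3 f4⟩
  · exact Or.inr ⟨cmS f1 f2, cmS f3 f4⟩

end Pool.Agent.Helper5.CV
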