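import Mathlib
import Pool.Agent.Helper5.CV.Defs

/-!
# MP_d32cb0_co, module C01: classes

`cl sm A v = {u ∈ A : EqvGen (rel sm A) v u}`.
PROOFS.  `cl_eq_iff`: equivalence relation (`Relation.EqvGen.refl/symm/trans`); for `u, v ∈ A`.
`cl_partition`: the sets `cl sm A v`, `v ∈ A`, partition `A`: `Finset.card_eq_sum_card_image`/`card_biUnion`.
`gen_classes`: `sm` symmetric.  Let `T` be a set of representatives (one point of every class), `|T| = t`.  Take a subset `S`,
`T ⊆ S ⊆ A`, `Gen sm t S`, of maximal size.  If `v ∈ A \ S`, let `r ∈ T` be the representative of its class: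
`EqvGen (rel sm A) r v` with `r ∈ S`, `v ∉ S`, so (induction on `EqvGen`: a relation crossing from `S` to its complement
has a generating step that crosses) there are `a ∈ S`, `b ∉ S` with `rel sm A a b` or `rel sm A b a`; by symmetry `(a,b) ∈ sm`,
`b ∈ A`; then `Gen.step` gives `Gen sm t (insert b S)`, contradiction.  So `S = A`.
`card_level_classes`: `N_l ⊆ A` pairwise disjoint, with no pair of `sm` between a point of `N_l` and a point of `A \ N_l`.  Then for
`v ∈ N_l`: `cl sm N_l v = cl sm A v` (a step from a point of `N_l` inside `A` stays in `N_l`).  So the images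
`(N_l).image (cl sm N_l)` are disjoint subsets of `A.image (cl sm A)` (classes are nonempty subsets of `N_l`).
-/

set_option autoImplicit false
set_option linter.unusedSectionVars false

namespace Pool.Agent.Helper5.CV

open Finset

variable {V : Type*} [DecidableEq V]

private theorem mem_cl {sm : Finset (V × V)} {A : Finset V} {v u : V} :
    u ∈ cl sm A v ↔ u ∈ A ∧ Relation.EqvGen (rel sm A) v u := by
  classical
  unfold cl
  rw [mem_filter]

theorem cl_eq_iff (sm : Finset (V × V)) (A : Finset V) {u v : V} (hu : u ∈ A) (hv : v ∈ A) :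
    cl sm A u = cl sm A v ↔ Relation.EqvGen (rel sm A) u v := by
  have _ := hu
  constructor
  · intro h
    have h1 : v ∈ cl sm A v := mem_cl.2 ⟨hv, Relation.EqvGen.refl v⟩
    rw [← h] at h1
    exact (mem_cl.1 h1).2
  · intro h
    ext w
    rw [mem_cl, mem_cl]
    constructor
    · rintro ⟨hw, h2⟩
      exact ⟨hw, Relation.EqvGen.trans _ _ _ (Relation.EqvGen.symm _ _ h) h2⟩
    · rintro ⟨hw, h2⟩
      exact ⟨hw, Relation.EqvGen.trans _ _ _ h h2⟩

theorem mem_cl_self (sm : Finset (V × V)) {A : Finset V} {v : V} (hv : v ∈ A) :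
    v ∈ cl sm A v := mem_cl.2 ⟨hv, Relation.EqvGen.refl v⟩

theorem cl_subset (sm : Finset (V × V)) (A : Finset V) (v : V) : cl sm A v ⊆ A :=
  fun _ hu => (mem_cl.1 hu).1

theorem cl_eq_of_sm (sm : Finset (V × V)) {A : Finset V} {u v : V} (hu : u ∈ A) (hv : v ∈ A)
    (h : (u, v) ∈ sm) : cl sm A u = cl sm A v :=
  (cl_eq_iff sm A hu hv).2 (Relation.EqvGen.rel _ _ ⟨hu, hv, h⟩)

private theorem fiber_eq (sm : Finset (V × V)) (A : Finset V) {C : Finset V}
    (hC : C ∈ A.image (cl sm A)) : A.filter (fun a => cl sm A a = C) = C := by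
  obtain ⟨v, hv, rfl⟩ := mem_image.1 hC
  ext a
  rw [mem_filter, mem_cl]
  constructor
  · rintro ⟨ha, h⟩
    exact ⟨ha, Relation.EqvGen.symm _ _ ((cl_eq_iff sm A ha hv).1 h)⟩
  · rintro ⟨ha, h⟩
    exact ⟨ha, (cl_eq_iff sm A ha hv).2 (Relation.EqvGen.symm _ _ h)⟩

theorem sum_card_classes (sm : Finset (V × V)) (A : Finset V) :
    ∑ C ∈ A.image (cl sm A), C.card = A.card := by
  rw [card_eq_sum_card_image (cl sm A) A]
  apply sum_congr rfl
  intro C hC
  rw [fiber_eq sm A hC]

theorem class_card_pos (sm : Finset (V × V)) (A : Finset V) :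
    ∀ C ∈ A.image (cl sm A), 1 ≤ C.card := by
  intro C hC
  obtain ⟨v, hv, rfl⟩ := mem_image.1 hC
  exact card_pos.2 ⟨v, mem_cl_self sm hv⟩

theorem gen_classes (sm : Finset (V × V)) (hsym : ∀ a c, (a, c) ∈ sm → (c, a) ∈ sm)
    (A : Finset V) : Gen sm (A.image (cl sm A)).card A := by
  classical
  rcases isEmpty_or_nonempty V with hV | hV
  · have hA : A = ∅ := by
      ext v
      exact hV.elim v
    rw [hA]
    exact Gen.base ∅ (by simp)
  -- representatives
  have hrep : ∀ C ∈ A.image (cl sm A), ∃ v ∈ A, cl sm A v = C := fun C hC => by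
    obtain ⟨v, hv, h⟩ := mem_image.1 hC
    exact ⟨v, hv, h⟩
  choose! r hrA hrC using hrep
  set T : Finset V := (A.image (cl sm A)).image r with hT
  have hTA : T ⊆ A := by
    intro v hv
    obtain ⟨C, hC, rfl⟩ := mem_image.1 hv
    exact hrA C hC
  have hTcard : T.card = (A.image (cl sm A)).card := by
    rw [hT]
    apply card_image_of_injOn
    intro C hC D hD h
    have h1 := hrC C hC
    have h2 := hrC D hD
    have h' : r C = r D := h
    rw [h'] at h1
    exact h1.symm.trans h2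
  set t := (A.image (cl sm A)).card with ht
  set P : Finset (Finset V) := A.powerset.filter (fun S => T ⊆ S ∧ Gen sm t S) with hP
  have hPne : P.Nonempty := ⟨T, by
    rw [hP, mem_filter, mem_powerset]
    exact ⟨hTA, Subset.refl _, Gen.base T hTcard⟩⟩
  obtain ⟨S, hS, hmax⟩ := exists_max_image P card hPne
  rw [hP, mem_filter, mem_powerset] at hS
  obtain ⟨hSA, hTS, hgen⟩ := hS
  have hclosed : ∀ a ∈ S, ∀ b ∈ A, (a, b) ∈ sm → b ∈ S := by
    intro a ha b hb hab
    by_contra hbS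
    have h1 : insert b S ∈ P := by
      rw [hP, mem_filter, mem_powerset]
      exact ⟨insert_subset hb hSA, hTS.trans (subset_insert _ _), Gen.step S a b hgen ha hab⟩
    have h2 := hmax _ h1
    rw [card_insert_of_notMem hbS] at h2
    omega
  have hcr : ∀ x y, Relation.EqvGen (rel sm A) x y → (x ∈ S ↔ y ∈ S) := by
    intro x y h
    induction h with
    | rel x y h =>
      obtain ⟨hx, hy, hxy⟩ := h
      exact ⟨fun h' => hclosed x h' y hy hxy, fun h' => hclosed y h' x hx (hsym _ _ hxy)⟩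
    | refl x => exact Iff.rfl
    | symm x y _ ih => exact ih.symm
    | trans x y z _ _ ih1 ih2 => exact ih1.trans ih2
  have hAS : A ⊆ S := by
    intro v hv
    have hC : cl sm A v ∈ A.image (cl sm A) := mem_image_of_mem _ hv
    have h1 : r (cl sm A v) ∈ S := hTS (mem_image_of_mem _ hC)
    have h2 := (cl_eq_iff sm A (hrA _ hC) hv).1 (hrC _ hC)
    exact (hcr _ _ h2).1 h1
  have : S = A := Subset.antisymm hSA hAS
  rw [← this]
  exact hgen

private theorem cl_level (sm : Finset (V × V)) {A N : Finset V} (hN : N ⊆ A)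
    (hcross : ∀ a ∈ N, ∀ c ∈ A, ((a, c) ∈ sm ∨ (c, a) ∈ sm) → c ∈ N) {v : V} (hv : v ∈ N) :
    cl sm N v = cl sm A v := by
  have key : ∀ x y, Relation.EqvGen (rel sm A) x y →
      ((x ∈ N ↔ y ∈ N) ∧ (x ∈ N → Relation.EqvGen (rel sm N) x y)) := by
    intro x y h
    induction h with
    | rel x y h =>
      obtain ⟨hx, hy, hxy⟩ := h
      have e1 : x ∈ N → y ∈ N := fun h' => hcross x h' y hy (Or.inl hxy)
      have e2 : y ∈ N → x ∈ N := fun h' => hcross y h' x hx (Or.inr hxy)
      exact ⟨⟨e1, e2⟩, fun h' => Relation.EqvGen.rel _ _ ⟨h', e1 h', hxy⟩⟩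
    | refl x => exact ⟨Iff.rfl, fun _ => Relation.EqvGen.refl x⟩
    | symm x y _ ih =>
      exact ⟨ih.1.symm, fun h' => Relation.EqvGen.symm _ _ (ih.2 (ih.1.2 h'))⟩
    | trans x y z _ _ ih1 ih2 =>
      exact ⟨ih1.1.trans ih2.1, fun h' =>
        Relation.EqvGen.trans _ _ _ (ih1.2 h') (ih2.2 (ih1.1.1 h'))⟩
  ext w
  rw [mem_cl, mem_cl]
  constructor
  · rintro ⟨hw, h⟩
    refine ⟨hN hw, ?_⟩
    have hmono : rel sm N ≤ rel sm A := fun a b hab => ⟨hN hab.1, hN hab.2.1, hab.2.2⟩
    exact Relation.EqvGen.mono hmono v w h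
  · rintro ⟨_, h⟩
    have := key v w h
    exact ⟨this.1.1 hv, this.2 hv⟩

theorem card_level_classes (sm : Finset (V × V)) (A : Finset V) {ι : Type*} [DecidableEq ι]
    (s : Finset ι) (Nl : ι → Finset V) (hsub : ∀ l ∈ s, Nl l ⊆ A)
    (hdis : ∀ l ∈ s, ∀ l' ∈ s, l ≠ l' → Disjoint (Nl l) (Nl l'))
    (hcross : ∀ l ∈ s, ∀ a ∈ Nl l, ∀ c ∈ A,
      ((a, c) ∈ sm ∨ (c, a) ∈ sm) → c ∈ Nl l) :
    ∑ l ∈ s, ((Nl l).image (cl sm (Nl l))).card ≤ (A.image (cl sm A)).card := by
  rw [← card_biUnion]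
  · apply card_le_card
    intro C hC
    obtain ⟨l, hl, hC⟩ := mem_biUnion.1 hC
    obtain ⟨v, hv, rfl⟩ := mem_image.1 hC
    rw [cl_level sm (hsub l hl) (hcross l hl) hv]
    exact mem_image_of_mem _ (hsub l hl hv)
  · intro l hl l' hl' hne
    simp only [Function.onFun]
    rw [disjoint_left]
    intro C h1 h2
    obtain ⟨v, hv, rfl⟩ := mem_image.1 h1
    obtain ⟨w, hw, h3⟩ := mem_image.1 h2
    have e1 : v ∈ cl sm (Nl l) v := mem_cl_self sm hv
    rw [← h3] at e1
    exact disjoint_left.1 (hdis l hl l' hl' hne) hv (cl_subset sm _ _ e1)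

end Pool.Agent.Helper5.CV
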