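import Mathlib
import Pool.Agent.Helper5.CV.Defs

/-!
# MP_d32cb0_co, module S02: the mean number of collisions

PROOF.  `n = |ι|`.  `Σ_F #coll = Σ_{k ≠ k'} Σ_{F} Σ_{e ∈ wp (h (F k))} #{e' : e' ∈ wp (h (F k')), tn e' = tn e ≥ 2}`.  Fix `k ≠ k'`, a value
`B = F k`, `e ∈ wp (h B)` (at most `q²` pairs as `|h B| ≤ q`) and `e'` with `tn e' = tn e ≥ 2` (at most `m`): the number of
values `F k'` with `e' ∈ wp (h (F k'))` is `≤ pm |𝒞|`, the other coordinates are free: `|𝒞|^{n-2}`.  Total
`≤ n² · |𝒞| · q² · m · pm |𝒞| · |𝒞|^{n-2} = n² q² m pm |𝒞|^n`.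
-/

set_option autoImplicit false

namespace Pool.Agent.Helper5.CV

open Finset

private theorem swapSum {ι C : Type*} [Fintype ι] [DecidableEq ι] [Fintype C]
    (g : C → C → ℝ) (k k' : ι) (hkk : k ≠ k') :
    (Fintype.card C : ℝ) ^ 2 * ∑ F : ι → C, g (F k) (F k') =
      (Fintype.card (ι → C) : ℝ) * ∑ B : C, ∑ B' : C, g B B' := by
  classical
  have h1 : (Fintype.card C : ℝ) ^ 2 * ∑ F : ι → C, g (F k) (F k') =
      ∑ x : (ι → C) × (C × C), g (x.1 k) (x.1 k') := by
    rw [Fintype.sum_prod_type]
    simp only [sum_const, card_univ, Fintype.card_prod, nsmul_eq_mul, Nat.cast_mul]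
    rw [← mul_sum, sq]
  have h2 : (Fintype.card (ι → C) : ℝ) * ∑ B : C, ∑ B' : C, g B B' =
      ∑ x : (ι → C) × (C × C), g x.2.1 x.2.2 := by
    rw [Fintype.sum_prod_type]
    simp only [sum_const, card_univ, nsmul_eq_mul]
    rw [Fintype.sum_prod_type]
  rw [h1, h2]
  refine Finset.sum_bij'
    (fun x _ => (Function.update (Function.update x.1 k x.2.1) k' x.2.2, (x.1 k, x.1 k')))
    (fun x _ => (Function.update (Function.update x.1 k x.2.1) k' x.2.2, (x.1 k, x.1 k')))
    (fun _ _ => mem_univ _) (fun _ _ => mem_univ _) ?_ ?_ ?_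
  · rintro ⟨F, B, B'⟩ _
    simp only [Function.update_self, Function.update_of_ne hkk, Prod.mk.injEq, and_true]
    funext j
    by_cases hj' : j = k'
    · subst hj'; simp
    · by_cases hj : j = k
      · subst hj; simp [Function.update_of_ne hkk]
      · simp [Function.update_of_ne hj', Function.update_of_ne hj]
  · rintro ⟨F, B, B'⟩ _
    simp only [Function.update_self, Function.update_of_ne hkk, Prod.mk.injEq, and_true]
    funext j
    by_cases hj' : j = k'
    · subst hj'; simp
    · by_cases hj : j = k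
      · subst hj; simp [Function.update_of_ne hkk]
      · simp [Function.update_of_ne hj', Function.update_of_ne hj]
  · rintro ⟨F, B, B'⟩ _
    rfl

private theorem wp_card_le {V : Type*} [DecidableEq V] (d : Dat V) (K i q : ℕ) (A : Finset V)
    (hA : A.card ≤ q) : (wp d K i A).card ≤ q ^ 2 := by
  have h1 : (wp d K i A).card ≤ A.sym2.card := card_le_card (filter_subset _ _)
  have h2 : A.sym2.card ≤ A.card ^ 2 := by
    rw [card_sym2, Nat.choose_two_right]
    apply Nat.div_le_of_le_mul
    rcases Nat.eq_zero_or_pos A.card with h | h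
    · simp [h]
    · simp only [Nat.add_sub_cancel]
      nlinarith
  exact (h1.trans h2).trans (Nat.pow_le_pow_left hA 2)

theorem sum_coll_le {V ι : Type*} [DecidableEq V] [Fintype V] [Fintype ι] [DecidableEq ι]
    (𝒞 : Finset (Finset V)) (h : Finset V → Finset V) (d : Dat V) (K i q m : ℕ)
    (hq : ∀ B ∈ 𝒞, (h B).card ≤ q)
    (hm : ∀ t, 2 ≤ t → (univ.filter (fun e : Sym2 V => d.tn e = t)).card ≤ m)
    {pm : ℝ} (hpm0 : 0 ≤ pm)
    (hpm : ∀ e : Sym2 V, 2 ≤ d.tn e →
      ((𝒞.filter (fun B => e ∈ wp d K i (h B))).card : ℝ) ≤ pm * 𝒞.card) :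
    ∑ F : ι → {B // B ∈ 𝒞}, ((coll d K i (fun k => h (F k).1)).card : ℝ) ≤
      (Fintype.card ι : ℝ) ^ 2 * q ^ 2 * m * pm * Fintype.card (ι → {B // B ∈ 𝒞}) := by
  classical
  set C := {B // B ∈ 𝒞} with hC
  let g : C → C → ℝ := fun B B' => ∑ e : Sym2 V, ∑ e' : Sym2 V,
    if e ∈ wp d K i (h B.1) ∧ e' ∈ wp d K i (h B'.1) ∧ 2 ≤ d.tn e ∧ d.tn e = d.tn e' then (1 : ℝ)
      else 0
  have hcc : Fintype.card C = 𝒞.card := Fintype.card_coe 𝒞
  -- the sum over the values
  have hg : ∑ B : C, ∑ B' : C, g B B' ≤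
      (Fintype.card C : ℝ) ^ 2 * (q ^ 2 * m * pm) := by
    have hB : ∀ B : C, ∑ B' : C, g B B' ≤ (Fintype.card C : ℝ) * (q ^ 2 * m * pm) := by
      intro B
      have e1 : ∑ B' : C, g B B' = ∑ e : Sym2 V, ∑ e' : Sym2 V, ∑ B' : C,
          if e ∈ wp d K i (h B.1) ∧ e' ∈ wp d K i (h B'.1) ∧ 2 ≤ d.tn e ∧ d.tn e = d.tn e'
            then (1 : ℝ) else 0 := by
        simp only [g]
        rw [sum_comm]
        refine sum_congr rfl fun e _ => ?_
        rw [sum_comm]
      rw [e1]
      have e2 : ∀ e : Sym2 V, (∑ e' : Sym2 V, ∑ B' : C,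
          if e ∈ wp d K i (h B.1) ∧ e' ∈ wp d K i (h B'.1) ∧ 2 ≤ d.tn e ∧ d.tn e = d.tn e'
            then (1 : ℝ) else 0) ≤
          if e ∈ wp d K i (h B.1) then (m : ℝ) * (pm * 𝒞.card) else 0 := by
        intro e
        by_cases he : e ∈ wp d K i (h B.1)
        · rw [if_pos he]
          by_cases h2 : 2 ≤ d.tn e
          · have e3 : ∀ e' : Sym2 V, (∑ B' : C,
                if e ∈ wp d K i (h B.1) ∧ e' ∈ wp d K i (h B'.1) ∧ 2 ≤ d.tn e ∧
                  d.tn e = d.tn e' then (1 : ℝ) else 0) ≤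
                if d.tn e' = d.tn e then pm * 𝒞.card else 0 := by
              intro e'
              by_cases h3 : d.tn e' = d.tn e
              · rw [if_pos h3]
                have h4 := hpm e' (h3 ▸ h2)
                refine le_trans (le_of_eq ?_) h4
                have e5 := Finset.sum_coe_sort 𝒞 (fun B' : Finset V =>
                  if e ∈ wp d K i (h B.1) ∧ e' ∈ wp d K i (h B') ∧ 2 ≤ d.tn e ∧
                  d.tn e = d.tn e' then (1 : ℝ) else 0)
                refine Eq.trans e5 ?_
                rw [card_filter]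
                push_cast
                refine sum_congr rfl fun B' _ => ?_
                simp [he, h2, h3]
              · rw [if_neg h3]
                refine le_of_eq (sum_eq_zero fun B' _ => ?_)
                rw [if_neg]
                rintro ⟨_, _, _, h5⟩
                exact h3 h5.symm
            refine (sum_le_sum fun e' _ => e3 e').trans ?_
            rw [← sum_filter, sum_const, nsmul_eq_mul]
            refine mul_le_mul_of_nonneg_right ?_ (by positivity)
            exact_mod_cast hm _ h2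
          · refine le_trans (le_of_eq ?_) (by positivity : (0 : ℝ) ≤ (m : ℝ) * (pm * 𝒞.card))
            refine sum_eq_zero fun e' _ => sum_eq_zero fun B' _ => ?_
            rw [if_neg]
            rintro ⟨_, _, h5, _⟩
            exact h2 h5
        · rw [if_neg he]
          refine le_of_eq ?_
          refine sum_eq_zero fun e' _ => sum_eq_zero fun B' _ => ?_
          rw [if_neg]
          rintro ⟨h5, _⟩
          exact he h5
      refine (sum_le_sum fun e _ => e2 e).trans ?_
      rw [← sum_filter, sum_const, nsmul_eq_mul]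
      have e4 : ((univ.filter (fun e => e ∈ wp d K i (h B.1))).card : ℝ) ≤ (q : ℝ) ^ 2 := by
        have : univ.filter (fun e => e ∈ wp d K i (h B.1)) = wp d K i (h B.1) := by
          ext e; simp
        rw [this]
        exact_mod_cast wp_card_le d K i q _ (hq B.1 B.2)
      calc _ ≤ (q : ℝ) ^ 2 * (m * (pm * 𝒞.card)) :=
            mul_le_mul_of_nonneg_right e4 (by positivity)
        _ = _ := by rw [hcc]; ring
    refine (sum_le_sum fun B _ => hB B).trans ?_
    rw [sum_const, card_univ, nsmul_eq_mul]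
    exact le_of_eq (by ring)
  -- one pair of copies
  have hT : ∀ k k' : ι, k ≠ k' → ∑ F : ι → C, g (F k) (F k') ≤
      (q ^ 2 * m * pm) * Fintype.card (ι → C) := by
    intro k k' hkk
    rcases Nat.eq_zero_or_pos (Fintype.card C) with h0 | h0
    · have : IsEmpty (ι → C) := by
        have := Fintype.card_eq_zero_iff.mp h0
        exact ⟨fun F => IsEmpty.false (F k)⟩
      rw [Fintype.sum_empty]
      positivity
    · have h1 := swapSum g k k' hkk
      have hc : (0 : ℝ) < (Fintype.card C : ℝ) ^ 2 := by positivity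
      have h2 : (Fintype.card C : ℝ) ^ 2 * ∑ F : ι → C, g (F k) (F k') ≤
          (Fintype.card C : ℝ) ^ 2 * ((q ^ 2 * m * pm) * Fintype.card (ι → C)) := by
        rw [h1]
        calc _ ≤ (Fintype.card (ι → C) : ℝ) * ((Fintype.card C : ℝ) ^ 2 * (q ^ 2 * m * pm)) :=
              mul_le_mul_of_nonneg_left hg (by positivity)
          _ = _ := by ring
      exact le_of_mul_le_mul_left h2 hc
  -- the number of collisions
  have hcoll : ∀ F : ι → C, ((coll d K i (fun k => h (F k).1)).card : ℝ) =
      ∑ k : ι, ∑ k' : ι, if k ≠ k' then g (F k) (F k') else 0 := by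
    intro F
    unfold coll
    rw [card_filter]
    push_cast
    rw [Fintype.sum_prod_type, Fintype.sum_prod_type]
    refine sum_congr rfl fun k _ => sum_congr rfl fun k' _ => ?_
    by_cases hkk : k ≠ k'
    · rw [if_pos hkk, Fintype.sum_prod_type]
      refine sum_congr rfl fun e _ => sum_congr rfl fun e' _ => ?_
      simp only [ne_eq] at hkk
      simp [hkk]
    · rw [if_neg hkk]
      refine sum_eq_zero fun x _ => ?_
      rw [if_neg]
      rintro ⟨h1, _⟩
      exact hkk h1
  calc ∑ F : ι → C, ((coll d K i (fun k => h (F k).1)).card : ℝ)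
      = ∑ F : ι → C, ∑ k : ι, ∑ k' : ι, (if k ≠ k' then g (F k) (F k') else 0) :=
        sum_congr rfl fun F _ => hcoll F
    _ = ∑ k : ι, ∑ k' : ι, ∑ F : ι → C, (if k ≠ k' then g (F k) (F k') else 0) := by
        rw [sum_comm]
        refine sum_congr rfl fun k _ => ?_
        rw [sum_comm]
    _ ≤ ∑ k : ι, ∑ k' : ι, (q ^ 2 * m * pm) * Fintype.card (ι → C) := by
        refine sum_le_sum fun k _ => sum_le_sum fun k' _ => ?_
        by_cases hkk : k ≠ k'
        · simp only [if_pos hkk]
          exact hT k k' hkk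
        · simp only [if_neg hkk, sum_const_zero]
          positivity
    _ = _ := by
        simp only [sum_const, card_univ, nsmul_eq_mul]
        ring

end Pool.Agent.Helper5.CV
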