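import Mathlib
import Pool.Agent.Helper5.CV.Defs

/-!
# MP_d32cb0_co, module K01: the cost function `κ`

All statements: `m ≥ 1`.  `lam m b j = ln (1 + b j / m)`, `kap m b n = ⌊n/m⌋ Λ_m + Λ_{n mod m}`.

PROOFS.
* `lam_concave`: `(1 + b j/m)(1 + b (j+2)/m) ≤ (1 + b (j+1)/m)^2`.
* `mu_mul_le_lam`: `j μ ≤ Λ_j` for `j ≤ m`: concavity of `ln` on the segment `[1, 1+b]`
  (`1 + b j/m = (1 - j/m)·1 + (j/m)(1+b)`, `strictConcaveOn_log_Ioi.concaveOn` or the weighted AM-GM
  `Real.inner_le_nnorm_mul_nnorm`-free version `Real.add_pow_le_pow_mul_pow_of_add_eq_one`…).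
* `kap_of_le`: `n < m`: `n / m = 0`, `n % m = n`; `n = m`: `n / m = 1`, `n % m = 0`, `Λ_0 = 0`.
* `kap_add_le`: write `a = m a' + r`, `c = m c' + s`.  If `r + s < m`: need `Λ_{r+s} ≤ Λ_r + Λ_s`
  (`(1+br/m)(1+bs/m) ≥ 1 + b(r+s)/m`).  If `r + s = m + w`, `w < m`: need `Λ_m + Λ_w ≤ Λ_r + Λ_s`, i.e.
  `(1+b)(1+bw/m) ≤ (1+br/m)(1+bs/m)`, i.e. `m w ≤ r s`, which is `(m-r)(m-s) ≥ 0`.
* `kap_succ_le` = `kap_add_le` with `c = 1` and `kap 1 = Λ_1`.
* `kap_mono`: `kap n ≤ kap (n+1)`: if `n % m + 1 < m` this is `Λ_r ≤ Λ_{r+1}`, else `Λ_{m-1} ≤ Λ_m`.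
* `mu_mul_le_kap`: from `mu_mul_le_lam`.
* `kap_sum_le`, `kap_le_sum_lam`: induction on the finset with `kap_add_le`, `kap_of_le`.
* `two_mul_kap`: `kap (2 n) ≤ 2 kap n`.
-/

set_option autoImplicit false

namespace Pool.Agent.Helper5.CV

open Finset Pool.Agent.Helper25.CliqueGame
open Pool.Agent.Helper78.CG (EI)

/-- sums of two logarithms are compared by products -/
private theorem log_add_le {x y z t : ℝ} (hx : 0 < x) (hy : 0 < y) (hz : 0 < z) (ht : 0 < t)
    (h : x * y ≤ z * t) : Real.log x + Real.log y ≤ Real.log z + Real.log t := by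
  rw [← Real.log_mul hx.ne' hy.ne', ← Real.log_mul hz.ne' ht.ne']
  exact Real.log_le_log (mul_pos hx hy) h

private theorem one_le_arg (m b j : ℕ) : (1 : ℝ) ≤ 1 + (b : ℝ) * j / m := by
  have h : (0 : ℝ) ≤ (b : ℝ) * j / m := by positivity
  linarith

private theorem arg_pos (m b j : ℕ) : (0 : ℝ) < 1 + (b : ℝ) * j / m :=
  lt_of_lt_of_le one_pos (one_le_arg m b j)

theorem lam_zero (m b : ℕ) : lam m b 0 = 0 := by
  simp [lam]

theorem lam_nonneg (m b j : ℕ) : 0 ≤ lam m b j :=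
  Real.log_nonneg (one_le_arg m b j)

theorem lam_mono (m b : ℕ) {j j' : ℕ} (h : j ≤ j') : lam m b j ≤ lam m b j' := by
  unfold lam
  refine Real.log_le_log (arg_pos m b j) ?_
  have h' : (j : ℝ) ≤ j' := by exact_mod_cast h
  have h2 : (b : ℝ) * j / m ≤ (b : ℝ) * j' / m := by
    apply div_le_div_of_nonneg_right _ (Nat.cast_nonneg m)
    exact mul_le_mul_of_nonneg_left h' (Nat.cast_nonneg b)
  linarith

theorem lam_pos {m b j : ℕ} (hm : 1 ≤ m) (hb : 1 ≤ b) (hj : 1 ≤ j) : 0 < lam m b j := by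
  unfold lam
  apply Real.log_pos
  have h1 : (0 : ℝ) < m := by exact_mod_cast hm
  have h2 : (0 : ℝ) < b := by exact_mod_cast hb
  have h3 : (0 : ℝ) < j := by exact_mod_cast hj
  have h : (0 : ℝ) < (b : ℝ) * j / m := by positivity
  linarith

private theorem lam_self {m b : ℕ} (hm : 1 ≤ m) : lam m b m = Real.log (1 + (b : ℝ)) := by
  unfold lam
  have h1 : (m : ℝ) ≠ 0 := by
    have : (0 : ℝ) < m := by exact_mod_cast hm
    exact this.ne'
  rw [mul_div_assoc, div_self h1, mul_one]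

theorem mu_mul_le_lam {m b j : ℕ} (hm : 1 ≤ m) (hj : j ≤ m) : mu m b * j ≤ lam m b j := by
  have h1 : (0 : ℝ) < m := by exact_mod_cast hm
  have hj' : (j : ℝ) ≤ m := by exact_mod_cast hj
  have hj0 : (0 : ℝ) ≤ j := Nat.cast_nonneg j
  have hb0 : (0 : ℝ) ≤ b := Nat.cast_nonneg b
  have hconc := strictConcaveOn_log_Ioi.concaveOn
  have h2 : (1 : ℝ) ∈ Set.Ioi (0 : ℝ) := Set.mem_Ioi.2 one_pos
  have h3 : (1 + (b : ℝ)) ∈ Set.Ioi (0 : ℝ) := Set.mem_Ioi.2 (by linarith)
  have h4 : (0 : ℝ) ≤ 1 - (j : ℝ) / m := by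
    have : (j : ℝ) / m ≤ 1 := by
      rw [div_le_one h1]
      exact hj'
    linarith
  have h5 : (0 : ℝ) ≤ (j : ℝ) / m := by positivity
  have h6 := hconc.2 h2 h3 h4 h5 (by ring)
  simp only [smul_eq_mul, Real.log_one, mul_zero, zero_add, mul_one] at h6
  have h7 : (1 - (j : ℝ) / m) + (j : ℝ) / m * (1 + b) = 1 + (b : ℝ) * j / m := by ring
  rw [h7] at h6
  unfold mu
  rw [lam_self hm]
  calc Real.log (1 + (b : ℝ)) / m * j = (j : ℝ) / m * Real.log (1 + (b : ℝ)) := by ring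
    _ ≤ lam m b j := h6

theorem lam_concave {m b : ℕ} (hm : 1 ≤ m) (j : ℕ) :
    lam m b j + lam m b (j + 2) ≤ 2 * lam m b (j + 1) := by
  have h1 : (0 : ℝ) < m := by exact_mod_cast hm
  rw [two_mul]
  unfold lam
  refine log_add_le (arg_pos m b j) (arg_pos m b (j + 2)) (arg_pos m b (j + 1))
    (arg_pos m b (j + 1)) ?_
  push_cast
  have h2 : (1 + (b : ℝ) * (j + 1) / m) * (1 + (b : ℝ) * (j + 1) / m) -
      (1 + (b : ℝ) * j / m) * (1 + (b : ℝ) * (j + 2) / m) = ((b : ℝ) / m) ^ 2 := by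
    field_simp
    ring
  have h3 : (0 : ℝ) ≤ ((b : ℝ) / m) ^ 2 := sq_nonneg _
  linarith

theorem mu_pos {m b : ℕ} (hm : 1 ≤ m) (hb : 1 ≤ b) : 0 < mu m b := by
  unfold mu
  have h1 : (0 : ℝ) < m := by exact_mod_cast hm
  exact div_pos (lam_pos hm hb hm) h1

theorem kap_zero (m b : ℕ) : kap m b 0 = 0 := by
  simp [kap, lam_zero]

theorem kap_of_le {m b n : ℕ} (hm : 1 ≤ m) (hn : n ≤ m) : kap m b n = lam m b n := by
  unfold kap
  rcases Nat.lt_or_eq_of_le hn with h | h
  · rw [Nat.div_eq_of_lt h, Nat.mod_eq_of_lt h]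
    simp
  · rw [h, Nat.div_self (by omega), Nat.mod_self, lam_zero]
    simp

theorem kap_one {m b : ℕ} (hm : 1 ≤ m) : kap m b 1 = lam m b 1 :=
  kap_of_le hm hm

theorem kap_nonneg (m b n : ℕ) : 0 ≤ kap m b n := by
  unfold kap
  have h1 := lam_nonneg m b m
  have h2 := lam_nonneg m b (n % m)
  have h3 : (0 : ℝ) ≤ ((n / m : ℕ) : ℝ) := Nat.cast_nonneg _
  have h4 := mul_nonneg h3 h1
  linarith

theorem kap_add_le {m b : ℕ} (hm : 1 ≤ m) (a c : ℕ) :
    kap m b (a + c) ≤ kap m b a + kap m b c := by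
  have hm0 : 0 < m := hm
  have h1 : (0 : ℝ) < m := by exact_mod_cast hm
  have hr : a % m < m := Nat.mod_lt _ hm0
  have hs : c % m < m := Nat.mod_lt _ hm0
  have hb0 : (0 : ℝ) ≤ b := Nat.cast_nonneg b
  unfold kap
  rw [Nat.add_div hm0, Nat.add_mod]
  generalize a % m = r at hr ⊢
  generalize c % m = s at hs ⊢
  generalize a / m = a'
  generalize c / m = c'
  by_cases h : m ≤ r + s
  · obtain ⟨w, hw⟩ := Nat.exists_eq_add_of_le h
    have hwm : w < m := by omega
    have h2 : (r + s) % m = w := by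
      rw [hw, Nat.add_mod_left, Nat.mod_eq_of_lt hwm]
    rw [if_pos h, h2]
    have hwr : (r : ℝ) + s = m + w := by exact_mod_cast hw
    have h3 : lam m b m + lam m b w ≤ lam m b r + lam m b s := by
      unfold lam
      refine log_add_le (arg_pos m b m) (arg_pos m b w) (arg_pos m b r) (arg_pos m b s) ?_
      have hr' : (r : ℝ) ≤ m := by exact_mod_cast hr.le
      have hs' : (s : ℝ) ≤ m := by exact_mod_cast hs.le
      have h4 : (m : ℝ) * w ≤ r * s := by
        have h5 : 0 ≤ ((m : ℝ) - r) * (m - s) := mul_nonneg (by linarith) (by linarith)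
        have h6 : (w : ℝ) = r + s - m := by linarith
        rw [h6]
        nlinarith
      have h7 : (1 + (b : ℝ) * r / m) * (1 + (b : ℝ) * s / m) -
          (1 + (b : ℝ) * m / m) * (1 + (b : ℝ) * w / m) =
          ((b : ℝ) / m) ^ 2 * (r * s - m * w) + (b : ℝ) / m * ((r + s) - (m + w)) := by
        field_simp
        ring
      have h8 : 0 ≤ ((b : ℝ) / m) ^ 2 * (r * s - m * w) :=
        mul_nonneg (sq_nonneg _) (by linarith)
      rw [hwr, sub_self, mul_zero, add_zero] at h7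
      linarith
    push_cast
    have h9 : ((a' : ℝ) + c' + 1) * lam m b m = a' * lam m b m + c' * lam m b m + lam m b m := by
      ring
    rw [h9]
    linarith
  · push Not at h
    rw [if_neg (by omega), Nat.mod_eq_of_lt h]
    have h3 : lam m b (r + s) ≤ lam m b r + lam m b s := by
      have h4 : lam m b (r + s) + lam m b 0 ≤ lam m b r + lam m b s := by
        unfold lam
        refine log_add_le (arg_pos m b _) (arg_pos m b 0) (arg_pos m b r) (arg_pos m b s) ?_
        push_cast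
        have h5 : (1 + (b : ℝ) * r / m) * (1 + (b : ℝ) * s / m) -
            (1 + (b : ℝ) * (r + s) / m) * (1 + (b : ℝ) * 0 / m) =
            ((b : ℝ) * r / m) * ((b : ℝ) * s / m) := by
          ring
        have h6 : 0 ≤ ((b : ℝ) * r / m) * ((b : ℝ) * s / m) := by positivity
        linarith
      rw [lam_zero, add_zero] at h4
      exact h4
    push_cast
    have h9 : ((a' : ℝ) + c' + 0) * lam m b m = a' * lam m b m + c' * lam m b m := by
      ring
    rw [h9]
    linarith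

theorem kap_mono {m b : ℕ} (hm : 1 ≤ m) {n n' : ℕ} (h : n ≤ n') : kap m b n ≤ kap m b n' := by
  induction n', h using Nat.le_induction with
  | base => exact le_rfl
  | succ k _ ih =>
    refine ih.trans ?_
    have hm0 : 0 < m := hm
    have hr : k % m < m := Nat.mod_lt _ hm0
    have hk := Nat.div_add_mod k m
    by_cases h1 : k % m + 1 < m
    · have h2 : (k + 1) / m = k / m := by
        have h3 : k + 1 = m * (k / m) + (k % m + 1) := by omega
        rw [h3, Nat.mul_add_div hm0, Nat.div_eq_of_lt h1, add_zero]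
      have h3 : (k + 1) % m = k % m + 1 := by
        have h4 : k + 1 = m * (k / m) + (k % m + 1) := by omega
        rw [h4, Nat.mul_add_mod, Nat.mod_eq_of_lt h1]
      unfold kap
      rw [h2, h3]
      have h4 := lam_mono m b (Nat.le_succ (k % m))
      linarith
    · have h2 : k % m + 1 = m := by omega
      have h4 : k + 1 = m * (k / m + 1) := by
        rw [mul_add, mul_one]
        omega
      unfold kap
      rw [h4, Nat.mul_div_cancel_left _ hm0, Nat.mul_mod_right, lam_zero]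
      have h5 := lam_mono m b hr.le
      push_cast
      linarith

theorem kap_le_mul {m b : ℕ} (hm : 1 ≤ m) (n : ℕ) : kap m b n ≤ n * lam m b 1 := by
  induction n with
  | zero => rw [kap_zero]; simp
  | succ k ih =>
    have h1 := kap_add_le (b := b) hm k 1
    rw [kap_one hm] at h1
    push_cast
    linarith

theorem kap_add_le_mul {m b : ℕ} (hm : 1 ≤ m) (a c : ℕ) :
    kap m b (a + c) ≤ kap m b a + c * lam m b 1 :=
  (kap_add_le hm a c).trans (by linarith [kap_le_mul (b := b) hm c])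

theorem mu_mul_le_kap {m b : ℕ} (hm : 1 ≤ m) (n : ℕ) : mu m b * n ≤ kap m b n := by
  have hm0 : 0 < m := hm
  have h1 : (0 : ℝ) < m := by exact_mod_cast hm
  have hr : n % m < m := Nat.mod_lt _ hm0
  have h2 := mu_mul_le_lam (b := b) hm hr.le
  have h3 : (n : ℝ) = m * ((n / m : ℕ) : ℝ) + ((n % m : ℕ) : ℝ) := by
    exact_mod_cast (Nat.div_add_mod n m).symm
  have h4 : mu m b * m = lam m b m := by
    unfold mu
    field_simp
  unfold kap
  calc mu m b * n = mu m b * (m * ((n / m : ℕ) : ℝ) + ((n % m : ℕ) : ℝ)) := by rw [← h3]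
    _ = (mu m b * m) * ((n / m : ℕ) : ℝ) + mu m b * ((n % m : ℕ) : ℝ) := by ring
    _ ≤ ((n / m : ℕ) : ℝ) * lam m b m + lam m b (n % m) := by
        rw [h4]
        linarith

theorem kap_sum_le {m b : ℕ} (hm : 1 ≤ m) {ι : Type*} (s : Finset ι) (k : ι → ℕ) :
    kap m b (∑ i ∈ s, k i) ≤ ∑ i ∈ s, kap m b (k i) := by
  classical
  induction s using Finset.induction_on with
  | empty => simp [kap_zero]
  | insert a s ha ih =>
    rw [Finset.sum_insert ha, Finset.sum_insert ha]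
    exact (kap_add_le hm _ _).trans (by linarith)

theorem kap_le_sum_lam {m b : ℕ} (hm : 1 ≤ m) {ι : Type*} (s : Finset ι) (k : ι → ℕ)
    (hk : ∀ i ∈ s, k i ≤ m) : kap m b (∑ i ∈ s, k i) ≤ ∑ i ∈ s, lam m b (k i) := by
  refine (kap_sum_le hm s k).trans (le_of_eq ?_)
  exact Finset.sum_congr rfl fun i hi => kap_of_le hm (hk i hi)

end Pool.Agent.Helper5.CV
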