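import Mathlib
import Pool.Agent.Helper5.CV.Defs
import Pool.Agent.Helper5.CV.Kap

/-!
# MP_d32cb0_co, module G04: the cost lemma

PROOFS.  `gain_nil, gain_cons, gain_append`: `List.map`, `List.prod`.  `one_le_gain`, `gain_mono`: induction on the list.
`cost_lemma`: `log gain = Σ_{X ∈ l} Λ_{|S∩X|}` (`Real.log` of the product; as the sets of `l` are pairwise disjoint one can
also argue by induction on the list, generalising `S`).  Suggested: induction on `l`.  Let
`l = X :: l'`, `S = (S ∩ X) ∪ (S ∩ uni l')`, disjoint.  The set `S ∩ X` is monochromatic (colour `c0`) or empty.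
`S' = S ∩ uni l' = S \ X`; the classes of `S'` are those of `S` except that the class `c0` loses the `k = |S∩X| ≤ m` elements of
`S ∩ X`; `κ(class c0 of S) ≤ κ(class c0 of S') + κ(k)` (`kap_add_le`), `κ(k) = Λ_k = log(1 + (b/m) k)`.
It is convenient to sum over a fixed finset of colours `C ⊇ S.image col` (the other terms are `κ(0) = 0`).
`tix_inj`: for `e, e' ∈ uni l`: `tix l e = tix l e'` implies that both lie in the same member (`List.findIdx`).
`log_gain_ge`: constant colour and `mu_mul_le_kap`, applied to `S ∩ uni l` and `gain_mono`.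
-/

set_option autoImplicit false

namespace Pool.Agent.Helper5.CV

open Finset Pool.Agent.Helper25.CliqueGame
open Pool.Agent.Helper78.CG (EI)

variable {α : Type*} [DecidableEq α]

theorem gain_nil (m b : ℕ) (S : Finset α) : gain m b [] S = 1 := by
  simp [gain]

theorem gain_cons (m b : ℕ) (X : Finset α) (l : List (Finset α)) (S : Finset α) :
    gain m b (X :: l) S = (1 + (b : ℝ) / m * ((S ∩ X).card : ℝ)) * gain m b l S := by
  simp [gain]

theorem gain_append (m b : ℕ) (l l' : List (Finset α)) (S : Finset α) :
    gain m b (l ++ l') S = gain m b l S * gain m b l' S := by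
  simp [gain]

private theorem cl_fac (m b : ℕ) (n : ℕ) : (1 : ℝ) ≤ 1 + (b : ℝ) / m * (n : ℝ) := by
  have : (0 : ℝ) ≤ (b : ℝ) / m * (n : ℝ) := by positivity
  linarith

theorem one_le_gain (m b : ℕ) (l : List (Finset α)) (S : Finset α) : 1 ≤ gain m b l S := by
  induction l with
  | nil => rw [gain_nil]
  | cons X l ih =>
    rw [gain_cons]
    exact one_le_mul_of_one_le_of_one_le (cl_fac m b _) ih

theorem gain_mono (m b : ℕ) (l : List (Finset α)) {S S' : Finset α} (h : S ⊆ S') :
    gain m b l S ≤ gain m b l S' := by
  induction l with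
  | nil => rw [gain_nil, gain_nil]
  | cons X l ih =>
    rw [gain_cons, gain_cons]
    have h1 : ((S ∩ X).card : ℝ) ≤ ((S' ∩ X).card : ℝ) := by
      exact_mod_cast card_le_card (inter_subset_inter_right h)
    have h2 : (1 : ℝ) + (b : ℝ) / m * ((S ∩ X).card : ℝ) ≤
        1 + (b : ℝ) / m * ((S' ∩ X).card : ℝ) := by
      have h3 : (0 : ℝ) ≤ (b : ℝ) / m := by positivity
      linarith [mul_le_mul_of_nonneg_left h1 h3]
    have h4 := one_le_gain m b l S
    have h5 := cl_fac m b (S' ∩ X).card
    exact mul_le_mul h2 ih (by linarith) (by linarith)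

theorem uni_cons (X : Finset α) (l : List (Finset α)) : uni (X :: l) = X ∪ uni l := by
  rfl

theorem mem_uni (l : List (Finset α)) (e : α) : e ∈ uni l ↔ ∃ X ∈ l, e ∈ X := by
  induction l with
  | nil => simp [uni]
  | cons X l ih =>
    rw [uni_cons, mem_union, ih]
    simp

private theorem cl_cost {m b : ℕ} (hm : 1 ≤ m) {γ : Type*} [DecidableEq γ]
    (col : α → γ) (C : Finset γ) (l : List (Finset α)) (hc : ∀ X ∈ l, X.card ≤ m) :
    ∀ S : Finset α, S ⊆ uni l →
      (∀ X ∈ l, ∀ e ∈ S ∩ X, ∀ e' ∈ S ∩ X, col e = col e') →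
      ∑ c ∈ C, kap m b (S.filter (fun e => col e = c)).card ≤ Real.log (gain m b l S) := by
  induction l with
  | nil =>
    intro S hS _
    have hS' : S = ∅ := by
      have : S ⊆ ∅ := hS
      exact subset_empty.1 this
    subst hS'
    rw [gain_nil, Real.log_one]
    simp [kap_zero]
  | cons X l ih =>
    intro S hS hcol
    have hX : X.card ≤ m := hc X (by simp)
    have ih' := ih (fun Y hY => hc Y (by simp [hY])) (S \ X)
      (by
        intro e he
        rw [mem_sdiff] at he
        have h1 := hS he.1
        rw [uni_cons, mem_union] at h1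
        rcases h1 with h1 | h1
        · exact absurd h1 he.2
        · exact h1)
      (by
        intro Y hY e he e' he'
        rw [mem_inter, mem_sdiff] at he he'
        exact hcol Y (by simp [hY]) e (mem_inter.2 ⟨he.1.1, he.2⟩) e'
          (mem_inter.2 ⟨he'.1.1, he'.2⟩))
    have hg1 := one_le_gain m b l S
    have hg2 := one_le_gain m b l (S \ X)
    have hg3 := gain_mono m b l (sdiff_subset (s := S) (t := X))
    have hf := cl_fac m b (S ∩ X).card
    rw [gain_cons, Real.log_mul (by linarith) (by linarith)]
    have hl : Real.log (gain m b l (S \ X)) ≤ Real.log (gain m b l S) :=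
      Real.log_le_log (by linarith) hg3
    have hT : (S ∩ X).card ≤ m := (card_le_card inter_subset_right).trans hX
    have hlam : Real.log (1 + (b : ℝ) / m * ((S ∩ X).card : ℝ)) = lam m b (S ∩ X).card := by
      unfold lam
      congr 1
      ring
    rw [hlam]
    rcases (S ∩ X).eq_empty_or_nonempty with h0 | ⟨e0, he0⟩
    · have h1 : S \ X = S := by
        rw [Finset.sdiff_eq_self_iff_disjoint, disjoint_iff_inter_eq_empty]
        exact h0
      rw [h1] at ih'
      have := lam_nonneg m b (S ∩ X).card
      linarith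
    · have hstep : ∀ c ∈ C, kap m b (S.filter (fun e => col e = c)).card ≤
          kap m b ((S \ X).filter (fun e => col e = c)).card +
            (if c = col e0 then lam m b (S ∩ X).card else 0) := by
        intro c _
        by_cases hcc : c = col e0
        · rw [if_pos hcc, ← kap_of_le hm hT]
          have h1 : (S.filter (fun e => col e = c)).card =
              ((S \ X).filter (fun e => col e = c)).card + (S ∩ X).card := by
            rw [← card_union_of_disjoint]
            · congr 1
              ext e
              simp only [mem_filter, mem_union, mem_sdiff, mem_inter]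
              constructor
              · rintro ⟨h1, h2⟩
                by_cases h3 : e ∈ X
                · exact Or.inr ⟨h1, h3⟩
                · exact Or.inl ⟨⟨h1, h3⟩, h2⟩
              · rintro (⟨⟨h1, -⟩, h2⟩ | ⟨h1, h2⟩)
                · exact ⟨h1, h2⟩
                · refine ⟨h1, ?_⟩
                  rw [hcc]
                  exact hcol X (by simp) e (mem_inter.2 ⟨h1, h2⟩) e0 he0
            · rw [disjoint_left]
              intro e he he'
              rw [mem_filter, mem_sdiff] at he
              exact he.1.2 (mem_inter.1 he').2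
          rw [h1]
          exact kap_add_le hm _ _
        · rw [if_neg hcc, add_zero]
          apply le_of_eq
          congr 2
          ext e
          simp only [mem_filter, mem_sdiff]
          constructor
          · rintro ⟨h1, h2⟩
            refine ⟨⟨h1, fun h3 => hcc ?_⟩, h2⟩
            rw [← h2]
            exact hcol X (by simp) e (mem_inter.2 ⟨h1, h3⟩) e0 he0
          · rintro ⟨⟨h1, -⟩, h2⟩
            exact ⟨h1, h2⟩
      have hsum := sum_le_sum hstep
      rw [sum_add_distrib] at hsum
      have h2 : ∑ c ∈ C, (if c = col e0 then lam m b (S ∩ X).card else 0) ≤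
          lam m b (S ∩ X).card := by
        rw [sum_ite_eq']
        split_ifs
        · exact le_rfl
        · exact lam_nonneg _ _ _
      linarith

/-- The cost lemma. -/
theorem cost_lemma {m b : ℕ} (hm : 1 ≤ m) (l : List (Finset α)) (hc : ∀ X ∈ l, X.card ≤ m)
    (hd : l.Pairwise Disjoint) (S : Finset α) (hS : S ⊆ uni l) {γ : Type*} [DecidableEq γ]
    (col : α → γ) (hcol : ∀ X ∈ l, ∀ e ∈ S ∩ X, ∀ e' ∈ S ∩ X, col e = col e') :
    ∑ c ∈ S.image col, kap m b (S.filter (fun e => col e = c)).card ≤
      Real.log (gain m b l S) :=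
  cl_cost hm col (S.image col) l hc S hS hcol

private theorem cl_tix (l : List (Finset α)) {e : α} (he : e ∈ uni l) :
    ∃ h : tix l e < l.length, e ∈ l[tix l e] := by
  rw [mem_uni] at he
  have h1 : tix l e < l.length := by
    unfold tix
    rw [List.findIdx_lt_length]
    obtain ⟨X, hX, heX⟩ := he
    exact ⟨X, hX, by simpa using heX⟩
  refine ⟨h1, ?_⟩
  have h2 := List.findIdx_getElem (p := fun X : Finset α => decide (e ∈ X)) (xs := l) (w := h1)
  exact of_decide_eq_true h2

theorem tix_spec (l : List (Finset α)) {e e' : α} (he : e ∈ uni l) (he' : e' ∈ uni l)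
    (h : tix l e = tix l e') : ∃ X ∈ l, e ∈ X ∧ e' ∈ X := by
  obtain ⟨h1, h2⟩ := cl_tix l he
  obtain ⟨h3, h4⟩ := cl_tix l he'
  refine ⟨l[tix l e], List.getElem_mem _, h2, ?_⟩
  have h5 : l[tix l e] = l[tix l e'] := by
    congr 1
  rw [h5]
  exact h4

private theorem cl_tix_congr (l : List (Finset α)) {e e' : α}
    (h : ∀ Y ∈ l, (e ∈ Y ↔ e' ∈ Y)) : tix l e = tix l e' := by
  induction l with
  | nil => rfl
  | cons X l ih =>
    unfold tix at ih ⊢
    rw [List.findIdx_cons, List.findIdx_cons]
    have h1 : decide (e ∈ X) = decide (e' ∈ X) := by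
      rw [decide_eq_decide]
      exact h X (by simp)
    rw [h1, ih fun Y hY => h Y (by simp [hY])]

theorem tix_same (l : List (Finset α)) (hd : l.Pairwise Disjoint) {X : Finset α} (hX : X ∈ l)
    {e e' : α} (he : e ∈ X) (he' : e' ∈ X) : tix l e = tix l e' := by
  apply cl_tix_congr
  intro Y hY
  by_cases hXY : X = Y
  · rw [← hXY]
    exact ⟨fun _ => he', fun _ => he⟩
  · have h1 : Disjoint X Y := hd.forall hX hY hXY
    rw [disjoint_left] at h1
    exact ⟨fun h => absurd h (h1 he), fun h => absurd h (h1 he')⟩

/-- The number of elements with a given move index is at most `m`. -/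
theorem card_tn0_eq_le [Fintype α] {m : ℕ} {board : Finset α} {P : Pos α} (hP : GP m board P)
    {t : ℕ} (ht : 2 ≤ t) : (univ.filter (fun e => tn0 P e = t)).card ≤ m := by
  have key : ∀ e, tn0 P e = t → e ∈ P.M ∧ tix P.mv e = t - 2 := by
    intro e he
    unfold tn0 at he
    split_ifs at he with h1 h2
    · omega
    · exact ⟨h2, by omega⟩
    · omega
  rcases (univ.filter (fun e => tn0 P e = t)).eq_empty_or_nonempty with h0 | ⟨e0, he0⟩
  · rw [h0, card_empty]
    exact Nat.zero_le _
  · rw [mem_filter] at he0
    obtain ⟨h1, h2⟩ := key e0 he0.2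
    obtain ⟨h3, h4⟩ := cl_tix P.mv h1
    have h5 : t - 2 < P.mv.length := by rw [← h2]; exact h3
    have hsub : univ.filter (fun e => tn0 P e = t) ⊆ P.mv[t - 2] := by
      intro e he
      rw [mem_filter] at he
      obtain ⟨g1, g2⟩ := key e he.2
      obtain ⟨g3, g4⟩ := cl_tix P.mv g1
      have g5 : P.mv[tix P.mv e] = P.mv[t - 2] := by
        congr 1
      rw [← g5]
      exact g4
    exact (card_le_card hsub).trans (hP.card _ (List.getElem_mem _))

theorem log_gain_ge {m b : ℕ} (hm : 1 ≤ m) (l : List (Finset α)) (hc : ∀ X ∈ l, X.card ≤ m)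
    (hd : l.Pairwise Disjoint) (S : Finset α) :
    mu m b * (S ∩ uni l).card ≤ Real.log (gain m b l S) := by
  have h1 := cl_cost (b := b) hm (fun _ : α => ()) {()} l hc (S ∩ uni l) inter_subset_right
    (fun _ _ _ _ _ _ => rfl)
  rw [sum_singleton, filter_true_of_mem (fun _ _ => rfl)] at h1
  have h2 := mu_mul_le_kap (b := b) hm (S ∩ uni l).card
  have h3 : Real.log (gain m b l (S ∩ uni l)) ≤ Real.log (gain m b l S) :=
    Real.log_le_log (by linarith [one_le_gain m b l (S ∩ uni l)])
      (gain_mono m b l inter_subset_left)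
  linarith

end Pool.Agent.Helper5.CV
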