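import Mathlib
import Pool.Agent.Helper5.CV.Defs

/-!
# MP_d32cb0_co, module L03: restriction of data

`resD d i` keeps the buckets `≤ i - 3`, the similar pairs between such points and the status of the pairs of such points with
bucket sum `≤ i`.  Everything is a direct computation with the definitions (`ext`, case distinctions).
* `resD_resD`: for `i ≤ j`.
* `gen_resD`: all sets in a derivation of `Gen sm t X` are subsets of `X`, so all used pairs are between points of `X`.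
* `wp_resD`, `goodC_resD`, `coll_resD`: for sets of points with `1 ≤ bk`, `bk + 3 ≤ i`, `i ≤ j` resp. `i + K ≤ j`: `bks` of the pairs is
  unchanged, and a window pair (`bks ≤ i + K ≤ j`) keeps its status; `rel sm A` is unchanged, hence `cl`, `cp`, `cw`.
  (In `coll_resD` the value `tn` of both pairs is unchanged.)
* `seqQ_of_seqP`: `old (resD d i) i' = old d i'` for `i' ≤ i`.
* `datOK_resD`: `size (resD (resD d j) i) ≤ size (resD d i)` for all `i, j` (subsets); the rest is immediate.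
* `old_old`, `old_sub`.
-/

set_option autoImplicit false

namespace Pool.Agent.Helper5.CV

open Finset Pool.Agent.Helper25.CliqueGame
open Pool.Agent.Helper78.CG (EI)

variable {V : Type*} [DecidableEq V]

theorem bks_mk (d : Dat V) (x y : V) : bks d s(x, y) = d.bk x + d.bk y := rfl

/-! Auxiliary facts about the components of `resD`. -/

private theorem bk_eq (d : Dat V) (j : ℕ) (v : V) :
    (resD d j).bk v = if d.bk v + 3 ≤ j then d.bk v else 0 := rfl

private theorem tn_eq (d : Dat V) (j : ℕ) (e : Sym2 V) [Decidable (lowPair d j e)] :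
    (resD d j).tn e = if lowPair d j e then d.tn e else 0 := by
  unfold resD
  dsimp only
  split_ifs <;> rfl

private theorem bk_of (d : Dat V) {j : ℕ} {v : V} (h : d.bk v + 3 ≤ j) :
    (resD d j).bk v = d.bk v := by
  rw [bk_eq, if_pos h]

private theorem one_bk (d : Dat V) (j : ℕ) (v : V) :
    1 ≤ (resD d j).bk v ↔ 1 ≤ d.bk v ∧ d.bk v + 3 ≤ j := by
  rw [bk_eq]
  split_ifs with h
  · simp [h]
  · simp [h]

private theorem bk_of_one (d : Dat V) {j : ℕ} {v : V} (h : 1 ≤ (resD d j).bk v) :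
    (resD d j).bk v = d.bk v := bk_of d ((one_bk d j v).1 h).2

private theorem bk_le (d : Dat V) (j : ℕ) (v : V) : (resD d j).bk v ≤ d.bk v := by
  rw [bk_eq]
  split_ifs <;> omega

private theorem mem_sm (d : Dat V) (j : ℕ) (p : V × V) :
    p ∈ (resD d j).sm ↔ p ∈ d.sm ∧ (1 ≤ d.bk p.1 ∧ d.bk p.1 + 3 ≤ j) ∧
      (1 ≤ d.bk p.2 ∧ d.bk p.2 + 3 ≤ j) := by
  unfold resD
  simp only [mem_filter]

private theorem bks_of (d : Dat V) {j : ℕ} {e : Sym2 V} (h : ∀ v ∈ e, d.bk v + 3 ≤ j) :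
    bks (resD d j) e = bks d e := by
  induction e using Sym2.inductionOn with
  | hf x y =>
    rw [bks_mk, bks_mk, bk_of d (h x (Sym2.mem_mk_left x y)), bk_of d (h y (Sym2.mem_mk_right x y))]

private theorem low_of_low (d : Dat V) {i j : ℕ} {e : Sym2 V} (h : lowPair (resD d j) i e) :
    lowPair d i e := by
  obtain ⟨h1, h2, h3⟩ := h
  have h4 : ∀ v ∈ e, d.bk v + 3 ≤ j := fun v hv => ((one_bk d j v).1 (h2 v hv).1).2
  refine ⟨h1, fun v hv => ?_, ?_⟩
  · have := h2 v hv
    rw [bk_of d (h4 v hv)] at this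
    exact this
  · rw [bks_of d h4] at h3
    exact h3

private theorem low_iff (d : Dat V) {i j : ℕ} (h : i ≤ j) (e : Sym2 V) :
    lowPair (resD d j) i e ↔ lowPair d i e := by
  refine ⟨low_of_low d, fun ⟨h1, h2, h3⟩ => ?_⟩
  have h4 : ∀ v ∈ e, d.bk v + 3 ≤ j := fun v hv => (h2 v hv).2.trans h
  refine ⟨h1, fun v hv => ?_, ?_⟩
  · rw [bk_of d (h4 v hv)]
    exact h2 v hv
  · rw [bks_of d h4]
    exact h3

private theorem low_mono (d : Dat V) {i j : ℕ} (h : i ≤ j) {e : Sym2 V} (he : lowPair d i e) :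
    lowPair d j e :=
  ⟨he.1, fun v hv => ⟨(he.2.1 v hv).1, (he.2.1 v hv).2.trans h⟩, he.2.2.trans h⟩

theorem resD_resD (d : Dat V) {i j : ℕ} (h : i ≤ j) : resD (resD d j) i = resD d i := by
  have hbk : (resD (resD d j) i).bk = (resD d i).bk := by
    funext v
    rw [bk_eq, bk_eq, bk_eq]
    split_ifs <;> omega
  have hsm : (resD (resD d j) i).sm = (resD d i).sm := by
    ext p
    rw [mem_sm, mem_sm, mem_sm]
    constructor
    · rintro ⟨⟨h1, h2, h3⟩, h4, h5⟩
      rw [bk_of d h2.2] at h4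
      rw [bk_of d h3.2] at h5
      exact ⟨h1, h4, h5⟩
    · rintro ⟨h1, h2, h3⟩
      have h4 : d.bk p.1 + 3 ≤ j := h2.2.trans h
      have h5 : d.bk p.2 + 3 ≤ j := h3.2.trans h
      refine ⟨⟨h1, ⟨h2.1, h4⟩, ⟨h3.1, h5⟩⟩, ?_, ?_⟩
      · rw [bk_of d h4]; exact h2
      · rw [bk_of d h5]; exact h3
  have htn : (resD (resD d j) i).tn = (resD d i).tn := by
    classical
    funext e
    rw [tn_eq, tn_eq d i, tn_eq d j]
    by_cases h1 : lowPair d i e
    · rw [if_pos ((low_iff d h e).2 h1), if_pos h1, if_pos (low_mono d h h1)]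
    · rw [if_neg (fun h2 => h1 ((low_iff d h e).1 h2)), if_neg h1]
  rcases hA : resD (resD d j) i with ⟨a1, a2, a3⟩
  rcases hB : resD d i with ⟨b1, b2, b3⟩
  rw [hA, hB] at hbk hsm htn
  dsimp only at hbk hsm htn
  rw [hbk, hsm, htn]

theorem old_resD (d : Dat V) {i j : ℕ} (h : i ≤ j) (A : Finset V) :
    old (resD d j) i A = old d i A := by
  unfold old
  refine filter_congr fun v _ => ?_
  constructor
  · rintro ⟨h1, h2⟩
    have h3 := bk_of_one d h1
    rw [h3] at h1 h2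
    exact ⟨h1, h2⟩
  · rintro ⟨h1, h2⟩
    rw [bk_of d (h2.trans h)]
    exact ⟨h1, h2⟩

theorem old_old (d : Dat V) {i j : ℕ} (h : i ≤ j) (A : Finset V) :
    old d i (old d j A) = old d i A := by
  unfold old
  rw [filter_filter]
  refine filter_congr fun v _ => ?_
  constructor
  · rintro ⟨_, h2⟩
    exact h2
  · rintro ⟨h1, h2⟩
    exact ⟨⟨h1, h2.trans h⟩, h1, h2⟩

theorem nw_resD (d : Dat V) {K i j : ℕ} (h : i ≤ j) {A : Finset V}
    (hA : ∀ v ∈ A, 1 ≤ d.bk v ∧ d.bk v + 3 ≤ i) : nw (resD d j) K i A = nw d K i A := by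
  unfold nw
  refine filter_congr fun v hv => ?_
  rw [bk_of d ((hA v hv).2.trans h)]

private theorem gen_mono {sm sm' : Finset (V × V)} (hs : sm ⊆ sm') {t : ℕ} {A : Finset V}
    (h : Gen sm t A) : Gen sm' t A := by
  induction h with
  | base T h => exact Gen.base T h
  | step A a b _ ha hab ih => exact Gen.step A a b ih ha (hs hab)

theorem gen_resD (d : Dat V) {i j t : ℕ} (h : i ≤ j) {A : Finset V}
    (hA : ∀ v ∈ A, 1 ≤ d.bk v ∧ d.bk v + 3 ≤ i) : Gen (resD d j).sm t A ↔ Gen d.sm t A := by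
  constructor
  · exact gen_mono fun p hp => ((mem_sm d j p).1 hp).1
  · intro hG
    induction hG with
    | base T h => exact Gen.base T h
    | step A a b _ ha hab ih =>
      refine Gen.step A a b (ih fun v hv => hA v (mem_insert_of_mem hv)) ha ?_
      rw [mem_sm]
      have h1 := hA a (mem_insert_of_mem ha)
      have h2 := hA b (mem_insert_self b A)
      exact ⟨hab, ⟨h1.1, h1.2.trans h⟩, ⟨h2.1, h2.2.trans h⟩⟩

private theorem mem_sym2' {A : Finset V} {e : Sym2 V} (he : e ∈ A.sym2) : ∀ v ∈ e, v ∈ A :=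
  fun v hv => Finset.mem_sym2_iff.1 he v hv

theorem wp_resD (d : Dat V) {K i j : ℕ} (h : i ≤ j) {A : Finset V}
    (hA : ∀ v ∈ A, 1 ≤ d.bk v ∧ d.bk v + 3 ≤ i) : wp (resD d j) K i A = wp d K i A := by
  unfold wp
  refine filter_congr fun e he => ?_
  rw [bks_of d (j := j) (fun v hv => (hA v (mem_sym2' he v hv)).2.trans h)]

private theorem low_wp (d : Dat V) {K i j : ℕ} (h : i + K ≤ j) {A : Finset V}
    (hA : ∀ v ∈ A, 1 ≤ d.bk v ∧ d.bk v + 3 ≤ i) {e : Sym2 V} (he : e ∈ wp d K i A) :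
    lowPair d j e := by
  unfold wp at he
  rw [mem_filter] at he
  refine ⟨he.2.1, fun v hv => ?_, he.2.2.2.trans h⟩
  have := hA v (mem_sym2' he.1 v hv)
  exact ⟨this.1, by omega⟩

private theorem tn_wp (d : Dat V) {K i j : ℕ} (h : i + K ≤ j) {A : Finset V}
    (hA : ∀ v ∈ A, 1 ≤ d.bk v ∧ d.bk v + 3 ≤ i) {e : Sym2 V} (he : e ∈ wp d K i A) :
    (resD d j).tn e = d.tn e := by
  classical
  rw [tn_eq, if_pos (low_wp d h hA he)]

private theorem cp_res (d : Dat V) {i j : ℕ} (h : i ≤ j) {A : Finset V}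
    (hA : ∀ v ∈ A, 1 ≤ d.bk v ∧ d.bk v + 3 ≤ i) : cp (resD d j).sm A = cp d.sm A := by
  have hrel : rel (resD d j).sm A = rel d.sm A := by
    funext u v
    apply propext
    unfold rel
    constructor
    · rintro ⟨h1, h2, h3⟩
      exact ⟨h1, h2, ((mem_sm d j _).1 h3).1⟩
    · rintro ⟨h1, h2, h3⟩
      refine ⟨h1, h2, (mem_sm d j _).2 ⟨h3, ?_, ?_⟩⟩
      · exact ⟨(hA u h1).1, (hA u h1).2.trans h⟩
      · exact ⟨(hA v h2).1, (hA v h2).2.trans h⟩
  have hcl : cl (resD d j).sm A = cl d.sm A := by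
    funext v
    unfold cl
    rw [hrel]
  funext e
  unfold cp
  rw [hcl]

theorem goodC_resD (m b : ℕ) (d : Dat V) {K i j c : ℕ} (h : i + K ≤ j) {A : Finset V}
    (hA : ∀ v ∈ A, 1 ≤ d.bk v ∧ d.bk v + 3 ≤ i) :
    GoodC m b (resD d j) K i c A ↔ GoodC m b d K i c A := by
  have hij : i ≤ j := by omega
  have hcw : ∀ G, cw m b (resD d j).sm A G = cw m b d.sm A G := by
    intro G
    unfold cw
    rw [cp_res d hij hA]
  unfold GoodC
  rw [wp_resD d hij hA, cp_res d hij hA]
  constructor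
  · rintro ⟨h1, G, hG, h2, h3, h4⟩
    refine ⟨fun e he => ?_, G, hG, fun e he => ?_, fun e he e' he' hee => ?_, ?_⟩
    · rw [← tn_wp d h hA he]; exact h1 e he
    · rw [← tn_wp d h hA (hG he)]; exact h2 e he
    · refine h3 e he e' he' ?_
      rw [tn_wp d h hA (hG he), tn_wp d h hA (hG he')]; exact hee
    · rw [← hcw]; exact h4
  · rintro ⟨h1, G, hG, h2, h3, h4⟩
    refine ⟨fun e he => ?_, G, hG, fun e he => ?_, fun e he e' he' hee => ?_, ?_⟩
    · rw [tn_wp d h hA he]; exact h1 e he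
    · rw [tn_wp d h hA (hG he)]; exact h2 e he
    · refine h3 e he e' he' ?_
      rw [tn_wp d h hA (hG he), tn_wp d h hA (hG he')] at hee; exact hee
    · rw [hcw]; exact h4

theorem coll_resD [Fintype V] {ι : Type*} [Fintype ι] (d : Dat V) {K i j : ℕ} (h : i + K ≤ j)
    (f : ι → Finset V) (hf : ∀ k, ∀ v ∈ f k, 1 ≤ d.bk v ∧ d.bk v + 3 ≤ i) :
    coll (resD d j) K i f = coll d K i f := by
  have hij : i ≤ j := by omega
  ext x
  simp only [coll, mem_filter, mem_univ, true_and]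
  rw [wp_resD d hij (hf _), wp_resD d hij (hf _)]
  constructor
  · rintro ⟨h1, h2, h3, h4, h5⟩
    rw [tn_wp d h (hf _) h2] at h4 h5
    rw [tn_wp d h (hf _) h3] at h5
    exact ⟨h1, h2, h3, h4, h5⟩
  · rintro ⟨h1, h2, h3, h4, h5⟩
    rw [tn_wp d h (hf _) h2, tn_wp d h (hf _) h3]
    exact ⟨h1, h2, h3, h4, h5⟩

theorem size_resD_resD_le [Fintype V] (d : Dat V) (i j : ℕ) :
    size (resD (resD d j) i) ≤ size (resD d i) := by
  classical
  unfold size
  refine add_le_add (add_le_add ?_ ?_) ?_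
  · refine card_le_card fun v hv => ?_
    rw [mem_filter] at hv ⊢
    refine ⟨mem_univ _, ?_⟩
    have h1 := hv.2
    rw [bk_eq, bk_eq] at h1
    rw [bk_eq]
    split_ifs at h1 ⊢ <;> omega
  · refine card_le_card fun p hp => ?_
    rw [mem_sm, mem_sm] at hp
    rw [mem_sm]
    obtain ⟨⟨h1, h2, h3⟩, h4, h5⟩ := hp
    rw [bk_of d h2.2] at h4
    rw [bk_of d h3.2] at h5
    exact ⟨h1, h4, h5⟩
  · refine card_le_card fun e he => ?_
    rw [mem_filter] at he ⊢
    refine ⟨mem_univ _, ?_⟩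
    have h1 := he.2
    rw [tn_eq, tn_eq] at h1
    rw [tn_eq]
    by_cases h2 : lowPair (resD d j) i e
    · rw [if_pos h2] at h1
      rw [if_pos (low_of_low d h2)]
      split_ifs at h1
      · exact h1
      · exact absurd rfl h1
    · rw [if_neg h2] at h1
      exact absurd rfl h1

theorem seqN_resD (Y : Sys) (l : ℕ) (d : Dat V) (f : Idx Y.r0 Y.R (l + 1) → Finset V) {j : ℕ}
    (h : Y.i (l + 1) ≤ j) : SeqN Y l (resD d j) f ↔ SeqN Y l d f := by
  unfold SeqN
  refine forall_congr' fun k => and_congr_right fun _ => ?_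
  constructor
  · rintro ⟨h1, h2⟩
    have h3 : ∀ v ∈ f k, 1 ≤ d.bk v ∧ d.bk v + 3 ≤ Y.i (l + 1) := by
      intro v hv
      have h4 := h1 v hv
      rw [bk_of_one d h4.1] at h4
      exact h4
    refine ⟨h3, ?_⟩
    rw [nw_resD d h h3] at h2
    exact (gen_resD d h fun v hv => h3 v (mem_of_mem_filter v hv)).1 h2
  · rintro ⟨h3, h2⟩
    refine ⟨fun v hv => ?_, ?_⟩
    · rw [bk_of d ((h3 v hv).2.trans h)]
      exact h3 v hv
    · rw [nw_resD d h h3]
      exact (gen_resD d h fun v hv => h3 v (mem_of_mem_filter v hv)).2 h2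

theorem seqQ_of_seqP [Fintype V] (m b : ℕ) (Y : Sys) (l : ℕ) (d : Dat V)
    (f : Idx Y.r0 Y.R (l + 1) → Finset V) (hf : SeqP m b Y (l + 1) d f) :
    SeqQ m b Y l (resD d (Y.i (l + 1))) f := by
  classical
  have hi : Y.i l ≤ Y.i (l + 1) := by
    unfold Sys.i
    exact Nat.add_le_add_left (Nat.mul_le_mul_left _ (Nat.le_succ l)) _
  have hfun : ∀ j : Fin Y.R,
      (fun k : Idx Y.r0 Y.R l => old (resD d (Y.i (l + 1))) (Y.i l) (f (j, k))) =
        fun k => old d (Y.i l) (f (j, k)) :=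
    fun j => funext fun k => old_resD d hi _
  simp only [SeqP] at hf
  unfold SeqQ
  refine ⟨(seqN_resD Y l d f le_rfl).2 hf.1, ?_⟩
  refine (card_le_card fun j hj => ?_).trans hf.2.2.2
  have hj2 := (mem_filter.1 hj).2
  rw [hfun j] at hj2
  exact mem_filter.2 ⟨mem_univ _, hj2⟩

theorem datOK_resD {N : ℕ} {P : Pos (Sym2 (Fin N))} {Y : Sys} {nb nt Δ nZ : ℕ} {τ : ℕ → ℕ}
    {d : Dat (Fin N)} (hd : DatOK P Y nb nt Δ nZ τ d) (j : ℕ) :
    DatOK P Y nb nt Δ nZ τ (resD d j) := by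
  classical
  have htn : ∀ e, (resD d j).tn e ≠ 0 → (resD d j).tn e = d.tn e := by
    intro e he
    rw [tn_eq] at he ⊢
    split_ifs at he ⊢
    · rfl
    · exact absurd rfl he
  refine ⟨fun e he => ?_, fun e he => ?_, fun v => ?_, fun e => ?_, fun a => ?_, ?_, fun l => ?_⟩
  · exact hd.tnB e (by rw [← htn e he]; exact he)
  · have h1 := htn e (by omega)
    rw [h1] at he ⊢
    exact hd.tnM e he
  · exact (bk_le d j v).trans_lt (hd.bkn v)
  · by_cases h : (resD d j).tn e = 0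
    · rw [h]
      exact (Nat.zero_le _).trans_lt (hd.tnn e)
    · rw [htn e h]
      exact hd.tnn e
  · refine (card_le_card fun p hp => ?_).trans (hd.deg a)
    rw [mem_filter, mem_sm] at hp
    exact mem_filter.2 ⟨hp.1.1, hp.2⟩
  · refine (card_le_card fun v hv => ?_).trans hd.card
    rw [mem_filter, one_bk] at hv
    exact mem_filter.2 ⟨mem_univ _, hv.2.1⟩
  · exact (size_resD_resD_le d _ j).trans (hd.size l)

theorem card_idx (r0 R l : ℕ) : Fintype.card (Idx r0 R l) = R ^ l * r0 := by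
  induction l with
  | zero =>
    have : Fintype.card (Idx r0 R 0) = Fintype.card (Fin r0) := rfl
    rw [this, Fintype.card_fin, pow_zero, one_mul]
  | succ l ih =>
    have : Fintype.card (Idx r0 R (l + 1)) = Fintype.card (Fin R × Idx r0 R l) := rfl
    rw [this, Fintype.card_prod, ih, Fintype.card_fin, pow_succ]
    ring

end Pool.Agent.Helper5.CV
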