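import Mathlib
import Pool.Agent.Helper5.CV.DefsT
import Pool.Agent.Helper5.CV.NN
import Pool.Agent.Helper5.CV.Buck
import Pool.Agent.Helper5.CV.CostL
import Pool.Agent.Helper5.CV.ResD

/-!
# MP_d32cb0_co, module T02: the true data satisfy `DatOK`

PROOF.  `tnB, tnM, bkn` are immediate (`tnM`: value `≥ 2` only in the middle case).  `tnn`: `tix l e < l.length` for `e ∈ uni l`
(`List.findIdx_lt_length`), `length ≤ N²`.  `deg`: for `a` with `1 ≤ bk a`: `Σ_c nn ℬ {a,c} ≤ q nn ℬ {a}` (`sum_nn_pair_le`), every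
similar `c` has `e^{-Γ/8} nn ℬ {a} ≤ nn ℬ {a,c}`, `nn ℬ {a} > 0`: at most `q e^{Γ/8} ≤ Δ` of them.  `card`: bucketed points are in `Z`.
`size` (`i = Y.i (l+1)`): points: `card_low` with `j = i - 3`: `≤ q e^{(i-3)Γ}`; similar pairs: `≤ q e^{(i-3)Γ} · q e^{Γ/8}
≤ q² e^{iΓ}`; pairs `e = {x,y}` with `lowPair`: `bk x + bk y ≤ i`: for every `j ≤ nb` at most `q e^{jΓ}` points `x` with `bk x = j` and for each of
them `≤ q e^{(i-j)Γ}` points `y` with `bk y ≤ i - j`: at most `nb q² e^{iΓ}`.  Sum `≤ (nb+2) q² e^{iΓ} ≤ τ l` (`q ≥ 1`).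
-/

set_option autoImplicit false

namespace Pool.Agent.Helper5.CV

open Finset Pool.Agent.Helper25.CliqueGame
open Pool.Agent.Helper78.CG (EI)

private theorem sim_deg {V : Type*} [DecidableEq V] [Fintype V] {ℬ : Finset (Finset V)} {q j0 : ℕ}
    (hs : ∀ B ∈ ℬ, B.card ≤ q) {Γ : ℝ} {a : V} (ha : 0 < nn ℬ {a}) (C : Finset V)
    (hC : ∀ c ∈ C, Sim ℬ (thr Γ j0) a c) : (C.card : ℝ) ≤ q * Real.exp (Γ / 8) := by
  have h1 : ∑ x : V, nn ℬ {a, x} ≤ q * nn ℬ {a} := sum_nn_pair_le hs a
  have h2 : ∑ x ∈ C, nn ℬ {a, x} ≤ q * nn ℬ {a} :=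
    (sum_le_sum_of_subset (subset_univ C)).trans h1
  have h3 : ∑ x ∈ C, (nn ℬ {a, x} : ℝ) ≤ q * nn ℬ {a} := by exact_mod_cast h2
  have h4 : ∑ x ∈ C, Real.exp (-(Γ / 8)) * (nn ℬ {a} : ℝ) ≤ ∑ x ∈ C, (nn ℬ {a, x} : ℝ) :=
    sum_le_sum fun x hx => (hC x hx).1
  rw [sum_const, nsmul_eq_mul] at h4
  have h5 : (0 : ℝ) < nn ℬ {a} := by exact_mod_cast ha
  have h6 : (C.card : ℝ) * Real.exp (-(Γ / 8)) * (nn ℬ {a} : ℝ) ≤ q * nn ℬ {a} := by
    rw [mul_assoc]
    exact h4.trans h3
  have h7 : (C.card : ℝ) * Real.exp (-(Γ / 8)) ≤ q := le_of_mul_le_mul_right h6 h5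
  have h8 : Real.exp (-(Γ / 8)) * Real.exp (Γ / 8) = 1 := by
    rw [← Real.exp_add, neg_add_cancel, Real.exp_zero]
  calc (C.card : ℝ) = (C.card : ℝ) * Real.exp (-(Γ / 8)) * Real.exp (Γ / 8) := by
        rw [mul_assoc, h8, mul_one]
    _ ≤ q * Real.exp (Γ / 8) := mul_le_mul_of_nonneg_right h7 (Real.exp_pos _).le

theorem datOK_dat {N m q j0 nb Δ : ℕ} (hq : 1 ≤ q) {P : Pos (Sym2 (Fin N))}
    (hP : GP m (edges N) P) (hlen : P.mv.length ≤ N ^ 2) {ℬ : Finset (Finset (Fin N))}
    (hne : ℬ.Nonempty) (hs : ∀ B ∈ ℬ, B.card ≤ q) {Γ : ℝ} (hΓ : 0 < Γ) (hj0 : 1 ≤ j0)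
    (Z : Finset (Fin N)) (hΔ : (q : ℝ) * Real.exp (Γ / 8) ≤ Δ) (Y : Sys) {τ : ℕ → ℕ}
    (hτ : ∀ l, ((nb : ℝ) + 2) * (q : ℝ) ^ 2 * Real.exp ((Y.i (l + 1) : ℝ) * Γ) ≤ τ l) :
    DatOK P Y (nb + 1) (N ^ 2 + 3) Δ Z.card τ (dat P ℬ Γ Z j0 nb) := by
  classical
  set d := dat P ℬ Γ Z j0 nb with hd
  have hbk : ∀ v, d.bk v = bkD ℬ Γ Z j0 nb v := fun v => rfl
  have hsm : ∀ p : Fin N × Fin N, p ∈ d.sm ↔ 1 ≤ d.bk p.1 ∧ 1 ≤ d.bk p.2 ∧
      Sim ℬ (thr Γ j0) p.1 p.2 := by
    intro p
    rw [hd]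
    unfold dat
    simp only [mem_filter, mem_univ, true_and]
  have htn : ∀ e, d.tn e = if e ∈ P.B then 0 else
      if e ∈ P.M ∧ ∀ x y, e = s(x, y) → ¬ B0 ℬ (thr Γ j0) x y then tix P.mv e + 2 else 1 := by
    intro e
    rw [hd]
    unfold dat
    dsimp only
  have hdeg : ∀ a, 1 ≤ d.bk a → ∀ C : Finset (Fin N), (∀ c ∈ C, Sim ℬ (thr Γ j0) a c) →
      (C.card : ℝ) ≤ q * Real.exp (Γ / 8) := by
    intro a ha C hC
    exact sim_deg hs (bkD_spec hΓ hj0 (by rw [← hbk]; exact ha)).2.1 C hC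
  have hlow : ∀ j : ℕ, ((univ.filter (fun v => 1 ≤ d.bk v ∧ d.bk v ≤ j)).card : ℝ) ≤
      q * Real.exp (j * Γ) := fun j => card_low hne hΓ hj0 hs j
  refine ⟨?_, ?_, ?_, ?_, ?_, ?_, ?_⟩
  · -- tnB
    intro e he hB
    rw [htn, if_pos hB] at he
    exact he rfl
  · -- tnM
    intro e he
    rw [htn] at he ⊢
    by_cases h1 : e ∈ P.B
    · rw [if_pos h1] at he
      omega
    · rw [if_neg h1] at he ⊢
      by_cases h2 : e ∈ P.M ∧ ∀ x y, e = s(x, y) → ¬ B0 ℬ (thr Γ j0) x y
      · rw [if_pos h2]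
        exact ⟨h2.1, rfl⟩
      · rw [if_neg h2] at he
        omega
  · -- bkn
    intro v
    exact Nat.lt_succ_of_le (bkD_le v)
  · -- tnn
    intro e
    have h3 : tix P.mv e ≤ P.mv.length := List.findIdx_le_length
    rw [htn]
    split_ifs <;> omega
  · -- deg
    intro a
    by_cases ha : 1 ≤ d.bk a
    · have h1 : (d.sm.filter (fun p => p.1 = a)).card ≤
          (univ.filter (fun c => Sim ℬ (thr Γ j0) a c)).card := by
        refine card_le_card_of_injOn Prod.snd ?_ ?_
        · intro p hp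
          have hp' := mem_filter.1 (mem_coe.1 hp)
          have h2 := (hsm p).1 hp'.1
          rw [mem_coe, mem_filter]
          refine ⟨mem_univ _, ?_⟩
          rw [← hp'.2]
          exact h2.2.2
        · intro p hp p' hp' h
          have h1 := (mem_filter.1 (mem_coe.1 hp)).2
          have h2 := (mem_filter.1 (mem_coe.1 hp')).2
          exact Prod.ext (h1.trans h2.symm) h
      have h2 := hdeg a ha (univ.filter (fun c => Sim ℬ (thr Γ j0) a c))
        (fun c hc => (mem_filter.1 hc).2)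
      have h3 : ((d.sm.filter (fun p => p.1 = a)).card : ℝ) ≤ Δ := by
        refine le_trans ?_ (h2.trans hΔ)
        exact_mod_cast h1
      exact_mod_cast h3
    · have h1 : d.sm.filter (fun p => p.1 = a) = ∅ := by
        rw [filter_eq_empty_iff]
        intro p hp h
        apply ha
        rw [← h]
        exact ((hsm p).1 hp).1
      rw [h1, card_empty]
      exact Nat.zero_le _
  · -- card
    refine card_le_card fun v hv => ?_
    have h1 := (mem_filter.1 hv).2
    exact (bkD_spec hΓ hj0 (by rw [← hbk]; exact h1)).1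
  · -- size
    intro l
    set i := Y.i (l + 1) with hi
    have hq1 : (1 : ℝ) ≤ q := by exact_mod_cast hq
    have hexp : 0 < Real.exp ((i : ℝ) * Γ) := Real.exp_pos _
    -- points
    have h1 : ((univ.filter (fun v => (resD d i).bk v ≠ 0)).card : ℝ) ≤
        q * Real.exp ((i : ℝ) * Γ) := by
      refine le_trans ?_ (hlow i)
      have : (univ.filter (fun v => (resD d i).bk v ≠ 0)).card ≤
          (univ.filter (fun v => 1 ≤ d.bk v ∧ d.bk v ≤ i)).card := by
        refine card_le_card fun v hv => ?_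
        have h2 := (mem_filter.1 hv).2
        have h3 : (resD d i).bk v = if d.bk v + 3 ≤ i then d.bk v else 0 := rfl
        rw [h3] at h2
        rw [mem_filter]
        refine ⟨mem_univ _, ?_⟩
        split_ifs at h2 with h4
        · omega
        · exact absurd rfl h2
      exact_mod_cast this
    -- similar pairs
    have h2 : ((resD d i).sm.card : ℝ) ≤ (q : ℝ) ^ 2 * Real.exp ((i : ℝ) * Γ) := by
      have hmem : ∀ p : Fin N × Fin N, p ∈ (resD d i).sm → (1 ≤ d.bk p.1 ∧ d.bk p.1 + 3 ≤ i) ∧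
          Sim ℬ (thr Γ j0) p.1 p.2 := by
        intro p hp
        unfold resD at hp
        simp only [mem_filter] at hp
        exact ⟨hp.2.1, ((hsm p).1 hp.1).2.2⟩
      rcases Nat.lt_or_ge i 1 with hi0 | hi1
      · have h3 : (resD d i).sm = ∅ := by
          rw [eq_empty_iff_forall_notMem]
          intro p hp
          have := (hmem p hp).1
          omega
        rw [h3, card_empty, Nat.cast_zero]
        positivity
      · have h3 : (resD d i).sm ⊆ (univ.filter (fun v => 1 ≤ d.bk v ∧ d.bk v ≤ i - 1)).biUnion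
            (fun a => (univ.filter (fun c => Sim ℬ (thr Γ j0) a c)).image (fun c => (a, c))) := by
          intro p hp
          have h4 := hmem p hp
          rw [mem_biUnion]
          refine ⟨p.1, mem_filter.2 ⟨mem_univ _, h4.1.1, by omega⟩, ?_⟩
          rw [mem_image]
          exact ⟨p.2, mem_filter.2 ⟨mem_univ _, h4.2⟩, rfl⟩
        have h4 : ((resD d i).sm.card : ℝ) ≤
            ∑ a ∈ univ.filter (fun v => 1 ≤ d.bk v ∧ d.bk v ≤ i - 1),
              (((univ.filter (fun c => Sim ℬ (thr Γ j0) a c)).image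
                (fun c => (a, c))).card : ℝ) := by
          have := (card_le_card h3).trans card_biUnion_le
          exact_mod_cast this
        refine h4.trans ?_
        have h5 : ∀ a ∈ univ.filter (fun v => 1 ≤ d.bk v ∧ d.bk v ≤ i - 1),
            (((univ.filter (fun c => Sim ℬ (thr Γ j0) a c)).image
                (fun c => (a, c))).card : ℝ) ≤ q * Real.exp (Γ / 8) := by
          intro a ha
          refine le_trans ?_ (hdeg a (mem_filter.1 ha).2.1
            (univ.filter (fun c => Sim ℬ (thr Γ j0) a c)) (fun c hc => (mem_filter.1 hc).2))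
          exact_mod_cast card_image_le
        refine (sum_le_sum h5).trans ?_
        rw [sum_const, nsmul_eq_mul]
        have h6 := hlow (i - 1)
        have h7 : ((i - 1 : ℕ) : ℝ) = (i : ℝ) - 1 := by
          rw [Nat.cast_sub hi1, Nat.cast_one]
        rw [h7] at h6
        have h8 : Real.exp (((i : ℝ) - 1) * Γ) * Real.exp (Γ / 8) ≤ Real.exp ((i : ℝ) * Γ) := by
          rw [← Real.exp_add]
          apply Real.exp_le_exp.2
          nlinarith
        calc ((univ.filter (fun v => 1 ≤ d.bk v ∧ d.bk v ≤ i - 1)).card : ℝ) *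
              (q * Real.exp (Γ / 8))
            ≤ (q * Real.exp (((i : ℝ) - 1) * Γ)) * (q * Real.exp (Γ / 8)) :=
              mul_le_mul_of_nonneg_right h6 (by positivity)
          _ = (q : ℝ) ^ 2 * (Real.exp (((i : ℝ) - 1) * Γ) * Real.exp (Γ / 8)) := by ring
          _ ≤ (q : ℝ) ^ 2 * Real.exp ((i : ℝ) * Γ) :=
              mul_le_mul_of_nonneg_left h8 (by positivity)
    -- low pairs
    have h3 : ((univ.filter (fun e => (resD d i).tn e ≠ 0)).card : ℝ) ≤
        nb * ((q : ℝ) ^ 2 * Real.exp ((i : ℝ) * Γ)) := by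
      have hsub : (univ.filter (fun e => (resD d i).tn e ≠ 0)) ⊆
          (((Icc 1 nb).filter (fun j => j ≤ i)).biUnion (fun j =>
            (univ.filter (fun v => 1 ≤ d.bk v ∧ d.bk v ≤ j)) ×ˢ
              (univ.filter (fun v => 1 ≤ d.bk v ∧ d.bk v ≤ i - j)))).image
            (fun p : Fin N × Fin N => s(p.1, p.2)) := by
        intro e he
        have h4 := (mem_filter.1 he).2
        have h5 : lowPair d i e := by
          by_contra h6
          apply h4
          unfold resD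
          dsimp only
          rw [if_neg h6]
        induction e using Sym2.inductionOn with
        | hf x y =>
          obtain ⟨h6, h7, h8⟩ := h5
          have hx := h7 x (Sym2.mem_mk_left x y)
          have hy := h7 y (Sym2.mem_mk_right x y)
          have h9 : d.bk x + d.bk y ≤ i := h8
          rw [mem_image]
          refine ⟨(x, y), ?_, rfl⟩
          rw [mem_biUnion]
          refine ⟨d.bk x, ?_, ?_⟩
          · rw [mem_filter, mem_Icc]
            exact ⟨⟨hx.1, bkD_le x⟩, by omega⟩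
          · rw [mem_product, mem_filter, mem_filter]
            exact ⟨⟨mem_univ _, hx.1, le_rfl⟩, mem_univ _, hy.1, by
              show d.bk y ≤ i - d.bk x
              omega⟩
      have h4 : ((univ.filter (fun e => (resD d i).tn e ≠ 0)).card : ℝ) ≤
          ∑ j ∈ (Icc 1 nb).filter (fun j => j ≤ i),
            (((univ.filter (fun v => 1 ≤ d.bk v ∧ d.bk v ≤ j)) ×ˢ
              (univ.filter (fun v => 1 ≤ d.bk v ∧ d.bk v ≤ i - j))).card : ℝ) := by
        have := ((card_le_card hsub).trans card_image_le).trans card_biUnion_le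
        exact_mod_cast this
      refine h4.trans ?_
      have h5 : ∀ j ∈ (Icc 1 nb).filter (fun j => j ≤ i),
          (((univ.filter (fun v => 1 ≤ d.bk v ∧ d.bk v ≤ j)) ×ˢ
            (univ.filter (fun v => 1 ≤ d.bk v ∧ d.bk v ≤ i - j))).card : ℝ) ≤
            (q : ℝ) ^ 2 * Real.exp ((i : ℝ) * Γ) := by
        intro j hj
        have hji : j ≤ i := (mem_filter.1 hj).2
        rw [card_product, Nat.cast_mul]
        have h6 := hlow j
        have h7 := hlow (i - j)
        have h8 : ((i - j : ℕ) : ℝ) = (i : ℝ) - j := Nat.cast_sub hji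
        rw [h8] at h7
        calc ((univ.filter (fun v => 1 ≤ d.bk v ∧ d.bk v ≤ j)).card : ℝ) *
              ((univ.filter (fun v => 1 ≤ d.bk v ∧ d.bk v ≤ i - j)).card : ℝ)
            ≤ (q * Real.exp (j * Γ)) * (q * Real.exp (((i : ℝ) - j) * Γ)) :=
              mul_le_mul h6 h7 (Nat.cast_nonneg _) (by positivity)
          _ = (q : ℝ) ^ 2 * (Real.exp (j * Γ) * Real.exp (((i : ℝ) - j) * Γ)) := by ring
          _ = (q : ℝ) ^ 2 * Real.exp ((i : ℝ) * Γ) := by
              rw [← Real.exp_add]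
              congr 2
              ring
      refine (sum_le_sum h5).trans ?_
      rw [sum_const, nsmul_eq_mul]
      refine mul_le_mul_of_nonneg_right ?_ (by positivity)
      have h6 : ((Icc 1 nb).filter (fun j => j ≤ i)).card ≤ nb := by
        refine (card_filter_le _ _).trans ?_
        rw [Nat.card_Icc]
        omega
      exact_mod_cast h6
    have h4 : ((size (resD d i) : ℕ) : ℝ) ≤ τ l := by
      refine le_trans ?_ (hτ l)
      unfold size
      rw [Nat.cast_add, Nat.cast_add]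
      have h5 : (q : ℝ) * Real.exp ((i : ℝ) * Γ) ≤ (q : ℝ) ^ 2 * Real.exp ((i : ℝ) * Γ) := by
        refine mul_le_mul_of_nonneg_right ?_ hexp.le
        nlinarith
      calc ((univ.filter (fun v => (resD d i).bk v ≠ 0)).card : ℝ) + ((resD d i).sm.card : ℝ) +
            ((univ.filter (fun e => (resD d i).tn e ≠ 0)).card : ℝ)
          ≤ (q : ℝ) ^ 2 * Real.exp ((i : ℝ) * Γ) + (q : ℝ) ^ 2 * Real.exp ((i : ℝ) * Γ) +
            nb * ((q : ℝ) ^ 2 * Real.exp ((i : ℝ) * Γ)) :=
            add_le_add (add_le_add (h1.trans h5) h2) h3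
        _ = ((nb : ℝ) + 2) * (q : ℝ) ^ 2 * Real.exp ((i : ℝ) * Γ) := by ring
    exact_mod_cast h4

end Pool.Agent.Helper5.CV
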