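import Mathlib
import Pool.Agent.Helper5.CV.Defs

/-!
# MP_d32cb0_co, module L02: the total weight of the names

PROOFS.  `a = (N^10)⁻¹`.  `size (toDat x) = #{v : x.1 v ≠ 0} + |x.2.1| + #{e : x.2.2 e ≠ 0}`, so the sum over
`DatF = (V → Fin nb) × Finset (V×V) × (Sym2 V → Fin nt)` is the product
`Π_v (Σ_{j : Fin nb} a^{[j≠0]}) · Σ_{s} a^{|s|} · Π_e (Σ_{j : Fin nt} a^{[j≠0]}) ≤ (1 + nb a)^N (1 + a)^{N²} (1 + nt a)^{|Sym2|}`
(`Finset.prod_univ_sum`, `Fintype.piFinset_univ`; `Σ_s a^{|s|} = (1+a)^{|V×V|}`: `Finset.sum_pow_mul_eq_add_pow` or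
`Finset.prod_add_prod…`/`Fintype.sum_pow_mul_eq_add_pow`), `|Sym2 (Fin N)| = N(N+1)/2 ≤ N²`, and `1 + x ≤ e^x`.
`sum_wlev_le`: exchange the sums: `Σ_S #{f : SeqQ ∧ SSf f = S} = #{f : SeqQ}`, quotient `≤ 1`.
`exists_name`: `x = (fun v => ⟨d.bk v, _⟩, d.sm, fun e => ⟨d.tn e, _⟩)`.
-/

set_option autoImplicit false

namespace Pool.Agent.Helper5.CV

open Finset Pool.Agent.Helper25.CliqueGame
open Pool.Agent.Helper78.CG (EI)

theorem sum_fin_ind_le (a : ℝ) (ha : 0 ≤ a) (n : ℕ) :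
    ∑ j : Fin n, a ^ (if (j : ℕ) ≠ 0 then 1 else 0) ≤ 1 + n * a := by
  classical
  have h1 : ∀ j : Fin n, a ^ (if (j : ℕ) ≠ 0 then 1 else 0) ≤ (if (j : ℕ) = 0 then (1 : ℝ) else 0) + a := by
    intro j
    by_cases hj : (j : ℕ) = 0
    · simp [hj, ha]
    · simp [hj]
  have h2 : ∑ j : Fin n, (if (j : ℕ) = 0 then (1 : ℝ) else 0) ≤ 1 := by
    rw [← Finset.sum_filter, Finset.sum_const, nsmul_eq_mul, mul_one]
    have : (univ.filter (fun j : Fin n => (j : ℕ) = 0)).card ≤ 1 := by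
      rw [Finset.card_le_one]
      intro x hx y hy
      simp only [mem_filter, mem_univ, true_and] at hx hy
      exact Fin.ext (hx.trans hy.symm)
    exact_mod_cast this
  calc ∑ j : Fin n, a ^ (if (j : ℕ) ≠ 0 then 1 else 0)
      ≤ ∑ j : Fin n, ((if (j : ℕ) = 0 then (1 : ℝ) else 0) + a) := Finset.sum_le_sum (fun j _ => h1 j)
    _ = ∑ j : Fin n, (if (j : ℕ) = 0 then (1 : ℝ) else 0) + n * a := by
        rw [Finset.sum_add_distrib]; simp
    _ ≤ 1 + n * a := by linarith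

theorem sum_fun_pow_le {ι : Type*} [Fintype ι] [DecidableEq ι] (a : ℝ) (ha : 0 ≤ a) (n : ℕ) :
    ∑ f : ι → Fin n, a ^ (univ.filter (fun i => (f i : ℕ) ≠ 0)).card ≤ (1 + n * a) ^ Fintype.card ι := by
  classical
  have h1 : ∀ f : ι → Fin n, a ^ (univ.filter (fun i => (f i : ℕ) ≠ 0)).card =
      ∏ i, a ^ (if (f i : ℕ) ≠ 0 then 1 else 0) := by
    intro f
    rw [Finset.prod_pow_eq_pow_sum, Finset.card_filter]
  have h2 : ∑ f : ι → Fin n, ∏ i, a ^ (if (f i : ℕ) ≠ 0 then 1 else 0) =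
      ∏ _i : ι, ∑ j : Fin n, a ^ (if (j : ℕ) ≠ 0 then 1 else 0) := by
    rw [Finset.prod_univ_sum, Fintype.piFinset_univ]
  rw [Finset.sum_congr rfl (fun f _ => h1 f), h2, Finset.prod_const, Finset.card_univ]
  refine pow_le_pow_left₀ ?_ (sum_fin_ind_le a ha n) _
  exact Finset.sum_nonneg (fun j _ => pow_nonneg ha _)

theorem size_toDat {V : Type*} [DecidableEq V] [Fintype V] {nb nt : ℕ} (x : DatF V nb nt) :
    size (toDat x) = (univ.filter (fun v => (x.1 v : ℕ) ≠ 0)).card + x.2.1.card +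
      (univ.filter (fun e => (x.2.2 e : ℕ) ≠ 0)).card := rfl

theorem one_add_mul_pow_le (x : ℝ) (hx : 0 ≤ x) (n : ℕ) : (1 + x) ^ n ≤ Real.exp (n * x) := by
  rw [Real.exp_nat_mul]
  refine pow_le_pow_left₀ (by linarith) ?_ n
  have := Real.add_one_le_exp x
  linarith

theorem sum_names_le {N nb nt : ℕ} (hN : 1 ≤ N) (h : N * nb + N ^ 2 + N ^ 2 * nt ≤ N ^ 10) :
    ∑ x : DatF (Fin N) nb nt, ((N : ℝ) ^ 10)⁻¹ ^ size (toDat x) ≤ Real.exp 1 := by
  classical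
  set a : ℝ := ((N : ℝ) ^ 10)⁻¹ with ha
  have hN' : (0 : ℝ) < (N : ℝ) ^ 10 := by
    have : (0 : ℝ) < N := by exact_mod_cast hN
    positivity
  have ha0 : 0 ≤ a := by rw [ha]; positivity
  have hsplit : ∑ x : DatF (Fin N) nb nt, a ^ size (toDat x) =
      (∑ f : Fin N → Fin nb, a ^ (univ.filter (fun i => (f i : ℕ) ≠ 0)).card) *
      ((∑ s : Finset (Fin N × Fin N), a ^ s.card) *
      (∑ g : Sym2 (Fin N) → Fin nt, a ^ (univ.filter (fun e => (g e : ℕ) ≠ 0)).card)) := by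
    rw [Fintype.sum_prod_type, Finset.sum_mul]
    refine Finset.sum_congr rfl (fun f _ => ?_)
    rw [Fintype.sum_prod_type, Finset.sum_mul, Finset.mul_sum]
    refine Finset.sum_congr rfl (fun s _ => ?_)
    rw [Finset.mul_sum, Finset.mul_sum]
    refine Finset.sum_congr rfl (fun g _ => ?_)
    rw [size_toDat, pow_add, pow_add, mul_assoc]
  have hs : ∑ s : Finset (Fin N × Fin N), a ^ s.card = (1 + a) ^ (N ^ 2) := by
    have := Fintype.sum_pow_mul_eq_add_pow (Fin N × Fin N) a 1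
    simp only [one_pow, mul_one] at this
    rw [this, add_comm]
    congr 1
    simp [sq]
  have hf := sum_fun_pow_le (ι := Fin N) a ha0 nb
  have hg := sum_fun_pow_le (ι := Sym2 (Fin N)) a ha0 nt
  rw [Fintype.card_fin] at hf
  have hc : Fintype.card (Sym2 (Fin N)) ≤ N ^ 2 := by
    rw [Sym2.card, Fintype.card_fin, Nat.choose_two_right]
    simp only [Nat.add_sub_cancel]
    refine Nat.div_le_of_le_mul ?_
    nlinarith
  have hg' : ∑ g : Sym2 (Fin N) → Fin nt, a ^ (univ.filter (fun e => (g e : ℕ) ≠ 0)).card ≤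
      (1 + nt * a) ^ (N ^ 2) := by
    refine hg.trans (pow_le_pow_right₀ ?_ hc)
    have : 0 ≤ (nt : ℝ) * a := by positivity
    linarith
  have e1 := one_add_mul_pow_le ((nb : ℝ) * a) (by positivity) N
  have e2 := one_add_mul_pow_le a ha0 (N ^ 2)
  have e3 := one_add_mul_pow_le ((nt : ℝ) * a) (by positivity) (N ^ 2)
  rw [hsplit, hs]
  have g0 : 0 ≤ ∑ g : Sym2 (Fin N) → Fin nt, a ^ (univ.filter (fun e => (g e : ℕ) ≠ 0)).card :=
    Finset.sum_nonneg (fun g _ => pow_nonneg ha0 _)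
  calc _ ≤ Real.exp (N * (nb * a)) * (Real.exp ((N ^ 2 : ℕ) * a) * Real.exp ((N ^ 2 : ℕ) * (nt * a))) := by
        refine mul_le_mul (hf.trans e1) ?_ ?_ (Real.exp_pos _).le
        · exact mul_le_mul e2 (hg'.trans e3) g0 (Real.exp_pos _).le
        · have : 0 ≤ (1 + a) ^ (N ^ 2) := pow_nonneg (by linarith) _
          positivity
    _ = Real.exp (((N * nb + N ^ 2 + N ^ 2 * nt : ℕ) : ℝ) * a) := by
        rw [← Real.exp_add, ← Real.exp_add]
        congr 1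
        push_cast
        ring
    _ ≤ Real.exp 1 := by
        refine Real.exp_le_exp.mpr ?_
        rw [ha, ← div_eq_mul_inv, div_le_one hN']
        exact_mod_cast h

theorem wlev_nonneg {N : ℕ} (m b : ℕ) (Y : Sys) (l nb nt : ℕ) (S : Finset (Sym2 (Fin N))) :
    0 ≤ wlev m b Y l nb nt S := by
  unfold wlev
  refine Finset.sum_nonneg (fun x _ => ?_)
  positivity

theorem sum_wlev_le {N nb nt : ℕ} (hN : 1 ≤ N) (h : N * nb + N ^ 2 + N ^ 2 * nt ≤ N ^ 10)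
    (m b : ℕ) (Y : Sys) (l : ℕ) :
    ∑ S : Finset (Sym2 (Fin N)), wlev m b Y l nb nt S ≤ Real.exp 1 := by
  classical
  refine le_trans ?_ (sum_names_le hN h)
  unfold wlev
  rw [Finset.sum_comm]
  refine Finset.sum_le_sum (fun x _ => ?_)
  rw [← Finset.mul_sum]
  have h0 : (0 : ℝ) ≤ ((N : ℝ) ^ 10)⁻¹ ^ size (toDat x) := by positivity
  refine (mul_le_mul_of_nonneg_left ?_ h0).trans (mul_one _).le
  rw [← Finset.sum_div]
  refine div_le_one_of_le₀ ?_ (by positivity)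
  rw [← Nat.cast_sum]
  refine Nat.cast_le.mpr ?_
  refine le_of_eq ?_
  rw [Finset.card_eq_sum_card_fiberwise (f := fun f : Idx Y.r0 Y.R (l + 1) → Finset (Fin N) =>
    SSf (toDat x) Y.K (Y.i (l + 1)) f) (t := univ) (fun _ _ => Finset.mem_coe.mpr (Finset.mem_univ _))]
  refine Finset.sum_congr rfl (fun S _ => ?_)
  rw [Finset.filter_filter]

theorem exists_name {V : Type*} {nb nt : ℕ} (d : Dat V) (hb : ∀ v, d.bk v < nb)
    (ht : ∀ e, d.tn e < nt) : ∃ x : DatF V nb nt, toDat x = d := by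
  refine ⟨(fun v => ⟨d.bk v, hb v⟩, d.sm, fun e => ⟨d.tn e, ht e⟩), ?_⟩
  rfl

end Pool.Agent.Helper5.CV
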