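import Mathlib
import Pool.Agent.Helper5.CV.DefsT
import Pool.Agent.Helper5.CV.NN
import Pool.Agent.Helper5.CV.Buck
import Pool.Agent.Helper5.CV.ResD

/-!
# MP_d32cb0_co, module T04: flat pairs in a high window are rare

PROOF.  If no `B ∈ 𝒞` has `e ∈ wp d K i (h B)` the count is `0`.  Otherwise `e = s(x,y)`, `x ≠ y ∈ h B`, `1 ≤ bk x, bk y`,
`i + 3 ≤ bk x + bk y`.  `2 ≤ d.tn e` means that `e` is flat: `nn{x,y} |ℬ| ≤ F nn{x} nn{y}`, and by `bkD_spec` (strict upper bounds)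
`≤ F e^{-(bk x - 1)Γ} e^{-(bk y - 1)Γ} |ℬ|² ≤ F e^{-(i+1)Γ}|ℬ|²`.  Every `B` in the count contains `x, y` (`h B ⊆ B`), so the count is
`≤ nn ℬ {x,y} ≤ e^{Γ/16 - (i+1)Γ} |ℬ| ≤ c0 e^{Γ/16-(i+1)Γ} |𝒞|`.
-/

set_option autoImplicit false

namespace Pool.Agent.Helper5.CV

open Finset Pool.Agent.Helper25.CliqueGame
open Pool.Agent.Helper78.CG (EI)

theorem flat_count {N K i j0 nb : ℕ} {P : Pos (Sym2 (Fin N))}
    {ℬ : Finset (Finset (Fin N))} (hne : ℬ.Nonempty) {Γ : ℝ} (hΓ : 0 < Γ) (hj0 : 1 ≤ j0)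
    (Z : Finset (Fin N)) {𝒞 : Finset (Finset (Fin N))} (hC : 𝒞 ⊆ ℬ) {c0 : ℝ}
    (hc : (ℬ.card : ℝ) ≤ c0 * 𝒞.card) (h : Finset (Fin N) → Finset (Fin N))
    (hh : ∀ B ∈ 𝒞, h B ⊆ B ∧ ∀ v ∈ h B, 1 ≤ (dat P ℬ Γ Z j0 nb).bk v)
    (e : Sym2 (Fin N)) (he : 2 ≤ (dat P ℬ Γ Z j0 nb).tn e) :
    ((𝒞.filter (fun B => e ∈ wp (dat P ℬ Γ Z j0 nb) K i (h B))).card : ℝ) ≤
      c0 * Real.exp (Γ / 16 - ((i : ℝ) + 1) * Γ) * 𝒞.card := by
  classical
  have hcard : (0 : ℝ) < ℬ.card := by exact_mod_cast hne.card_pos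
  have hexp : (0 : ℝ) < Real.exp (Γ / 16 - ((i : ℝ) + 1) * Γ) := Real.exp_pos _
  have hfin : Real.exp (Γ / 16 - ((i : ℝ) + 1) * Γ) * ℬ.card ≤
      c0 * Real.exp (Γ / 16 - ((i : ℝ) + 1) * Γ) * 𝒞.card := by
    have := mul_le_mul_of_nonneg_left hc hexp.le
    linarith
  rcases (𝒞.filter (fun B => e ∈ wp (dat P ℬ Γ Z j0 nb) K i (h B))).eq_empty_or_nonempty with
    h0 | ⟨B, hB⟩
  · rw [h0, card_empty, Nat.cast_zero]
    exact (mul_pos hexp hcard).le.trans hfin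
  · rw [mem_filter] at hB
    obtain ⟨hBC, hBw⟩ := hB
    obtain ⟨hhB, hbk⟩ := hh B hBC
    have hflat : ∀ x y, e = s(x, y) → ¬ B0 ℬ (thr Γ j0) x y := by
      have h1 := he
      unfold dat at h1
      dsimp only at h1
      split_ifs at h1 with h2 h3
      · omega
      · exact h3.2
      · omega
    unfold wp at hBw
    rw [mem_filter] at hBw
    obtain ⟨hs, hd, hw1, hw2⟩ := hBw
    induction e using Sym2.inductionOn with
    | hf x y =>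
    rw [mk_mem_sym2_iff] at hs
    rw [bks_mk] at hw1
    obtain ⟨-, -, -, -, -, hx, -⟩ := bkD_spec (ℬ := ℬ) (Γ := Γ) (Z := Z) (j0 := j0) (nb := nb)
      hΓ hj0 (hbk x hs.1)
    obtain ⟨-, -, -, -, -, hy, -⟩ := bkD_spec (ℬ := ℬ) (Γ := Γ) (Z := Z) (j0 := j0) (nb := nb)
      hΓ hj0 (hbk y hs.2)
    have hw1' : i + 3 ≤ bkD ℬ Γ Z j0 nb x + bkD ℬ Γ Z j0 nb y := hw1
    have hw : (i : ℝ) + 3 ≤ (bkD ℬ Γ Z j0 nb x : ℝ) + bkD ℬ Γ Z j0 nb y := by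
      exact_mod_cast hw1'
    have hB0 := hflat x y rfl
    unfold B0 at hB0
    rw [not_lt, nn_empty] at hB0
    have hprod : (nn ℬ {x} : ℝ) * nn ℬ {y} ≤
        Real.exp (-(((i : ℝ) + 1) * Γ)) * ((ℬ.card : ℝ) * ℬ.card) := by
      have h1 : (nn ℬ {x} : ℝ) * nn ℬ {y} ≤
          (Real.exp (-(((bkD ℬ Γ Z j0 nb x : ℝ) - 1) * Γ)) * ℬ.card) *
            (Real.exp (-(((bkD ℬ Γ Z j0 nb y : ℝ) - 1) * Γ)) * ℬ.card) :=
        mul_le_mul hx.le hy.le (Nat.cast_nonneg _)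
          (mul_nonneg (Real.exp_pos _).le (Nat.cast_nonneg _))
      refine h1.trans ?_
      have h2 : (Real.exp (-(((bkD ℬ Γ Z j0 nb x : ℝ) - 1) * Γ)) * ℬ.card) *
            (Real.exp (-(((bkD ℬ Γ Z j0 nb y : ℝ) - 1) * Γ)) * ℬ.card) =
          Real.exp (-(((bkD ℬ Γ Z j0 nb x : ℝ) - 1) * Γ) +
            -(((bkD ℬ Γ Z j0 nb y : ℝ) - 1) * Γ)) * ((ℬ.card : ℝ) * ℬ.card) := by
        rw [Real.exp_add]
        ring
      rw [h2]
      apply mul_le_mul_of_nonneg_right _ (by positivity)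
      apply Real.exp_le_exp.2
      nlinarith
    have hF : (thr Γ j0).F = Real.exp (Γ / 16) := rfl
    have hpair : (nn ℬ {x, y} : ℝ) ≤ Real.exp (Γ / 16 - ((i : ℝ) + 1) * Γ) * ℬ.card := by
      have h3 : (nn ℬ {x, y} : ℝ) * ℬ.card ≤
          (Real.exp (Γ / 16 - ((i : ℝ) + 1) * Γ) * ℬ.card) * ℬ.card := by
        refine hB0.trans ?_
        rw [hF, mul_assoc]
        refine (mul_le_mul_of_nonneg_left hprod (Real.exp_pos _).le).trans_eq ?_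
        rw [← mul_assoc, ← Real.exp_add, ← mul_assoc]
        congr 3
      exact le_of_mul_le_mul_right h3 hcard
    have hsub : ((𝒞.filter (fun B => s(x, y) ∈ wp (dat P ℬ Γ Z j0 nb) K i (h B))).card : ℝ) ≤
        nn ℬ {x, y} := by
      unfold nn
      apply Nat.cast_le.2
      apply card_le_card
      intro A hA
      rw [mem_filter] at hA ⊢
      obtain ⟨hAC, hAw⟩ := hA
      refine ⟨hC hAC, ?_⟩
      unfold wp at hAw
      rw [mem_filter] at hAw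
      have h5 := mk_mem_sym2_iff.1 hAw.1
      intro z hz
      rw [mem_insert, mem_singleton] at hz
      rcases hz with rfl | rfl
      · exact (hh A hAC).1 h5.1
      · exact (hh A hAC).1 h5.2
    exact hsub.trans (hpair.trans hfin)

end Pool.Agent.Helper5.CV
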