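import Mathlib
import Pool.Agent.Helper5.CV.DefsT
import Pool.Agent.Helper5.CV.NN
import Pool.Agent.Helper5.CV.Buck
import Pool.Agent.Helper5.CV.ClaimM
import Pool.Agent.Helper5.CV.CostL
import Pool.Agent.Helper5.CV.Cls
import Pool.Agent.Helper5.CV.Kap

/-!
# MP_d32cb0_co, module T03: the members of `ℬ` are good

`d = dat P ℬ Γ Z j0 nb`, `T = thr Γ j0`, `G = gp P ℬ T d K i B A`.
PROOF.  Window pairs `e = s(x,y)` (`x ≠ y ∈ A ⊆ B`) are edges inside `ρ ∪ B ∈ AA P q u`, hence not in `P.B` (`EI (ρ ∪ B)` is disjoint from `P.B`):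
`d.tn e ≥ 1`.  `e ∈ G`: `e ∈ P.M`, not bad, so not `B0`, `d.tn e = tix + 2 ≥ 2`.
Same status: `e = s(x,y)`, `e' = s(u,v) ∈ G`, `tix` equal.  If `e = e'` nothing to do.  Else `claimM` with `tn = tn0 P` (`tn0 P e = tix + 2` as
`e ∈ P.M` is not in `P.B`: `hP.dj`), rare: `bkD_spec`, `F p2 = e^{Γ/16 - (j0-1)Γ} ≤ e^{-Γ/8} = p1` (`j0 ≥ 2`); `¬ Bad` in both orders since
`e = s(x,y) = s(y,x)`.  It gives (`x = u` or `Sim x u`) and (`y = v` or `Sim y v`) or crosswise; `Sim` of bucketed points is in `d.sm`, so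
`cl x = cl u`, `cl y = cl v` (`cl_eq_of_sm`), and `cp` agree.  The cost: `Nat.floor_le` (`cw ≥ 0`).
`tn_fiber`: the pairs with `d.tn e = t ≥ 2` have `tn0 P e = t`: `card_tn0_eq_le`.
-/

set_option autoImplicit false

namespace Pool.Agent.Helper5.CV

open Finset Pool.Agent.Helper25.CliqueGame
open Pool.Agent.Helper78.CG (EI)

theorem cw_nonneg (m b : ℕ) {V : Type*} [DecidableEq V] (sm : Finset (V × V)) (A : Finset V)
    (G : Finset (Sym2 V)) : 0 ≤ cw m b sm A G := by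
  unfold cw
  exact Finset.sum_nonneg (fun _ _ => kap_nonneg _ _ _)

private theorem gcl_tn {N j0 nb : ℕ} (P : Pos (Sym2 (Fin N))) (ℬ : Finset (Finset (Fin N)))
    (Γ : ℝ) (Z : Finset (Fin N)) {e : Sym2 (Fin N)} (h1 : e ∉ P.B) (h2 : e ∈ P.M)
    (h3 : ∀ x y, e = s(x, y) → ¬ B0 ℬ (thr Γ j0) x y) :
    (dat P ℬ Γ Z j0 nb).tn e = tix P.mv e + 2 := by
  classical
  unfold dat
  change (if e ∈ P.B then 0 else
    if e ∈ P.M ∧ ∀ x y, e = s(x, y) → ¬ B0 ℬ (thr Γ j0) x y then tix P.mv e + 2 else 1) = _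
  rw [if_neg h1, if_pos ⟨h2, h3⟩]

private theorem gcl_tn0 {N : ℕ} (P : Pos (Sym2 (Fin N))) {e : Sym2 (Fin N)} (h1 : e ∉ P.B)
    (h2 : e ∈ P.M) : tn0 P e = tix P.mv e + 2 := by
  unfold tn0
  rw [if_neg h1, if_pos h2]

theorem goodC_dat {N m b q u K i j0 nb : ℕ} {P : Pos (Sym2 (Fin N))}
    (hP : GP m (edges N) P) {ρ : Finset (Fin N)} {ℬ : Finset (Finset (Fin N))}
    (hB : ∀ B ∈ ℬ, Disjoint ρ B ∧ ρ ∪ B ∈ AA P q u) {Γ : ℝ} (hΓ : 0 < Γ) (hj0 : 2 ≤ j0)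
    (Z : Finset (Fin N)) {B A : Finset (Fin N)} (hBm : B ∈ ℬ) (hAB : A ⊆ B)
    (hA : ∀ v ∈ A, 1 ≤ (dat P ℬ Γ Z j0 nb).bk v) :
    GoodC m b (dat P ℬ Γ Z j0 nb) K i
      ⌊cw m b (dat P ℬ Γ Z j0 nb).sm A
        (gp P ℬ (thr Γ j0) (dat P ℬ Γ Z j0 nb) K i B A)⌋₊ A := by
  classical
  obtain ⟨-, hAA⟩ := hB B hBm
  unfold AA at hAA
  rw [mem_filter] at hAA
  obtain ⟨-, -, hdis, -⟩ := hAA
  have hmemA : ∀ e ∈ wp (dat P ℬ Γ Z j0 nb) K i A, ∀ x ∈ e, x ∈ A := by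
    intro e he x hx
    unfold wp at he
    rw [mem_filter, mem_sym2_iff] at he
    exact he.1 x hx
  have hndiag : ∀ e ∈ wp (dat P ℬ Γ Z j0 nb) K i A, ¬ e.IsDiag := by
    intro e he
    unfold wp at he
    rw [mem_filter] at he
    exact he.2.1
  have hnB : ∀ e ∈ wp (dat P ℬ Γ Z j0 nb) K i A, e ∉ P.B := by
    intro e he hB'
    have h1 : e ∈ EI (ρ ∪ B) := by
      unfold EI
      rw [mem_filter]
      exact ⟨hP.subB hB', fun x hx => mem_union_right _ (hAB (hmemA e he x hx))⟩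
    exact disjoint_left.1 hdis h1 hB'
  have hbk : ∀ v ∈ A, 1 ≤ bkD ℬ Γ Z j0 nb v := hA
  have hrare : ∀ v ∈ A, (nn ℬ {v} : ℝ) < (thr Γ j0).p2 * nn ℬ ∅ := by
    intro v hv
    exact (bkD_spec hΓ (by omega) (hbk v hv)).2.2.2.2.2.2
  have hF : 0 ≤ (thr Γ j0).F := (Real.exp_pos _).le
  have hFp : (thr Γ j0).F * (thr Γ j0).p2 ≤ (thr Γ j0).p1 := by
    change Real.exp (Γ / 16) * Real.exp (-(((j0 : ℝ) - 1) * Γ)) ≤ Real.exp (-(Γ / 8))
    rw [← Real.exp_add, Real.exp_le_exp]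
    have h1 : (2 : ℝ) ≤ j0 := by exact_mod_cast hj0
    nlinarith
  have hGs : gp P ℬ (thr Γ j0) (dat P ℬ Γ Z j0 nb) K i B A ⊆ wp (dat P ℬ Γ Z j0 nb) K i A :=
    filter_subset _ _
  have hGm : ∀ e ∈ gp P ℬ (thr Γ j0) (dat P ℬ Γ Z j0 nb) K i B A, e ∈ P.M ∧
      ∀ x y, e = s(x, y) → ¬ Bad ℬ (tn0 P) (thr Γ j0) B x y := by
    intro e he
    unfold gp at he
    rw [mem_filter] at he
    exact he.2
  have hGt : ∀ e ∈ gp P ℬ (thr Γ j0) (dat P ℬ Γ Z j0 nb) K i B A,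
      (dat P ℬ Γ Z j0 nb).tn e = tix P.mv e + 2 := by
    intro e he
    refine gcl_tn P ℬ Γ Z (hnB e (hGs he)) (hGm e he).1 ?_
    intro x y hxy h0
    exact (hGm e he).2 x y hxy (Or.inl h0)
  have hG0 : ∀ e ∈ gp P ℬ (thr Γ j0) (dat P ℬ Γ Z j0 nb) K i B A,
      tn0 P e = tix P.mv e + 2 := by
    intro e he
    exact gcl_tn0 P (hnB e (hGs he)) (hGm e he).1
  have hcl : ∀ x ∈ A, ∀ z ∈ A, (x = z ∨ Sim ℬ (thr Γ j0) x z) →
      cl (dat P ℬ Γ Z j0 nb).sm A x = cl (dat P ℬ Γ Z j0 nb).sm A z := by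
    intro x hx z hz h
    rcases h with rfl | h
    · rfl
    · apply cl_eq_of_sm _ hx hz
      change (x, z) ∈ univ.filter (fun p : Fin N × Fin N => 1 ≤ bkD ℬ Γ Z j0 nb p.1 ∧
        1 ≤ bkD ℬ Γ Z j0 nb p.2 ∧ Sim ℬ (thr Γ j0) p.1 p.2)
      rw [mem_filter]
      exact ⟨mem_univ _, hbk x hx, hbk z hz, h⟩
  refine ⟨?_, gp P ℬ (thr Γ j0) (dat P ℬ Γ Z j0 nb) K i B A, hGs, ?_, ?_, ?_⟩
  · intro e he
    unfold dat
    change (if e ∈ P.B then 0 else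
      if e ∈ P.M ∧ ∀ x y, e = s(x, y) → ¬ B0 ℬ (thr Γ j0) x y then tix P.mv e + 2 else 1) ≠ 0
    rw [if_neg (hnB e he)]
    split_ifs <;> omega
  · intro e he
    rw [hGt e he]
    omega
  · intro e he e' he' htt
    rw [hGt e he, hGt e' he'] at htt
    by_cases hee : e' = e
    · rw [hee]
    · induction e using Sym2.ind with
      | _ x y =>
      induction e' using Sym2.ind with
      | _ u v =>
      have hx : x ∈ A := hmemA _ (hGs he) x (Sym2.mem_mk_left x y)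
      have hy : y ∈ A := hmemA _ (hGs he) y (Sym2.mem_mk_right x y)
      have hu : u ∈ A := hmemA _ (hGs he') u (Sym2.mem_mk_left u v)
      have hv : v ∈ A := hmemA _ (hGs he') v (Sym2.mem_mk_right u v)
      have hxy : x ≠ y := fun h => hndiag _ (hGs he) (Sym2.mk_isDiag_iff.2 h)
      have huv : u ≠ v := fun h => hndiag _ (hGs he') (Sym2.mk_isDiag_iff.2 h)
      have h1 := (hGm _ he).2
      have h2 := (hGm _ he').2
      have key := claimM hF hFp hBm (hAB hx) (hAB hy) (hAB hu) (hAB hv) hxy huv hee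
        (by rw [hG0 _ he]; omega) (by rw [hG0 _ he, hG0 _ he']; omega)
        (hrare x hx) (hrare y hy) (hrare u hu) (hrare v hv)
        (h1 x y rfl) (h1 y x Sym2.eq_swap) (h2 u v rfl) (h2 v u Sym2.eq_swap)
      unfold cp
      rw [Sym2.map_mk, Sym2.map_mk]
      rcases key with ⟨k1, k2⟩ | ⟨k1, k2⟩
      · rw [hcl x hx u hu k1, hcl y hy v hv k2]
      · rw [hcl x hx v hv k1, hcl y hy u hu k2]
        exact Sym2.eq_swap
  · exact Nat.floor_le (cw_nonneg m b _ _ _)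

theorem tn_fiber {N m j0 nb : ℕ} {P : Pos (Sym2 (Fin N))} (hP : GP m (edges N) P)
    (ℬ : Finset (Finset (Fin N))) (Γ : ℝ) (Z : Finset (Fin N)) {t : ℕ} (ht : 2 ≤ t) :
    (univ.filter (fun e => (dat P ℬ Γ Z j0 nb).tn e = t)).card ≤ m := by
  classical
  refine le_trans (card_le_card ?_) (card_tn0_eq_le hP ht)
  intro e he
  rw [mem_filter] at he ⊢
  refine ⟨mem_univ _, ?_⟩
  have h := he.2
  unfold dat at h
  change (if e ∈ P.B then 0 else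
    if e ∈ P.M ∧ ∀ x y, e = s(x, y) → ¬ B0 ℬ (thr Γ j0) x y then tix P.mv e + 2 else 1) = t at h
  split_ifs at h with h1 h2
  · omega
  · rw [gcl_tn0 P h1 h2.1]
    exact h
  · omega

end Pool.Agent.Helper5.CV
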