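import Mathlib
import Pool.Agent.Helper5.CV.DefsT
import Pool.Agent.Helper5.CV.ResD

/-!
# MP_d32cb0_co, module T09: the numbers of the recursion

`Y = mkY q K Γ ηB ηC i0 t c`; `Y.rr l = R^l r0`, `R = ⌈e^{KΓ}⌉`, `r0 = ⌈e^{(i0+1/2)Γ}⌉`.
PROOFS.  `rr_lower`: `R ≥ e^{KΓ}`, `r0 ≥ e^{(i0+1/2)Γ}`.  `rr_upper`: `⌈x⌉ ≤ 2x` for `x ≥ 1` (`x ≤ ⌈x⌉ < x + 1 ≤ 2x`).
`bB`: `⌊ηB R⌋ < R` for `ηB < 1`, `R ≥ 1`; `R/(bB+1) ≤ 1/ηB`.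
`herr_of`: divide by `rr (l+1) ≥ 1`: `cB l ≤ ηC rr(l+1) q²`; `rr l · bB ≤ rr l · ηB R = ηB rr (l+1)`; `R log 2 = rr (l+1) log 2/rr l ≤ rr (l+1)`;
`log C' ≤ rr (l+1) log C'`; `τ l ≤ (nb+2) q² e^{iΓ} + 1` with `i = i0 + K(l+1)`, `rr (l+1) ≥ e^{(i+1/2)Γ}`, so
`10 τ_l L ≤ rr(l+1) · 10 L ((nb+2) q² + 1) e^{-Γ/2}` (`e^{iΓ} ≥ 1`).
`hcol_of`: `rr(l+1)² q² m pm ≤ ε (cB l + 1)`, `cB l + 1 ≥ ηC rr(l+1) q²`, `rr (l+1) ≤ 2^{tp+1} e^{(i+1/2)Γ}` (`l + 2 ≤ tp + 1`),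
`pm = c0 e^{Γ/16-(i+1)Γ}`: `rr (l+1) e^{Γ/16-(i+1)Γ} ≤ 2^{tp+1} e^{-7Γ/16}`.
-/

set_option autoImplicit false

namespace Pool.Agent.Helper5.CV

open Finset Pool.Agent.Helper25.CliqueGame
open Pool.Agent.Helper78.CG (EI)

variable {q K i0 : ℕ} {Γ ηB ηC : ℝ} {t c : ℕ → ℕ}

/-! Auxiliary facts. -/

private theorem ceil_le_two {x : ℝ} (hx : 1 ≤ x) : ((⌈x⌉₊ : ℕ) : ℝ) ≤ 2 * x := by
  have := (Nat.ceil_lt_add_one (by linarith : (0 : ℝ) ≤ x)).le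
  linarith

private theorem exp_split (Γ : ℝ) (i0 K l : ℕ) :
    Real.exp (((i0 + K * l : ℕ) : ℝ) * Γ + Γ / 2) =
      Real.exp ((K : ℝ) * Γ) ^ l * Real.exp (((i0 : ℝ) + 1 / 2) * Γ) := by
  rw [← Real.exp_nat_mul, ← Real.exp_add]
  congr 1
  push_cast
  ring

private theorem mkY_rr (q K : ℕ) (Γ ηB ηC : ℝ) (i0 : ℕ) (t c : ℕ → ℕ) (l : ℕ) :
    ((mkY q K Γ ηB ηC i0 t c).rr l : ℝ) = ((⌈Real.exp ((K : ℝ) * Γ)⌉₊ : ℕ) : ℝ) ^ l *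
      ((⌈Real.exp (((i0 : ℝ) + 1 / 2) * Γ)⌉₊ : ℕ) : ℝ) := by
  have : (mkY q K Γ ηB ηC i0 t c).rr l = ⌈Real.exp ((K : ℝ) * Γ)⌉₊ ^ l *
      ⌈Real.exp (((i0 : ℝ) + 1 / 2) * Γ)⌉₊ := rfl
  rw [this]
  push_cast
  ring

private theorem one_le_R (K : ℕ) (Γ : ℝ) : 1 ≤ ⌈Real.exp ((K : ℝ) * Γ)⌉₊ :=
  Nat.one_le_iff_ne_zero.2 (by
    have := Nat.ceil_pos.2 (Real.exp_pos ((K : ℝ) * Γ))
    omega)

private theorem one_le_rr (q K : ℕ) (Γ ηB ηC : ℝ) (i0 : ℕ) (t c : ℕ → ℕ) (l : ℕ) :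
    1 ≤ (mkY q K Γ ηB ηC i0 t c).rr l := by
  have h1 : 1 ≤ ⌈Real.exp ((K : ℝ) * Γ)⌉₊ ^ l := Nat.one_le_pow _ _ (one_le_R K Γ)
  have h2 : 0 < ⌈Real.exp (((i0 : ℝ) + 1 / 2) * Γ)⌉₊ := Nat.ceil_pos.2 (Real.exp_pos _)
  have : (mkY q K Γ ηB ηC i0 t c).rr l = ⌈Real.exp ((K : ℝ) * Γ)⌉₊ ^ l *
      ⌈Real.exp (((i0 : ℝ) + 1 / 2) * Γ)⌉₊ := rfl
  rw [this]
  exact Nat.mul_pos h1 h2

theorem mkY_rr_lower (hΓ : 0 ≤ Γ) (l : ℕ) :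
    Real.exp (((i0 + K * l : ℕ) : ℝ) * Γ + Γ / 2) ≤
      ((mkY q K Γ ηB ηC i0 t c).rr l : ℝ) := by
  rw [mkY_rr, exp_split]
  have h1 : Real.exp ((K : ℝ) * Γ) ≤ ((⌈Real.exp ((K : ℝ) * Γ)⌉₊ : ℕ) : ℝ) := Nat.le_ceil _
  have h2 : Real.exp (((i0 : ℝ) + 1 / 2) * Γ) ≤
      ((⌈Real.exp (((i0 : ℝ) + 1 / 2) * Γ)⌉₊ : ℕ) : ℝ) := Nat.le_ceil _
  exact mul_le_mul (pow_le_pow_left₀ (Real.exp_pos _).le h1 l) h2 (Real.exp_pos _).le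
    (by positivity)

theorem mkY_rr_upper (hΓ : 0 ≤ Γ) (l : ℕ) :
    ((mkY q K Γ ηB ηC i0 t c).rr l : ℝ) ≤
      2 ^ (l + 1) * Real.exp (((i0 + K * l : ℕ) : ℝ) * Γ + Γ / 2) := by
  rw [mkY_rr, exp_split]
  have h1 : ((⌈Real.exp ((K : ℝ) * Γ)⌉₊ : ℕ) : ℝ) ≤ 2 * Real.exp ((K : ℝ) * Γ) :=
    ceil_le_two (Real.one_le_exp (by positivity))
  have h2 : ((⌈Real.exp (((i0 : ℝ) + 1 / 2) * Γ)⌉₊ : ℕ) : ℝ) ≤
      2 * Real.exp (((i0 : ℝ) + 1 / 2) * Γ) :=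
    ceil_le_two (Real.one_le_exp (by positivity))
  calc ((⌈Real.exp ((K : ℝ) * Γ)⌉₊ : ℕ) : ℝ) ^ l *
        ((⌈Real.exp (((i0 : ℝ) + 1 / 2) * Γ)⌉₊ : ℕ) : ℝ)
      ≤ (2 * Real.exp ((K : ℝ) * Γ)) ^ l * (2 * Real.exp (((i0 : ℝ) + 1 / 2) * Γ)) :=
        mul_le_mul (pow_le_pow_left₀ (Nat.cast_nonneg _) h1 l) h2 (Nat.cast_nonneg _)
          (by positivity)
    _ = 2 ^ (l + 1) * (Real.exp ((K : ℝ) * Γ) ^ l * Real.exp (((i0 : ℝ) + 1 / 2) * Γ)) := by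
        rw [mul_pow, pow_succ]; ring

theorem mkY_bB (hB0 : 0 < ηB) (hB1 : ηB < 1) :
    (mkY q K Γ ηB ηC i0 t c).bB < (mkY q K Γ ηB ηC i0 t c).R ∧
      ((mkY q K Γ ηB ηC i0 t c).R : ℝ) / ((mkY q K Γ ηB ηC i0 t c).bB + 1) ≤ 1 / ηB := by
  have hR : 1 ≤ (mkY q K Γ ηB ηC i0 t c).R := one_le_R K Γ
  have hR' : (1 : ℝ) ≤ ((mkY q K Γ ηB ηC i0 t c).R : ℝ) := by exact_mod_cast hR
  have hb : (mkY q K Γ ηB ηC i0 t c).bB = ⌊ηB * ((mkY q K Γ ηB ηC i0 t c).R : ℝ)⌋₊ := rfl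
  constructor
  · rw [hb, Nat.floor_lt (by positivity)]
    nlinarith
  · have h1 : ηB * ((mkY q K Γ ηB ηC i0 t c).R : ℝ) <
        ((mkY q K Γ ηB ηC i0 t c).bB : ℝ) + 1 := by
      rw [hb]
      exact Nat.lt_floor_add_one _
    rw [div_le_div_iff₀ (by positivity) hB0]
    linarith

theorem herr_of {m b N nb Δ tp : ℕ} {τ : ℕ → ℕ} {C' err : ℝ} (hN : 1 ≤ N) (hΓ : 0 ≤ Γ)
    (hB0 : 0 < ηB) (hB1 : ηB < 1) (hC0 : 0 < ηC) (hC' : 1 ≤ C')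
    (hτ : ∀ l, (τ l : ℝ) ≤ ((nb : ℝ) + 2) * (q : ℝ) ^ 2 *
      Real.exp (((mkY q K Γ ηB ηC i0 t c).i (l + 1) : ℝ) * Γ) + 1)
    (h : ηC * (q : ℝ) ^ 2 * lam m b 1 + ηB * q * Real.log (N + 1) + Real.log (q + 1) +
      q * Real.log (q * Δ + 1) + Real.log C' +
      10 * Real.log N * (((nb : ℝ) + 2) * (q : ℝ) ^ 2 + 1) * Real.exp (-(Γ / 2)) + 1 ≤ err) :
    ∀ l < tp, (mkY q K Γ ηB ηC i0 t c).cB l * lam m b 1 + Real.log C' +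
      10 * τ l * Real.log N + (mkY q K Γ ηB ηC i0 t c).R * Real.log 2 +
      (mkY q K Γ ηB ηC i0 t c).q *
        ((mkY q K Γ ηB ηC i0 t c).rr l * (mkY q K Γ ηB ηC i0 t c).bB : ℕ) *
        Real.log (N + 1) +
      (mkY q K Γ ηB ηC i0 t c).rr (l + 1) *
        (Real.log ((mkY q K Γ ηB ηC i0 t c).q + 1) + (mkY q K Γ ηB ηC i0 t c).q *
          Real.log ((mkY q K Γ ηB ηC i0 t c).q * Δ + 1)) ≤
      (mkY q K Γ ηB ηC i0 t c).rr (l + 1) * err := by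
  intro l _
  have hr1 : (1 : ℝ) ≤ ((mkY q K Γ ηB ηC i0 t c).rr (l + 1) : ℝ) := by
    exact_mod_cast one_le_rr q K Γ ηB ηC i0 t c (l + 1)
  have hr0 : (1 : ℝ) ≤ ((mkY q K Γ ηB ηC i0 t c).rr l : ℝ) := by
    exact_mod_cast one_le_rr q K Γ ηB ηC i0 t c l
  have hR : (1 : ℝ) ≤ ((mkY q K Γ ηB ηC i0 t c).R : ℝ) := by
    exact_mod_cast one_le_R K Γ
  have hrr : ((mkY q K Γ ηB ηC i0 t c).rr (l + 1) : ℝ) =
      ((mkY q K Γ ηB ηC i0 t c).R : ℝ) * ((mkY q K Γ ηB ηC i0 t c).rr l : ℝ) := by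
    rw [mkY_rr, mkY_rr]
    have : ((mkY q K Γ ηB ηC i0 t c).R : ℝ) = ((⌈Real.exp ((K : ℝ) * Γ)⌉₊ : ℕ) : ℝ) := rfl
    rw [this, pow_succ]
    ring
  have hlam : 0 ≤ lam m b 1 := by
    unfold lam
    apply Real.log_nonneg
    have : (0 : ℝ) ≤ (b : ℝ) * ((1 : ℕ) : ℝ) / m := by positivity
    linarith
  have hlogN : 0 ≤ Real.log (N : ℝ) := Real.log_natCast_nonneg N
  have hlogN1 : 0 ≤ Real.log ((N : ℝ) + 1) := by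
    apply Real.log_nonneg
    have : (0 : ℝ) ≤ (N : ℝ) := Nat.cast_nonneg _
    linarith
  -- T1
  have hcB : (((mkY q K Γ ηB ηC i0 t c).cB l : ℕ) : ℝ) ≤
      ηC * ((mkY q K Γ ηB ηC i0 t c).rr (l + 1) : ℝ) * (q : ℝ) ^ 2 := by
    rw [mkY_rr]
    refine (Nat.floor_le (by positivity)).trans (le_of_eq rfl)
  have hT1 : (((mkY q K Γ ηB ηC i0 t c).cB l : ℕ) : ℝ) * lam m b 1 ≤
      ((mkY q K Γ ηB ηC i0 t c).rr (l + 1) : ℝ) * (ηC * (q : ℝ) ^ 2 * lam m b 1) := by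
    calc (((mkY q K Γ ηB ηC i0 t c).cB l : ℕ) : ℝ) * lam m b 1
        ≤ (ηC * ((mkY q K Γ ηB ηC i0 t c).rr (l + 1) : ℝ) * (q : ℝ) ^ 2) * lam m b 1 :=
          mul_le_mul_of_nonneg_right hcB hlam
      _ = _ := by ring
  -- T2
  have hT2 : Real.log C' ≤ ((mkY q K Γ ηB ηC i0 t c).rr (l + 1) : ℝ) * Real.log C' :=
    le_mul_of_one_le_left (Real.log_nonneg hC') hr1
  -- T3
  have hE1 : (1 : ℝ) ≤ Real.exp (((mkY q K Γ ηB ηC i0 t c).i (l + 1) : ℝ) * Γ) :=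
    Real.one_le_exp (by positivity)
  have hE2 : Real.exp (((mkY q K Γ ηB ηC i0 t c).i (l + 1) : ℝ) * Γ) ≤
      Real.exp (-(Γ / 2)) * ((mkY q K Γ ηB ηC i0 t c).rr (l + 1) : ℝ) := by
    have h1 := mkY_rr_lower (q := q) (K := K) (i0 := i0) (Γ := Γ) (ηB := ηB) (ηC := ηC) (t := t)
      (c := c) hΓ (l + 1)
    have h2 : Real.exp (((mkY q K Γ ηB ηC i0 t c).i (l + 1) : ℝ) * Γ) =
        Real.exp (-(Γ / 2)) * Real.exp (((i0 + K * (l + 1) : ℕ) : ℝ) * Γ + Γ / 2) := by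
      rw [← Real.exp_add]
      congr 1
      have : (mkY q K Γ ηB ηC i0 t c).i (l + 1) = i0 + K * (l + 1) := rfl
      rw [this]
      ring
    rw [h2]
    exact mul_le_mul_of_nonneg_left h1 (Real.exp_pos _).le
  have hT3 : 10 * (τ l : ℝ) * Real.log N ≤ ((mkY q K Γ ηB ηC i0 t c).rr (l + 1) : ℝ) *
      (10 * Real.log N * (((nb : ℝ) + 2) * (q : ℝ) ^ 2 + 1) * Real.exp (-(Γ / 2))) := by
    have h1 : (τ l : ℝ) ≤ (((nb : ℝ) + 2) * (q : ℝ) ^ 2 + 1) *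
        Real.exp (((mkY q K Γ ηB ηC i0 t c).i (l + 1) : ℝ) * Γ) := by
      refine (hτ l).trans ?_
      linear_combination hE1
    have h2 : (τ l : ℝ) ≤ (((nb : ℝ) + 2) * (q : ℝ) ^ 2 + 1) *
        (Real.exp (-(Γ / 2)) * ((mkY q K Γ ηB ηC i0 t c).rr (l + 1) : ℝ)) :=
      h1.trans (mul_le_mul_of_nonneg_left hE2 (by positivity))
    calc 10 * (τ l : ℝ) * Real.log N
        = (10 * Real.log N) * (τ l : ℝ) := by ring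
      _ ≤ (10 * Real.log N) * ((((nb : ℝ) + 2) * (q : ℝ) ^ 2 + 1) *
        (Real.exp (-(Γ / 2)) * ((mkY q K Γ ηB ηC i0 t c).rr (l + 1) : ℝ))) :=
          mul_le_mul_of_nonneg_left h2 (by positivity)
      _ = _ := by ring
  -- T4
  have hT4 : ((mkY q K Γ ηB ηC i0 t c).R : ℝ) * Real.log 2 ≤
      ((mkY q K Γ ηB ηC i0 t c).rr (l + 1) : ℝ) * 1 := by
    rw [hrr]
    have h2 : Real.log 2 ≤ 1 := by
      have := Real.log_le_sub_one_of_pos (show (0 : ℝ) < 2 by norm_num)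
      linarith
    have h3 : 0 ≤ Real.log 2 := Real.log_nonneg (by norm_num)
    calc ((mkY q K Γ ηB ηC i0 t c).R : ℝ) * Real.log 2
        ≤ ((mkY q K Γ ηB ηC i0 t c).R : ℝ) * 1 :=
          mul_le_mul_of_nonneg_left h2 (by linarith)
      _ ≤ ((mkY q K Γ ηB ηC i0 t c).R : ℝ) * ((mkY q K Γ ηB ηC i0 t c).rr l : ℝ) :=
          mul_le_mul_of_nonneg_left hr0 (by linarith)
      _ = _ := by ring
  -- T5
  have hbB : (((mkY q K Γ ηB ηC i0 t c).bB : ℕ) : ℝ) ≤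
      ηB * ((mkY q K Γ ηB ηC i0 t c).R : ℝ) := by
    refine (Nat.floor_le (by positivity)).trans (le_of_eq rfl)
  have hT5 : ((mkY q K Γ ηB ηC i0 t c).q : ℝ) *
        (((mkY q K Γ ηB ηC i0 t c).rr l * (mkY q K Γ ηB ηC i0 t c).bB : ℕ) : ℝ) *
        Real.log ((N : ℝ) + 1) ≤ ((mkY q K Γ ηB ηC i0 t c).rr (l + 1) : ℝ) *
      (ηB * q * Real.log ((N : ℝ) + 1)) := by
    have hq : ((mkY q K Γ ηB ηC i0 t c).q : ℝ) = (q : ℝ) := rfl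
    rw [hq, hrr]
    push_cast
    have h1 : ((mkY q K Γ ηB ηC i0 t c).rr l : ℝ) * ((mkY q K Γ ηB ηC i0 t c).bB : ℝ) ≤
        ((mkY q K Γ ηB ηC i0 t c).rr l : ℝ) * (ηB * ((mkY q K Γ ηB ηC i0 t c).R : ℝ)) :=
      mul_le_mul_of_nonneg_left hbB (by linarith)
    calc (q : ℝ) * (((mkY q K Γ ηB ηC i0 t c).rr l : ℝ) *
          ((mkY q K Γ ηB ηC i0 t c).bB : ℝ)) * Real.log ((N : ℝ) + 1)
        = ((q : ℝ) * Real.log ((N : ℝ) + 1)) * (((mkY q K Γ ηB ηC i0 t c).rr l : ℝ) *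
          ((mkY q K Γ ηB ηC i0 t c).bB : ℝ)) := by ring
      _ ≤ ((q : ℝ) * Real.log ((N : ℝ) + 1)) * (((mkY q K Γ ηB ηC i0 t c).rr l : ℝ) *
          (ηB * ((mkY q K Γ ηB ηC i0 t c).R : ℝ))) :=
          mul_le_mul_of_nonneg_left h1 (by positivity)
      _ = _ := by ring
  -- T6
  have hT6 : ((mkY q K Γ ηB ηC i0 t c).rr (l + 1) : ℝ) *
        (Real.log (((mkY q K Γ ηB ηC i0 t c).q : ℝ) + 1) + ((mkY q K Γ ηB ηC i0 t c).q : ℝ) *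
          Real.log (((mkY q K Γ ηB ηC i0 t c).q : ℝ) * Δ + 1)) =
      ((mkY q K Γ ηB ηC i0 t c).rr (l + 1) : ℝ) * (Real.log ((q : ℝ) + 1) +
        (q : ℝ) * Real.log ((q : ℝ) * Δ + 1)) := rfl
  have hfin := mul_le_mul_of_nonneg_left h (by linarith :
    (0 : ℝ) ≤ ((mkY q K Γ ηB ηC i0 t c).rr (l + 1) : ℝ))
  rw [hT6]
  have hexp : ((mkY q K Γ ηB ηC i0 t c).rr (l + 1) : ℝ) *
      (ηC * (q : ℝ) ^ 2 * lam m b 1 + ηB * q * Real.log (N + 1) + Real.log (q + 1) +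
      q * Real.log (q * Δ + 1) + Real.log C' +
      10 * Real.log N * (((nb : ℝ) + 2) * (q : ℝ) ^ 2 + 1) * Real.exp (-(Γ / 2)) + 1) =
      ((mkY q K Γ ηB ηC i0 t c).rr (l + 1) : ℝ) * (ηC * (q : ℝ) ^ 2 * lam m b 1) +
      ((mkY q K Γ ηB ηC i0 t c).rr (l + 1) : ℝ) * Real.log C' +
      ((mkY q K Γ ηB ηC i0 t c).rr (l + 1) : ℝ) *
        (10 * Real.log N * (((nb : ℝ) + 2) * (q : ℝ) ^ 2 + 1) * Real.exp (-(Γ / 2))) +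
      ((mkY q K Γ ηB ηC i0 t c).rr (l + 1) : ℝ) * 1 +
      ((mkY q K Γ ηB ηC i0 t c).rr (l + 1) : ℝ) * (ηB * q * Real.log ((N : ℝ) + 1)) +
      ((mkY q K Γ ηB ηC i0 t c).rr (l + 1) : ℝ) * (Real.log ((q : ℝ) + 1) +
        (q : ℝ) * Real.log ((q : ℝ) * Δ + 1)) := by
    ring
  linarith

theorem hcol_of {m tp : ℕ} {c0 ε : ℝ} (hΓ : 0 ≤ Γ) (hC0 : 0 < ηC) (hc0 : 0 ≤ c0)
    (h : 2 ^ (tp + 1) * m * c0 * Real.exp (-(7 * Γ / 16)) ≤ ε * ηC) :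
    ∀ l < tp, ((mkY q K Γ ηB ηC i0 t c).rr (l + 1) : ℝ) ^ 2 *
      (mkY q K Γ ηB ηC i0 t c).q ^ 2 * m *
      (c0 * Real.exp (Γ / 16 - (((mkY q K Γ ηB ηC i0 t c).i (l + 1) : ℝ) + 1) * Γ)) ≤
        ε * ((mkY q K Γ ηB ηC i0 t c).cB l + 1) := by
  intro l hl
  have hr1 : (1 : ℝ) ≤ ((mkY q K Γ ηB ηC i0 t c).rr (l + 1) : ℝ) := by
    exact_mod_cast one_le_rr q K Γ ηB ηC i0 t c (l + 1)
  have hε : 0 ≤ ε := by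
    have h1 : (0 : ℝ) ≤ ε * ηC := le_trans (by positivity) h
    by_contra hneg
    have : ε * ηC < 0 := mul_neg_of_neg_of_pos (not_le.1 hneg) hC0
    linarith
  have hcB : ηC * ((mkY q K Γ ηB ηC i0 t c).rr (l + 1) : ℝ) * (q : ℝ) ^ 2 ≤
      (((mkY q K Γ ηB ηC i0 t c).cB l : ℕ) : ℝ) + 1 := by
    rw [mkY_rr]
    exact (Nat.lt_floor_add_one _).le
  have hup := mkY_rr_upper (q := q) (K := K) (i0 := i0) (Γ := Γ) (ηB := ηB) (ηC := ηC) (t := t)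
      (c := c) hΓ (l + 1)
  have hE : ((mkY q K Γ ηB ηC i0 t c).rr (l + 1) : ℝ) *
      Real.exp (Γ / 16 - (((mkY q K Γ ηB ηC i0 t c).i (l + 1) : ℝ) + 1) * Γ) ≤
      2 ^ (tp + 1) * Real.exp (-(7 * Γ / 16)) := by
    have h2 : Real.exp (((i0 + K * (l + 1) : ℕ) : ℝ) * Γ + Γ / 2) *
        Real.exp (Γ / 16 - (((mkY q K Γ ηB ηC i0 t c).i (l + 1) : ℝ) + 1) * Γ) =
        Real.exp (-(7 * Γ / 16)) := by
      rw [← Real.exp_add]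
      congr 1
      have : (mkY q K Γ ηB ηC i0 t c).i (l + 1) = i0 + K * (l + 1) := rfl
      rw [this]
      ring
    calc ((mkY q K Γ ηB ηC i0 t c).rr (l + 1) : ℝ) *
          Real.exp (Γ / 16 - (((mkY q K Γ ηB ηC i0 t c).i (l + 1) : ℝ) + 1) * Γ)
        ≤ (2 ^ (l + 1 + 1) * Real.exp (((i0 + K * (l + 1) : ℕ) : ℝ) * Γ + Γ / 2)) *
          Real.exp (Γ / 16 - (((mkY q K Γ ηB ηC i0 t c).i (l + 1) : ℝ) + 1) * Γ) :=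
          mul_le_mul_of_nonneg_right hup (Real.exp_pos _).le
      _ = 2 ^ (l + 1 + 1) * Real.exp (-(7 * Γ / 16)) := by rw [mul_assoc, h2]
      _ ≤ 2 ^ (tp + 1) * Real.exp (-(7 * Γ / 16)) :=
          mul_le_mul_of_nonneg_right (pow_le_pow_right₀ (by norm_num) (by omega))
            (Real.exp_pos _).le
  have hq : ((mkY q K Γ ηB ηC i0 t c).q : ℝ) = (q : ℝ) := rfl
  rw [hq]
  calc ((mkY q K Γ ηB ηC i0 t c).rr (l + 1) : ℝ) ^ 2 * (q : ℝ) ^ 2 * m *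
      (c0 * Real.exp (Γ / 16 - (((mkY q K Γ ηB ηC i0 t c).i (l + 1) : ℝ) + 1) * Γ))
      = (((mkY q K Γ ηB ηC i0 t c).rr (l + 1) : ℝ) * (q : ℝ) ^ 2 * (m * c0)) *
        (((mkY q K Γ ηB ηC i0 t c).rr (l + 1) : ℝ) *
        Real.exp (Γ / 16 - (((mkY q K Γ ηB ηC i0 t c).i (l + 1) : ℝ) + 1) * Γ)) := by ring
    _ ≤ (((mkY q K Γ ηB ηC i0 t c).rr (l + 1) : ℝ) * (q : ℝ) ^ 2 * (m * c0)) *
        (2 ^ (tp + 1) * Real.exp (-(7 * Γ / 16))) :=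
        mul_le_mul_of_nonneg_left hE (by positivity)
    _ = (((mkY q K Γ ηB ηC i0 t c).rr (l + 1) : ℝ) * (q : ℝ) ^ 2) *
        (2 ^ (tp + 1) * m * c0 * Real.exp (-(7 * Γ / 16))) := by ring
    _ ≤ (((mkY q K Γ ηB ηC i0 t c).rr (l + 1) : ℝ) * (q : ℝ) ^ 2) * (ε * ηC) :=
        mul_le_mul_of_nonneg_left h (by positivity)
    _ = ε * (ηC * ((mkY q K Γ ηB ηC i0 t c).rr (l + 1) : ℝ) * (q : ℝ) ^ 2) := by ring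
    _ ≤ ε * ((((mkY q K Γ ηB ηC i0 t c).cB l : ℕ) : ℝ) + 1) :=
        mul_le_mul_of_nonneg_left hcB hε

end Pool.Agent.Helper5.CV
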