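import Mathlib
import Pool.Agent.Helper5.CV.Defs
import Pool.Agent.Helper5.CV.Kap
import Pool.Agent.Helper5.CV.Cls

/-!
# MP_d32cb0_co, module C03: the cost `cw` of a set of pairs

PROOFS.  It is convenient to prove first, for every finset `C ⊇ G.image (cp sm A)`:
`cw m b sm A G = Σ_{c ∈ C} kap m b #{e ∈ G : cp e = c}` (the other terms are `kap 0 = 0`).
`cw_le_sdiff`: for `G' ⊆ G`: per class pair `κ(#G_c) ≤ κ(#G'_c) + #(G \ G')_c Λ_1` (`kap_add_le_mul`).
`cw_coarse`: `A_l ⊆ A`, `G_l` arbitrary sets of pairs with both ends in `A_l`.  If `cp A_l e = cp A_l e'` then `cp A e = cp A e'` (the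
relation `rel sm A_l` is contained in `rel sm A`, so classes of `A_l` are contained in classes of `A`: use
`Relation.EqvGen.mono`; write `e = s(x,y)`, `e' = s(x',y')`, the equality of the class pairs gives `cl x = cl x'`, `cl y = cl y'` or crosswise, and
`cl A_l x = cl A_l x'` (x, x' ∈ A_l) means `EqvGen (rel sm A_l) x x'`).  So for every class pair `c` of `A` and every `l`:
`κ(#(G_l)_c) ≤ Σ_{c' ↦ c} κ(#(G_l)_{c'})` (`kap_sum_le`), and `κ(#(∪ G_l)_c) ≤ κ(Σ_l #(G_l)_c) ≤ Σ_l κ(#(G_l)_c)` (`kap_mono`, `kap_sum_le`).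
-/

set_option autoImplicit false

namespace Pool.Agent.Helper5.CV

open Finset

variable {V : Type*} [DecidableEq V]

/-- The cost as a sum over any set of class pairs containing all class pairs of `G`. -/
private theorem cw_eq_sum (m b : ℕ) (sm : Finset (V × V)) (A : Finset V) (G : Finset (Sym2 V))
    {C : Finset (Sym2 (Finset V))} (hC : ∀ e ∈ G, cp sm A e ∈ C) :
    cw m b sm A G = ∑ c ∈ C, kap m b (G.filter (fun e => cp sm A e = c)).card := by
  classical
  unfold cw
  refine Finset.sum_subset ?_ ?_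
  · intro c hc
    obtain ⟨e, he, rfl⟩ := Finset.mem_image.1 hc
    exact hC e he
  · intro c _ hc
    have h0 : (G.filter (fun e => cp sm A e = c)).card = 0 := by
      rw [Finset.card_eq_zero, Finset.filter_eq_empty_iff]
      intro e he h
      exact hc (Finset.mem_image.2 ⟨e, he, h⟩)
    rw [h0, kap_zero]

theorem cw_le_sdiff {m b : ℕ} (hm : 1 ≤ m) (sm : Finset (V × V)) (A : Finset V)
    {G G' : Finset (Sym2 V)} (h : G' ⊆ G) :
    cw m b sm A G ≤ cw m b sm A G' + ((G \ G').card : ℝ) * lam m b 1 := by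
  classical
  obtain ⟨C, hC⟩ : ∃ C, C = G.image (cp sm A) := ⟨_, rfl⟩
  have h1 : ∀ e ∈ G, cp sm A e ∈ C := fun e he => by
    rw [hC]
    exact Finset.mem_image_of_mem _ he
  rw [cw_eq_sum m b sm A G h1, cw_eq_sum m b sm A G' (fun e he => h1 e (h he))]
  have h2 : ((G \ G').card : ℝ) =
      ∑ c ∈ C, (((G \ G').filter (fun e => cp sm A e = c)).card : ℝ) := by
    have h3 := Finset.card_eq_sum_card_fiberwise (f := cp sm A) (s := G \ G') (t := C)
      (fun e he => h1 e (Finset.mem_sdiff.1 he).1)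
    rw [h3]
    push_cast
    rfl
  rw [h2, Finset.sum_mul, ← Finset.sum_add_distrib]
  refine Finset.sum_le_sum fun c _ => ?_
  have h4 : (G.filter (fun e => cp sm A e = c)).card =
      (G'.filter (fun e => cp sm A e = c)).card +
      ((G \ G').filter (fun e => cp sm A e = c)).card := by
    rw [← Finset.card_union_of_disjoint]
    · apply congrArg
      ext e
      simp only [Finset.mem_filter, Finset.mem_union, Finset.mem_sdiff]
      constructor
      · rintro ⟨he, hc⟩
        by_cases he' : e ∈ G'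
        · exact Or.inl ⟨he', hc⟩
        · exact Or.inr ⟨⟨he, he'⟩, hc⟩
      · rintro (⟨he, hc⟩ | ⟨⟨he, _⟩, hc⟩)
        · exact ⟨h he, hc⟩
        · exact ⟨he, hc⟩
    · rw [Finset.disjoint_left]
      intro e he he2
      exact (Finset.mem_sdiff.1 (Finset.mem_filter.1 he2).1).2 (Finset.mem_filter.1 he).1
  rw [h4]
  exact kap_add_le_mul hm _ _

theorem cw_mono {m b : ℕ} (hm : 1 ≤ m) (sm : Finset (V × V)) (A : Finset V)
    {G G' : Finset (Sym2 V)} (h : G' ⊆ G) : cw m b sm A G' ≤ cw m b sm A G := by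
  classical
  obtain ⟨C, hC⟩ : ∃ C, C = G.image (cp sm A) := ⟨_, rfl⟩
  have h1 : ∀ e ∈ G, cp sm A e ∈ C := fun e he => by
    rw [hC]
    exact Finset.mem_image_of_mem _ he
  rw [cw_eq_sum m b sm A G h1, cw_eq_sum m b sm A G' (fun e he => h1 e (h he))]
  refine Finset.sum_le_sum fun c _ => ?_
  exact kap_mono hm (Finset.card_le_card (Finset.filter_subset_filter _ h))

theorem cw_le_card {m b : ℕ} (hm : 1 ≤ m) (sm : Finset (V × V)) (A : Finset V)
    (G : Finset (Sym2 V)) : cw m b sm A G ≤ (G.card : ℝ) * lam m b 1 := by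
  have h := cw_le_sdiff (b := b) hm sm A (Finset.empty_subset G)
  have h0 : cw m b sm A ∅ = 0 := by
    rw [cw_eq_sum m b sm A ∅ (C := ∅) (fun e he => absurd he (Finset.notMem_empty e))]
    simp
  rw [h0, Finset.sdiff_empty, zero_add] at h
  exact h

private theorem cl_mono {sm : Finset (V × V)} {A A' : Finset V} (h : A' ⊆ A) {x y : V}
    (hx : x ∈ A') (hy : y ∈ A') (hxy : cl sm A' x = cl sm A' y) : cl sm A x = cl sm A y := by
  rw [cl_eq_iff sm A (h hx) (h hy)]
  rw [cl_eq_iff sm A' hx hy] at hxy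
  clear hx hy
  induction hxy with
  | rel a c hac => exact Relation.EqvGen.rel _ _ ⟨h hac.1, h hac.2.1, hac.2.2⟩
  | refl a => exact Relation.EqvGen.refl _
  | symm a c _ ih => exact Relation.EqvGen.symm _ _ ih
  | trans a c d _ _ ih1 ih2 => exact Relation.EqvGen.trans _ _ _ ih1 ih2

private theorem cp_mono {sm : Finset (V × V)} {A A' : Finset V} (h : A' ⊆ A) {e e' : Sym2 V}
    (he : ∀ v ∈ e, v ∈ A') (he' : ∀ v ∈ e', v ∈ A') (hee : cp sm A' e = cp sm A' e') :
    cp sm A e = cp sm A e' := by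
  induction e using Sym2.inductionOn with
  | hf x y =>
    induction e' using Sym2.inductionOn with
    | hf x' y' =>
      unfold cp at hee ⊢
      rw [Sym2.map_mk, Sym2.map_mk] at hee ⊢
      have hx : x ∈ A' := he x (Sym2.mem_mk_left x y)
      have hy : y ∈ A' := he y (Sym2.mem_mk_right x y)
      have hx' : x' ∈ A' := he' x' (Sym2.mem_mk_left x' y')
      have hy' : y' ∈ A' := he' y' (Sym2.mem_mk_right x' y')
      rw [Sym2.eq_iff] at hee ⊢
      rcases hee with ⟨h1, h2⟩ | ⟨h1, h2⟩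
      · exact Or.inl ⟨cl_mono h hx hx' h1, cl_mono h hy hy' h2⟩
      · exact Or.inr ⟨cl_mono h hx hy' h1, cl_mono h hy hx' h2⟩

theorem cw_coarse {m b : ℕ} (hm : 1 ≤ m) (sm : Finset (V × V)) (A : Finset V) {ι : Type*}
    (s : Finset ι) (Al : ι → Finset V) (Gl : ι → Finset (Sym2 V)) (hA : ∀ l ∈ s, Al l ⊆ A)
    (hG : ∀ l ∈ s, ∀ e ∈ Gl l, ∀ v ∈ e, v ∈ Al l) :
    cw m b sm A (s.biUnion Gl) ≤ ∑ l ∈ s, cw m b sm (Al l) (Gl l) := by
  classical
  obtain ⟨C, hC⟩ : ∃ C, C = (s.biUnion Gl).image (cp sm A) := ⟨_, rfl⟩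
  have h1 : ∀ e ∈ s.biUnion Gl, cp sm A e ∈ C := fun e he => by
    rw [hC]
    exact Finset.mem_image_of_mem _ he
  rw [cw_eq_sum m b sm A _ h1]
  -- step 1: split over the index
  have h2 : ∀ c ∈ C, kap m b ((s.biUnion Gl).filter (fun e => cp sm A e = c)).card ≤
      ∑ l ∈ s, kap m b ((Gl l).filter (fun e => cp sm A e = c)).card := by
    intro c _
    refine (kap_mono hm ?_).trans
      (kap_sum_le hm s (fun l => ((Gl l).filter (fun e => cp sm A e = c)).card))
    rw [Finset.filter_biUnion]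
    exact Finset.card_biUnion_le
  refine (Finset.sum_le_sum h2).trans ?_
  rw [Finset.sum_comm]
  refine Finset.sum_le_sum fun l hl => ?_
  -- step 2: a fixed index
  obtain ⟨f, hf⟩ : ∃ f : Sym2 (Finset V) → ℝ, f = fun c' =>
    kap m b ((Gl l).filter (fun e => cp sm (Al l) e = c')).card := ⟨_, rfl⟩
  have hf' : ∀ c', f c' = kap m b ((Gl l).filter (fun e => cp sm (Al l) e = c')).card := by
    intro c'
    rw [hf]
  obtain ⟨D, hD⟩ : ∃ D : Sym2 (Finset V) → Finset (Sym2 (Finset V)), D = fun c =>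
    ((Gl l).filter (fun e => cp sm A e = c)).image (cp sm (Al l)) := ⟨_, rfl⟩
  have hD' : ∀ c, D c = ((Gl l).filter (fun e => cp sm A e = c)).image (cp sm (Al l)) := by
    intro c
    rw [hD]
  have h3 : ∀ c ∈ C, kap m b ((Gl l).filter (fun e => cp sm A e = c)).card ≤
      ∑ c' ∈ D c, f c' := by
    intro c _
    have h4 := Finset.card_eq_sum_card_fiberwise (f := cp sm (Al l))
      (s := (Gl l).filter (fun e => cp sm A e = c)) (t := D c)
      (fun e he => by
        rw [hD']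
        exact Finset.mem_image_of_mem _ he)
    rw [h4]
    refine (kap_sum_le hm _ _).trans ?_
    refine Finset.sum_le_sum fun c' _ => ?_
    rw [hf']
    refine kap_mono hm (Finset.card_le_card ?_)
    intro e he
    rw [Finset.mem_filter, Finset.mem_filter] at he
    rw [Finset.mem_filter]
    exact ⟨he.1.1, he.2⟩
  refine (Finset.sum_le_sum h3).trans ?_
  have h5 : ∀ c ∈ C, ∀ c₂ ∈ C, c ≠ c₂ → Disjoint (D c) (D c₂) := by
    intro c _ c₂ _ hne
    rw [Finset.disjoint_left]
    intro c' h6 h7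
    rw [hD', Finset.mem_image] at h6 h7
    obtain ⟨e, he, hec⟩ := h6
    obtain ⟨e₂, he₂, hec₂⟩ := h7
    rw [Finset.mem_filter] at he he₂
    apply hne
    rw [← he.2, ← he₂.2]
    exact cp_mono (hA l hl) (hG l hl e he.1) (hG l hl e₂ he₂.1) (hec.trans hec₂.symm)
  rw [← Finset.sum_biUnion (fun c hc c₂ hc₂ hne => h5 c hc c₂ hc₂ hne)]
  rw [cw_eq_sum m b sm (Al l) (Gl l) (C := (Gl l).image (cp sm (Al l)))
    (fun e he => Finset.mem_image_of_mem _ he)]
  refine (Finset.sum_le_sum_of_subset_of_nonneg (t := (Gl l).image (cp sm (Al l))) ?_ ?_).trans ?_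
  · intro c' hc'
    rw [Finset.mem_biUnion] at hc'
    obtain ⟨c, _, hc⟩ := hc'
    rw [hD', Finset.mem_image] at hc
    obtain ⟨e, he, hec⟩ := hc
    exact Finset.mem_image.2 ⟨e, (Finset.mem_filter.1 he).1, hec⟩
  · intro c' _ _
    rw [hf']
    exact kap_nonneg m b _
  · refine le_of_eq (Finset.sum_congr rfl fun c' _ => ?_)
    rw [hf']

end Pool.Agent.Helper5.CV
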