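import Mathlib
import Pool.Agent.Helper5.CV.DefsT
import Pool.Agent.Helper5.CV.CwL
import Pool.Agent.Helper5.CV.Kap

/-!
# MP_d32cb0_co, module T08: a common profile

PROOF.  `tl ≤ |B| ≤ q` (image of a subset of `B`), `⌊cwl⌋₊ ≤ cm` since `cwl ≤ #pairs · Λ_1 ≤ q² Λ_1` (`cw_le_card`; the good window pairs are pairs of `B`).  So
`B ↦ (l ↦ (tl, ⌊cwl⌋₊))` is a map from `ℬ'` to the finite type `Prof q cm tp`; pigeonhole (`Finset.exists_le_card_fiber_of_mul_le_card_of_maps_to` or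
`Finset.card_eq_sum_card_fiberwise`).
-/

set_option autoImplicit false

namespace Pool.Agent.Helper5.CV

open Finset Pool.Agent.Helper25.CliqueGame
open Pool.Agent.Helper78.CG (EI)

theorem prof_tl_le_card {V : Type*} [DecidableEq V] (d : Dat V) (K i0 l : ℕ) (B : Finset V) :
    tl d K i0 l B ≤ B.card := by
  unfold tl
  refine Finset.card_image_le.trans (Finset.card_le_card ?_)
  unfold nw old trim
  exact (Finset.filter_subset _ _).trans ((Finset.filter_subset _ _).trans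
    (Finset.filter_subset _ _))

theorem prof_card_sym2_le {V : Type*} [DecidableEq V] (A : Finset V) : A.sym2.card ≤ A.card ^ 2 := by
  rw [Finset.card_sym2, Nat.choose_two_right]
  simp only [Nat.add_sub_cancel]
  refine Nat.div_le_of_le_mul ?_
  nlinarith [Nat.zero_le A.card, sq_nonneg A.card, Nat.le_self_pow (two_ne_zero) A.card]

theorem prof_cwl_le {N m b q K i0 cm : ℕ} (hm : 1 ≤ m) (P : Pos (Sym2 (Fin N)))
    (ℬ : Finset (Finset (Fin N))) (T : Thr) (d : Dat (Fin N)) (l : ℕ) (B : Finset (Fin N))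
    (hB : B.card ≤ q) (hcm : (q : ℝ) ^ 2 * lam m b 1 ≤ cm) :
    cwl m b P ℬ T d K i0 l B ≤ cm := by
  refine le_trans ?_ hcm
  unfold cwl
  refine (cw_le_card hm _ _ _).trans ?_
  refine mul_le_mul_of_nonneg_right ?_ (lam_nonneg m b 1)
  classical
  have h1 : (gp P ℬ T d K (i0 + K * (l + 1)) B
      (old d (i0 + K * (l + 1)) (trim d K i0 B))).card ≤
      (old d (i0 + K * (l + 1)) (trim d K i0 B)).sym2.card := by
    refine Finset.card_le_card ?_
    intro e he
    unfold gp at he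
    rw [Finset.mem_filter] at he
    have he1 := he.1
    unfold wp at he1
    exact (Finset.mem_filter.mp he1).1
  have h2 : (old d (i0 + K * (l + 1)) (trim d K i0 B)).card ≤ B.card := by
    refine Finset.card_le_card ?_
    unfold old trim
    exact (Finset.filter_subset _ _).trans (Finset.filter_subset _ _)
  have h3 := prof_card_sym2_le (old d (i0 + K * (l + 1)) (trim d K i0 B))
  have h4 := h1.trans (h3.trans (Nat.pow_le_pow_left (h2.trans hB) 2))
  exact_mod_cast h4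

theorem exists_profile {N m b q K i0 tp cm : ℕ} (hm : 1 ≤ m) (P : Pos (Sym2 (Fin N)))
    (ℬ : Finset (Finset (Fin N))) (T : Thr) (d : Dat (Fin N))
    (ℬ' : Finset (Finset (Fin N))) (hne : ℬ'.Nonempty) (hs : ∀ B ∈ ℬ', B.card ≤ q)
    (hcm : (q : ℝ) ^ 2 * lam m b 1 ≤ cm) :
    ∃ (π : Prof q cm tp), ∃ 𝒞 ⊆ ℬ', 𝒞.Nonempty ∧
      ℬ'.card ≤ Fintype.card (Prof q cm tp) * 𝒞.card ∧
      ∀ B ∈ 𝒞, ∀ l < tp, tl d K i0 l B = π.t l ∧ ⌊cwl m b P ℬ T d K i0 l B⌋₊ = π.c l := by
  classical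
  set f : Finset (Fin N) → Prof q cm tp := fun B l =>
    (⟨min (tl d K i0 l B) q, Nat.lt_succ_of_le (min_le_right _ _)⟩,
      ⟨min ⌊cwl m b P ℬ T d K i0 l B⌋₊ cm, Nat.lt_succ_of_le (min_le_right _ _)⟩) with hf
  obtain ⟨B0, hB0⟩ := hne
  have : Nonempty (Prof q cm tp) := ⟨f B0⟩
  obtain ⟨π, -, hπ⟩ := Finset.exists_max_image (univ : Finset (Prof q cm tp))
    (fun π => (ℬ'.filter (fun B => f B = π)).card) univ_nonempty
  refine ⟨π, ℬ'.filter (fun B => f B = π), Finset.filter_subset _ _, ?_, ?_, ?_⟩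
  · rw [← Finset.card_pos]
    refine lt_of_lt_of_le ?_ (hπ (f B0) (Finset.mem_univ _))
    rw [Finset.card_pos]
    exact ⟨B0, Finset.mem_filter.mpr ⟨hB0, rfl⟩⟩
  · rw [Finset.card_eq_sum_card_fiberwise (f := f) (t := univ)
      (fun _ _ => Finset.mem_coe.mpr (Finset.mem_univ _))]
    refine (Finset.sum_le_card_nsmul _ _ _ (fun x _ => hπ x (Finset.mem_univ x))).trans ?_
    rw [Finset.card_univ, smul_eq_mul]
  · intro B hB l hl
    rw [Finset.mem_filter] at hB
    obtain ⟨hB1, hB2⟩ := hB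
    have ht : tl d K i0 l B ≤ q := (prof_tl_le_card d K i0 l B).trans (hs B hB1)
    have hc : ⌊cwl m b P ℬ T d K i0 l B⌋₊ ≤ cm :=
      Nat.floor_le_of_le (prof_cwl_le hm P ℬ T d l B (hs B hB1) hcm)
    rw [← hB2]
    unfold Prof.t Prof.c
    rw [dif_pos hl, dif_pos hl]
    simp only [hf]
    exact ⟨(min_eq_left ht).symm, (min_eq_left hc).symm⟩

end Pool.Agent.Helper5.CV
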