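import Mathlib
import Pool.Agent.Helper5.CV.Defs

/-!
# MP_d32cb0_co, module L01: counting generated sets

PROOFS.  `gen_card`: induction (`card_le_card_insert`).  `card_gen_le`: let `𝒢 s` = the sets `A ⊆ Pt` with `|A| = s`, `Gen sm t A`.
`|𝒢 t| ≤ C(|Pt|, t) ≤ |Pt|^t` (`Gen` with `|A| = t`: by induction on `Gen`, `A` has a generated subset … simply: `𝒢 t ⊆ powersetCard t Pt`).
`|𝒢 (s+1)| ≤ |𝒢 s| · s Δ + [s+1 = t]…`: for `s ≥ t` every `A ∈ 𝒢 (s+1)` is `insert b A'` with `A' ∈ 𝒢 s`, `a ∈ A'`, `(a,b) ∈ sm`
(prove by induction on `Gen`: if `Gen sm t A`, `|A| ≥ t+1` then such `A' ⊆ A`, `b ∉ A'` exist; a step with `b` already in the set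
changes nothing).  For given `A'` there are at most `|A'| Δ ≤ q Δ` choices of `b`.  So `|𝒢 s| ≤ |Pt|^t (qΔ)^{s-t} ≤ |Pt|^t (qΔ+1)^q` for
`t ≤ s ≤ q`; sum over the `≤ q+1` values of `s`.
`card_small_sets`: a set with `≤ q` elements is the range of a map `Fin q → Option V` (reduceOption) : at most `(|V|+1)^q`.
-/

set_option autoImplicit false

namespace Pool.Agent.Helper5.CV

open Finset

variable {V : Type*} [DecidableEq V]

theorem gen_card {sm : Finset (V × V)} {t : ℕ} {A : Finset V} (h : Gen sm t A) : t ≤ A.card := by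
  induction h with
  | base T h => exact h.ge
  | step A a b _ _ _ ih => exact ih.trans (Finset.card_le_card (Finset.subset_insert b A))

/-- a generated set with more than `t` points has a last step -/
private theorem gen_last {sm : Finset (V × V)} {t : ℕ} {A : Finset V} (h : Gen sm t A)
    (hA : t + 1 ≤ A.card) :
    ∃ A' : Finset V, ∃ a b : V, Gen sm t A' ∧ a ∈ A' ∧ (a, b) ∈ sm ∧ b ∉ A' ∧ A = insert b A' := by
  induction h with
  | base T h => omega
  | step A a b hG ha hab ih =>
    by_cases hb : b ∈ A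
    · rw [Finset.insert_eq_self.2 hb] at hA ⊢
      exact ih hA
    · exact ⟨A, a, b, hG, ha, hab, hb, rfl⟩

open Classical in
/-- the generated subsets of `Pt` with exactly `s` points -/
private noncomputable def genS [Fintype V] (sm : Finset (V × V)) (Pt : Finset V) (t s : ℕ) :
    Finset (Finset V) :=
  univ.filter (fun A : Finset V => A ⊆ Pt ∧ A.card = s ∧ Gen sm t A)

private theorem genS_base [Fintype V] (sm : Finset (V × V)) (Pt : Finset V) (t : ℕ) :
    (genS sm Pt t t).card ≤ Pt.card ^ t := by
  classical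
  calc (genS sm Pt t t).card ≤ (powersetCard t Pt).card := by
        apply Finset.card_le_card
        intro A hA
        unfold genS at hA
        rw [Finset.mem_filter] at hA
        exact Finset.mem_powersetCard.2 ⟨hA.2.1, hA.2.2.1⟩
    _ = Pt.card.choose t := Finset.card_powersetCard t Pt
    _ ≤ Pt.card ^ t := Nat.choose_le_pow _ _

private theorem genS_succ [Fintype V] (sm : Finset (V × V)) {Δ : ℕ}
    (hdeg : ∀ a, (sm.filter (fun p => p.1 = a)).card ≤ Δ) (Pt : Finset V) {t s : ℕ} (hs : t ≤ s) :
    (genS sm Pt t (s + 1)).card ≤ (genS sm Pt t s).card * (s * Δ) := by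
  classical
  have hsub : genS sm Pt t (s + 1) ⊆ (genS sm Pt t s).biUnion (fun A' =>
      (A'.biUnion (fun a => (sm.filter (fun p => p.1 = a)).image Prod.snd)).image
        (fun b => insert b A')) := by
    intro A hA
    unfold genS at hA
    rw [Finset.mem_filter] at hA
    obtain ⟨-, hAP, hAc, hAG⟩ := hA
    obtain ⟨A', a, b, hG, ha, hab, hb, rfl⟩ := gen_last hAG (by omega)
    rw [Finset.mem_biUnion]
    refine ⟨A', ?_, ?_⟩
    · unfold genS
      rw [Finset.mem_filter]
      refine ⟨Finset.mem_univ _, (Finset.subset_insert b A').trans hAP, ?_, hG⟩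
      rw [Finset.card_insert_of_notMem hb] at hAc
      omega
    · rw [Finset.mem_image]
      refine ⟨b, ?_, rfl⟩
      rw [Finset.mem_biUnion]
      refine ⟨a, ha, ?_⟩
      rw [Finset.mem_image]
      exact ⟨(a, b), Finset.mem_filter.2 ⟨hab, rfl⟩, rfl⟩
  calc (genS sm Pt t (s + 1)).card ≤ _ := Finset.card_le_card hsub
    _ ≤ (genS sm Pt t s).card * (s * Δ) := by
        apply Finset.card_biUnion_le_card_mul
        intro A' hA'
        unfold genS at hA'
        rw [Finset.mem_filter] at hA'
        refine Finset.card_image_le.trans ?_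
        rw [← hA'.2.2.1]
        apply Finset.card_biUnion_le_card_mul
        intro a _
        exact Finset.card_image_le.trans (hdeg a)

private theorem genS_le [Fintype V] (sm : Finset (V × V)) {Δ : ℕ}
    (hdeg : ∀ a, (sm.filter (fun p => p.1 = a)).card ≤ Δ) (Pt : Finset V) (q t j : ℕ)
    (hj : t + j ≤ q) : (genS sm Pt t (t + j)).card ≤ Pt.card ^ t * (q * Δ + 1) ^ j := by
  induction j with
  | zero => simpa using genS_base sm Pt t
  | succ j ih =>
    have h1 := genS_succ sm hdeg Pt (t := t) (s := t + j) (Nat.le_add_right t j)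
    have h2 := ih (by omega)
    have h3 : (t + j) * Δ ≤ q * Δ + 1 :=
      (Nat.mul_le_mul_right Δ (by omega : t + j ≤ q)).trans (Nat.le_succ _)
    calc (genS sm Pt t (t + (j + 1))).card ≤ (genS sm Pt t (t + j)).card * ((t + j) * Δ) := h1
      _ ≤ (Pt.card ^ t * (q * Δ + 1) ^ j) * (q * Δ + 1) := Nat.mul_le_mul h2 h3
      _ = Pt.card ^ t * (q * Δ + 1) ^ (j + 1) := by rw [pow_succ, mul_assoc]

open Classical in
theorem card_gen_le [Fintype V] (sm : Finset (V × V)) {Δ : ℕ}
    (hdeg : ∀ a, (sm.filter (fun p => p.1 = a)).card ≤ Δ) (Pt : Finset V) (q t : ℕ) :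
    (univ.filter (fun A : Finset V => A ⊆ Pt ∧ A.card ≤ q ∧ Gen sm t A)).card ≤
      (q + 1) * Pt.card ^ t * (q * Δ + 1) ^ q := by
  have hsub : (univ.filter (fun A : Finset V => A ⊆ Pt ∧ A.card ≤ q ∧ Gen sm t A)) ⊆
      (range (q + 1)).biUnion (fun s => genS sm Pt t s) := by
    intro A hA
    rw [Finset.mem_filter] at hA
    rw [Finset.mem_biUnion]
    refine ⟨A.card, Finset.mem_range.2 (by omega), ?_⟩
    unfold genS
    rw [Finset.mem_filter]
    exact ⟨Finset.mem_univ _, hA.2.1, rfl, hA.2.2.2⟩
  have hall : ∀ s ∈ range (q + 1), (genS sm Pt t s).card ≤ Pt.card ^ t * (q * Δ + 1) ^ q := by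
    intro s hs
    rw [Finset.mem_range] at hs
    by_cases hst : t ≤ s
    · obtain ⟨j, rfl⟩ := Nat.exists_eq_add_of_le hst
      refine (genS_le sm hdeg Pt q t j (by omega)).trans ?_
      exact Nat.mul_le_mul_left _ (Nat.pow_le_pow_right (Nat.succ_pos _) (by omega))
    · have h0 : genS sm Pt t s = ∅ := by
        rw [Finset.eq_empty_iff_forall_notMem]
        intro A hA
        unfold genS at hA
        rw [Finset.mem_filter] at hA
        have h1 := gen_card hA.2.2.2
        omega
      rw [h0, Finset.card_empty]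
      exact Nat.zero_le _
  calc _ ≤ _ := Finset.card_le_card hsub
    _ ≤ (range (q + 1)).card * (Pt.card ^ t * (q * Δ + 1) ^ q) :=
        Finset.card_biUnion_le_card_mul _ _ _ hall
    _ = (q + 1) * Pt.card ^ t * (q * Δ + 1) ^ q := by
        rw [Finset.card_range, mul_assoc]

theorem card_small_sets (V : Type*) [DecidableEq V] [Fintype V] (q : ℕ) :
    (univ.filter (fun A : Finset V => A.card ≤ q)).card ≤ (Fintype.card V + 1) ^ q := by
  classical
  have hsub : (univ.filter (fun A : Finset V => A.card ≤ q)) ⊆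
      (univ : Finset (Fin q → Option V)).image
        (fun f => univ.filter (fun v => ∃ i, f i = some v)) := by
    intro A hA
    rw [Finset.mem_filter] at hA
    rw [Finset.mem_image]
    refine ⟨fun i => A.toList[(i : ℕ)]?, Finset.mem_univ _, ?_⟩
    ext v
    rw [Finset.mem_filter, ← Finset.mem_toList (s := A)]
    constructor
    · rintro ⟨-, i, hi⟩
      exact List.mem_of_getElem? hi
    · intro hv
      obtain ⟨i, hi, hiv⟩ := List.mem_iff_getElem.1 hv
      rw [Finset.length_toList] at hi
      refine ⟨Finset.mem_univ _, ⟨i, by omega⟩, ?_⟩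
      simp only
      rw [List.getElem?_eq_some_iff]
      exact ⟨by rw [Finset.length_toList]; exact hi, hiv⟩
  calc _ ≤ _ := Finset.card_le_card hsub
    _ ≤ (univ : Finset (Fin q → Option V)).card := Finset.card_image_le
    _ = (Fintype.card V + 1) ^ q := by
        rw [Finset.card_univ, Fintype.card_fun, Fintype.card_option, Fintype.card_fin]

end Pool.Agent.Helper5.CV
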