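import Mathlib
import Pool.Agent.Helper5.CV.Defs
import Pool.Agent.Helper5.CV.GenC
import Pool.Agent.Helper5.CV.ResD

/-!
# MP_d32cb0_co, module L04: counting the sequences with property `SeqQ`

PROOF.  `f` is determined by its old part `g j k = old d (Y.i l) (f (j,k))` and its new part `nw d K (Y.i (l+1)) (f (j,k))`
(for `v ∈ f (j,k)`: `1 ≤ bk v`, `bk v + 3 ≤ Y.i (l+1) = Y.i l + K`; either `bk v + 3 ≤ Y.i l` or `Y.i (l+1) < bk v + K + 3`).
Old parts: `(g_j)_{j : Fin R}`, `g_j : Idx l → Finset V`, all `g_j k` have `≤ q` elements, and all but `≤ bB` of the `j` have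
`SeqP m b Y l d (g_j)`.  Sum over the set `J` of bad `j` (at most `2^R` sets): at most `E^{R-|J|} ((N+1)^q)^{rr l · |J|}
≤ E^R ((N+1)^q)^{rr l · bB}` sequences (`E ≥ 1`; `card_small_sets`, `N = card V`).
New parts: for every one of the `rr (l+1)` indices a subset of `{v : 1 ≤ bk v}` (at most `nZ` points) with `≤ q` elements
and `Gen d.sm (t l)`: `card_gen_le` gives `(q+1) nZ^t (qΔ+1)^q`.
`card (Idx r0 R l) = rr l` is `card_idx`.
-/

set_option autoImplicit false

namespace Pool.Agent.Helper5.CV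

open Finset Pool.Agent.Helper25.CliqueGame
open Pool.Agent.Helper78.CG (EI)

variable {V : Type*} [DecidableEq V]

open Classical in
private theorem card_small_idx [Fintype V] (r0 R l q : ℕ) :
    ((univ.filter (fun g : Idx r0 R l → Finset V => ∀ k, (g k).card ≤ q)).card : ℝ) ≤
      (((Fintype.card V : ℝ) + 1) ^ q) ^ (R ^ l * r0) := by
  have h1 : (univ.filter (fun g : Idx r0 R l → Finset V => ∀ k, (g k).card ≤ q)) =
      Fintype.piFinset (fun _ : Idx r0 R l => univ.filter (fun A : Finset V => A.card ≤ q)) := by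
    ext g
    simp [Fintype.mem_piFinset]
  rw [h1, Fintype.card_piFinset, prod_const, card_univ, card_idx]
  have h2 := card_small_sets V q
  push_cast
  gcongr
  exact_mod_cast h2

open Classical in
private theorem card_GG_le [Fintype V] (m b : ℕ) (Y : Sys) (l : ℕ) (d : Dat V) {E : ℝ}
    (hE : 1 ≤ E)
    (hcount : ((univ.filter (fun g : Idx Y.r0 Y.R l → Finset V => SeqP m b Y l d g)).card : ℝ) ≤
      E) :
    ((univ.filter (fun g : Fin Y.R → (Idx Y.r0 Y.R l → Finset V) =>
      (∀ j k, (g j k).card ≤ Y.q) ∧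
      (univ.filter (fun j : Fin Y.R => ¬ SeqP m b Y l d (g j))).card ≤ Y.bB)).card : ℝ) ≤
      2 ^ Y.R * E ^ Y.R * (((Fintype.card V : ℝ) + 1) ^ Y.q) ^ (Y.rr l * Y.bB) := by
  set Good := univ.filter (fun g : Idx Y.r0 Y.R l → Finset V => SeqP m b Y l d g) with hGood
  set Small := univ.filter (fun g : Idx Y.r0 Y.R l → Finset V => ∀ k, (g k).card ≤ Y.q)
    with hSmall
  set S : ℝ := (((Fintype.card V : ℝ) + 1) ^ Y.q) ^ (Y.rr l) with hS
  have hS1 : 1 ≤ S := by
    apply one_le_pow₀
    apply one_le_pow₀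
    have : (0 : ℝ) ≤ Fintype.card V := Nat.cast_nonneg _
    linarith
  have hSm : (Small.card : ℝ) ≤ S := card_small_idx Y.r0 Y.R l Y.q
  have hsub : (univ.filter (fun g : Fin Y.R → (Idx Y.r0 Y.R l → Finset V) =>
      (∀ j k, (g j k).card ≤ Y.q) ∧
      (univ.filter (fun j : Fin Y.R => ¬ SeqP m b Y l d (g j))).card ≤ Y.bB)) ⊆
      ((univ : Finset (Fin Y.R)).powerset.filter (fun J => J.card ≤ Y.bB)).biUnion
        (fun J => Fintype.piFinset (fun j => if j ∈ J then Small else Good)) := by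
    intro g hg
    rw [mem_filter] at hg
    rw [mem_biUnion]
    refine ⟨univ.filter (fun j : Fin Y.R => ¬ SeqP m b Y l d (g j)), ?_, ?_⟩
    · rw [mem_filter]
      exact ⟨mem_powerset.2 (subset_univ _), hg.2.2⟩
    · rw [Fintype.mem_piFinset]
      intro j
      by_cases hj : SeqP m b Y l d (g j)
      · have : j ∉ univ.filter (fun j : Fin Y.R => ¬ SeqP m b Y l d (g j)) := by
          simp [hj]
        rw [if_neg this, hGood, mem_filter]
        exact ⟨mem_univ _, hj⟩
      · have : j ∈ univ.filter (fun j : Fin Y.R => ¬ SeqP m b Y l d (g j)) := by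
          simp [hj]
        rw [if_pos this, hSmall, mem_filter]
        exact ⟨mem_univ _, hg.2.1 j⟩
  have h1 : ((univ.filter (fun g : Fin Y.R → (Idx Y.r0 Y.R l → Finset V) =>
      (∀ j k, (g j k).card ≤ Y.q) ∧
      (univ.filter (fun j : Fin Y.R => ¬ SeqP m b Y l d (g j))).card ≤ Y.bB)).card : ℝ) ≤
      ∑ J ∈ (univ : Finset (Fin Y.R)).powerset.filter (fun J => J.card ≤ Y.bB),
        ((Fintype.piFinset (fun j => if j ∈ J then Small else Good)).card : ℝ) := by
    have := (card_le_card hsub).trans card_biUnion_le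
    exact_mod_cast this
  have h2 : ∀ J ∈ (univ : Finset (Fin Y.R)).powerset.filter (fun J => J.card ≤ Y.bB),
      ((Fintype.piFinset (fun j => if j ∈ J then Small else Good)).card : ℝ) ≤
        E ^ Y.R * S ^ Y.bB := by
    intro J hJ
    rw [mem_filter] at hJ
    rw [Fintype.card_piFinset]
    push_cast
    calc ∏ j : Fin Y.R, (((if j ∈ J then Small else Good).card : ℕ) : ℝ)
        ≤ ∏ j : Fin Y.R, (E * (if j ∈ J then S else 1)) := by
          apply prod_le_prod
          · intro j _
            exact Nat.cast_nonneg _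
          · intro j _
            split_ifs
            · calc (Small.card : ℝ) ≤ S := hSm
                _ = 1 * S := (one_mul _).symm
                _ ≤ E * S := by gcongr
            · rw [mul_one]
              exact hcount
      _ = E ^ Y.R * S ^ J.card := by
          rw [prod_mul_distrib, prod_const, card_univ, Fintype.card_fin, prod_ite, prod_const,
            prod_const_one, mul_one]
          congr 2
          congr 1
          ext j
          simp
      _ ≤ E ^ Y.R * S ^ Y.bB := by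
          have := pow_le_pow_right₀ hS1 hJ.2
          have hE0 : 0 ≤ E ^ Y.R := by positivity
          exact mul_le_mul_of_nonneg_left this hE0
  refine h1.trans ((sum_le_sum h2).trans ?_)
  rw [sum_const, nsmul_eq_mul]
  have h3 : (((univ : Finset (Fin Y.R)).powerset.filter (fun J => J.card ≤ Y.bB)).card : ℝ) ≤
      2 ^ Y.R := by
    have : ((univ : Finset (Fin Y.R)).powerset.filter (fun J => J.card ≤ Y.bB)).card ≤
        2 ^ Y.R := by
      refine (card_filter_le _ _).trans ?_
      rw [card_powerset, card_univ, Fintype.card_fin]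
    exact_mod_cast this
  have h4 : (((Fintype.card V : ℝ) + 1) ^ Y.q) ^ (Y.rr l * Y.bB) = S ^ Y.bB := by
    rw [hS, ← pow_mul _ (Y.rr l)]
  rw [h4, mul_assoc (2 ^ Y.R : ℝ)]
  have h5 : 0 ≤ E ^ Y.R * S ^ Y.bB := by positivity
  exact mul_le_mul_of_nonneg_right h3 h5

open Classical in
theorem card_seqQ_le [Fintype V] (m b : ℕ) (Y : Sys) (l : ℕ) (d : Dat V) {Δ nZ : ℕ}
    (hdeg : ∀ a, (d.sm.filter (fun p => p.1 = a)).card ≤ Δ)
    (hcard : (univ.filter (fun v => 1 ≤ d.bk v)).card ≤ nZ) {E : ℝ} (hE : 1 ≤ E)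
    (hcount : ((univ.filter (fun g : Idx Y.r0 Y.R l → Finset V => SeqP m b Y l d g)).card : ℝ) ≤
      E) :
    ((univ.filter (fun f : Idx Y.r0 Y.R (l + 1) → Finset V => SeqQ m b Y l d f)).card : ℝ) ≤
      2 ^ Y.R * E ^ Y.R * (((Fintype.card V : ℝ) + 1) ^ Y.q) ^ (Y.rr l * Y.bB) *
        (((Y.q : ℝ) + 1) * (nZ : ℝ) ^ (Y.t l) * ((Y.q : ℝ) * Δ + 1) ^ Y.q) ^ (Y.rr (l + 1)) := by
  set Pt := univ.filter (fun v : V => 1 ≤ d.bk v) with hPt
  set NW := univ.filter (fun A : Finset V => A ⊆ Pt ∧ A.card ≤ Y.q ∧ Gen d.sm (Y.t l) A)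
    with hNW
  set GG := univ.filter (fun g : Fin Y.R → (Idx Y.r0 Y.R l → Finset V) =>
      (∀ j k, (g j k).card ≤ Y.q) ∧
      (univ.filter (fun j : Fin Y.R => ¬ SeqP m b Y l d (g j))).card ≤ Y.bB) with hGG
  set HH := Fintype.piFinset (fun _ : Idx Y.r0 Y.R (l + 1) => NW) with hHH
  have hil : Y.i (l + 1) = Y.i l + Y.K := by
    unfold Sys.i
    ring
  have hle : (univ.filter (fun f : Idx Y.r0 Y.R (l + 1) → Finset V =>
      SeqQ m b Y l d f)).card ≤ (GG ×ˢ HH).card := by
    apply card_le_card_of_injOn (fun f : Idx Y.r0 Y.R (l + 1) → Finset V =>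
      ((fun j k => old d (Y.i l) (f (j, k)) : Fin Y.R → (Idx Y.r0 Y.R l → Finset V)),
        (fun x => nw d Y.K (Y.i (l + 1)) (f x) : Idx Y.r0 Y.R (l + 1) → Finset V)))
    · intro f hf
      have hf' : SeqQ m b Y l d f := (mem_filter.1 hf).2
      obtain ⟨hN, hB⟩ := hf'
      have hgoal : ((fun j k => old d (Y.i l) (f (j, k)) :
          Fin Y.R → (Idx Y.r0 Y.R l → Finset V)),
        (fun x => nw d Y.K (Y.i (l + 1)) (f x) : Idx Y.r0 Y.R (l + 1) → Finset V)) ∈
          GG ×ˢ HH := by
        rw [mem_product]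
        constructor
        · rw [hGG, mem_filter]
          refine ⟨mem_univ _, ?_, hB⟩
          intro j k
          exact (card_filter_le _ _).trans (hN (j, k)).1
        · rw [hHH, Fintype.mem_piFinset]
          intro x
          rw [hNW, mem_filter]
          refine ⟨mem_univ _, ?_, (card_filter_le _ _).trans (hN x).1, (hN x).2.2⟩
          intro v hv
          have hv' : v ∈ f x := (mem_filter.1 hv).1
          rw [hPt, mem_filter]
          exact ⟨mem_univ _, ((hN x).2.1 v hv').1⟩
      exact hgoal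
    · intro f hf f' hf' hff
      have hN : SeqN Y l d f := (mem_filter.1 hf).2.1
      have hN' : SeqN Y l d f' := (mem_filter.1 hf').2.1
      have h1 := congrArg Prod.fst hff
      have h2 := congrArg Prod.snd hff
      simp only at h1 h2
      have hdec : ∀ (g : Idx Y.r0 Y.R (l + 1) → Finset V), SeqN Y l d g → ∀ (j : Fin Y.R)
          (k : Idx Y.r0 Y.R l), g (j, k) = old d (Y.i l) (g (j, k)) ∪
            nw d Y.K (Y.i (l + 1)) (g (j, k)) := by
        intro g hg j k
        ext v
        simp only [mem_union, old, nw, mem_filter]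
        constructor
        · intro hv
          have h3 := (hg (j, k)).2.1 v hv
          by_cases h4 : d.bk v + 3 ≤ Y.i l
          · exact Or.inl ⟨hv, h3.1, h4⟩
          · right
            refine ⟨hv, ?_⟩
            rw [hil]
            omega
        · rintro (hv | hv)
          · exact hv.1
          · exact hv.1
      funext x
      obtain ⟨j, k⟩ := x
      have e1 : old d (Y.i l) (f (j, k)) = old d (Y.i l) (f' (j, k)) :=
        congrFun (congrFun h1 j) k
      have e2 : nw d Y.K (Y.i (l + 1)) (f (j, k)) = nw d Y.K (Y.i (l + 1)) (f' (j, k)) :=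
        congrFun h2 (j, k)
      exact (hdec f hN j k).trans ((congrArg₂ (fun A B : Finset V => A ∪ B) e1 e2).trans
        (hdec f' hN' j k).symm)
  have hHHc : (HH.card : ℝ) ≤
      (((Y.q : ℝ) + 1) * (nZ : ℝ) ^ (Y.t l) * ((Y.q : ℝ) * Δ + 1) ^ Y.q) ^ (Y.rr (l + 1)) := by
    rw [hHH, Fintype.card_piFinset, prod_const, card_univ, card_idx]
    have h1 : NW.card ≤ (Y.q + 1) * Pt.card ^ (Y.t l) * (Y.q * Δ + 1) ^ Y.q :=
      card_gen_le d.sm hdeg Pt Y.q (Y.t l)
    have h2 : NW.card ≤ (Y.q + 1) * nZ ^ (Y.t l) * (Y.q * Δ + 1) ^ Y.q := by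
      refine h1.trans ?_
      gcongr
    have h3 : (NW.card : ℝ) ≤
        ((Y.q : ℝ) + 1) * (nZ : ℝ) ^ (Y.t l) * ((Y.q : ℝ) * Δ + 1) ^ Y.q := by
      exact_mod_cast h2
    push_cast
    unfold Sys.rr
    exact pow_le_pow_left₀ (Nat.cast_nonneg _) h3 _
  have hGGc := card_GG_le m b Y l d hE hcount
  calc ((univ.filter (fun f : Idx Y.r0 Y.R (l + 1) → Finset V => SeqQ m b Y l d f)).card : ℝ)
      ≤ ((GG ×ˢ HH).card : ℝ) := by exact_mod_cast hle
    _ = (GG.card : ℝ) * (HH.card : ℝ) := by
        rw [card_product]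
        push_cast
        rfl
    _ ≤ _ := by
        apply mul_le_mul hGGc hHHc (Nat.cast_nonneg _)
        have hE0 : 0 ≤ E := by linarith
        positivity

end Pool.Agent.Helper5.CV
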