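import Mathlib
import Pool.Agent.Helper5.CV.Defs
import Pool.Agent.Helper5.CV.Kap
import Pool.Agent.Helper5.CV.CostL
import Pool.Agent.Helper5.CV.CwL
import Pool.Agent.Helper5.CV.ResD

/-!
# MP_d32cb0_co, module L05: the gain of a good sequence

PROOF.  From `SeqP … (l+1)`: `GoodC` for all `k` (choose `G k ⊆ wp (f k)`), `#coll ≤ cB l`, and the points of `f k` are low.
Disjointness: `e ∈ wp (f k)` has `tn e ≠ 0`, so `e ∉ P.B` (`DatOK.tnB`).
`G' k = {e ∈ G k : no k' ≠ k and e' ∈ wp (f k') with tn e' = tn e}`; `Σ_k |G k \ G' k| ≤ #coll ≤ cB l` (send `(k, e)` to some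
collision `((k,k'),(e,e'))`; injective).  The sets `G' k` are pairwise disjoint (a common pair is a collision with itself).
`S' = ∪_k G' k ⊆ SSf`.  Colour of `e ∈ S'`: `(k, cp d.sm (f k) e)`, `k` the unique index with `e ∈ G' k`.  If `e ∈ G' k`, `e' ∈ G' k'` are
in the same move `X` of Maker: `tn e = tix e + 2 = tix e' + 2 = tn e'` (`DatOK.tnM`, `tix_same`), so `k = k'` (no collision) and the
class pairs are equal (`GoodC`).  `S' ⊆ P.M` (`DatOK.tnM`).  `cost_lemma` (with `P.mv`, `hP.card`, `hP.pw`):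
`log gain(S') ≥ Σ_colours κ = Σ_k cw (f k) (G' k) ≥ Σ_k (cw (f k) (G k) - |G k \ G' k| Λ_1) ≥ rr (l+1) c_l - cB l Λ_1`
(`cw_le_sdiff`, `card_idx`).  `gain_mono`.
-/

set_option autoImplicit false

namespace Pool.Agent.Helper5.CV

open Finset Pool.Agent.Helper25.CliqueGame
open Pool.Agent.Helper78.CG (EI)

open Classical in
private theorem gs_core {N m b : ℕ} (hm : 1 ≤ m) {P : Pos (Sym2 (Fin N))} (hP : GP m (edges N) P)
    {ι : Type*} [Fintype ι] (tn : Sym2 (Fin N) → ℕ) (sm : Finset (Fin N × Fin N))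
    (f : ι → Finset (Fin N)) (W : ι → Finset (Sym2 (Fin N))) (c cB : ℕ)
    (htnM : ∀ e, 2 ≤ tn e → e ∈ P.M ∧ tn e = tix P.mv e + 2)
    (G : ι → Finset (Sym2 (Fin N))) (hG1 : ∀ k, G k ⊆ W k) (hG2 : ∀ k, ∀ e ∈ G k, 2 ≤ tn e)
    (hG3 : ∀ k, ∀ e ∈ G k, ∀ e' ∈ G k, tn e = tn e' → cp sm (f k) e = cp sm (f k) e')
    (hG4 : ∀ k, (c : ℝ) ≤ cw m b sm (f k) (G k))
    (C : Finset ((ι × ι) × (Sym2 (Fin N) × Sym2 (Fin N))))
    (hC : ∀ k k' e e', k ≠ k' → e ∈ W k → e' ∈ W k' → 2 ≤ tn e → tn e = tn e' →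
      ((k, k'), (e, e')) ∈ C)
    (hcB : C.card ≤ cB) :
    (Fintype.card ι : ℝ) * c - cB * lam m b 1 ≤ Real.log (gain m b P.mv (univ.biUnion W)) := by
  set G' : ι → Finset (Sym2 (Fin N)) := fun k =>
    (G k).filter (fun e => ∀ k', k' ≠ k → ∀ e' ∈ W k', tn e ≠ tn e') with hG'
  have hsubG : ∀ k, G' k ⊆ G k := fun k => filter_subset _ _
  -- the loss
  have hloss : ∑ k, (G k \ G' k).card ≤ cB := by
    have h1 : (univ.sigma (fun k => G k \ G' k)).card = ∑ k, (G k \ G' k).card := card_sigma _ _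
    rw [← h1]
    have h2 : univ.sigma (fun k => G k \ G' k) ⊆
        C.image (fun x => (⟨x.1.1, x.2.1⟩ : Σ _ : ι, Sym2 (Fin N))) := by
      rintro ⟨k, e⟩ hx
      rw [mem_sigma] at hx
      obtain ⟨h3, h4⟩ := mem_sdiff.1 hx.2
      have h5 : ∃ k', k' ≠ k ∧ ∃ e' ∈ W k', tn e = tn e' := by
        by_contra hcon
        push Not at hcon
        exact h4 (mem_filter.2 ⟨h3, hcon⟩)
      obtain ⟨k', hk', e', he', htn⟩ := h5
      rw [mem_image]
      exact ⟨((k, k'), (e, e')), hC k k' e e' hk'.symm (hG1 k h3) he' (hG2 k e h3) htn, rfl⟩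
    exact (card_le_card h2).trans (card_image_le.trans hcB)
  -- uniqueness of the index
  have huniq : ∀ k k' e, e ∈ G' k → e ∈ G' k' → k = k' := by
    intro k k' e he he'
    by_contra hne
    have h1 := (mem_filter.1 he).2 k' (fun h => hne h.symm) e (hG1 k' (hsubG k' he'))
    exact h1 rfl
  set S' : Finset (Sym2 (Fin N)) := univ.biUnion G' with hS'
  have hmemS : ∀ e, e ∈ S' ↔ ∃ k, e ∈ G' k := by
    intro e
    rw [hS', mem_biUnion]
    simp
  set col : Sym2 (Fin N) → Option (ι × Sym2 (Finset (Fin N))) := fun e =>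
    if h : ∃ k, e ∈ G' k then some (Classical.choose h, cp sm (f (Classical.choose h)) e)
      else none with hcol
  have hcolv : ∀ k e, e ∈ G' k → col e = some (k, cp sm (f k) e) := by
    intro k e he
    have h1 : ∃ k, e ∈ G' k := ⟨k, he⟩
    have h2 : col e = some (Classical.choose h1, cp sm (f (Classical.choose h1)) e) := by
      rw [hcol]
      simp only
      rw [dif_pos h1]
    have h3 := huniq _ _ e (Classical.choose_spec h1) he
    rw [h2, h3]
  have hSM : S' ⊆ uni P.mv := by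
    intro e he
    obtain ⟨k, hk⟩ := (hmemS e).1 he
    exact (htnM e (hG2 k e (hsubG k hk))).1
  have hmono : ∀ X ∈ P.mv, ∀ e ∈ S' ∩ X, ∀ e' ∈ S' ∩ X, col e = col e' := by
    intro X hX e he e' he'
    rw [mem_inter] at he he'
    obtain ⟨k, hk⟩ := (hmemS e).1 he.1
    obtain ⟨k', hk'⟩ := (hmemS e').1 he'.1
    have h1 := (htnM e (hG2 k e (hsubG k hk))).2
    have h2 := (htnM e' (hG2 k' e' (hsubG k' hk'))).2
    have h3 := tix_same P.mv hP.pw hX he.2 he'.2
    have h4 : tn e = tn e' := by rw [h1, h2, h3]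
    have h5 : k = k' := by
      by_contra hne
      exact (mem_filter.1 hk).2 k' (fun h => hne h.symm) e' (hG1 k' (hsubG k' hk')) h4
    subst h5
    rw [hcolv k e hk, hcolv k e' hk', hG3 k e (hsubG k hk) e' (hsubG k hk') h4]
  have hcost := cost_lemma (b := b) hm P.mv hP.card hP.pw S' hSM col hmono
  -- the sum over the colours
  have hcwv : ∀ k, cw m b sm (f k) (G' k) = ∑ x ∈ (G' k).image (cp sm (f k)),
      kap m b ((G' k).filter (fun e => cp sm (f k) e = x)).card := by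
    intro k
    unfold cw
    rfl
  have hsum : ∑ k, cw m b sm (f k) (G' k) ≤
      ∑ x ∈ S'.image col, kap m b (S'.filter (fun e => col e = x)).card := by
    have h1 : ∑ k, cw m b sm (f k) (G' k) =
        ∑ x ∈ univ.sigma (fun k => (G' k).image (cp sm (f k))),
          kap m b ((G' x.1).filter (fun e => cp sm (f x.1) e = x.2)).card := by
      rw [sum_sigma]
      exact sum_congr rfl fun k _ => hcwv k
    set φ : (Σ _ : ι, Sym2 (Finset (Fin N))) → Option (ι × Sym2 (Finset (Fin N))) :=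
      fun x => some (x.1, x.2) with hφ
    have hinj : Function.Injective φ := by
      rintro ⟨k, y⟩ ⟨k', y'⟩ h
      have h2 : (k, y) = (k', y') := Option.some.inj h
      rw [Prod.mk.injEq] at h2
      obtain ⟨rfl, rfl⟩ := h2
      rfl
    have h2 : ∑ x ∈ univ.sigma (fun k => (G' k).image (cp sm (f k))),
          kap m b ((G' x.1).filter (fun e => cp sm (f x.1) e = x.2)).card =
        ∑ x ∈ (univ.sigma (fun k => (G' k).image (cp sm (f k)))).image φ,
          kap m b (S'.filter (fun e => col e = x)).card := by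
      rw [sum_image (fun x _ y _ h => hinj h)]
      refine sum_congr rfl ?_
      rintro ⟨k, y⟩ _
      congr 2
      show (G' k).filter (fun e => cp sm (f k) e = y) =
        (S'.filter (fun e => col e = some (k, y)))
      ext e
      have hfl : e ∈ (G' k).filter (fun e => cp sm (f k) e = y) ↔ e ∈ G' k ∧ cp sm (f k) e = y :=
        mem_filter
      have hfr : e ∈ S'.filter (fun e => col e = some (k, y)) ↔ e ∈ S' ∧ col e = some (k, y) :=
        mem_filter
      rw [hfl, hfr, hmemS]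
      constructor
      · rintro ⟨h3, h4⟩
        refine ⟨⟨k, h3⟩, ?_⟩
        rw [hcolv k e h3, h4]
      · rintro ⟨⟨k', h3⟩, h4⟩
        rw [hcolv k' e h3] at h4
        have h5 : (k', cp sm (f k') e) = (k, y) := Option.some.inj h4
        rw [Prod.mk.injEq] at h5
        obtain ⟨h6, h7⟩ := h5
        subst h6
        exact ⟨h3, h7⟩
    rw [h1, h2]
    refine sum_le_sum_of_subset_of_nonneg ?_ (fun x _ _ => kap_nonneg _ _ _)
    intro x hx
    rw [mem_image] at hx
    obtain ⟨⟨k, y⟩, hy, rfl⟩ := hx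
    rw [mem_sigma] at hy
    obtain ⟨e, he, hey⟩ := mem_image.1 hy.2
    rw [mem_image]
    refine ⟨e, (hmemS e).2 ⟨k, he⟩, ?_⟩
    rw [hcolv k e he]
    simp only at hey
    rw [hey]
  have hlow : (Fintype.card ι : ℝ) * c - cB * lam m b 1 ≤ ∑ k, cw m b sm (f k) (G' k) := by
    have h1 : ∀ k, (c : ℝ) - ((G k \ G' k).card : ℝ) * lam m b 1 ≤ cw m b sm (f k) (G' k) := by
      intro k
      have h2 := cw_le_sdiff (b := b) hm sm (f k) (hsubG k)
      linarith [hG4 k]
    have h2 : ∑ k : ι, ((c : ℝ) - ((G k \ G' k).card : ℝ) * lam m b 1) ≤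
        ∑ k, cw m b sm (f k) (G' k) := sum_le_sum fun k _ => h1 k
    rw [sum_sub_distrib, ← sum_mul, sum_const, card_univ, nsmul_eq_mul] at h2
    have h3 : (∑ k, ((G k \ G' k).card : ℝ)) ≤ cB := by exact_mod_cast hloss
    have h4 := mul_le_mul_of_nonneg_right h3 (lam_nonneg m b 1)
    linarith
  have hSS : S' ⊆ univ.biUnion W := by
    intro e he
    obtain ⟨k, hk⟩ := (hmemS e).1 he
    exact mem_biUnion.2 ⟨k, mem_univ _, hG1 k (hsubG k hk)⟩
  have hfin : Real.log (gain m b P.mv S') ≤ Real.log (gain m b P.mv (univ.biUnion W)) :=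
    Real.log_le_log (by linarith [one_le_gain m b P.mv S']) (gain_mono m b P.mv hSS)
  linarith

open Classical in
private theorem gs_mem_coll {V ι : Type*} [DecidableEq V] [Fintype V] [Fintype ι] (d : Dat V)
    (K i : ℕ) (f : ι → Finset V) (k k' : ι) (e e' : Sym2 V) (h : k ≠ k')
    (he : e ∈ wp d K i (f k)) (he' : e' ∈ wp d K i (f k')) (h2 : 2 ≤ d.tn e)
    (h3 : d.tn e = d.tn e') : ((k, k'), (e, e')) ∈ coll d K i f := by
  unfold coll
  exact mem_filter.2 ⟨mem_univ _, h, he, he', h2, h3⟩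

theorem gain_seq {N m b : ℕ} (hm : 1 ≤ m) {P : Pos (Sym2 (Fin N))} (hP : GP m (edges N) P)
    {Y : Sys} {l nb nt Δ nZ : ℕ} {τ : ℕ → ℕ} {d : Dat (Fin N)}
    (hd : DatOK P Y nb nt Δ nZ τ d) {f : Idx Y.r0 Y.R (l + 1) → Finset (Fin N)}
    (hf : SeqP m b Y (l + 1) d f) :
    Disjoint (SSf d Y.K (Y.i (l + 1)) f) P.B ∧
      (Y.rr (l + 1) : ℝ) * Y.c l - Y.cB l * lam m b 1 ≤
        Real.log (gain m b P.mv (SSf d Y.K (Y.i (l + 1)) f)) := by
  classical
  obtain ⟨_, hgood, hcoll, _⟩ := hf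
  constructor
  · rw [Finset.disjoint_left]
    intro e he
    rw [SSf, mem_biUnion] at he
    obtain ⟨k, -, hk⟩ := he
    exact hd.tnB e ((hgood k).1 e hk)
  · choose _ G hG1 hG2 hG3 hG4 using hgood
    have hcard : Fintype.card (Idx Y.r0 Y.R (l + 1)) = Y.rr (l + 1) := card_idx _ _ _
    rw [← hcard]
    unfold SSf
    refine gs_core hm hP d.tn d.sm f (fun k => wp d Y.K (Y.i (l + 1)) (f k)) (Y.c l) (Y.cB l)
      hd.tnM G hG1 hG2 hG3 hG4 (coll d Y.K (Y.i (l + 1)) f) ?_ hcoll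
    intro k k' e e' hne he he' h2 htn
    exact gs_mem_coll d _ _ f k k' e e' hne he he' h2 htn

end Pool.Agent.Helper5.CV
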