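import Mathlib
import Pool.Agent.Helper5.CV.Defs
import Pool.Agent.Helper5.CV.DatSum
import Pool.Agent.Helper5.CV.ResD
import Pool.Agent.Helper5.CV.GainSeq
import Pool.Agent.Helper5.CV.CostL

/-!
# MP_d32cb0_co, module L06: one level

PROOF.  `ξ = resD d (Y.i (l+1))`, `x` its name (`exists_name`; `ξ` satisfies `DatOK`: `datOK_resD`).  `a = (N^10)⁻¹`.
`pot ≥ Σ_{S disjoint from P.B} a^{size ξ} (#{f : SeqQ ξ f, SSf ξ f = S} / #Q) gain S` (`#Q = #{f : SeqQ ξ f}`; drop the other names; all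
terms are nonnegative) `≥ a^{size ξ}/#Q · Σ_{f : SeqP (l+1) d f} gain (SSf ξ f)`: such `f` satisfy `SeqQ ξ` (`seqQ_of_seqP`),
`SSf ξ f = SSf d f` (`wp_resD` with `i = j`, the points of `f k` are low by `SeqN`), disjoint from `P.B` and
`gain ≥ exp(rr c - cB Λ_1)` (`gain_seq`).  `size ξ ≤ τ l`, so `a^{size ξ} ≥ (N^10)^{-τ l}` (`N ≥ 1`).
If `#Q = 0` there is no `f` with `SeqP`.
-/

set_option autoImplicit false

namespace Pool.Agent.Helper5.CV

open Finset Pool.Agent.Helper25.CliqueGame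
open Pool.Agent.Helper78.CG (EI)

open Classical in
private theorem lv_count {N m b : ℕ} {P : Pos (Sym2 (Fin N))} {ι : Type*} [Fintype ι]
    (F Q : Finset (ι → Finset (Fin N))) (g : (ι → Finset (Fin N)) → Finset (Sym2 (Fin N)))
    (hFQ : F ⊆ Q) (hdj : ∀ f ∈ F, Disjoint (g f) P.B) {E : ℝ}
    (hE : ∀ f ∈ F, Real.exp E ≤ gain m b P.mv (g f)) (w : Finset (Sym2 (Fin N)) → ℝ) {A : ℝ}
    (hA : 0 ≤ A) (hw : ∀ S, A * ((Q.filter (fun f => g f = S)).card : ℝ) ≤ w S) :
    A * ((F.card : ℝ) * Real.exp E) ≤ pot m b w P := by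
  set T := univ.filter (fun S : Finset (Sym2 (Fin N)) => Disjoint S P.B) with hT
  have h1 : (F.card : ℝ) * Real.exp E ≤ ∑ f ∈ F, gain m b P.mv (g f) := by
    rw [← nsmul_eq_mul]
    exact card_nsmul_le_sum F _ _ hE
  have h2 : ∑ f ∈ F, gain m b P.mv (g f) =
      ∑ S ∈ T, ∑ f ∈ F.filter (fun f => g f = S), gain m b P.mv (g f) := by
    refine (sum_fiberwise_of_maps_to (fun f hf => ?_) _).symm
    exact mem_filter.2 ⟨mem_univ _, hdj f hf⟩
  have h3 : ∀ S, ∑ f ∈ F.filter (fun f => g f = S), gain m b P.mv (g f) =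
      ((F.filter (fun f => g f = S)).card : ℝ) * gain m b P.mv S := by
    intro S
    rw [sum_congr rfl (fun f hf => by rw [(mem_filter.1 hf).2] :
      ∀ f ∈ F.filter (fun f => g f = S), gain m b P.mv (g f) = gain m b P.mv S), sum_const,
      nsmul_eq_mul]
  have h4 : pot m b w P = ∑ S ∈ T, w S * gain m b P.mv S := by
    unfold pot
    refine sum_congr ?_ fun _ _ => rfl
    ext S
    simp [hT]
  rw [h4]
  calc A * ((F.card : ℝ) * Real.exp E) ≤ A * ∑ f ∈ F, gain m b P.mv (g f) :=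
        mul_le_mul_of_nonneg_left h1 hA
    _ = ∑ S ∈ T, A * (((F.filter (fun f => g f = S)).card : ℝ) * gain m b P.mv S) := by
        rw [h2, mul_sum]
        exact sum_congr rfl fun S _ => by rw [h3 S]
    _ ≤ ∑ S ∈ T, w S * gain m b P.mv S := by
        refine sum_le_sum fun S _ => ?_
        have h5 : ((F.filter (fun f => g f = S)).card : ℝ) ≤
            ((Q.filter (fun f => g f = S)).card : ℝ) := by
          exact_mod_cast card_le_card (filter_subset_filter _ hFQ)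
        have h6 := one_le_gain m b P.mv S
        have h7 : A * ((F.filter (fun f => g f = S)).card : ℝ) ≤ w S :=
          (mul_le_mul_of_nonneg_left h5 hA).trans (hw S)
        calc A * (((F.filter (fun f => g f = S)).card : ℝ) * gain m b P.mv S)
            = (A * ((F.filter (fun f => g f = S)).card : ℝ)) * gain m b P.mv S := by ring
          _ ≤ w S * gain m b P.mv S := mul_le_mul_of_nonneg_right h7 (by linarith)

open Classical in
theorem level_count {N m b : ℕ} (hm : 1 ≤ m) (hN : 1 ≤ N) {P : Pos (Sym2 (Fin N))}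
    (hP : GP m (edges N) P) {Y : Sys} {l nb nt Δ nZ : ℕ} {τ : ℕ → ℕ} {d : Dat (Fin N)}
    (hd : DatOK P Y nb nt Δ nZ τ d) {C' : ℝ}
    (hpot : pot m b (wlev m b Y l nb nt) P ≤ C') :
    ((univ.filter (fun f : Idx Y.r0 Y.R (l + 1) → Finset (Fin N) =>
        SeqP m b Y (l + 1) d f)).card : ℝ) *
      Real.exp ((Y.rr (l + 1) : ℝ) * Y.c l - Y.cB l * lam m b 1) ≤
    C' * ((N : ℝ) ^ 10) ^ (τ l) *
      (univ.filter (fun f : Idx Y.r0 Y.R (l + 1) → Finset (Fin N) =>
        SeqQ m b Y l (resD d (Y.i (l + 1))) f)).card := by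
  have hξok := datOK_resD hd (Y.i (l + 1))
  obtain ⟨x, hx⟩ := exists_name (nb := nb) (nt := nt) (resD d (Y.i (l + 1))) hξok.bkn hξok.tnn
  have hsz := hd.size l
  set ξ := resD d (Y.i (l + 1)) with hξ
  set Q := univ.filter (fun f : Idx Y.r0 Y.R (l + 1) → Finset (Fin N) => SeqQ m b Y l ξ f) with hQ
  set F := univ.filter (fun f : Idx Y.r0 Y.R (l + 1) → Finset (Fin N) =>
    SeqP m b Y (l + 1) d f) with hF
  set E := (Y.rr (l + 1) : ℝ) * Y.c l - Y.cB l * lam m b 1 with hEd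
  have hFQ : F ⊆ Q := fun f hf =>
    mem_filter.2 ⟨mem_univ _, seqQ_of_seqP m b Y l d f (mem_filter.1 hf).2⟩
  have hNr : (1 : ℝ) ≤ (N : ℝ) ^ 10 := one_le_pow₀ (by exact_mod_cast hN)
  rcases Nat.eq_zero_or_pos Q.card with h0 | hpos
  · have hF0 : F.card = 0 := Nat.le_zero.1 (h0 ▸ card_le_card hFQ)
    rw [hF0, h0]
    simp
  have hQr : (0 : ℝ) < (Q.card : ℝ) := by exact_mod_cast hpos
  have hssf : ∀ f ∈ F, SSf ξ Y.K (Y.i (l + 1)) f = SSf d Y.K (Y.i (l + 1)) f := by
    intro f hf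
    have hfP := (mem_filter.1 hf).2
    simp only [SeqP] at hfP
    unfold SSf
    refine biUnion_congr rfl fun k _ => ?_
    exact wp_resD d le_rfl (hfP.1 k).2.1
  have hA : (0 : ℝ) ≤ ((N : ℝ) ^ 10)⁻¹ ^ size ξ / Q.card := by positivity
  have key := lv_count (m := m) (b := b) (P := P) F Q (fun f => SSf ξ Y.K (Y.i (l + 1)) f) hFQ
    (E := E) (fun f hf => by
      have h1 := (gain_seq hm hP hd (mem_filter.1 hf).2).1
      rw [hssf f hf]
      exact h1)
    (fun f hf => by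
      have h1 := (gain_seq hm hP hd (mem_filter.1 hf).2).2
      rw [hssf f hf]
      have h2 := one_le_gain m b P.mv (SSf d Y.K (Y.i (l + 1)) f)
      rw [← Real.exp_log (show (0 : ℝ) < gain m b P.mv (SSf d Y.K (Y.i (l + 1)) f) by linarith)]
      exact Real.exp_le_exp.2 h1)
    (wlev m b Y l nb nt) hA (fun S => by
      unfold wlev
      have h1 := single_le_sum (f := fun x : DatF (Fin N) nb nt =>
        ((N : ℝ) ^ 10)⁻¹ ^ size (toDat x) *
        (((univ.filter (fun f : Idx Y.r0 Y.R (l + 1) → Finset (Fin N) =>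
          SeqQ m b Y l (toDat x) f ∧ SSf (toDat x) Y.K (Y.i (l + 1)) f = S)).card : ℝ) /
          (univ.filter (fun f : Idx Y.r0 Y.R (l + 1) → Finset (Fin N) =>
            SeqQ m b Y l (toDat x) f)).card)) (s := univ)
        (fun y _ => by positivity) (mem_univ x)
      refine le_trans (le_of_eq ?_) h1
      rw [hx, hQ, filter_filter]
      ring)
  have hkey2 := key.trans hpot
  have hinv : ((N : ℝ) ^ 10)⁻¹ ^ size ξ / Q.card * (((N : ℝ) ^ 10) ^ size ξ * Q.card) = 1 := by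
    rw [inv_pow]
    have h1 : (0 : ℝ) < ((N : ℝ) ^ 10) ^ size ξ := by positivity
    field_simp
  have hFE : (0 : ℝ) ≤ (F.card : ℝ) * Real.exp E := by positivity
  have hC : 0 ≤ C' := le_trans (mul_nonneg hA hFE) hkey2
  calc (F.card : ℝ) * Real.exp E
      = (((N : ℝ) ^ 10)⁻¹ ^ size ξ / Q.card * ((F.card : ℝ) * Real.exp E)) *
          (((N : ℝ) ^ 10) ^ size ξ * Q.card) := by
        rw [mul_right_comm, hinv, one_mul]
    _ ≤ C' * (((N : ℝ) ^ 10) ^ size ξ * Q.card) :=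
        mul_le_mul_of_nonneg_right hkey2 (by positivity)
    _ ≤ C' * (((N : ℝ) ^ 10) ^ (τ l) * Q.card) := by
        refine mul_le_mul_of_nonneg_left ?_ hC
        exact mul_le_mul_of_nonneg_right (pow_le_pow_right₀ hNr hsz) hQr.le
    _ = C' * ((N : ℝ) ^ 10) ^ (τ l) * Q.card := by ring

end Pool.Agent.Helper5.CV
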