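import Mathlib
import Pool.Agent.Helper5.CV.Defs
import Pool.Agent.Helper5.CV.ResD
import Pool.Agent.Helper5.CV.CountQ
import Pool.Agent.Helper5.CV.Level

/-!
# MP_d32cb0_co, module L07: Theorem L (the recursion)

`A_l = Σ_{j<l} (t_j ln nZ - c_j + err)`.
PROOF of `count_le`: induction on `l`.  `l = 0`: the only `f` with `SeqP 0` is `∅`: count `1 = exp 0` (`≤ 1`).
Step: let `d` be `DatOK`, `ξ = resD d (Y.i (l+1))` (`datOK_resD`).  Induction hypothesis for `ξ`: `#{SeqP l ξ} ≤ exp(rr l · A_l)`.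
If `A_l < 0` (so `rr l A_l < 0`, `rr l ≥ 1`: if `rr l = 0`… `r0 ≥ 1`, `R ≥ 1`), the count is `< 1`, i.e. no `g` satisfies `SeqP l ξ`; then in
`SeqP (l+1) d f` all `R > bB` blocks would be bad: there is no such `f`, count `0`.  If `A_l ≥ 0`: `E = exp(rr l A_l) ≥ 1`,
`card_seqQ_le` (for `ξ`) and `level_count` give, after taking logarithms (count `> 0` w.l.o.g.)
`log count ≤ -rr(l+1) c_l + cB Λ_1 + log C' + 10 τ_l log N + R log 2 + R rr l A_l + q rr l bB log(N+1)
 + rr(l+1) (log(q+1) + t_l log nZ + q log(qΔ+1))`, `R rr l = rr (l+1)`, and `herr` finishes.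
`nonneg_of_seq`: count `≥ 1` gives `0 ≤ rr tp · A_tp`, `rr tp ≥ 1`.
-/

set_option autoImplicit false

namespace Pool.Agent.Helper5.CV

open Finset Pool.Agent.Helper25.CliqueGame
open Pool.Agent.Helper78.CG (EI)

private theorem pow_eq_exp {a : ℝ} (ha : 0 < a) (n : ℕ) :
    a ^ n = Real.exp ((n : ℝ) * Real.log a) := by
  rw [Real.exp_nat_mul, Real.exp_log ha]

private theorem rr_pos {Y : Sys} (hbB : Y.bB < Y.R) (hr0 : 1 ≤ Y.r0) (l : ℕ) : 1 ≤ Y.rr l := by
  unfold Sys.rr
  have h1 : 0 < Y.R := by omega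
  exact Nat.mul_pos (pow_pos h1 l) hr0

open Classical in
theorem count_le {N m b : ℕ} (hm : 1 ≤ m) (hN : 1 ≤ N) {P : Pos (Sym2 (Fin N))}
    (hP : GP m (edges N) P) {Y : Sys} {nb nt Δ nZ tp : ℕ} {τ : ℕ → ℕ} {C' err : ℝ}
    (hC' : 1 ≤ C') (hbB : Y.bB < Y.R) (hr0 : 1 ≤ Y.r0) (hnZ : 1 ≤ nZ)
    (hpot : ∀ l < tp, pot m b (wlev m b Y l nb nt) P ≤ C')
    (herr : ∀ l < tp, Y.cB l * lam m b 1 + Real.log C' + 10 * τ l * Real.log N +
      Y.R * Real.log 2 + Y.q * (Y.rr l * Y.bB : ℕ) * Real.log (N + 1) +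
      Y.rr (l + 1) * (Real.log (Y.q + 1) + Y.q * Real.log (Y.q * Δ + 1)) ≤
        Y.rr (l + 1) * err) :
    ∀ l ≤ tp, ∀ d : Dat (Fin N), DatOK P Y nb nt Δ nZ τ d →
      ((univ.filter (fun f : Idx Y.r0 Y.R l → Finset (Fin N) => SeqP m b Y l d f)).card : ℝ) ≤
        Real.exp (Y.rr l * ∑ j ∈ range l, ((Y.t j : ℝ) * Real.log nZ - Y.c j + err)) := by
  intro l
  induction l with
  | zero =>
    intro _ d _
    rw [range_zero, sum_empty, mul_zero, Real.exp_zero]
    have h1 : (univ.filter (fun f : Idx Y.r0 Y.R 0 → Finset (Fin N) =>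
        SeqP m b Y 0 d f)).card ≤ 1 := by
      rw [card_le_one]
      intro f hf g hg
      have hf' : ∀ k, f k = ∅ := by
        have := (mem_filter.1 hf).2
        simpa only [SeqP] using this
      have hg' : ∀ k, g k = ∅ := by
        have := (mem_filter.1 hg).2
        simpa only [SeqP] using this
      funext k
      rw [hf' k, hg' k]
    exact_mod_cast h1
  | succ l ih =>
    intro hl d hd
    have hlt : l < tp := by omega
    set ξ := resD d (Y.i (l + 1)) with hξd
    have hξ : DatOK P Y nb nt Δ nZ τ ξ := datOK_resD hd _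
    have hIH := ih (by omega) ξ hξ
    set A : ℝ := ∑ j ∈ range l, ((Y.t j : ℝ) * Real.log nZ - Y.c j + err) with hA
    have hrr : (1 : ℝ) ≤ Y.rr l := by exact_mod_cast rr_pos hbB hr0 l
    by_cases hA0 : A < 0
    · -- no sequence
      have h1 : ((univ.filter (fun g : Idx Y.r0 Y.R l → Finset (Fin N) =>
          SeqP m b Y l ξ g)).card : ℝ) < 1 := by
        refine hIH.trans_lt ?_
        rw [← Real.exp_zero]
        apply Real.exp_lt_exp.2
        nlinarith
      have h2 : (univ.filter (fun g : Idx Y.r0 Y.R l → Finset (Fin N) =>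
          SeqP m b Y l ξ g)).card = 0 := by
        have h3 : (univ.filter (fun g : Idx Y.r0 Y.R l → Finset (Fin N) =>
          SeqP m b Y l ξ g)).card < 1 := by exact_mod_cast h1
        omega
      have h4 : ∀ g : Idx Y.r0 Y.R l → Finset (Fin N), ¬ SeqP m b Y l ξ g := by
        intro g hg
        have h5 := card_eq_zero.1 h2
        have h6 : g ∈ (∅ : Finset (Idx Y.r0 Y.R l → Finset (Fin N))) := by
          rw [← h5]
          exact mem_filter.2 ⟨mem_univ _, hg⟩
        exact absurd h6 (notMem_empty _)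
      have h7 : (univ.filter (fun f : Idx Y.r0 Y.R (l + 1) → Finset (Fin N) =>
          SeqP m b Y (l + 1) d f)).card = 0 := by
        rw [card_eq_zero, filter_eq_empty_iff]
        intro f _ hf
        simp only [SeqP] at hf
        have h8 := hf.2.2.2
        have h9 : (univ : Finset (Fin Y.R)).card ≤ Y.bB := by
          refine (card_le_card fun j _ => ?_).trans h8
          exact mem_filter.2 ⟨mem_univ _, h4 _⟩
        rw [card_univ, Fintype.card_fin] at h9
        omega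
      rw [h7]
      rw [Nat.cast_zero]
      exact (Real.exp_pos _).le
    · push Not at hA0
      have hE : 1 ≤ Real.exp (Y.rr l * A) := by
        rw [← Real.exp_zero]
        apply Real.exp_le_exp.2
        have : (0 : ℝ) ≤ Y.rr l := by linarith
        positivity
      have hQ := card_seqQ_le m b Y l ξ (Δ := Δ) (nZ := nZ) hξ.deg hξ.card hE hIH
      rw [Fintype.card_fin] at hQ
      have hL := level_count hm hN hP hd (hpot l hlt)
      have hN0 : (0 : ℝ) < N := by exact_mod_cast hN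
      have hnZ0 : (0 : ℝ) < nZ := by exact_mod_cast hnZ
      have hC0 : (0 : ℝ) < C' := by linarith
      have hq0 : (0 : ℝ) < (Y.q : ℝ) + 1 := by positivity
      have hqD : (0 : ℝ) < (Y.q : ℝ) * Δ + 1 := by positivity
      have hN1 : (0 : ℝ) < (N : ℝ) + 1 := by positivity
      have hQ' : ((univ.filter (fun f : Idx Y.r0 Y.R (l + 1) → Finset (Fin N) =>
          SeqQ m b Y l ξ f)).card : ℝ) ≤
          Real.exp ((Y.R : ℝ) * Real.log 2 + (Y.R : ℝ) * (Y.rr l * A) +
            ((Y.rr l * Y.bB : ℕ) : ℝ) * ((Y.q : ℝ) * Real.log (N + 1)) +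
            (Y.rr (l + 1) : ℝ) * (Real.log (Y.q + 1) + (Y.t l : ℝ) * Real.log nZ +
              (Y.q : ℝ) * Real.log (Y.q * Δ + 1))) := by
        refine hQ.trans (le_of_eq ?_)
        rw [Real.exp_add, Real.exp_add, Real.exp_add]
        congr 1
        · congr 1
          · congr 1
            · exact pow_eq_exp two_pos _
            · exact (Real.exp_nat_mul _ _).symm
          · rw [Real.exp_nat_mul, Real.exp_nat_mul, Real.exp_log hN1]
        · rw [Real.exp_nat_mul, Real.exp_add, Real.exp_add, Real.exp_nat_mul, Real.exp_nat_mul,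
            Real.exp_log hq0, Real.exp_log hnZ0, Real.exp_log hqD]
      have hC : C' * ((N : ℝ) ^ 10) ^ (τ l) =
          Real.exp (Real.log C' + 10 * τ l * Real.log N) := by
        rw [Real.exp_add, Real.exp_log hC0]
        congr 1
        rw [← pow_mul, pow_eq_exp hN0]
        congr 1
        push_cast
        ring
      have hfin : ((univ.filter (fun f : Idx Y.r0 Y.R (l + 1) → Finset (Fin N) =>
          SeqP m b Y (l + 1) d f)).card : ℝ) *
          Real.exp ((Y.rr (l + 1) : ℝ) * Y.c l - Y.cB l * lam m b 1) ≤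
          Real.exp (Real.log C' + 10 * τ l * Real.log N) *
          Real.exp ((Y.R : ℝ) * Real.log 2 + (Y.R : ℝ) * (Y.rr l * A) +
            ((Y.rr l * Y.bB : ℕ) : ℝ) * ((Y.q : ℝ) * Real.log (N + 1)) +
            (Y.rr (l + 1) : ℝ) * (Real.log (Y.q + 1) + (Y.t l : ℝ) * Real.log nZ +
              (Y.q : ℝ) * Real.log (Y.q * Δ + 1))) := by
        refine hL.trans ?_
        rw [hC]
        exact mul_le_mul_of_nonneg_left hQ' (Real.exp_pos _).le
      rw [← Real.exp_add] at hfin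
      have hfin2 : ((univ.filter (fun f : Idx Y.r0 Y.R (l + 1) → Finset (Fin N) =>
          SeqP m b Y (l + 1) d f)).card : ℝ) ≤
          Real.exp ((Real.log C' + 10 * τ l * Real.log N + ((Y.R : ℝ) * Real.log 2 +
            (Y.R : ℝ) * (Y.rr l * A) +
            ((Y.rr l * Y.bB : ℕ) : ℝ) * ((Y.q : ℝ) * Real.log (N + 1)) +
            (Y.rr (l + 1) : ℝ) * (Real.log (Y.q + 1) + (Y.t l : ℝ) * Real.log nZ +
              (Y.q : ℝ) * Real.log (Y.q * Δ + 1)))) -
            ((Y.rr (l + 1) : ℝ) * Y.c l - Y.cB l * lam m b 1)) := by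
        rw [Real.exp_sub, le_div_iff₀ (Real.exp_pos _)]
        exact hfin
      refine hfin2.trans (Real.exp_le_exp.2 ?_)
      rw [sum_range_succ, ← hA]
      have hrr1 : (Y.rr (l + 1) : ℝ) = (Y.R : ℝ) * Y.rr l := by
        unfold Sys.rr
        push_cast
        ring
      have h1 := herr l hlt
      have h2 : (Y.R : ℝ) * (Y.rr l * A) = (Y.rr (l + 1) : ℝ) * A := by
        rw [hrr1]
        ring
      rw [h2]
      nlinarith [h1]

theorem nonneg_of_seq {N m b : ℕ} (hm : 1 ≤ m) (hN : 1 ≤ N) {P : Pos (Sym2 (Fin N))}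
    (hP : GP m (edges N) P) {Y : Sys} {nb nt Δ nZ tp : ℕ} {τ : ℕ → ℕ} {C' err : ℝ}
    (hC' : 1 ≤ C') (hbB : Y.bB < Y.R) (hr0 : 1 ≤ Y.r0) (hnZ : 1 ≤ nZ)
    (hpot : ∀ l < tp, pot m b (wlev m b Y l nb nt) P ≤ C')
    (herr : ∀ l < tp, Y.cB l * lam m b 1 + Real.log C' + 10 * τ l * Real.log N +
      Y.R * Real.log 2 + Y.q * (Y.rr l * Y.bB : ℕ) * Real.log (N + 1) +
      Y.rr (l + 1) * (Real.log (Y.q + 1) + Y.q * Real.log (Y.q * Δ + 1)) ≤
        Y.rr (l + 1) * err)
    {d : Dat (Fin N)} (hd : DatOK P Y nb nt Δ nZ τ d)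
    (hf : ∃ f : Idx Y.r0 Y.R tp → Finset (Fin N), SeqP m b Y tp d f) :
    0 ≤ ∑ j ∈ range tp, ((Y.t j : ℝ) * Real.log nZ - Y.c j + err) := by
  classical
  obtain ⟨f, hf⟩ := hf
  have h1 := count_le hm hN hP hC' hbB hr0 hnZ hpot herr tp le_rfl d hd
  have h2 : 1 ≤ (univ.filter (fun f : Idx Y.r0 Y.R tp → Finset (Fin N) =>
      SeqP m b Y tp d f)).card := card_pos.2 ⟨f, mem_filter.2 ⟨mem_univ _, hf⟩⟩
  have h3 : (1 : ℝ) ≤ ((univ.filter (fun f : Idx Y.r0 Y.R tp → Finset (Fin N) =>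
      SeqP m b Y tp d f)).card : ℝ) := by exact_mod_cast h2
  have h4 : (1 : ℝ) ≤
      Real.exp (Y.rr tp * ∑ j ∈ range tp, ((Y.t j : ℝ) * Real.log nZ - Y.c j + err)) := by
    refine h3.trans ?_
    convert h1
  have h5 : 0 ≤ (Y.rr tp : ℝ) * ∑ j ∈ range tp, ((Y.t j : ℝ) * Real.log nZ - Y.c j + err) :=
    Real.one_le_exp_iff.1 h4
  have h6 : (0 : ℝ) < Y.rr tp := by exact_mod_cast rr_pos hbB hr0 tp
  exact nonneg_of_mul_nonneg_right h5 h6

end Pool.Agent.Helper5.CV
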