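import Mathlib
import Pool.Agent.Helper5.CV.Defs
import Pool.Agent.Helper5.CV.ResD
import Pool.Agent.Helper5.CV.BlockM
import Pool.Agent.Helper5.CV.CollE

/-!
# MP_d32cb0_co, module S03: sampling

`h l B = old d (Y.i l) (A B)`.
PROOF.  Claim (induction on `l ≤ tp`): the number of `F : Idx l → 𝒞` with `¬ SeqP m b Y l (resD d (Y.i (l+1))) (fun k => h l (F k))` is
`≤ p l · |𝒞|^{rr l}`.  `l = 0`: `h 0 B = ∅` by `h0`: no bad `F`.
Step: put `D = resD d (Y.i (l+2))` (`Y.i (l+2) = Y.i (l+1) + K`), `f k = h (l+1) (F k)`; its points satisfy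
`1 ≤ bk`, `bk + 3 ≤ Y.i (l+1)`.  `SeqN Y l D f`: `seqN_resD`, `h1`.  `GoodC … D …`: `goodC_resD`, `h1`.
`coll D … f = coll d … f` (`coll_resD`).  Blocks: `resD D (Y.i (l+1)) = resD d (Y.i (l+1))` (`resD_resD`),
`old D (Y.i l) (f (j,k)) = old d (Y.i l) (A (F (j,k)))` (`old_resD`, `old_old`), so the block `j` is bad iff `F (j,·)` is bad for the
level `l`.  Hence `F` is bad only if `#coll > cB l` or more than `bB` blocks are bad.  The first: by `sum_coll_le` and Markov the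
number is `≤ rr(l+1)² q² m pm_l |𝒞|^{rr(l+1)}/(cB l + 1) ≤ ε |𝒞|^{rr (l+1)}` (`hcol`); the second: `block_markov`:
`≤ p l · R/(bB+1) |𝒞|^{rr (l+1)}`.  So `p (l+1) = ε + p l R/(bB+1)` works.
At `l = tp`: `p tp < 1` and `𝒞` nonempty: some `F` is good.  (`card_idx`.)
-/

set_option autoImplicit false

namespace Pool.Agent.Helper5.CV

open Finset

/-- The set of bad functions at the level `l`. -/
private def BadF {V : Type*} [DecidableEq V] [Fintype V] (m b : ℕ) (Y : Sys)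
    (𝒞 : Finset (Finset V)) (A : Finset V → Finset V) (d : Dat V) (l : ℕ)
    (F : Idx Y.r0 Y.R l → {B // B ∈ 𝒞}) : Prop :=
  ¬ SeqP m b Y l (resD d (Y.i (l + 1))) (fun k => old d (Y.i l) (A (F k).1))

open Classical in
private theorem samp_step {V : Type*} [DecidableEq V] [Fintype V] (m b : ℕ) (Y : Sys)
    (𝒞 : Finset (Finset V)) (A : Finset V → Finset V) (d : Dat V) (l : ℕ)
    (h1 : ∀ B ∈ 𝒞, (old d (Y.i (l + 1)) (A B)).card ≤ Y.q ∧
      Gen d.sm (Y.t l) (nw d Y.K (Y.i (l + 1)) (old d (Y.i (l + 1)) (A B))) ∧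
      GoodC m b d Y.K (Y.i (l + 1)) (Y.c l) (old d (Y.i (l + 1)) (A B)))
    (F : Idx Y.r0 Y.R (l + 1) → {B // B ∈ 𝒞}) (hF : BadF m b Y 𝒞 A d (l + 1) F) :
    Y.cB l < (coll d Y.K (Y.i (l + 1)) (fun k => old d (Y.i (l + 1)) (A (F k).1))).card ∨
      Y.bB < Nat.card {j : Fin Y.R // ¬ ¬ BadF m b Y 𝒞 A d l (fun k => F (j, k))} := by
  by_contra hcon
  rw [not_or, not_lt, not_lt] at hcon
  obtain ⟨hc1, hc2⟩ := hcon
  apply hF
  have hi01 : Y.i l ≤ Y.i (l + 1) := by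
    unfold Sys.i
    exact Nat.add_le_add_left (Nat.mul_le_mul_left _ (Nat.le_succ l)) _
  have hi12 : Y.i (l + 1) + Y.K = Y.i (l + 1 + 1) := by
    unfold Sys.i
    ring
  have hi12' : Y.i (l + 1) ≤ Y.i (l + 1 + 1) := by omega
  have hpt : ∀ k : Idx Y.r0 Y.R (l + 1), ∀ v ∈ old d (Y.i (l + 1)) (A (F k).1),
      1 ≤ d.bk v ∧ d.bk v + 3 ≤ Y.i (l + 1) := fun k v hv => (mem_filter.1 hv).2
  have hN : SeqN Y l d (fun k => old d (Y.i (l + 1)) (A (F k).1)) := fun k =>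
    ⟨(h1 _ (F k).2).1, hpt k, (h1 _ (F k).2).2.1⟩
  have hfun : ∀ j : Fin Y.R,
      (fun k : Idx Y.r0 Y.R l => old (resD d (Y.i (l + 1 + 1))) (Y.i l)
        (old d (Y.i (l + 1)) (A (F (j, k)).1))) =
        fun k => old d (Y.i l) (A (F (j, k)).1) := by
    intro j
    funext k
    rw [old_resD d (hi01.trans hi12'), old_old d hi01]
  simp only [SeqP]
  refine ⟨(seqN_resD Y l d _ hi12').2 hN, fun k => ?_, ?_, ?_⟩
  · exact (goodC_resD m b d hi12.le (hpt k)).2 (h1 _ (F k).2).2.2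
  · rw [coll_resD d hi12.le _ hpt]
    exact hc1
  · rw [Nat.card_eq_fintype_card, Fintype.card_subtype] at hc2
    refine (card_le_card fun j hj => ?_).trans hc2
    have hj2 := (mem_filter.1 hj).2
    rw [resD_resD d hi12'] at hj2
    have h3 : (fun k : Idx Y.r0 Y.R l => old (resD d (Y.i (l + 1 + 1))) (Y.i l)
        (old d (Y.i (l + 1)) (A (F (j, k)).1))) = _ := hfun j
    rw [mem_filter]
    refine ⟨mem_univ _, not_not.2 ?_⟩
    intro h4
    apply hj2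
    have h5 : SeqP m b Y l (resD d (Y.i (l + 1)))
      (fun k => old (resD d (Y.i (l + 1 + 1))) (Y.i l)
        (old d (Y.i (l + 1)) (A (F (j, k)).1))) := by
      rw [h3]
      exact h4
    exact h5

open Classical in
private theorem block_markov' {Ω ι : Type*} [Finite Ω] [Finite ι] (R bB : ℕ) (Q : (ι → Ω) → Prop)
    {p : ℝ} (hp : (Nat.card {g : ι → Ω // ¬ Q g} : ℝ) ≤ p * Nat.card (ι → Ω)) :
    (Nat.card {F : Fin R × ι → Ω //
        bB < Nat.card {j : Fin R // ¬ Q (fun k => F (j, k))}} : ℝ) *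
      (bB + 1) ≤ p * R * Nat.card (Fin R × ι → Ω) := by
  haveI := Fintype.ofFinite Ω
  haveI := Fintype.ofFinite ι
  have h := block_markov (Ω := Ω) (ι := ι) R bB Q (p := p) (by
    rw [← Fintype.card_subtype, ← Nat.card_eq_fintype_card, ← Nat.card_eq_fintype_card]
    exact hp)
  rw [← Fintype.card_subtype, ← Nat.card_eq_fintype_card, ← Nat.card_eq_fintype_card] at h
  simp only [← Fintype.card_subtype, ← Nat.card_eq_fintype_card] at h
  exact h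

open Classical in
private theorem samp_claim {V : Type*} [DecidableEq V] [Fintype V] (m b : ℕ) (Y : Sys) (tp : ℕ)
    (𝒞 : Finset (Finset V)) (A : Finset V → Finset V) (d : Dat V)
    (h0 : ∀ B ∈ 𝒞, old d (Y.i 0) (A B) = ∅)
    (h1 : ∀ B ∈ 𝒞, ∀ l < tp, (old d (Y.i (l + 1)) (A B)).card ≤ Y.q ∧
      Gen d.sm (Y.t l) (nw d Y.K (Y.i (l + 1)) (old d (Y.i (l + 1)) (A B))) ∧
      GoodC m b d Y.K (Y.i (l + 1)) (Y.c l) (old d (Y.i (l + 1)) (A B)))
    (hm : ∀ t, 2 ≤ t → (univ.filter (fun e : Sym2 V => d.tn e = t)).card ≤ m)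
    (pm : ℕ → ℝ) (hpm0 : ∀ l, 0 ≤ pm l)
    (hpm : ∀ l < tp, ∀ e : Sym2 V, 2 ≤ d.tn e →
      ((𝒞.filter (fun B => e ∈ wp d Y.K (Y.i (l + 1)) (old d (Y.i (l + 1)) (A B)))).card : ℝ) ≤
        pm l * 𝒞.card)
    {ε : ℝ} (hε : 0 ≤ ε)
    (hcol : ∀ l < tp, (Y.rr (l + 1) : ℝ) ^ 2 * Y.q ^ 2 * m * pm l ≤ ε * (Y.cB l + 1))
    (p : ℕ → ℝ) (hp0 : 0 ≤ p 0) (hp : ∀ l < tp, ε + p l * (Y.R / (Y.bB + 1)) ≤ p (l + 1))
    (l : ℕ) (hl : l ≤ tp) :
    (Nat.card {F : Idx Y.r0 Y.R l → {B // B ∈ 𝒞} // BadF m b Y 𝒞 A d l F} : ℝ) ≤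
      p l * Nat.card (Idx Y.r0 Y.R l → {B // B ∈ 𝒞}) := by
  induction l with
  | zero =>
    have h2 : IsEmpty {F : Idx Y.r0 Y.R 0 → {B // B ∈ 𝒞} // BadF m b Y 𝒞 A d 0 F} := by
      refine ⟨fun F => F.2 ?_⟩
      simp only [SeqP]
      intro k
      exact h0 _ (F.1 k).2
    rw [Nat.card_of_isEmpty, Nat.cast_zero]
    positivity
  | succ l ih =>
    have hl' : l < tp := hl
    have ih' := ih hl'.le
    set W : ℝ := (Nat.card (Idx Y.r0 Y.R (l + 1) → {B // B ∈ 𝒞}) : ℝ) with hW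
    have hW0 : 0 ≤ W := Nat.cast_nonneg _
    -- collisions
    set X1 : Finset (Idx Y.r0 Y.R (l + 1) → {B // B ∈ 𝒞}) := univ.filter (fun F =>
      Y.cB l < (coll d Y.K (Y.i (l + 1)) (fun k => old d (Y.i (l + 1)) (A (F k).1))).card) with hX1
    set X2 : Finset (Idx Y.r0 Y.R (l + 1) → {B // B ∈ 𝒞}) := univ.filter (fun F =>
      Y.bB < Nat.card {j : Fin Y.R // ¬ ¬ BadF m b Y 𝒞 A d l (fun k => F (j, k))}) with hX2
    have hc1 : (X1.card : ℝ) * (Y.cB l + 1) ≤ ε * (Y.cB l + 1) * W := by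
      have h3 := sum_coll_le (ι := Idx Y.r0 Y.R (l + 1)) 𝒞 (fun B => old d (Y.i (l + 1)) (A B)) d
        Y.K (Y.i (l + 1)) Y.q m (fun B hB => (h1 B hB l hl').1) hm (hpm0 l) (hpm l hl')
      have h4 : (X1.card : ℝ) * (Y.cB l + 1) ≤
          ∑ F : Idx Y.r0 Y.R (l + 1) → {B // B ∈ 𝒞},
          ((coll d Y.K (Y.i (l + 1)) (fun k => old d (Y.i (l + 1)) (A (F k).1))).card : ℝ) := by
        calc (X1.card : ℝ) * (Y.cB l + 1) = ∑ _F ∈ X1, ((Y.cB l : ℝ) + 1) := by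
              rw [sum_const, nsmul_eq_mul]
          _ ≤ ∑ F ∈ X1, ((coll d Y.K (Y.i (l + 1))
              (fun k => old d (Y.i (l + 1)) (A (F k).1))).card : ℝ) := by
              refine sum_le_sum fun F hF => ?_
              have h5 := (mem_filter.1 hF).2
              exact_mod_cast h5
          _ ≤ _ := sum_le_sum_of_subset_of_nonneg (subset_univ _)
              (fun F _ _ => Nat.cast_nonneg _)
      have h5 : (Fintype.card (Idx Y.r0 Y.R (l + 1)) : ℝ) = (Y.rr (l + 1) : ℝ) := by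
        rw [card_idx]
        rfl
      have h6 : (Fintype.card (Idx Y.r0 Y.R (l + 1) → {B // B ∈ 𝒞}) : ℝ) = W := by
        rw [hW, Nat.card_eq_fintype_card]
      rw [h5, h6] at h3
      calc (X1.card : ℝ) * (Y.cB l + 1) ≤ _ := h4
        _ ≤ _ := h3
        _ ≤ ε * (Y.cB l + 1) * W := mul_le_mul_of_nonneg_right (hcol l hl') hW0
    have hc2 : (X2.card : ℝ) * (Y.bB + 1) ≤ p l * Y.R * W := by
      have h3 := block_markov' (Ω := {B // B ∈ 𝒞}) (ι := Idx Y.r0 Y.R l) Y.R Y.bB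
        (fun g => ¬ BadF m b Y 𝒞 A d l g) (p := p l) (by
          have h4 : Nat.card {g : Idx Y.r0 Y.R l → {B // B ∈ 𝒞} // ¬ ¬ BadF m b Y 𝒞 A d l g} =
              Nat.card {g : Idx Y.r0 Y.R l → {B // B ∈ 𝒞} // BadF m b Y 𝒞 A d l g} :=
            Nat.card_congr (Equiv.subtypeEquivRight fun g => not_not)
          rw [h4]
          exact ih')
      have h4 : (Nat.card (Fin Y.R × Idx Y.r0 Y.R l → {B // B ∈ 𝒞}) : ℝ) = W := rfl
      rw [h4] at h3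
      have h5 : X2.card = Nat.card {F : Fin Y.R × Idx Y.r0 Y.R l → {B // B ∈ 𝒞} //
          Y.bB < Nat.card {j : Fin Y.R // ¬ ¬ BadF m b Y 𝒞 A d l (fun k => F (j, k))}} := by
        rw [hX2, ← Fintype.card_subtype, ← Nat.card_eq_fintype_card]
        rfl
      rw [h5]
      exact h3
    have hcB : (0 : ℝ) < Y.cB l + 1 := by positivity
    have hbB : (0 : ℝ) < Y.bB + 1 := by positivity
    have hc1' : (X1.card : ℝ) ≤ ε * W := by
      have h3 : (X1.card : ℝ) * (Y.cB l + 1) ≤ (ε * W) * (Y.cB l + 1) := by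
        calc _ ≤ _ := hc1
          _ = _ := by ring
      exact le_of_mul_le_mul_right h3 hcB
    have hc2' : (X2.card : ℝ) ≤ p l * (Y.R / (Y.bB + 1)) * W := by
      rw [← le_div_iff₀ hbB] at hc2
      calc _ ≤ _ := hc2
        _ = _ := by ring
    have hsub : (Nat.card {F : Idx Y.r0 Y.R (l + 1) → {B // B ∈ 𝒞} //
        BadF m b Y 𝒞 A d (l + 1) F} : ℝ) ≤ X1.card + X2.card := by
      have h3 : Nat.card {F : Idx Y.r0 Y.R (l + 1) → {B // B ∈ 𝒞} //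
          BadF m b Y 𝒞 A d (l + 1) F} ≤ X1.card + X2.card := by
        rw [Nat.card_eq_fintype_card, Fintype.card_subtype]
        refine (card_le_card fun F hF => ?_).trans (card_union_le X1 X2)
        have h4 := samp_step m b Y 𝒞 A d l (fun B hB => h1 B hB l hl') F (mem_filter.1 hF).2
        rw [mem_union, hX1, hX2, mem_filter, mem_filter]
        rcases h4 with h4 | h4
        · exact Or.inl ⟨mem_univ _, h4⟩
        · exact Or.inr ⟨mem_univ _, h4⟩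
      exact_mod_cast h3
    calc _ ≤ _ := hsub
      _ ≤ ε * W + p l * (Y.R / (Y.bB + 1)) * W := add_le_add hc1' hc2'
      _ = (ε + p l * (Y.R / (Y.bB + 1))) * W := by ring
      _ ≤ p (l + 1) * W := mul_le_mul_of_nonneg_right (hp l hl') hW0

theorem sampling {V : Type*} [DecidableEq V] [Fintype V] (m b : ℕ) (Y : Sys) (tp : ℕ)
    (𝒞 : Finset (Finset V)) (hne : 𝒞.Nonempty) (A : Finset V → Finset V) (d : Dat V)
    (h0 : ∀ B ∈ 𝒞, old d (Y.i 0) (A B) = ∅)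
    (h1 : ∀ B ∈ 𝒞, ∀ l < tp, (old d (Y.i (l + 1)) (A B)).card ≤ Y.q ∧
      Gen d.sm (Y.t l) (nw d Y.K (Y.i (l + 1)) (old d (Y.i (l + 1)) (A B))) ∧
      GoodC m b d Y.K (Y.i (l + 1)) (Y.c l) (old d (Y.i (l + 1)) (A B)))
    (hm : ∀ t, 2 ≤ t → (univ.filter (fun e : Sym2 V => d.tn e = t)).card ≤ m)
    (pm : ℕ → ℝ) (hpm0 : ∀ l, 0 ≤ pm l)
    (hpm : ∀ l < tp, ∀ e : Sym2 V, 2 ≤ d.tn e →
      ((𝒞.filter (fun B => e ∈ wp d Y.K (Y.i (l + 1)) (old d (Y.i (l + 1)) (A B)))).card : ℝ) ≤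
        pm l * 𝒞.card)
    {ε : ℝ} (hε : 0 ≤ ε)
    (hcol : ∀ l < tp, (Y.rr (l + 1) : ℝ) ^ 2 * Y.q ^ 2 * m * pm l ≤ ε * (Y.cB l + 1))
    (p : ℕ → ℝ) (hp0 : 0 ≤ p 0) (hp : ∀ l < tp, ε + p l * (Y.R / (Y.bB + 1)) ≤ p (l + 1))
    (hp1 : p tp < 1) :
    ∃ f : Idx Y.r0 Y.R tp → Finset V, SeqP m b Y tp (resD d (Y.i (tp + 1))) f := by
  classical
  have h2 := samp_claim m b Y tp 𝒞 A d h0 h1 hm pm hpm0 hpm hε hcol p hp0 hp tp le_rfl
  obtain ⟨B0, hB0⟩ := hne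
  haveI : Nonempty {B // B ∈ 𝒞} := ⟨⟨B0, hB0⟩⟩
  have h3 : (0 : ℝ) < Nat.card (Idx Y.r0 Y.R tp → {B // B ∈ 𝒞}) := by
    exact_mod_cast Nat.card_pos
  have h4 : ∃ F : Idx Y.r0 Y.R tp → {B // B ∈ 𝒞}, ¬ BadF m b Y 𝒞 A d tp F := by
    by_contra hcon
    push_neg at hcon
    have h5 : Nat.card {F : Idx Y.r0 Y.R tp → {B // B ∈ 𝒞} // BadF m b Y 𝒞 A d tp F} =
        Nat.card (Idx Y.r0 Y.R tp → {B // B ∈ 𝒞}) :=
      Nat.card_congr (Equiv.subtypeUnivEquiv hcon)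
    rw [h5] at h2
    nlinarith
  obtain ⟨F, hF⟩ := h4
  exact ⟨_, not_not.1 hF⟩

end Pool.Agent.Helper5.CV
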