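import Mathlib
import Pool.Agent.Helper5.CV.DefsT
import Pool.Agent.Helper5.CV.Cls
import Pool.Agent.Helper5.CV.ResD

/-!
# MP_d32cb0_co, module T05: the levels of a trimmed set

`A = trim d K i0 B`, `N_l = nw d K (i0+K(l+1)) (old d (i0+K(l+1)) A) = {v ∈ A : i0 + K l < bk v + 3 ≤ i0 + K (l+1)}`.
PROOFS.  Every `v ∈ A` has `1 ≤ bk v`, `i0 < bk v + 3` (`h0`), `bk v + 3 ≢ i0 mod K`, so `bk v + 3` is never equal to `i0 + K l`.
`trim_old_zero`: immediate from `h0`.  `sum_tl_le`: `card_level_classes` with `s = range tp`: the `N_l` are pairwise disjoint subsets of `A`; crossing: if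
`a ∈ N_l`, `c ∈ A`, `(a,c) ∈ sm` or `(c,a) ∈ sm`, then `|bk a - bk c| ≤ 1` (`hsim`), `i0 + K l + 1 ≤ bk a + 3 ≤ i0 + K(l+1) - 1`, so
`i0 + K l ≤ bk c + 3 ≤ i0 + K (l+1)` and the end values are excluded.
-/

set_option autoImplicit false

namespace Pool.Agent.Helper5.CV

open Finset

variable {V : Type*} [DecidableEq V]

theorem trim_old_zero (d : Dat V) {K i0 : ℕ} (h0 : ∀ v, 1 ≤ d.bk v → i0 < d.bk v + 3)
    (B : Finset V) : old d i0 (trim d K i0 B) = ∅ := by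
  rw [eq_empty_iff_forall_notMem]
  intro v hv
  unfold old at hv
  rw [mem_filter] at hv
  have := h0 v hv.2.1
  omega

private theorem mem_lev (d : Dat V) (K i0 l : ℕ) (B : Finset V) (v : V) :
    v ∈ nw d K (i0 + K * (l + 1)) (old d (i0 + K * (l + 1)) (trim d K i0 B)) ↔
      v ∈ trim d K i0 B ∧ d.bk v + 3 ≤ i0 + K * (l + 1) ∧ i0 + K * l < d.bk v + 3 := by
  unfold nw old
  rw [mem_filter, mem_filter]
  have h1 : K * (l + 1) = K * l + K := by ring
  constructor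
  · rintro ⟨⟨h2, h3, h4⟩, h5⟩
    exact ⟨h2, h4, by omega⟩
  · rintro ⟨h2, h3, h4⟩
    have h5 : 1 ≤ d.bk v := (mem_filter.1 h2).2.1
    exact ⟨⟨h2, h5, h3⟩, by omega⟩

theorem sum_tl_le (d : Dat V) {K i0 : ℕ} (hK : 1 ≤ K)
    (h0 : ∀ v, 1 ≤ d.bk v → i0 < d.bk v + 3)
    (hsim : ∀ a c, (a, c) ∈ d.sm → d.bk a ≤ d.bk c + 1 ∧ d.bk c ≤ d.bk a + 1)
    (tp : ℕ) (B : Finset V) :
    ∑ l ∈ range tp, tl d K i0 l B ≤
      ((trim d K i0 B).image (cl d.sm (trim d K i0 B))).card := by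
  have _ := hK
  have _ := h0
  have hmod : ∀ v ∈ trim d K i0 B, ∀ l, d.bk v + 3 ≠ i0 + K * l := by
    intro v hv l h
    have h1 := (mem_filter.1 hv).2.2
    rw [h, Nat.add_mul_mod_self_left] at h1
    exact h1 rfl
  refine card_level_classes d.sm (trim d K i0 B) (range tp)
    (fun l => nw d K (i0 + K * (l + 1)) (old d (i0 + K * (l + 1)) (trim d K i0 B))) ?_ ?_ ?_
  · intro l _ v hv
    exact ((mem_lev d K i0 l B v).1 hv).1
  · intro l _ l' _ hne
    rw [disjoint_left]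
    intro v hv hv'
    obtain ⟨_, h2, h3⟩ := (mem_lev d K i0 l B v).1 hv
    obtain ⟨_, h2', h3'⟩ := (mem_lev d K i0 l' B v).1 hv'
    rcases Nat.lt_or_gt_of_ne hne with h | h
    · have : K * (l + 1) ≤ K * l' := Nat.mul_le_mul_left _ h
      omega
    · have : K * (l' + 1) ≤ K * l := Nat.mul_le_mul_left _ h
      omega
  · intro l _ a ha c hc hac
    obtain ⟨h1, h2, h3⟩ := (mem_lev d K i0 l B a).1 ha
    rw [mem_lev]
    have h4 : d.bk a ≤ d.bk c + 1 ∧ d.bk c ≤ d.bk a + 1 := by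
      rcases hac with h | h
      · exact hsim a c h
      · exact (hsim c a h).symm
    have e1 := hmod a h1 (l + 1)
    have e2 := hmod c hc l
    refine ⟨hc, by omega, by omega⟩

end Pool.Agent.Helper5.CV
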