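import Mathlib
import Pool.Agent.Helper5.CV.DefsT
import Pool.Agent.Helper5.CV.NN
import Pool.Agent.Helper5.CV.Buck
import Pool.Agent.Helper5.CV.DatOKL
import Pool.Agent.Helper5.CV.GoodCL
import Pool.Agent.Helper5.CV.FlatC
import Pool.Agent.Helper5.CV.TrimL
import Pool.Agent.Helper5.CV.ProfL
import Pool.Agent.Helper5.CV.ParY
import Pool.Agent.Helper5.CV.Samp
import Pool.Agent.Helper5.CV.Rec
import Pool.Agent.Helper5.CV.DatSum
import Pool.Agent.Helper5.CV.StarT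

/-!
# MP_d32cb0_co, module T10: the inequality of a typical member

PROOF.  `d = dat P ℬ Γ Z j0 nb`, `T = thr Γ j0`.  `exists_profile` (for `ℬ'`) gives `π`, `𝒞`; `|ℬ| ≤ 2|ℬ'| ≤ c0 |𝒞|`, `c0 = 2 #Prof`.
`Y = mkY q K Γ ηB ηC i0 π.t π.c`, `nZ = |Z|`, `τ l = ⌈(nb+2) q² e^{Y.i(l+1)Γ}⌉₊`, `nt = N²+3`, `nb' = nb+1`.
(a) `pot m b (wlev m b Y l (nb+1) (N²+3)) P ≤ C' := C K #Prof tp`: `w0 ≥ (K #Prof tp)⁻¹ wlev … l` pointwise (all terms are nonnegative: `wlev_nonneg`,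
`wD1_nonneg`, `wD2_nonneg`), `pot` is monotone and linear in the weights (`gain ≥ 0`).
(b) `sampling` for `𝒞`, `A B = trim d K i0 B`, `d`:  `h0`: `trim_old_zero` (bucketed points have `bk ≥ j0 > i0 - 3`: `hi3`);
`h1`: size (`old … ⊆ trim ⊆ B`); `Gen`: `gen_classes` (`sm` is symmetric) with `tl = π.t l`; `GoodC`: `goodC_dat` with `⌊cwl⌋₊ = π.c l`; fibres: `tn_fiber`;
`pm l = c0 e^{Γ/16-(Y.i(l+1)+1)Γ}`: `flat_count`; `hcol_of`; `p l = ε ((2/ηB)^l - 1)`… i.e. `ε + p l/ηB ≤ p (l+1)` (`1/ηB ≥ 1`), `p tp < 1` by `hε`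
(for `ε > 0`; `p 0 = 0`).
So `SeqP m b Y tp (resD d (Y.i (tp+1)))` has a solution.
(c) `datOK_dat`, `datOK_resD`; `nonneg_of_seq` with `herr_of` (`hτ`: `⌈x⌉ ≤ x + 1`); `nZ ≥ 1`: `Z` nonempty.  Take any `B ∈ 𝒞`.
-/

set_option autoImplicit false

namespace Pool.Agent.Helper5.CV

open Finset Pool.Agent.Helper25.CliqueGame
open Pool.Agent.Helper78.CG (EI)

theorem core_ineq {N m b q r u K i0 j0 nb lo tp cm Δ : ℕ} (hm : 1 ≤ m) (hN : 1 ≤ N)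
    (hq : 1 ≤ q) (hK : 1 ≤ K) (htp : 1 ≤ tp) {P : Pos (Sym2 (Fin N))} (hP : GP m (edges N) P)
    (hlen : P.mv.length ≤ N ^ 2) {ρ : Finset (Fin N)} {ℬ : Finset (Finset (Fin N))}
    (hB : ∀ B ∈ ℬ, Disjoint ρ B ∧ ρ ∪ B ∈ AA P q u) {Γ ηB ηC C err ε : ℝ} (hΓ : 0 < Γ)
    (hj0 : 2 ≤ j0) (hi1 : lo ≤ i0) (hi2 : i0 < lo + K) (hi3 : i0 < j0 + 3)
    (hB0 : 0 < ηB) (hB1 : ηB < 1) (hC0 : 0 < ηC) (hC1 : 1 ≤ C)
    (hpot : pot m b (w0 m b q r K Γ ηB ηC lo cm tp (nb + 1) (N ^ 2 + 3)) P ≤ C)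
    {Z : Finset (Fin N)} (hZ : Z.Nonempty) (hcm : (q : ℝ) ^ 2 * lam m b 1 ≤ cm)
    (hΔ : (q : ℝ) * Real.exp (Γ / 8) ≤ Δ)
    {ℬ' : Finset (Finset (Fin N))} (hsub : ℬ' ⊆ ℬ) (hne' : ℬ'.Nonempty)
    (h2 : (ℬ.card : ℝ) ≤ 2 * ℬ'.card)
    (herr : ηC * (q : ℝ) ^ 2 * lam m b 1 + ηB * q * Real.log (N + 1) + Real.log (q + 1) +
      q * Real.log (q * Δ + 1) +
      Real.log (C * (K * (Fintype.card (Prof q cm tp) : ℝ) * tp)) +
      10 * Real.log N * (((nb : ℝ) + 2) * (q : ℝ) ^ 2 + 1) * Real.exp (-(Γ / 2)) + 1 ≤ err)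
    (hε0 : 0 < ε) (hε : ε * (2 / ηB) ^ tp ≤ 1)
    (hcol : 2 ^ (tp + 1) * m * (2 * (Fintype.card (Prof q cm tp) : ℝ)) *
      Real.exp (-(7 * Γ / 16)) ≤ ε * ηC) :
    ∃ B ∈ ℬ', 0 ≤ ∑ l ∈ range tp,
      ((tl (dat P ℬ Γ Z j0 nb) K i0 l B : ℝ) * Real.log Z.card -
        (⌊cwl m b P ℬ (thr Γ j0) (dat P ℬ Γ Z j0 nb) K i0 l B⌋₊ : ℝ) + err) := by
  classical
  set T : Thr := thr Γ j0 with hT
  set d : Dat (Fin N) := dat P ℬ Γ Z j0 nb with hd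
  have hj0' : 1 ≤ j0 := by omega
  have hne : ℬ.Nonempty := hne'.mono hsub
  have hs : ∀ B ∈ ℬ, B.card ≤ q := by
    intro B hBB
    have h := (hB B hBB).2
    have h' : (ρ ∪ B).card = q := (Finset.mem_filter.1 h).2.1
    calc B.card ≤ (ρ ∪ B).card := Finset.card_le_card Finset.subset_union_right
      _ = q := h'
  obtain ⟨π, 𝒞, hCsub, hCne, hCcard, hCprof⟩ :=
    exists_profile (K := K) (i0 := i0) (tp := tp) (cm := cm) (q := q) hm P ℬ T d ℬ' hne'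
      (fun B h => hs B (hsub h)) hcm
  set Y : Sys := mkY q K Γ ηB ηC i0 π.t π.c with hY
  set np : ℕ := Fintype.card (Prof q cm tp) with hnp
  have hnp1 : 1 ≤ np := Fintype.card_pos_iff.2 ⟨π⟩
  have hC𝒞 : 𝒞 ⊆ ℬ := hCsub.trans hsub
  have hYi : ∀ l, Y.i l = i0 + K * l := fun l => rfl
  have hbk : ∀ v, 1 ≤ d.bk v → i0 < d.bk v + 3 := by
    intro v hv
    have := (bkD_spec (ℬ := ℬ) (Z := Z) (nb := nb) hΓ hj0' hv).2.2.1
    have h2 : j0 ≤ d.bk v := this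
    omega
  have hsym : ∀ a c, (a, c) ∈ d.sm → (c, a) ∈ d.sm := by
    intro a c h
    have h' : (a, c) ∈ univ.filter (fun p : Fin N × Fin N => 1 ≤ bkD ℬ Γ Z j0 nb p.1 ∧
        1 ≤ bkD ℬ Γ Z j0 nb p.2 ∧ Sim ℬ (thr Γ j0) p.1 p.2) := h
    have h2 := (Finset.mem_filter.1 h').2
    have h3 : (c, a) ∈ univ.filter (fun p : Fin N × Fin N => 1 ≤ bkD ℬ Γ Z j0 nb p.1 ∧
        1 ≤ bkD ℬ Γ Z j0 nb p.2 ∧ Sim ℬ (thr Γ j0) p.1 p.2) := by
      refine Finset.mem_filter.2 ⟨Finset.mem_univ _, h2.2.1, h2.1, ?_⟩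
      have h4 := h2.2.2
      unfold Sim at h4 ⊢
      simp only at h4 ⊢
      rw [Finset.pair_comm c a]
      exact ⟨h4.2, h4.1⟩
    exact h3
  -- (a) the potential of one level
  have hD0 : (0 : ℝ) < (K : ℝ) * (np : ℝ) * tp := by
    have h1 : (0 : ℝ) < K := by exact_mod_cast hK
    have h2 : (0 : ℝ) < np := by exact_mod_cast hnp1
    have h3 : (0 : ℝ) < tp := by exact_mod_cast htp
    positivity
  have hD1 : (1 : ℝ) ≤ (K : ℝ) * (np : ℝ) * tp := by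
    have : 1 ≤ K * np * tp := Nat.one_le_iff_ne_zero.2 (by positivity)
    exact_mod_cast this
  have hpotl : ∀ l < tp, pot m b (wlev m b Y l (nb + 1) (N ^ 2 + 3)) P ≤
      C * ((K : ℝ) * (np : ℝ) * tp) := by
    intro l hl
    have hw : ∀ S : Finset (Sym2 (Fin N)), ((K : ℝ) * (np : ℝ) * tp)⁻¹ *
        wlev m b Y l (nb + 1) (N ^ 2 + 3) S ≤
        w0 m b q r K Γ ηB ηC lo cm tp (nb + 1) (N ^ 2 + 3) S := by
      intro S
      have hg : ∀ (i : ℕ) (π' : Prof q cm tp) (l' : ℕ), 0 ≤ ((K : ℝ) * (np : ℝ) * tp)⁻¹ *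
          wlev m b (mkY q K Γ ηB ηC i π'.t π'.c) l' (nb + 1) (N ^ 2 + 3) S := by
        intro i π' l'
        exact mul_nonneg (inv_nonneg.2 hD0.le) (wlev_nonneg _ _ _ _ _ _ _)
      have h1 : ((K : ℝ) * (np : ℝ) * tp)⁻¹ * wlev m b Y l (nb + 1) (N ^ 2 + 3) S ≤
          ∑ l' ∈ range tp, ((K : ℝ) * (np : ℝ) * tp)⁻¹ *
            wlev m b (mkY q K Γ ηB ηC i0 π.t π.c) l' (nb + 1) (N ^ 2 + 3) S :=
        Finset.single_le_sum (f := fun l' => ((K : ℝ) * (np : ℝ) * tp)⁻¹ *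
            wlev m b (mkY q K Γ ηB ηC i0 π.t π.c) l' (nb + 1) (N ^ 2 + 3) S)
          (fun l' _ => hg i0 π l') (Finset.mem_range.2 hl)
      have h2 : ∑ l' ∈ range tp, ((K : ℝ) * (np : ℝ) * tp)⁻¹ *
            wlev m b (mkY q K Γ ηB ηC i0 π.t π.c) l' (nb + 1) (N ^ 2 + 3) S ≤
          ∑ π' : Prof q cm tp, ∑ l' ∈ range tp, ((K : ℝ) * (np : ℝ) * tp)⁻¹ *
            wlev m b (mkY q K Γ ηB ηC i0 π'.t π'.c) l' (nb + 1) (N ^ 2 + 3) S :=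
        Finset.single_le_sum (f := fun π' : Prof q cm tp =>
            ∑ l' ∈ range tp, ((K : ℝ) * (np : ℝ) * tp)⁻¹ *
            wlev m b (mkY q K Γ ηB ηC i0 π'.t π'.c) l' (nb + 1) (N ^ 2 + 3) S)
          (fun π' _ => Finset.sum_nonneg (fun l' _ => hg i0 π' l')) (Finset.mem_univ π)
      have h3 : ∑ π' : Prof q cm tp, ∑ l' ∈ range tp, ((K : ℝ) * (np : ℝ) * tp)⁻¹ *
            wlev m b (mkY q K Γ ηB ηC i0 π'.t π'.c) l' (nb + 1) (N ^ 2 + 3) S ≤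
          ∑ i ∈ Ico lo (lo + K), ∑ π' : Prof q cm tp, ∑ l' ∈ range tp,
            ((K : ℝ) * (np : ℝ) * tp)⁻¹ *
            wlev m b (mkY q K Γ ηB ηC i π'.t π'.c) l' (nb + 1) (N ^ 2 + 3) S :=
        Finset.single_le_sum (f := fun i => ∑ π' : Prof q cm tp, ∑ l' ∈ range tp,
            ((K : ℝ) * (np : ℝ) * tp)⁻¹ *
            wlev m b (mkY q K Γ ηB ηC i π'.t π'.c) l' (nb + 1) (N ^ 2 + 3) S)
          (fun i _ => Finset.sum_nonneg (fun π' _ => Finset.sum_nonneg (fun l' _ => hg i π' l')))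
          (Finset.mem_Ico.2 ⟨hi1, hi2⟩)
      have h4 := wD1_nonneg (N := N) q r S
      have h5 := wD2_nonneg (N := N) q S
      have h6 : w0 m b q r K Γ ηB ηC lo cm tp (nb + 1) (N ^ 2 + 3) S =
          wD1 q r S + wD2 q S + ∑ i ∈ Ico lo (lo + K), ∑ π' : Prof q cm tp, ∑ l' ∈ range tp,
            ((K : ℝ) * (np : ℝ) * tp)⁻¹ *
            wlev m b (mkY q K Γ ηB ηC i π'.t π'.c) l' (nb + 1) (N ^ 2 + 3) S := rfl
      rw [h6]
      linarith [h1.trans (h2.trans h3)]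
    have hp1 : ((K : ℝ) * (np : ℝ) * tp)⁻¹ * pot m b (wlev m b Y l (nb + 1) (N ^ 2 + 3)) P ≤
        pot m b (w0 m b q r K Γ ηB ηC lo cm tp (nb + 1) (N ^ 2 + 3)) P := by
      unfold pot
      rw [Finset.mul_sum]
      refine Finset.sum_le_sum (fun S _ => ?_)
      rw [← mul_assoc]
      exact mul_le_mul_of_nonneg_right (hw S)
        (zero_le_one.trans (one_le_gain m b P.mv S))
    have hp2 := hp1.trans hpot
    rw [inv_mul_le_iff₀ hD0] at hp2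
    linarith
  -- (b) a sequence
  have hc0 : (0 : ℝ) ≤ 2 * (np : ℝ) := by positivity
  have hcC : (ℬ.card : ℝ) ≤ 2 * (np : ℝ) * 𝒞.card := by
    have h : (ℬ'.card : ℝ) ≤ (np : ℝ) * 𝒞.card := by exact_mod_cast hCcard
    linarith
  have htrim : ∀ B : Finset (Fin N), ∀ i, old d i (trim d K i0 B) ⊆ B := by
    intro B i
    exact (Finset.filter_subset _ _).trans (Finset.filter_subset _ _)
  have hbko : ∀ B : Finset (Fin N), ∀ i, ∀ v ∈ old d i (trim d K i0 B), 1 ≤ d.bk v := by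
    intro B i v hv
    exact ((Finset.mem_filter.1 hv).2).1
  have hx1 : (1 : ℝ) ≤ 2 / ηB := by
    rw [le_div_iff₀ hB0]
    linarith
  have hηi : (1 : ℝ) ≤ 1 / ηB := by
    rw [le_div_iff₀ hB0]
    linarith
  have hseq : ∃ f : Idx Y.r0 Y.R tp → Finset (Fin N), SeqP m b Y tp (resD d (Y.i (tp + 1))) f := by
    refine sampling m b Y tp 𝒞 hCne (trim d K i0) d ?_ ?_ ?_
      (fun l => 2 * (np : ℝ) * Real.exp (Γ / 16 - ((Y.i (l + 1) : ℝ) + 1) * Γ)) ?_ ?_ (ε := ε)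
      hε0.le ?_ (fun l => ε * ((2 / ηB) ^ l - 1)) ?_ ?_ ?_
    · intro B _
      have : Y.i 0 = i0 := by rw [hYi]; simp
      rw [this]
      exact trim_old_zero d hbk B
    · intro B hBC l hl
      refine ⟨?_, ?_, ?_⟩
      · exact (Finset.card_le_card (htrim B _)).trans (hs B (hC𝒞 hBC))
      · have h1 : Y.t l = tl d K i0 l B := ((hCprof B hBC l hl).1).symm
        rw [h1]
        exact gen_classes d.sm hsym _
      · have h1 : Y.c l = ⌊cwl m b P ℬ T d K i0 l B⌋₊ := ((hCprof B hBC l hl).2).symm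
        rw [h1]
        exact goodC_dat hP hB hΓ hj0 Z (hC𝒞 hBC) (htrim B _) (hbko B _)
    · intro t ht
      exact tn_fiber hP ℬ Γ Z ht
    · intro l
      positivity
    · intro l hl e he
      exact flat_count hne hΓ hj0' Z hC𝒞 hcC
        (fun B => old d (Y.i (l + 1)) (trim d K i0 B))
        (fun B _ => ⟨htrim B _, hbko B _⟩) e he
    · exact hcol_of hΓ.le hC0 hc0 hcol
    · simp
    · intro l hl
      have hr : (Y.R : ℝ) / (Y.bB + 1) ≤ 1 / ηB := (mkY_bB hB0 hB1).2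
      have hxl : (1 : ℝ) ≤ (2 / ηB) ^ l := one_le_pow₀ hx1
      have h1 : ε * ((2 / ηB) ^ l - 1) * ((Y.R : ℝ) / (Y.bB + 1)) ≤
          ε * ((2 / ηB) ^ l - 1) * (1 / ηB) :=
        mul_le_mul_of_nonneg_left hr (mul_nonneg hε0.le (by linarith))
      have h2 : ε + ε * ((2 / ηB) ^ l - 1) * (1 / ηB) ≤ ε * ((2 / ηB) ^ (l + 1) - 1) := by
        have h3 : (2 / ηB) ^ (l + 1) = 2 * ((2 / ηB) ^ l * (1 / ηB)) := by
          rw [pow_succ]; ring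
        have h4 : (1 : ℝ) ≤ (2 / ηB) ^ l * (1 / ηB) := by
          calc (1 : ℝ) = 1 * 1 := by ring
            _ ≤ _ := mul_le_mul hxl hηi (by norm_num) (by linarith)
        rw [h3]
        have h5 : ε * (2 * ((2 / ηB) ^ l * (1 / ηB)) - 1) -
            (ε + ε * ((2 / ηB) ^ l - 1) * (1 / ηB)) =
            ε * (((2 / ηB) ^ l * (1 / ηB) - 1) + (1 / ηB - 1)) := by ring
        have h6 : 0 ≤ ε * (((2 / ηB) ^ l * (1 / ηB) - 1) + (1 / ηB - 1)) :=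
          mul_nonneg hε0.le (by linarith)
        linarith
      exact (add_le_add_right h1 ε).trans h2
    · have : ε * ((2 / ηB) ^ tp - 1) = ε * (2 / ηB) ^ tp - ε := by ring
      show ε * ((2 / ηB) ^ tp - 1) < 1
      rw [this]
      linarith
  -- (c) the inequality
  have hC' : 1 ≤ C * ((K : ℝ) * (np : ℝ) * tp) := by
    calc (1 : ℝ) = 1 * 1 := by ring
      _ ≤ _ := mul_le_mul hC1 hD1 (by norm_num) (by linarith)
  have hr0 : 1 ≤ Y.r0 := Nat.one_le_iff_ne_zero.2 (by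
    have : 0 < ⌈Real.exp (((i0 : ℝ) + 1 / 2) * Γ)⌉₊ := Nat.ceil_pos.2 (Real.exp_pos _)
    exact this.ne')
  have hnZ : 1 ≤ Z.card := hZ.card_pos
  have hdat : DatOK P Y (nb + 1) (N ^ 2 + 3) Δ Z.card
      (fun l => ⌈((nb : ℝ) + 2) * (q : ℝ) ^ 2 * Real.exp ((Y.i (l + 1) : ℝ) * Γ)⌉₊) d :=
    datOK_dat hq hP hlen hne hs hΓ hj0' Z hΔ Y (fun l => Nat.le_ceil _)
  have herr' := herr_of (q := q) (K := K) (i0 := i0) (Γ := Γ) (ηB := ηB) (ηC := ηC) (t := π.t)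
    (c := π.c) (m := m) (b := b) (N := N) (nb := nb) (Δ := Δ) (tp := tp)
    (τ := fun l => ⌈((nb : ℝ) + 2) * (q : ℝ) ^ 2 * Real.exp ((Y.i (l + 1) : ℝ) * Γ)⌉₊)
    (C' := C * ((K : ℝ) * (np : ℝ) * tp)) (err := err) hN hΓ.le hB0 hB1 hC0 hC'
    (fun l => (Nat.ceil_lt_add_one (by positivity)).le) herr
  have hfin := nonneg_of_seq hm hN hP hC' (mkY_bB hB0 hB1).1 hr0 hnZ hpotl herr'
    (datOK_resD hdat (Y.i (tp + 1))) hseq
  obtain ⟨B, hBC⟩ := hCne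
  refine ⟨B, hCsub hBC, ?_⟩
  have hrew : ∑ l ∈ range tp, ((tl d K i0 l B : ℝ) * Real.log Z.card -
        (⌊cwl m b P ℬ T d K i0 l B⌋₊ : ℝ) + err) =
      ∑ j ∈ range tp, ((Y.t j : ℝ) * Real.log Z.card - Y.c j + err) := by
    refine Finset.sum_congr rfl (fun l hl => ?_)
    obtain ⟨h1, h2⟩ := hCprof B hBC l (Finset.mem_range.1 hl)
    rw [h1, h2]
    rfl
  rw [hrew]
  exact hfin

end Pool.Agent.Helper5.CV
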