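import Mathlib
import Pool.Agent.Helper5.CV.Defs
import Pool.Agent.Helper5.CV.Kap
import Pool.Agent.Helper5.CV.Cls
import Pool.Agent.Helper5.CV.CwL

/-!
# MP_d32cb0_co, module C04: the cost of all pairs

PROOF.  Let `𝒞 = A.image (cl sm A)`; for `C ≠ C' ∈ 𝒞` the pairs `e` of `A` with class pair `s(C, C')` are the `|C| |C'|` pairs between
`C` and `C'`; for `C = C'` they are the `|C|(|C|-1)/2` pairs inside `C`.  So (`cw` is the sum over `Sym2 𝒞`)
`2 cw = Σ_{C ≠ C'} κ(|C||C'|) + 2 Σ_C κ(|C|(|C|-1)/2)`, and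
`κ(|C|²) ≤ κ(|C|²-|C|) + κ(|C|) ≤ 2 κ(|C|(|C|-1)/2) + |C| Λ_1` (`kap_add_le`, `kap_le_mul`), `Σ_C |C| = |A|`.
-/

set_option autoImplicit false

namespace Pool.Agent.Helper5.CV

open Finset

variable {V : Type*} [DecidableEq V]

/-- All pairs of different points of `A`. -/
def allP (A : Finset V) : Finset (Sym2 V) := A.sym2.filter (fun e => ¬ e.IsDiag)

private theorem cf_fiber {α : Type*} [DecidableEq α] (t : Finset (α × α)) (c : Sym2 α) :
    (t.filter (fun p => s(p.1, p.2) = c)).card ≤ 2 := by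
  induction c with
  | h a b =>
    have h : t.filter (fun p => s(p.1, p.2) = s(a, b)) ⊆ {(a, b), (b, a)} := by
      rintro ⟨x, y⟩ hp
      have h1 := (mem_filter.1 hp).2
      rw [mem_insert, mem_singleton]
      rcases Sym2.eq_iff.1 h1 with ⟨h2, h3⟩ | ⟨h2, h3⟩
      · left
        exact Prod.ext h2 h3
      · right
        exact Prod.ext h2 h3
    exact (card_le_card h).trans card_le_two

private theorem cf_mem (sm : Finset (V × V)) {A C : Finset V} (hC : C ∈ A.image (cl sm A))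
    {x : V} (hx : x ∈ C) : x ∈ A ∧ cl sm A x = C := by
  classical
  obtain ⟨v, hv, rfl⟩ := mem_image.1 hC
  have h1 : x ∈ A := cl_subset sm A v hx
  refine ⟨h1, ?_⟩
  rw [eq_comm, cl_eq_iff sm A hv h1]
  unfold cl at hx
  exact (mem_filter.1 hx).2

theorem card_allP_le (A : Finset V) : (allP A).card ≤ A.card ^ 2 := by
  have h : allP A ⊆ (A ×ˢ A).image (fun p => s(p.1, p.2)) := by
    intro e he
    have h1 := (mem_filter.1 he).1
    induction e with
    | h x y =>
      rw [mk_mem_sym2_iff] at h1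
      rw [mem_image]
      exact ⟨(x, y), mem_product.2 h1, rfl⟩
  refine (card_le_card h).trans (card_image_le.trans ?_)
  rw [card_product, pow_two]

theorem cw_full {m b : ℕ} (hm : 1 ≤ m) (sm : Finset (V × V)) (A : Finset V) :
    ∑ C ∈ A.image (cl sm A), ∑ C' ∈ A.image (cl sm A), kap m b (C.card * C'.card) ≤
      2 * cw m b sm A (allP A) + A.card * lam m b 1 := by
  classical
  set 𝒞 := A.image (cl sm A) with h𝒞
  set N : Sym2 (Finset V) → ℕ := fun c => ((allP A).filter (fun e => cp sm A e = c)).card with hN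
  set g : Sym2 (Finset V) → ℝ := fun c => kap m b (N c) with hg
  have hg0 : ∀ c, 0 ≤ g c := fun c => kap_nonneg m b _
  have hmk : ∀ x ∈ A, ∀ y ∈ A, x ≠ y → s(x, y) ∈ allP A := by
    intro x hx y hy hxy
    unfold allP
    rw [mem_filter, mk_mem_sym2_iff]
    exact ⟨⟨hx, hy⟩, fun h => hxy (Sym2.mk_isDiag_iff.1 h)⟩
  have hcw : ∑ c ∈ 𝒞.sym2, g c ≤ cw m b sm A (allP A) := by
    have h1 : ∑ c ∈ 𝒞.sym2.filter (fun c => c ∈ (allP A).image (cp sm A)), g c =
        ∑ c ∈ 𝒞.sym2, g c := by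
      apply sum_filter_of_ne
      intro c _ hc
      by_contra hcon
      apply hc
      have h2 : N c = 0 := by
        rw [hN]
        change ((allP A).filter (fun e => cp sm A e = c)).card = 0
        rw [card_eq_zero, filter_eq_empty_iff]
        intro e he hec
        exact hcon (mem_image.2 ⟨e, he, hec⟩)
      rw [hg]
      change kap m b (N c) = 0
      rw [h2, kap_zero]
    rw [← h1]
    unfold cw
    apply sum_le_sum_of_subset_of_nonneg
    · intro c hc
      exact (mem_filter.1 hc).2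
    · intro c _ _
      exact hg0 c
  have hoff : ∀ C ∈ 𝒞, ∀ C' ∈ 𝒞, C ≠ C' → kap m b (C.card * C'.card) ≤ g s(C, C') := by
    intro C hC C' hC' hne
    apply kap_mono hm
    rw [← card_product]
    apply card_le_card_of_injOn (fun p : V × V => s(p.1, p.2))
    · rintro ⟨x, y⟩ hp
      have hp' := mem_product.1 (mem_coe.1 hp)
      obtain ⟨hx1, hx2⟩ := cf_mem sm hC hp'.1
      obtain ⟨hy1, hy2⟩ := cf_mem sm hC' hp'.2
      rw [mem_coe, mem_filter]
      refine ⟨hmk x hx1 y hy1 ?_, ?_⟩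
      · rintro rfl
        exact hne (hx2.symm.trans hy2)
      · change s(cl sm A x, cl sm A y) = s(C, C')
        rw [hx2, hy2]
    · rintro ⟨x, y⟩ hp ⟨x', y'⟩ hp' heq
      have hp1 := mem_product.1 (mem_coe.1 hp)
      have hp2 := mem_product.1 (mem_coe.1 hp')
      rcases Sym2.eq_iff.1 heq with ⟨h1, h2⟩ | ⟨h1, h2⟩
      · exact Prod.ext h1 h2
      · exfalso
        apply hne
        have h3 := (cf_mem sm hC hp1.1).2
        have h4 := (cf_mem sm hC' hp2.2).2
        have h5 : x = y' := h1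
        rw [h5] at h3
        exact h3.symm.trans h4
  have hdiag : ∀ C ∈ 𝒞, kap m b (C.card * C.card) ≤ 2 * g s(C, C) + C.card * lam m b 1 := by
    intro C hC
    have h1 : C.offDiag.card ≤ 2 * N s(C, C) := by
      refine (card_le_mul_card_image (f := fun p : V × V => s(p.1, p.2)) C.offDiag 2
        (fun c _ => cf_fiber _ c)).trans ?_
      apply Nat.mul_le_mul_left
      apply card_le_card
      intro e he
      obtain ⟨⟨x, y⟩, hp, rfl⟩ := mem_image.1 he
      obtain ⟨hx, hy, hxy⟩ := mem_offDiag.1 hp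
      obtain ⟨hx1, hx2⟩ := cf_mem sm hC hx
      obtain ⟨hy1, hy2⟩ := cf_mem sm hC hy
      rw [mem_filter]
      refine ⟨hmk x hx1 y hy1 hxy, ?_⟩
      change s(cl sm A x, cl sm A y) = s(C, C)
      rw [hx2, hy2]
    have h2 : C.card * C.card ≤ (N s(C, C) + N s(C, C)) + C.card := by
      rw [offDiag_card] at h1
      omega
    calc kap m b (C.card * C.card) ≤ kap m b ((N s(C, C) + N s(C, C)) + C.card) := kap_mono hm h2
      _ ≤ kap m b (N s(C, C) + N s(C, C)) + C.card * lam m b 1 := kap_add_le_mul hm _ _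
      _ ≤ (kap m b (N s(C, C)) + kap m b (N s(C, C))) + C.card * lam m b 1 :=
          add_le_add (kap_add_le hm _ _) le_rfl
      _ = 2 * g s(C, C) + C.card * lam m b 1 := by
          rw [hg]
          ring
  have hsplit : ∑ C ∈ 𝒞, ∑ C' ∈ 𝒞, kap m b (C.card * C'.card) =
      ∑ p ∈ 𝒞.diag, kap m b (p.1.card * p.2.card) +
        ∑ p ∈ 𝒞.offDiag, kap m b (p.1.card * p.2.card) := by
    rw [← sum_product', ← diag_union_offDiag, sum_union (disjoint_diag_offDiag 𝒞)]
  have hd : ∑ p ∈ 𝒞.diag, kap m b (p.1.card * p.2.card) ≤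
      2 * ∑ C ∈ 𝒞, g s(C, C) + A.card * lam m b 1 := by
    rw [sum_diag]
    have h1 : (A.card : ℝ) = ∑ C ∈ 𝒞, (C.card : ℝ) := by
      exact_mod_cast (sum_card_classes sm A).symm
    rw [h1, mul_sum, sum_mul, ← sum_add_distrib]
    exact sum_le_sum fun C hC => hdiag C hC
  have ho : ∑ p ∈ 𝒞.offDiag, kap m b (p.1.card * p.2.card) ≤
      2 * ∑ c ∈ 𝒞.sym2.filter (fun c => ¬ c.IsDiag), g c := by
    have h1 : ∑ p ∈ 𝒞.offDiag, kap m b (p.1.card * p.2.card) ≤
        ∑ p ∈ 𝒞.offDiag, g s(p.1, p.2) := by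
      apply sum_le_sum
      rintro ⟨C, C'⟩ hp
      obtain ⟨h1, h2, h3⟩ := mem_offDiag.1 hp
      exact hoff C h1 C' h2 h3
    refine h1.trans ?_
    have h2 := sum_fiberwise_of_maps_to (s := 𝒞.offDiag)
      (t := 𝒞.sym2.filter (fun c => ¬ c.IsDiag)) (g := fun p => s(p.1, p.2))
      (f := fun p => g s(p.1, p.2)) (by
        rintro ⟨C, C'⟩ hp
        obtain ⟨h1, h2, h3⟩ := mem_offDiag.1 hp
        rw [mem_filter, mk_mem_sym2_iff]
        exact ⟨⟨h1, h2⟩, fun h => h3 (Sym2.mk_isDiag_iff.1 h)⟩)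
    rw [← h2, mul_sum]
    apply sum_le_sum
    intro c _
    have h3 : ∑ p ∈ 𝒞.offDiag with s(p.1, p.2) = c, g s(p.1, p.2) =
        ((𝒞.offDiag.filter (fun p => s(p.1, p.2) = c)).card : ℝ) * g c := by
      rw [← nsmul_eq_mul]
      apply sum_eq_card_nsmul
      intro p hp
      rw [(mem_filter.1 hp).2]
    rw [h3]
    apply mul_le_mul_of_nonneg_right _ (hg0 c)
    exact_mod_cast cf_fiber 𝒞.offDiag c
  have hall : ∑ C ∈ 𝒞, g s(C, C) + ∑ c ∈ 𝒞.sym2.filter (fun c => ¬ c.IsDiag), g c =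
      ∑ c ∈ 𝒞.sym2, g c := by
    rw [← sum_filter_add_sum_filter_not 𝒞.sym2 (fun c => c.IsDiag)]
    congr 1
    refine sum_bij (fun C _ => s(C, C)) ?_ ?_ ?_ ?_
    · intro C hC
      rw [mem_filter, mk_mem_sym2_iff]
      exact ⟨⟨hC, hC⟩, Sym2.mk_isDiag_iff.2 rfl⟩
    · intro C _ C' _ h
      rcases Sym2.eq_iff.1 h with ⟨h1, _⟩ | ⟨h1, _⟩
      · exact h1
      · exact h1
    · intro c hc
      obtain ⟨h1, h2⟩ := mem_filter.1 hc
      induction c with
      | h C C' =>
        rw [mk_mem_sym2_iff] at h1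
        have h3 : C = C' := Sym2.mk_isDiag_iff.1 h2
        subst h3
        exact ⟨C, h1.1, rfl⟩
    · intro C _
      rfl
  rw [hsplit]
  linarith

end Pool.Agent.Helper5.CV
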