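import Mathlib
import Pool.Agent.Helper5.CV.Defs
import Pool.Agent.Helper5.CV.NN
import Pool.Agent.Helper5.CV.Mass
import Pool.Agent.Helper5.CV.Rat

/-!
# MP_d32cb0_co, module P06: the masses of B0 and B1

PROOFS.  `x, y ∉ W`, `x ≠ y`, so by `nn_lk`: `nn (lk ℱ W) {x} = nn ℱ (insert x W)`, … (`W ∪ {x,y} = insert x (insert y W)`),
`nn (lk ℱ W) ∅ = nn ℱ W`.  B0 says `F n(W+x) n(W+y) < n(W+x+y) n(W)`, i.e. `F < rat`, so `exp (log F) ≤ rat`: `tail` with
`τ = log F`.
B1: `mass_le_of_cond` with `ε = m p0`: for given `W, x, y` the mates `{u,v}` are among the `≤ m` pairs with the same `tn`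
(if `tn s(x,y) ≥ 2`, else none); for each of them with `n(W+x+y+u+v) < p0 n(W+x+y)` the number of `A ⊇ W+x+y+u+v` is
`< p0 n(W+x+y)`.  Union over the pairs.
-/

set_option autoImplicit false

namespace Pool.Agent.Helper5.CV

open Finset

variable {V : Type*} [DecidableEq V]

private theorem mb_nn1 (ℱ : Finset (Finset V)) {W : Finset V} {x : V} (hx : x ∉ W) :
    nn (lk ℱ W) {x} = nn ℱ (insert x W) := by
  rw [nn_lk ℱ (disjoint_singleton_right.2 hx), union_comm, ← insert_eq]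

private theorem mb_nn2 (ℱ : Finset (Finset V)) {W : Finset V} {x y : V} (hx : x ∉ W)
    (hy : y ∉ W) : nn (lk ℱ W) {x, y} = nn ℱ (insert x (insert y W)) := by
  have h1 : Disjoint W {x, y} := by
    rw [disjoint_insert_right, disjoint_singleton_right]
    exact ⟨hx, hy⟩
  rw [nn_lk ℱ h1]
  congr 1
  ext z
  simp only [mem_union, mem_insert, mem_singleton]
  tauto

private theorem mb_nn0 (ℱ : Finset (Finset V)) (W : Finset V) :
    nn (lk ℱ W) ∅ = nn ℱ W := by
  rw [nn_lk ℱ (disjoint_empty_right W), union_empty]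

private theorem mb_rat {ℱ : Finset (Finset V)} {A W : Finset V} (hA : A ∈ ℱ) (hW : W ⊆ A)
    {x y : V} (hx : x ∈ A \ W) (hy : y ∈ A \ W) (T : Thr) (hF : 1 < T.F)
    (h : B0 (lk ℱ W) T x y) : Real.exp (Real.log T.F) ≤ rat ℱ W x y := by
  rw [mem_sdiff] at hx hy
  unfold B0 at h
  rw [mb_nn1 ℱ hx.2, mb_nn1 ℱ hy.2, mb_nn2 ℱ hx.2 hy.2, mb_nn0] at h
  rw [Real.exp_log (by linarith)]
  have h1 : 0 < nn ℱ (insert x W) := nn_pos_of_mem hA (insert_subset hx.1 hW)
  have h2 : 0 < nn ℱ (insert y W) := nn_pos_of_mem hA (insert_subset hy.1 hW)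
  unfold rat
  rw [le_div_iff₀ (by positivity)]
  calc T.F * ((nn ℱ (insert x W) : ℝ) * nn ℱ (insert y W)) =
      T.F * nn ℱ (insert x W) * nn ℱ (insert y W) := by ring
    _ ≤ (nn ℱ (insert x (insert y W)) : ℝ) * nn ℱ W := h.le
    _ = _ := by ring

/-- the vertices of a pair together with `x`, `y`, `W` -/
private def mbR [Fintype V] (W : Finset V) (x y : V) (e : Sym2 V) : Finset V :=
  insert x (insert y W) ∪ univ.filter (fun z => z ∈ e)

open Classical in
private theorem mb_sub [Fintype V] (ℱ : Finset (Finset V)) (tn : Sym2 V → ℕ) (T : Thr)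
    {W : Finset V} {x y : V} (hx : x ∉ W) (hy : y ∉ W) :
    ℱ.filter (fun A => insert x (insert y W) ⊆ A ∧ B1 (lk ℱ W) tn T (A \ W) x y) ⊆
      (univ.filter (fun e : Sym2 V => tn e = tn s(x, y))).biUnion (fun e =>
        ℱ.filter (fun A => mbR W x y e ⊆ A ∧
          (nn ℱ (mbR W x y e) : ℝ) < T.p0 * nn ℱ (insert x (insert y W)))) := by
  intro A hA
  rw [mem_filter] at hA
  obtain ⟨hAF, hsub, u, v, ⟨hu, hv, _, _, _, htn⟩, hlt⟩ := hA
  rw [mem_sdiff] at hu hv
  rw [mem_biUnion]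
  refine ⟨s(u, v), mem_filter.2 ⟨mem_univ _, htn⟩, mem_filter.2 ⟨hAF, ?_, ?_⟩⟩
  · unfold mbR
    refine union_subset hsub fun z hz => ?_
    rw [mem_filter, Sym2.mem_iff] at hz
    rcases hz.2 with h | h
    · rw [h]
      exact hu.1
    · rw [h]
      exact hv.1
  · have h1 : Disjoint W {x, y, u, v} := by
      rw [disjoint_insert_right, disjoint_insert_right, disjoint_insert_right,
        disjoint_singleton_right]
      exact ⟨hx, hy, hu.2, hv.2⟩
    rw [nn_lk ℱ h1, mb_nn2 ℱ hx hy] at hlt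
    have h2 : mbR W x y s(u, v) = W ∪ {x, y, u, v} := by
      unfold mbR
      ext z
      simp only [mem_union, mem_insert, mem_singleton, mem_filter, mem_univ, true_and,
        Sym2.mem_iff]
      tauto
    rw [h2]
    exact hlt

open Classical in
private theorem mb_one [Fintype V] (ℱ : Finset (Finset V)) (T : Thr) (hp0 : 0 ≤ T.p0)
    (W : Finset V) (x y : V) (e : Sym2 V) :
    ((ℱ.filter (fun A => mbR W x y e ⊆ A ∧
      (nn ℱ (mbR W x y e) : ℝ) < T.p0 * nn ℱ (insert x (insert y W)))).card : ℝ) ≤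
      T.p0 * nn ℱ (insert x (insert y W)) := by
  by_cases h : (nn ℱ (mbR W x y e) : ℝ) < T.p0 * nn ℱ (insert x (insert y W))
  · have h1 : (ℱ.filter (fun A => mbR W x y e ⊆ A ∧
      (nn ℱ (mbR W x y e) : ℝ) < T.p0 * nn ℱ (insert x (insert y W)))).card ≤
      nn ℱ (mbR W x y e) := by
      unfold nn
      refine card_le_card fun A hA => ?_
      rw [mem_filter] at hA ⊢
      exact ⟨hA.1, hA.2.1⟩
    have h2 : ((ℱ.filter (fun A => mbR W x y e ⊆ A ∧
      (nn ℱ (mbR W x y e) : ℝ) < T.p0 * nn ℱ (insert x (insert y W)))).card : ℝ) ≤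
      nn ℱ (mbR W x y e) := by exact_mod_cast h1
    exact h2.trans h.le
  · have h1 : ℱ.filter (fun A => mbR W x y e ⊆ A ∧
      (nn ℱ (mbR W x y e) : ℝ) < T.p0 * nn ℱ (insert x (insert y W))) = ∅ := by
      rw [filter_eq_empty_iff]
      rintro A _ ⟨_, h2⟩
      exact h h2
    rw [h1, card_empty, Nat.cast_zero]
    positivity

theorem mass_B0 [Fintype V] {ℱ : Finset (Finset V)} {s k : ℕ} (hs : ∀ A ∈ ℱ, A.card = s)
    (hne : ℱ.Nonempty) (hk : k + 2 ≤ s) (T : Thr) (hF : 1 < T.F) :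
    (mass ℱ k (fun W _ x y => B0 (lk ℱ W) T x y) : ℝ) ≤
      (phi ℱ s k - phi ℱ s (k + 1) + 2) / Real.log T.F *
        (ℱ.card * s.choose k * (s - k : ℕ) * (s - k - 1 : ℕ)) := by
  have h1 := tail hs hne hk (Real.log_pos hF)
  refine le_trans ?_ h1
  have h2 : mass ℱ k (fun W _ x y => B0 (lk ℱ W) T x y) ≤
      mass ℱ k (fun W _ x y => Real.exp (Real.log T.F) ≤ rat ℱ W x y) := by
    refine mass_mono ℱ k fun A hA W hW _ x hx y hy _ h => ?_
    exact mb_rat hA hW hx hy T hF h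
  exact_mod_cast h2

theorem mass_B1 [Fintype V] {ℱ : Finset (Finset V)} {s k m : ℕ} (hs : ∀ A ∈ ℱ, A.card = s)
    (hk : k + 2 ≤ s) (tn : Sym2 V → ℕ)
    (hm : ∀ t, 2 ≤ t → (univ.filter (fun e : Sym2 V => tn e = t)).card ≤ m)
    (T : Thr) (hp0 : 0 ≤ T.p0) :
    (mass ℱ k (fun W A x y => B1 (lk ℱ W) tn T (A \ W) x y) : ℝ) ≤
      (m * T.p0) * (ℱ.card * s.choose k * (s - k : ℕ) * (s - k - 1 : ℕ)) := by
  classical
  refine mass_le_of_cond hs hk (fun W A x y => B1 (lk ℱ W) tn T (A \ W) x y) (by positivity)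
    fun W x y _ hx hy _ => ?_
  by_cases ht : 2 ≤ tn s(x, y)
  · have h1 := (card_le_card (mb_sub ℱ tn T hx hy)).trans card_biUnion_le
    have h2 : ((ℱ.filter (fun A => insert x (insert y W) ⊆ A ∧
        B1 (lk ℱ W) tn T (A \ W) x y)).card : ℝ) ≤
        ∑ e ∈ univ.filter (fun e : Sym2 V => tn e = tn s(x, y)),
          T.p0 * nn ℱ (insert x (insert y W)) := by
      refine le_trans (Nat.cast_le.2 h1) ?_
      push_cast
      exact sum_le_sum fun e _ => mb_one ℱ T hp0 W x y e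
    rw [sum_const, nsmul_eq_mul] at h2
    have h3 : ((univ.filter (fun e : Sym2 V => tn e = tn s(x, y))).card : ℝ) ≤ m := by
      exact_mod_cast hm _ ht
    have h4 : 0 ≤ T.p0 * nn ℱ (insert x (insert y W)) := by positivity
    calc _ ≤ _ := h2
      _ ≤ (m : ℝ) * (T.p0 * nn ℱ (insert x (insert y W))) :=
        mul_le_mul_of_nonneg_right h3 h4
      _ = _ := by ring
  · have h1 : ℱ.filter (fun A => insert x (insert y W) ⊆ A ∧
        B1 (lk ℱ W) tn T (A \ W) x y) = ∅ := by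
      rw [filter_eq_empty_iff]
      rintro A _ ⟨_, u, v, ⟨_, _, _, _, h2, _⟩, _⟩
      exact ht h2
    rw [h1, card_empty, Nat.cast_zero]
    positivity

end Pool.Agent.Helper5.CV
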