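import Mathlib
import Pool.Agent.Helper5.CV.Defs
import Pool.Agent.Helper5.CV.NN
import Pool.Agent.Helper5.CV.Mass
import Pool.Agent.Helper5.CV.Rat

/-!
# MP_d32cb0_co, module P07: the mass of B2

PROOF.  Reorganise the sum over `(A, W, x, y)` by `W' = W + y` (a `(k+1)`-subset of `A`), `x ∈ A \ W'`, `y ∈ W'`.
For `(A, W', x)` let `Γ = {u ∈ A \ W', u ≠ x : p0 n(W'+x) ≤ n(W'+x+u), n(W'+u) < p1 n(W')}`; it does not depend on `y`, and
B2 for `(W' - y, A, x, y)` says: some mate `{u,v}` of `{x,y}` has both ends in `Γ ∪ {x}` (by `nn_lk`: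
`nn (lk ℱ W) {x,y} = n(W'+x)`, `nn (lk ℱ W) {x,y,u} = n(W'+x+u)`, `nn (lk ℱ W) {y,u} = n(W'+u)`, `nn (lk ℱ W) {y} = n(W')`).
For each of the at most `(|Γ|+1)^2` ordered pairs `(u,v)` of `Γ ∪ {x}` there are at most `m` pairs `e` with
`tn e = tn s(u,v) ≥ 2`, so at most `m` values of `y`.  Hence `#{y ∈ W' : B2} ≤ min(k+1, m (|Γ|+1)^2)
≤ m R0^2 + (k+1) 1[|Γ|+1 > R0] ≤ m R0^2 + (k+1)(|Γ|+1)/R0`.
Sum over `(A, W', x)`: the number of triples is `|ℱ| C(s,k+1) (s-k-1)`, and `(k+1) C(s,k+1) = (s-k) C(s,k)`;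
`Σ |Γ| ≤ mass ℱ (k+1) {exp τ ≤ rat(W', x, u)}`, `τ = log(p0/p1)` (for `u ∈ Γ`:
`rat(W',x,u) = n(W') n(W'+x+u)/(n(W'+x) n(W'+u)) ≥ p0/p1`; here `n(W'+u) > 0` as `W'+u ⊆ A`), and this is
`≤ (e_{k+1}+2)/τ · |ℱ| C(s,k+1)(s-k-1)(s-k-2)` by `tail`.
Total: `D [ m R0²/(k+1) + 1/R0 + (s-k-2)(e_{k+1}+2)/(R0 τ) ]`, `D = |ℱ| C(s,k)(s-k)(s-k-1)`; bound `s-k-2 ≤ s`
(`e_{k+1} + 2 ≥ 0` by `e_lower`).
-/

set_option autoImplicit false

namespace Pool.Agent.Helper5.CV

open Finset

variable {V : Type*} [DecidableEq V]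

open Classical in
/-- the set of dependent vertices -/
private noncomputable def mbG (ℱ : Finset (Finset V)) (T : Thr) (A W' : Finset V) (x : V) :
    Finset V :=
  (A \ insert x W').filter (fun u => T.p0 * nn ℱ (insert x W') ≤ (nn ℱ (insert u (insert x W')) : ℝ) ∧
    (nn ℱ (insert u W') : ℝ) < T.p1 * nn ℱ W')

/-- the count for `A`, `W'`, `x` -/
private theorem mb_count [Fintype V] {ℱ : Finset (Finset V)} {m : ℕ} (tn : Sym2 V → ℕ)
    (hm : ∀ t, 2 ≤ t → (univ.filter (fun e : Sym2 V => tn e = t)).card ≤ m)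
    (T : Thr) {A W' : Finset V} (hW' : W' ⊆ A) {x : V} (hx : x ∈ A \ W')
    (Y : Finset V) (hY : Y ⊆ W')
    (hB : ∀ y ∈ Y, B2 (lk ℱ (W'.erase y)) tn T (A \ W'.erase y) x y) :
    Y.card ≤ m * ((mbG ℱ T A W' x).card + 1) ^ 2 := by
  classical
  obtain ⟨G, hG⟩ : ∃ G, G = insert x (mbG ℱ T A W' x) := ⟨_, rfl⟩
  have hxW : x ∉ W' := (mem_sdiff.1 hx).2
  have hkey : ∀ y ∈ Y, ∃ u ∈ G, ∃ v ∈ G, 2 ≤ tn s(u, v) ∧ tn s(x, y) = tn s(u, v) := by
    intro y hy
    have hyW : y ∈ W' := hY hy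
    obtain ⟨u, v, hM, hu, hv⟩ := hB y hy
    obtain ⟨huA, hvA, huv, hne, h2, heq⟩ := hM
    have hmem : ∀ w, w ∈ A \ W'.erase y → (w = x ∨ Gm (lk ℱ (W'.erase y)) T x y w) → w ∈ G := by
      intro w hwA hw
      rw [hG, mem_insert]
      rcases hw with hw | hw
      · exact Or.inl hw
      · obtain ⟨hwx, hwy, hw1, hw2⟩ := hw
        right
        unfold mbG
        rw [mem_filter, mem_sdiff, mem_insert, not_or]
        rw [mem_sdiff, mem_erase, not_and] at hwA
        have hd1 : Disjoint (W'.erase y) ({x, y} : Finset V) := by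
          rw [disjoint_right]
          intro a ha
          rw [mem_insert, mem_singleton] at ha
          rcases ha with rfl | rfl
          · exact fun h => hxW (mem_of_mem_erase h)
          · exact notMem_erase _ _
        have hwW : w ∉ W' := hwA.2 hwy
        have hd2 : Disjoint (W'.erase y) ({x, y, w} : Finset V) := by
          rw [disjoint_right]
          intro a ha
          rw [mem_insert, mem_insert, mem_singleton] at ha
          rcases ha with rfl | rfl | rfl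
          · exact fun h => hxW (mem_of_mem_erase h)
          · exact notMem_erase _ _
          · exact fun h => hwW (mem_of_mem_erase h)
        have hd3 : Disjoint (W'.erase y) ({y, w} : Finset V) := by
          rw [disjoint_right]
          intro a ha
          rw [mem_insert, mem_singleton] at ha
          rcases ha with rfl | rfl
          · exact notMem_erase _ _
          · exact fun h => hwW (mem_of_mem_erase h)
        have hd4 : Disjoint (W'.erase y) ({y} : Finset V) := by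
          rw [disjoint_right]
          intro a ha
          rw [mem_singleton] at ha
          rw [ha]
          exact notMem_erase _ _
        have he1 : W'.erase y ∪ {x, y} = insert x W' := by
          ext a
          simp only [mem_union, mem_erase, mem_insert, mem_singleton]
          constructor
          · rintro (⟨-, h⟩ | h | h)
            · exact Or.inr h
            · exact Or.inl h
            · rw [h]; exact Or.inr hyW
          · rintro (h | h)
            · exact Or.inr (Or.inl h)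
            · by_cases hay : a = y
              · exact Or.inr (Or.inr hay)
              · exact Or.inl ⟨hay, h⟩
        have he2 : W'.erase y ∪ {x, y, w} = insert w (insert x W') := by
          ext a
          simp only [mem_union, mem_erase, mem_insert, mem_singleton]
          constructor
          · rintro (⟨-, h⟩ | h | h | h)
            · exact Or.inr (Or.inr h)
            · exact Or.inr (Or.inl h)
            · rw [h]; exact Or.inr (Or.inr hyW)
            · exact Or.inl h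
          · rintro (h | h | h)
            · exact Or.inr (Or.inr (Or.inr h))
            · exact Or.inr (Or.inl h)
            · by_cases hay : a = y
              · exact Or.inr (Or.inr (Or.inl hay))
              · exact Or.inl ⟨hay, h⟩
        have he3 : W'.erase y ∪ {y, w} = insert w W' := by
          ext a
          simp only [mem_union, mem_erase, mem_insert, mem_singleton]
          constructor
          · rintro (⟨-, h⟩ | h | h)
            · exact Or.inr h
            · rw [h]; exact Or.inr hyW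
            · exact Or.inl h
          · rintro (h | h)
            · exact Or.inr (Or.inr h)
            · by_cases hay : a = y
              · exact Or.inr (Or.inl hay)
              · exact Or.inl ⟨hay, h⟩
        have he4 : W'.erase y ∪ {y} = W' := by
          ext a
          simp only [mem_union, mem_erase, mem_singleton]
          constructor
          · rintro (⟨-, h⟩ | h)
            · exact h
            · rw [h]; exact hyW
          · intro h
            by_cases hay : a = y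
            · exact Or.inr hay
            · exact Or.inl ⟨hay, h⟩
        rw [nn_lk ℱ hd1, nn_lk ℱ hd2, he1, he2] at hw1
        rw [nn_lk ℱ hd3, nn_lk ℱ hd4, he3, he4] at hw2
        exact ⟨⟨hwA.1, hwx, hwW⟩, hw1, hw2⟩
    exact ⟨u, hmem u huA hu, v, hmem v hvA hv, by rw [heq]; exact h2, heq.symm⟩
  have hsub : Y ⊆ (G ×ˢ G).biUnion (fun p => if 2 ≤ tn s(p.1, p.2) then
      Y.filter (fun y => tn s(x, y) = tn s(p.1, p.2)) else ∅) := by
    intro y hy
    obtain ⟨u, hu, v, hv, h2, h3⟩ := hkey y hy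
    rw [mem_biUnion]
    refine ⟨(u, v), mem_product.2 ⟨hu, hv⟩, ?_⟩
    rw [if_pos h2, mem_filter]
    exact ⟨hy, h3⟩
  have hone : ∀ p ∈ G ×ˢ G, (if 2 ≤ tn s(p.1, p.2) then
      Y.filter (fun y => tn s(x, y) = tn s(p.1, p.2)) else ∅).card ≤ m := by
    intro p _
    split_ifs with h2
    · refine le_trans ?_ (hm _ h2)
      refine card_le_card_of_injOn (fun y => s(x, y)) ?_ ?_
      · intro y hy
        have hy' := mem_filter.1 hy
        exact mem_filter.2 ⟨mem_univ _, hy'.2⟩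
      · intro y _ y' _ h
        have h' : s(x, y) = s(x, y') := h
        rw [Sym2.eq_iff] at h'
        rcases h' with h' | h'
        · exact h'.2
        · rw [h'.2, ← h'.1]
    · rw [card_empty]
      exact Nat.zero_le _
  have h1 := (card_le_card hsub).trans (card_biUnion_le_card_mul _ _ _ hone)
  rw [card_product] at h1
  have h2 : G.card ≤ (mbG ℱ T A W' x).card + 1 := by
    rw [hG]
    exact card_insert_le _ _
  calc Y.card ≤ G.card * G.card * m := h1
    _ ≤ ((mbG ℱ T A W' x).card + 1) * ((mbG ℱ T A W' x).card + 1) * m :=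
        Nat.mul_le_mul_right _ (Nat.mul_le_mul h2 h2)
    _ = m * ((mbG ℱ T A W' x).card + 1) ^ 2 := by ring

open Classical in
/-- exchange of `y` -/
private theorem mb_exch (ℱ : Finset (Finset V)) (k : ℕ)
    (Pr : Finset V → Finset V → V → V → Prop) :
    mass ℱ k Pr = ∑ A ∈ ℱ, ∑ W' ∈ A.powersetCard (k + 1), ∑ x ∈ A \ W',
      (W'.filter (fun y => Pr (W'.erase y) A x y)).card := by
  unfold mass
  refine sum_congr rfl fun A _ => ?_
  have h1 : ∑ W ∈ A.powersetCard k, ((A \ W).offDiag.filter (fun p => Pr W A p.1 p.2)).card =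
      ((A.powersetCard k).sigma (fun W => (A \ W).offDiag.filter (fun p => Pr W A p.1 p.2))).card := by
    rw [card_sigma]
  have h2 : ∑ W' ∈ A.powersetCard (k + 1), ∑ x ∈ A \ W',
      (W'.filter (fun y => Pr (W'.erase y) A x y)).card =
      ((A.powersetCard (k + 1)).sigma (fun W' => (A \ W').sigma
        (fun x => W'.filter (fun y => Pr (W'.erase y) A x y)))).card := by
    rw [card_sigma]
    refine sum_congr rfl fun W' _ => ?_
    rw [card_sigma]
  rw [h1, h2]
  refine card_bij' (fun p _ => ⟨insert p.2.2 p.1, p.2.1, p.2.2⟩)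
    (fun p _ => ⟨p.1.erase p.2.2, (p.2.1, p.2.2)⟩) ?_ ?_ ?_ ?_
  · rintro ⟨W, x, y⟩ h
    simp only [mem_sigma, mem_powersetCard, mem_filter, mem_offDiag, mem_sdiff] at h ⊢
    obtain ⟨⟨hW, hk⟩, ⟨⟨hxA, hxW⟩, ⟨hyA, hyW⟩, hxy⟩, hP⟩ := h
    refine ⟨⟨insert_subset hyA hW, by rw [card_insert_of_notMem hyW, hk]⟩,
      ⟨hxA, ?_⟩, mem_insert_self _ _, ?_⟩
    · rw [mem_insert, not_or]
      exact ⟨hxy, hxW⟩
    · rw [erase_insert hyW]
      exact hP
  · rintro ⟨W, x, y⟩ h
    simp only [mem_sigma, mem_powersetCard, mem_filter, mem_offDiag, mem_sdiff] at h ⊢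
    obtain ⟨⟨hW, hk⟩, ⟨hxA, hxW⟩, hyW, hP⟩ := h
    refine ⟨⟨(erase_subset _ _).trans hW, by rw [card_erase_of_mem hyW, hk]; rfl⟩,
      ⟨⟨hxA, fun h => hxW (mem_of_mem_erase h)⟩, ⟨hW hyW, notMem_erase _ _⟩, ?_⟩, hP⟩
    rintro rfl
    exact hxW hyW
  · rintro ⟨W, x, y⟩ h
    simp only [mem_sigma, mem_powersetCard, mem_filter, mem_offDiag, mem_sdiff] at h
    obtain ⟨⟨hW, hk⟩, ⟨⟨hxA, hxW⟩, ⟨hyA, hyW⟩, hxy⟩, hP⟩ := h
    simp only [erase_insert hyW]
  · rintro ⟨W, x, y⟩ h
    simp only [mem_sigma, mem_powersetCard, mem_filter, mem_sdiff] at h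
    obtain ⟨⟨hW, hk⟩, ⟨hxA, hxW⟩, hyW, hP⟩ := h
    simp only [insert_erase hyW]

theorem mass_B2 [Fintype V] {ℱ : Finset (Finset V)} {s k m : ℕ} (hs : ∀ A ∈ ℱ, A.card = s)
    (hne : ℱ.Nonempty) (hk : k + 3 ≤ s) (tn : Sym2 V → ℕ)
    (hm : ∀ t, 2 ≤ t → (univ.filter (fun e : Sym2 V => tn e = t)).card ≤ m)
    (T : Thr) (hp1 : 0 < T.p1) (h01 : T.p1 < T.p0) {R0 : ℝ} (hR : 1 ≤ R0) :
    (mass ℱ k (fun W A x y => B2 (lk ℱ W) tn T (A \ W) x y) : ℝ) ≤
      ((s * (phi ℱ s (k + 1) - phi ℱ s (k + 2) + 2) / Real.log (T.p0 / T.p1) + 1) / R0 +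
        m * R0 ^ 2 / (k + 1)) *
        (ℱ.card * s.choose k * (s - k : ℕ) * (s - k - 1 : ℕ)) := by
  classical
  have hR0 : 0 < R0 := by linarith
  obtain ⟨τ, hτ⟩ : ∃ τ, τ = Real.log (T.p0 / T.p1) := ⟨_, rfl⟩
  have hquo : 1 < T.p0 / T.p1 := (one_lt_div hp1).2 h01
  have hτ0 : 0 < τ := by rw [hτ]; exact Real.log_pos hquo
  have hexp : Real.exp τ = T.p0 / T.p1 := by rw [hτ, Real.exp_log (by linarith)]
  -- the mass of the dependent vertices
  have hΓ : ∑ A ∈ ℱ, ∑ W' ∈ A.powersetCard (k + 1), ∑ x ∈ A \ W', (mbG ℱ T A W' x).card ≤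
      mass ℱ (k + 1) (fun W _ x y => Real.exp τ ≤ rat ℱ W x y) := by
    unfold mass
    refine sum_le_sum fun A hA => sum_le_sum fun W' hW' => ?_
    rw [← card_sigma]
    refine card_le_card_of_injOn (fun p => (p.1, p.2)) ?_ ?_
    · rintro ⟨x, u⟩ h
      have h' := mem_sigma.1 (mem_coe.1 h)
      obtain ⟨hx, hu⟩ := h'
      simp only at hx hu
      unfold mbG at hu
      rw [mem_filter, mem_sdiff, mem_insert, not_or] at hu
      obtain ⟨⟨huA, hux, huW⟩, h1, h2⟩ := hu
      rw [mem_coe, mem_filter, mem_offDiag]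
      refine ⟨⟨hx, mem_sdiff.2 ⟨huA, huW⟩, fun h => hux h.symm⟩, ?_⟩
      have hWA := (mem_powersetCard.1 hW').1
      have hxA := (mem_sdiff.1 hx).1
      have p1 : 0 < nn ℱ W' := nn_pos_of_mem hA hWA
      have p2 : 0 < nn ℱ (insert x W') := nn_pos_of_mem hA (insert_subset hxA hWA)
      have p3 : 0 < nn ℱ (insert u W') := nn_pos_of_mem hA (insert_subset huA hWA)
      have p1' : (0 : ℝ) < nn ℱ W' := by exact_mod_cast p1
      have p2' : (0 : ℝ) < nn ℱ (insert x W') := by exact_mod_cast p2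
      have p3' : (0 : ℝ) < nn ℱ (insert u W') := by exact_mod_cast p3
      change Real.exp τ ≤ rat ℱ W' x u
      rw [hexp]
      unfold rat
      rw [insert_comm x u, div_le_div_iff₀ hp1 (by positivity)]
      have h3 : T.p0 * nn ℱ (insert x W') * nn ℱ W' * T.p1 ≤
          (nn ℱ (insert u (insert x W')) : ℝ) * nn ℱ W' * T.p1 := by
        have := mul_le_mul_of_nonneg_right h1 (mul_pos p1' hp1).le
        nlinarith
      have h4 : T.p0 * nn ℱ (insert x W') * nn ℱ (insert u W') ≤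
          T.p0 * nn ℱ (insert x W') * (T.p1 * nn ℱ W') :=
        mul_le_mul_of_nonneg_left h2.le (mul_pos (by linarith) p2').le
      nlinarith
    · rintro ⟨x, u⟩ _ ⟨x', u'⟩ _ h
      simp only [Prod.mk.injEq] at h
      obtain ⟨rfl, rfl⟩ := h
      rfl
  have htail := tail hs hne (k := k + 1) (by omega) hτ0
  -- pointwise
  have hpt : ∀ A ∈ ℱ, ∀ W' ∈ A.powersetCard (k + 1), ∀ x ∈ A \ W',
      ((W'.filter (fun y => B2 (lk ℱ (W'.erase y)) tn T (A \ W'.erase y) x y)).card : ℝ) ≤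
        m * R0 ^ 2 + ((k : ℝ) + 1) / R0 + ((k : ℝ) + 1) / R0 * (mbG ℱ T A W' x).card := by
    intro A _ W' hW' x hx
    have hWA := mem_powersetCard.1 hW'
    have h1 := mb_count (ℱ := ℱ) tn hm T hWA.1 hx
      (W'.filter (fun y => B2 (lk ℱ (W'.erase y)) tn T (A \ W'.erase y) x y)) (filter_subset _ _)
      (fun y hy => (mem_filter.1 hy).2)
    have h2 : (W'.filter (fun y => B2 (lk ℱ (W'.erase y)) tn T (A \ W'.erase y) x y)).card ≤
        k + 1 := by
      rw [← hWA.2]
      exact card_le_card (filter_subset _ _)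
    have hk1 : (0 : ℝ) ≤ ((k : ℝ) + 1) / R0 := by positivity
    have hg : (0 : ℝ) ≤ ((mbG ℱ T A W' x).card : ℝ) := by positivity
    by_cases hc : ((mbG ℱ T A W' x).card : ℝ) + 1 ≤ R0
    · have h3 : ((W'.filter (fun y => B2 (lk ℱ (W'.erase y)) tn T (A \ W'.erase y) x y)).card : ℝ) ≤
          m * (((mbG ℱ T A W' x).card : ℝ) + 1) ^ 2 := by exact_mod_cast h1
      have h4 : (m : ℝ) * (((mbG ℱ T A W' x).card : ℝ) + 1) ^ 2 ≤ m * R0 ^ 2 := by
        apply mul_le_mul_of_nonneg_left _ (by positivity)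
        exact pow_le_pow_left₀ (by positivity) hc 2
      have h5 := mul_nonneg hk1 hg
      linarith
    · push Not at hc
      have h3 : ((W'.filter (fun y => B2 (lk ℱ (W'.erase y)) tn T (A \ W'.erase y) x y)).card : ℝ) ≤
          (k : ℝ) + 1 := by exact_mod_cast h2
      have h4 : (k : ℝ) + 1 ≤ ((k : ℝ) + 1) / R0 * (((mbG ℱ T A W' x).card : ℝ) + 1) := by
        rw [div_mul_eq_mul_div, le_div_iff₀ hR0]
        exact mul_le_mul_of_nonneg_left hc.le (by positivity)
      have h5 : (0 : ℝ) ≤ m * R0 ^ 2 := by positivity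
      linarith
  -- number of triples
  have hcount : ∑ A ∈ ℱ, ∑ W' ∈ A.powersetCard (k + 1), ∑ _x ∈ A \ W', (1 : ℝ) =
      ℱ.card * s.choose (k + 1) * ((s - (k + 1) : ℕ) : ℝ) := by
    have h1 : ∀ A ∈ ℱ, ∑ W' ∈ A.powersetCard (k + 1), ∑ _x ∈ A \ W', (1 : ℝ) =
        s.choose (k + 1) * ((s - (k + 1) : ℕ) : ℝ) := by
      intro A hA
      have h2 : ∀ W' ∈ A.powersetCard (k + 1), ∑ _x ∈ A \ W', (1 : ℝ) =
          ((s - (k + 1) : ℕ) : ℝ) := by
        intro W' hW'
        have hWA := mem_powersetCard.1 hW'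
        rw [sum_const, card_sdiff_of_subset hWA.1, hWA.2, hs A hA, nsmul_eq_mul, mul_one]
      rw [sum_congr rfl h2, sum_const, card_powersetCard, hs A hA, nsmul_eq_mul]
    rw [sum_congr rfl h1, sum_const, nsmul_eq_mul]
    ring
  have hmain : (mass ℱ k (fun W A x y => B2 (lk ℱ W) tn T (A \ W) x y) : ℝ) ≤
      (m * R0 ^ 2 + ((k : ℝ) + 1) / R0) *
        (ℱ.card * s.choose (k + 1) * ((s - (k + 1) : ℕ) : ℝ)) +
      ((k : ℝ) + 1) / R0 * (mass ℱ (k + 1) (fun W _ x y => Real.exp τ ≤ rat ℱ W x y) : ℝ) := by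
    rw [mb_exch ℱ k (fun W A x y => B2 (lk ℱ W) tn T (A \ W) x y)]
    push_cast
    have h1 : ∑ A ∈ ℱ, ∑ W' ∈ A.powersetCard (k + 1), ∑ x ∈ A \ W',
        ((W'.filter (fun y => B2 (lk ℱ (W'.erase y)) tn T (A \ W'.erase y) x y)).card : ℝ) ≤
        ∑ A ∈ ℱ, ∑ W' ∈ A.powersetCard (k + 1), ∑ x ∈ A \ W',
        ((m * R0 ^ 2 + ((k : ℝ) + 1) / R0) * 1 +
          ((k : ℝ) + 1) / R0 * ((mbG ℱ T A W' x).card : ℝ)) := by
      refine sum_le_sum fun A hA => sum_le_sum fun W' hW' => sum_le_sum fun x hx => ?_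
      rw [mul_one]
      exact hpt A hA W' hW' x hx
    refine h1.trans ?_
    simp only [sum_add_distrib, ← mul_sum]
    rw [hcount]
    have h2 : (∑ A ∈ ℱ, ∑ W' ∈ A.powersetCard (k + 1), ∑ x ∈ A \ W',
        ((mbG ℱ T A W' x).card : ℝ)) ≤
        (mass ℱ (k + 1) (fun W _ x y => Real.exp τ ≤ rat ℱ W x y) : ℝ) := by
      exact_mod_cast hΓ
    have h3 : (0 : ℝ) ≤ ((k : ℝ) + 1) / R0 := by positivity
    linarith [mul_le_mul_of_nonneg_left h2 h3]
  -- algebra
  have hch : ((k : ℝ) + 1) * (s.choose (k + 1) : ℝ) = (s.choose k : ℝ) * ((s - k : ℕ) : ℝ) := by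
    have h1 := Nat.choose_succ_right_eq s k
    have h2 : ((s.choose (k + 1) * (k + 1) : ℕ) : ℝ) = ((s.choose k * (s - k) : ℕ) : ℝ) := by
      rw [h1]
    push_cast at h2
    linarith
  obtain ⟨D, hD⟩ : ∃ D : ℝ, D = (ℱ.card * s.choose k * ((s - k : ℕ) : ℝ) *
      ((s - k - 1 : ℕ) : ℝ)) := ⟨_, rfl⟩
  have hD0 : 0 ≤ D := by rw [hD]; positivity
  have hs1 : s - (k + 1) = s - k - 1 := by omega
  have hk0 : (0 : ℝ) < (k : ℝ) + 1 := by positivity
  have hD1 : (ℱ.card * s.choose (k + 1) * ((s - (k + 1) : ℕ) : ℝ)) = D / ((k : ℝ) + 1) := by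
    rw [eq_div_iff hk0.ne', hD, hs1]
    calc _ = (ℱ.card : ℝ) * (((k : ℝ) + 1) * (s.choose (k + 1) : ℝ)) *
        ((s - k - 1 : ℕ) : ℝ) := by ring
      _ = _ := by rw [hch]; ring
  have he := e_lower hs hne (k := k + 1) (by omega)
  have hfin : (mass ℱ (k + 1) (fun W _ x y => Real.exp τ ≤ rat ℱ W x y) : ℝ) ≤
      s * (phi ℱ s (k + 1) - phi ℱ s (k + 2) + 2) / τ * (D / ((k : ℝ) + 1)) := by
    refine htail.trans ?_
    have h1 : (ℱ.card * s.choose (k + 1) * ((s - (k + 1) : ℕ) : ℝ) *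
        ((s - (k + 1) - 1 : ℕ) : ℝ)) ≤ s * (D / ((k : ℝ) + 1)) := by
      rw [hD1, mul_comm (s : ℝ)]
      apply mul_le_mul_of_nonneg_left _ (by positivity)
      have : s - (k + 1) - 1 ≤ s := by omega
      exact_mod_cast this
    have h2 : 0 ≤ (phi ℱ s (k + 1) - phi ℱ s (k + 2) + 2) / τ := by
      apply div_nonneg _ hτ0.le
      have he' : -1 ≤ phi ℱ s (k + 1) - phi ℱ s (k + 2) := he
      linarith
    have h3 := mul_le_mul_of_nonneg_left h1 h2
    refine h3.trans (le_of_eq ?_)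
    ring
  rw [hD1] at hmain
  rw [← hτ, ← hD]
  refine hmain.trans ?_
  have h6 : ((k : ℝ) + 1) / R0 * (mass ℱ (k + 1) (fun W _ x y => Real.exp τ ≤ rat ℱ W x y) : ℝ) ≤
      ((k : ℝ) + 1) / R0 *
        (s * (phi ℱ s (k + 1) - phi ℱ s (k + 2) + 2) / τ * (D / ((k : ℝ) + 1))) :=
    mul_le_mul_of_nonneg_left hfin (by positivity)
  refine (add_le_add le_rfl h6).trans (le_of_eq ?_)
  field_simp
  ring

end Pool.Agent.Helper5.CV
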