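import Mathlib
import Pool.Agent.Helper5.CV.Defs
import Pool.Agent.Helper5.CV.NN
import Pool.Agent.Helper5.CV.Mass

/-!
# MP_d32cb0_co, module P08: the masses of B3 and B4

PROOF (for a fixed `W`, `n(.) = nn ℱ (W ∪ .) = nn (lk ℱ W) .`, `n = n(∅)`; if `n = 0` everything is `0`).
`¬B0`: `n(xy) ≤ F n(x) n(y)/n`.
B3: `Σ_{x,y} n(xy) 1[B3] ≤ Σ_z (F/n) Σ_x Σ_y n(x) n(y) 1[p1 n(x) ≤ n(xz)] 1[p1 n(y) ≤ n(yz)]` (`z` with `n(z) < p2 n`)
`≤ (F/n) Σ_z (Σ_x n(xz)/p1)² ≤ (F/(n p1²)) Σ_z (s n(z))² ≤ F s² p2/p1² Σ_z n(z) ≤ F p2 p1^{-2} s³ n`.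
(`sum_nn_pair_le` for `lk ℱ W`, whose members have `≤ s` elements.)
B4: `Σ_{x,y} n(xy) 1[B4] ≤ Σ_z (F/n) Σ_x (n(xz)/p1) Σ_y n(y) 1[n(y)<p2 n] 1[p1 n(z) ≤ n(zy)]`
`≤ (F/n)(1/p1) Σ_z s n(z) · p2 n · #{y : p1 n(z) ≤ n(zy)}`; if `n(z) > 0` the last number is `≤ s/p1` (from `Σ_y n(zy) ≤ s n(z)`),
if `n(z) = 0` the term is `0`.  Total `≤ F p2 p1^{-2} s² Σ_z n(z) ≤ F p2 p1^{-2} s³ n`.
Sum over the `k`-sets `W`: `Σ_W n(W) = |ℱ| C(s,k)`.  Use `mass_eq` (the predicates do not depend on `A`).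
-/

set_option autoImplicit false

namespace Pool.Agent.Helper5.CV

open Finset

variable {V : Type*} [DecidableEq V]

/-- Double counting with weights `w z` of the middle vertex. -/
private theorem core34 [Fintype V] {ℬ : Finset (Finset V)} {s : ℕ} (hB : ∀ B ∈ ℬ, B.card = s)
    {K : ℝ} (w : V → ℝ) (hw : ∀ z, 0 ≤ w z)
    (hwK : ∀ z, w z * (nn ℬ {z} : ℝ) ≤ K) :
    ∑ x : V, ∑ y : V, ∑ z : V, w z * (nn ℬ {x, z} : ℝ) * (nn ℬ {y, z} : ℝ) ≤
      K * (s : ℝ) ^ 3 * (nn ℬ ∅ : ℝ) := by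
  have hpair : ∀ z : V, ∑ x : V, (nn ℬ {x, z} : ℝ) ≤ s * (nn ℬ {z} : ℝ) := by
    intro z
    have h1 := sum_nn_pair_le (fun B hB' => (hB B hB').le) z
    have h2 : ∑ x : V, (nn ℬ {x, z} : ℝ) = ((∑ x : V, nn ℬ {z, x} : ℕ) : ℝ) := by
      rw [Nat.cast_sum]
      refine Finset.sum_congr rfl fun x _ => ?_
      rw [Finset.pair_comm]
    rw [h2]
    exact_mod_cast h1
  have hpos : ∀ z : V, 0 ≤ ∑ x : V, (nn ℬ {x, z} : ℝ) :=
    fun z => Finset.sum_nonneg fun x _ => Nat.cast_nonneg _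
  have hsw : ∑ x : V, ∑ y : V, ∑ z : V, w z * (nn ℬ {x, z} : ℝ) * (nn ℬ {y, z} : ℝ) =
      ∑ z : V, w z * ((∑ x : V, (nn ℬ {x, z} : ℝ)) * ∑ y : V, (nn ℬ {y, z} : ℝ)) := by
    calc ∑ x : V, ∑ y : V, ∑ z : V, w z * (nn ℬ {x, z} : ℝ) * (nn ℬ {y, z} : ℝ)
        = ∑ x : V, ∑ z : V, ∑ y : V, w z * (nn ℬ {x, z} : ℝ) * (nn ℬ {y, z} : ℝ) :=
          Finset.sum_congr rfl fun x _ => Finset.sum_comm
      _ = ∑ z : V, ∑ x : V, ∑ y : V, w z * (nn ℬ {x, z} : ℝ) * (nn ℬ {y, z} : ℝ) :=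
          Finset.sum_comm
      _ = _ := by
          refine Finset.sum_congr rfl fun z _ => ?_
          rw [Finset.sum_mul_sum, Finset.mul_sum]
          refine Finset.sum_congr rfl fun x _ => ?_
          rw [Finset.mul_sum]
          refine Finset.sum_congr rfl fun y _ => ?_
          ring
  rw [hsw]
  have hone : ∀ z : V, w z * ((∑ x : V, (nn ℬ {x, z} : ℝ)) * ∑ y : V, (nn ℬ {y, z} : ℝ)) ≤
      K * (s : ℝ) ^ 2 * (nn ℬ {z} : ℝ) := by
    intro z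
    have h1 : (∑ x : V, (nn ℬ {x, z} : ℝ)) * ∑ y : V, (nn ℬ {y, z} : ℝ) ≤
        (s * (nn ℬ {z} : ℝ)) * (s * (nn ℬ {z} : ℝ)) :=
      mul_le_mul (hpair z) (hpair z) (hpos z) (by positivity)
    calc w z * ((∑ x : V, (nn ℬ {x, z} : ℝ)) * ∑ y : V, (nn ℬ {y, z} : ℝ))
        ≤ w z * ((s * (nn ℬ {z} : ℝ)) * (s * (nn ℬ {z} : ℝ))) :=
          mul_le_mul_of_nonneg_left h1 (hw z)
      _ = (w z * (nn ℬ {z} : ℝ)) * ((s : ℝ) ^ 2 * (nn ℬ {z} : ℝ)) := by ring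
      _ ≤ K * ((s : ℝ) ^ 2 * (nn ℬ {z} : ℝ)) :=
          mul_le_mul_of_nonneg_right (hwK z) (by positivity)
      _ = K * (s : ℝ) ^ 2 * (nn ℬ {z} : ℝ) := by ring
  have hsing : ∑ z : V, (nn ℬ {z} : ℝ) = s * (nn ℬ ∅ : ℝ) := by
    have h1 := sum_nn_singleton hB
    rw [← nn_empty ℬ] at h1
    have h2 : ∑ z : V, (nn ℬ {z} : ℝ) = ((∑ z : V, nn ℬ {z} : ℕ) : ℝ) := by
      rw [Nat.cast_sum]
    rw [h2, h1]
    push_cast
    ring
  calc ∑ z : V, w z * ((∑ x : V, (nn ℬ {x, z} : ℝ)) * ∑ y : V, (nn ℬ {y, z} : ℝ))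
      ≤ ∑ z : V, K * (s : ℝ) ^ 2 * (nn ℬ {z} : ℝ) := Finset.sum_le_sum fun z _ => hone z
    _ = K * (s : ℝ) ^ 2 * ∑ z : V, (nn ℬ {z} : ℝ) := by rw [Finset.mul_sum]
    _ = K * (s : ℝ) ^ 3 * (nn ℬ ∅ : ℝ) := by
        rw [hsing]
        ring

/-- The mass of a property with a middle vertex. -/
private theorem mass34 [Fintype V] {ℱ : Finset (Finset V)} {s k : ℕ} (hs : ∀ A ∈ ℱ, A.card = s)
    {K : ℝ} (hK : 0 ≤ K) (Q : Finset V → V → V → Prop)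
    (h : ∀ W : Finset V, ∃ w : V → ℝ, (∀ z, 0 ≤ w z) ∧
      (∀ z, w z * (nn (lk ℱ W) {z} : ℝ) ≤ K) ∧
      ∀ x y, Q W x y → (nn (lk ℱ W) {x, y} : ℝ) ≤
        ∑ z : V, w z * (nn (lk ℱ W) {x, z} : ℝ) * (nn (lk ℱ W) {y, z} : ℝ)) :
    (mass ℱ k (fun W _ x y => Q W x y) : ℝ) ≤ K * (s : ℝ) ^ 3 * (ℱ.card * s.choose k) := by
  classical
  rw [mass_eq]
  push_cast
  have hW : ∀ W ∈ powersetCard k (univ : Finset V),
      ∑ x ∈ univ \ W, ∑ y ∈ univ \ insert x W,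
        ((if Q W x y then nn ℱ (insert x (insert y W)) else 0 : ℕ) : ℝ) ≤
      K * (s : ℝ) ^ 3 * (nn ℱ W : ℝ) := by
    intro W hW
    have hWc : W.card = k := (mem_powersetCard.1 hW).2
    obtain ⟨w, hw, hwK, hQ⟩ := h W
    have hlk : ∀ B ∈ lk ℱ W, B.card = s - k := by
      intro B hB
      obtain ⟨h1, h2⟩ := mem_lk.1 hB
      have h3 := hs _ h2
      rw [Finset.card_union_of_disjoint h1] at h3
      omega
    have hn : nn (lk ℱ W) ∅ = nn ℱ W := by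
      rw [nn_empty, card_lk]
    have hterm : ∀ x y : V,
        0 ≤ ∑ z : V, w z * (nn (lk ℱ W) {x, z} : ℝ) * (nn (lk ℱ W) {y, z} : ℝ) :=
      fun x y => Finset.sum_nonneg fun z _ =>
        mul_nonneg (mul_nonneg (hw z) (Nat.cast_nonneg _)) (Nat.cast_nonneg _)
    calc ∑ x ∈ univ \ W, ∑ y ∈ univ \ insert x W,
          ((if Q W x y then nn ℱ (insert x (insert y W)) else 0 : ℕ) : ℝ)
        ≤ ∑ x ∈ univ \ W, ∑ y ∈ univ \ insert x W,
          ∑ z : V, w z * (nn (lk ℱ W) {x, z} : ℝ) * (nn (lk ℱ W) {y, z} : ℝ) := by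
          refine Finset.sum_le_sum fun x hx => Finset.sum_le_sum fun y hy => ?_
          have hx' : x ∉ W := (Finset.mem_sdiff.1 hx).2
          have hy' : y ∉ W := fun hyW =>
            (Finset.mem_sdiff.1 hy).2 (Finset.mem_insert_of_mem hyW)
          split_ifs with hq
          · have hd : Disjoint W ({x, y} : Finset V) := by
              rw [Finset.disjoint_right]
              intro v hv
              rcases Finset.mem_insert.1 hv with rfl | hv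
              · exact hx'
              · rw [Finset.mem_singleton.1 hv]
                exact hy'
            have he : nn (lk ℱ W) {x, y} = nn ℱ (insert x (insert y W)) := by
              rw [nn_lk ℱ hd]
              congr 1
              ext v
              simp only [Finset.mem_union, Finset.mem_insert, Finset.mem_singleton]
              tauto
            rw [← he]
            exact hQ x y hq
          · simpa using hterm x y
      _ ≤ ∑ x : V, ∑ y : V,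
          ∑ z : V, w z * (nn (lk ℱ W) {x, z} : ℝ) * (nn (lk ℱ W) {y, z} : ℝ) := by
          refine (Finset.sum_le_sum fun x _ => Finset.sum_le_sum_of_subset_of_nonneg
            (Finset.subset_univ _) fun y _ _ => hterm x y).trans ?_
          exact Finset.sum_le_sum_of_subset_of_nonneg (Finset.subset_univ _)
            fun x _ _ => Finset.sum_nonneg fun y _ => hterm x y
      _ ≤ K * ((s - k : ℕ) : ℝ) ^ 3 * (nn (lk ℱ W) ∅ : ℝ) := core34 hlk w hw hwK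
      _ ≤ K * (s : ℝ) ^ 3 * (nn ℱ W : ℝ) := by
          rw [hn]
          refine mul_le_mul_of_nonneg_right (mul_le_mul_of_nonneg_left ?_ hK) (Nat.cast_nonneg _)
          exact pow_le_pow_left₀ (Nat.cast_nonneg _) (by exact_mod_cast Nat.sub_le s k) 3
  calc ∑ W ∈ powersetCard k (univ : Finset V), ∑ x ∈ univ \ W, ∑ y ∈ univ \ insert x W,
        (if Q W x y then (nn ℱ (insert x (insert y W)) : ℝ) else 0)
      ≤ ∑ W ∈ powersetCard k (univ : Finset V), K * (s : ℝ) ^ 3 * (nn ℱ W : ℝ) := by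
        refine Finset.sum_le_sum fun W hW' => ?_
        refine le_trans (le_of_eq ?_) (hW W hW')
        refine Finset.sum_congr rfl fun x _ => Finset.sum_congr rfl fun y _ => ?_
        split_ifs <;> simp
    _ = K * (s : ℝ) ^ 3 * ∑ W ∈ powersetCard k (univ : Finset V), (nn ℱ W : ℝ) := by
        rw [Finset.mul_sum]
    _ = K * (s : ℝ) ^ 3 * (ℱ.card * s.choose k) := by
        have h1 := sum_nn_powersetCard hs k
        have h2 : ∑ W ∈ powersetCard k (univ : Finset V), (nn ℱ W : ℝ) =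
            ((∑ W ∈ powersetCard k (univ : Finset V), nn ℱ W : ℕ) : ℝ) := by
          rw [Nat.cast_sum]
        rw [h2, h1]
        push_cast
        ring

theorem mass_B3 [Fintype V] {ℱ : Finset (Finset V)} {s k : ℕ} (hs : ∀ A ∈ ℱ, A.card = s)
    (T : Thr) (hF : 0 ≤ T.F) (hp1 : 0 < T.p1) (hp2 : 0 ≤ T.p2) :
    (mass ℱ k (fun W _ x y => B3 (lk ℱ W) T x y) : ℝ) ≤
      T.F * T.p2 / T.p1 ^ 2 * (s : ℝ) ^ 3 * (ℱ.card * s.choose k) := by
  classical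
  refine mass34 hs (by positivity) (fun W x y => B3 (lk ℱ W) T x y) fun W => ?_
  obtain ⟨ℬ, hℬ⟩ : ∃ ℬ, ℬ = lk ℱ W := ⟨_, rfl⟩
  rw [← hℬ]
  obtain ⟨n, hn⟩ : ∃ n : ℝ, n = (nn ℬ ∅ : ℝ) := ⟨_, rfl⟩
  have hn0 : 0 ≤ n := by
    rw [hn]
    exact Nat.cast_nonneg _
  refine ⟨fun z => if (nn ℬ {z} : ℝ) < T.p2 * n then T.F / (n * T.p1 ^ 2) else 0, ?_, ?_, ?_⟩
  · intro z
    show 0 ≤ (if (nn ℬ {z} : ℝ) < T.p2 * n then T.F / (n * T.p1 ^ 2) else 0)
    split_ifs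
    · positivity
    · exact le_rfl
  · intro z
    show (if (nn ℬ {z} : ℝ) < T.p2 * n then T.F / (n * T.p1 ^ 2) else 0) * (nn ℬ {z} : ℝ) ≤
      T.F * T.p2 / T.p1 ^ 2
    split_ifs with hz
    · have hn1 : 0 < n := by
        rcases hn0.eq_or_lt with h0 | h0
        · rw [← h0, mul_zero] at hz
          exact absurd hz (not_lt.2 (Nat.cast_nonneg _))
        · exact h0
      calc T.F / (n * T.p1 ^ 2) * (nn ℬ {z} : ℝ) ≤ T.F / (n * T.p1 ^ 2) * (T.p2 * n) :=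
            mul_le_mul_of_nonneg_left hz.le (by positivity)
        _ = T.F * T.p2 / T.p1 ^ 2 := by
            field_simp
    · rw [zero_mul]
      positivity
  · intro x y hQ
    obtain ⟨hB0, z, hzx, hzy, hz, h1, h2⟩ := hQ
    rw [← hn] at hz
    have hB0' : (nn ℬ {x, y} : ℝ) * n ≤ T.F * nn ℬ {x} * nn ℬ {y} := by
      have h3 := not_lt.1 hB0
      rw [← hn] at h3
      exact h3
    have hn1 : 0 < n := by
      rcases hn0.eq_or_lt with h0 | h0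
      · rw [← h0, mul_zero] at hz
        exact absurd hz (not_lt.2 (Nat.cast_nonneg _))
      · exact h0
    have hmain : (nn ℬ {x, y} : ℝ) ≤
        T.F / (n * T.p1 ^ 2) * (nn ℬ {x, z} : ℝ) * (nn ℬ {y, z} : ℝ) := by
      have h4 : (nn ℬ {x} : ℝ) ≤ (nn ℬ {x, z} : ℝ) / T.p1 := by
        rw [le_div_iff₀ hp1]
        linarith
      have h5 : (nn ℬ {y} : ℝ) ≤ (nn ℬ {y, z} : ℝ) / T.p1 := by
        rw [le_div_iff₀ hp1]
        linarith
      calc (nn ℬ {x, y} : ℝ) ≤ (T.F * nn ℬ {x} * nn ℬ {y}) / n := by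
            rw [le_div_iff₀ hn1]
            exact hB0'
        _ = T.F / n * ((nn ℬ {x} : ℝ) * (nn ℬ {y} : ℝ)) := by ring
        _ ≤ T.F / n * (((nn ℬ {x, z} : ℝ) / T.p1) * ((nn ℬ {y, z} : ℝ) / T.p1)) := by
            refine mul_le_mul_of_nonneg_left ?_ (by positivity)
            exact mul_le_mul h4 h5 (Nat.cast_nonneg _) (by positivity)
        _ = T.F / (n * T.p1 ^ 2) * (nn ℬ {x, z} : ℝ) * (nn ℬ {y, z} : ℝ) := by
            field_simp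
    refine hmain.trans ?_
    have h6 : T.F / (n * T.p1 ^ 2) * (nn ℬ {x, z} : ℝ) * (nn ℬ {y, z} : ℝ) =
        (fun z => (if (nn ℬ {z} : ℝ) < T.p2 * n then T.F / (n * T.p1 ^ 2) else 0) *
          (nn ℬ {x, z} : ℝ) * (nn ℬ {y, z} : ℝ)) z := by
      show _ = (if (nn ℬ {z} : ℝ) < T.p2 * n then T.F / (n * T.p1 ^ 2) else 0) *
          (nn ℬ {x, z} : ℝ) * (nn ℬ {y, z} : ℝ)
      rw [if_pos hz]
    rw [h6]
    refine Finset.single_le_sum (f := fun z => (if (nn ℬ {z} : ℝ) < T.p2 * n then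
      T.F / (n * T.p1 ^ 2) else 0) * (nn ℬ {x, z} : ℝ) * (nn ℬ {y, z} : ℝ)) (fun v _ => ?_)
      (Finset.mem_univ z)
    show 0 ≤ (if (nn ℬ {v} : ℝ) < T.p2 * n then T.F / (n * T.p1 ^ 2) else 0) *
          (nn ℬ {x, v} : ℝ) * (nn ℬ {y, v} : ℝ)
    split_ifs
    · positivity
    · simp

theorem mass_B4 [Fintype V] {ℱ : Finset (Finset V)} {s k : ℕ} (hs : ∀ A ∈ ℱ, A.card = s)
    (T : Thr) (hF : 0 ≤ T.F) (hp1 : 0 < T.p1) (hp2 : 0 ≤ T.p2) :
    (mass ℱ k (fun W _ x y => B4 (lk ℱ W) T x y) : ℝ) ≤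
      T.F * T.p2 / T.p1 ^ 2 * (s : ℝ) ^ 3 * (ℱ.card * s.choose k) := by
  classical
  refine mass34 hs (by positivity) (fun W x y => B4 (lk ℱ W) T x y) fun W => ?_
  obtain ⟨ℬ, hℬ⟩ : ∃ ℬ, ℬ = lk ℱ W := ⟨_, rfl⟩
  rw [← hℬ]
  obtain ⟨n, hn⟩ : ∃ n : ℝ, n = (nn ℬ ∅ : ℝ) := ⟨_, rfl⟩
  have hn0 : 0 ≤ n := by
    rw [hn]
    exact Nat.cast_nonneg _
  refine ⟨fun z => T.F * T.p2 / T.p1 ^ 2 / (nn ℬ {z} : ℝ), ?_, ?_, ?_⟩
  · intro z
    positivity
  · intro z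
    show T.F * T.p2 / T.p1 ^ 2 / (nn ℬ {z} : ℝ) * (nn ℬ {z} : ℝ) ≤ T.F * T.p2 / T.p1 ^ 2
    rcases (Nat.cast_nonneg (α := ℝ) (nn ℬ {z})).eq_or_lt with h0 | h0
    · rw [← h0, mul_zero]
      positivity
    · rw [div_mul_cancel₀ _ h0.ne']
  · intro x y hQ
    obtain ⟨hB0, hy, z, hzx, hzy, h1, h2⟩ := hQ
    rw [← hn] at hy
    have hB0' : (nn ℬ {x, y} : ℝ) * n ≤ T.F * nn ℬ {x} * nn ℬ {y} := by
      have h3 := not_lt.1 hB0
      rw [← hn] at h3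
      exact h3
    have hn1 : 0 < n := by
      rcases hn0.eq_or_lt with h0 | h0
      · rw [← h0, mul_zero] at hy
        exact absurd hy (not_lt.2 (Nat.cast_nonneg _))
      · exact h0
    have hterm : ∀ v : V, 0 ≤ T.F * T.p2 / T.p1 ^ 2 / (nn ℬ {v} : ℝ) * (nn ℬ {x, v} : ℝ) *
        (nn ℬ {y, v} : ℝ) := fun v => by positivity
    have hmain : (nn ℬ {x, y} : ℝ) ≤
        T.F * T.p2 / T.p1 ^ 2 / (nn ℬ {z} : ℝ) * (nn ℬ {x, z} : ℝ) * (nn ℬ {y, z} : ℝ) := by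
      have h4 : (nn ℬ {x} : ℝ) ≤ (nn ℬ {x, z} : ℝ) / T.p1 := by
        rw [le_div_iff₀ hp1]
        linarith
      have hz0 : 0 ≤ (nn ℬ {z} : ℝ) := Nat.cast_nonneg _
      rcases hz0.eq_or_lt with h0 | h0
      · -- then `nn {x, z} = 0`, `nn {x} = 0`
        have h5 : (nn ℬ {x, z} : ℝ) ≤ (nn ℬ {z} : ℝ) := by
          exact_mod_cast nn_anti ℬ (by
            intro v hv
            rw [Finset.mem_singleton.1 hv]
            simp)
        have h6 : (nn ℬ {x, y} : ℝ) ≤ (nn ℬ {x} : ℝ) := by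
          exact_mod_cast nn_anti ℬ (by
            intro v hv
            rw [Finset.mem_singleton.1 hv]
            simp)
        have h7 : (nn ℬ {x, z} : ℝ) / T.p1 ≤ 0 := by
          refine div_nonpos_of_nonpos_of_nonneg ?_ hp1.le
          linarith
        refine le_trans ?_ (hterm z)
        linarith
      · have h5 : (1 : ℝ) ≤ (nn ℬ {y, z} : ℝ) / (T.p1 * (nn ℬ {z} : ℝ)) := by
          rw [le_div_iff₀ (by positivity), one_mul, Finset.pair_comm y z]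
          exact h2
        calc (nn ℬ {x, y} : ℝ) ≤ (T.F * nn ℬ {x} * nn ℬ {y}) / n := by
              rw [le_div_iff₀ hn1]
              exact hB0'
          _ = T.F / n * ((nn ℬ {x} : ℝ) * (nn ℬ {y} : ℝ)) := by ring
          _ ≤ T.F / n * (((nn ℬ {x, z} : ℝ) / T.p1) * (T.p2 * n)) := by
              refine mul_le_mul_of_nonneg_left ?_ (by positivity)
              exact mul_le_mul h4 hy.le (Nat.cast_nonneg _) (by positivity)
          _ = (T.F * T.p2 / T.p1 * (nn ℬ {x, z} : ℝ)) * 1 := by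
              field_simp
          _ ≤ (T.F * T.p2 / T.p1 * (nn ℬ {x, z} : ℝ)) *
              ((nn ℬ {y, z} : ℝ) / (T.p1 * (nn ℬ {z} : ℝ))) :=
              mul_le_mul_of_nonneg_left h5 (by positivity)
          _ = T.F * T.p2 / T.p1 ^ 2 / (nn ℬ {z} : ℝ) * (nn ℬ {x, z} : ℝ) *
              (nn ℬ {y, z} : ℝ) := by
              field_simp
    refine hmain.trans ?_
    exact Finset.single_le_sum (f := fun z => T.F * T.p2 / T.p1 ^ 2 / (nn ℬ {z} : ℝ) *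
      (nn ℬ {x, z} : ℝ) * (nn ℬ {y, z} : ℝ)) (fun v _ => hterm v) (Finset.mem_univ z)

end Pool.Agent.Helper5.CV
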