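import Mathlib
import Pool.Agent.Helper5.CV.Defs
import Pool.Agent.Helper5.CV.NN
import Pool.Agent.Helper5.CV.Mass
import Pool.Agent.Helper5.CV.Phi
import Pool.Agent.Helper5.CV.Rat
import Pool.Agent.Helper5.CV.ChooseK
import Pool.Agent.Helper5.CV.MB01
import Pool.Agent.Helper5.CV.MB2
import Pool.Agent.Helper5.CV.MB34

/-!
# MP_d32cb0_co, module P09: the pinning lemma

PROOF.  `exists_k` gives `k`.  Add up `mass_B0, mass_B1, mass_B2, mass_B3, mass_B4` (`mass_or_le`, `mass_mono`; for a pair in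
`A \ W`): with `D ≤ |ℱ| C(s,k) s²` and `e_k, e_{k+1} ≤ 2L/K0 + 1` the mass of `Bad` is `≤ eps1 · |ℱ| C(s,k) s²`
(`m R0²/(k+1) ≤ m R0²/K0`; in the B3, B4 terms use `1 ≤ s²`).  `mass_choose` gives `W`; `sum_lk` and `card_lk` translate the
conclusion to the link (`badP` of `A \ W` in `lk ℱ W`).  `N^k ≤ N^{2K0}`.
-/

set_option autoImplicit false

namespace Pool.Agent.Helper5.CV

open Finset

variable {V : Type*} [DecidableEq V]

/-- The error of the pinning lemma. -/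
noncomputable def eps1 (L : ℝ) (m s K0 : ℕ) (T : Thr) (R0 : ℝ) : ℝ :=
  (2 * L / K0 + 3) / Real.log T.F + m * T.p0 +
    ((s * (2 * L / K0 + 3) / Real.log (T.p0 / T.p1) + 1) / R0 + m * R0 ^ 2 / K0) +
    2 * (T.F * T.p2 / T.p1 ^ 2 * (s : ℝ) ^ 3)

theorem pin [Fintype V] {ℱ : Finset (Finset V)} {s m K0 : ℕ} (hne : ℱ.Nonempty)
    (hs : ∀ A ∈ ℱ, A.card = s) (tn : Sym2 V → ℕ)
    (hm : ∀ t, 2 ≤ t → (univ.filter (fun e : Sym2 V => tn e = t)).card ≤ m)
    (T : Thr) (hF : 1 < T.F) (hp1 : 0 < T.p1) (h01 : T.p1 < T.p0) (hp2 : 0 < T.p2)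
    {R0 : ℝ} (hR : 1 ≤ R0) (hK : 1 ≤ K0) (hKs : 2 * K0 + 3 ≤ s) :
    ∃ W : Finset V, W.card < 2 * K0 ∧ 0 < nn ℱ W ∧
      (ℱ.card : ℝ) ≤ 4 * (Fintype.card V : ℝ) ^ (2 * K0) * nn ℱ W ∧
      ((∑ A ∈ lk ℱ W, (badP (lk ℱ W) tn T A).card : ℕ) : ℝ) ≤
        4 * eps1 (Real.log (Fintype.card V)) m s K0 T R0 * (s : ℝ) ^ 2 * (lk ℱ W).card := by
  classical
  obtain ⟨k, hk1, hk2, he1, he2⟩ := exists_k hs hne hK hKs
  set L : ℝ := Real.log (Fintype.card V) with hL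
  have hL0 : 0 ≤ L := by
    rw [hL]
    exact Real.log_natCast_nonneg _
  have hks : k + 3 ≤ s := by omega
  have hK0 : (0 : ℝ) < (K0 : ℝ) := by exact_mod_cast hK
  have hs0 : (1 : ℝ) ≤ (s : ℝ) := by
    have : 1 ≤ s := by omega
    exact_mod_cast this
  have hF0 : 0 < Real.log T.F := Real.log_pos hF
  have hp0 : 0 < T.p0 := hp1.trans h01
  have hlog : 0 < Real.log (T.p0 / T.p1) := Real.log_pos ((one_lt_div hp1).2 h01)
  have hR0 : 0 < R0 := by linarith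
  have hE : 0 < 2 * L / K0 + 3 := by positivity
  set D0 : ℝ := (ℱ.card : ℝ) * s.choose k with hD0
  have hD0' : 0 ≤ D0 := by positivity
  set D : ℝ := (ℱ.card * s.choose k * (s - k : ℕ) * (s - k - 1 : ℕ)) with hD
  have hDle : D ≤ D0 * (s : ℝ) ^ 2 := by
    have h1 : ((s - k : ℕ) : ℝ) ≤ s := by exact_mod_cast Nat.sub_le s k
    have h2 : ((s - k - 1 : ℕ) : ℝ) ≤ s := by
      have : s - k - 1 ≤ s := by omega
      exact_mod_cast this
    rw [hD, ← hD0, mul_assoc, pow_two]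
    apply mul_le_mul_of_nonneg_left _ hD0'
    exact mul_le_mul h1 h2 (by positivity) (by positivity)
  have hDn : 0 ≤ D := by positivity
  have hm0 := mass_B0 hs hne (by omega : k + 2 ≤ s) T hF
  have hm1 := mass_B1 hs (by omega : k + 2 ≤ s) tn hm T hp0.le
  have hm2 := mass_B2 hs hne hks tn hm T hp1 h01 hR
  have hm3 := mass_B3 (k := k) hs T (by linarith) hp1 hp2.le
  have hm4 := mass_B4 (k := k) hs T (by linarith) hp1 hp2.le
  rw [← hD] at hm0 hm1 hm2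
  rw [← hD0] at hm3 hm4
  have hb0 : (mass ℱ k (fun W _ x y => B0 (lk ℱ W) T x y) : ℝ) ≤
      (2 * L / K0 + 3) / Real.log T.F * (D0 * (s : ℝ) ^ 2) := by
    refine hm0.trans ?_
    apply mul_le_mul _ hDle hDn (by positivity)
    apply div_le_div_of_nonneg_right _ hF0.le
    linarith
  have hb1 : (mass ℱ k (fun W A x y => B1 (lk ℱ W) tn T (A \ W) x y) : ℝ) ≤
      (m * T.p0) * (D0 * (s : ℝ) ^ 2) :=
    hm1.trans (mul_le_mul_of_nonneg_left hDle (by positivity))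
  have hb2 : (mass ℱ k (fun W A x y => B2 (lk ℱ W) tn T (A \ W) x y) : ℝ) ≤
      ((s * (2 * L / K0 + 3) / Real.log (T.p0 / T.p1) + 1) / R0 + m * R0 ^ 2 / K0) *
        (D0 * (s : ℝ) ^ 2) := by
    refine hm2.trans ?_
    apply mul_le_mul _ hDle hDn (by positivity)
    have h1 : s * (phi ℱ s (k + 1) - phi ℱ s (k + 2) + 2) / Real.log (T.p0 / T.p1) ≤
        s * (2 * L / K0 + 3) / Real.log (T.p0 / T.p1) := by
      apply div_le_div_of_nonneg_right _ hlog.le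
      apply mul_le_mul_of_nonneg_left _ (by positivity)
      linarith
    have h2 : (m : ℝ) * R0 ^ 2 / (k + 1) ≤ m * R0 ^ 2 / K0 := by
      apply div_le_div_of_nonneg_left (by positivity) hK0
      have h3 : ((K0 : ℕ) : ℝ) ≤ (k : ℝ) := by exact_mod_cast hk1
      linarith
    have h3 : (s * (phi ℱ s (k + 1) - phi ℱ s (k + 2) + 2) / Real.log (T.p0 / T.p1) + 1) / R0 ≤
        (s * (2 * L / K0 + 3) / Real.log (T.p0 / T.p1) + 1) / R0 := by
      apply div_le_div_of_nonneg_right _ hR0.le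
      linarith
    linarith
  have hs2 : D0 ≤ D0 * (s : ℝ) ^ 2 := by
    have h1 : (1 : ℝ) ≤ (s : ℝ) ^ 2 := by nlinarith
    nlinarith
  have hb3 : (mass ℱ k (fun W _ x y => B3 (lk ℱ W) T x y) : ℝ) ≤
      (T.F * T.p2 / T.p1 ^ 2 * (s : ℝ) ^ 3) * (D0 * (s : ℝ) ^ 2) :=
    hm3.trans (mul_le_mul_of_nonneg_left hs2 (by positivity))
  have hb4 : (mass ℱ k (fun W _ x y => B4 (lk ℱ W) T x y) : ℝ) ≤
      (T.F * T.p2 / T.p1 ^ 2 * (s : ℝ) ^ 3) * (D0 * (s : ℝ) ^ 2) :=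
    hm4.trans (mul_le_mul_of_nonneg_left hs2 (by positivity))
  have hbad : (mass ℱ k (fun W A x y => Bad (lk ℱ W) tn T (A \ W) x y) : ℝ) ≤
      eps1 L m s K0 T R0 * (ℱ.card * s.choose k * (s : ℝ) ^ 2) := by
    have h1 : mass ℱ k (fun W A x y => Bad (lk ℱ W) tn T (A \ W) x y) ≤
        mass ℱ k (fun W _ x y => B0 (lk ℱ W) T x y) +
        (mass ℱ k (fun W A x y => B1 (lk ℱ W) tn T (A \ W) x y) +
        (mass ℱ k (fun W A x y => B2 (lk ℱ W) tn T (A \ W) x y) +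
        (mass ℱ k (fun W _ x y => B3 (lk ℱ W) T x y) +
        mass ℱ k (fun W _ x y => B4 (lk ℱ W) T x y)))) := by
      refine (mass_or_le ℱ k (fun W _ x y => B0 (lk ℱ W) T x y)
        (fun W A x y => B1 (lk ℱ W) tn T (A \ W) x y ∨ B2 (lk ℱ W) tn T (A \ W) x y ∨
          B3 (lk ℱ W) T x y ∨ B4 (lk ℱ W) T x y)).trans (add_le_add le_rfl ?_)
      refine (mass_or_le ℱ k (fun W A x y => B1 (lk ℱ W) tn T (A \ W) x y)
        (fun W A x y => B2 (lk ℱ W) tn T (A \ W) x y ∨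
          B3 (lk ℱ W) T x y ∨ B4 (lk ℱ W) T x y)).trans (add_le_add le_rfl ?_)
      refine (mass_or_le ℱ k (fun W A x y => B2 (lk ℱ W) tn T (A \ W) x y)
        (fun W _ x y => B3 (lk ℱ W) T x y ∨ B4 (lk ℱ W) T x y)).trans (add_le_add le_rfl ?_)
      exact mass_or_le ℱ k (fun W _ x y => B3 (lk ℱ W) T x y)
        (fun W _ x y => B4 (lk ℱ W) T x y)
    have h2 : (mass ℱ k (fun W A x y => Bad (lk ℱ W) tn T (A \ W) x y) : ℝ) ≤
        (mass ℱ k (fun W _ x y => B0 (lk ℱ W) T x y) : ℝ) +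
        ((mass ℱ k (fun W A x y => B1 (lk ℱ W) tn T (A \ W) x y) : ℝ) +
        ((mass ℱ k (fun W A x y => B2 (lk ℱ W) tn T (A \ W) x y) : ℝ) +
        ((mass ℱ k (fun W _ x y => B3 (lk ℱ W) T x y) : ℝ) +
        (mass ℱ k (fun W _ x y => B4 (lk ℱ W) T x y) : ℝ)))) := by
      exact_mod_cast h1
    refine h2.trans ?_
    unfold eps1
    rw [← hD0]
    linarith
  have heps : 0 < eps1 L m s K0 T R0 := by
    unfold eps1
    have h1 : 0 < (2 * L / K0 + 3) / Real.log T.F := by positivity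
    have h2 : (0 : ℝ) ≤ m * T.p0 := by positivity
    have h3 : (0 : ℝ) ≤ (s * (2 * L / K0 + 3) / Real.log (T.p0 / T.p1) + 1) / R0 := by positivity
    have h4 : (0 : ℝ) ≤ m * R0 ^ 2 / K0 := by positivity
    have h5 : (0 : ℝ) ≤ 2 * (T.F * T.p2 / T.p1 ^ 2 * (s : ℝ) ^ 3) := by positivity
    linarith
  have hV : 1 ≤ Fintype.card V := by
    obtain ⟨A, hA⟩ := hne
    have h1 : A.card ≤ Fintype.card V := card_le_univ A
    rw [hs A hA] at h1
    omega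
  obtain ⟨W, hW1, hW2, hW3, hW4⟩ := mass_choose hne hs (by omega : k ≤ s) hV
    (fun W A x y => Bad (lk ℱ W) tn T (A \ W) x y) heps (by omega) hbad
  refine ⟨W, by omega, hW2, ?_, ?_⟩
  · refine hW3.trans ?_
    have h1 : (Fintype.card V : ℝ) ^ k ≤ (Fintype.card V : ℝ) ^ (2 * K0) := by
      apply pow_le_pow_right₀
      · exact_mod_cast hV
      · exact hk2.le
    have h2 : (0 : ℝ) ≤ (nn ℱ W : ℝ) := by positivity
    nlinarith [mul_le_mul_of_nonneg_right h1 h2]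
  · rw [card_lk, sum_lk ℱ W (fun A => (badP (lk ℱ W) tn T A).card)]
    exact hW4

end Pool.Agent.Helper5.CV
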