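import Mathlib
import Pool.Agent.Helper5.CV.DefsT
import Pool.Agent.Helper5.CV.PinL

/-!
# The biased clique game: the parameters and the numerical conditions (definitions)

`K` is a large constant, `N → ∞`, `q = ⌈a log N⌉`.
-/

set_option autoImplicit false

namespace Pool.Agent.Helper5.CV

open Finset Pool.Agent.Helper25.CliqueGame

/-- `γ = 1 / (1000 K^6)`. -/
noncomputable def gamK (K : ℕ) : ℝ := 1 / (1000 * (K : ℝ) ^ 6)

/-- `Γ = γ log N`. -/
noncomputable def GamN (K N : ℕ) : ℝ := gamK K * Real.log N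

/-- the largest bucket -/
def nbK (K : ℕ) : ℕ := 1000 * K ^ 6 + 2

/-- the number of levels -/
def tpK (K : ℕ) : ℕ := 2 * nbK K / K + 1

/-- `K_0` -/
def K0q (K q : ℕ) : ℕ := q / (100 * K ^ 5)

/-- `u_0 = ⌈q²/K²⌉` -/
noncomputable def u0q (K q : ℕ) : ℕ := ⌈(q : ℝ) ^ 2 / (K : ℝ) ^ 2⌉₊

/-- the bound of the potential -/
noncomputable def CC (b : ℕ) : ℝ := 5 * (1 + (b : ℝ)) + 1

/-- bound of the cost -/
noncomputable def cmq (m b q : ℕ) : ℕ := ⌈(q : ℝ) ^ 2 * lam m b 1⌉₊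

/-- bound of the degrees -/
noncomputable def DelN (K N q : ℕ) : ℕ := ⌈(q : ℝ) * Real.exp (GamN K N / 8)⌉₊

/-- `p_2` -/
noncomputable def p2N (K N : ℕ) : ℝ := (thr (GamN K N) (K + 5)).p2

/-- the number of profiles -/
noncomputable def nPr (m b K q : ℕ) : ℝ := (Fintype.card (Prof q (cmq m b q) (tpK K)) : ℝ)

/-- the error of one level -/
noncomputable def errN (m b K N q : ℕ) : ℝ :=
  gamK K * (q : ℝ) ^ 2 * lam m b 1 + gamK K * q * Real.log (N + 1) + Real.log (q + 1) +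
    q * Real.log (q * DelN K N q + 1) + Real.log (CC b * (K * nPr m b K q * tpK K)) +
    10 * Real.log N * (((nbK K : ℝ) + 2) * (q : ℝ) ^ 2 + 1) * Real.exp (-(GamN K N / 2)) + 1

/-- the proportion of the exceptional vertices and pairs -/
noncomputable def Dbar (K N : ℕ) : ℝ :=
  1 / (K : ℝ) + N * Real.exp (-((nbK K : ℝ) * GamN K N)) + 2 / K + 4 / K

/-- the failure probability per block -/
noncomputable def epsK (K : ℕ) : ℝ := (gamK K / 2) ^ tpK K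

/-- The loss in the size of the family at the root. -/
noncomputable def a1N (b K N q : ℕ) : ℝ :=
  Real.log (CC b * ((q : ℝ) ^ 2 + 1) * (N : ℝ) ^ 2) + 1 / (K : ℝ) ^ 4 * q * Real.log N +
    Real.log 4 + 2 * K0q K q * Real.log N

/-- The entropy of the common part. -/
noncomputable def a2N (K N q : ℕ) : ℝ :=
  q * Real.log (q / p2N K N + 1) + Real.log (q + 1)

/-- The numerical conditions. -/
structure Num (m b K N q : ℕ) (σ R0 : ℝ) : Prop where
  K4 : 4 ≤ K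
  N2 : 2 ≤ N
  nbN : nbK K + 1 ≤ N
  q1 : 1 ≤ q
  R1 : 1 ≤ R0
  Gam : 0 < GamN K N
  K01 : 1 ≤ K0q K q
  u1 : 1 ≤ u0q K q
  u2 : u0q K q + m ≤ q.choose 2
  big : (1 / (K : ℝ) ^ 4 * q + (2 * K0q K q + 3)) * Real.log N ≤
    mu m b * u0q K q - Real.log (CC b * ((q : ℝ) ^ 2 + 1) * (N : ℝ) ^ 2)
  loss : Real.log 4 + 2 * K0q K q * Real.log N + Real.log (2 / (1 / (K : ℝ))) +
    q * Real.log (q / p2N K N + 1) ≤
      1 / (K : ℝ) ^ 4 * Real.log N * (1 / (K : ℝ) * q / 2)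
  eps : eps1 (Real.log N) m q (K0q K q) (thr (GamN K N) (K + 5)) R0 ≤ 1 / K
  dis : (((K ^ 3 : ℕ) : ℝ)) ^ 2 * (p2N K N * ((q : ℝ) + 1) * q) ≤ 1 / 2
  ebd : a1N b K N q + a2N K N q + Real.log (q + 1) +
    (q * Real.log N + Real.log (2 * CC b) + Real.log (q + 1)) / ((K ^ 3 : ℕ) : ℝ) ≤
      σ * (mu m b * u0q K q - a1N b K N q - a2N K N q)
  ebp : 0 < mu m b * u0q K q - a1N b K N q - a2N K N q
  st1 : mu m b * (q / K) + 2 ≤ σ * Real.log N
  st2 : q * Real.log N + Real.log (CC b) + Real.log (q + 1) + Real.log (N + 1) ≤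
    (q : ℝ) ^ 3
  qp2 : (q : ℝ) ^ 3 * p2N K N ≤ 1
  com : (q : ℝ) / K + 1 + ((u0q K q : ℝ) + m) * K / q ≤ σ * Real.log N
  siz : 2 * Dbar K N * q + ((u0q K q : ℝ) + m) * K / q ≤ σ * Real.log N
  cost : tpK K * (errN m b K N q + 1) + 1 / 2 * lam m b 1 * q +
    lam m b 1 * (2 * Dbar K N * (q : ℝ) ^ 2 + ((u0q K q : ℝ) + m)) ≤
      σ ^ 2 * (Real.log N) ^ 2
  col : 2 ^ (tpK K + 1) * m * (2 * nPr m b K q) * Real.exp (-(7 * GamN K N / 16)) ≤
    epsK K * gamK K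

end Pool.Agent.Helper5.CV
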