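import Mathlib
import Pool.Agent.Helper5.CV.Defs

/-!
# MP_d32cb0_co, module D02: many tuples with pairwise disjoint sets

PROOF.  The number of `F : Fin r → 𝒞` such that `g (F i)` and `g (F j)` are not disjoint for some `i ≠ j` is
`≤ Σ_{i ≠ j} Σ_v #{F : v ∈ g (F i), v ∈ g (F j)} ≤ r² Σ_v (#{B ∈ 𝒞 : v ∈ g B})² |𝒞|^{r-2} ≤ r² ε |𝒞|^r ≤ |𝒞|^r / 2`.
(`i ≠ j`; for fixed `v` the count is `n_v² |𝒞|^{r-2}`.)
-/

set_option autoImplicit false

namespace Pool.Agent.Helper5.CV

open Finset

open Classical in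
theorem disjoint_tuples {V : Type*} [DecidableEq V] [Fintype V] (𝒞 : Finset (Finset V))
    (g : Finset V → Finset V) (r : ℕ) {ε : ℝ}
    (h : ∑ v : V, ((𝒞.filter (fun B => v ∈ g B)).card : ℝ) ^ 2 ≤ ε * (𝒞.card : ℝ) ^ 2)
    (hε : (r : ℝ) ^ 2 * ε ≤ 1 / 2) :
    (Fintype.card (Fin r → {B // B ∈ 𝒞}) : ℝ) / 2 ≤
      (univ.filter (fun F : Fin r → {B // B ∈ 𝒞} =>
        ∀ i j, i ≠ j → Disjoint (g (F i).1) (g (F j).1))).card := by
  set n : ℕ := 𝒞.card with hn
  set α := {B // B ∈ 𝒞} with hα
  have hcα : Fintype.card α = n := Fintype.card_coe 𝒞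
  have hcard : Fintype.card (Fin r → α) = n ^ r := by
    rw [Fintype.card_fun, hcα, Fintype.card_fin]
  -- the sets of members through a vertex
  set S : V → Finset α := fun v => univ.filter (fun B : α => v ∈ g B.1) with hS
  have hSc : ∀ v, (S v).card = (𝒞.filter (fun B => v ∈ g B)).card := by
    intro v
    rw [← Finset.card_map (Function.Embedding.subtype (fun B => B ∈ 𝒞))]
    congr 1
    ext B
    simp only [hS, mem_map, mem_filter, mem_univ, true_and, Function.Embedding.subtype_apply]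
    constructor
    · rintro ⟨a, ha, rfl⟩
      exact ⟨a.2, ha⟩
    · rintro ⟨h1, h2⟩
      exact ⟨⟨B, h1⟩, h2, rfl⟩
  set E : Fin r → Fin r → V → Finset (Fin r → α) := fun i j v =>
    univ.filter (fun F : Fin r → α => v ∈ g (F i).1 ∧ v ∈ g (F j).1) with hE
  have hEc : ∀ i j, i ≠ j → ∀ v, (E i j v).card = (S v).card ^ 2 * n ^ (r - 2) := by
    intro i j hij v
    have h1 : E i j v = Fintype.piFinset (fun k => if k = i ∨ k = j then S v else univ) := by
      ext F
      simp only [hE, hS, mem_filter, mem_univ, true_and, Fintype.mem_piFinset]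
      constructor
      · rintro ⟨ha, hb⟩ k
        by_cases hk : k = i ∨ k = j
        · rw [if_pos hk]
          rcases hk with rfl | rfl
          · simpa using ha
          · simpa using hb
        · rw [if_neg hk]
          exact mem_univ _
      · intro hF
        have ha := hF i
        have hb := hF j
        rw [if_pos (Or.inl rfl)] at ha
        rw [if_pos (Or.inr rfl)] at hb
        exact ⟨by simpa using ha, by simpa using hb⟩
    rw [h1, Fintype.card_piFinset]
    have hjm : j ∈ (univ : Finset (Fin r)).erase i := mem_erase.2 ⟨hij.symm, mem_univ _⟩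
    rw [← Finset.mul_prod_erase univ _ (mem_univ i), ← Finset.mul_prod_erase _ _ hjm,
      if_pos (Or.inl rfl), if_pos (Or.inr rfl)]
    have h2 : ∏ k ∈ ((univ : Finset (Fin r)).erase i).erase j,
        (if k = i ∨ k = j then S v else univ).card = n ^ (r - 2) := by
      have h3 : ∀ k ∈ ((univ : Finset (Fin r)).erase i).erase j,
          (if k = i ∨ k = j then S v else univ).card = n := by
        intro k hk
        rw [mem_erase, mem_erase] at hk
        rw [if_neg (by tauto), Finset.card_univ, hcα]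
      rw [Finset.prod_congr rfl h3, Finset.prod_const, Finset.card_erase_of_mem hjm,
        Finset.card_erase_of_mem (mem_univ i), Finset.card_univ, Fintype.card_fin]
      rfl
    rw [h2]
    ring
  have hsub : (univ.filter (fun F : Fin r → α =>
      ¬ ∀ i j, i ≠ j → Disjoint (g (F i).1) (g (F j).1))) ⊆
      ((univ : Finset (Fin r)).offDiag).biUnion (fun p => univ.biUnion (fun v => E p.1 p.2 v)) := by
    intro F hF
    rw [mem_filter] at hF
    have h2 := hF.2
    push Not at h2
    obtain ⟨i, j, hij, hd⟩ := h2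
    rw [Finset.not_disjoint_iff] at hd
    obtain ⟨v, hv1, hv2⟩ := hd
    rw [mem_biUnion]
    refine ⟨(i, j), by rw [mem_offDiag]; exact ⟨mem_univ _, mem_univ _, hij⟩, ?_⟩
    rw [mem_biUnion]
    exact ⟨v, mem_univ _, mem_filter.2 ⟨mem_univ _, hv1, hv2⟩⟩
  have hb1 : (univ.filter (fun F : Fin r → α =>
      ¬ ∀ i j, i ≠ j → Disjoint (g (F i).1) (g (F j).1))).card ≤
      ((univ : Finset (Fin r)).offDiag).card * ((∑ v, (S v).card ^ 2) * n ^ (r - 2)) := by
    refine (Finset.card_le_card hsub).trans (Finset.card_biUnion_le.trans ?_)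
    rw [← smul_eq_mul, ← Finset.sum_const]
    refine Finset.sum_le_sum (fun p hp => ?_)
    rw [mem_offDiag] at hp
    refine Finset.card_biUnion_le.trans ?_
    rw [Finset.sum_mul]
    exact Finset.sum_le_sum (fun v _ => (hEc p.1 p.2 hp.2.2 v).le)
  have hbad : ((univ.filter (fun F : Fin r → α =>
      ¬ ∀ i j, i ≠ j → Disjoint (g (F i).1) (g (F j).1))).card : ℝ) ≤ (n : ℝ) ^ r / 2 := by
    rcases Nat.lt_or_ge r 2 with hr | hr
    · have h0 : ((univ : Finset (Fin r)).offDiag).card = 0 := by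
        rw [Finset.offDiag_card, Finset.card_univ, Fintype.card_fin]
        interval_cases r <;> rfl
      rw [h0, zero_mul] at hb1
      have h1 : (univ.filter (fun F : Fin r → α =>
        ¬ ∀ i j, i ≠ j → Disjoint (g (F i).1) (g (F j).1))).card = 0 := Nat.le_zero.1 hb1
      rw [h1, Nat.cast_zero]
      positivity
    · have h2 : ((univ.filter (fun F : Fin r → α =>
        ¬ ∀ i j, i ≠ j → Disjoint (g (F i).1) (g (F j).1))).card : ℝ) ≤
          (((univ : Finset (Fin r)).offDiag).card : ℝ) * ((∑ v, ((S v).card : ℝ) ^ 2) *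
            (n : ℝ) ^ (r - 2)) := by
        exact_mod_cast hb1
      have h3 : (((univ : Finset (Fin r)).offDiag).card : ℝ) ≤ (r : ℝ) ^ 2 := by
        have : ((univ : Finset (Fin r)).offDiag).card ≤ r ^ 2 := by
          rw [Finset.offDiag_card, Finset.card_univ, Fintype.card_fin, sq]
          exact Nat.sub_le _ _
        exact_mod_cast this
      have h4 : (∑ v, ((S v).card : ℝ) ^ 2) ≤ ε * (n : ℝ) ^ 2 := by
        refine le_trans (le_of_eq ?_) h
        refine Finset.sum_congr rfl (fun v _ => ?_)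
        rw [hSc v]
      have h5 : (0 : ℝ) ≤ (∑ v, ((S v).card : ℝ) ^ 2) := Finset.sum_nonneg (fun v _ => sq_nonneg _)
      have h6 : (0 : ℝ) ≤ (n : ℝ) ^ (r - 2) := by positivity
      have h7 : (n : ℝ) ^ r = (n : ℝ) ^ 2 * (n : ℝ) ^ (r - 2) := by
        rw [← pow_add]
        congr 1
        omega
      calc ((univ.filter (fun F : Fin r → α =>
            ¬ ∀ i j, i ≠ j → Disjoint (g (F i).1) (g (F j).1))).card : ℝ)
          ≤ (((univ : Finset (Fin r)).offDiag).card : ℝ) * ((∑ v, ((S v).card : ℝ) ^ 2) *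
            (n : ℝ) ^ (r - 2)) := h2
        _ ≤ (r : ℝ) ^ 2 * ((∑ v, ((S v).card : ℝ) ^ 2) * (n : ℝ) ^ (r - 2)) :=
            mul_le_mul_of_nonneg_right h3 (mul_nonneg h5 h6)
        _ ≤ (r : ℝ) ^ 2 * ((ε * (n : ℝ) ^ 2) * (n : ℝ) ^ (r - 2)) :=
            mul_le_mul_of_nonneg_left (mul_le_mul_of_nonneg_right h4 h6) (sq_nonneg _)
        _ = ((r : ℝ) ^ 2 * ε) * (n : ℝ) ^ r := by rw [h7]; ring
        _ ≤ (1 / 2) * (n : ℝ) ^ r := mul_le_mul_of_nonneg_right hε (by positivity)
        _ = (n : ℝ) ^ r / 2 := by ring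
  have hsum := Finset.card_filter_add_card_filter_not (s := (univ : Finset (Fin r → α)))
    (fun F : Fin r → α => ∀ i j, i ≠ j → Disjoint (g (F i).1) (g (F j).1))
  have hsum' : ((univ.filter (fun F : Fin r → α =>
      ∀ i j, i ≠ j → Disjoint (g (F i).1) (g (F j).1))).card : ℝ) +
      ((univ.filter (fun F : Fin r → α =>
      ¬ ∀ i j, i ≠ j → Disjoint (g (F i).1) (g (F j).1))).card : ℝ) = (n : ℝ) ^ r := by
    rw [Finset.card_univ, hcard] at hsum
    exact_mod_cast hsum
  have hfin : (Fintype.card (Fin r → α) : ℝ) = (n : ℝ) ^ r := by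
    rw [hcard]; push_cast; ring
  rw [hfin]
  linarith

end Pool.Agent.Helper5.CV
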