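import Mathlib
import Pool.Agent.Helper5.CV.Defs
import Pool.Agent.Helper5.CV.Kap
import Pool.Agent.Helper5.CV.CostL
import Pool.Agent.Helper5.CV.NN
import Pool.Agent.Helper5.CV.DisjT

/-!
# MP_d32cb0_co, module D03: the bound for the size of the root

`e = |ρ|`, `L = log N`.  `U0(B) = {v ∈ B : nn ℬ {v} < p2 |ℬ|}`.
PROOF.  Pigeonhole on `|U0(B)| ∈ [0, q]`: `Q` with `|𝒞| ≥ |ℬ|/(q+1)`, `𝒞 = {B ∈ ℬ : |U0(B)| = Q}`.
The map `B ↦ U0(B)` is at most `(q/p2+1)^q`-to-one (`B \ U0(B)` is a subset with `≤ q` elements of `{v : p2|ℬ| ≤ nn ℬ {v}}`, which has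
`≤ q/p2` points since `Σ_v nn ℬ {v} ≤ q|ℬ|`).  First inequality: `|𝒞| ≤ N^Q (q/p2+1)^q`.
Second: for `v` with `v ∈ U0(B)` for some `B`: `#{B ∈ 𝒞 : v ∈ U0 B} ≤ nn ℬ {v} < p2|ℬ| ≤ p2 (q+1)|𝒞|`, and `Σ_v #{B ∈ 𝒞 : v ∈ U0(B)} ≤ q|𝒞|`:
`disjoint_tuples` with `ε = p2 (q+1) q`: at least `|𝒞|^r/2` tuples `F` with pairwise disjoint `U0(F k)`.  The number of different
tuples `U = (U0(F k))_k` is `≥ |𝒞|^r/(2 (q/p2+1)^{qr})`.  Each of them is a term of `wD1` with `R = ρ`, weight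
`(q+1)^{-(r+1)} N^{-(e+rQ)}` and `S = bip ρ (∪ U_k)`; `S ⊆ ∪_k EI(ρ ∪ F k)` is disjoint from `P.B`, has `e r Q` elements (the `U_k` are
disjoint and disjoint from `ρ`) and at most `r u` of them are not in `P.M` (`(EI (ρ∪B) \ P.M).card = u`), so
`gain ≥ exp(μ (erQ - ru))` (`log_gain_ge`, `(S ∩ uni P.mv).card ≥ erQ - ru`).  Hence
`C ≥ (q+1)^{-(r+1)} N^{-(e+rQ)} exp(μ r (Qe-u)) (|ℬ|/(q+1))^r / (2 (q/p2+1)^{qr})`; take logarithms and divide by `r`.
(Different tuples `U` may give the same `S`; in `pot` their weights add up: exchange the sums.)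
-/

set_option autoImplicit false

namespace Pool.Agent.Helper5.CV

open Finset Pool.Agent.Helper25.CliqueGame
open Pool.Agent.Helper78.CG (EI)

private theorem eb_small {V : Type*} [DecidableEq V] (H : Finset V) (q : ℕ) :
    (H.powerset.filter (fun S => S.card ≤ q)).card ≤ (H.card + 1) ^ q := by
  induction q with
  | zero =>
    have h1 : H.powerset.filter (fun S => S.card ≤ 0) ⊆ {∅} := by
      intro S hS
      rw [mem_filter] at hS
      rw [mem_singleton]
      exact card_eq_zero.1 (Nat.le_zero.1 hS.2)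
    simpa using card_le_card h1
  | succ q ih =>
    have h1 : H.powerset.filter (fun S => S.card ≤ q + 1) ⊆
        ((H.powerset.filter (fun S => S.card ≤ q)) ×ˢ (insertNone H)).image
          (fun p => p.2.elim p.1 (fun x => insert x p.1)) := by
      intro S hS
      rw [mem_filter, mem_powerset] at hS
      rw [mem_image]
      by_cases h0 : S.card ≤ q
      · refine ⟨(S, none), ?_, rfl⟩
        rw [mem_product]
        refine ⟨?_, none_mem_insertNone⟩
        rw [mem_filter, mem_powerset]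
        exact ⟨hS.1, h0⟩
      · obtain ⟨x, hx⟩ : S.Nonempty := by
          rw [← card_pos]
          omega
        refine ⟨(S.erase x, some x), ?_, insert_erase hx⟩
        rw [mem_product]
        refine ⟨?_, some_mem_insertNone.2 (hS.1 hx)⟩
        rw [mem_filter, mem_powerset]
        refine ⟨(erase_subset x S).trans hS.1, ?_⟩
        show (S.erase x).card ≤ q
        rw [card_erase_of_mem hx]
        omega
    calc (H.powerset.filter (fun S => S.card ≤ q + 1)).card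
        ≤ (((H.powerset.filter (fun S => S.card ≤ q)) ×ˢ (insertNone H)).image
          (fun p => p.2.elim p.1 (fun x => insert x p.1))).card := card_le_card h1
      _ ≤ ((H.powerset.filter (fun S => S.card ≤ q)) ×ˢ (insertNone H)).card := card_image_le
      _ = (H.powerset.filter (fun S => S.card ≤ q)).card * (H.card + 1) := by
        rw [card_product, card_insertNone]
      _ ≤ (H.card + 1) ^ q * (H.card + 1) := Nat.mul_le_mul_right _ ih
      _ = (H.card + 1) ^ (q + 1) := (pow_succ _ _).symm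

private theorem eb_fib {V : Type*} [DecidableEq V] (𝒞 : Finset (Finset V)) (H : Finset V)
    (q : ℕ) (g : Finset V → Finset V) (hg : ∀ B ∈ 𝒞, g B ⊆ B) (hH : ∀ B ∈ 𝒞, B \ g B ⊆ H)
    (hq : ∀ B ∈ 𝒞, B.card ≤ q) (U : Finset V) :
    (𝒞.filter (fun B => g B = U)).card ≤ (H.card + 1) ^ q := by
  refine (card_le_card_of_injOn (fun B => B \ U) ?_ ?_).trans (eb_small H q)
  · intro B hB
    rw [mem_coe, mem_filter] at hB
    rw [mem_coe, mem_filter, mem_powerset]
    obtain ⟨h1, rfl⟩ := hB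
    exact ⟨hH B h1, (card_le_card sdiff_subset).trans (hq B h1)⟩
  · intro B hB B' hB' h
    rw [mem_coe, mem_filter] at hB hB'
    have h1 : B \ U = B' \ U := h
    have h2 : U ⊆ B := by rw [← hB.2]; exact hg B hB.1
    have h3 : U ⊆ B' := by rw [← hB'.2]; exact hg B' hB'.1
    rw [← sdiff_union_of_subset h2, ← sdiff_union_of_subset h3, h1]

/-- the potential is at least the contribution of the tuples of `W` -/
private theorem eb_pot {N m b q r : ℕ} {P : Pos (Sym2 (Fin N))} {ρ : Finset (Fin N)}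
    (hρ : ρ.card ≤ q) (W : Finset (Fin r → Finset (Fin N))) {Q : ℕ} (hQ : Q ≤ q)
    (hW : ∀ U ∈ W, ∀ k, (U k).card = Q)
    (hdj : ∀ U ∈ W, Disjoint (bip ρ (univ.biUnion U)) P.B) {g : ℝ}
    (hg : ∀ U ∈ W, g ≤ gain m b P.mv (bip ρ (univ.biUnion U))) :
    (W.card : ℝ) * (((q : ℝ) + 1)⁻¹ ^ (r + 1) * (N : ℝ)⁻¹ ^ (ρ.card + r * Q) * g) ≤
      pot m b (wD1 q r) P := by
  have hnn : ∀ (R : Finset (Fin N)) (U : Fin r → Finset (Fin N)) (S : Finset (Sym2 (Fin N))),
      0 ≤ (if bip R (univ.biUnion U) = S then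
        ((q : ℝ) + 1)⁻¹ ^ (r + 1) * (N : ℝ)⁻¹ ^ (R.card + ∑ k, (U k).card) else 0) := by
    intro R U S
    split_ifs
    · positivity
    · exact le_rfl
  have hw : ∀ S : Finset (Sym2 (Fin N)),
      (∑ U ∈ W, if bip ρ (univ.biUnion U) = S then
        ((q : ℝ) + 1)⁻¹ ^ (r + 1) * (N : ℝ)⁻¹ ^ (ρ.card + r * Q) else 0) ≤ wD1 q r S := by
    intro S
    unfold wD1
    have h1 : ρ ∈ univ.filter (fun R : Finset (Fin N) => R.card ≤ q) := by
      rw [mem_filter]
      exact ⟨mem_univ _, hρ⟩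
    refine le_trans ?_ (single_le_sum (f := fun R : Finset (Fin N) =>
      ∑ U ∈ univ.filter (fun U : Fin r → Finset (Fin N) => ∀ k, (U k).card ≤ q),
      if bip R (univ.biUnion U) = S then
        ((q : ℝ) + 1)⁻¹ ^ (r + 1) * (N : ℝ)⁻¹ ^ (R.card + ∑ k, (U k).card) else 0)
      (fun R _ => sum_nonneg fun U _ => hnn R U S) h1)
    have h2 : W ⊆ univ.filter (fun U : Fin r → Finset (Fin N) => ∀ k, (U k).card ≤ q) := by
      intro U hU
      rw [mem_filter]
      exact ⟨mem_univ _, fun k => (hW U hU k).le.trans hQ⟩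
    refine le_trans (le_of_eq ?_) (sum_le_sum_of_subset_of_nonneg h2 fun U _ _ => hnn ρ U S)
    refine sum_congr rfl fun U hU => ?_
    have h3 : ∑ k, (U k).card = r * Q := by
      rw [sum_congr rfl fun k _ => hW U hU k, sum_const, card_univ, Fintype.card_fin, smul_eq_mul]
    rw [h3]
  have hgp : ∀ S, 0 < gain m b P.mv S := fun S =>
    lt_of_lt_of_le one_pos (one_le_gain m b P.mv S)
  calc (W.card : ℝ) * (((q : ℝ) + 1)⁻¹ ^ (r + 1) * (N : ℝ)⁻¹ ^ (ρ.card + r * Q) * g)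
      = ∑ U ∈ W, ((q : ℝ) + 1)⁻¹ ^ (r + 1) * (N : ℝ)⁻¹ ^ (ρ.card + r * Q) * g := by
        rw [sum_const, nsmul_eq_mul]
    _ ≤ ∑ U ∈ W, ((q : ℝ) + 1)⁻¹ ^ (r + 1) * (N : ℝ)⁻¹ ^ (ρ.card + r * Q) *
          gain m b P.mv (bip ρ (univ.biUnion U)) := by
        refine sum_le_sum fun U hU => ?_
        exact mul_le_mul_of_nonneg_left (hg U hU) (by positivity)
    _ = ∑ U ∈ W, ∑ S ∈ univ.filter (fun S : Finset (Sym2 (Fin N)) => Disjoint S P.B),
          (if bip ρ (univ.biUnion U) = S then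
            ((q : ℝ) + 1)⁻¹ ^ (r + 1) * (N : ℝ)⁻¹ ^ (ρ.card + r * Q) else 0) *
            gain m b P.mv S := by
        refine sum_congr rfl fun U hU => ?_
        have h4 : bip ρ (univ.biUnion U) ∈
            univ.filter (fun S : Finset (Sym2 (Fin N)) => Disjoint S P.B) := by
          rw [mem_filter]
          exact ⟨mem_univ _, hdj U hU⟩
        rw [sum_eq_single_of_mem _ h4, if_pos rfl]
        intro S _ hS
        rw [if_neg (Ne.symm hS), zero_mul]
    _ = ∑ S ∈ univ.filter (fun S : Finset (Sym2 (Fin N)) => Disjoint S P.B),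
          (∑ U ∈ W, if bip ρ (univ.biUnion U) = S then
            ((q : ℝ) + 1)⁻¹ ^ (r + 1) * (N : ℝ)⁻¹ ^ (ρ.card + r * Q) else 0) *
            gain m b P.mv S := by
        rw [sum_comm]
        refine sum_congr rfl fun S _ => ?_
        rw [sum_mul]
    _ ≤ pot m b (wD1 q r) P := by
        unfold pot
        refine sum_le_sum fun S _ => ?_
        exact mul_le_mul_of_nonneg_right (hw S) (hgp S).le

private theorem eb_bip_card {V : Type*} [DecidableEq V] {R U : Finset V} (h : Disjoint R U) :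
    (bip R U).card = R.card * U.card := by
  unfold bip
  rw [card_image_of_injOn, card_product]
  rintro ⟨x, y⟩ hxy ⟨x', y'⟩ hxy' h1
  rw [mem_coe, mem_product] at hxy hxy'
  have h2 : s(x, y) = s(x', y') := h1
  rw [Sym2.eq_iff] at h2
  rcases h2 with ⟨rfl, rfl⟩ | ⟨rfl, rfl⟩
  · rfl
  · exact absurd hxy'.2 (disjoint_left.1 h hxy.1)

theorem e_bound {N m b q r u : ℕ} (hm : 1 ≤ m) (hN : 2 ≤ N) (hr : 1 ≤ r)
    {P : Pos (Sym2 (Fin N))} (hP : GP m (edges N) P) {C : ℝ} (hC : 0 < C)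
    (hpot : pot m b (wD1 q r) P ≤ C) {ρ : Finset (Fin N)} {ℬ : Finset (Finset (Fin N))}
    (hne : ℬ.Nonempty) (hB : ∀ B ∈ ℬ, Disjoint ρ B ∧ ρ ∪ B ∈ AA P q u) {p2 : ℝ} (hp2 : 0 < p2)
    (hdis : (r : ℝ) ^ 2 * (p2 * ((q : ℝ) + 1) * q) ≤ 1 / 2) :
    ∃ Q : ℕ, Q ≤ q ∧
      Real.log ℬ.card ≤ Q * Real.log N + q * Real.log (q / p2 + 1) + Real.log (q + 1) ∧
      Real.log ℬ.card + mu m b * ((Q : ℝ) * ρ.card - u) ≤
        Q * Real.log N + q * Real.log (q / p2 + 1) + 2 * Real.log (q + 1) +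
          (ρ.card * Real.log N + Real.log (2 * C) + Real.log (q + 1)) / r := by
  classical
  -- basic facts on the members
  have hBcard : ∀ B ∈ ℬ, B.card = q - ρ.card ∧ ρ.card ≤ q := by
    intro B hBm
    obtain ⟨h1, h2⟩ := hB B hBm
    unfold AA at h2
    rw [mem_filter] at h2
    have h3 := h2.2.1
    rw [card_union_of_disjoint h1] at h3
    omega
  have hρ : ρ.card ≤ q := by
    obtain ⟨B, hBm⟩ := hne
    exact (hBcard B hBm).2
  have hBq : ∀ B ∈ ℬ, B.card ≤ q := fun B hBm => by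
    have := (hBcard B hBm).1
    omega
  have hEIB : ∀ B ∈ ℬ, Disjoint (EI (ρ ∪ B)) P.B := by
    intro B hBm
    have h2 := (hB B hBm).2
    unfold AA at h2
    rw [mem_filter] at h2
    exact h2.2.2.1
  have hEIu : ∀ B ∈ ℬ, (EI (ρ ∪ B) \ P.M).card = u := by
    intro B hBm
    have h2 := (hB B hBm).2
    unfold AA at h2
    rw [mem_filter] at h2
    exact h2.2.2.2
  have hℬpos : (0 : ℝ) < ℬ.card := by exact_mod_cast card_pos.2 hne
  have hN1 : (1 : ℝ) ≤ N := by exact_mod_cast (by omega : 1 ≤ N)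
  have hN0 : (0 : ℝ) < N := by linarith
  have hq0 : (0 : ℝ) ≤ q := Nat.cast_nonneg q
  -- the common vertices
  obtain ⟨H, hHdef⟩ : ∃ H : Finset (Fin N), H = univ.filter
    (fun v : Fin N => p2 * (ℬ.card : ℝ) ≤ (nn ℬ {v} : ℝ)) := ⟨_, rfl⟩
  have hHcard : (H.card : ℝ) ≤ q / p2 := by
    have h1 : ∑ x : Fin N, nn ℬ {x} = (q - ρ.card) * ℬ.card :=
      sum_nn_singleton fun A hA => (hBcard A hA).1
    have h2 : (∑ x : Fin N, (nn ℬ {x} : ℝ)) ≤ q * ℬ.card := by
      have h3 : (∑ x : Fin N, (nn ℬ {x} : ℝ)) = (((q - ρ.card) * ℬ.card : ℕ) : ℝ) := by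
        rw [← h1]
        push_cast
        rfl
      rw [h3]
      have h4 : (q - ρ.card) * ℬ.card ≤ q * ℬ.card := Nat.mul_le_mul_right _ (Nat.sub_le _ _)
      exact_mod_cast h4
    have h3 : (H.card : ℝ) * (p2 * ℬ.card) ≤ ∑ x : Fin N, (nn ℬ {x} : ℝ) := by
      calc (H.card : ℝ) * (p2 * ℬ.card) = ∑ x ∈ H, p2 * (ℬ.card : ℝ) := by
            rw [sum_const, nsmul_eq_mul]
        _ ≤ ∑ x ∈ H, (nn ℬ {x} : ℝ) := by
            refine sum_le_sum fun x hx => ?_
            rw [hHdef, mem_filter] at hx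
            exact hx.2
        _ ≤ ∑ x : Fin N, (nn ℬ {x} : ℝ) :=
            sum_le_sum_of_subset_of_nonneg (subset_univ _) fun x _ _ => Nat.cast_nonneg _
    rw [le_div_iff₀ hp2]
    have h4 : (H.card : ℝ) * p2 * ℬ.card ≤ q * ℬ.card := by nlinarith
    exact le_of_mul_le_mul_right h4 hℬpos
  -- the rare part of a member
  obtain ⟨U0, hU0⟩ : ∃ U0 : Finset (Fin N) → Finset (Fin N), U0 = fun B =>
    B.filter (fun v => (nn ℬ {v} : ℝ) < p2 * ℬ.card) := ⟨_, rfl⟩
  have hU0sub : ∀ B, U0 B ⊆ B := fun B => by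
    rw [hU0]
    exact filter_subset _ _
  have hU0H : ∀ B, B \ U0 B ⊆ H := by
    intro B v hv
    rw [mem_sdiff, hU0] at hv
    rw [hHdef, mem_filter]
    refine ⟨mem_univ _, ?_⟩
    by_contra h1
    push Not at h1
    exact hv.2 (mem_filter.2 ⟨hv.1, h1⟩)
  have hU0r : ∀ B v, v ∈ U0 B → (nn ℬ {v} : ℝ) < p2 * ℬ.card := by
    intro B v hv
    rw [hU0] at hv
    exact (mem_filter.1 hv).2
  obtain ⟨K, hK⟩ : ∃ K : ℝ, K = (q / p2 + 1 : ℝ) ^ q := ⟨_, rfl⟩
  have hqp : (0 : ℝ) < q / p2 + 1 := by positivity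
  have hKpos : 0 < K := by rw [hK]; positivity
  have hHK : (((H.card + 1) ^ q : ℕ) : ℝ) ≤ K := by
    rw [hK]
    push_cast
    exact pow_le_pow_left₀ (by positivity) (by linarith) q
  -- pigeonhole
  obtain ⟨Q, hQq, hQ⟩ : ∃ Q ≤ q, (ℬ.card : ℝ) ≤
      (q + 1) * ((ℬ.filter (fun B => (U0 B).card = Q)).card : ℝ) := by
    by_contra hcon
    push Not at hcon
    have h1 : ℬ.card = ∑ Q ∈ range (q + 1), (ℬ.filter (fun B => (U0 B).card = Q)).card :=
      card_eq_sum_card_fiberwise fun B hBm => by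
        rw [mem_coe, mem_range]
        have h2 := card_le_card (hU0sub B)
        have h3 := hBq B hBm
        omega
    have h2 : (ℬ.card : ℝ) =
        ∑ Q ∈ range (q + 1), ((ℬ.filter (fun B => (U0 B).card = Q)).card : ℝ) := by
      exact_mod_cast h1
    have h3 : ∑ Q ∈ range (q + 1), ((q : ℝ) + 1) *
        ((ℬ.filter (fun B => (U0 B).card = Q)).card : ℝ) <
        ∑ Q ∈ range (q + 1), (ℬ.card : ℝ) := by
      refine sum_lt_sum_of_nonempty ⟨0, mem_range.2 (by omega)⟩ fun Q hQ => ?_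
      exact hcon Q (by rw [mem_range] at hQ; omega)
    rw [← mul_sum, ← h2, sum_const, card_range, nsmul_eq_mul] at h3
    push_cast at h3
    exact lt_irrefl _ h3
  obtain ⟨𝒞, h𝒞⟩ : ∃ 𝒞, 𝒞 = ℬ.filter (fun B => (U0 B).card = Q) := ⟨_, rfl⟩
  rw [← h𝒞] at hQ
  have h𝒞sub : 𝒞 ⊆ ℬ := by rw [h𝒞]; exact filter_subset _ _
  have h𝒞Q : ∀ B ∈ 𝒞, (U0 B).card = Q := by
    intro B hBm
    rw [h𝒞, mem_filter] at hBm
    exact hBm.2
  have hq1 : (0 : ℝ) < (q : ℝ) + 1 := by positivity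
  have h𝒞pos : (0 : ℝ) < 𝒞.card := by
    by_contra h1
    push Not at h1
    have h2 : (𝒞.card : ℝ) = 0 := le_antisymm h1 (Nat.cast_nonneg _)
    rw [h2, mul_zero] at hQ
    linarith
  have hfib : ∀ U, (𝒞.filter (fun B => U0 B = U)).card ≤ (H.card + 1) ^ q :=
    eb_fib 𝒞 H q U0 (fun B _ => hU0sub B) (fun B _ => hU0H B) (fun B hBm => hBq B (h𝒞sub hBm))
  -- the first inequality
  have hfirst : (𝒞.card : ℝ) ≤ (N : ℝ) ^ Q * K := by
    have h1 : 𝒞.card ≤ (H.card + 1) ^ q * (𝒞.image U0).card :=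
      card_le_mul_card_image 𝒞 _ fun U _ => hfib U
    have h2 : (𝒞.image U0).card ≤ N ^ Q := by
      have h3 : 𝒞.image U0 ⊆ powersetCard Q (univ : Finset (Fin N)) := by
        intro U hU
        rw [mem_image] at hU
        obtain ⟨B, hBm, rfl⟩ := hU
        rw [mem_powersetCard]
        exact ⟨subset_univ _, h𝒞Q B hBm⟩
      refine (card_le_card h3).trans ?_
      rw [card_powersetCard, card_univ, Fintype.card_fin]
      exact Nat.choose_le_pow N Q
    have h3 : 𝒞.card ≤ (H.card + 1) ^ q * N ^ Q := h1.trans (Nat.mul_le_mul_left _ h2)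
    have h4 : (𝒞.card : ℝ) ≤ (((H.card + 1) ^ q : ℕ) : ℝ) * (N : ℝ) ^ Q := by exact_mod_cast h3
    calc (𝒞.card : ℝ) ≤ (((H.card + 1) ^ q : ℕ) : ℝ) * (N : ℝ) ^ Q := h4
      _ ≤ K * (N : ℝ) ^ Q := mul_le_mul_of_nonneg_right hHK (by positivity)
      _ = (N : ℝ) ^ Q * K := mul_comm _ _
  have hlogℬ : Real.log ℬ.card ≤ Real.log (q + 1) + Real.log 𝒞.card := by
    rw [← Real.log_mul hq1.ne' h𝒞pos.ne']
    exact Real.log_le_log hℬpos hQ
  have hlogK : Real.log K = q * Real.log (q / p2 + 1) := by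
    rw [hK, Real.log_pow]
  refine ⟨Q, hQq, ?_, ?_⟩
  · have h1 : Real.log 𝒞.card ≤ Q * Real.log N + q * Real.log (q / p2 + 1) := by
      rw [← hlogK, ← Real.log_pow, ← Real.log_mul (by positivity) hKpos.ne']
      exact Real.log_le_log h𝒞pos hfirst
    linarith
  -- many disjoint tuples
  have hsq : ∑ v : Fin N, ((𝒞.filter (fun B => v ∈ U0 B)).card : ℝ) ^ 2 ≤
      (p2 * ((q : ℝ) + 1) * q) * (𝒞.card : ℝ) ^ 2 := by
    have h1 : ∀ v : Fin N, ((𝒞.filter (fun B => v ∈ U0 B)).card : ℝ) ≤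
        p2 * ((q : ℝ) + 1) * 𝒞.card := by
      intro v
      rcases (𝒞.filter (fun B => v ∈ U0 B)).eq_empty_or_nonempty with h2 | ⟨B, hBm⟩
      · rw [h2, card_empty]
        push_cast
        positivity
      · rw [mem_filter] at hBm
        have h3 := hU0r B v hBm.2
        have h4 : (𝒞.filter (fun B => v ∈ U0 B)).card ≤ nn ℬ {v} := by
          unfold nn
          refine card_le_card fun A hA => ?_
          rw [mem_filter] at hA ⊢
          refine ⟨h𝒞sub hA.1, ?_⟩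
          rw [singleton_subset_iff]
          exact hU0sub A hA.2
        have h5 : ((𝒞.filter (fun B => v ∈ U0 B)).card : ℝ) ≤ (nn ℬ {v} : ℝ) := by
          exact_mod_cast h4
        calc ((𝒞.filter (fun B => v ∈ U0 B)).card : ℝ) ≤ p2 * ℬ.card := by linarith
          _ ≤ p2 * (((q : ℝ) + 1) * 𝒞.card) := mul_le_mul_of_nonneg_left hQ hp2.le
          _ = p2 * ((q : ℝ) + 1) * 𝒞.card := by ring
    have h2 : ∑ v : Fin N, ((𝒞.filter (fun B => v ∈ U0 B)).card : ℝ) ≤ q * 𝒞.card := by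
      have h3 : ∑ v : Fin N, (𝒞.filter (fun B => v ∈ U0 B)).card = Q * 𝒞.card := by
        calc ∑ v : Fin N, (𝒞.filter (fun B => v ∈ U0 B)).card
            = ∑ v : Fin N, ∑ B ∈ 𝒞, (if v ∈ U0 B then 1 else 0) :=
              sum_congr rfl fun v _ => card_filter _ _
          _ = ∑ B ∈ 𝒞, ∑ v : Fin N, (if v ∈ U0 B then 1 else 0) := sum_comm
          _ = ∑ B ∈ 𝒞, Q := by
              refine sum_congr rfl fun B hBm => ?_
              rw [← card_filter, filter_mem_eq_inter, univ_inter, h𝒞Q B hBm]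
          _ = Q * 𝒞.card := by rw [sum_const, smul_eq_mul, mul_comm]
      have h4 : Q * 𝒞.card ≤ q * 𝒞.card := Nat.mul_le_mul_right _ hQq
      have h5 : ∑ v : Fin N, (𝒞.filter (fun B => v ∈ U0 B)).card ≤ q * 𝒞.card := h3 ▸ h4
      exact_mod_cast h5
    calc ∑ v : Fin N, ((𝒞.filter (fun B => v ∈ U0 B)).card : ℝ) ^ 2
        ≤ ∑ v : Fin N, p2 * ((q : ℝ) + 1) * 𝒞.card *
            ((𝒞.filter (fun B => v ∈ U0 B)).card : ℝ) := by
          refine sum_le_sum fun v _ => ?_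
          rw [sq]
          exact mul_le_mul_of_nonneg_right (h1 v) (Nat.cast_nonneg _)
      _ = p2 * ((q : ℝ) + 1) * 𝒞.card *
            ∑ v : Fin N, ((𝒞.filter (fun B => v ∈ U0 B)).card : ℝ) := by rw [mul_sum]
      _ ≤ p2 * ((q : ℝ) + 1) * 𝒞.card * (q * 𝒞.card) :=
          mul_le_mul_of_nonneg_left h2 (by positivity)
      _ = (p2 * ((q : ℝ) + 1) * q) * (𝒞.card : ℝ) ^ 2 := by ring
  have htup := disjoint_tuples 𝒞 U0 r (ε := p2 * ((q : ℝ) + 1) * q) (by convert hsq) hdis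
  obtain ⟨T, hT⟩ : ∃ T : Finset (Fin r → {B // B ∈ 𝒞}), T =
    univ.filter (fun F : Fin r → {B // B ∈ 𝒞} =>
      ∀ i j, i ≠ j → Disjoint (U0 (F i).1) (U0 (F j).1)) := ⟨_, rfl⟩
  have htup' : (𝒞.card : ℝ) ^ r / 2 ≤ T.card := by
    have h1 : (Fintype.card (Fin r → {B // B ∈ 𝒞}) : ℝ) = (𝒞.card : ℝ) ^ r := by
      rw [Fintype.card_fun, Fintype.card_fin, Fintype.card_coe]
      push_cast
      rfl
    rw [← h1, hT]
    convert htup
  obtain ⟨Φ, hΦ⟩ : ∃ Φ : (Fin r → {B // B ∈ 𝒞}) → Fin r → Finset (Fin N),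
    Φ = fun F k => U0 (F k).1 := ⟨_, rfl⟩
  obtain ⟨W, hWdef⟩ : ∃ W, W = T.image Φ := ⟨_, rfl⟩
  have hTW : (T.card : ℝ) ≤ K ^ r * W.card := by
    have h1 : T.card ≤ ((H.card + 1) ^ q) ^ r * W.card := by
      rw [hWdef]
      refine card_le_mul_card_image T _ fun U _ => ?_
      have h2 : T.filter (fun F => Φ F = U) ⊆
          Fintype.piFinset (fun k => univ.filter (fun B : {B // B ∈ 𝒞} => U0 B.1 = U k)) := by
        intro F hF
        rw [mem_filter] at hF
        rw [Fintype.mem_piFinset]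
        intro k
        rw [mem_filter]
        refine ⟨mem_univ _, ?_⟩
        rw [← hF.2, hΦ]
      refine (card_le_card h2).trans ?_
      rw [Fintype.card_piFinset]
      calc ∏ k : Fin r, (univ.filter (fun B : {B // B ∈ 𝒞} => U0 B.1 = U k)).card
          ≤ ∏ k : Fin r, (H.card + 1) ^ q := by
            refine prod_le_prod' fun k _ => ?_
            refine le_trans ?_ (hfib (U k))
            refine card_le_card_of_injOn (fun B => B.1) ?_ ?_
            · intro B hBm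
              rw [mem_coe, mem_filter] at hBm
              rw [mem_coe, mem_filter]
              exact ⟨B.2, hBm.2⟩
            · intro B _ B' _ h
              exact Subtype.ext h
        _ = ((H.card + 1) ^ q) ^ r := by
            rw [prod_const, card_univ, Fintype.card_fin]
    have h3 : (T.card : ℝ) ≤ (((H.card + 1) ^ q : ℕ) : ℝ) ^ r * W.card := by exact_mod_cast h1
    exact h3.trans (mul_le_mul_of_nonneg_right
      (pow_le_pow_left₀ (Nat.cast_nonneg _) hHK r) (Nat.cast_nonneg _))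
  -- properties of the tuples
  have hWp : ∀ U ∈ W, ∃ F : Fin r → {B // B ∈ 𝒞}, (∀ k, U k = U0 (F k).1) ∧
      ∀ i j, i ≠ j → Disjoint (U i) (U j) := by
    intro U hU
    rw [hWdef, mem_image] at hU
    obtain ⟨F, hF, rfl⟩ := hU
    rw [hT, mem_filter] at hF
    refine ⟨F, fun k => by rw [hΦ], fun i j hij => ?_⟩
    rw [hΦ]
    exact hF.2 i j hij
  have hsubE : ∀ U ∈ W, ∀ F : Fin r → {B // B ∈ 𝒞}, (∀ k, U k = U0 (F k).1) →
      bip ρ (univ.biUnion U) ⊆ univ.biUnion (fun k => EI (ρ ∪ (F k).1)) := by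
    intro U _ F hF e he
    unfold bip at he
    rw [mem_image] at he
    obtain ⟨⟨x, y⟩, hxy, rfl⟩ := he
    rw [mem_product, mem_biUnion] at hxy
    obtain ⟨hx, k, -, hy⟩ := hxy
    rw [hF k] at hy
    have hy' : y ∈ (F k).1 := hU0sub _ hy
    rw [mem_biUnion]
    refine ⟨k, mem_univ _, ?_⟩
    unfold EI edges
    rw [mem_filter, mem_filter]
    refine ⟨⟨mem_univ _, ?_⟩, ?_⟩
    · rw [Sym2.mk_isDiag_iff]
      intro hxe
      have hx' : x ∈ ρ := hx
      have hxe' : x = y := hxe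
      rw [hxe'] at hx'
      exact disjoint_left.1 (hB _ (h𝒞sub (F k).2)).1 hx' hy'
    · intro z hz
      rw [Sym2.mem_iff] at hz
      rcases hz with rfl | rfl
      · exact mem_union_left _ hx
      · exact mem_union_right _ hy'
  have hWQ : ∀ U ∈ W, ∀ k, (U k).card = Q := by
    intro U hU k
    obtain ⟨F, hF, -⟩ := hWp U hU
    rw [hF k]
    exact h𝒞Q _ (F k).2
  have hWdj : ∀ U ∈ W, Disjoint (bip ρ (univ.biUnion U)) P.B := by
    intro U hU
    obtain ⟨F, hF, -⟩ := hWp U hU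
    refine disjoint_of_subset_left (hsubE U hU F hF) ?_
    rw [disjoint_biUnion_left]
    intro k _
    exact hEIB _ (h𝒞sub (F k).2)
  have hmu : 0 ≤ mu m b := by
    unfold mu
    exact div_nonneg (lam_nonneg m b m) (Nat.cast_nonneg m)
  have hWg : ∀ U ∈ W, Real.exp (mu m b * (r * ((Q : ℝ) * ρ.card - u))) ≤
      gain m b P.mv (bip ρ (univ.biUnion U)) := by
    intro U hU
    obtain ⟨F, hF, hFd⟩ := hWp U hU
    have h1 := log_gain_ge (b := b) hm P.mv hP.card hP.pw (bip ρ (univ.biUnion U))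
    have h2 : (0 : ℝ) < gain m b P.mv (bip ρ (univ.biUnion U)) :=
      lt_of_lt_of_le one_pos (one_le_gain m b P.mv _)
    rw [← Real.le_log_iff_exp_le h2]
    refine le_trans (mul_le_mul_of_nonneg_left ?_ hmu) h1
    have h3 : (bip ρ (univ.biUnion U)).card = ρ.card * (r * Q) := by
      have h4 : Disjoint ρ (univ.biUnion U) := by
        rw [disjoint_biUnion_right]
        intro k _
        rw [hF k]
        exact disjoint_of_subset_right (hU0sub _) (hB _ (h𝒞sub (F k).2)).1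
      rw [eb_bip_card h4, card_biUnion (fun i _ j _ hij => hFd i j hij),
        sum_congr rfl fun k _ => hWQ U hU k, sum_const, card_univ, Fintype.card_fin, smul_eq_mul]
    have h5 : (bip ρ (univ.biUnion U) \ P.M).card ≤ r * u := by
      have h6 : bip ρ (univ.biUnion U) \ P.M ⊆
          univ.biUnion (fun k => EI (ρ ∪ (F k).1) \ P.M) := by
        intro e he
        rw [mem_sdiff] at he
        have h7 := hsubE U hU F hF he.1
        rw [mem_biUnion] at h7 ⊢
        obtain ⟨k, hk, h8⟩ := h7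
        exact ⟨k, hk, mem_sdiff.2 ⟨h8, he.2⟩⟩
      refine (card_le_card h6).trans (card_biUnion_le.trans ?_)
      rw [sum_congr rfl fun k _ => hEIu _ (h𝒞sub (F k).2), sum_const, card_univ,
        Fintype.card_fin, smul_eq_mul]
    have h9 : (bip ρ (univ.biUnion U)).card =
        (bip ρ (univ.biUnion U) ∩ P.M).card + (bip ρ (univ.biUnion U) \ P.M).card := by
      rw [card_inter_add_card_sdiff]
    have h10 : (ρ.card * (r * Q) : ℕ) ≤ (bip ρ (univ.biUnion U) ∩ uni P.mv).card + r * u := by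
      have h11 : P.M = uni P.mv := rfl
      rw [h11] at h9 h5
      omega
    have h12 : (ρ.card : ℝ) * (r * Q) ≤
        ((bip ρ (univ.biUnion U) ∩ uni P.mv).card : ℝ) + r * u := by exact_mod_cast h10
    nlinarith
  have hfin := (eb_pot (b := b) (m := m) (P := P) hρ W hQq hWQ hWdj hWg).trans hpot
  -- take logarithms
  have hr0 : (0 : ℝ) < r := by exact_mod_cast hr
  have hKr : 0 < K ^ r := pow_pos hKpos r
  have hWlow : (𝒞.card : ℝ) ^ r / 2 / K ^ r ≤ W.card := by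
    rw [div_le_iff₀ hKr]
    linarith
  have hWlow0 : 0 < (𝒞.card : ℝ) ^ r / 2 / K ^ r := by positivity
  obtain ⟨D, hD⟩ : ∃ D : ℝ, D = ((q : ℝ) + 1)⁻¹ ^ (r + 1) * (N : ℝ)⁻¹ ^ (ρ.card + r * Q) *
    Real.exp (mu m b * (r * ((Q : ℝ) * ρ.card - u))) := ⟨_, rfl⟩
  rw [← hD] at hfin
  have hDpos : 0 < D := by rw [hD]; positivity
  have h1 : (𝒞.card : ℝ) ^ r / 2 / K ^ r * D ≤ C :=
    (mul_le_mul_of_nonneg_right hWlow hDpos.le).trans hfin
  have h2 := Real.log_le_log (mul_pos hWlow0 hDpos) h1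
  rw [Real.log_mul hWlow0.ne' hDpos.ne', Real.log_div (by positivity) hKr.ne',
    Real.log_div (by positivity) (by norm_num), Real.log_pow, Real.log_pow, hlogK] at h2
  have h3 : Real.log D = -((r : ℝ) + 1) * Real.log (q + 1) -
      ((ρ.card : ℝ) + r * Q) * Real.log N + mu m b * (r * ((Q : ℝ) * ρ.card - u)) := by
    rw [hD, Real.log_mul (by positivity) (Real.exp_pos _).ne', Real.log_exp,
      Real.log_mul (by positivity) (by positivity), Real.log_pow, Real.log_pow, Real.log_inv,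
      Real.log_inv]
    push_cast
    ring
  rw [h3] at h2
  have h4 : Real.log (2 * C) = Real.log 2 + Real.log C := Real.log_mul (by norm_num) hC.ne'
  rw [h4]
  have h5 : (r : ℝ) * (Real.log ℬ.card + mu m b * ((Q : ℝ) * ρ.card - u)) ≤
      r * (Q * Real.log N + q * Real.log (q / p2 + 1) + 2 * Real.log (q + 1)) +
        (ρ.card * Real.log N + (Real.log 2 + Real.log C) + Real.log (q + 1)) := by
    have h6 : (r : ℝ) * Real.log ℬ.card ≤ r * (Real.log (q + 1) + Real.log 𝒞.card) :=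
      mul_le_mul_of_nonneg_left hlogℬ hr0.le
    linarith
  have h7 : (ρ.card * Real.log N + (Real.log 2 + Real.log C) + Real.log (q + 1)) =
      r * ((ρ.card * Real.log N + (Real.log 2 + Real.log C) + Real.log (q + 1)) / r) := by
    field_simp
  rw [h7, ← mul_add] at h5
  exact le_of_mul_le_mul_left h5 hr0

end Pool.Agent.Helper5.CV
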