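import Mathlib
import Pool.Agent.Helper5.CV.DefsN
import Pool.Agent.Helper5.CV.EBound
import Pool.Agent.Helper5.CV.Kap

/-!
# MP_d32cb0_co, module D05: the root is small

PROOF.  From `hA`: `log |AA| ≥ μu - log(CC (q²+1) N²)`, so by `hroot`: `log |ℬ| ≥ μ u - a1N`.
`e_bound` with `r = K^3`, `p2 = p2N K N` (`hn.dis`), `C = CC b`: `Q` with
(i) `log|ℬ| ≤ Q L + q log(q/p2+1) + log(q+1) = Q L + a2N`, so `Q L ≥ μ u0 - a1N - a2N > 0` (`u ≥ u0`, `hn.ebp`), `Q ≥ 1`;
(ii) `μu - a1N + μ(Qe - u) ≤ Q L + a2N + log(q+1) + (e L + log(2C) + log(q+1))/r`, i.e. (with `e ≤ q`)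
`μ Q e ≤ Q L + [a1N + a2N + log(q+1) + (q L + log(2C) + log(q+1))/K³] ≤ Q L + σ (μ u0 - a1N - a2N) ≤ Q L (1 + σ)` by `hn.ebd`.
Divide by `Q`.
-/

set_option autoImplicit false

namespace Pool.Agent.Helper5.CV

open Finset Pool.Agent.Helper25.CliqueGame
open Pool.Agent.Helper78.CG (EI)

theorem e_small {m b K N q u : ℕ} {σ R0 : ℝ} (hm : 1 ≤ m) (hb : 1 ≤ b) (hσ : 0 < σ)
    (hn : Num m b K N q σ R0) {P : Pos (Sym2 (Fin N))} (hP : GP m (edges N) P)
    (hpot : pot m b (wD1 q (K ^ 3)) P ≤ CC b) (hu : u0q K q ≤ u)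
    (hA : Real.exp (mu m b * u) ≤
      (AA P q u).card * (CC b * ((q : ℝ) ^ 2 + 1) * (N : ℝ) ^ 2))
    {ρ : Finset (Fin N)} {ℬ : Finset (Finset (Fin N))} (hne : ℬ.Nonempty)
    (hB : ∀ B ∈ ℬ, Disjoint ρ B ∧ ρ ∪ B ∈ AA P q u)
    (hroot : Real.log (AA P q u).card - 1 / (K : ℝ) ^ 4 * q * Real.log N - Real.log 4 -
      2 * K0q K q * Real.log N ≤ Real.log ℬ.card) :
    mu m b * ρ.card ≤ (1 + σ) * Real.log N := by
  classical
  have hK : 1 ≤ K := le_trans (by norm_num) hn.K4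
  have hr : 1 ≤ K ^ 3 := Nat.one_le_pow _ _ hK
  have hC : 0 < CC b := by
    unfold CC
    positivity
  have hp2 : 0 < p2N K N := by
    unfold p2N thr
    exact Real.exp_pos _
  have hN1 : (1 : ℝ) < N := by exact_mod_cast (by have := hn.N2; omega : 1 < N)
  have hL : 0 < Real.log N := Real.log_pos hN1
  have hmu : 0 < mu m b := mu_pos hm hb
  obtain ⟨Q, hQq, h1, h2⟩ := e_bound (b := b) hm hn.N2 hr hP hC hpot hne hB hp2 hn.dis
  have he : ρ.card ≤ q := by
    obtain ⟨B, hBm⟩ := hne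
    have h3 := (hB B hBm).2
    unfold AA at h3
    rw [mem_filter] at h3
    rw [← h3.2.1]
    exact card_le_card subset_union_left
  have hX : 0 < CC b * ((q : ℝ) ^ 2 + 1) * (N : ℝ) ^ 2 := by positivity
  have hAA : 0 < ((AA P q u).card : ℝ) := by
    by_contra hcon
    push Not at hcon
    have h3 : ((AA P q u).card : ℝ) = 0 := le_antisymm hcon (Nat.cast_nonneg _)
    rw [h3, zero_mul] at hA
    exact absurd hA (not_le.2 (Real.exp_pos _))
  have h3 : mu m b * u ≤ Real.log (AA P q u).card +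
      Real.log (CC b * ((q : ℝ) ^ 2 + 1) * (N : ℝ) ^ 2) := by
    rw [← Real.log_mul hAA.ne' hX.ne', Real.le_log_iff_exp_le (mul_pos hAA hX)]
    exact hA
  have h4 : mu m b * u - a1N b K N q ≤ Real.log ℬ.card := by
    unfold a1N
    linarith
  have h5 : Real.log ℬ.card ≤ Q * Real.log N + a2N K N q := by
    unfold a2N
    linarith
  have hu' : mu m b * u0q K q ≤ mu m b * u := by
    refine mul_le_mul_of_nonneg_left ?_ hmu.le
    exact_mod_cast hu
  have h6 : mu m b * u0q K q - a1N b K N q - a2N K N q ≤ Q * Real.log N := by linarith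
  have hQL : 0 < (Q : ℝ) * Real.log N := lt_of_lt_of_le hn.ebp h6
  have hQ : 0 < (Q : ℝ) := by
    by_contra hcon
    push Not at hcon
    have h7 : (Q : ℝ) * Real.log N ≤ 0 := mul_nonpos_of_nonpos_of_nonneg hcon hL.le
    linarith
  have h7 : (ρ.card * Real.log N + Real.log (2 * CC b) + Real.log (q + 1)) / ((K ^ 3 : ℕ) : ℝ) ≤
      (q * Real.log N + Real.log (2 * CC b) + Real.log (q + 1)) / ((K ^ 3 : ℕ) : ℝ) := by
    refine div_le_div_of_nonneg_right ?_ (Nat.cast_nonneg _)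
    have h8 : (ρ.card : ℝ) ≤ q := by exact_mod_cast he
    have h9 := mul_le_mul_of_nonneg_right h8 hL.le
    linarith
  have h8 : σ * (mu m b * u0q K q - a1N b K N q - a2N K N q) ≤ σ * (Q * Real.log N) :=
    mul_le_mul_of_nonneg_left h6 hσ.le
  have h9 := hn.ebd
  have h10 : mu m b * ((Q : ℝ) * ρ.card) ≤ (1 + σ) * (Q * Real.log N) := by
    have h11 : mu m b * ((Q : ℝ) * ρ.card - u) = mu m b * ((Q : ℝ) * ρ.card) - mu m b * u := by ring
    rw [h11] at h2
    have h12 : q * Real.log (q / p2N K N + 1) + Real.log (q + 1) = a2N K N q := rfl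
    linarith
  have h11 : (Q : ℝ) * (mu m b * ρ.card) ≤ Q * ((1 + σ) * Real.log N) := by
    calc (Q : ℝ) * (mu m b * ρ.card) = mu m b * ((Q : ℝ) * ρ.card) := by ring
      _ ≤ (1 + σ) * (Q * Real.log N) := h10
      _ = Q * ((1 + σ) * Real.log N) := by ring
  exact le_of_mul_le_mul_left h11 hQ

end Pool.Agent.Helper5.CV
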