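import Mathlib
import Pool.Agent.Helper5.CV.DefsN
import Pool.Agent.Helper5.CV.Kap

/-!
# MP_d32cb0_co, module F03: the final arithmetic

`c = cst m b`, `μ = mu m b > 0`, `c μ ≥ 1` (`cst ≥ m/Λ_m = 1/μ`).  `ST` is the static inequality (proved in `Pool/Agent/Helper34/GC`).
PROOF.  `g_i = |C_i|`, `t = |s|`, `Q = Σ |C|`, `S = Σ Σ κ`.  `S ≤ 2 t z + 2σ²L²`, `c S ≥ 2 t Q`, `S ≥ μ Q²` (`mu_mul_le_kap`).
Case `t ≥ σ L`: `t Q ≤ c t z + c σ² L²`, so `Q ≤ c z + c σ L ≤ c (L - μe + 2σL)` and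
`q ≤ e + Q + σL ≤ c L + (1 - cμ) e + (2c+1) σ L ≤ c L + (2c+1) σ L`.
Case `t < σ L`: `z ≤ (1+σ) L ≤ 2L` (`σ ≤ 1`), `μ Q² ≤ 4σL² + 2σ²L² ≤ 6σL²`, `Q ≤ √(6σ/μ) L`, `q ≤ e + Q + σL ≤ (1+σ)L/μ + √(6σ/μ) L + σL
≤ c L + (σ/μ + √(6σ/μ) + σ) L`.
First alternative: `q ≤ e + σL ≤ c L + (σ/μ + σ) L`.
Choose `σ ≤ 1` so small that `(2c+1)σ < ε` and `σ/μ + √(6σ/μ) + σ < ε`.
-/

set_option autoImplicit false

namespace Pool.Agent.Helper5.CV

open Finset Pool.Agent.Helper25.CliqueGame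
open Pool.Agent.Helper78.CG (EI)

private theorem fa_sigma {c μ ε : ℝ} (hc : 0 < c) (hμ : 0 < μ) (hε : 0 < ε) :
    ∃ σ : ℝ, 0 < σ ∧ σ ≤ 1 ∧ (2 * c + 1) * σ < ε ∧ σ / μ + √(6 * σ / μ) + σ < ε := by
  refine ⟨min 1 (min (ε / (2 * (2 * c + 1))) (min (μ * ε ^ 2 / 96) (min (μ * ε / 4) (ε / 8)))),
    ?_, min_le_left _ _, ?_, ?_⟩
  · have h1 : 0 < ε / (2 * (2 * c + 1)) := by positivity
    have h2 : 0 < μ * ε ^ 2 / 96 := by positivity
    have h3 : 0 < μ * ε / 4 := by positivity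
    have h4 : 0 < ε / 8 := by positivity
    exact lt_min one_pos (lt_min h1 (lt_min h2 (lt_min h3 h4)))
  · set σ := min 1 (min (ε / (2 * (2 * c + 1))) (min (μ * ε ^ 2 / 96) (min (μ * ε / 4) (ε / 8))))
      with hσ
    have h1 : σ ≤ ε / (2 * (2 * c + 1)) := (min_le_right _ _).trans (min_le_left _ _)
    have h2 : (2 * c + 1) * σ ≤ (2 * c + 1) * (ε / (2 * (2 * c + 1))) :=
      mul_le_mul_of_nonneg_left h1 (by positivity)
    have h3 : (2 * c + 1) * (ε / (2 * (2 * c + 1))) = ε / 2 := by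
      field_simp
    linarith
  · set σ := min 1 (min (ε / (2 * (2 * c + 1))) (min (μ * ε ^ 2 / 96) (min (μ * ε / 4) (ε / 8))))
      with hσ
    have h0 : σ ≤ min (μ * ε ^ 2 / 96) (min (μ * ε / 4) (ε / 8)) :=
      (min_le_right _ _).trans (min_le_right _ _)
    have h1 : σ ≤ μ * ε ^ 2 / 96 := h0.trans (min_le_left _ _)
    have h2 : σ ≤ μ * ε / 4 := h0.trans ((min_le_right _ _).trans (min_le_left _ _))
    have h3 : σ ≤ ε / 8 := h0.trans ((min_le_right _ _).trans (min_le_right _ _))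
    have h4 : σ / μ ≤ ε / 4 := by
      rw [div_le_iff₀ hμ]
      linarith
    have h5 : √(6 * σ / μ) ≤ ε / 4 := by
      apply Real.sqrt_le_iff.2
      refine ⟨by positivity, ?_⟩
      rw [div_le_iff₀ hμ]
      nlinarith
    linarith

private theorem one_le_cst_mul_mu {m b : ℕ} (hm : 1 ≤ m) (hb : 1 ≤ b) :
    1 ≤ cst m b * mu m b := by
  have hμ := mu_pos hm hb
  have h1 : (0 : ℝ) < m := by exact_mod_cast hm
  have h2 := lam_pos hm hb hm
  have h3 : (m : ℝ) / lam m b m ≤ cst m b := le_max_left _ _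
  have h4 : (m : ℝ) / lam m b m * mu m b = 1 := by
    unfold mu
    field_simp
  rw [← h4]
  exact mul_le_mul_of_nonneg_right h3 hμ.le

theorem fin_arith {m b : ℕ} (hm : 1 ≤ m) (hb : 1 ≤ b)
    (ST : ∀ {ι : Type} (s : Finset ι) (g : ι → ℕ), (∀ i ∈ s, 1 ≤ g i) →
      2 * (s.card : ℝ) * ∑ i ∈ s, (g i : ℝ) ≤
        cst m b * ∑ i ∈ s, ∑ j ∈ s, kap m b (g i * g j)) {ε : ℝ} (hε : 0 < ε) :
    ∃ σ : ℝ, 0 < σ ∧ ∀ (N q : ℕ), 2 ≤ N →
      (∃ e : ℕ, mu m b * e ≤ (1 + σ) * Real.log N ∧ ((q : ℝ) ≤ e + σ * Real.log N ∨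
        ∃ (s : Finset (Finset (Fin N))) (z : ℝ), 0 ≤ z ∧
          z ≤ Real.log N - mu m b * e + σ * Real.log N ∧ (∀ C ∈ s, 1 ≤ C.card) ∧
          (q : ℝ) - e ≤ ∑ C ∈ s, (C.card : ℝ) + σ * Real.log N ∧
          1 / 2 * ∑ C ∈ s, ∑ C' ∈ s, kap m b (C.card * C'.card) ≤
            s.card * z + σ ^ 2 * (Real.log N) ^ 2)) →
      (q : ℝ) < (cst m b + ε) * Real.log N := by
  have hμ := mu_pos hm hb
  have hcμ := one_le_cst_mul_mu hm hb
  have hc : 0 < cst m b := by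
    by_contra hcon
    have := mul_nonpos_of_nonpos_of_nonneg (not_lt.1 hcon) hμ.le
    linarith
  obtain ⟨σ, hσ, hσ1, hσ2, hσ3⟩ := fa_sigma hc hμ hε
  refine ⟨σ, hσ, ?_⟩
  rintro N q hN ⟨e, he, hcase⟩
  have hL : 0 < Real.log N := Real.log_pos (by exact_mod_cast hN)
  set L := Real.log N with hLdef
  set c := cst m b with hcdef
  set μ := mu m b with hμdef
  have hsq : 0 ≤ √(6 * σ / μ) := Real.sqrt_nonneg _
  have he0 : (0 : ℝ) ≤ e := Nat.cast_nonneg e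
  -- `e ≤ (1 + σ) L / μ ≤ (c + σ / μ) L`
  have he1 : (e : ℝ) ≤ (c + σ / μ) * L := by
    have h1 : (e : ℝ) ≤ (1 + σ) * L / μ := by
      rw [le_div_iff₀ hμ]
      linarith
    have h2 : 1 / μ ≤ c := by
      rw [div_le_iff₀ hμ]
      exact hcμ
    calc (e : ℝ) ≤ (1 + σ) * L / μ := h1
      _ = (1 / μ + σ / μ) * L := by ring
      _ ≤ (c + σ / μ) * L := mul_le_mul_of_nonneg_right (by linarith) hL.le
  have hσ3L : (σ / μ + √(6 * σ / μ) + σ) * L < ε * L := mul_lt_mul_of_pos_right hσ3 hL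
  rcases hcase with h | ⟨s, z, hz0, hz, hs, hq, hS⟩
  · nlinarith
  · set Q := ∑ C ∈ s, (C.card : ℝ) with hQ
    set S := ∑ C ∈ s, ∑ C' ∈ s, kap m b (C.card * C'.card) with hSdef
    have hQ0 : 0 ≤ Q := Finset.sum_nonneg fun C _ => Nat.cast_nonneg _
    have hST : 2 * (s.card : ℝ) * Q ≤ c * S := ST s (fun C => C.card) hs
    have hμQ : μ * Q ^ 2 ≤ S := by
      rw [sq, hQ, Finset.sum_mul_sum, Finset.mul_sum, hSdef]
      refine Finset.sum_le_sum fun C _ => ?_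
      rw [Finset.mul_sum]
      refine Finset.sum_le_sum fun C' _ => ?_
      have := mu_mul_le_kap (b := b) hm (C.card * C'.card)
      push_cast at this
      linarith
    have hs0 : (0 : ℝ) ≤ s.card := Nat.cast_nonneg _
    by_cases ht : σ * L ≤ s.card
    · -- many classes
      have htpos : (0 : ℝ) < s.card := lt_of_lt_of_le (mul_pos hσ hL) ht
      have h1 : (s.card : ℝ) * Q ≤ s.card * (c * z + c * σ * L) := by
        have h2 : c * S ≤ c * (2 * (s.card * z + σ ^ 2 * L ^ 2)) :=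
          mul_le_mul_of_nonneg_left (by linarith) hc.le
        have h3 : σ ^ 2 * L ^ 2 ≤ s.card * (σ * L) := by
          have := mul_le_mul_of_nonneg_right ht (mul_pos hσ hL).le
          nlinarith
        have h4 := mul_le_mul_of_nonneg_left h3 hc.le
        nlinarith
      have h2 : Q ≤ c * z + c * σ * L := le_of_mul_le_mul_left h1 htpos
      have h3 : c * z ≤ c * (L - μ * e + σ * L) := mul_le_mul_of_nonneg_left hz hc.le
      have h4 : 0 ≤ (c * μ - 1) * e := mul_nonneg (by linarith) he0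
      have h5 : (2 * c + 1) * σ * L < ε * L := mul_lt_mul_of_pos_right hσ2 hL
      nlinarith
    · -- few classes
      push Not at ht
      have hz2 : z ≤ 2 * L := by
        have h1 : 0 ≤ μ * e := mul_nonneg hμ.le he0
        have h2 : σ * L ≤ 1 * L := mul_le_mul_of_nonneg_right hσ1 hL.le
        linarith
      have h1 : μ * Q ^ 2 ≤ 6 * σ * L ^ 2 := by
        have h2 : (s.card : ℝ) * z ≤ σ * L * (2 * L) := mul_le_mul ht.le hz2 hz0 (by positivity)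
        have h3 : σ ^ 2 * L ^ 2 ≤ σ * L ^ 2 := by
          have h4 : σ ^ 2 ≤ σ := by nlinarith
          exact mul_le_mul_of_nonneg_right h4 (sq_nonneg _)
        nlinarith
      have h2 : Q ≤ √(6 * σ / μ) * L := by
        have h3 : Q ^ 2 ≤ (√(6 * σ / μ) * L) ^ 2 := by
          rw [mul_pow, Real.sq_sqrt (by positivity), div_mul_eq_mul_div, le_div_iff₀ hμ]
          linarith
        exact le_of_sq_le_sq h3 (by positivity)
      nlinarith

end Pool.Agent.Helper5.CV
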