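import Mathlib
import Pool.Agent.Helper5.CV.Defs

/-!
# MP_d32cb0_co, module G01: one greedy reply of Breaker

PROOF.  `Fr = board \ (M ∪ B)`.  For a set `Y` write `T_Y(e) = Σ_{S ∋ e, S ∩ Y = ∅} v S`.
Claim: for every `k ≤ |Fr|` there is `Y ⊆ Fr`, `|Y| = k`, with `k · T_Y(e) ≤ Σ_{S ∩ Y ≠ ∅} v S` for all
`e ∈ Fr \ Y`.  Induction on `k`: choose `y ∈ Fr \ Y` with the largest `T_Y(y)`, `Y' = Y + y`; for
`e ∈ Fr \ Y'`: `T_{Y'}(e) ≤ T_Y(e) ≤ T_Y(y)`, so
`(k+1) T_{Y'}(e) ≤ k T_Y(e) + T_Y(y) ≤ Σ_{S∩Y≠∅} v + Σ_{S∋y, S∩Y=∅} v = Σ_{S∩Y'≠∅} v`.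
Take `k = min b |Fr|`; then `Legal board M B b Y`.
If `|Fr| ≤ b`: after `Y = Fr` a legal `X` is empty, and the sum is `Σ_{S∩Y=∅} v ≤ Σ v`.
If `|Y| = b`: `Σ_{S∩Y=∅} v(S)(1 + (b/m)|S∩X|) = Σ_{S∩Y=∅} v + (b/m) Σ_{e∈X} T_Y(e)
≤ Σ_{S∩Y=∅} v + (1/m) |X| Σ_{S∩Y≠∅} v ≤ Σ v`, as `|X| ≤ m` and every `e ∈ X` is in `Fr \ Y`.
(The case `b = 0` is allowed: `Y = ∅`.)
-/

set_option autoImplicit false

namespace Pool.Agent.Helper5.CV

open Finset Pool.Agent.Helper25.CliqueGame
open Pool.Agent.Helper78.CG (EI)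

section greedyAux

variable {α : Type*} [DecidableEq α] [Fintype α]

/-- weight of the surviving sets through `e` -/
private noncomputable def gT (v : Finset α → ℝ) (Y : Finset α) (e : α) : ℝ :=
  ∑ S : Finset α, if e ∈ S ∧ Disjoint S Y then v S else 0

/-- weight of the sets which are hit -/
private noncomputable def gH (v : Finset α → ℝ) (Y : Finset α) : ℝ :=
  ∑ S : Finset α, if Disjoint S Y then 0 else v S

private theorem gT_anti {v : Finset α → ℝ} (hv : ∀ S, 0 ≤ v S) (Y : Finset α) (y e : α) :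
    gT v (insert y Y) e ≤ gT v Y e := by
  unfold gT
  refine sum_le_sum fun S _ => ?_
  by_cases h : e ∈ S ∧ Disjoint S (insert y Y)
  · rw [if_pos h, if_pos ⟨h.1, h.2.mono_right (subset_insert y Y)⟩]
  · rw [if_neg h]
    split_ifs
    · exact hv S
    · exact le_refl _

private theorem gH_insert (v : Finset α → ℝ) (Y : Finset α) (y : α) :
    gH v (insert y Y) = gH v Y + gT v Y y := by
  unfold gH gT
  rw [← sum_add_distrib]
  refine sum_congr rfl fun S _ => ?_
  by_cases h : Disjoint S Y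
  · by_cases hy : y ∈ S
    · have h1 : ¬ Disjoint S (insert y Y) := fun h2 =>
        (disjoint_left.1 h2 hy) (mem_insert_self y Y)
      rw [if_neg h1, if_pos h, if_pos ⟨hy, h⟩, zero_add]
    · have h1 : Disjoint S (insert y Y) := by
        rw [disjoint_insert_right]
        exact ⟨hy, h⟩
      rw [if_pos h1, if_pos h, if_neg fun h2 => hy h2.1, zero_add]
  · have h1 : ¬ Disjoint S (insert y Y) := fun h2 => h (h2.mono_right (subset_insert y Y))
    rw [if_neg h1, if_neg h, if_neg fun h2 => h h2.2, add_zero]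

private theorem g_claim {v : Finset α → ℝ} (hv : ∀ S, 0 ≤ v S) (Fr : Finset α) :
    ∀ k : ℕ, k ≤ Fr.card → ∃ Y, Y ⊆ Fr ∧ Y.card = k ∧
      ∀ e ∈ Fr \ Y, (k : ℝ) * gT v Y e ≤ gH v Y := by
  intro k
  induction k with
  | zero =>
    intro _
    refine ⟨∅, empty_subset _, card_empty, fun e _ => ?_⟩
    rw [Nat.cast_zero, zero_mul]
    unfold gH
    refine sum_nonneg fun S _ => ?_
    split_ifs
    · exact le_refl _
    · exact hv S
  | succ k ih =>
    intro hk
    obtain ⟨Y, hY, hc, hb⟩ := ih (by omega)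
    have hne : (Fr \ Y).Nonempty := by
      rw [← card_pos, card_sdiff_of_subset hY]
      omega
    obtain ⟨y, hy, hmax⟩ := exists_max_image (Fr \ Y) (fun e => gT v Y e) hne
    have hy' := mem_sdiff.1 hy
    refine ⟨insert y Y, insert_subset hy'.1 hY, ?_, ?_⟩
    · rw [card_insert_of_notMem hy'.2, hc]
    · intro e he
      have he1 := mem_sdiff.1 he
      have he2 : e ∈ Fr \ Y := mem_sdiff.2 ⟨he1.1, fun h => he1.2 (mem_insert_of_mem h)⟩
      have h1 := gT_anti hv Y y e
      have h2 := hmax e he2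
      have h3 := hb e he2
      have hk0 : (0 : ℝ) ≤ (k : ℝ) := Nat.cast_nonneg k
      have h4 := mul_le_mul_of_nonneg_left h1 hk0
      rw [gH_insert]
      push_cast
      nlinarith

end greedyAux

theorem greedy_step {α : Type*} [DecidableEq α] [Fintype α] (board M B : Finset α) (b : ℕ) {m : ℕ}
    (hm : 1 ≤ m) (v : Finset α → ℝ) (hv : ∀ S, 0 ≤ v S) :
    ∃ Y, Legal board M B b Y ∧ ∀ X, Legal board M (B ∪ Y) m X →
      ∑ S : Finset α, (if Disjoint S Y then v S else 0) * (1 + (b : ℝ) / m * ((S ∩ X).card : ℝ)) ≤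
        ∑ S : Finset α, v S := by
  obtain ⟨Y, hY, hc, hb⟩ := g_claim hv (board \ (M ∪ B)) (min b (board \ (M ∪ B)).card)
    (min_le_right _ _)
  refine ⟨Y, ⟨hY, hc⟩, ?_⟩
  rintro X ⟨hX1, hX2⟩
  have hm0 : (0 : ℝ) < (m : ℝ) := by exact_mod_cast hm
  have hH0 : 0 ≤ gH v Y := by
    unfold gH
    refine sum_nonneg fun S _ => ?_
    split_ifs
    · exact le_refl _
    · exact hv S
  have hXF : X ⊆ (board \ (M ∪ B)) \ Y := by
    intro e he
    have h1 := mem_sdiff.1 (hX1 he)
    simp only [mem_union, not_or] at h1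
    simp only [mem_sdiff, mem_union, not_or]
    exact ⟨⟨h1.1, h1.2.1, h1.2.2.1⟩, h1.2.2.2⟩
  have hXm : (X.card : ℝ) ≤ m := by
    have : X.card ≤ m := by rw [hX2]; exact min_le_left _ _
    exact_mod_cast this
  -- the key bound
  have hkey : (b : ℝ) * ∑ e ∈ X, gT v Y e ≤ m * gH v Y := by
    by_cases hcase : b ≤ (board \ (M ∪ B)).card
    · rw [min_eq_left hcase] at hb
      rw [mul_sum]
      calc ∑ e ∈ X, (b : ℝ) * gT v Y e ≤ ∑ _e ∈ X, gH v Y :=
            sum_le_sum fun e he => hb e (hXF he)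
        _ = X.card * gH v Y := by rw [sum_const, nsmul_eq_mul]
        _ ≤ m * gH v Y := mul_le_mul_of_nonneg_right hXm hH0
    · rw [min_eq_right (by omega)] at hc
      have h1 : Y = board \ (M ∪ B) := eq_of_subset_of_card_le hY hc.ge
      have h2 : X = ∅ := by
        rw [← subset_empty]
        refine hXF.trans ?_
        rw [h1]
        intro e he
        exact absurd (mem_sdiff.1 he).1 (mem_sdiff.1 he).2
      rw [h2, sum_empty, mul_zero]
      positivity
  have hsplit : ∑ S : Finset α, (if Disjoint S Y then v S else 0) *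
      (1 + (b : ℝ) / m * ((S ∩ X).card : ℝ)) =
      ∑ S : Finset α, (if Disjoint S Y then v S else 0) + (b : ℝ) / m * ∑ e ∈ X, gT v Y e := by
    have h1 : ∑ e ∈ X, gT v Y e =
        ∑ S : Finset α, (if Disjoint S Y then v S else 0) * ((S ∩ X).card : ℝ) := by
      unfold gT
      rw [sum_comm]
      refine sum_congr rfl fun S _ => ?_
      by_cases hd : Disjoint S Y
      · rw [if_pos hd]
        have h2 : ∀ e, (if e ∈ S ∧ Disjoint S Y then v S else 0) = if e ∈ S then v S else 0 := by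
          intro e
          simp [hd]
        simp_rw [h2]
        rw [← sum_filter, sum_const, nsmul_eq_mul, mul_comm]
        congr 2
        congr 1
        ext e
        simp only [mem_filter, mem_inter]
        tauto
      · rw [if_neg hd, zero_mul]
        refine sum_eq_zero fun e _ => ?_
        rw [if_neg fun h => hd h.2]
    rw [h1, mul_sum, ← sum_add_distrib]
    refine sum_congr rfl fun S _ => ?_
    ring
  have hsum : ∑ S : Finset α, v S = ∑ S : Finset α, (if Disjoint S Y then v S else 0) + gH v Y := by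
    unfold gH
    rw [← sum_add_distrib]
    refine sum_congr rfl fun S _ => ?_
    split_ifs <;> simp
  rw [hsplit, hsum]
  have h1 : (b : ℝ) / m * ∑ e ∈ X, gT v Y e ≤ gH v Y := by
    rw [div_mul_eq_mul_div, div_le_iff₀ hm0]
    linarith
  linarith

end Pool.Agent.Helper5.CV
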