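import Mathlib
import Pool.Agent.Helper5.CV.DefsT
import Pool.Agent.Helper5.CV.CwL
import Pool.Agent.Helper5.CV.CwFull
import Pool.Agent.Helper5.CV.Buck
import Pool.Agent.Helper5.CV.ResD
import Pool.Agent.Helper5.CV.GoodCL

/-!
# MP_d32cb0_co, module T06: the cost of all pairs is almost the sum of the costs of the levels

`d = dat P ℬ Γ Z j0 nb`, `A = trim d K i0 B`, `A_l = old d (i0+K(l+1)) A`, `G_l = gp … (i0+K(l+1)) B A_l`.
PROOF.  (1) Every pair `e = s(x,y)` of different points of `A` which is not in `lost d K i0 B` lies in `wp d K (i0+K(l+1)) A_l` for some `l < tp`: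
`σ = bk x + bk y`, `i0 + K + 3 ≤ 2 j0 ≤ σ ≤ 2 nb ≤ i0 + K tp`.  Write `σ = i0 + K k + r`, `0 ≤ r < K`; `r ≠ 1, 2` (not lost; `K ≥ 3`).  If
`r ≥ 3`: `k ≥ 1`, `l + 1 = k`: `i + 3 ≤ σ ≤ i + K` with `i = i0 + K k`.  If `r = 0`: `k ≥ 2` (as `σ ≥ i0+K+3`), `l + 1 = k - 1`: `σ = i + K`.  `l < tp` since
`σ ≤ i0 + K tp` (`r ≥ 3`: `K k < σ - i0 ≤ K tp` so `k < tp` or so; `r = 0`: `k ≤ tp`, `l = k - 2`).
Both points are in `A_l`: `bk x = σ - bk y ≤ i + K - j0 ≤ i - 3` (`K + 3 ≤ j0`).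
(2) A pair of `wp … A_l` which is not in `G_l` is unclaimed: in `EI(ρ∪B) \ P.M` (at most `u` pairs as `ρ ∪ B ∈ AA P q u`), or bad in one order: in the image of
`badP` (at most `|badP|` pairs).  So `allP A ⊆ (∪_l G_l) ∪ lost ∪ (EI(ρ∪B) \ P.M) ∪ image badP`, i.e. `(allP A \ ∪ G_l).card ≤ |lost| + u + |badP|`.
(`badP ℬ (tn0 P) T B` is a set of ordered pairs of `B`.)
(3) `cw_le_sdiff` with `G = allP A`, `G' = ∪_l G_l ∩ allP A` (the `G_l` are subsets of `allP A`), then `cw_coarse`.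
-/

set_option autoImplicit false

namespace Pool.Agent.Helper5.CV

open Finset Pool.Agent.Helper25.CliqueGame
open Pool.Agent.Helper78.CG (EI)

private theorem ml_level {K i0 j0 nb tp bx bY : ℕ} (hK : 3 ≤ K) (hj0 : K + 3 ≤ j0)
    (hi0 : i0 + K + 3 ≤ 2 * j0) (htp : 2 * nb ≤ i0 + K * tp) (hx : j0 ≤ bx) (hy : j0 ≤ bY)
    (hx' : bx ≤ nb) (hy' : bY ≤ nb) (h1 : (bx + bY) % K ≠ (i0 + 1) % K)
    (h2 : (bx + bY) % K ≠ (i0 + 2) % K) :
    ∃ l < tp, (i0 + K * (l + 1)) + 3 ≤ bx + bY ∧ bx + bY ≤ (i0 + K * (l + 1)) + K ∧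
      bx + 3 ≤ i0 + K * (l + 1) ∧ bY + 3 ≤ i0 + K * (l + 1) := by
  have hK0 : 0 < K := by omega
  obtain ⟨τ, hτ⟩ : ∃ τ, bx + bY = i0 + 3 + τ := ⟨bx + bY - i0 - 3, by omega⟩
  have hdm := Nat.div_add_mod τ K
  have hr := Nat.mod_lt τ hK0
  have hk : 1 ≤ τ / K := (Nat.one_le_div_iff hK0).2 (by omega)
  obtain ⟨l, hl⟩ : ∃ l, τ / K = l + 1 := ⟨τ / K - 1, by omega⟩
  rw [hl] at hdm
  have hmod : ∀ c, (i0 + c + K * (l + 2)) % K = (i0 + c) % K := fun c =>
    Nat.add_mul_mod_self_left _ _ _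
  have hK2 : K * (l + 2) = K * (l + 1) + K := by ring
  have hle : bx + bY ≤ (i0 + K * (l + 1)) + K := by
    by_contra hcon
    push Not at hcon
    have h3 : τ % K = K - 2 ∨ τ % K = K - 1 := by omega
    rcases h3 with h3 | h3
    · apply h1
      rw [← hmod 1]
      congr 1
      omega
    · apply h2
      rw [← hmod 2]
      congr 1
      omega
  refine ⟨l, ?_, by omega, hle, by omega, by omega⟩
  have h4 : K * (l + 1) < K * tp := by omega
  have h5 := Nat.lt_of_mul_lt_mul_left h4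
  omega

theorem cw_allP_le {N m b q u K i0 j0 nb tp : ℕ} (hm : 1 ≤ m) {P : Pos (Sym2 (Fin N))}
    {ρ : Finset (Fin N)} {ℬ : Finset (Finset (Fin N))}
    (hB : ∀ B ∈ ℬ, Disjoint ρ B ∧ ρ ∪ B ∈ AA P q u) {Γ : ℝ} (hΓ : 0 < Γ)
    (Z : Finset (Fin N)) (hK : 3 ≤ K) (hj0 : K + 3 ≤ j0) (hi0 : i0 + K + 3 ≤ 2 * j0)
    (htp : 2 * nb ≤ i0 + K * tp) {B : Finset (Fin N)} (hBm : B ∈ ℬ) :
    cw m b (dat P ℬ Γ Z j0 nb).sm (trim (dat P ℬ Γ Z j0 nb) K i0 B)
        (allP (trim (dat P ℬ Γ Z j0 nb) K i0 B)) ≤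
      ∑ l ∈ range tp, cwl m b P ℬ (thr Γ j0) (dat P ℬ Γ Z j0 nb) K i0 l B +
        (((lost (dat P ℬ Γ Z j0 nb) K i0 B).card : ℝ) + u +
          (badP ℬ (tn0 P) (thr Γ j0) B).card) * lam m b 1 := by
  classical
  set d := dat P ℬ Γ Z j0 nb with hd
  set A := trim d K i0 B with hA
  have hj1 : 1 ≤ j0 := by omega
  have hAB : A ⊆ B := filter_subset _ _
  have hAbk : ∀ v ∈ A, j0 ≤ d.bk v ∧ d.bk v ≤ nb := by
    intro v hv
    have h1 : 1 ≤ d.bk v := (mem_filter.1 hv).2.1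
    obtain ⟨-, -, h2, h3, -, -, -⟩ := bkD_spec (ℬ := ℬ) (Γ := Γ) (Z := Z) (j0 := j0) (nb := nb)
      hΓ hj1 h1
    exact ⟨h2, h3⟩
  set Al : ℕ → Finset (Fin N) := fun l => old d (i0 + K * (l + 1)) A with hAl
  set Gl : ℕ → Finset (Sym2 (Fin N)) := fun l =>
    gp P ℬ (thr Γ j0) d K (i0 + K * (l + 1)) B (Al l) with hGl
  have hAlA : ∀ l, Al l ⊆ A := fun l => filter_subset _ _
  have hGw : ∀ l, Gl l ⊆ wp d K (i0 + K * (l + 1)) (Al l) := fun l => filter_subset _ _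
  have hGv : ∀ l, ∀ e ∈ Gl l, ∀ v ∈ e, v ∈ Al l := by
    intro l e he v hv
    have h1 := (mem_filter.1 (hGw l he)).1
    exact Finset.mem_sym2_iff.1 h1 v hv
  set U := (range tp).biUnion Gl with hU
  have hUA : U ⊆ allP A := by
    intro e he
    obtain ⟨l, -, hl⟩ := mem_biUnion.1 he
    unfold allP
    rw [mem_filter]
    refine ⟨Finset.mem_sym2_iff.2 fun v hv => hAlA l (hGv l e hl v hv), ?_⟩
    exact (mem_filter.1 (hGw l hl)).2.1
  have hcoarse := cw_coarse (b := b) hm d.sm A (range tp) Al Gl (fun l _ => hAlA l)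
    (fun l _ => hGv l)
  have hsd := cw_le_sdiff (b := b) hm d.sm A hUA
  have hcount : ((allP A \ U).card : ℝ) ≤ ((lost d K i0 B).card : ℝ) + u +
      (badP ℬ (tn0 P) (thr Γ j0) B).card := by
    have hu : (EI (ρ ∪ B) \ P.M).card = u := by
      have h1 := (hB B hBm).2
      unfold AA at h1
      exact (mem_filter.1 h1).2.2.2
    have hsub : allP A \ U ⊆ (lost d K i0 B ∪ (EI (ρ ∪ B) \ P.M)) ∪
        (badP ℬ (tn0 P) (thr Γ j0) B).image (fun p => s(p.1, p.2)) := by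
      intro e he
      rw [mem_sdiff] at he
      obtain ⟨heA, heU⟩ := he
      unfold allP at heA
      rw [mem_filter] at heA
      obtain ⟨heA, hed⟩ := heA
      induction e using Sym2.inductionOn with
      | hf x y =>
      rw [mk_mem_sym2_iff] at heA
      obtain ⟨hx, hy⟩ := heA
      have hxy : x ≠ y := fun h => hed (Sym2.mk_isDiag_iff.2 h)
      rw [mem_union, mem_union]
      by_cases hlost : s(x, y) ∈ lost d K i0 B
      · exact Or.inl (Or.inl hlost)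
      have hnl : ¬ ((d.bk x + d.bk y) % K = (i0 + 1) % K ∨
          (d.bk x + d.bk y) % K = (i0 + 2) % K) := by
        intro h
        apply hlost
        unfold lost
        rw [mem_filter, mk_mem_sym2_iff, bks_mk]
        exact ⟨⟨hAB hx, hAB hy⟩, hed, h⟩
      rw [not_or] at hnl
      obtain ⟨l, hl, h1, h2, h3, h4⟩ := ml_level hK hj0 hi0 htp (hAbk x hx).1 (hAbk y hy).1
        (hAbk x hx).2 (hAbk y hy).2 hnl.1 hnl.2
      have hwp : s(x, y) ∈ wp d K (i0 + K * (l + 1)) (Al l) := by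
        unfold wp
        rw [mem_filter, mk_mem_sym2_iff, bks_mk]
        refine ⟨⟨?_, ?_⟩, hed, h1, h2⟩
        · exact mem_filter.2 ⟨hx, (mem_filter.1 hx).2.1, h3⟩
        · exact mem_filter.2 ⟨hy, (mem_filter.1 hy).2.1, h4⟩
      have hnG : s(x, y) ∉ Gl l := fun h => heU (mem_biUnion.2 ⟨l, mem_range.2 hl, h⟩)
      by_cases hM : s(x, y) ∈ P.M
      · right
        have h5 : ¬ ∀ x' y', s(x, y) = s(x', y') → ¬ Bad ℬ (tn0 P) (thr Γ j0) B x' y' := by
          intro h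
          exact hnG (mem_filter.2 ⟨hwp, hM, h⟩)
        push Not at h5
        obtain ⟨x', y', h6, h7⟩ := h5
        rw [mem_image]
        refine ⟨(x', y'), ?_, h6.symm⟩
        unfold badP
        rw [mem_filter, mem_offDiag]
        refine ⟨?_, h7⟩
        rcases Sym2.eq_iff.1 h6 with ⟨rfl, rfl⟩ | ⟨rfl, rfl⟩
        · exact ⟨hAB hx, hAB hy, hxy⟩
        · exact ⟨hAB hy, hAB hx, hxy.symm⟩
      · left
        right
        rw [mem_sdiff]
        refine ⟨?_, hM⟩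
        unfold EI
        rw [mem_filter, mem_edges]
        refine ⟨hxy, fun z hz => ?_⟩
        rcases Sym2.mem_iff.1 hz with rfl | rfl
        · exact mem_union_right _ (hAB hx)
        · exact mem_union_right _ (hAB hy)
    have hcard := card_le_card hsub
    have h1 := (hcard.trans (card_union_le _ _)).trans
      (add_le_add (card_union_le _ _) card_image_le)
    rw [hu] at h1
    exact_mod_cast h1
  have hlam := lam_nonneg m b 1
  have hmul := mul_le_mul_of_nonneg_right hcount hlam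
  calc cw m b d.sm A (allP A) ≤ cw m b d.sm A U + ((allP A \ U).card : ℝ) * lam m b 1 := hsd
    _ ≤ _ := add_le_add hcoarse hmul

end Pool.Agent.Helper5.CV
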