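import Mathlib
import Pool.Agent.Helper5.CV.DefsN

/-!
# MP_d32cb0_co, module N0: limits

`q N = ⌈a log N⌉₊`, `a > 0`.  All limits are for `N → ∞` (`Filter.atTop` on `ℕ`), `log N → ∞`.
`tendsto_q`: `a log N ≤ q < a log N + 1`.  `tendsto_logq`: `log(q+1) ≤ log(a log N + 2)`, `log x / x → 0`
(`Real.isLittleO_log_id_atTop`).  `tendsto_qexp`: `q^k e^{-c log N} ≤ (a x + 1)^k e^{-c x}`, `x = log N → ∞`
(`Real.tendsto_pow_mul_exp_neg_atTop_nhds_zero`).  `tendsto_log1`: `log(N+1)/log N → 1`.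
-/

set_option autoImplicit false

namespace Pool.Agent.Helper5.CV

open Finset

private theorem tlogN : Filter.Tendsto (fun N : ℕ => Real.log N) Filter.atTop
    Filter.atTop := Real.tendsto_log_atTop.comp tendsto_natCast_atTop_atTop

theorem tendsto_q {a : ℝ} (ha : 0 < a) :
    Filter.Tendsto (fun N : ℕ => (⌈a * Real.log N⌉₊ : ℝ) / Real.log N) Filter.atTop
      (nhds a) :=
  (tendsto_nat_ceil_mul_div_atTop ha.le).comp tlogN

theorem tendsto_q_atTop {a : ℝ} (ha : 0 < a) :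
    Filter.Tendsto (fun N : ℕ => ⌈a * Real.log N⌉₊) Filter.atTop Filter.atTop :=
  tendsto_nat_ceil_atTop.comp (tlogN.const_mul_atTop ha)

private theorem tqR {a : ℝ} (ha : 0 < a) :
    Filter.Tendsto (fun N : ℕ => (⌈a * Real.log N⌉₊ : ℝ)) Filter.atTop Filter.atTop :=
  tendsto_natCast_atTop_atTop.comp (tendsto_q_atTop ha)

private theorem tinv : Filter.Tendsto (fun N : ℕ => 1 / Real.log N) Filter.atTop (nhds 0) := by
  simp only [one_div]
  exact tendsto_inv_atTop_zero.comp tlogN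

private theorem evpos : ∀ᶠ N : ℕ in Filter.atTop, 0 < Real.log N :=
  tlogN.eventually_gt_atTop 0

theorem tendsto_logq {a : ℝ} (ha : 0 < a) :
    Filter.Tendsto (fun N : ℕ => Real.log ((⌈a * Real.log N⌉₊ : ℝ) + 1) / Real.log N)
      Filter.atTop (nhds 0) := by
  have h1 : Filter.Tendsto (fun y : ℝ => Real.log y / id y) Filter.atTop (nhds 0) :=
    Real.isLittleO_log_id_atTop.tendsto_div_nhds_zero
  have h2 : Filter.Tendsto (fun N : ℕ => (⌈a * Real.log N⌉₊ : ℝ) + 1) Filter.atTop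
      Filter.atTop := Filter.tendsto_atTop_add_const_right _ 1 (tqR ha)
  have h3 := h1.comp h2
  have h4 : Filter.Tendsto (fun N : ℕ => (⌈a * Real.log N⌉₊ : ℝ) / Real.log N +
      1 / Real.log N) Filter.atTop (nhds (a + 0)) := (tendsto_q ha).add tinv
  have h5 := h3.mul h4
  rw [zero_mul] at h5
  refine h5.congr fun N => ?_
  have h6 : (0 : ℝ) < (⌈a * Real.log N⌉₊ : ℝ) + 1 := by positivity
  show Real.log ((⌈a * Real.log N⌉₊ : ℝ) + 1) / ((⌈a * Real.log N⌉₊ : ℝ) + 1) *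
    ((⌈a * Real.log N⌉₊ : ℝ) / Real.log N + 1 / Real.log N) = _
  rw [← add_div, div_mul_div_comm, mul_comm ((⌈a * Real.log N⌉₊ : ℝ) + 1) (Real.log N),
    mul_div_mul_right _ _ h6.ne']

private theorem tpowexp {c : ℝ} (hc : 0 < c) (n : ℕ) :
    Filter.Tendsto (fun N : ℕ => Real.log N ^ n * Real.exp (-(c * Real.log N))) Filter.atTop
      (nhds 0) := by
  have h1 := (Real.tendsto_pow_mul_exp_neg_atTop_nhds_zero n).comp (tlogN.const_mul_atTop hc)
  have h2 := h1.const_mul ((c ^ n)⁻¹)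
  rw [mul_zero] at h2
  refine h2.congr fun N => ?_
  show (c ^ n)⁻¹ * ((c * Real.log N) ^ n * Real.exp (-(c * Real.log N))) = _
  rw [mul_pow, ← mul_assoc, ← mul_assoc, inv_mul_cancel₀ (pow_ne_zero n hc.ne'), one_mul]

theorem tendsto_qexp {a c : ℝ} (ha : 0 < a) (hc : 0 < c) (k j : ℕ) :
    Filter.Tendsto (fun N : ℕ => (⌈a * Real.log N⌉₊ : ℝ) ^ k * Real.log N ^ j *
      Real.exp (-(c * Real.log N))) Filter.atTop (nhds 0) := by
  have h1 := ((tendsto_q ha).pow k).mul (tpowexp hc (k + j))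
  rw [mul_zero] at h1
  refine h1.congr' ?_
  filter_upwards [evpos] with N hN
  rw [div_pow, pow_add]
  have h2 : Real.log N ^ k ≠ 0 := pow_ne_zero k hN.ne'
  field_simp

theorem tendsto_log1 :
    Filter.Tendsto (fun N : ℕ => Real.log ((N : ℝ) + 1) / Real.log N) Filter.atTop
      (nhds 1) := by
  have h1 : Filter.Tendsto (fun N : ℕ => (1 : ℝ) + 1 / (N : ℝ)) Filter.atTop (nhds (1 + 0)) :=
    tendsto_const_nhds.add tendsto_one_div_atTop_nhds_zero_nat
  rw [add_zero] at h1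
  have h2 : Filter.Tendsto (fun N : ℕ => Real.log ((1 : ℝ) + 1 / (N : ℝ))) Filter.atTop
      (nhds (Real.log 1)) := ((Real.continuousAt_log one_ne_zero).tendsto).comp h1
  rw [Real.log_one] at h2
  have h3 : Filter.Tendsto (fun N : ℕ => (1 : ℝ) + Real.log ((1 : ℝ) + 1 / (N : ℝ)) *
      (1 / Real.log N)) Filter.atTop (nhds (1 + 0 * 0)) :=
    tendsto_const_nhds.add (h2.mul tinv)
  rw [mul_zero, add_zero] at h3
  refine h3.congr' ?_
  filter_upwards [evpos, Filter.eventually_ge_atTop 1] with N hN hN1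
  have hN0 : (0 : ℝ) < N := by exact_mod_cast hN1
  have h4 : (N : ℝ) + 1 = N * (1 + 1 / (N : ℝ)) := by
    field_simp
  rw [h4, Real.log_mul hN0.ne' (by positivity), add_div, div_self hN.ne', mul_one_div]

theorem tendsto_logN : Filter.Tendsto (fun N : ℕ => Real.log N) Filter.atTop
    Filter.atTop := tlogN

/-- `K_0 / q → 1/(100 K^5)`. -/
theorem tendsto_K0 {a : ℝ} (ha : 0 < a) {K : ℕ} (hK : 1 ≤ K) :
    Filter.Tendsto (fun N : ℕ => (K0q K ⌈a * Real.log N⌉₊ : ℝ) / Real.log N) Filter.atTop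
      (nhds (a / (100 * (K : ℝ) ^ 5))) := by
  have hM : 0 < 100 * K ^ 5 := by positivity
  have hMR : (0 : ℝ) < 100 * (K : ℝ) ^ 5 := by exact_mod_cast hM
  have h1 : Filter.Tendsto (fun N : ℕ => (⌈a * Real.log N⌉₊ : ℝ) / Real.log N /
      (100 * (K : ℝ) ^ 5)) Filter.atTop (nhds (a / (100 * (K : ℝ) ^ 5))) :=
    (tendsto_q ha).div_const _
  have h2 : Filter.Tendsto (fun N : ℕ => (⌈a * Real.log N⌉₊ : ℝ) / Real.log N /
      (100 * (K : ℝ) ^ 5) - 1 / Real.log N) Filter.atTop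
      (nhds (a / (100 * (K : ℝ) ^ 5) - 0)) := h1.sub tinv
  rw [sub_zero] at h2
  refine tendsto_of_tendsto_of_tendsto_of_le_of_le' h2 h1 ?_ ?_
  · filter_upwards [evpos] with N hN
    have h3 : (⌈a * Real.log N⌉₊ : ℝ) < 100 * (K : ℝ) ^ 5 *
        ((K0q K ⌈a * Real.log N⌉₊ : ℝ) + 1) := by
      have h4 := Nat.lt_mul_div_succ ⌈a * Real.log N⌉₊ hM
      unfold K0q
      exact_mod_cast h4
    have h5 : (⌈a * Real.log N⌉₊ : ℝ) / (100 * (K : ℝ) ^ 5) - 1 ≤
        (K0q K ⌈a * Real.log N⌉₊ : ℝ) := by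
      rw [sub_le_iff_le_add, div_le_iff₀ hMR]
      linarith
    calc (⌈a * Real.log N⌉₊ : ℝ) / Real.log N / (100 * (K : ℝ) ^ 5) - 1 / Real.log N
        = ((⌈a * Real.log N⌉₊ : ℝ) / (100 * (K : ℝ) ^ 5) - 1) / Real.log N := by
          rw [sub_div, div_right_comm]
      _ ≤ _ := div_le_div_of_nonneg_right h5 hN.le
  · filter_upwards [evpos] with N hN
    have h3 : (K0q K ⌈a * Real.log N⌉₊ : ℝ) ≤
        (⌈a * Real.log N⌉₊ : ℝ) / (100 * (K : ℝ) ^ 5) := by
      unfold K0q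
      have h4 := Nat.cast_div_le (α := ℝ) (m := ⌈a * Real.log N⌉₊) (n := 100 * K ^ 5)
      push_cast at h4
      exact h4
    calc (K0q K ⌈a * Real.log N⌉₊ : ℝ) / Real.log N
        ≤ (⌈a * Real.log N⌉₊ : ℝ) / (100 * (K : ℝ) ^ 5) / Real.log N :=
          div_le_div_of_nonneg_right h3 hN.le
      _ = _ := div_right_comm _ _ _

/-- `u_0 / log² N → a²/K²`. -/
theorem tendsto_u0 {a : ℝ} (ha : 0 < a) {K : ℕ} (hK : 1 ≤ K) :
    Filter.Tendsto (fun N : ℕ => (u0q K ⌈a * Real.log N⌉₊ : ℝ) / Real.log N ^ 2)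
      Filter.atTop (nhds (a ^ 2 / (K : ℝ) ^ 2)) := by
  have hKR : (0 : ℝ) < (K : ℝ) ^ 2 := by
    have : (0 : ℝ) < K := by exact_mod_cast hK
    positivity
  have h1 : Filter.Tendsto (fun N : ℕ => ((⌈a * Real.log N⌉₊ : ℝ) / Real.log N) ^ 2 /
      (K : ℝ) ^ 2) Filter.atTop (nhds (a ^ 2 / (K : ℝ) ^ 2)) :=
    ((tendsto_q ha).pow 2).div_const _
  have h2 : Filter.Tendsto (fun N : ℕ => ((⌈a * Real.log N⌉₊ : ℝ) / Real.log N) ^ 2 /
      (K : ℝ) ^ 2 + (1 / Real.log N) ^ 2) Filter.atTop (nhds (a ^ 2 / (K : ℝ) ^ 2 + 0 ^ 2)) :=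
    h1.add (tinv.pow 2)
  rw [zero_pow two_ne_zero, add_zero] at h2
  refine tendsto_of_tendsto_of_tendsto_of_le_of_le' h1 h2 ?_ ?_
  · filter_upwards [evpos] with N hN
    have h3 : (⌈a * Real.log N⌉₊ : ℝ) ^ 2 / (K : ℝ) ^ 2 ≤
        (u0q K ⌈a * Real.log N⌉₊ : ℝ) := Nat.le_ceil _
    calc ((⌈a * Real.log N⌉₊ : ℝ) / Real.log N) ^ 2 / (K : ℝ) ^ 2
        = (⌈a * Real.log N⌉₊ : ℝ) ^ 2 / (K : ℝ) ^ 2 / Real.log N ^ 2 := by
          rw [div_pow, div_right_comm]
      _ ≤ _ := div_le_div_of_nonneg_right h3 (by positivity)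
  · filter_upwards [evpos] with N hN
    have h3 : (u0q K ⌈a * Real.log N⌉₊ : ℝ) ≤
        (⌈a * Real.log N⌉₊ : ℝ) ^ 2 / (K : ℝ) ^ 2 + 1 :=
      (Nat.ceil_lt_add_one (by positivity)).le
    calc (u0q K ⌈a * Real.log N⌉₊ : ℝ) / Real.log N ^ 2
        ≤ ((⌈a * Real.log N⌉₊ : ℝ) ^ 2 / (K : ℝ) ^ 2 + 1) / Real.log N ^ 2 :=
          div_le_div_of_nonneg_right h3 (by positivity)
      _ = _ := by rw [add_div, div_pow, div_pow, one_pow, div_right_comm]

/-- `log(q/p2 + 1)/log N → (K+4) γ`. -/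
theorem tendsto_p2 {a : ℝ} (ha : 0 < a) {K : ℕ} (hK : 1 ≤ K) :
    Filter.Tendsto (fun N : ℕ =>
      Real.log ((⌈a * Real.log N⌉₊ : ℝ) / p2N K N + 1) / Real.log N)
      Filter.atTop (nhds (((K : ℝ) + 4) * gamK K)) := by
  have hKR : (0 : ℝ) < K := by exact_mod_cast hK
  have hg : 0 < gamK K := by
    unfold gamK
    positivity
  set c : ℝ := ((K : ℝ) + 4) * gamK K with hc
  have hc0 : 0 < c := by positivity
  have hp2 : ∀ N : ℕ, p2N K N = Real.exp (-(c * Real.log N)) := by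
    intro N
    unfold p2N thr GamN
    show Real.exp (-((((K + 5 : ℕ) : ℝ) - 1) * (gamK K * Real.log N))) = _
    congr 2
    rw [hc]
    push_cast
    ring
  -- the rest
  have h1 : Filter.Tendsto (fun N : ℕ => Real.log ((⌈a * Real.log N⌉₊ : ℝ) +
      Real.exp (-(c * Real.log N))) / Real.log N) Filter.atTop (nhds 0) := by
    refine tendsto_of_tendsto_of_tendsto_of_le_of_le' tendsto_const_nhds (tendsto_logq ha) ?_ ?_
    · filter_upwards [evpos] with N hN
      have h2 : (1 : ℝ) ≤ ⌈a * Real.log N⌉₊ := by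
        exact_mod_cast Nat.one_le_ceil_iff.2 (mul_pos ha hN)
      apply div_nonneg _ hN.le
      apply Real.log_nonneg
      have := Real.exp_pos (-(c * Real.log N))
      linarith
    · filter_upwards [evpos] with N hN
      apply div_le_div_of_nonneg_right _ hN.le
      apply Real.log_le_log
      · have := Real.exp_pos (-(c * Real.log N))
        positivity
      · have h2 : Real.exp (-(c * Real.log N)) ≤ 1 := by
          rw [← Real.exp_zero]
          apply Real.exp_le_exp.2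
          have : 0 ≤ c * Real.log N := by positivity
          linarith
        linarith
  have h2 : Filter.Tendsto (fun N : ℕ => c + Real.log ((⌈a * Real.log N⌉₊ : ℝ) +
      Real.exp (-(c * Real.log N))) / Real.log N) Filter.atTop (nhds (c + 0)) :=
    tendsto_const_nhds.add h1
  rw [add_zero] at h2
  refine h2.congr' ?_
  filter_upwards [evpos] with N hN
  have h3 : (⌈a * Real.log N⌉₊ : ℝ) / p2N K N + 1 = Real.exp (c * Real.log N) *
      ((⌈a * Real.log N⌉₊ : ℝ) + Real.exp (-(c * Real.log N))) := by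
    rw [hp2, mul_add, ← Real.exp_add, add_neg_cancel, Real.exp_zero, Real.exp_neg, div_inv_eq_mul,
      mul_comm]
  have h4 : (0 : ℝ) < (⌈a * Real.log N⌉₊ : ℝ) + Real.exp (-(c * Real.log N)) := by
    have := Real.exp_pos (-(c * Real.log N))
    positivity
  rw [h3, Real.log_mul (Real.exp_pos _).ne' h4.ne', Real.log_exp, add_div,
    mul_div_cancel_right₀ _ hN.ne']

end Pool.Agent.Helper5.CV
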