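import Mathlib
import Pool.Agent.Helper5.CV.DefsN
import Pool.Agent.Helper5.CV.NumBase

/-!
# MP_d32cb0_co, module N1: the conditions which hold for every `K ≥ 4` when `N` is large

`q = ⌈a log N⌉`.  PROOFS (with `NumBase`): `q → ∞`, so `q / (100 K^5) ≥ 1`, `u0q ≥ 1`, `u0q + m ≤ q(q-1)/2` (`u0q ≤ q²/16 + 1`), `st2`: `q log N ~ a (log N)² < q³`;
`p2N = e^{-(K+4)Γ}`, `Γ = γ log N`, so `q^k p2N → 0` (`dis`, `qp2`); `col`: `nPr = ((q+1)(cm+1))^tp`, `cm ≤ q² Λ_1 + 1` is a polynomial in `q`, and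
`e^{-7Γ/16}` beats it; the right side `epsK K * gamK K > 0` is constant.
-/

set_option autoImplicit false

namespace Pool.Agent.Helper5.CV

open Finset Pool.Agent.Helper25.CliqueGame
open Pool.Agent.Helper78.CG (EI)

private theorem gpos {K : ℕ} (hK : 4 ≤ K) : 0 < gamK K := by
  have hKR : (0 : ℝ) < K := by exact_mod_cast (by omega : 0 < K)
  unfold gamK
  positivity

private theorem p2eq (K N : ℕ) :
    p2N K N = Real.exp (-((((K : ℝ) + 4) * gamK K) * Real.log N)) := by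
  unfold p2N thr GamN
  show Real.exp (-((((K + 5 : ℕ) : ℝ) - 1) * (gamK K * Real.log N))) = _
  congr 2
  push_cast
  ring

theorem numA {m b K : ℕ} (hm : 1 ≤ m) (hb : 1 ≤ b) (hK : 4 ≤ K) {a : ℝ} (ha : 0 < a) :
    ∀ᶠ N : ℕ in Filter.atTop, 2 ≤ N ∧ nbK K + 1 ≤ N ∧ 1 ≤ ⌈a * Real.log N⌉₊ ∧
      0 < GamN K N ∧ 1 ≤ K0q K ⌈a * Real.log N⌉₊ ∧ 1 ≤ u0q K ⌈a * Real.log N⌉₊ ∧
      u0q K ⌈a * Real.log N⌉₊ + m ≤ (⌈a * Real.log N⌉₊).choose 2 ∧
      (((K ^ 3 : ℕ) : ℝ)) ^ 2 * (p2N K N * ((⌈a * Real.log N⌉₊ : ℝ) + 1) *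
        ⌈a * Real.log N⌉₊) ≤ 1 / 2 ∧
      (⌈a * Real.log N⌉₊ : ℝ) ^ 3 * p2N K N ≤ 1 := by
  have hK0 : 0 < K := by omega
  have hKR : (4 : ℝ) ≤ K := by exact_mod_cast hK
  have hg := gpos hK
  have hc : 0 < ((K : ℝ) + 4) * gamK K := by positivity
  have hx2 := tendsto_qexp ha hc 2 0
  have hx3 := tendsto_qexp ha hc 3 0
  have hk : 0 < (((K ^ 3 : ℕ) : ℝ)) ^ 2 := by
    have : (0 : ℝ) < K := by linarith
    push_cast
    positivity
  have he2 : (0 : ℝ) < 1 / (4 * (((K ^ 3 : ℕ) : ℝ)) ^ 2) := by positivity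
  filter_upwards [Filter.eventually_ge_atTop 2, Filter.eventually_ge_atTop (nbK K + 1),
    tendsto_logN.eventually_gt_atTop 0,
    (tendsto_q_atTop ha).eventually_ge_atTop (100 * K ^ 5 + m + 4),
    hx2.eventually_le_const he2, hx3.eventually_le_const one_pos] with N h1 h2 h3 h4 h5 h6
  rw [pow_zero, mul_one, ← p2eq] at h5 h6
  set q := ⌈a * Real.log N⌉₊ with hq
  have hq1 : 1 ≤ q := by omega
  have hqR : (1 : ℝ) ≤ q := by exact_mod_cast hq1
  refine ⟨h1, h2, hq1, ?_, ?_, ?_, ?_, ?_, h6⟩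
  · unfold GamN
    positivity
  · unfold K0q
    exact (Nat.one_le_div_iff (by positivity)).2 (by omega)
  · unfold u0q
    rw [Nat.one_le_ceil_iff]
    have : (0 : ℝ) < K := by linarith
    positivity
  · have h7 : (u0q K q : ℝ) ≤ (q : ℝ) ^ 2 / 16 + 1 := by
      unfold u0q
      refine (Nat.ceil_lt_add_one (by positivity)).le.trans ?_
      have : (q : ℝ) ^ 2 / (K : ℝ) ^ 2 ≤ (q : ℝ) ^ 2 / 16 := by
        apply div_le_div_of_nonneg_left (by positivity) (by norm_num)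
        nlinarith
      linarith
    have h8 : (m : ℝ) + 4 ≤ q := by
      have : m + 4 ≤ q := by omega
      exact_mod_cast this
    have hmR : (0 : ℝ) ≤ m := Nat.cast_nonneg m
    have h9 : ((u0q K q + m : ℕ) : ℝ) ≤ ((q.choose 2 : ℕ) : ℝ) := by
      rw [Nat.cast_choose_two, Nat.cast_add]
      nlinarith
    exact_mod_cast h9
  · have hp : 0 < p2N K N := by
      rw [p2eq]
      exact Real.exp_pos _
    have h7 : p2N K N * ((q : ℝ) + 1) * q ≤ 2 * ((q : ℝ) ^ 2 * p2N K N) := by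
      have : ((q : ℝ) + 1) * q ≤ 2 * (q : ℝ) ^ 2 := by nlinarith
      nlinarith
    calc (((K ^ 3 : ℕ) : ℝ)) ^ 2 * (p2N K N * ((q : ℝ) + 1) * q)
        ≤ (((K ^ 3 : ℕ) : ℝ)) ^ 2 * (2 * (1 / (4 * (((K ^ 3 : ℕ) : ℝ)) ^ 2))) := by
          apply mul_le_mul_of_nonneg_left _ hk.le
          linarith
      _ = 1 / 2 := by
          field_simp
          norm_num

theorem numA2 {m b K : ℕ} (hm : 1 ≤ m) (hb : 1 ≤ b) (hK : 4 ≤ K) {a : ℝ} (ha : 0 < a) :
    ∀ᶠ N : ℕ in Filter.atTop,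
      (⌈a * Real.log N⌉₊ : ℝ) * Real.log N + Real.log (CC b) +
        Real.log ((⌈a * Real.log N⌉₊ : ℝ) + 1) + Real.log (N + 1) ≤
        (⌈a * Real.log N⌉₊ : ℝ) ^ 3 ∧
      2 ^ (tpK K + 1) * m * (2 * nPr m b K ⌈a * Real.log N⌉₊) *
        Real.exp (-(7 * GamN K N / 16)) ≤ epsK K * gamK K := by
  have hg := gpos hK
  set t := tpK K with ht
  set lm := lam m b 1 with hlm
  have hlm0 : 0 ≤ lm := by
    rw [hlm]
    unfold lam
    apply Real.log_nonneg
    have : 0 ≤ (b : ℝ) * ((1 : ℕ) : ℝ) / m := by positivity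
    linarith
  set C : ℝ := |Real.log (CC b)| with hC
  have hC0 : 0 ≤ C := abs_nonneg _
  have hc : 0 < 7 * gamK K / 16 := by positivity
  have hx := tendsto_qexp ha hc (3 * t) 0
  have heps : 0 < epsK K * gamK K := by
    unfold epsK
    positivity
  set B : ℝ := 2 ^ (t + 1) * m * (2 * (2 * (lm + 2)) ^ t) with hB
  have hmR : (0 : ℝ) < m := by exact_mod_cast hm
  have hB0 : 0 < B := by positivity
  filter_upwards [Filter.eventually_ge_atTop 1, tendsto_logN.eventually_gt_atTop 0,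
    (tendsto_q_atTop ha).eventually_ge_atTop (⌈2 / a + C + 4⌉₊ + 1),
    hx.eventually_le_const (div_pos heps hB0)] with N h1 h2 h3 h4
  set q := ⌈a * Real.log N⌉₊ with hq
  have hq1 : 1 ≤ q := by omega
  have hqR : (1 : ℝ) ≤ q := by exact_mod_cast hq1
  have hqb : 2 / a + C + 4 ≤ (q : ℝ) := by
    have h5 : ⌈2 / a + C + 4⌉₊ ≤ q := by omega
    exact (Nat.le_ceil _).trans (by exact_mod_cast h5)
  have hN0 : (0 : ℝ) < N := by exact_mod_cast h1
  have hN1 : (1 : ℝ) ≤ N := by exact_mod_cast h1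
  constructor
  · have h5 : a * Real.log N ≤ q := Nat.le_ceil _
    have h6 : Real.log N ≤ q / a := by
      rw [le_div_iff₀ ha, mul_comm]
      exact h5
    have h7 : Real.log ((q : ℝ) + 1) ≤ q := by
      have := Real.log_le_sub_one_of_pos (by positivity : (0 : ℝ) < (q : ℝ) + 1)
      linarith
    have h8 : Real.log ((N : ℝ) + 1) ≤ Real.log N + 1 := by
      have e1 : Real.log ((N : ℝ) + 1) ≤ Real.log (2 * N) := by
        apply Real.log_le_log (by positivity)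
        linarith
      rw [Real.log_mul two_ne_zero hN0.ne'] at e1
      have e2 := Real.log_le_sub_one_of_pos (by norm_num : (0 : ℝ) < 2)
      linarith
    have h9 : Real.log (CC b) ≤ C := le_abs_self _
    have hqq : (q : ℝ) ≤ (q : ℝ) ^ 2 := by nlinarith
    have h10 : (q : ℝ) * Real.log N ≤ (q : ℝ) ^ 2 * (1 / a) := by
      calc (q : ℝ) * Real.log N ≤ q * (q / a) := mul_le_mul_of_nonneg_left h6 (by positivity)
        _ = _ := by ring
    have ha1 : 0 < 1 / a := by positivity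
    have h11 : (q : ℝ) / a ≤ (q : ℝ) ^ 2 * (1 / a) := by
      rw [div_eq_mul_one_div]
      exact mul_le_mul_of_nonneg_right hqq ha1.le
    have h12 : C ≤ (q : ℝ) ^ 2 * C := by nlinarith
    have h13 : (q : ℝ) ^ 2 * (2 / a + C + 4) ≤ (q : ℝ) ^ 2 * q :=
      mul_le_mul_of_nonneg_left hqb (by positivity)
    have h14 : (q : ℝ) ^ 2 * (2 / a + C + 4) = (q : ℝ) ^ 2 * (1 / a) + (q : ℝ) ^ 2 * (1 / a) +
        (q : ℝ) ^ 2 * C + 4 * (q : ℝ) ^ 2 := by ring
    have h15 : (q : ℝ) ^ 2 * q = (q : ℝ) ^ 3 := by ring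
    nlinarith
  · rw [pow_zero, mul_one] at h4
    have h5 : nPr m b K q ≤ (2 * (lm + 2)) ^ t * (q : ℝ) ^ (3 * t) := by
      unfold nPr
      have e1 : (Fintype.card (Prof q (cmq m b q) t) : ℝ) =
          (((q : ℝ) + 1) * ((cmq m b q : ℝ) + 1)) ^ t := by
        rw [Fintype.card_fun, Fintype.card_prod, Fintype.card_fin, Fintype.card_fin,
          Fintype.card_fin]
        push_cast
        ring
      rw [← ht, e1, pow_mul, ← mul_pow]
      apply pow_le_pow_left₀ (by positivity)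
      have e2 : (cmq m b q : ℝ) ≤ (q : ℝ) ^ 2 * lm + 1 := by
        unfold cmq
        exact (Nat.ceil_lt_add_one (by positivity)).le
      have e3 : (1 : ℝ) ≤ (q : ℝ) ^ 2 := by nlinarith
      have e4 : (cmq m b q : ℝ) + 1 ≤ (q : ℝ) ^ 2 * (lm + 2) := by nlinarith
      calc ((q : ℝ) + 1) * ((cmq m b q : ℝ) + 1) ≤ (2 * q) * ((q : ℝ) ^ 2 * (lm + 2)) := by
            apply mul_le_mul _ e4 (by positivity) (by positivity)
            linarith
        _ = _ := by ring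
    have h6 : Real.exp (-(7 * GamN K N / 16)) = Real.exp (-(7 * gamK K / 16 * Real.log N)) := by
      unfold GamN
      congr 1
      ring
    rw [h6]
    calc 2 ^ (t + 1) * m * (2 * nPr m b K q) * Real.exp (-(7 * gamK K / 16 * Real.log N))
        ≤ 2 ^ (t + 1) * m * (2 * ((2 * (lm + 2)) ^ t * (q : ℝ) ^ (3 * t))) *
          Real.exp (-(7 * gamK K / 16 * Real.log N)) := by
          apply mul_le_mul_of_nonneg_right _ (Real.exp_pos _).le
          apply mul_le_mul_of_nonneg_left _ (by positivity)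
          linarith
      _ = B * ((q : ℝ) ^ (3 * t) * Real.exp (-(7 * gamK K / 16 * Real.log N))) := by
          rw [hB]
          ring
      _ ≤ B * (epsK K * gamK K / B) := mul_le_mul_of_nonneg_left h4 hB0.le
      _ = epsK K * gamK K := by
          field_simp

end Pool.Agent.Helper5.CV
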