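import Mathlib
import Pool.Agent.Helper5.CV.DefsN
import Pool.Agent.Helper5.CV.NumBase
import Pool.Agent.Helper5.CV.Kap

/-!
# MP_d32cb0_co, module N2: the conditions of order `log² N` for the root

`q = ⌈a x⌉`, `x = log N`, `μ a ≥ 1`; divide by `x²`; limits by `NumBase` (`log(CC (q²+1) N²)/x² → 0` as it is `≤ const + 3 log(q+1) + 2x`).
* `big`: left `→ a/K⁴ + 2a/(100K⁵)`, right `→ μ a²/K² ≥ a/K²`; strict for `K ≥ 4`.
* `loss`: left `→ 2a/(100K⁵) + a (K+4)/(1000K⁶)`, right `→ a/(2K⁵)`; `(K+4)/(1000K) ≤ 2/1000`; strict for `K ≥ 4`.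
* `a1N/x² → a/K⁴ + 2a/(100K⁵)`, `a2N/x² → a(K+4)/(1000K⁶)`; `ebp`: `μa²/K² ≥ a/K²` is larger than their sum for `K ≥ 4`;
* `ebd`: left `→ a/K⁴ + 2a/(100K⁵) + a(K+4)/(1000K⁶) + a/K³ ≤ 2a/K³`, right `→ ≥ σ(a/K² - 2a/K⁴…) ≥ σ a/(2K²)`: strict when `K > 4/σ`.
-/

set_option autoImplicit false

namespace Pool.Agent.Helper5.CV

open Finset Pool.Agent.Helper25.CliqueGame
open Pool.Agent.Helper78.CG (EI)

private theorem nb_inv : Filter.Tendsto (fun N : ℕ => 1 / Real.log N) Filter.atTop (nhds 0) := by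
  simp only [one_div]
  exact tendsto_inv_atTop_zero.comp tendsto_logN

private theorem nb_rest {a : ℝ} (ha : 0 < a) (c0 c1 c2 : ℝ) :
    Filter.Tendsto (fun N : ℕ => c0 * (1 / Real.log N) ^ 2 +
      c1 * (Real.log ((⌈a * Real.log N⌉₊ : ℝ) + 1) / Real.log N) * (1 / Real.log N) +
      c2 * (1 / Real.log N)) Filter.atTop (nhds 0) := by
  have h1 := (((nb_inv.pow 2).const_mul c0).add
    (((tendsto_logq ha).const_mul c1).mul nb_inv)).add (nb_inv.const_mul c2)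
  have h2 : c0 * 0 ^ 2 + c1 * 0 * 0 + c2 * 0 = 0 := by ring
  rw [h2] at h1
  exact h1

private theorem nb_log {b N q : ℕ} (hN : 1 ≤ N) :
    Real.log (CC b * ((q : ℝ) ^ 2 + 1) * (N : ℝ) ^ 2) ≤
      Real.log (CC b) + 2 * Real.log ((q : ℝ) + 1) + 2 * Real.log N := by
  have hC : 0 < CC b := by
    unfold CC
    positivity
  have hN0 : (0 : ℝ) < N := by exact_mod_cast hN
  have hq : (0 : ℝ) < (q : ℝ) ^ 2 + 1 := by positivity
  rw [Real.log_mul (mul_pos hC hq).ne' (pow_pos hN0 2).ne', Real.log_mul hC.ne' hq.ne',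
    Real.log_pow]
  have h1 : Real.log ((q : ℝ) ^ 2 + 1) ≤ Real.log (((q : ℝ) + 1) ^ 2) := by
    apply Real.log_le_log hq
    have : (0 : ℝ) ≤ q := Nat.cast_nonneg q
    nlinarith
  rw [Real.log_pow] at h1
  push_cast at h1 ⊢
  linarith

theorem numB {m b : ℕ} (hm : 1 ≤ m) (hb : 1 ≤ b) {a σ : ℝ} (ha : 0 < a)
    (hμ : 1 ≤ mu m b * a) (hσ : 0 < σ) :
    ∃ K1 : ℕ, ∀ K ≥ K1, ∀ᶠ N : ℕ in Filter.atTop,
      (1 / (K : ℝ) ^ 4 * ⌈a * Real.log N⌉₊ + (2 * K0q K ⌈a * Real.log N⌉₊ + 3)) *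
        Real.log N ≤
        mu m b * u0q K ⌈a * Real.log N⌉₊ -
          Real.log (CC b * ((⌈a * Real.log N⌉₊ : ℝ) ^ 2 + 1) * (N : ℝ) ^ 2) ∧
      Real.log 4 + 2 * K0q K ⌈a * Real.log N⌉₊ * Real.log N +
        Real.log (2 / (1 / (K : ℝ))) +
        ⌈a * Real.log N⌉₊ * Real.log (⌈a * Real.log N⌉₊ / p2N K N + 1) ≤
        1 / (K : ℝ) ^ 4 * Real.log N * (1 / (K : ℝ) * ⌈a * Real.log N⌉₊ / 2) ∧
      a1N b K N ⌈a * Real.log N⌉₊ + a2N K N ⌈a * Real.log N⌉₊ +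
        Real.log ((⌈a * Real.log N⌉₊ : ℝ) + 1) +
        (⌈a * Real.log N⌉₊ * Real.log N + Real.log (2 * CC b) +
          Real.log ((⌈a * Real.log N⌉₊ : ℝ) + 1)) / ((K ^ 3 : ℕ) : ℝ) ≤
        σ * (mu m b * u0q K ⌈a * Real.log N⌉₊ - a1N b K N ⌈a * Real.log N⌉₊ -
          a2N K N ⌈a * Real.log N⌉₊) ∧
      0 < mu m b * u0q K ⌈a * Real.log N⌉₊ - a1N b K N ⌈a * Real.log N⌉₊ -
          a2N K N ⌈a * Real.log N⌉₊ := by
  obtain ⟨K0, hK0⟩ := exists_nat_gt (6 / σ)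
  refine ⟨max 4 K0, fun K hK => ?_⟩
  have hK4 : 4 ≤ K := (le_max_left _ _).trans hK
  have hKσ : 6 / σ < K := lt_of_lt_of_le hK0 (by exact_mod_cast (le_max_right _ _).trans hK)
  have hK4r : (4 : ℝ) ≤ K := by exact_mod_cast hK4
  have hKp : (0 : ℝ) < K := by linarith
  have hK1 : 1 ≤ K := by omega
  set μ := mu m b with hμdef
  -- the limits
  have tq := tendsto_q ha
  have tK := tendsto_K0 ha hK1
  have tu := tendsto_u0 ha hK1
  have tp := tendsto_p2 ha hK1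
  set l1 : ℝ := 1 / (K : ℝ) ^ 4 * a + 2 * (a / (100 * (K : ℝ) ^ 5)) with hl1
  set l2 : ℝ := a * (((K : ℝ) + 4) * gamK K) with hl2
  have t1 : Filter.Tendsto (fun N : ℕ => 1 / (K : ℝ) ^ 4 * ((⌈a * Real.log N⌉₊ : ℝ) / Real.log N) +
      2 * ((K0q K ⌈a * Real.log N⌉₊ : ℝ) / Real.log N)) Filter.atTop (nhds l1) :=
    (tq.const_mul _).add (tK.const_mul 2)
  have t2 : Filter.Tendsto (fun N : ℕ => (⌈a * Real.log N⌉₊ : ℝ) / Real.log N *
      (Real.log ((⌈a * Real.log N⌉₊ : ℝ) / p2N K N + 1) / Real.log N))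
      Filter.atTop (nhds l2) := tq.mul tp
  -- numerical facts
  have n1 : l1 ≤ a / (K : ℝ) ^ 3 / 3 := by
    rw [hl1]
    have e1 : a / (K : ℝ) ^ 3 / 3 - (1 / (K : ℝ) ^ 4 * a + 2 * (a / (100 * (K : ℝ) ^ 5))) =
        a / (K : ℝ) ^ 5 * ((K : ℝ) ^ 2 / 3 - K - 1 / 50) := by
      field_simp
      ring
    have e2 : 0 ≤ (K : ℝ) ^ 2 / 3 - K - 1 / 50 := by nlinarith
    have e3 : 0 ≤ a / (K : ℝ) ^ 5 * ((K : ℝ) ^ 2 / 3 - K - 1 / 50) := by positivity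
    linarith
  have n2 : l2 ≤ a / (K : ℝ) ^ 5 / 500 := by
    rw [hl2, gamK]
    have e1 : a / (K : ℝ) ^ 5 / 500 - a * (((K : ℝ) + 4) * (1 / (1000 * (K : ℝ) ^ 6))) =
        a / (K : ℝ) ^ 6 * ((K - 4) / 1000) := by
      field_simp
      ring
    have e2 : 0 ≤ ((K : ℝ) - 4) / 1000 := by linarith
    have e3 : 0 ≤ a / (K : ℝ) ^ 6 * ((K - 4) / 1000) := by positivity
    linarith
  have n3 : a / (K : ℝ) ^ 5 ≤ a / (K : ℝ) ^ 3 / 16 := by
    have e1 : a / (K : ℝ) ^ 3 / 16 - a / (K : ℝ) ^ 5 = a / (K : ℝ) ^ 5 * ((K : ℝ) ^ 2 / 16 - 1) := by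
      field_simp
    have e2 : 0 ≤ (K : ℝ) ^ 2 / 16 - 1 := by nlinarith
    have e3 : 0 ≤ a / (K : ℝ) ^ 5 * ((K : ℝ) ^ 2 / 16 - 1) := by positivity
    linarith
  have n4 : a / (K : ℝ) ^ 3 ≤ a / (K : ℝ) ^ 2 / 4 := by
    have e1 : a / (K : ℝ) ^ 2 / 4 - a / (K : ℝ) ^ 3 = a / (K : ℝ) ^ 3 * (K / 4 - 1) := by
      field_simp
    have e2 : 0 ≤ (K : ℝ) / 4 - 1 := by linarith
    have e3 : 0 ≤ a / (K : ℝ) ^ 3 * (K / 4 - 1) := by positivity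
    linarith
  have n5 : a / (K : ℝ) ^ 2 ≤ μ * (a ^ 2 / (K : ℝ) ^ 2) := by
    have e1 : μ * (a ^ 2 / (K : ℝ) ^ 2) = μ * a * (a / (K : ℝ) ^ 2) := by ring
    rw [e1]
    have e2 : 0 ≤ a / (K : ℝ) ^ 2 := by positivity
    nlinarith
  have p3 : 0 < a / (K : ℝ) ^ 3 := by positivity
  have p5 : 0 < a / (K : ℝ) ^ 5 := by positivity
  have n6 : 6 * (a / (K : ℝ) ^ 3) < σ * (a / (K : ℝ) ^ 2) := by
    have e0 : 6 < σ * K := by
      rw [div_lt_iff₀ hσ] at hKσ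
      linarith
    have e1 : σ * (a / (K : ℝ) ^ 2) = σ * K * (a / (K : ℝ) ^ 3) := by
      field_simp
    rw [e1]
    exact mul_lt_mul_of_pos_right e0 p3
  -- (1)
  have ev1 : ∀ᶠ N : ℕ in Filter.atTop, 0 <
      μ * ((u0q K ⌈a * Real.log N⌉₊ : ℝ) / Real.log N ^ 2) -
        (1 / (K : ℝ) ^ 4 * ((⌈a * Real.log N⌉₊ : ℝ) / Real.log N) +
          2 * ((K0q K ⌈a * Real.log N⌉₊ : ℝ) / Real.log N)) -
        (Real.log (CC b) * (1 / Real.log N) ^ 2 +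
          2 * (Real.log ((⌈a * Real.log N⌉₊ : ℝ) + 1) / Real.log N) * (1 / Real.log N) +
          5 * (1 / Real.log N)) := by
    refine (((tu.const_mul μ).sub t1).sub (nb_rest ha (Real.log (CC b)) 2 5)).eventually
      (lt_mem_nhds ?_)
    linarith
  -- (2)
  have ev2 : ∀ᶠ N : ℕ in Filter.atTop, 0 <
      1 / (K : ℝ) ^ 4 * (1 / (K : ℝ) / 2) * ((⌈a * Real.log N⌉₊ : ℝ) / Real.log N) -
        2 * ((K0q K ⌈a * Real.log N⌉₊ : ℝ) / Real.log N) -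
        (⌈a * Real.log N⌉₊ : ℝ) / Real.log N *
          (Real.log ((⌈a * Real.log N⌉₊ : ℝ) / p2N K N + 1) / Real.log N) -
        ((Real.log 4 + Real.log (2 / (1 / (K : ℝ)))) * (1 / Real.log N) ^ 2 +
          0 * (Real.log ((⌈a * Real.log N⌉₊ : ℝ) + 1) / Real.log N) * (1 / Real.log N) +
          0 * (1 / Real.log N)) := by
    refine ((((tq.const_mul _).sub (tK.const_mul 2)).sub t2).sub
      (nb_rest ha (Real.log 4 + Real.log (2 / (1 / (K : ℝ)))) 0 0)).eventually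
      (lt_mem_nhds ?_)
    have e1 : 1 / (K : ℝ) ^ 4 * (1 / (K : ℝ) / 2) * a = a / (K : ℝ) ^ 5 / 2 := by
      field_simp
    have e2 : 2 * (a / (100 * (K : ℝ) ^ 5)) = a / (K : ℝ) ^ 5 / 50 := by
      field_simp
      ring
    rw [e1, e2]
    linarith
  -- (3)
  have ev3 : ∀ᶠ N : ℕ in Filter.atTop, 0 <
      σ * (μ * ((u0q K ⌈a * Real.log N⌉₊ : ℝ) / Real.log N ^ 2) -
        (1 / (K : ℝ) ^ 4 * ((⌈a * Real.log N⌉₊ : ℝ) / Real.log N) +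
          2 * ((K0q K ⌈a * Real.log N⌉₊ : ℝ) / Real.log N)) -
        (⌈a * Real.log N⌉₊ : ℝ) / Real.log N *
          (Real.log ((⌈a * Real.log N⌉₊ : ℝ) / p2N K N + 1) / Real.log N) -
        ((Real.log (CC b) + Real.log 4) * (1 / Real.log N) ^ 2 +
          3 * (Real.log ((⌈a * Real.log N⌉₊ : ℝ) + 1) / Real.log N) * (1 / Real.log N) +
          2 * (1 / Real.log N))) -
      (1 / (K : ℝ) ^ 4 * ((⌈a * Real.log N⌉₊ : ℝ) / Real.log N) +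
          2 * ((K0q K ⌈a * Real.log N⌉₊ : ℝ) / Real.log N)) -
      (⌈a * Real.log N⌉₊ : ℝ) / Real.log N *
          (Real.log ((⌈a * Real.log N⌉₊ : ℝ) / p2N K N + 1) / Real.log N) -
      1 / (K : ℝ) ^ 3 * ((⌈a * Real.log N⌉₊ : ℝ) / Real.log N) -
      ((Real.log (CC b) + Real.log 4 + 1 / (K : ℝ) ^ 3 * Real.log (2 * CC b)) *
          (1 / Real.log N) ^ 2 +
          (4 + 1 / (K : ℝ) ^ 3) * (Real.log ((⌈a * Real.log N⌉₊ : ℝ) + 1) / Real.log N) *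
            (1 / Real.log N) +
          2 * (1 / Real.log N)) := by
    refine (((((((((tu.const_mul μ).sub t1).sub t2).sub
      (nb_rest ha (Real.log (CC b) + Real.log 4) 3 2)).const_mul σ).sub t1).sub t2).sub
      (tq.const_mul (1 / (K : ℝ) ^ 3))).sub (nb_rest ha (Real.log (CC b) + Real.log 4 +
        1 / (K : ℝ) ^ 3 * Real.log (2 * CC b)) (4 + 1 / (K : ℝ) ^ 3) 2)).eventually
      (lt_mem_nhds ?_)
    have e1 : 1 / (K : ℝ) ^ 3 * a = a / (K : ℝ) ^ 3 := by ring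
    rw [e1]
    have e2 : a / (K : ℝ) ^ 2 / 2 ≤ μ * (a ^ 2 / (K : ℝ) ^ 2) - l1 - l2 - 0 := by linarith
    have e3 := mul_le_mul_of_nonneg_left e2 hσ.le
    linarith
  -- (4)
  have ev4 : ∀ᶠ N : ℕ in Filter.atTop, 0 <
      μ * ((u0q K ⌈a * Real.log N⌉₊ : ℝ) / Real.log N ^ 2) -
        (1 / (K : ℝ) ^ 4 * ((⌈a * Real.log N⌉₊ : ℝ) / Real.log N) +
          2 * ((K0q K ⌈a * Real.log N⌉₊ : ℝ) / Real.log N)) -
        (⌈a * Real.log N⌉₊ : ℝ) / Real.log N *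
          (Real.log ((⌈a * Real.log N⌉₊ : ℝ) / p2N K N + 1) / Real.log N) -
        ((Real.log (CC b) + Real.log 4) * (1 / Real.log N) ^ 2 +
          3 * (Real.log ((⌈a * Real.log N⌉₊ : ℝ) + 1) / Real.log N) * (1 / Real.log N) +
          2 * (1 / Real.log N)) := by
    refine ((((tu.const_mul μ).sub t1).sub t2).sub
      (nb_rest ha (Real.log (CC b) + Real.log 4) 3 2)).eventually (lt_mem_nhds ?_)
    linarith
  filter_upwards [ev1, ev2, ev3, ev4, tendsto_logN.eventually_gt_atTop 0,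
    Filter.eventually_ge_atTop 1] with N h1 h2 h3 h4 hx hN
  have hlog := nb_log (b := b) (q := ⌈a * Real.log N⌉₊) hN
  have hx2 : 0 < Real.log (N : ℝ) ^ 2 := pow_pos hx 2
  have hxne := hx.ne'
  have e1 : ((K ^ 3 : ℕ) : ℝ) = (K : ℝ) ^ 3 := by push_cast; ring
  unfold a1N a2N
  rw [e1]
  generalize Real.log (CC b * ((⌈a * Real.log N⌉₊ : ℝ) ^ 2 + 1) * (N : ℝ) ^ 2) = LN at *
  generalize Real.log ((⌈a * Real.log N⌉₊ : ℝ) / p2N K N + 1) = LP at *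
  generalize Real.log ((⌈a * Real.log N⌉₊ : ℝ) + 1) = LQ at *
  generalize (K0q K ⌈a * Real.log N⌉₊ : ℝ) = k0 at *
  generalize (u0q K ⌈a * Real.log N⌉₊ : ℝ) = u at *
  generalize (⌈a * Real.log N⌉₊ : ℝ) = q at *
  generalize Real.log (N : ℝ) = x at *
  refine ⟨?_, ?_, ?_, ?_⟩
  · have h5 := mul_pos h1 hx2
    have h6 : (μ * (u / x ^ 2) - (1 / (K : ℝ) ^ 4 * (q / x) + 2 * (k0 / x)) -
        (Real.log (CC b) * (1 / x) ^ 2 + 2 * (LQ / x) * (1 / x) + 5 * (1 / x))) * x ^ 2 =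
        μ * u - (1 / (K : ℝ) ^ 4 * q + 2 * k0) * x - Real.log (CC b) - 2 * LQ - 5 * x := by
      field_simp
      ring
    rw [h6] at h5
    linarith
  · have h5 := mul_pos h2 hx2
    have h6 : (1 / (K : ℝ) ^ 4 * (1 / (K : ℝ) / 2) * (q / x) - 2 * (k0 / x) -
        q / x * (LP / x) - ((Real.log 4 + Real.log (2 / (1 / (K : ℝ)))) * (1 / x) ^ 2 +
          0 * (LQ / x) * (1 / x) + 0 * (1 / x))) * x ^ 2 =
        1 / (K : ℝ) ^ 4 * x * (1 / (K : ℝ) * q / 2) - 2 * k0 * x - q * LP -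
          (Real.log 4 + Real.log (2 / (1 / (K : ℝ)))) := by
      field_simp
      ring
    rw [h6] at h5
    linarith
  · have h5 := mul_pos h3 hx2
    have h6 : (σ * (μ * (u / x ^ 2) - (1 / (K : ℝ) ^ 4 * (q / x) + 2 * (k0 / x)) -
        q / x * (LP / x) - ((Real.log (CC b) + Real.log 4) * (1 / x) ^ 2 +
          3 * (LQ / x) * (1 / x) + 2 * (1 / x))) -
        (1 / (K : ℝ) ^ 4 * (q / x) + 2 * (k0 / x)) - q / x * (LP / x) -
        1 / (K : ℝ) ^ 3 * (q / x) -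
        ((Real.log (CC b) + Real.log 4 + 1 / (K : ℝ) ^ 3 * Real.log (2 * CC b)) * (1 / x) ^ 2 +
          (4 + 1 / (K : ℝ) ^ 3) * (LQ / x) * (1 / x) + 2 * (1 / x))) * x ^ 2 =
        σ * (μ * u - (1 / (K : ℝ) ^ 4 * q + 2 * k0) * x - q * LP -
          (Real.log (CC b) + Real.log 4) - 3 * LQ - 2 * x) -
        (1 / (K : ℝ) ^ 4 * q + 2 * k0) * x - q * LP - 1 / (K : ℝ) ^ 3 * q * x -
        (Real.log (CC b) + Real.log 4 + 1 / (K : ℝ) ^ 3 * Real.log (2 * CC b)) -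
        (4 + 1 / (K : ℝ) ^ 3) * LQ - 2 * x := by
      field_simp
      ring
    rw [h6] at h5
    have h7 : σ * (μ * u - (1 / (K : ℝ) ^ 4 * q + 2 * k0) * x - q * LP -
          (Real.log (CC b) + Real.log 4) - 3 * LQ - 2 * x) ≤
        σ * (μ * u - (LN + 1 / (K : ℝ) ^ 4 * q * x + Real.log 4 + 2 * k0 * x) -
          (q * LP + LQ)) := by
      apply mul_le_mul_of_nonneg_left _ hσ.le
      linarith
    have h8 : (q * x + Real.log (2 * CC b) + LQ) / (K : ℝ) ^ 3 =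
        1 / (K : ℝ) ^ 3 * q * x + 1 / (K : ℝ) ^ 3 * Real.log (2 * CC b) +
          1 / (K : ℝ) ^ 3 * LQ := by
      ring
    rw [h8]
    linarith
  · have h5 := mul_pos h4 hx2
    have h6 : (μ * (u / x ^ 2) - (1 / (K : ℝ) ^ 4 * (q / x) + 2 * (k0 / x)) -
        q / x * (LP / x) - ((Real.log (CC b) + Real.log 4) * (1 / x) ^ 2 +
          3 * (LQ / x) * (1 / x) + 2 * (1 / x))) * x ^ 2 =
        μ * u - (1 / (K : ℝ) ^ 4 * q + 2 * k0) * x - q * LP -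
          (Real.log (CC b) + Real.log 4) - 3 * LQ - 2 * x := by
      field_simp
      ring
    rw [h6] at h5
    linarith

end Pool.Agent.Helper5.CV
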