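import Mathlib
import Pool.Agent.Helper5.CV.DefsN
import Pool.Agent.Helper5.CV.NumBase

/-!
# MP_d32cb0_co, module N3: the error of the pinning lemma

PROOF.  `x = log N`, `Γ = γx`, `q/x → a`, `K0/x → a/(100K⁵) =: κ0`.  Terms of `eps1` (`T = thr Γ (K+5)`, `log F = Γ/16`, `log(p0/p1) = Γ/16`,
`F p2/p1² = e^{Γ/16 + Γ/4 - (K+4)Γ}`):
`(2x/K0 + 3)/(Γ/16) → 0`; `m e^{-Γ/16} → 0`; `(q (2x/K0+3)/(Γ/16) + 1)/R0 → (16 a (2/κ0+3)/γ + 1)/R0`, choose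
`R0 = 2K (16 a (2/κ0+3)/γ + 2)`, so the limit is `< 1/(2K)`; `m R0²/K0 → 0`; the last term `→ 0`.
-/

set_option autoImplicit false

namespace Pool.Agent.Helper5.CV

open Finset Pool.Agent.Helper25.CliqueGame
open Pool.Agent.Helper78.CG (EI)

theorem numC {m K : ℕ} (hK : 4 ≤ K) {a : ℝ} (ha : 0 < a) :
    ∃ R0 : ℝ, 1 ≤ R0 ∧ ∀ᶠ N : ℕ in Filter.atTop,
      eps1 (Real.log N) m ⌈a * Real.log N⌉₊ (K0q K ⌈a * Real.log N⌉₊)
        (thr (GamN K N) (K + 5)) R0 ≤ 1 / K := by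
  have hKr : (4 : ℝ) ≤ K := by exact_mod_cast hK
  have hK0 : (0 : ℝ) < K := by linarith
  set g : ℝ := gamK K with hg
  have hg0 : 0 < g := by
    rw [hg, gamK]; positivity
  set κ : ℝ := a / (100 * (K : ℝ) ^ 5) with hκ
  have hκ0 : 0 < κ := by rw [hκ]; positivity
  set B : ℝ := a * (2 / κ + 3) / (g / 16) with hB
  have hB0 : 0 < B := by rw [hB]; positivity
  set R0 : ℝ := 2 * K * (B + 2) with hR0
  have hR1 : 1 ≤ R0 := by
    rw [hR0]; nlinarith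
  have hRpos : 0 < R0 := by linarith
  refine ⟨R0, hR1, ?_⟩
  have hx := tendsto_logN
  have hxinv : Filter.Tendsto (fun N : ℕ => (Real.log N)⁻¹) Filter.atTop (nhds 0) :=
    tendsto_inv_atTop_zero.comp hx
  -- 2x/K0 → 2/κ
  have hA : Filter.Tendsto (fun N : ℕ =>
      2 * ((K0q K ⌈a * Real.log N⌉₊ : ℝ) / Real.log N)⁻¹ + 3) Filter.atTop
      (nhds (2 * κ⁻¹ + 3)) :=
    (((tendsto_K0 ha (by omega : 1 ≤ K)).inv₀ hκ0.ne').const_mul 2).add_const 3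
  have h1 : Filter.Tendsto (fun N : ℕ =>
      (2 * ((K0q K ⌈a * Real.log N⌉₊ : ℝ) / Real.log N)⁻¹ + 3) * ((g / 16)⁻¹ * (Real.log N)⁻¹))
      Filter.atTop (nhds ((2 * κ⁻¹ + 3) * ((g / 16)⁻¹ * 0))) :=
    hA.mul (hxinv.const_mul _)
  have h2 : Filter.Tendsto (fun N : ℕ => (m : ℝ) *
      ((⌈a * Real.log N⌉₊ : ℝ) ^ 0 * Real.log N ^ 0 * Real.exp (-(g / 16 * Real.log N))))
      Filter.atTop (nhds ((m : ℝ) * 0)) :=
    (tendsto_qexp ha (by positivity : 0 < g / 16) 0 0).const_mul _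
  have h3 : Filter.Tendsto (fun N : ℕ =>
      ((⌈a * Real.log N⌉₊ : ℝ) / Real.log N *
        (2 * ((K0q K ⌈a * Real.log N⌉₊ : ℝ) / Real.log N)⁻¹ + 3) * (g / 16)⁻¹ + 1) / R0)
      Filter.atTop (nhds ((a * (2 * κ⁻¹ + 3) * (g / 16)⁻¹ + 1) / R0)) :=
    ((((tendsto_q ha).mul hA).mul_const _).add_const 1).div_const _
  have h4 : Filter.Tendsto (fun N : ℕ =>
      (m : ℝ) * R0 ^ 2 * (((K0q K ⌈a * Real.log N⌉₊ : ℝ) / Real.log N)⁻¹ * (Real.log N)⁻¹))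
      Filter.atTop (nhds ((m : ℝ) * R0 ^ 2 * (κ⁻¹ * 0))) :=
    ((((tendsto_K0 ha (by omega : 1 ≤ K)).inv₀ hκ0.ne').mul hxinv)).const_mul _
  have hc : 0 < ((K : ℝ) + 4 - 5 / 16) * g := by
    apply mul_pos _ hg0
    linarith
  have h5 : Filter.Tendsto (fun N : ℕ => 2 *
      ((⌈a * Real.log N⌉₊ : ℝ) ^ 3 * Real.log N ^ 0 *
        Real.exp (-(((K : ℝ) + 4 - 5 / 16) * g * Real.log N))))
      Filter.atTop (nhds (2 * 0)) :=
    (tendsto_qexp ha hc 3 0).const_mul _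
  have hall := ((h1.add h2).add (h3.add h4)).add h5
  have hlim : (2 * κ⁻¹ + 3) * ((g / 16)⁻¹ * 0) + (m : ℝ) * 0 +
      ((a * (2 * κ⁻¹ + 3) * (g / 16)⁻¹ + 1) / R0 + (m : ℝ) * R0 ^ 2 * (κ⁻¹ * 0)) + 2 * 0 <
      1 / (K : ℝ) := by
    have e1 : a * (2 * κ⁻¹ + 3) * (g / 16)⁻¹ = B := by
      rw [hB]; field_simp
    rw [e1]
    simp only [mul_zero, add_zero, zero_add]
    rw [div_lt_div_iff₀ hRpos hK0, hR0]
    nlinarith
  have hev := hall.eventually (eventually_lt_nhds hlim)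
  filter_upwards [hev, hx.eventually_gt_atTop 0,
    (tendsto_K0 ha (by omega : 1 ≤ K)).eventually (lt_mem_nhds hκ0)] with N hN hN0 hK0N
  refine le_of_eq_of_le ?_ hN.le
  have hk0 : (0 : ℝ) < (K0q K ⌈a * Real.log N⌉₊ : ℝ) := by
    by_contra hcon
    have : (K0q K ⌈a * Real.log N⌉₊ : ℝ) / Real.log N ≤ 0 :=
      div_nonpos_of_nonpos_of_nonneg (not_lt.1 hcon) hN0.le
    linarith
  have eF : Real.log (thr (GamN K N) (K + 5)).F = g / 16 * Real.log N := by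
    rw [thr]
    simp only
    rw [Real.log_exp, GamN, ← hg]; ring
  have ep0 : (thr (GamN K N) (K + 5)).p0 = Real.exp (-(g / 16 * Real.log N)) := by
    rw [thr]
    simp only
    rw [GamN, ← hg]; congr 1; ring
  have ep01 : Real.log ((thr (GamN K N) (K + 5)).p0 / (thr (GamN K N) (K + 5)).p1) =
      g / 16 * Real.log N := by
    rw [thr]
    simp only
    rw [← Real.exp_sub, Real.log_exp, GamN, ← hg]; ring
  have ep2 : (thr (GamN K N) (K + 5)).F * (thr (GamN K N) (K + 5)).p2 /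
      (thr (GamN K N) (K + 5)).p1 ^ 2 =
      Real.exp (-(((K : ℝ) + 4 - 5 / 16) * g * Real.log N)) := by
    rw [thr]
    simp only
    rw [← Real.exp_add, ← Real.exp_nat_mul, ← Real.exp_sub, GamN, ← hg]
    congr 1
    push_cast
    ring
  rw [eps1, eF, ep01, ep0, ep2]
  have hN0' : Real.log (N : ℝ) ≠ 0 := hN0.ne'
  have hk0' := hk0.ne'
  have hg0' := hg0.ne'
  have hR' := hRpos.ne'
  generalize (K0q K ⌈a * Real.log N⌉₊ : ℝ) = k at *
  generalize (⌈a * Real.log N⌉₊ : ℝ) = s at *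
  generalize Real.log (N : ℝ) = x at *
  field_simp

end Pool.Agent.Helper5.CV
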