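import Mathlib
import Pool.Agent.Helper5.CV.DefsN
import Pool.Agent.Helper5.CV.NumBase
import Pool.Agent.Helper5.CV.Kap

/-!
# MP_d32cb0_co, module N4: the conditions of order `log N`

Divide by `x = log N`: `st1`: left `→ μ a/K`; `com`: left `→ a/K + a/K`; `siz`: `Dbar → 7/K` (`N e^{-nb Γ} = e^{(1 - nbγ) x}`, `nb γ = 1 + 2γ > 1`), left
`→ 14a/K + a/K`.  All are `< σ` for large `K`.  (`(u0 + m) K/q / x → (a²/K²) K/a = a/K`.)
-/

set_option autoImplicit false

namespace Pool.Agent.Helper5.CV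

open Finset Pool.Agent.Helper25.CliqueGame
open Pool.Agent.Helper78.CG (EI)

theorem tendsto_Dbar {K : ℕ} (hK : 1 ≤ K) :
    Filter.Tendsto (fun N : ℕ => Dbar K N) Filter.atTop (nhds (7 / (K : ℝ))) := by
  have hKR : (0 : ℝ) < K := by exact_mod_cast hK
  have hg : 0 < gamK K := by
    unfold gamK
    positivity
  have hnb : (nbK K : ℝ) * gamK K = 1 + 2 * gamK K := by
    unfold nbK gamK
    push_cast
    field_simp
  have h1 : Filter.Tendsto (fun N : ℕ => Real.exp (-(2 * gamK K * Real.log N))) Filter.atTop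
      (nhds 0) := by
    refine Real.tendsto_exp_neg_atTop_nhds_zero.comp ?_
    exact tendsto_logN.const_mul_atTop (by positivity)
  have h2 : Filter.Tendsto (fun N : ℕ => (N : ℝ) *
      Real.exp (-((nbK K : ℝ) * GamN K N))) Filter.atTop (nhds 0) := by
    refine h1.congr' ?_
    filter_upwards [Filter.eventually_ge_atTop 1] with N hN
    have hN0 : (0 : ℝ) < N := by exact_mod_cast hN
    have h3 : (nbK K : ℝ) * GamN K N = (1 + 2 * gamK K) * Real.log N := by
      unfold GamN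
      rw [← mul_assoc, hnb]
    have h4 : -(2 * gamK K * Real.log N) = Real.log N + -((1 + 2 * gamK K) * Real.log N) := by
      ring
    rw [h3, h4, Real.exp_add, Real.exp_log hN0]
  have h3 : Filter.Tendsto (fun N : ℕ => 1 / (K : ℝ) + (N : ℝ) *
      Real.exp (-((nbK K : ℝ) * GamN K N)) + 2 / K + 4 / K) Filter.atTop
      (nhds (1 / (K : ℝ) + 0 + 2 / K + 4 / K)) :=
    ((h2.const_add (1 / (K : ℝ))).add_const (2 / (K : ℝ))).add_const (4 / (K : ℝ))
  have h4 : 1 / (K : ℝ) + 0 + 2 / K + 4 / K = 7 / K := by ring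
  rw [h4] at h3
  exact h3

private theorem tinvD : Filter.Tendsto (fun N : ℕ => 1 / Real.log N) Filter.atTop (nhds 0) := by
  simp only [one_div]
  exact tendsto_inv_atTop_zero.comp tendsto_logN

private theorem tendsto_last {a : ℝ} (ha : 0 < a) {K : ℕ} (hK : 1 ≤ K) (m : ℕ) :
    Filter.Tendsto (fun N : ℕ => ((u0q K ⌈a * Real.log N⌉₊ : ℝ) + m) * K /
      ⌈a * Real.log N⌉₊ / Real.log N) Filter.atTop (nhds (a / K)) := by
  have hKR : (0 : ℝ) < K := by exact_mod_cast hK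
  have h1 := tendsto_u0 ha hK
  have h2 : Filter.Tendsto (fun N : ℕ => (m : ℝ) * (1 / Real.log N) ^ 2) Filter.atTop
      (nhds ((m : ℝ) * 0 ^ 2)) := (tinvD.pow 2).const_mul _
  have h3 := ((h1.add h2).mul_const (K : ℝ)).div (tendsto_q ha) ha.ne'
  have h4 : (a ^ 2 / (K : ℝ) ^ 2 + (m : ℝ) * 0 ^ 2) * K / a = a / K := by
    field_simp
    ring
  rw [h4] at h3
  refine h3.congr' ?_
  filter_upwards [tendsto_logN.eventually_gt_atTop 0] with N hN
  have h5 : (0 : ℝ) < (⌈a * Real.log N⌉₊ : ℝ) := by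
    exact_mod_cast Nat.ceil_pos.2 (mul_pos ha hN)
  show ((u0q K ⌈a * Real.log N⌉₊ : ℝ) / Real.log N ^ 2 + (m : ℝ) * (1 / Real.log N) ^ 2) *
    (K : ℝ) / ((⌈a * Real.log N⌉₊ : ℝ) / Real.log N) = _
  field_simp

theorem numD {m b : ℕ} (hm : 1 ≤ m) (hb : 1 ≤ b) {a σ : ℝ} (ha : 0 < a) (hσ : 0 < σ) :
    ∃ K1 : ℕ, ∀ K ≥ K1, ∀ᶠ N : ℕ in Filter.atTop,
      mu m b * (⌈a * Real.log N⌉₊ / K) + 2 ≤ σ * Real.log N ∧
      (⌈a * Real.log N⌉₊ : ℝ) / K + 1 +
        ((u0q K ⌈a * Real.log N⌉₊ : ℝ) + m) * K / ⌈a * Real.log N⌉₊ ≤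
        σ * Real.log N ∧
      2 * Dbar K N * ⌈a * Real.log N⌉₊ +
        ((u0q K ⌈a * Real.log N⌉₊ : ℝ) + m) * K / ⌈a * Real.log N⌉₊ ≤
        σ * Real.log N := by
  have hmu := mu_pos hm hb
  obtain ⟨K1, hK1⟩ := exists_nat_gt ((mu m b * a + 15 * a) / σ)
  refine ⟨K1 + 1, fun K hK => ?_⟩
  have hK0 : 1 ≤ K := by omega
  have hKR : (0 : ℝ) < K := by exact_mod_cast hK0
  have hKK : (K1 : ℝ) + 1 ≤ K := by exact_mod_cast hK
  have hbig : mu m b * a + 15 * a < σ * K := by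
    rw [div_lt_iff₀ hσ] at hK1
    nlinarith
  have hma : 0 < mu m b * a := mul_pos hmu ha
  have e1 : mu m b * (a / K) + 2 * 0 < σ := by
    rw [mul_zero, add_zero, ← mul_div_assoc, div_lt_iff₀ hKR]
    linarith
  have e2 : a / K + 0 + a / K < σ := by
    rw [add_zero, ← add_div, div_lt_iff₀ hKR]
    linarith
  have e3 : 2 * (7 / (K : ℝ)) * a + a / K < σ := by
    have : 2 * (7 / (K : ℝ)) * a + a / K = (15 * a) / K := by ring
    rw [this, div_lt_iff₀ hKR]
    linarith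
  have hq := tendsto_q ha
  have t1 : Filter.Tendsto (fun N : ℕ => mu m b * ((⌈a * Real.log N⌉₊ : ℝ) / Real.log N / K) +
      2 * (1 / Real.log N)) Filter.atTop (nhds (mu m b * (a / K) + 2 * 0)) :=
    ((hq.div_const (K : ℝ)).const_mul _).add (tinvD.const_mul 2)
  have t2 : Filter.Tendsto (fun N : ℕ => (⌈a * Real.log N⌉₊ : ℝ) / Real.log N / K +
      1 / Real.log N + ((u0q K ⌈a * Real.log N⌉₊ : ℝ) + m) * K /
        ⌈a * Real.log N⌉₊ / Real.log N) Filter.atTop (nhds (a / K + 0 + a / K)) :=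
    ((hq.div_const (K : ℝ)).add tinvD).add (tendsto_last ha hK0 m)
  have t3 : Filter.Tendsto (fun N : ℕ => 2 * Dbar K N *
      ((⌈a * Real.log N⌉₊ : ℝ) / Real.log N) + ((u0q K ⌈a * Real.log N⌉₊ : ℝ) + m) * K /
        ⌈a * Real.log N⌉₊ / Real.log N) Filter.atTop
      (nhds (2 * (7 / (K : ℝ)) * a + a / K)) :=
    (((tendsto_Dbar hK0).const_mul 2).mul hq).add (tendsto_last ha hK0 m)
  filter_upwards [t1.eventually_lt_const e1, t2.eventually_lt_const e2,
    t3.eventually_lt_const e3, tendsto_logN.eventually_gt_atTop 0] with N h1 h2 h3 hN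
  generalize ((u0q K ⌈a * Real.log N⌉₊ : ℝ) + m) * K / ⌈a * Real.log N⌉₊ = T at h2 h3 ⊢
  generalize (⌈a * Real.log N⌉₊ : ℝ) = q at h1 h2 h3 ⊢
  refine ⟨?_, ?_, ?_⟩
  · have h4 : mu m b * (q / K) + 2 =
        (mu m b * (q / Real.log N / K) + 2 * (1 / Real.log N)) * Real.log N := by
      field_simp
    rw [h4]
    exact mul_le_mul_of_nonneg_right h1.le hN.le
  · have h4 : q / K + 1 + T =
        (q / Real.log N / K + 1 / Real.log N + T / Real.log N) * Real.log N := by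
      field_simp
    rw [h4]
    exact mul_le_mul_of_nonneg_right h2.le hN.le
  · have h4 : 2 * Dbar K N * q + T =
        (2 * Dbar K N * (q / Real.log N) + T / Real.log N) * Real.log N := by
      field_simp
    rw [h4]
    exact mul_le_mul_of_nonneg_right h3.le hN.le

end Pool.Agent.Helper5.CV
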