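import Mathlib
import Pool.Agent.Helper5.CV.DefsN
import Pool.Agent.Helper5.CV.NumBase
import Pool.Agent.Helper5.CV.NumD
import Pool.Agent.Helper5.CV.Kap

/-!
# MP_d32cb0_co, module N5: the cost condition

PROOF.  `x = log N`, `q/x → a`.  `errN/x² → γ a² Λ_1 + γ a + a γ/8`: the terms `γ q² Λ_1`, `γ q log(N+1)`, `q log(q Δ + 1)` with `Δ = ⌈q e^{Γ/8}⌉ ≤ q e^{Γ/8} + 1`,
so `log(qΔ+1) ≤ Γ/8 + 2 log(q+1) + log 3` or so; the others are `o(x²)`: `log(q+1)`; `log(CC K nPr tp) = O(log q)` (`nPr = ((q+1)(cm+1))^tp`,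
`cm + 1 ≤ q² Λ_1 + 2`); `10 x ((nb+2) q² + 1) e^{-Γ/2} → 0`; `1`.
`tp γ ≤ ((2000K⁶+4)/K + 1) /(1000 K⁶) ≤ 3/K`.  So the left side divided by `x²` tends to
`tp γ (a² Λ_1 + a + a/8) + Λ_1 (14 a²/K + a²/K²) ≤ (3 (a²Λ_1 + 2a) + 15 a² Λ_1)/K < σ²` for large `K`.
It is enough to prove an upper bound with `≤` eventually.
-/

set_option autoImplicit false

namespace Pool.Agent.Helper5.CV

open Finset Pool.Agent.Helper25.CliqueGame
open Pool.Agent.Helper78.CG (EI)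

private theorem tinvE : Filter.Tendsto (fun N : ℕ => 1 / Real.log N) Filter.atTop (nhds 0) := by
  simp only [one_div]
  exact tendsto_inv_atTop_zero.comp tendsto_logN

/-- the logarithm of the number of profiles -/
private theorem log_nPr_le (m b K q : ℕ) (hK : 1 ≤ K) :
    Real.log (CC b * (K * nPr m b K q * tpK K)) ≤
      (Real.log (CC b) + Real.log K + Real.log (tpK K) + tpK K * Real.log (lam m b 1 + 2)) +
        3 * tpK K * Real.log ((q : ℝ) + 1) := by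
  have hKR : (0 : ℝ) < K := by exact_mod_cast hK
  have hC : 0 < CC b := by unfold CC; positivity
  have hL : 0 ≤ lam m b 1 := lam_nonneg m b 1
  have htp : (0 : ℝ) < (tpK K : ℝ) := by
    have : 0 < tpK K := by unfold tpK; exact Nat.succ_pos _
    exact_mod_cast this
  have hn : nPr m b K q = (((q : ℝ) + 1) * ((cmq m b q : ℝ) + 1)) ^ tpK K := by
    unfold nPr
    rw [Fintype.card_fun, Fintype.card_prod, Fintype.card_fin, Fintype.card_fin, Fintype.card_fin]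
    push_cast
    rfl
  have hq1 : (0 : ℝ) < (q : ℝ) + 1 := by positivity
  have hc1 : (0 : ℝ) < (cmq m b q : ℝ) + 1 := by positivity
  have hnpos : 0 < nPr m b K q := by rw [hn]; positivity
  have hc : (cmq m b q : ℝ) + 1 ≤ ((q : ℝ) + 1) ^ 2 * (lam m b 1 + 2) := by
    have h1 : (cmq m b q : ℝ) ≤ (q : ℝ) ^ 2 * lam m b 1 + 1 := by
      unfold cmq
      exact (Nat.ceil_lt_add_one (by positivity)).le
    have h2 : (0 : ℝ) ≤ q := Nat.cast_nonneg q
    nlinarith [mul_nonneg h2 hL]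
  have hlc : Real.log ((cmq m b q : ℝ) + 1) ≤
      2 * Real.log ((q : ℝ) + 1) + Real.log (lam m b 1 + 2) := by
    refine (Real.log_le_log hc1 hc).trans (le_of_eq ?_)
    rw [Real.log_mul (by positivity) (by positivity), Real.log_pow]
    push_cast
    ring
  rw [Real.log_mul hC.ne' (by positivity), Real.log_mul (by positivity) htp.ne',
    Real.log_mul hKR.ne' hnpos.ne', hn, Real.log_pow, Real.log_mul hq1.ne' hc1.ne']
  have h3 := mul_le_mul_of_nonneg_left hlc htp.le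
  nlinarith

/-- `log (q Δ + 1) ≤ 2 log (q + 1) + Γ/8` -/
private theorem log_Del_le (K N q : ℕ) (hG : 0 ≤ GamN K N) :
    Real.log ((q : ℝ) * DelN K N q + 1) ≤ 2 * Real.log ((q : ℝ) + 1) + GamN K N / 8 := by
  have hE : (1 : ℝ) ≤ Real.exp (GamN K N / 8) := Real.one_le_exp (by positivity)
  have hq : (0 : ℝ) ≤ q := Nat.cast_nonneg q
  have h1 : (DelN K N q : ℝ) ≤ (q : ℝ) * Real.exp (GamN K N / 8) + 1 := by
    unfold DelN
    exact (Nat.ceil_lt_add_one (by positivity)).le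
  have h2 : (q : ℝ) * DelN K N q + 1 ≤ ((q : ℝ) + 1) ^ 2 * Real.exp (GamN K N / 8) := by
    have h3 := mul_le_mul_of_nonneg_left h1 hq
    nlinarith [mul_nonneg hq (by linarith : (0 : ℝ) ≤ Real.exp (GamN K N / 8) - 1)]
  have h4 : (0 : ℝ) < (q : ℝ) * DelN K N q + 1 := by positivity
  refine (Real.log_le_log h4 h2).trans (le_of_eq ?_)
  rw [Real.log_mul (by positivity) (Real.exp_pos _).ne', Real.log_pow, Real.log_exp]
  push_cast
  ring

private theorem tp_gam {K : ℕ} (hK : 1 ≤ K) : (tpK K : ℝ) * gamK K ≤ 3 / K := by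
  have hKR : (1 : ℝ) ≤ K := by exact_mod_cast hK
  have hK0 : (0 : ℝ) < K := by linarith
  have h1 : (tpK K : ℝ) ≤ 2 * (1000 * (K : ℝ) ^ 6 + 2) / K + 1 := by
    unfold tpK nbK
    have h2 := Nat.cast_div_le (α := ℝ) (m := 2 * (1000 * K ^ 6 + 2)) (n := K)
    push_cast at h2 ⊢
    linarith
  have h6 : (1 : ℝ) ≤ (K : ℝ) ^ 6 := one_le_pow₀ hKR
  have h7 : (K : ℝ) ≤ (K : ℝ) ^ 6 := by
    calc (K : ℝ) = (K : ℝ) ^ 1 := (pow_one _).symm
      _ ≤ (K : ℝ) ^ 6 := pow_le_pow_right₀ hKR (by norm_num)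
  unfold gamK
  rw [mul_one_div, div_le_div_iff₀ (by positivity) hK0]
  have h8 : (tpK K : ℝ) * K ≤ 2 * (1000 * (K : ℝ) ^ 6 + 2) + K := by
    calc (tpK K : ℝ) * K ≤ (2 * (1000 * (K : ℝ) ^ 6 + 2) / K + 1) * K :=
          mul_le_mul_of_nonneg_right h1 hK0.le
      _ = 2 * (1000 * (K : ℝ) ^ 6 + 2) + K := by
          field_simp
  nlinarith

theorem numE {m b : ℕ} (hm : 1 ≤ m) (hb : 1 ≤ b) {a σ : ℝ} (ha : 0 < a) (hσ : 0 < σ) :
    ∃ K1 : ℕ, ∀ K ≥ K1, ∀ᶠ N : ℕ in Filter.atTop,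
      tpK K * (errN m b K N ⌈a * Real.log N⌉₊ + 1) +
        1 / 2 * lam m b 1 * ⌈a * Real.log N⌉₊ +
        lam m b 1 * (2 * Dbar K N * (⌈a * Real.log N⌉₊ : ℝ) ^ 2 +
          ((u0q K ⌈a * Real.log N⌉₊ : ℝ) + m)) ≤ σ ^ 2 * (Real.log N) ^ 2 := by
  set L : ℝ := lam m b 1 with hLdef
  have hL : 0 < L := lam_pos hm hb le_rfl
  obtain ⟨K1, hK1⟩ := exists_nat_gt ((3 * (a ^ 2 * L + 2 * a) + 15 * a ^ 2 * L) / σ ^ 2)
  refine ⟨K1 + 1, fun K hK => ?_⟩
  have hK0 : 1 ≤ K := by omega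
  have hKR1 : (1 : ℝ) ≤ K := by exact_mod_cast hK0
  have hKR : (0 : ℝ) < K := by linarith
  have hKK : (K1 : ℝ) + 1 ≤ K := by exact_mod_cast hK
  have hσ2 : 0 < σ ^ 2 := by positivity
  have hbig : 3 * (a ^ 2 * L + 2 * a) + 15 * a ^ 2 * L < σ ^ 2 * K := by
    rw [div_lt_iff₀ hσ2] at hK1
    nlinarith
  have hg : 0 < gamK K := by
    unfold gamK
    positivity
  set g : ℝ := gamK K with hgdef
  have htp : (0 : ℝ) < (tpK K : ℝ) := by
    have : 0 < tpK K := by unfold tpK; exact Nat.succ_pos _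
    exact_mod_cast this
  set tp : ℝ := (tpK K : ℝ) with htpdef
  have htg : tp * g ≤ 3 / K := tp_gam hK0
  set c0 : ℝ := Real.log (CC b) + Real.log K + Real.log tp + tp * Real.log (L + 2) with hc0
  have hq := tendsto_q ha
  have hlq := tendsto_logq ha
  have hinv := tinvE
  -- the limit of the bound of the error
  have u1 : Filter.Tendsto (fun N : ℕ => g * L * ((⌈a * Real.log N⌉₊ : ℝ) / Real.log N) ^ 2)
      Filter.atTop (nhds (g * L * a ^ 2)) := (hq.pow 2).const_mul _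
  have u2 : Filter.Tendsto (fun N : ℕ => g * (((⌈a * Real.log N⌉₊ : ℝ) / Real.log N) *
      (Real.log ((N : ℝ) + 1) / Real.log N))) Filter.atTop (nhds (g * (a * 1))) :=
    (hq.mul tendsto_log1).const_mul _
  have u3 : Filter.Tendsto (fun N : ℕ => (1 + 3 * tp) *
      (Real.log ((⌈a * Real.log N⌉₊ : ℝ) + 1) / Real.log N * (1 / Real.log N)))
      Filter.atTop (nhds ((1 + 3 * tp) * (0 * 0))) := (hlq.mul hinv).const_mul _
  have u4 : Filter.Tendsto (fun N : ℕ => ((⌈a * Real.log N⌉₊ : ℝ) / Real.log N) *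
      (2 * (Real.log ((⌈a * Real.log N⌉₊ : ℝ) + 1) / Real.log N) + g / 8))
      Filter.atTop (nhds (a * (2 * 0 + g / 8))) := hq.mul ((hlq.const_mul 2).add_const _)
  have u5 : Filter.Tendsto (fun N : ℕ => (c0 + 2) * (1 / Real.log N) ^ 2)
      Filter.atTop (nhds ((c0 + 2) * 0 ^ 2)) := (hinv.pow 2).const_mul _
  have u6 : Filter.Tendsto (fun N : ℕ => 10 * (((nbK K : ℝ) + 2) *
      ((⌈a * Real.log N⌉₊ : ℝ) ^ 2 * Real.log N ^ 0 * Real.exp (-(g / 2 * Real.log N))) +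
      ((⌈a * Real.log N⌉₊ : ℝ) ^ 0 * Real.log N ^ 0 * Real.exp (-(g / 2 * Real.log N)))) *
      (1 / Real.log N)) Filter.atTop
      (nhds (10 * (((nbK K : ℝ) + 2) * 0 + 0) * 0)) :=
    ((((tendsto_qexp ha (by positivity : 0 < g / 2) 2 0).const_mul _).add
      (tendsto_qexp ha (by positivity : 0 < g / 2) 0 0)).const_mul 10).mul hinv
  have u7 : Filter.Tendsto (fun N : ℕ => 1 / 2 * L * (((⌈a * Real.log N⌉₊ : ℝ) / Real.log N) *
      (1 / Real.log N))) Filter.atTop (nhds (1 / 2 * L * (a * 0))) :=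
    (hq.mul hinv).const_mul _
  have u8 : Filter.Tendsto (fun N : ℕ => L * (2 * Dbar K N *
      ((⌈a * Real.log N⌉₊ : ℝ) / Real.log N) ^ 2 +
      ((u0q K ⌈a * Real.log N⌉₊ : ℝ) / Real.log N ^ 2 + (m : ℝ) * (1 / Real.log N) ^ 2)))
      Filter.atTop (nhds (L * (2 * (7 / (K : ℝ)) * a ^ 2 +
        (a ^ 2 / (K : ℝ) ^ 2 + (m : ℝ) * 0 ^ 2)))) :=
    ((((tendsto_Dbar hK0).const_mul 2).mul (hq.pow 2)).add
      ((tendsto_u0 ha hK0).add ((hinv.pow 2).const_mul _))).const_mul _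
  have hall := ((((((u1.add u2).add u3).add u4).add u5).add u6).const_mul tp).add (u7.add u8)
  have hlim : tp * (g * L * a ^ 2 + g * (a * 1) + (1 + 3 * tp) * (0 * 0) + a * (2 * 0 + g / 8) +
      (c0 + 2) * 0 ^ 2 + 10 * (((nbK K : ℝ) + 2) * 0 + 0) * 0) +
      (1 / 2 * L * (a * 0) + L * (2 * (7 / (K : ℝ)) * a ^ 2 +
        (a ^ 2 / (K : ℝ) ^ 2 + (m : ℝ) * 0 ^ 2))) < σ ^ 2 := by
    have e1 : tp * (g * L * a ^ 2 + g * (a * 1) + (1 + 3 * tp) * (0 * 0) + a * (2 * 0 + g / 8) +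
        (c0 + 2) * 0 ^ 2 + 10 * (((nbK K : ℝ) + 2) * 0 + 0) * 0) =
        tp * g * (L * a ^ 2 + a + a / 8) := by ring
    have e2 : tp * g * (L * a ^ 2 + a + a / 8) ≤ 3 / K * (L * a ^ 2 + a + a / 8) :=
      mul_le_mul_of_nonneg_right htg (by positivity)
    have e3 : L * (2 * (7 / (K : ℝ)) * a ^ 2 + (a ^ 2 / (K : ℝ) ^ 2 + (m : ℝ) * 0 ^ 2)) ≤
        15 * a ^ 2 * L / K := by
      have h1 : a ^ 2 / (K : ℝ) ^ 2 ≤ a ^ 2 / K := by
        apply div_le_div_of_nonneg_left (by positivity) hKR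
        nlinarith
      have h2 : L * (2 * (7 / (K : ℝ)) * a ^ 2 + (a ^ 2 / (K : ℝ) ^ 2 + (m : ℝ) * 0 ^ 2)) ≤
          L * (2 * (7 / (K : ℝ)) * a ^ 2 + a ^ 2 / K) := by
        apply mul_le_mul_of_nonneg_left _ hL.le
        linarith
      refine h2.trans (le_of_eq ?_)
      ring
    have e4 : 3 / (K : ℝ) * (L * a ^ 2 + a + a / 8) + 15 * a ^ 2 * L / K ≤
        (3 * (a ^ 2 * L + 2 * a) + 15 * a ^ 2 * L) / K := by
      have h1 : 3 / (K : ℝ) * (L * a ^ 2 + a + a / 8) = 3 * (L * a ^ 2 + a + a / 8) / K := by ring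
      rw [h1, ← add_div]
      apply div_le_div_of_nonneg_right _ hKR.le
      nlinarith
    have e5 : (3 * (a ^ 2 * L + 2 * a) + 15 * a ^ 2 * L) / K < σ ^ 2 := by
      rw [div_lt_iff₀ hKR]
      exact hbig
    rw [e1]
    linarith
  filter_upwards [hall.eventually_lt_const hlim, tendsto_logN.eventually_gt_atTop 0,
    Filter.eventually_ge_atTop 1] with N hN hx hN1
  have hG : GamN K N = g * Real.log N := rfl
  have hG0 : 0 ≤ GamN K N := by rw [hG]; positivity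
  set q : ℕ := ⌈a * Real.log N⌉₊ with hqdef
  have b1 := log_nPr_le m b K q hK0
  have b2 := log_Del_le K N q hG0
  have hq0 : (0 : ℝ) ≤ q := Nat.cast_nonneg q
  rw [← hLdef, ← htpdef, ← hc0] at b1
  have hee : Real.exp (-(GamN K N / 2)) = Real.exp (-(g / 2 * Real.log N)) := by
    rw [hG]; congr 1; ring
  have hbound : errN m b K N q + 1 ≤
      g * (q : ℝ) ^ 2 * L + g * q * Real.log ((N : ℝ) + 1) + Real.log ((q : ℝ) + 1) +
      q * (2 * Real.log ((q : ℝ) + 1) + GamN K N / 8) +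
      (c0 + 3 * tp * Real.log ((q : ℝ) + 1)) +
      10 * Real.log N * (((nbK K : ℝ) + 2) * (q : ℝ) ^ 2 + 1) *
        Real.exp (-(g / 2 * Real.log N)) + 2 := by
    unfold errN
    rw [hee, ← hLdef, ← hgdef, ← htpdef]
    have h3 := mul_le_mul_of_nonneg_left b2 hq0
    have h4 : Real.log (CC b * (↑K * nPr m b K q * ↑(tpK K))) ≤
        c0 + 3 * tp * Real.log ((q : ℝ) + 1) := b1
    linarith
  have h5 := mul_le_mul_of_nonneg_left hbound htp.le
  have hx2 : 0 < Real.log N ^ 2 := by positivity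
  have h6 : (tp * (g * L * ((q : ℝ) / Real.log N) ^ 2 +
      g * (((q : ℝ) / Real.log N) * (Real.log ((N : ℝ) + 1) / Real.log N)) +
      (1 + 3 * tp) * (Real.log ((q : ℝ) + 1) / Real.log N * (1 / Real.log N)) +
      ((q : ℝ) / Real.log N) * (2 * (Real.log ((q : ℝ) + 1) / Real.log N) + g / 8) +
      (c0 + 2) * (1 / Real.log N) ^ 2 +
      10 * (((nbK K : ℝ) + 2) *
      ((q : ℝ) ^ 2 * Real.log N ^ 0 * Real.exp (-(g / 2 * Real.log N))) +
      ((q : ℝ) ^ 0 * Real.log N ^ 0 * Real.exp (-(g / 2 * Real.log N)))) *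
      (1 / Real.log N)) +
      (1 / 2 * L * (((q : ℝ) / Real.log N) * (1 / Real.log N)) +
      L * (2 * Dbar K N * ((q : ℝ) / Real.log N) ^ 2 +
      ((u0q K q : ℝ) / Real.log N ^ 2 + (m : ℝ) * (1 / Real.log N) ^ 2)))) * Real.log N ^ 2 =
      tp * (g * (q : ℝ) ^ 2 * L + g * q * Real.log ((N : ℝ) + 1) + Real.log ((q : ℝ) + 1) +
      q * (2 * Real.log ((q : ℝ) + 1) + GamN K N / 8) +
      (c0 + 3 * tp * Real.log ((q : ℝ) + 1)) +
      10 * Real.log N * (((nbK K : ℝ) + 2) * (q : ℝ) ^ 2 + 1) *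
        Real.exp (-(g / 2 * Real.log N)) + 2) +
      1 / 2 * L * q + L * (2 * Dbar K N * (q : ℝ) ^ 2 + ((u0q K q : ℝ) + m)) := by
    rw [hG]
    have hx' : Real.log (N : ℝ) ≠ 0 := hx.ne'
    generalize Real.exp (-(g / 2 * Real.log N)) = E
    generalize Real.log ((q : ℝ) + 1) = lq
    generalize Real.log ((N : ℝ) + 1) = lN
    generalize (q : ℝ) = y
    generalize (u0q K q : ℝ) = u
    generalize Dbar K N = d
    generalize (nbK K : ℝ) = nb
    generalize Real.log (N : ℝ) = x at hx' ⊢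
    field_simp
    ring
  have h7 := mul_lt_mul_of_pos_right hN hx2
  rw [h6] at h7
  linarith

end Pool.Agent.Helper5.CV
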