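import Mathlib
import Pool.Agent.Helper5.CV.Defs
import Pool.Agent.Helper5.CV.Greedy

/-!
# MP_d32cb0_co, module G02: a play against the greedy Breaker, families are added during the play

`Ps t` (`1 ≤ t ≤ n`) is the position after the `t`-th move of Maker (before the reply), `Ps 0 = P`.
`vs t` is the weight function at that moment (after the family `fam (Ps t)` was added).

PROOF.  Induction on `n` (for all `P v C`).  `n = 0`: `Ps = fun _ => P`, `vs = fun _ => v`, `Bf = P.B`;
`Forces 0` is `W P.M`.  `n + 1`: Maker's move `X` from `Forces` (legal, so `X ⊆ board \ (M ∪ B)`, `|X| ≤ m`);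
`P1 = ⟨X :: P.mv, P.B⟩` (`P1.M = X ∪ P.M`), `v1 S = v S (1 + (b/m)|S∩X|) + fam P1 S`, `Σ v1 ≤ C + δ` by the
hypothesis on `v` and `hfam`.  Breaker replies by `greedy_step board P1.M P.B b hm v1`: `Y`;
`v2 S = if Disjoint S Y then v1 S else 0` satisfies the hypothesis of the induction for
`P2 = ⟨X :: P.mv, P.B ∪ Y⟩` with the constant `C + δ`.  `Forces` gives `Forces … n P2.M P2.B`
(`uni (X :: l) = X ∪ uni l`; `Forces` is stated for `M ∪ X`: use `Finset.union_comm`).  Apply the induction hypothesis,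
get `Ps', vs', Bf`; put `Ps 0 = P`, `Ps 1 = P1`, `Ps (t+1) = Ps' t` for `t ≥ 1` (note: `(Ps' 1).mv = X' :: P2.mv =
X' :: P1.mv`, `(Ps' 1).B = P2.B ⊇ P1.B`), `vs (t+1) = vs' t` for `t ≥ 1`, `vs 1 = v1`.
In the statement the weights satisfy only an inequality (`≥`), which is all that is used later; `vs` of the
first move of the rest: `vs' 1 S ≥ v2 S · (1+…) + fam (Ps' 1) S`, where `v2 S = v1 S` if `S` is disjoint from `(Ps' 1).B ⊇ Y`.
-/

set_option autoImplicit false

namespace Pool.Agent.Helper5.CV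

open Finset Pool.Agent.Helper25.CliqueGame
open Pool.Agent.Helper78.CG (EI)

private lemma sub_uni {α : Type*} [DecidableEq α] {l : List (Finset α)} {Z : Finset α}
    (h : Z ∈ l) : Z ⊆ uni l := by
  induction l with
  | nil => simp at h
  | cons a l ih =>
    have hu : uni (a :: l) = a ∪ uni l := rfl
    rw [hu]
    rcases List.mem_cons.1 h with h | h
    · rw [h]
      exact Finset.subset_union_left
    · exact (ih h).trans Finset.subset_union_right

private lemma gp_step {α : Type*} [DecidableEq α] {board : Finset α} {m : ℕ} {P : Pos α}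
    (hP : GP m board P) {X : Finset α} (hX : Legal board P.M P.B m X) :
    GP m board ⟨X :: P.mv, P.B⟩ := by
  have hM : (Pos.mk (X :: P.mv) P.B).M = X ∪ P.M := rfl
  have hXd : Disjoint X (P.M ∪ P.B) := by
    rw [Finset.disjoint_left]
    intro e he he'
    exact (Finset.mem_sdiff.1 (hX.1 he)).2 he'
  have hXb : X ⊆ board := fun e he => (Finset.mem_sdiff.1 (hX.1 he)).1
  rw [Finset.disjoint_union_right] at hXd
  refine ⟨?_, ?_, ?_, ?_, hP.subB⟩
  · intro Z hZ
    rcases List.mem_cons.1 hZ with h | h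
    · rw [h, hX.2]
      exact min_le_left _ _
    · exact hP.card Z h
  · refine List.pairwise_cons.2 ⟨?_, hP.pw⟩
    intro Z hZ
    exact Finset.disjoint_of_subset_right (sub_uni hZ) hXd.1
  · rw [hM, Finset.disjoint_union_left]
    exact ⟨hXd.2, hP.dj⟩
  · rw [hM]
    exact Finset.union_subset hXb hP.sub

private lemma gp_reply {α : Type*} [DecidableEq α] {board : Finset α} {m b : ℕ} {P : Pos α}
    (hP : GP m board P) {Y : Finset α} (hY : Legal board P.M P.B b Y) :
    GP m board ⟨P.mv, P.B ∪ Y⟩ := by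
  have hYd : Disjoint P.M Y := by
    rw [Finset.disjoint_right]
    intro e he he'
    exact (Finset.mem_sdiff.1 (hY.1 he)).2 (Finset.mem_union_left _ he')
  have hYb : Y ⊆ board := fun e he => (Finset.mem_sdiff.1 (hY.1 he)).1
  refine ⟨hP.card, hP.pw, ?_, hP.sub, Finset.union_subset hP.subB hYb⟩
  have hM : (Pos.mk P.mv (P.B ∪ Y)).M = P.M := rfl
  rw [hM]
  exact Finset.disjoint_union_right.2 ⟨hP.dj, hYd⟩

theorem play {α : Type*} [DecidableEq α] [Fintype α] {board : Finset α} {m b : ℕ} (hm : 1 ≤ m)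
    {W : Finset α → Prop} (fam : Pos α → Finset α → ℝ) (hfam0 : ∀ P S, 0 ≤ fam P S) {δ : ℝ}
    (hfam : ∀ P, ∑ S : Finset α, fam P S ≤ δ) :
    ∀ (n : ℕ) (P : Pos α) (v : Finset α → ℝ) (C : ℝ), GP m board P → (∀ S, 0 ≤ v S) →
      (∀ X, Legal board P.M P.B m X →
        ∑ S : Finset α, v S * (1 + (b : ℝ) / m * ((S ∩ X).card : ℝ)) ≤ C) →
      Forces W board m b n P.M P.B →
      ∃ (Ps : ℕ → Pos α) (vs : ℕ → Finset α → ℝ) (Bf : Finset α),
        Ps 0 = P ∧ vs 0 = v ∧ W (Ps n).M ∧ Disjoint (Ps n).M Bf ∧ (Ps n).B ⊆ Bf ∧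
        (∀ t ≤ n, GP m board (Ps t)) ∧
        (∀ t ≤ n, ∀ S, 0 ≤ vs t S) ∧
        (∀ t, 1 ≤ t → t ≤ n → ∑ S : Finset α, vs t S ≤ C + t * δ) ∧
        (∀ t < n, ∃ X : Finset α, X.card ≤ m ∧ (Ps (t + 1)).mv = X :: (Ps t).mv ∧
          (Ps t).B ⊆ (Ps (t + 1)).B ∧
          (∀ S, Disjoint S (Ps (t + 1)).B →
            vs t S * (1 + (b : ℝ) / m * ((S ∩ X).card : ℝ)) + fam (Ps (t + 1)) S ≤
              vs (t + 1) S)) := by
  intro n
  induction n with
  | zero =>
    intro P v C hP hv _ hF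
    refine ⟨fun _ => P, fun _ => v, P.B, rfl, rfl, hF, hP.dj, Finset.Subset.refl _,
      fun _ _ => hP, fun _ _ => hv, ?_, ?_⟩
    · intro t h1 h2
      omega
    · intro t ht
      omega
  | succ n ih =>
    intro P v C hP hv hC hF
    obtain ⟨X, hX, hF⟩ := hF
    obtain ⟨P1, hP1⟩ : ∃ P1 : Pos α, P1 = ⟨X :: P.mv, P.B⟩ := ⟨_, rfl⟩
    have hG1 : GP m board P1 := by
      rw [hP1]
      exact gp_step hP hX
    have hM1 : P1.M = P.M ∪ X := by
      rw [hP1, Finset.union_comm]
      rfl
    have hB1 : P1.B = P.B := by rw [hP1]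
    have hmv1 : P1.mv = X :: P.mv := by rw [hP1]
    obtain ⟨v1, hv1⟩ : ∃ v1 : Finset α → ℝ, ∀ S, v1 S =
        v S * (1 + (b : ℝ) / m * ((S ∩ X).card : ℝ)) + fam P1 S := ⟨_, fun S => rfl⟩
    have hv10 : ∀ S, 0 ≤ v1 S := by
      intro S
      rw [hv1]
      have h1 : 0 ≤ 1 + (b : ℝ) / m * ((S ∩ X).card : ℝ) := by positivity
      exact add_nonneg (mul_nonneg (hv S) h1) (hfam0 _ _)
    have hv1s : ∑ S : Finset α, v1 S ≤ C + δ := by
      simp only [hv1]
      rw [Finset.sum_add_distrib]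
      exact add_le_add (hC X hX) (hfam P1)
    obtain ⟨Y, hY, hgr⟩ := greedy_step board P1.M P1.B b hm v1 hv10
    obtain ⟨P2, hP2⟩ : ∃ P2 : Pos α, P2 = ⟨P1.mv, P1.B ∪ Y⟩ := ⟨_, rfl⟩
    have hG2 : GP m board P2 := by
      rw [hP2]
      exact gp_reply hG1 hY
    have hM2 : P2.M = P1.M := by rw [hP2]; rfl
    have hB2 : P2.B = P1.B ∪ Y := by rw [hP2]
    have hmv2 : P2.mv = P1.mv := by rw [hP2]
    obtain ⟨v2, hv2⟩ : ∃ v2 : Finset α → ℝ, ∀ S, v2 S = if Disjoint S Y then v1 S else 0 :=
      ⟨_, fun S => rfl⟩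
    have hv20 : ∀ S, 0 ≤ v2 S := by
      intro S
      rw [hv2]
      split_ifs
      · exact hv10 S
      · exact le_refl _
    obtain ⟨Ps', vs', Bf, h0, h0', hW, hdj, hsub, hGP, hnn, hsum, hstep⟩ := ih P2 v2 (C + δ) hG2 hv20
      (by
        intro X' hX'
        rw [hM2, hB2] at hX'
        have h1 := hgr X' hX'
        simp only [hv2]
        exact h1.trans hv1s)
      (by
        rw [hM2, hB2, hM1, hB1]
        rw [hM1, hB1] at hY
        exact hF Y hY)
    -- the sequences
    obtain ⟨Ps, hPs0, hPs1, hPs2⟩ : ∃ Ps : ℕ → Pos α, Ps 0 = P ∧ Ps 1 = P1 ∧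
        ∀ t, Ps (t + 2) = Ps' (t + 1) :=
      ⟨fun t => match t with
        | 0 => P
        | 1 => P1
        | t + 2 => Ps' (t + 1), rfl, rfl, fun t => rfl⟩
    obtain ⟨vs, hvs0, hvs1, hvs2⟩ : ∃ vs : ℕ → Finset α → ℝ, vs 0 = v ∧ vs 1 = v1 ∧
        ∀ t, vs (t + 2) = vs' (t + 1) :=
      ⟨fun t => match t with
        | 0 => v
        | 1 => v1
        | t + 2 => vs' (t + 1), rfl, rfl, fun t => rfl⟩
    have hmv : ∀ t, (Ps (t + 1)).mv = (Ps' t).mv := by
      intro t
      cases t with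
      | zero => rw [hPs1, h0, hmv2]
      | succ t => rw [hPs2]
    have hB : ∀ t, (Ps (t + 1)).B ⊆ (Ps' t).B := by
      intro t
      cases t with
      | zero =>
        rw [hPs1, h0, hB2]
        exact Finset.subset_union_left
      | succ t => rw [hPs2]
    have hM : ∀ t, (Ps (t + 1)).M = (Ps' t).M := by
      intro t
      unfold Pos.M
      rw [hmv]
    refine ⟨Ps, vs, Bf, hPs0, hvs0, ?_, ?_, ?_, ?_, ?_, ?_, ?_⟩
    · rw [hM]
      exact hW
    · rw [hM]
      exact hdj
    · exact (hB n).trans hsub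
    · intro t ht
      rcases t with _ | _ | t
      · rw [hPs0]
        exact hP
      · rw [hPs1]
        exact hG1
      · rw [hPs2]
        exact hGP _ (by omega)
    · intro t ht
      rcases t with _ | _ | t
      · rw [hvs0]
        exact hv
      · rw [hvs1]
        exact hv10
      · rw [hvs2]
        exact hnn _ (by omega)
    · intro t h1 h2
      rcases t with _ | _ | t
      · omega
      · rw [hvs1]
        push_cast
        linarith
      · rw [hvs2]
        have h3 := hsum (t + 1) (by omega) (by omega)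
        push_cast at h3 ⊢
        linarith
    · intro t ht
      rcases t with _ | _ | t
      · refine ⟨X, ?_, ?_, ?_, ?_⟩
        · rw [hX.2]
          exact min_le_left _ _
        · rw [hPs1, hPs0, hmv1]
        · rw [hPs1, hPs0, hB1]
        · intro S _
          rw [hPs1, hvs1, hvs0, hv1]
      · obtain ⟨X', hc, hm', hb, hi⟩ := hstep 0 (by omega)
        rw [h0] at hm' hb
        refine ⟨X', hc, ?_, ?_, ?_⟩
        · rw [hPs2, hPs1, hm', hmv2]
        · rw [hPs2, hPs1]
          refine Finset.Subset.trans ?_ hb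
          rw [hB2]
          exact Finset.subset_union_left
        · intro S hS
          rw [hPs2] at hS ⊢
          rw [hvs1, hvs2]
          have h1 := hi S hS
          have h2 : Disjoint S Y := by
            refine Finset.disjoint_of_subset_right ?_ hS
            refine Finset.Subset.trans ?_ hb
            rw [hB2]
            exact Finset.subset_union_right
          rw [h0', hv2, if_pos h2] at h1
          exact h1
      · obtain ⟨X', hc, hm', hb, hi⟩ := hstep (t + 1) (by omega)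
        refine ⟨X', hc, ?_, ?_, ?_⟩
        · rw [hPs2, hPs2, hm']
        · rw [hPs2, hPs2]
          exact hb
        · intro S hS
          rw [hPs2] at hS ⊢
          rw [hvs2, hvs2]
          exact hi S hS

end Pool.Agent.Helper5.CV
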