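import Mathlib
import Pool.Agent.Helper5.CV.Defs
import Pool.Agent.Helper5.CV.Play

/-!
# MP_d32cb0_co, module G03: the two potential bounds

PROOF.  `play` with `P = ⟨[], ∅⟩`, `v = w0`, `C = (1 + b) Σ w0` (the hypothesis on `v`: `|S ∩ X| ≤ m`, so the factor is
`≤ 1 + b`).  `Ps` is the sequence.  By induction on `t ≤ n`: for every `S` disjoint from `(Ps t).B`:
`w0 S * gain m b (Ps t).mv S ≤ vs t S` (use `(Ps t).B ⊆ (Ps (t+1)).B`, `gain (X :: l) S = (1 + …) gain l S`,
`fam ≥ 0`).  So `pot m b w0 (Ps t) ≤ Σ_S vs t S ≤ C + tδ ≤ C + nδ`.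
In the same way for `t ≥ 1`, `s ≥ t`, `(Ps s).mv = l ++ (Ps t).mv` and `S` disjoint from `(Ps s).B`:
`fam (Ps t) S * gain m b l S ≤ vs s S` (induction on `s`; for `s = t`: `l = []` and `fam (Ps t) S ≤ vs t S`, from the step
`t-1 → t`, for which `S` must be disjoint from `(Ps t).B`).
At `s = n`: a set disjoint from `Bf` is disjoint from `(Ps n).B`.  `δ ≥ 0` follows from `hfam0`, `hfam`.
-/

set_option autoImplicit false

namespace Pool.Agent.Helper5.CV

open Finset Pool.Agent.Helper25.CliqueGame
open Pool.Agent.Helper78.CG (EI)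

theorem pots_gain_nil {α : Type*} [DecidableEq α] (m b : ℕ) (S : Finset α) :
    gain m b [] S = 1 := by simp [gain]

theorem pots_gain_cons {α : Type*} [DecidableEq α] (m b : ℕ) (X : Finset α) (l : List (Finset α))
    (S : Finset α) :
    gain m b (X :: l) S = (1 + (b : ℝ) / m * ((S ∩ X).card : ℝ)) * gain m b l S := by
  simp [gain]

theorem potentials {α : Type*} [DecidableEq α] [Fintype α] {board : Finset α} {m b n : ℕ}
    (hm : 1 ≤ m) {W : Finset α → Prop} (hF : Forces W board m b n ∅ ∅)
    (w0 : Finset α → ℝ) (hw0 : ∀ S, 0 ≤ w0 S)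
    (fam : Pos α → Finset α → ℝ) (hfam0 : ∀ P S, 0 ≤ fam P S) {δ : ℝ}
    (hfam : ∀ P, ∑ S : Finset α, fam P S ≤ δ) :
    ∃ (Ps : ℕ → Pos α) (Bf : Finset α),
      Ps 0 = ⟨[], ∅⟩ ∧ W (Ps n).M ∧ Disjoint (Ps n).M Bf ∧
      (∀ t ≤ n, GP m board (Ps t) ∧ (Ps t).B ⊆ Bf) ∧
      (∀ t < n, ∃ X : Finset α, X.card ≤ m ∧ (Ps (t + 1)).mv = X :: (Ps t).mv) ∧
      (∀ t, 1 ≤ t → t ≤ n → pot m b w0 (Ps t) ≤ (1 + b) * ∑ S : Finset α, w0 S + n * δ) ∧
      (∀ t, 1 ≤ t → t ≤ n → ∀ l : List (Finset α), (Ps n).mv = l ++ (Ps t).mv →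
        ∑ S ∈ univ.filter (fun S : Finset α => Disjoint S Bf), fam (Ps t) S * gain m b l S ≤
          (1 + b) * ∑ S : Finset α, w0 S + n * δ) := by
  have hδ : 0 ≤ δ := le_trans (Finset.sum_nonneg (fun S _ => hfam0 ⟨[], ∅⟩ S)) (hfam ⟨[], ∅⟩)
  have hm0 : (0 : ℝ) < m := by exact_mod_cast hm
  have hGP : GP m board (⟨[], ∅⟩ : Pos α) := by
    refine ⟨?_, ?_, ?_, ?_, ?_⟩
    · intro X hX
      simp at hX
    · exact List.Pairwise.nil
    · exact Finset.disjoint_empty_right _
    · simp [Pos.M, uni]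
    · exact Finset.empty_subset _
  have hfac : ∀ (S X : Finset α), (0 : ℝ) ≤ 1 + (b : ℝ) / m * ((S ∩ X).card : ℝ) := by
    intro S X
    positivity
  obtain ⟨Ps, vs, Bf, h0, hv0, hWn, hdj, hBn, hgp, hpos, hsum, hstep⟩ :=
    play hm (W := W) fam hfam0 hfam n ⟨[], ∅⟩ w0 ((1 + b) * ∑ S : Finset α, w0 S) hGP hw0
      (by
        intro X hX
        have hXc : X.card ≤ m := by rw [hX.2]; exact min_le_left _ _
        rw [Finset.mul_sum]
        refine Finset.sum_le_sum (fun S _ => ?_)
        have h1 : ((S ∩ X).card : ℝ) ≤ m := by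
          exact_mod_cast le_trans (Finset.card_le_card Finset.inter_subset_right) hXc
        have h2 : (b : ℝ) / m * ((S ∩ X).card : ℝ) ≤ b := by
          calc (b : ℝ) / m * ((S ∩ X).card : ℝ) ≤ (b : ℝ) / m * m :=
                mul_le_mul_of_nonneg_left h1 (by positivity)
            _ = b := by field_simp
        calc w0 S * (1 + (b : ℝ) / m * ((S ∩ X).card : ℝ)) ≤ w0 S * (1 + b) :=
              mul_le_mul_of_nonneg_left (by linarith) (hw0 S)
          _ = (1 + b) * w0 S := mul_comm _ _)
      hF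
  have hmono : ∀ s ≤ n, ∀ t ≤ s, (Ps t).B ⊆ (Ps s).B := by
    intro s
    induction s with
    | zero =>
      intro _ t ht
      obtain rfl : t = 0 := by omega
      exact Finset.Subset.refl _
    | succ s ih =>
      intro hs t ht
      rcases Nat.lt_or_ge t (s + 1) with h | h
      · obtain ⟨X, _, _, hB, _⟩ := hstep s (by omega)
        exact (ih (by omega) t (by omega)).trans hB
      · obtain rfl : t = s + 1 := by omega
        exact Finset.Subset.refl _
  have hlen : ∀ t ≤ n, (Ps t).mv.length = t := by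
    intro t
    induction t with
    | zero => intro _; rw [h0]; rfl
    | succ t ih =>
      intro ht
      obtain ⟨X, _, hmv, _, _⟩ := hstep t (by omega)
      rw [hmv, List.length_cons, ih (by omega)]
  have hA : ∀ t ≤ n, ∀ S, Disjoint S (Ps t).B → w0 S * gain m b (Ps t).mv S ≤ vs t S := by
    intro t
    induction t with
    | zero =>
      intro _ S _
      rw [h0, hv0, pots_gain_nil, mul_one]
    | succ t ih =>
      intro ht S hS
      obtain ⟨X, _, hmv, hB, hst⟩ := hstep t (by omega)
      have h1 := ih (by omega) S (Finset.disjoint_of_subset_right hB hS)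
      have h2 := hst S hS
      rw [hmv, pots_gain_cons]
      have h3 := hfam0 (Ps (t + 1)) S
      calc w0 S * ((1 + (b : ℝ) / m * ((S ∩ X).card : ℝ)) * gain m b (Ps t).mv S)
          = (w0 S * gain m b (Ps t).mv S) * (1 + (b : ℝ) / m * ((S ∩ X).card : ℝ)) := by ring
        _ ≤ vs t S * (1 + (b : ℝ) / m * ((S ∩ X).card : ℝ)) :=
            mul_le_mul_of_nonneg_right h1 (hfac S X)
        _ ≤ vs (t + 1) S := by linarith
  have hB : ∀ t, 1 ≤ t → ∀ s ≤ n, t ≤ s → ∀ l : List (Finset α), (Ps s).mv = l ++ (Ps t).mv →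
      ∀ S, Disjoint S (Ps s).B → fam (Ps t) S * gain m b l S ≤ vs s S := by
    intro t ht s
    induction s with
    | zero => intro _ h; omega
    | succ s ih =>
      intro hs hts l hl S hS
      obtain ⟨X, _, hmv, hBs, hst⟩ := hstep s (by omega)
      have h2 := hst S hS
      rcases Nat.lt_or_ge t (s + 1) with h | h
      · -- `t ≤ s`
        cases l with
        | nil =>
          exfalso
          have h3 := congrArg List.length hl
          rw [List.nil_append, hlen _ hs, hlen t (by omega)] at h3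
          omega
        | cons Y l' =>
          rw [hmv, List.cons_append, List.cons.injEq] at hl
          obtain ⟨hXY, hl'⟩ := hl
          subst hXY
          have h1 := ih (by omega) (by omega) l' hl' S (Finset.disjoint_of_subset_right hBs hS)
          have h3 := hfam0 (Ps (s + 1)) S
          rw [pots_gain_cons]
          calc fam (Ps t) S * ((1 + (b : ℝ) / m * ((S ∩ X).card : ℝ)) * gain m b l' S)
              = (fam (Ps t) S * gain m b l' S) * (1 + (b : ℝ) / m * ((S ∩ X).card : ℝ)) := by ring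
            _ ≤ vs s S * (1 + (b : ℝ) / m * ((S ∩ X).card : ℝ)) :=
                mul_le_mul_of_nonneg_right h1 (hfac S X)
            _ ≤ vs (s + 1) S := by linarith
      · obtain rfl : t = s + 1 := by omega
        have hl0 : l = [] := by
          have h3 := congrArg List.length hl
          rw [List.length_append] at h3
          exact List.eq_nil_of_length_eq_zero (by omega)
        rw [hl0, pots_gain_nil, mul_one]
        have h3 := mul_nonneg (hpos s (by omega) S) (hfac S X)
        linarith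
  have hsum' : ∀ t, 1 ≤ t → t ≤ n → ∑ S : Finset α, vs t S ≤
      (1 + b) * ∑ S : Finset α, w0 S + n * δ := by
    intro t ht htn
    refine (hsum t ht htn).trans ?_
    have h4 : (t : ℝ) * δ ≤ n * δ := mul_le_mul_of_nonneg_right (by exact_mod_cast htn) hδ
    linarith
  refine ⟨Ps, Bf, h0, hWn, hdj, fun t ht => ⟨hgp t ht, (hmono n le_rfl t ht).trans hBn⟩,
    fun t ht => ?_, fun t ht htn => ?_, fun t ht htn l hl => ?_⟩
  · obtain ⟨X, hX, hmv, _, _⟩ := hstep t ht
    exact ⟨X, hX, hmv⟩
  · refine le_trans ?_ (hsum' t ht htn)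
    unfold pot
    calc ∑ S ∈ univ.filter (fun S : Finset α => Disjoint S (Ps t).B), w0 S * gain m b (Ps t).mv S
        ≤ ∑ S ∈ univ.filter (fun S : Finset α => Disjoint S (Ps t).B), vs t S := by
          refine Finset.sum_le_sum (fun S hS => ?_)
          exact hA t htn S (Finset.mem_filter.1 hS).2
      _ ≤ ∑ S : Finset α, vs t S :=
          Finset.sum_le_sum_of_subset_of_nonneg (Finset.filter_subset _ _)
            (fun S _ _ => hpos t htn S)
  · have hn1 : 1 ≤ n := le_trans ht htn
    refine le_trans ?_ (hsum' n hn1 le_rfl)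
    calc ∑ S ∈ univ.filter (fun S : Finset α => Disjoint S Bf), fam (Ps t) S * gain m b l S
        ≤ ∑ S ∈ univ.filter (fun S : Finset α => Disjoint S Bf), vs n S := by
          refine Finset.sum_le_sum (fun S hS => ?_)
          exact hB t ht n le_rfl htn l hl S
            (Finset.disjoint_of_subset_right hBn (Finset.mem_filter.1 hS).2)
      _ ≤ ∑ S : Finset α, vs n S :=
          Finset.sum_le_sum_of_subset_of_nonneg (Finset.filter_subset _ _)
            (fun S _ _ => hpos n le_rfl S)

end Pool.Agent.Helper5.CV
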