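import Mathlib
import Pool.Agent.Helper5.CV.Defs
import Pool.Agent.Helper34.GC.Cmp
import Pool.Agent.Helper34.GC.Corner
import Pool.Agent.Helper78.CG.Final

/-!
# MP_d32cb0_co: final assembly (from the upper bound and the mixture lower bound)
-/

set_option autoImplicit false

namespace Pool.Agent.Helper5.CV

open Filter Topology Pool.Agent.Helper25.CliqueGame
open Pool.Agent.Helper34.GC (low cst_anti cst_mono low_le_cst)
open Pool.Agent.Helper78.CG (value_lower_random ev_small tendsto_log_nat)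

/-- The landed lower bounds in terms of `low`. -/
theorem value_lower_low {m b : ℕ} (hm : 1 ≤ m) (hb : 1 ≤ b) {ε : ℝ} (hε : 0 < ε) :
    ∀ᶠ N : ℕ in atTop, (low m b - ε) * Real.log N ≤ value N m b := by
  have hm0 : (0 : ℝ) < m := by exact_mod_cast hm
  have hb0 : (0 : ℝ) < b := by exact_mod_cast hb
  obtain ⟨C1, hC1⟩ := value_lower_random hm hb
  obtain ⟨C2, hC2⟩ := value_lower hm hb
  have h1 : lam m b 1 = Real.log (1 + (b : ℝ) / m) := by
    unfold lam; norm_num
  have h2 : lam m b m = Real.log ((b : ℝ) + 1) := by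
    unfold lam
    congr 1
    field_simp
    ring
  have hl1 : 0 < Real.log (1 + (b : ℝ) / m) :=
    Real.log_pos (by have := div_pos hb0 hm0; linarith)
  have hl2 : 0 < Real.log ((b : ℝ) + 1) := Real.log_pos (by linarith)
  filter_upwards [hC1, ev_small hε (10 / Real.log (1 + (b : ℝ) / m)) C1,
    ev_small hε 0 C2, tendsto_log_nat.eventually_gt_atTop 0, eventually_ge_atTop 1]
    with N a1 a2 a3 a4 a5
  have b2 := hC2 N a5
  unfold Pool.Agent.Helper34.GC.low
  rcases max_cases (2 / lam m b 1) ((m : ℝ) / lam m b m) with h | h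
  · rw [h.1, h1]
    unfold Real.logb at a1
    have e1 : 2 / Real.log (1 + (b : ℝ) / m) * Real.log N =
        2 * (Real.log N / Real.log (1 + (b : ℝ) / m)) := by ring
    have e2 : 10 / Real.log (1 + (b : ℝ) / m) * Real.log (Real.log N) =
        10 * (Real.log (Real.log N) / Real.log (1 + (b : ℝ) / m)) := by ring
    rw [e2] at a2
    rw [sub_mul, e1]
    linarith
  · rw [h.1, h2]
    unfold Real.logb at b2
    have e1 : (m : ℝ) / Real.log ((b : ℝ) + 1) * Real.log N =
        m * (Real.log N / Real.log ((b : ℝ) + 1)) := by ring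
    rw [sub_mul, e1]
    linarith

/-- The lower bound in general, from the mixture lower bound. -/
theorem value_lower_cst {m b : ℕ} (hm : 1 ≤ m) (hb : 1 ≤ b)
    (LB : 2 ≤ m → Sst m b ≤ Qst m b → (m : ℝ) / lam m b m ≤ Qst m b → ∀ ε : ℝ, 0 < ε →
      ∀ᶠ N : ℕ in atTop, (Qst m b - ε) * Real.log N ≤ value N m b)
    {ε : ℝ} (hε : 0 < ε) :
    ∀ᶠ N : ℕ in atTop, (cst m b - ε) * Real.log N ≤ value N m b := by
  have hlow : cst m b ≤ low m b →
      ∀ᶠ N : ℕ in atTop, (cst m b - ε) * Real.log N ≤ value N m b := by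
    intro h
    filter_upwards [value_lower_low hm hb hε, tendsto_log_nat.eventually_gt_atTop 0] with N h1 h2
    refine le_trans (mul_le_mul_of_nonneg_right ?_ h2.le) h1
    linarith
  rcases Pool.Agent.Helper34.GC.cst_cases m b with h | ⟨h1, h2, h3⟩
  · exact hlow h
  · rcases Nat.lt_or_ge m 2 with hm2 | hm2
    · have hm1 : m = 1 := by omega
      subst hm1
      apply hlow
      rw [h3]
      unfold Pool.Agent.Helper34.GC.low
      refine le_trans (le_of_eq ?_) (le_max_left _ _)
      unfold Qst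
      norm_num
    · rw [h3]
      exact LB hm2 h1 h2 ε hε

/-- The asymptotics and question Q1 from the two bounds. -/
theorem final_of_bounds
    (UB : ∀ m b : ℕ, 1 ≤ m → 1 ≤ b → ∀ ε : ℝ, 0 < ε →
      ∀ᶠ N : ℕ in atTop, (value N m b : ℝ) < (cst m b + ε) * Real.log N)
    (LB : ∀ m b : ℕ, 1 ≤ m → 1 ≤ b → ∀ ε : ℝ, 0 < ε →
      ∀ᶠ N : ℕ in atTop, (cst m b - ε) * Real.log N ≤ value N m b) :
    (∀ m b : ℕ, 1 ≤ m → 1 ≤ b →
      Tendsto (fun N : ℕ => (value N m b : ℝ) / Real.log N) atTop (𝓝 (cst m b))) ∧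
    (∀ m b : ℕ, 1 ≤ m → 1 ≤ b →
      (∃ N0 : ℕ, ∀ N : ℕ, N0 ≤ N → value N m (b + 1) < value N m b ∧
        value N m b < value N (m + 1) b) ∧
      Tendsto (fun N : ℕ => (value N m b : ℝ) - value N m (b + 1)) atTop atTop ∧
      Tendsto (fun N : ℕ => (value N (m + 1) b : ℝ) - value N m b) atTop atTop) := by
  have hpos : ∀ᶠ N : ℕ in atTop, 0 < Real.log (N : ℝ) := tendsto_log_nat.eventually_gt_atTop 0
  have gap : ∀ m b m' b' : ℕ, 1 ≤ m → 1 ≤ b → 1 ≤ m' → 1 ≤ b' → cst m b < cst m' b' →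
      (∃ N0 : ℕ, ∀ N : ℕ, N0 ≤ N → value N m b < value N m' b') ∧
      Tendsto (fun N : ℕ => (value N m' b' : ℝ) - value N m b) atTop atTop := by
    intro m b m' b' hm hb hm' hb' h
    have hev : ∀ᶠ N : ℕ in atTop, (value N m b : ℝ) +
        (cst m' b' - cst m b) / 2 * Real.log N ≤ value N m' b' := by
      filter_upwards [UB m b hm hb ((cst m' b' - cst m b) / 4) (by linarith),
        LB m' b' hm' hb' ((cst m' b' - cst m b) / 4) (by linarith), hpos] with N h1 h2 h3
      nlinarith
    constructor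
    · apply eventually_atTop.1
      filter_upwards [hev, hpos] with N h1 h2
      have : (value N m b : ℝ) < value N m' b' := by
        have := mul_pos (show 0 < (cst m' b' - cst m b) / 2 by linarith) h2
        linarith
      exact_mod_cast this
    · refine tendsto_atTop_mono' _ ?_
        (tendsto_log_nat.const_mul_atTop (show 0 < (cst m' b' - cst m b) / 2 by linarith))
      filter_upwards [hev] with N h1
      linarith
  constructor
  · intro m b hm hb
    rw [Metric.tendsto_atTop']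
    intro ε hε
    have := (UB m b hm hb (ε / 2) (by linarith)).and ((LB m b hm hb (ε / 2) (by linarith)).and hpos)
    obtain ⟨N0, hN0⟩ := eventually_atTop.1 this
    refine ⟨N0, fun N hN => ?_⟩
    obtain ⟨h1, h2, h3⟩ := hN0 N hN.le
    rw [Real.dist_eq, abs_lt]
    constructor
    · rw [lt_sub_iff_add_lt, lt_div_iff₀ h3]
      nlinarith
    · rw [sub_lt_iff_lt_add, div_lt_iff₀ h3]
      nlinarith
  · intro m b hm hb
    obtain ⟨⟨N1, h1⟩, h1t⟩ := gap m (b + 1) m b hm (by omega) hm hb (cst_anti hm hb)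
    obtain ⟨⟨N2, h2⟩, h2t⟩ := gap m b (m + 1) b hm hb (by omega) hb (cst_mono hm hb)
    exact ⟨⟨max N1 N2, fun N hN => ⟨h1 N ((le_max_left _ _).trans hN),
      h2 N ((le_max_right _ _).trans hN)⟩⟩, h1t, h2t⟩

end Pool.Agent.Helper5.CV
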