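import Mathlib
import Pool.Agent.Helper5.CV.Defs
import Pool.Agent.Helper5.CV.NN
import Pool.Agent.Helper5.CV.PinL

/-!
# MP_d32cb0_co, module P11: the root

`N = card V`, `L = log N`.  `𝒜` nonempty, all members have `q` elements.
PROOF.  Consider the pairs `(w, ℱ)` with `ℱ` nonempty, `∀ B ∈ ℱ, Disjoint w B ∧ w ∪ B ∈ 𝒜` and `log|𝒜| - ζ L |w| ≤ log|ℱ|`.  `(∅, 𝒜)` is
one; `|w| ≤ q` always.  Take one with `|w|` maximal.  `s = q - |w|` is the size of the members of `ℱ`;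
`|ℱ| ≤ N^s` (subsets of size `s`), so `s L ≥ log|𝒜| - ζ L q ≥ (2K0+3) L` by `hbig`, hence `s ≥ 2K0+3` (`L > 0`).
`pin` for `ℱ`: `W`; `ρ = w ∪ W`, `ℬ = lk ℱ W`.  `B ∈ ℬ`: `W ∪ B ∈ ℱ` disjoint from `W`, so `ρ` disjoint from `B`, `ρ ∪ B ∈ 𝒜`.
`|ℬ| = nn ℱ W ≥ |ℱ|/(4N^{2K0})`: the bound for `log|ℬ|`.  Bad pairs: `pin`, with `eps1 … s … ≤ eps1 … q …` and `s² ≤ q²`.
Common vertices: let `D = {v : p2|ℬ| ≤ nn ℬ {v}}`; `|D| p2 |ℬ| ≤ Σ nn ℬ {v} ≤ q |ℬ|`, so `|D| ≤ q/p2`.  Suppose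
`Σ_B |B ∩ D| > ηD q |ℬ|`.  The number of `B` with `|B ∩ D| ≥ ηD q/2` is `≥ (ηD/2)|ℬ|` (`|B∩D| ≤ q`).  The possible
`X = B ∩ D` are subsets of `D` with at most `q` elements: at most `(|D|+1)^q ≤ (q/p2+1)^q`.  So for some `X ⊆ D`, `|X| ≥ ηD q/2`,
the family `ℱ' = {B \ X : B ∈ ℬ, B ∩ D = X}` has `≥ (ηD/2)|ℬ|/(q/p2+1)^q` members.  `w' = ρ ∪ X`, `|w'| ≥ |w| + |X| ≥ |w| + ηD q/2`
(W is disjoint from w; X disjoint from ρ).  By `hloss`
`log|ℱ'| ≥ log|𝒜| - ζL|w| - ζL ηD q/2 ≥ log|𝒜| - ζL|w'|`, contradicting the maximality (`|X| ≥ ηD q/2 > 0`).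
-/

set_option autoImplicit false

namespace Pool.Agent.Helper5.CV

open Finset

variable {V : Type*} [DecidableEq V]

/-- The number of subsets of `D` with at most `q` elements. -/
private theorem card_small_subsets (D : Finset V) (q : ℕ) :
    ((range (q + 1)).biUnion (fun j => powersetCard j D)).card ≤ (D.card + 1) ^ q := by
  refine card_biUnion_le.trans ?_
  rw [add_pow]
  apply Finset.sum_le_sum
  intro j hj
  have hj' : j ≤ q := by
    have := Finset.mem_range.mp hj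
    omega
  rw [Finset.card_powersetCard, one_pow, mul_one]
  have h1 : 1 ≤ q.choose j := Nat.choose_pos hj'
  have h2 : D.card.choose j ≤ D.card ^ j := Nat.choose_le_pow D.card j
  calc D.card.choose j ≤ D.card ^ j := h2
    _ = D.card ^ j * 1 := (mul_one _).symm
    _ ≤ D.card ^ j * q.choose j := Nat.mul_le_mul_left _ h1

private theorem eps1_mono {L : ℝ} (hL : 0 ≤ L) {m s q K0 : ℕ} (hsq : s ≤ q) (T : Thr)
    (hlog : 0 < Real.log (T.p0 / T.p1)) (hF : 0 < T.F) (hp2 : 0 < T.p2)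
    {R0 : ℝ} (hR : 0 < R0) : eps1 L m s K0 T R0 ≤ eps1 L m q K0 T R0 := by
  unfold eps1
  have h1 : (s : ℝ) ≤ q := by exact_mod_cast hsq
  have h0 : (0 : ℝ) ≤ s := Nat.cast_nonneg s
  have hK : (0 : ℝ) ≤ 2 * L / K0 + 3 := by positivity
  have h2 : (s * (2 * L / K0 + 3) / Real.log (T.p0 / T.p1) + 1) / R0 ≤
      (q * (2 * L / K0 + 3) / Real.log (T.p0 / T.p1) + 1) / R0 := by
    apply div_le_div_of_nonneg_right _ hR.le
    have h3 : s * (2 * L / K0 + 3) / Real.log (T.p0 / T.p1) ≤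
        q * (2 * L / K0 + 3) / Real.log (T.p0 / T.p1) := by
      apply div_le_div_of_nonneg_right _ hlog.le
      exact mul_le_mul_of_nonneg_right h1 hK
    linarith
  have h4 : 2 * (T.F * T.p2 / T.p1 ^ 2 * (s : ℝ) ^ 3) ≤
      2 * (T.F * T.p2 / T.p1 ^ 2 * (q : ℝ) ^ 3) := by
    have h5 : (s : ℝ) ^ 3 ≤ (q : ℝ) ^ 3 := pow_le_pow_left₀ h0 h1 3
    have h6 : (0 : ℝ) ≤ T.F * T.p2 / T.p1 ^ 2 := by positivity
    have h7 := mul_le_mul_of_nonneg_left h5 h6
    linarith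
  linarith

theorem root_exists [Fintype V] {𝒜 : Finset (Finset V)} {q m K0 : ℕ} (hne : 𝒜.Nonempty)
    (hq : 1 ≤ q) (hs : ∀ A ∈ 𝒜, A.card = q) (hV : 2 ≤ Fintype.card V) (tn : Sym2 V → ℕ)
    (hm : ∀ t, 2 ≤ t → (univ.filter (fun e : Sym2 V => tn e = t)).card ≤ m)
    (T : Thr) (hF : 1 < T.F) (hp1 : 0 < T.p1) (h01 : T.p1 < T.p0) (hp2 : 0 < T.p2)
    {R0 : ℝ} (hR : 1 ≤ R0) (hK : 1 ≤ K0) {ζ ηD : ℝ} (hζ : 0 < ζ) (hη : 0 < ηD)
    (hbig : (ζ * q + (2 * K0 + 3)) * Real.log (Fintype.card V) ≤ Real.log 𝒜.card)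
    (hloss : Real.log 4 + 2 * K0 * Real.log (Fintype.card V) + Real.log (2 / ηD) +
      q * Real.log (q / T.p2 + 1) ≤ ζ * Real.log (Fintype.card V) * (ηD * q / 2)) :
    ∃ (ρ : Finset V) (ℬ : Finset (Finset V)), ℬ.Nonempty ∧
      (∀ B ∈ ℬ, Disjoint ρ B ∧ ρ ∪ B ∈ 𝒜) ∧
      Real.log 𝒜.card - ζ * q * Real.log (Fintype.card V) - Real.log 4 -
        2 * K0 * Real.log (Fintype.card V) ≤ Real.log ℬ.card ∧
      ((∑ B ∈ ℬ, (B.filter (fun v => T.p2 * ℬ.card ≤ (nn ℬ {v} : ℝ))).card : ℕ) : ℝ) ≤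
        ηD * q * ℬ.card ∧
      ((∑ B ∈ ℬ, (badP ℬ tn T B).card : ℕ) : ℝ) ≤
        4 * eps1 (Real.log (Fintype.card V)) m q K0 T R0 * (q : ℝ) ^ 2 * ℬ.card := by
  classical
  set L : ℝ := Real.log (Fintype.card V) with hL
  have hL0 : 0 < L := by
    rw [hL]
    apply Real.log_pos
    have : (2 : ℝ) ≤ (Fintype.card V : ℝ) := by exact_mod_cast hV
    linarith
  have hq0 : (0 : ℝ) < (q : ℝ) := by exact_mod_cast hq
  -- the good sets
  let P : Finset V → Prop := fun w => ∃ ℱ : Finset (Finset V), ℱ.Nonempty ∧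
    (∀ B ∈ ℱ, Disjoint w B ∧ w ∪ B ∈ 𝒜) ∧
    Real.log 𝒜.card - ζ * L * w.card ≤ Real.log ℱ.card
  have hP0 : P ∅ := by
    refine ⟨𝒜, hne, ?_, ?_⟩
    · intro B hB
      exact ⟨Finset.disjoint_empty_left B, by rwa [Finset.empty_union]⟩
    · simp
  have hne' : (univ.filter P).Nonempty := ⟨∅, by simpa using hP0⟩
  obtain ⟨w, hw, hmax⟩ := Finset.exists_max_image (univ.filter P) (fun w => w.card) hne'
  have hmax' : ∀ w', P w' → w'.card ≤ w.card := by
    intro w' hw'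
    exact hmax w' (by simpa using hw')
  obtain ⟨ℱ, hℱne, hℱ, hℱlog⟩ := (Finset.mem_filter.mp hw).2
  -- sizes
  obtain ⟨B0', hB0'⟩ := hℱne
  have hcard : ∀ B ∈ ℱ, w.card + B.card = q := by
    intro B hB
    obtain ⟨h1, h2⟩ := hℱ B hB
    rw [← Finset.card_union_of_disjoint h1]
    exact hs _ h2
  have hwq : w.card ≤ q := by
    have := hcard B0' hB0'
    omega
  set s : ℕ := q - w.card with hsdef
  have hcs : ∀ B ∈ ℱ, B.card = s := by
    intro B hB
    have := hcard B hB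
    omega
  have hsq : s ≤ q := by omega
  have hℱpos : (0 : ℝ) < (ℱ.card : ℝ) := by
    exact_mod_cast Finset.card_pos.mpr ⟨B0', hB0'⟩
  have hℱle : (ℱ.card : ℝ) ≤ (Fintype.card V : ℝ) ^ s := by
    have h1 : ℱ ⊆ powersetCard s univ := by
      intro B hB
      rw [Finset.mem_powersetCard]
      exact ⟨Finset.subset_univ B, hcs B hB⟩
    have h2 := Finset.card_le_card h1
    rw [Finset.card_powersetCard, Finset.card_univ] at h2
    exact_mod_cast h2.trans (Nat.choose_le_pow _ _)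
  have hlogℱ : Real.log ℱ.card ≤ s * L := by
    have h1 := Real.log_le_log hℱpos hℱle
    rwa [Real.log_pow] at h1
  have hwq' : (w.card : ℝ) ≤ q := by exact_mod_cast hwq
  have hζL : 0 < ζ * L := mul_pos hζ hL0
  have hwL : ζ * L * w.card ≤ ζ * L * q := mul_le_mul_of_nonneg_left hwq' hζL.le
  have hKs : 2 * K0 + 3 ≤ s := by
    have h1 : ((2 * K0 + 3 : ℕ) : ℝ) * L ≤ s * L := by
      push_cast
      nlinarith
    have h2 : ((2 * K0 + 3 : ℕ) : ℝ) ≤ (s : ℝ) := le_of_mul_le_mul_right h1 hL0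
    exact_mod_cast h2
  obtain ⟨W, hW1, hW2, hW3, hW4⟩ := pin (ℱ := ℱ) ⟨B0', hB0'⟩ hcs tn hm T hF hp1 h01 hp2 hR hK hKs
  set ℬ := lk ℱ W with hℬ
  have hℬcard : ℬ.card = nn ℱ W := card_lk ℱ W
  have hℬpos' : 0 < ℬ.card := by rw [hℬcard]; exact hW2
  have hℬpos : (0 : ℝ) < (ℬ.card : ℝ) := by exact_mod_cast hℬpos'
  have hℬmem : ∀ B ∈ ℬ, Disjoint W B ∧ W ∪ B ∈ ℱ := fun B hB => mem_lk.mp hB
  have hdw : ∀ B ∈ ℬ, Disjoint w W ∧ Disjoint w B := by
    intro B hB
    have h1 := (hℱ _ (hℬmem B hB).2).1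
    rw [Finset.disjoint_union_right] at h1
    exact h1
  have hρ : ∀ B ∈ ℬ, Disjoint (w ∪ W) B ∧ (w ∪ W) ∪ B ∈ 𝒜 := by
    intro B hB
    refine ⟨?_, ?_⟩
    · rw [Finset.disjoint_union_left]
      exact ⟨(hdw B hB).2, (hℬmem B hB).1⟩
    · rw [Finset.union_assoc]
      exact (hℱ _ (hℬmem B hB).2).2
  have hlog3 : Real.log ℱ.card ≤ Real.log 4 + 2 * K0 * L + Real.log ℬ.card := by
    have hN : (0 : ℝ) < (Fintype.card V : ℝ) := by
      have : (2 : ℝ) ≤ (Fintype.card V : ℝ) := by exact_mod_cast hV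
      linarith
    have h1 := Real.log_le_log hℱpos hW3
    rw [← hℬcard, Real.log_mul (by positivity) hℬpos.ne', Real.log_mul (by norm_num)
      (by positivity), Real.log_pow] at h1
    push_cast at h1
    exact h1
  have hlogB : Real.log 𝒜.card - ζ * L * w.card - Real.log 4 - 2 * K0 * L ≤ Real.log ℬ.card := by
    linarith
  have hℬcs : ∀ B ∈ ℬ, B.card = s - W.card := by
    intro B hB
    have h1 := hcs _ (hℬmem B hB).2
    rw [Finset.card_union_of_disjoint (hℬmem B hB).1] at h1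
    omega
  refine ⟨w ∪ W, ℬ, Finset.card_pos.mp hℬpos', hρ, ?_, ?_, ?_⟩
  · have h1 : ζ * q * L = ζ * L * q := by ring
    rw [h1]
    linarith
  · -- common vertices
    by_contra hcon
    rw [not_le] at hcon
    set D : Finset V := univ.filter (fun v => T.p2 * ℬ.card ≤ (nn ℬ {v} : ℝ)) with hD
    have hfil : ∀ B : Finset V, B.filter (fun v => T.p2 * ℬ.card ≤ (nn ℬ {v} : ℝ)) = B ∩ D := by
      intro B
      ext v
      simp [hD]
    have hcon' : ηD * q * ℬ.card < ∑ B ∈ ℬ, ((B ∩ D).card : ℝ) := by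
      have h1 : ((∑ B ∈ ℬ, (B.filter (fun v => T.p2 * ℬ.card ≤ (nn ℬ {v} : ℝ))).card : ℕ) : ℝ)
          = ∑ B ∈ ℬ, ((B ∩ D).card : ℝ) := by
        rw [Nat.cast_sum]
        exact Finset.sum_congr rfl (fun B _ => by rw [hfil B])
      rw [← h1]
      exact hcon
    -- the size of `D`
    have hDcard : (D.card : ℝ) ≤ q / T.p2 := by
      have h1 : ∑ x : V, nn ℬ {x} = (s - W.card) * ℬ.card := sum_nn_singleton hℬcs
      have h2 : (D.card : ℝ) * (T.p2 * ℬ.card) ≤ ∑ v ∈ D, (nn ℬ {v} : ℝ) := by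
        rw [← nsmul_eq_mul]
        apply Finset.card_nsmul_le_sum
        intro v hv
        exact (Finset.mem_filter.mp hv).2
      have h3 : ∑ v ∈ D, (nn ℬ {v} : ℝ) ≤ ∑ v : V, (nn ℬ {v} : ℝ) :=
        Finset.sum_le_sum_of_subset_of_nonneg (Finset.subset_univ D)
          (fun v _ _ => Nat.cast_nonneg _)
      have h4 : ∑ v : V, (nn ℬ {v} : ℝ) = ((s - W.card : ℕ) : ℝ) * ℬ.card := by
        exact_mod_cast h1
      have h5 : ((s - W.card : ℕ) : ℝ) ≤ q := by
        have : s - W.card ≤ q := by omega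
        exact_mod_cast this
      have h6 : (D.card : ℝ) * T.p2 * ℬ.card ≤ q * ℬ.card := by
        have h7 := mul_le_mul_of_nonneg_right h5 hℬpos.le
        nlinarith
      have h8 : (D.card : ℝ) * T.p2 ≤ q := le_of_mul_le_mul_right h6 hℬpos
      rw [le_div_iff₀ hp2]
      exact h8
    -- many members with a large trace
    set ℬ1 : Finset (Finset V) := ℬ.filter (fun B => ηD * q / 2 ≤ ((B ∩ D).card : ℝ)) with hℬ1
    have hBq : ∀ B ∈ ℬ, ((B ∩ D).card : ℝ) ≤ q := by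
      intro B hB
      have h1 : (B ∩ D).card ≤ B.card := Finset.card_le_card Finset.inter_subset_left
      rw [hℬcs B hB] at h1
      have h2 : (B ∩ D).card ≤ q := by omega
      exact_mod_cast h2
    have hℬ1card : ηD / 2 * ℬ.card ≤ ℬ1.card := by
      have h1 : ∑ B ∈ ℬ, ((B ∩ D).card : ℝ) ≤
          ∑ B ∈ ℬ, ((if ηD * q / 2 ≤ ((B ∩ D).card : ℝ) then (q : ℝ) else 0) + ηD * q / 2) := by
        apply Finset.sum_le_sum
        intro B hB
        by_cases h : ηD * q / 2 ≤ ((B ∩ D).card : ℝ)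
        · rw [if_pos h]
          have := hBq B hB
          have : 0 ≤ ηD * q / 2 := by positivity
          linarith
        · rw [if_neg h]
          rw [not_le] at h
          linarith
      rw [Finset.sum_add_distrib, ← Finset.sum_filter, Finset.sum_const, Finset.sum_const,
        nsmul_eq_mul, nsmul_eq_mul] at h1
      have h2 : ηD * q * ℬ.card < ℬ1.card * q + ℬ.card * (ηD * q / 2) := lt_of_lt_of_le hcon' h1
      have h3 : (ηD / 2 * ℬ.card) * q ≤ ℬ1.card * q := by nlinarith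
      exact le_of_mul_le_mul_right h3 hq0
    -- pigeonhole
    set 𝒳 : Finset (Finset V) := (range (q + 1)).biUnion (fun j => powersetCard j D) with h𝒳
    have h𝒳card : (𝒳.card : ℝ) ≤ (q / T.p2 + 1) ^ q := by
      have h1 : (𝒳.card : ℝ) ≤ ((D.card : ℝ) + 1) ^ q := by
        exact_mod_cast card_small_subsets D q
      refine h1.trans ?_
      apply pow_le_pow_left₀ (add_nonneg (Nat.cast_nonneg _) zero_le_one)
      linarith
    have h𝒳ne : 𝒳.Nonempty := by
      refine ⟨∅, ?_⟩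
      rw [h𝒳, Finset.mem_biUnion]
      exact ⟨0, by simp, by simp⟩
    have h𝒳pos : (0 : ℝ) < 𝒳.card := by exact_mod_cast Finset.card_pos.mpr h𝒳ne
    have hmaps : ∀ B ∈ ℬ1, B ∩ D ∈ 𝒳 := by
      intro B hB
      have hB' : B ∈ ℬ := (Finset.mem_filter.mp hB).1
      rw [h𝒳, Finset.mem_biUnion]
      refine ⟨(B ∩ D).card, ?_, ?_⟩
      · rw [Finset.mem_range]
        have h1 := hBq B hB'
        have h2 : (B ∩ D).card ≤ q := by exact_mod_cast h1
        omega
      · rw [Finset.mem_powersetCard]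
        exact ⟨Finset.inter_subset_right, rfl⟩
    obtain ⟨X, hX𝒳, hXcard⟩ := Finset.exists_le_card_fiber_of_nsmul_le_card_of_maps_to hmaps h𝒳ne
      (b := (ℬ1.card : ℝ) / 𝒳.card) (by
        rw [nsmul_eq_mul, mul_div_cancel₀ _ h𝒳pos.ne'])
    set 𝒢 : Finset (Finset V) := ℬ1.filter (fun B => B ∩ D = X) with h𝒢
    have hℬ1pos : (0 : ℝ) < ℬ1.card := by
      have : 0 < ηD / 2 * ℬ.card := mul_pos (half_pos hη) hℬpos
      linarith
    have h𝒢pos : (0 : ℝ) < 𝒢.card := lt_of_lt_of_le (div_pos hℬ1pos h𝒳pos) hXcard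
    obtain ⟨B1, hB1⟩ := Finset.card_pos.mp (by exact_mod_cast h𝒢pos : 0 < 𝒢.card)
    have h𝒢mem : ∀ B ∈ 𝒢, B ∈ ℬ ∧ ηD * q / 2 ≤ ((B ∩ D).card : ℝ) ∧ B ∩ D = X := by
      intro B hB
      rw [h𝒢, Finset.mem_filter, hℬ1, Finset.mem_filter] at hB
      exact ⟨hB.1.1, hB.1.2, hB.2⟩
    have hXbig : ηD * q / 2 ≤ (X.card : ℝ) := by
      obtain ⟨_, h2, h3⟩ := h𝒢mem B1 hB1
      rwa [h3] at h2
    have hXsub : ∀ B ∈ 𝒢, X ⊆ B := by
      intro B hB
      rw [← (h𝒢mem B hB).2.2]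
      exact Finset.inter_subset_left
    -- the new family
    set ℱ' : Finset (Finset V) := 𝒢.image (fun B => B \ X) with hℱ'
    have hinj : Set.InjOn (fun B : Finset V => B \ X) (𝒢 : Set (Finset V)) := by
      intro B hB B' hB' h
      have h' : B \ X = B' \ X := h
      calc B = (B \ X) ∪ X := (Finset.sdiff_union_of_subset (hXsub B hB)).symm
        _ = (B' \ X) ∪ X := by rw [h']
        _ = B' := Finset.sdiff_union_of_subset (hXsub B' hB')
    have hℱ'card : ℱ'.card = 𝒢.card := Finset.card_image_of_injOn hinj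
    have hρX : Disjoint (w ∪ W) X := by
      have h1 := (hρ B1 (h𝒢mem B1 hB1).1).1
      exact Finset.disjoint_of_subset_right (hXsub B1 hB1) h1
    have hwW : Disjoint w W := (hdw B1 (h𝒢mem B1 hB1).1).1
    have hcard' : ((w ∪ W) ∪ X).card = w.card + W.card + X.card := by
      rw [Finset.card_union_of_disjoint hρX, Finset.card_union_of_disjoint hwW]
    have hPw' : P ((w ∪ W) ∪ X) := by
      refine ⟨ℱ', ?_, ?_, ?_⟩
      · exact ⟨B1 \ X, Finset.mem_image_of_mem _ hB1⟩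
      · intro C hC
        obtain ⟨B, hB, rfl⟩ := Finset.mem_image.mp hC
        obtain ⟨h1, h2⟩ := hρ B (h𝒢mem B hB).1
        refine ⟨?_, ?_⟩
        · rw [Finset.disjoint_union_left]
          exact ⟨Finset.disjoint_of_subset_right Finset.sdiff_subset h1, Finset.disjoint_sdiff⟩
        · rw [Finset.union_assoc, Finset.union_sdiff_of_subset (hXsub B hB)]
          exact h2
      · rw [hℱ'card, hcard']
        push_cast
        have hr : (0 : ℝ) < q / T.p2 + 1 := by positivity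
        have h1 : ηD / 2 * ℬ.card / (q / T.p2 + 1) ^ q ≤ 𝒢.card := by
          refine le_trans ?_ hXcard
          exact div_le_div₀ hℬ1pos.le hℬ1card h𝒳pos h𝒳card
        have hη2 : 0 < ηD / 2 := half_pos hη
        have hpw : (0 : ℝ) < (q / T.p2 + 1) ^ q := pow_pos hr q
        have h2 := Real.log_le_log (div_pos (mul_pos hη2 hℬpos) hpw) h1
        rw [Real.log_div (mul_pos hη2 hℬpos).ne' hpw.ne', Real.log_mul hη2.ne' hℬpos.ne',
          Real.log_pow] at h2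
        have h3 : Real.log (ηD / 2) = - Real.log (2 / ηD) := by
          rw [← Real.log_inv, inv_div]
        have h4 : ζ * L * (ηD * q / 2) ≤ ζ * L * (W.card + X.card) := by
          apply mul_le_mul_of_nonneg_left _ hζL.le
          have : (0 : ℝ) ≤ W.card := Nat.cast_nonneg _
          linarith
        have h5 : ζ * L * (w.card + W.card + X.card) =
            ζ * L * w.card + ζ * L * (W.card + X.card) := by ring
        rw [h5]
        rw [h3] at h2
        linarith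
    have h6 := hmax' _ hPw'
    rw [hcard'] at h6
    have h7 : (X.card : ℝ) = 0 := by
      have : X.card = 0 := by omega
      exact_mod_cast this
    have h8 : 0 < ηD * q / 2 := by positivity
    linarith
  · -- bad pairs
    refine hW4.trans ?_
    apply mul_le_mul_of_nonneg_right _ hℬpos.le
    have hlog : 0 < Real.log (T.p0 / T.p1) := Real.log_pos ((one_lt_div hp1).2 h01)
    have h1 := eps1_mono (m := m) (K0 := K0) hL0.le hsq T hlog (by linarith) hp2
      (R0 := R0) (by linarith)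
    have h2 : (s : ℝ) ^ 2 ≤ (q : ℝ) ^ 2 := by
      apply pow_le_pow_left₀ (Nat.cast_nonneg s)
      exact_mod_cast hsq
    have h3 : 0 ≤ eps1 L m s K0 T R0 := by
      unfold eps1
      have hF0 : 0 < Real.log T.F := Real.log_pos hF
      have hp0 : 0 < T.p0 := hp1.trans h01
      have hF1 : 0 < T.F := by linarith
      have hR1 : 0 < R0 := by linarith
      positivity
    have h4 : 4 * eps1 L m s K0 T R0 ≤ 4 * eps1 L m q K0 T R0 := by linarith
    exact mul_le_mul h4 h2 (by positivity) (by linarith)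

end Pool.Agent.Helper5.CV
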