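import Mathlib
import Pool.Agent.Helper5.CV.Defs
import Pool.Agent.Helper5.CV.Kap
import Pool.Agent.Helper5.CV.CostL
import Pool.Agent.Helper5.CV.Pots

/-!
# MP_d32cb0_co, module G05: the time `T` and the class `𝒜`

PROOF.  `potentials` with `n = (edges N).card`, `board = edges N`, `W = HasClique N q`, `δ = 1/N^2` (`n ≤ N^2`), and the family
`fam P S = Σ_{u ∈ range (q^2+1)} δ/(q^2+1) · #{A ∈ AA P q u : EI A \ P.M = S} / #(AA P q u)` (total `≤ δ`).
The final clique `A*` (from `HasClique`): `|A*| = q`, `EI A* ⊆ (Ps n).M`.  `u t = (EI A* \ (Ps t).M).card`; `u 0 = q.choose 2`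
(`(EI A*).card = q.choose 2`, `card_clique_edges` in `Helper25.CliqueGame.Final`, `EI` unfolds to the same filter),
`u n = 0`, `u t ≤ u (t+1) + m` (`(Ps (t+1)).M = X ∪ (Ps t).M`, `|X| ≤ m`).  Let `T` be the last `t ≤ n` with `u0 ≤ u t`
(`t = 0` satisfies it).  `T < n` (`u n = 0 < u0`), `u (T+1) < u0`, so `u T < u0 + m ≤ q.choose 2 = u 0`, hence `T ≥ 1`.
`P = Ps T`, `u = u T`.  `A* ∈ AA P q u`: `P.B ⊆ Bf` and `(Ps n).M` is disjoint from `Bf`.  The chain gives
`(Ps n).mv = l ++ P.mv`; the set `S = EI A* \ P.M` is contained in `uni l` (`(Ps n).M = uni l ∪ P.M`), is disjoint from `Bf`, and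
`gain m b l S ≥ exp (μ |S|) = exp (μ u)` (`log_gain_ge`; `l` inherits the properties from `GP (Ps n)`).
`fam P S ≥ δ/(q^2+1)/#(AA P q u)` as `u ≤ q^2`.  So `δ/((q^2+1) #AA) exp(μ u) ≤ C`.
-/

set_option autoImplicit false

namespace Pool.Agent.Helper5.CV

open Finset Pool.Agent.Helper25.CliqueGame
open Pool.Agent.Helper78.CG (EI)

private theorem tl_alg {a c g E : ℝ} (ha : 0 < a) (hc : 0 < c) (hg : 0 < g) :
    E = (1 / a / c / g * E) * (g * (c * a)) := by
  field_simp

/-- The family which is added during the play. -/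
private noncomputable def tlFam (N q : ℕ) (P : Pos (Sym2 (Fin N))) (S : Finset (Sym2 (Fin N))) :
    ℝ :=
  ∑ u ∈ range (q ^ 2 + 1), 1 / (N : ℝ) ^ 2 / ((q : ℝ) ^ 2 + 1) *
    ((((AA P q u).filter (fun A => EI A \ P.M = S)).card : ℝ) / (AA P q u).card)

private theorem tlFam_nonneg (N q : ℕ) (P : Pos (Sym2 (Fin N))) (S : Finset (Sym2 (Fin N))) :
    0 ≤ tlFam N q P S := by
  unfold tlFam
  positivity

private theorem tlFam_sum (N q : ℕ) (P : Pos (Sym2 (Fin N))) :
    ∑ S : Finset (Sym2 (Fin N)), tlFam N q P S ≤ 1 / (N : ℝ) ^ 2 := by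
  unfold tlFam
  rw [Finset.sum_comm]
  have h1 : ∀ u ∈ range (q ^ 2 + 1),
      ∑ S : Finset (Sym2 (Fin N)), 1 / (N : ℝ) ^ 2 / ((q : ℝ) ^ 2 + 1) *
        ((((AA P q u).filter (fun A => EI A \ P.M = S)).card : ℝ) / (AA P q u).card) ≤
      1 / (N : ℝ) ^ 2 / ((q : ℝ) ^ 2 + 1) := by
    intro u _
    rw [← Finset.mul_sum, ← Finset.sum_div, ← Nat.cast_sum,
      ← Finset.card_eq_sum_card_fiberwise (f := fun A => EI A \ P.M) (s := AA P q u)
        (t := (univ : Finset (Finset (Sym2 (Fin N))))) (fun _ _ => Finset.mem_coe.2 (Finset.mem_univ _))]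
    calc _ ≤ 1 / (N : ℝ) ^ 2 / ((q : ℝ) ^ 2 + 1) * 1 := by
          apply mul_le_mul_of_nonneg_left (div_self_le_one _)
          positivity
      _ = _ := mul_one _
  refine (Finset.sum_le_sum h1).trans ?_
  rw [Finset.sum_const, Finset.card_range, nsmul_eq_mul]
  push_cast
  have h2 : (0 : ℝ) < (q : ℝ) ^ 2 + 1 := by positivity
  rw [mul_div_cancel₀ _ h2.ne']

private theorem tlFam_ge (N q : ℕ) (P : Pos (Sym2 (Fin N))) {A : Finset (Fin N)}
    (hu : (EI A \ P.M).card < q ^ 2 + 1) (hA : A ∈ AA P q (EI A \ P.M).card) :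
    1 / (N : ℝ) ^ 2 / ((q : ℝ) ^ 2 + 1) / (AA P q (EI A \ P.M).card).card ≤
      tlFam N q P (EI A \ P.M) := by
  unfold tlFam
  have h1 : 1 / (N : ℝ) ^ 2 / ((q : ℝ) ^ 2 + 1) *
      ((((AA P q (EI A \ P.M).card).filter (fun A' => EI A' \ P.M = EI A \ P.M)).card : ℝ) /
        (AA P q (EI A \ P.M).card).card) ≤
      ∑ u ∈ range (q ^ 2 + 1), 1 / (N : ℝ) ^ 2 / ((q : ℝ) ^ 2 + 1) *
        ((((AA P q u).filter (fun A' => EI A' \ P.M = EI A \ P.M)).card : ℝ) /
          (AA P q u).card) := by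
    refine Finset.single_le_sum (f := fun u => 1 / (N : ℝ) ^ 2 / ((q : ℝ) ^ 2 + 1) *
        ((((AA P q u).filter (fun A' => EI A' \ P.M = EI A \ P.M)).card : ℝ) /
          (AA P q u).card)) ?_ (Finset.mem_range.2 hu)
    intro u _
    positivity
  refine le_trans ?_ h1
  have h2 : (1 : ℝ) ≤
      (((AA P q (EI A \ P.M).card).filter (fun A' => EI A' \ P.M = EI A \ P.M)).card : ℝ) := by
    have : 0 < ((AA P q (EI A \ P.M).card).filter (fun A' => EI A' \ P.M = EI A \ P.M)).card :=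
      Finset.card_pos.2 ⟨A, Finset.mem_filter.2 ⟨hA, rfl⟩⟩
    exact_mod_cast this
  calc 1 / (N : ℝ) ^ 2 / ((q : ℝ) ^ 2 + 1) / (AA P q (EI A \ P.M).card).card
      = 1 / (N : ℝ) ^ 2 / ((q : ℝ) ^ 2 + 1) * (1 / (AA P q (EI A \ P.M).card).card) := by
        rw [mul_one_div]
    _ ≤ _ := by
        apply mul_le_mul_of_nonneg_left _ (by positivity)
        exact div_le_div_of_nonneg_right h2 (by positivity)

theorem ub_input {N m b q : ℕ} (hm : 1 ≤ m) (hN : 1 ≤ N) (hwin : MakerWins N m b q) {u0 : ℕ}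
    (hu1 : 1 ≤ u0) (hu : u0 + m ≤ q.choose 2)
    (w0 : Finset (Sym2 (Fin N)) → ℝ) (hw0 : ∀ S, 0 ≤ w0 S) {C : ℝ}
    (hC : (1 + b) * ∑ S : Finset (Sym2 (Fin N)), w0 S + 1 ≤ C) :
    ∃ (P : Pos (Sym2 (Fin N))) (u : ℕ), GP m (edges N) P ∧ P.mv.length ≤ N ^ 2 ∧ u0 ≤ u ∧
      u < u0 + m ∧
      pot m b w0 P ≤ C ∧ (AA P q u).Nonempty ∧
      Real.exp (mu m b * u) ≤ (AA P q u).card * (C * ((q : ℝ) ^ 2 + 1) * (N : ℝ) ^ 2) := by
  have hN0 : (0 : ℝ) < (N : ℝ) ^ 2 := by
    have : (0 : ℝ) < N := by exact_mod_cast hN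
    positivity
  have hq0 : (0 : ℝ) < (q : ℝ) ^ 2 + 1 := by positivity
  have hcard : ((edges N).card : ℝ) ≤ (N : ℝ) ^ 2 := by
    have h1 : (edges N).card ≤ Fintype.card (Sym2 (Fin N)) := Finset.card_le_univ _
    have h2 : Fintype.card (Sym2 (Fin N)) ≤ Fintype.card (Fin N × Fin N) := by
      refine Fintype.card_le_of_surjective (fun p : Fin N × Fin N => s(p.1, p.2)) ?_
      intro e
      induction e using Sym2.ind with
      | h x y => exact ⟨(x, y), rfl⟩
    rw [Fintype.card_prod, Fintype.card_fin] at h2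
    have h3 : (edges N).card ≤ N ^ 2 := by
      rw [pow_two]
      exact h1.trans h2
    exact_mod_cast h3
  set n := (edges N).card with hn
  have hfam0 : ∀ (P : Pos (Sym2 (Fin N))) (S : Finset (Sym2 (Fin N))), 0 ≤ tlFam N q P S :=
    fun P S => tlFam_nonneg N q P S
  have hfam : ∀ P : Pos (Sym2 (Fin N)), ∑ S : Finset (Sym2 (Fin N)), tlFam N q P S ≤
      1 / (N : ℝ) ^ 2 := fun P => tlFam_sum N q P
  have hwin' : Forces (HasClique N q) (edges N) m b n ∅ ∅ := hwin
  obtain ⟨Ps, Bf, hP0, hW, hdj, hgp, hstep, hpot, hfb⟩ :=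
    potentials hm hwin' w0 hw0 (tlFam N q) hfam0 hfam
  have hnd : (n : ℝ) * (1 / (N : ℝ) ^ 2) ≤ 1 := by
    rw [mul_one_div, div_le_one hN0]
    exact hcard
  obtain ⟨A, hAq, hAc⟩ := hW
  have hEI : EI A ⊆ (Ps n).M := by
    intro e he
    induction e using Sym2.ind with
    | h x y =>
      unfold EI at he
      rw [Finset.mem_filter] at he
      have h1 : x ≠ y := by
        have h2 := he.1
        unfold edges at h2
        rw [Finset.mem_filter, Sym2.mk_isDiag_iff] at h2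
        exact h2.2
      exact hAc x (he.2 x (Sym2.mem_mk_left x y)) y (he.2 y (Sym2.mem_mk_right x y)) h1
  have hEIcard : (EI A).card = q.choose 2 := by
    rw [← hAq]
    exact card_clique_edges A
  have hu0 : (EI A \ (Ps 0).M).card = q.choose 2 := by
    rw [hP0]
    have : (Pos.M (⟨[], ∅⟩ : Pos (Sym2 (Fin N)))) = ∅ := rfl
    rw [this, Finset.sdiff_empty, hEIcard]
  have hun : (EI A \ (Ps n).M).card = 0 := by
    rw [Finset.card_eq_zero, Finset.sdiff_eq_empty_iff_subset]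
    exact hEI
  have hust : ∀ t < n, (EI A \ (Ps t).M).card ≤ (EI A \ (Ps (t + 1)).M).card + m := by
    intro t ht
    obtain ⟨X, hX, hmv⟩ := hstep t ht
    have hM : (Ps (t + 1)).M = X ∪ (Ps t).M := by
      unfold Pos.M
      rw [hmv, uni_cons]
    have hsub : EI A \ (Ps t).M ⊆ (EI A \ (Ps (t + 1)).M) ∪ X := by
      intro e he
      rw [Finset.mem_sdiff] at he
      rw [Finset.mem_union, Finset.mem_sdiff, hM, Finset.mem_union]
      by_cases hx : e ∈ X
      · exact Or.inr hx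
      · exact Or.inl ⟨he.1, fun h => h.elim hx he.2⟩
    have h1 := (Finset.card_le_card hsub).trans (Finset.card_union_le _ _)
    omega
  classical
  set T := Nat.findGreatest (fun t => u0 ≤ (EI A \ (Ps t).M).card) n with hT
  have hTs : u0 ≤ (EI A \ (Ps T).M).card :=
    Nat.findGreatest_spec (P := fun t => u0 ≤ (EI A \ (Ps t).M).card) (Nat.zero_le n)
      (by show u0 ≤ (EI A \ (Ps 0).M).card; rw [hu0]; omega)
  have hTn : T ≤ n := Nat.findGreatest_le n
  have hTn' : T < n := by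
    rcases Nat.lt_or_ge T n with h | h
    · exact h
    · exfalso
      have h1 : T = n := le_antisymm hTn h
      rw [h1, hun] at hTs
      omega
  have hT1 : (EI A \ (Ps (T + 1)).M).card < u0 := by
    have := Nat.findGreatest_is_greatest (P := fun t => u0 ≤ (EI A \ (Ps t).M).card)
      (n := n) (k := T + 1) (by rw [← hT]; exact Nat.lt_succ_self T) hTn'
    exact not_le.1 this
  have hTlt : (EI A \ (Ps T).M).card < u0 + m := by
    have := hust T hTn'
    omega
  have hTpos : 1 ≤ T := by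
    rcases Nat.eq_zero_or_pos T with h | h
    · exfalso
      rw [h, hu0] at hTlt
      omega
    · exact h
  have hEIdj : Disjoint (EI A) Bf := Finset.disjoint_of_subset_left hEI hdj
  have hmem : A ∈ AA (Ps T) q (EI A \ (Ps T).M).card := by
    unfold AA
    rw [Finset.mem_filter]
    exact ⟨Finset.mem_univ _, hAq, Finset.disjoint_of_subset_right (hgp T hTn).2 hEIdj, rfl⟩
  have hchain : ∀ d t, t + d = n → ∃ l, (Ps n).mv = l ++ (Ps t).mv := by
    intro d
    induction d with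
    | zero =>
      intro t ht
      refine ⟨[], ?_⟩
      rw [List.nil_append]
      rw [Nat.add_zero] at ht
      rw [ht]
    | succ d ih =>
      intro t ht
      obtain ⟨X, -, hmv⟩ := hstep t (by omega)
      obtain ⟨l, hl⟩ := ih (t + 1) (by omega)
      refine ⟨l ++ [X], ?_⟩
      rw [hl, hmv, List.append_assoc, List.singleton_append]
  obtain ⟨l, hl⟩ := hchain (n - T) T (by omega)
  have hgn := (hgp n le_rfl).1
  have hlc : ∀ X ∈ l, X.card ≤ m := by
    intro X hX
    apply hgn.card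
    rw [hl]
    exact List.mem_append_left _ hX
  have hlp : l.Pairwise Disjoint := by
    have := hgn.pw
    rw [hl, List.pairwise_append] at this
    exact this.1
  have hSl : EI A \ (Ps T).M ⊆ uni l := by
    intro e he
    rw [Finset.mem_sdiff] at he
    have h1 : e ∈ uni (Ps n).mv := hEI he.1
    rw [mem_uni, hl] at h1
    obtain ⟨X, hX, heX⟩ := h1
    rw [mem_uni]
    rcases List.mem_append.1 hX with h | h
    · exact ⟨X, h, heX⟩
    · exact absurd ((mem_uni (Ps T).mv e).2 ⟨X, h, heX⟩) he.2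
  have hSdj : Disjoint (EI A \ (Ps T).M) Bf :=
    Finset.disjoint_of_subset_left Finset.sdiff_subset hEIdj
  have hgain : Real.exp (mu m b * ((EI A \ (Ps T).M).card : ℕ)) ≤
      gain m b l (EI A \ (Ps T).M) := by
    have h1 := log_gain_ge (m := m) (b := b) hm l hlc hlp (EI A \ (Ps T).M)
    rw [Finset.inter_eq_left.2 hSl] at h1
    have h2 : (0 : ℝ) < gain m b l (EI A \ (Ps T).M) :=
      lt_of_lt_of_le one_pos (one_le_gain m b l _)
    calc Real.exp (mu m b * ((EI A \ (Ps T).M).card : ℕ))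
        ≤ Real.exp (Real.log (gain m b l (EI A \ (Ps T).M))) := Real.exp_le_exp.2 h1
      _ = _ := Real.exp_log h2
  have hAA : (0 : ℝ) < (AA (Ps T) q (EI A \ (Ps T).M).card).card := by
    have : 0 < (AA (Ps T) q (EI A \ (Ps T).M).card).card := Finset.card_pos.2 ⟨A, hmem⟩
    exact_mod_cast this
  have hule : (EI A \ (Ps T).M).card < q ^ 2 + 1 := by
    have h1 : (EI A \ (Ps T).M).card ≤ q.choose 2 := by
      rw [← hEIcard]
      exact Finset.card_le_card Finset.sdiff_subset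
    have h2 : q.choose 2 ≤ q ^ 2 := Nat.choose_le_pow q 2
    omega
  have hfamge := tlFam_ge N q (Ps T) hule hmem
  have h3 := hfb T hTpos hTn l hl
  have h4 : tlFam N q (Ps T) (EI A \ (Ps T).M) * gain m b l (EI A \ (Ps T).M) ≤
      ∑ S ∈ univ.filter (fun S : Finset (Sym2 (Fin N)) => Disjoint S Bf),
        tlFam N q (Ps T) S * gain m b l S := by
    refine Finset.single_le_sum (f := fun S => tlFam N q (Ps T) S * gain m b l S) ?_ ?_
    · intro S _
      exact mul_nonneg (hfam0 _ _) (le_trans zero_le_one (one_le_gain m b l S))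
    · rw [Finset.mem_filter]
      exact ⟨Finset.mem_univ _, hSdj⟩
  have h5 : (1 / (N : ℝ) ^ 2 / ((q : ℝ) ^ 2 + 1) /
      (AA (Ps T) q (EI A \ (Ps T).M).card).card) *
      Real.exp (mu m b * ((EI A \ (Ps T).M).card : ℕ)) ≤ C := by
    calc _ ≤ tlFam N q (Ps T) (EI A \ (Ps T).M) * gain m b l (EI A \ (Ps T).M) :=
          mul_le_mul hfamge hgain (Real.exp_nonneg _) (hfam0 _ _)
      _ ≤ _ := h4
      _ ≤ _ := h3
      _ ≤ C := by linarith
  have hlen : ∀ t ≤ n, (Ps t).mv.length = t := by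
    intro t
    induction t with
    | zero =>
      intro _
      rw [hP0]
      rfl
    | succ t ih =>
      intro ht
      obtain ⟨X, -, hmv⟩ := hstep t (by omega)
      rw [hmv, List.length_cons, ih (by omega)]
  have hTlen : (Ps T).mv.length ≤ N ^ 2 := by
    rw [hlen T hTn]
    have : n ≤ N ^ 2 := by exact_mod_cast hcard
    omega
  refine ⟨Ps T, (EI A \ (Ps T).M).card, (hgp T hTn).1, hTlen, hTs, hTlt, ?_, ⟨A, hmem⟩, ?_⟩
  · refine (hpot T hTpos hTn).trans ?_
    linarith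
  · have h6 := tl_alg (E := Real.exp (mu m b * ((EI A \ (Ps T).M).card : ℕ))) hN0 hq0 hAA
    rw [h6]
    have h7 : 0 ≤ ((AA (Ps T) q (EI A \ (Ps T).M).card).card : ℝ) *
        (((q : ℝ) ^ 2 + 1) * (N : ℝ) ^ 2) := (mul_pos hAA (mul_pos hq0 hN0)).le
    refine (mul_le_mul_of_nonneg_right h5 h7).trans (le_of_eq ?_)
    ring

end Pool.Agent.Helper5.CV
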