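import Mathlib
import Pool.Agent.Helper5.CV.DefsT
import Pool.Agent.Helper5.CV.NN
import Pool.Agent.Helper5.CV.Buck
import Pool.Agent.Helper5.CV.ResD

/-!
# MP_d32cb0_co, module T07: typical members and the offset

Counts for `B ∈ ℬ`, `i0`: `com = #{v ∈ B : p2|ℬ| ≤ n(v)}`, `ult = #{v ∈ B : n(v) < e^{-nb Γ}|ℬ|}`,
`nbv = #{v ∈ B : 1 ≤ bk v, (bk v + 3) % K = i0 % K}`, `lost`, `bad`.
PROOF.  (1) `Σ_B ult(B) = Σ_{v : n(v) < e^{-nbΓ}|ℬ|} n(v) ≤ N e^{-nbΓ}|ℬ|`.
(2) For fixed `B`: summing over the `K` consecutive values `i0 ∈ [lo, lo+K)`: `Σ nbv ≤ |B| ≤ q`, and `Σ |lost| ≤ 2 · #pairs ≤ q²` (every residue mod `K` is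
hit exactly once by `i0`, by `i0+1`, by `i0+2`; the number of pairs of different points is `≤ q²/2`).  Hence for some `i0`:
`Σ_B (nbv/q + |lost|/q²) ≤ (2/K)|ℬ|`.
(3) `D(B) = (com + ult + nbv)/q + (|lost| + bad)/q²`: `Σ_B D(B) ≤ Dbar |ℬ|` with `Dbar = ηD + N e^{-nbΓ} + 2/K + εb` (`q ≥ 1`).  Take
`ℬ' = {B : D(B) ≤ 2 Dbar}`; by Markov `|ℬ \ ℬ'| ≤ |ℬ|/2` (if `Dbar = 0` then `D = 0` everywhere, fine).
(4) size of the trimmed set: a point `v ∈ B \ trim` is outside `Z`, or (`bkD_cases`; `n(v) > 0`) counted in `com` or `ult`, or bucketed with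
`(bk v + 3) % K = i0 % K`.
-/

set_option autoImplicit false

namespace Pool.Agent.Helper5.CV

open Finset Pool.Agent.Helper25.CliqueGame
open Pool.Agent.Helper78.CG (EI)

private theorem card_mod_le {K lo : ℕ} (c s : ℕ) :
    ((Ico lo (lo + K)).filter (fun i0 => c = (i0 + s) % K)).card ≤ 1 := by
  rw [card_le_one]
  intro a ha b hb
  rw [mem_filter, mem_Ico] at ha hb
  obtain ⟨⟨a1, a2⟩, a3⟩ := ha
  obtain ⟨⟨b1, b2⟩, b3⟩ := hb
  have h : (a + s) % K = (b + s) % K := a3.symm.trans b3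
  have h2 : a + s ≡ b + s [MOD K] := h
  have h3 : a ≡ b [MOD K] := Nat.ModEq.add_right_cancel' s h2
  rcases le_total a b with hab | hab
  · have h4 := (Nat.modEq_iff_dvd' hab).1 h3
    have h5 : b - a < K := by omega
    have h6 := Nat.eq_zero_of_dvd_of_lt h4 h5
    omega
  · have h4 := (Nat.modEq_iff_dvd' hab).1 h3.symm
    have h5 : a - b < K := by omega
    have h6 := Nat.eq_zero_of_dvd_of_lt h4 h5
    omega

private theorem nondiag_card {V : Type*} [DecidableEq V] (B : Finset V) :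
    (B.sym2.filter (fun e => ¬ e.IsDiag)).card * 2 ≤ B.card ^ 2 := by
  have h1 : B.sym2.filter (fun e => ¬ e.IsDiag) ⊆ B.offDiag.image Sym2.mk.uncurry := by
    intro e he
    rw [mem_filter] at he
    induction e using Sym2.inductionOn with
    | hf x y =>
      obtain ⟨h2, h3⟩ := he
      rw [mk_mem_sym2_iff] at h2
      rw [Sym2.mk_isDiag_iff] at h3
      exact mem_image.2 ⟨(x, y), mem_offDiag.2 ⟨h2.1, h2.2, h3⟩, rfl⟩
  have h4 : (B.offDiag.image Sym2.mk.uncurry).card = B.card.choose 2 :=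
    Sym2.card_image_offDiag B
  have h5 := card_le_card h1
  rw [h4, Nat.choose_two_right] at h5
  have h6 : B.card * (B.card - 1) / 2 * 2 ≤ B.card * (B.card - 1) := Nat.div_mul_le_self _ _
  have h7 : B.card * (B.card - 1) ≤ B.card ^ 2 := by
    rw [pow_two]
    exact Nat.mul_le_mul_left _ (Nat.sub_le _ _)
  omega

private theorem sum_nbv {V : Type*} [DecidableEq V] (d : Dat V) {K lo : ℕ} (B : Finset V) :
    ∑ i0 ∈ Ico lo (lo + K), (B.filter (fun v => 1 ≤ d.bk v ∧ (d.bk v + 3) % K = i0 % K)).card ≤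
      B.card := by
  have h := sum_card_bipartiteAbove_eq_sum_card_bipartiteBelow (s := Ico lo (lo + K)) (t := B)
    (fun i0 v => 1 ≤ d.bk v ∧ (d.bk v + 3) % K = i0 % K)
  unfold bipartiteAbove bipartiteBelow at h
  rw [h, card_eq_sum_ones]
  apply sum_le_sum
  intro v _
  refine (card_le_card ?_).trans (card_mod_le (K := K) (lo := lo) ((d.bk v + 3) % K) 0)
  intro i0 hi
  rw [mem_filter] at hi ⊢
  exact ⟨hi.1, hi.2.2⟩

private theorem sum_lost {V : Type*} [DecidableEq V] (d : Dat V) {K lo : ℕ} (B : Finset V) :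
    ∑ i0 ∈ Ico lo (lo + K), (lost d K i0 B).card ≤ B.card ^ 2 := by
  set S := B.sym2.filter (fun e => ¬ e.IsDiag) with hS
  have e1 : ∀ i0, lost d K i0 B = S.filter (fun e => bks d e % K = (i0 + 1) % K ∨
      bks d e % K = (i0 + 2) % K) := by
    intro i0
    rw [hS, filter_filter]
    rfl
  have e2 : ∑ i0 ∈ Ico lo (lo + K), (lost d K i0 B).card =
      ∑ i0 ∈ Ico lo (lo + K), (S.filter (fun e => bks d e % K = (i0 + 1) % K ∨
      bks d e % K = (i0 + 2) % K)).card := sum_congr rfl (fun i0 _ => by rw [e1])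
  rw [e2]
  have h := sum_card_bipartiteAbove_eq_sum_card_bipartiteBelow (s := Ico lo (lo + K)) (t := S)
    (fun i0 e => bks d e % K = (i0 + 1) % K ∨ bks d e % K = (i0 + 2) % K)
  unfold bipartiteAbove bipartiteBelow at h
  rw [h]
  refine le_trans ?_ (nondiag_card B)
  rw [← hS, ← smul_eq_mul, ← sum_const]
  apply sum_le_sum
  intro e _
  rw [filter_or]
  refine (card_union_le _ _).trans ?_
  have h1 := card_mod_le (K := K) (lo := lo) (bks d e % K) 1
  have h2 := card_mod_le (K := K) (lo := lo) (bks d e % K) 2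
  omega

private theorem sum_small {N : ℕ} (ℬ : Finset (Finset (Fin N))) {E : ℝ} (hE : 0 ≤ E)
    (sm : Fin N → Prop) [DecidablePred sm] (h : ∀ v, sm v → (nn ℬ {v} : ℝ) ≤ E) :
    ((∑ B ∈ ℬ, (B.filter sm).card : ℕ) : ℝ) ≤ N * E := by
  have e1 : ∑ B ∈ ℬ, (B.filter sm).card = ∑ v ∈ univ.filter sm, nn ℬ {v} := by
    have h1 := sum_card_bipartiteAbove_eq_sum_card_bipartiteBelow (s := ℬ)
      (t := univ.filter sm) (fun B v => v ∈ B)
    unfold bipartiteAbove bipartiteBelow at h1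
    have e2 : ∀ B : Finset (Fin N), B.filter sm = (univ.filter sm).filter (fun v => v ∈ B) := by
      intro B
      ext v
      rw [mem_filter, mem_filter, mem_filter]
      constructor
      · rintro ⟨h2, h3⟩
        exact ⟨⟨mem_univ _, h3⟩, h2⟩
      · rintro ⟨⟨_, h3⟩, h2⟩
        exact ⟨h2, h3⟩
    have e3 : ∑ B ∈ ℬ, (B.filter sm).card =
        ∑ B ∈ ℬ, ((univ.filter sm).filter (fun v => v ∈ B)).card :=
      sum_congr rfl (fun B _ => by rw [e2])
    rw [e3, h1]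
    apply sum_congr rfl
    intro v _
    unfold nn
    congr 1
    apply filter_congr
    intro B _
    rw [singleton_subset_iff]
  rw [e1]
  push_cast
  have e4 : ∑ v ∈ univ.filter sm, (nn ℬ {v} : ℝ) ≤ ∑ v ∈ univ.filter sm, E := by
    apply sum_le_sum
    intro v hv
    exact h v (mem_filter.1 hv).2
  refine e4.trans ?_
  rw [sum_const, nsmul_eq_mul]
  apply mul_le_mul_of_nonneg_right _ hE
  have h5 : (univ.filter sm).card ≤ N := by
    have := card_le_univ (univ.filter sm)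
    rwa [Fintype.card_fin] at this
  exact_mod_cast h5

open Classical in
theorem typical {N q K j0 nb lo : ℕ} (hq : 1 ≤ q) (hK : 1 ≤ K) {P : Pos (Sym2 (Fin N))}
    {ℬ : Finset (Finset (Fin N))} (hne : ℬ.Nonempty) (hs : ∀ B ∈ ℬ, B.card ≤ q)
    {Γ : ℝ} (hΓ : 0 < Γ) (hj0 : 1 ≤ j0) (Z : Finset (Fin N)) {ηD εb : ℝ} (hεb : 0 ≤ εb)
    (h1 : ((∑ B ∈ ℬ, (B.filter (fun v => (thr Γ j0).p2 * ℬ.card ≤
      (nn ℬ {v} : ℝ))).card : ℕ) : ℝ) ≤ ηD * q * ℬ.card)
    (h2 : ((∑ B ∈ ℬ, (badP ℬ (tn0 P) (thr Γ j0) B).card : ℕ) : ℝ) ≤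
      εb * (q : ℝ) ^ 2 * ℬ.card) :
    ∃ i0, lo ≤ i0 ∧ i0 < lo + K ∧ ∃ ℬ' ⊆ ℬ, (ℬ.card : ℝ) ≤ 2 * ℬ'.card ∧ ∀ B ∈ ℬ',
      (B.card : ℝ) ≤ ((trim (dat P ℬ Γ Z j0 nb) K i0 B).card : ℝ) + (B \ Z).card +
        2 * (ηD + N * Real.exp (-((nb : ℝ) * Γ)) + 2 / K + εb) * q ∧
      ((lost (dat P ℬ Γ Z j0 nb) K i0 B).card : ℝ) +
          (badP ℬ (tn0 P) (thr Γ j0) B).card ≤
        2 * (ηD + N * Real.exp (-((nb : ℝ) * Γ)) + 2 / K + εb) * (q : ℝ) ^ 2 := by
  set d := dat P ℬ Γ Z j0 nb with hd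
  set n : ℝ := (ℬ.card : ℝ) with hn
  have hn0 : 0 < n := by
    rw [hn]
    exact_mod_cast card_pos.2 hne
  have hq' : (1 : ℝ) ≤ q := by exact_mod_cast hq
  have hq0 : (0 : ℝ) < q := by linarith
  have hK' : (0 : ℝ) < K := by exact_mod_cast hK
  set E : ℝ := Real.exp (-((nb : ℝ) * Γ)) with hE
  have hE0 : 0 < E := Real.exp_pos _
  -- the counts
  set com : Finset (Fin N) → ℕ := fun B =>
    (B.filter (fun v => (thr Γ j0).p2 * ℬ.card ≤ (nn ℬ {v} : ℝ))).card with hcom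
  set ult : Finset (Fin N) → ℕ := fun B =>
    (B.filter (fun v => (nn ℬ {v} : ℝ) < E * n)).card with hult
  set nbv : ℕ → Finset (Fin N) → ℕ := fun i0 B =>
    (B.filter (fun v => 1 ≤ d.bk v ∧ (d.bk v + 3) % K = i0 % K)).card with hnbv
  set bad : Finset (Fin N) → ℕ := fun B => (badP ℬ (tn0 P) (thr Γ j0) B).card with hbad
  have hηD : 0 ≤ ηD := by
    by_contra hneg
    push Not at hneg
    have h3 : ηD * q * n < 0 := by
      have := mul_neg_of_neg_of_pos hneg hq0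
      exact mul_neg_of_neg_of_pos this hn0
    have h4 : (0 : ℝ) ≤ ((∑ B ∈ ℬ, (B.filter (fun v => (thr Γ j0).p2 * ℬ.card ≤
      (nn ℬ {v} : ℝ))).card : ℕ) : ℝ) := Nat.cast_nonneg _
    linarith
  -- sums of the ultra rare points
  have hultS : ((∑ B ∈ ℬ, ult B : ℕ) : ℝ) ≤ N * (E * n) :=
    sum_small ℬ (by positivity) _ (fun v hv => le_of_lt hv)
  -- choice of the offset
  have hoff : ∃ i0 ∈ Ico lo (lo + K), ∑ B ∈ ℬ, ((nbv i0 B : ℝ) / q +
      ((lost d K i0 B).card : ℝ) / (q : ℝ) ^ 2) ≤ 2 / K * n := by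
    apply exists_le_of_sum_le
    · exact ⟨lo, mem_Ico.2 ⟨le_rfl, by omega⟩⟩
    · rw [sum_comm, sum_const, Nat.card_Ico]
      have e1 : lo + K - lo = K := by omega
      rw [e1, nsmul_eq_mul]
      have e2 : (K : ℝ) * (2 / K * n) = ∑ B ∈ ℬ, (2 : ℝ) := by
        rw [sum_const, nsmul_eq_mul, ← hn]
        field_simp
      rw [e2]
      apply sum_le_sum
      intro B hB
      rw [sum_add_distrib, ← sum_div, ← sum_div]
      have hBq : (B.card : ℝ) ≤ q := by exact_mod_cast hs B hB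
      have e3 : ∑ i0 ∈ Ico lo (lo + K), (nbv i0 B : ℝ) ≤ B.card := by
        exact_mod_cast sum_nbv d (K := K) (lo := lo) B
      have e4 : ∑ i0 ∈ Ico lo (lo + K), ((lost d K i0 B).card : ℝ) ≤ (B.card : ℝ) ^ 2 := by
        exact_mod_cast sum_lost d (K := K) (lo := lo) B
      have e5 : (∑ i0 ∈ Ico lo (lo + K), (nbv i0 B : ℝ)) / q ≤ 1 := by
        rw [div_le_one hq0]
        linarith
      have e6 : (∑ i0 ∈ Ico lo (lo + K), ((lost d K i0 B).card : ℝ)) / (q : ℝ) ^ 2 ≤ 1 := by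
        rw [div_le_one (by positivity)]
        have : (B.card : ℝ) ^ 2 ≤ (q : ℝ) ^ 2 := by gcongr
        linarith
      linarith
  obtain ⟨i0, hi0, hoff⟩ := hoff
  rw [mem_Ico] at hi0
  refine ⟨i0, hi0.1, hi0.2, ?_⟩
  set Dbar : ℝ := ηD + N * E + 2 / K + εb with hDbar
  have hDbar0 : 0 < Dbar := by
    have : (0 : ℝ) < 2 / K := by positivity
    have h3 : (0 : ℝ) ≤ N * E := by positivity
    rw [hDbar]
    linarith
  set D : Finset (Fin N) → ℝ := fun B => ((com B : ℝ) + ult B + nbv i0 B) / q +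
    (((lost d K i0 B).card : ℝ) + bad B) / (q : ℝ) ^ 2 with hD
  have hDsum : ∑ B ∈ ℬ, D B ≤ Dbar * n := by
    have e1 : ∑ B ∈ ℬ, D B = ((∑ B ∈ ℬ, com B : ℕ) : ℝ) / q + ((∑ B ∈ ℬ, ult B : ℕ) : ℝ) / q +
        ∑ B ∈ ℬ, ((nbv i0 B : ℝ) / q + ((lost d K i0 B).card : ℝ) / (q : ℝ) ^ 2) +
        ((∑ B ∈ ℬ, bad B : ℕ) : ℝ) / (q : ℝ) ^ 2 := by
      push_cast
      rw [sum_div, sum_div, sum_div, ← sum_add_distrib, ← sum_add_distrib, ← sum_add_distrib]
      apply sum_congr rfl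
      intro B _
      rw [hD]
      ring
    have e2 : ((∑ B ∈ ℬ, com B : ℕ) : ℝ) / q ≤ ηD * n := by
      rw [div_le_iff₀ hq0]
      calc ((∑ B ∈ ℬ, com B : ℕ) : ℝ) ≤ ηD * q * n := h1
        _ = ηD * n * q := by ring
    have e3 : ((∑ B ∈ ℬ, ult B : ℕ) : ℝ) / q ≤ N * E * n := by
      rw [div_le_iff₀ hq0]
      have h3 : (0 : ℝ) ≤ N * E * n := by positivity
      nlinarith
    have e4 : ((∑ B ∈ ℬ, bad B : ℕ) : ℝ) / (q : ℝ) ^ 2 ≤ εb * n := by
      rw [div_le_iff₀ (by positivity)]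
      calc ((∑ B ∈ ℬ, bad B : ℕ) : ℝ) ≤ εb * (q : ℝ) ^ 2 * n := h2
        _ = εb * n * (q : ℝ) ^ 2 := by ring
    rw [e1, hDbar]
    nlinarith
  have hD0 : ∀ B, 0 ≤ D B := fun B => by rw [hD]; positivity
  refine ⟨ℬ.filter (fun B => D B ≤ 2 * Dbar), filter_subset _ _, ?_, ?_⟩
  · have hsplit : ((ℬ.filter (fun B => D B ≤ 2 * Dbar)).card : ℝ) +
        ((ℬ.filter (fun B => ¬ D B ≤ 2 * Dbar)).card : ℝ) = n := by
      rw [hn]
      exact_mod_cast card_filter_add_card_filter_not (s := ℬ) (fun B => D B ≤ 2 * Dbar)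
    have hmk : 2 * Dbar * ((ℬ.filter (fun B => ¬ D B ≤ 2 * Dbar)).card : ℝ) ≤ Dbar * n := by
      calc 2 * Dbar * ((ℬ.filter (fun B => ¬ D B ≤ 2 * Dbar)).card : ℝ)
          = ∑ B ∈ ℬ.filter (fun B => ¬ D B ≤ 2 * Dbar), 2 * Dbar := by
            rw [sum_const, nsmul_eq_mul]
            ring
        _ ≤ ∑ B ∈ ℬ.filter (fun B => ¬ D B ≤ 2 * Dbar), D B := by
            apply sum_le_sum
            intro B hB
            exact le_of_lt (not_le.1 (mem_filter.1 hB).2)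
        _ ≤ ∑ B ∈ ℬ, D B :=
            sum_le_sum_of_subset_of_nonneg (filter_subset _ _) (fun B _ _ => hD0 B)
        _ ≤ Dbar * n := hDsum
    have h3 : 2 * ((ℬ.filter (fun B => ¬ D B ≤ 2 * Dbar)).card : ℝ) ≤ n := by
      have h4 : Dbar * (2 * ((ℬ.filter (fun B => ¬ D B ≤ 2 * Dbar)).card : ℝ)) ≤ Dbar * n := by
        linarith
      exact le_of_mul_le_mul_left h4 hDbar0
    linarith
  · intro B hB
    rw [mem_filter] at hB
    obtain ⟨hBB, hBD⟩ := hB
    have hX : ((com B : ℝ) + ult B + nbv i0 B) / q ≤ 2 * Dbar := by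
      have h3 : 0 ≤ (((lost d K i0 B).card : ℝ) + bad B) / (q : ℝ) ^ 2 := by positivity
      have h4 : D B = ((com B : ℝ) + ult B + nbv i0 B) / q +
        (((lost d K i0 B).card : ℝ) + bad B) / (q : ℝ) ^ 2 := rfl
      linarith
    have hY : (((lost d K i0 B).card : ℝ) + bad B) / (q : ℝ) ^ 2 ≤ 2 * Dbar := by
      have h3 : 0 ≤ ((com B : ℝ) + ult B + nbv i0 B) / q := by positivity
      have h4 : D B = ((com B : ℝ) + ult B + nbv i0 B) / q +
        (((lost d K i0 B).card : ℝ) + bad B) / (q : ℝ) ^ 2 := rfl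
      linarith
    rw [div_le_iff₀ hq0] at hX
    rw [div_le_iff₀ (by positivity)] at hY
    constructor
    · have hcov : B ⊆ trim d K i0 B ∪ (B \ Z) ∪
          B.filter (fun v => (thr Γ j0).p2 * ℬ.card ≤ (nn ℬ {v} : ℝ)) ∪
          B.filter (fun v => (nn ℬ {v} : ℝ) < E * n) ∪
          B.filter (fun v => 1 ≤ d.bk v ∧ (d.bk v + 3) % K = i0 % K) := by
        intro v hv
        simp only [mem_union]
        by_cases hvZ : v ∈ Z
        · have hpos : 0 < nn ℬ {v} := nn_pos_of_mem hBB (singleton_subset_iff.2 hv)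
          rcases bkD_cases (nb := nb) hΓ hj0 hvZ hpos with h3 | h3 | h3
          · by_cases h4 : (d.bk v + 3) % K = i0 % K
            · right
              exact mem_filter.2 ⟨hv, h3, h4⟩
            · left; left; left; left
              exact mem_filter.2 ⟨hv, h3, h4⟩
          · left; left; right
            exact mem_filter.2 ⟨hv, h3⟩
          · left; right
            exact mem_filter.2 ⟨hv, h3⟩
        · left; left; left; right
          exact mem_sdiff.2 ⟨hv, hvZ⟩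
      have hc := card_le_card hcov
      have hc2 : B.card ≤ (trim d K i0 B).card + (B \ Z).card + com B + ult B + nbv i0 B := by
        refine hc.trans ?_
        refine (card_union_le _ _).trans ?_
        apply Nat.add_le_add_right
        refine (card_union_le _ _).trans ?_
        apply Nat.add_le_add_right
        refine (card_union_le _ _).trans ?_
        apply Nat.add_le_add_right
        exact card_union_le _ _
      have hc3 : (B.card : ℝ) ≤ ((trim d K i0 B).card : ℝ) + (B \ Z).card + com B + ult B +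
          nbv i0 B := by exact_mod_cast hc2
      linarith
    · exact hY

end Pool.Agent.Helper5.CV
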