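import Mathlib
import Pool.Agent.Helper5.CV.Defs

/-!
# MP_d32cb0_co, module D01: the totals of the two star families

PROOFS.  `Σ_{R : |R| ≤ q} N^{-|R|} = Σ_{e ≤ q} C(N,e) N^{-e} ≤ q + 1` (`C(N,e) ≤ N^e`).
`wD1`: exchange the sum over `S` (`Σ_S [bip … = S] = 1`), then `Σ_R Σ_U (q+1)^{-(r+1)} N^{-|R|} Π_k N^{-|U_k|}
= (q+1)^{-(r+1)} (Σ_R N^{-|R|}) (Σ_U N^{-|U|})^r ≤ 1` (`Finset.prod_univ_sum` / `Fintype.piFinset`).
`wD2`: `Σ_Z 1/((N+1) C(N,|Z|)) = Σ_{z ≤ N} 1/(N+1) = 1`.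
-/

set_option autoImplicit false

namespace Pool.Agent.Helper5.CV

open Finset Pool.Agent.Helper25.CliqueGame
open Pool.Agent.Helper78.CG (EI)

theorem wD1_nonneg {N : ℕ} (q r : ℕ) (S : Finset (Sym2 (Fin N))) : 0 ≤ wD1 q r S := by
  unfold wD1
  refine sum_nonneg fun R _ => sum_nonneg fun U _ => ?_
  split_ifs
  · positivity
  · exact le_refl 0

/-- the sum of `N^{-|R|}` over the sets with at most `q` elements -/
private theorem sumR {N : ℕ} (hN : 1 ≤ N) (q : ℕ) :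
    ∑ R ∈ univ.filter (fun R : Finset (Fin N) => R.card ≤ q), (N : ℝ)⁻¹ ^ R.card ≤ (q : ℝ) + 1 := by
  have hNpos : (0 : ℝ) < N := by exact_mod_cast hN
  rw [← Finset.sum_fiberwise_of_maps_to (t := range (q + 1)) (g := fun R : Finset (Fin N) => R.card)
    (fun R hR => mem_range.2 (Nat.lt_succ_of_le (mem_filter.1 hR).2))]
  have hbd : ∀ e ∈ range (q + 1),
      ∑ R ∈ (univ.filter (fun R : Finset (Fin N) => R.card ≤ q)).filter (fun R => R.card = e),
        (N : ℝ)⁻¹ ^ R.card ≤ 1 := by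
    intro e _
    have h1 : ∑ R ∈ (univ.filter (fun R : Finset (Fin N) => R.card ≤ q)).filter
        (fun R => R.card = e), (N : ℝ)⁻¹ ^ R.card
        ≤ ∑ R ∈ powersetCard e (univ : Finset (Fin N)), (N : ℝ)⁻¹ ^ e := by
      have h2 : ∑ R ∈ (univ.filter (fun R : Finset (Fin N) => R.card ≤ q)).filter
          (fun R => R.card = e), (N : ℝ)⁻¹ ^ R.card
          = ∑ R ∈ (univ.filter (fun R : Finset (Fin N) => R.card ≤ q)).filter
          (fun R => R.card = e), (N : ℝ)⁻¹ ^ e := by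
        refine sum_congr rfl fun R hR => ?_
        rw [(mem_filter.1 hR).2]
      rw [h2]
      refine sum_le_sum_of_subset_of_nonneg ?_ fun _ _ _ => by positivity
      intro R hR
      rw [mem_powersetCard]
      exact ⟨subset_univ _, (mem_filter.1 hR).2⟩
    refine h1.trans ?_
    rw [sum_const, card_powersetCard, card_univ, Fintype.card_fin, nsmul_eq_mul, inv_pow]
    rw [mul_inv_le_iff₀ (by positivity), one_mul]
    exact_mod_cast Nat.choose_le_pow N e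
  calc _ ≤ ∑ e ∈ range (q + 1), (1 : ℝ) := sum_le_sum hbd
    _ = (q : ℝ) + 1 := by simp

/-- the sum over the families `U` -/
private theorem sumU {N : ℕ} (q r : ℕ) :
    ∑ U ∈ univ.filter (fun U : Fin r → Finset (Fin N) => ∀ k, (U k).card ≤ q),
      (N : ℝ)⁻¹ ^ (∑ k, (U k).card)
      = (∑ R ∈ univ.filter (fun R : Finset (Fin N) => R.card ≤ q), (N : ℝ)⁻¹ ^ R.card) ^ r := by
  have h1 : univ.filter (fun U : Fin r → Finset (Fin N) => ∀ k, (U k).card ≤ q)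
      = Fintype.piFinset (fun _ : Fin r => univ.filter (fun R : Finset (Fin N) => R.card ≤ q)) := by
    ext U
    simp [Fintype.mem_piFinset]
  rw [h1]
  have h2 := Finset.prod_univ_sum (fun _ : Fin r => univ.filter
    (fun R : Finset (Fin N) => R.card ≤ q)) (fun _ R => (N : ℝ)⁻¹ ^ R.card)
  rw [prod_const, card_univ, Fintype.card_fin] at h2
  rw [h2]
  refine sum_congr rfl fun U _ => ?_
  rw [prod_pow_eq_pow_sum]

theorem sum_wD1_le {N : ℕ} (hN : 1 ≤ N) (q r : ℕ) :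
    ∑ S : Finset (Sym2 (Fin N)), wD1 q r S ≤ 1 := by
  unfold wD1
  rw [sum_comm]
  have h1 : ∀ R ∈ univ.filter (fun R : Finset (Fin N) => R.card ≤ q),
      ∑ S : Finset (Sym2 (Fin N)),
        ∑ U ∈ univ.filter (fun U : Fin r → Finset (Fin N) => ∀ k, (U k).card ≤ q),
          (if bip R (univ.biUnion U) = S then
            ((q : ℝ) + 1)⁻¹ ^ (r + 1) * (N : ℝ)⁻¹ ^ (R.card + ∑ k, (U k).card) else 0)
      = ((q : ℝ) + 1)⁻¹ ^ (r + 1) * ((N : ℝ)⁻¹ ^ R.card *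
        (∑ R ∈ univ.filter (fun R : Finset (Fin N) => R.card ≤ q), (N : ℝ)⁻¹ ^ R.card) ^ r) := by
    intro R _
    rw [sum_comm, ← sumU, mul_sum, mul_sum]
    refine sum_congr rfl fun U _ => ?_
    rw [sum_ite_eq]
    simp only [mem_univ, if_true]
    rw [pow_add (N : ℝ)⁻¹]
  rw [sum_congr rfl h1, ← mul_sum, ← sum_mul]
  set s := ∑ R ∈ univ.filter (fun R : Finset (Fin N) => R.card ≤ q), (N : ℝ)⁻¹ ^ R.card with hs
  have hs1 : s ≤ (q : ℝ) + 1 := sumR hN q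
  have hs0 : 0 ≤ s := sum_nonneg fun _ _ => by positivity
  have hq : (0 : ℝ) < (q : ℝ) + 1 := by positivity
  rw [← pow_succ', inv_pow, inv_mul_le_iff₀ (by positivity), mul_one]
  exact pow_le_pow_left₀ hs0 hs1 _

theorem wD2_nonneg {N : ℕ} (q : ℕ) (S : Finset (Sym2 (Fin N))) : 0 ≤ wD2 q S := by
  unfold wD2
  refine sum_nonneg fun R _ => sum_nonneg fun U _ => ?_
  split_ifs
  · positivity
  · exact le_refl 0

private theorem sumZ {N : ℕ} :
    ∑ Z : Finset (Fin N), ((N.choose Z.card : ℕ) : ℝ)⁻¹ = (N : ℝ) + 1 := by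
  rw [← powerset_univ, sum_powerset_apply_card (fun k => ((N.choose k : ℕ) : ℝ)⁻¹)]
  rw [card_univ, Fintype.card_fin]
  have h : ∀ k ∈ range (N + 1), (N.choose k) • ((N.choose k : ℕ) : ℝ)⁻¹ = 1 := by
    intro k hk
    rw [nsmul_eq_mul]
    refine mul_inv_cancel₀ ?_
    have : 0 < N.choose k := Nat.choose_pos (Nat.lt_succ_iff.1 (mem_range.1 hk))
    exact_mod_cast this.ne'
  rw [sum_congr rfl h]
  simp

theorem sum_wD2_le {N : ℕ} (hN : 1 ≤ N) (q : ℕ) :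
    ∑ S : Finset (Sym2 (Fin N)), wD2 q S ≤ 1 := by
  unfold wD2
  rw [sum_comm]
  have h1 : ∀ R ∈ univ.filter (fun R : Finset (Fin N) => R.card ≤ q),
      ∑ S : Finset (Sym2 (Fin N)), ∑ Z : Finset (Fin N),
        (if bip R Z = S then
          ((q : ℝ) + 1)⁻¹ * (N : ℝ)⁻¹ ^ R.card * ((N : ℝ) + 1)⁻¹ * ((N.choose Z.card : ℕ) : ℝ)⁻¹
        else 0)
      = ((q : ℝ) + 1)⁻¹ * (N : ℝ)⁻¹ ^ R.card := by
    intro R _
    rw [sum_comm]
    have h2 : ∀ Z ∈ (univ : Finset (Finset (Fin N))), ∑ S : Finset (Sym2 (Fin N)),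
        (if bip R Z = S then
          ((q : ℝ) + 1)⁻¹ * (N : ℝ)⁻¹ ^ R.card * ((N : ℝ) + 1)⁻¹ * ((N.choose Z.card : ℕ) : ℝ)⁻¹
        else 0)
        = ((q : ℝ) + 1)⁻¹ * (N : ℝ)⁻¹ ^ R.card * ((N : ℝ) + 1)⁻¹ *
          ((N.choose Z.card : ℕ) : ℝ)⁻¹ := by
      intro Z _
      rw [sum_ite_eq]
      simp only [mem_univ, if_true]
    rw [sum_congr rfl h2, ← mul_sum, sumZ, mul_assoc, inv_mul_cancel₀ (by positivity), mul_one]
  rw [sum_congr rfl h1, ← mul_sum, inv_mul_le_iff₀ (by positivity), mul_one]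
  exact sumR hN q

end Pool.Agent.Helper5.CV
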