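import Mathlib
import Pool.Agent.Helper5.CV.DefsN
import Pool.Agent.Helper5.CV.DatSum
import Pool.Agent.Helper5.CV.StarT

/-!
# MP_d32cb0_co, module F05: the total of the static family

PROOF.  `sum_wD1_le, sum_wD2_le, sum_wlev_le` (hypothesis `N (nb+1) + N² + N² (N²+3) ≤ N^10`: from `nb + 1 ≤ N`, `2 ≤ N`):
`Σ w0 ≤ 1 + 1 + K #Prof tp (K #Prof tp)⁻¹ e ≤ 2 + e ≤ 5` (`Real.exp_one_lt_d9`), for `K, tp ≥ 1` (`#Prof ≥ 1`).  So
`(1 + b) Σ w0 + 1 ≤ CC b`.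
`pot_wD1_le`: `wD1 ≤ w0` pointwise and `gain ≥ 0`.
-/

set_option autoImplicit false

namespace Pool.Agent.Helper5.CV

open Finset Pool.Agent.Helper25.CliqueGame
open Pool.Agent.Helper78.CG (EI)

theorem w0_nonneg {N : ℕ} (m b q r K : ℕ) (Γ ηB ηC : ℝ) (lo cm tp nb nt : ℕ)
    (S : Finset (Sym2 (Fin N))) : 0 ≤ w0 m b q r K Γ ηB ηC lo cm tp nb nt S := by
  unfold w0
  refine add_nonneg (add_nonneg (wD1_nonneg q r S) (wD2_nonneg q S)) ?_
  refine sum_nonneg fun i0 _ => sum_nonneg fun π _ => sum_nonneg fun l _ => ?_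
  exact mul_nonneg (by positivity) (wlev_nonneg _ _ _ _ _ _ _)

theorem sum_w0_le {N nb : ℕ} (hN : 2 ≤ N) (hnb : nb + 1 ≤ N) {K tp : ℕ} (hK : 1 ≤ K)
    (htp : 1 ≤ tp) (m b q r : ℕ) (Γ ηB ηC : ℝ) (lo cm : ℕ) :
    (1 + (b : ℝ)) * ∑ S : Finset (Sym2 (Fin N)),
      w0 m b q r K Γ ηB ηC lo cm tp (nb + 1) (N ^ 2 + 3) S + 1 ≤ CC b := by
  have hN1 : 1 ≤ N := by omega
  have hyp : N * (nb + 1) + N ^ 2 + N ^ 2 * (N ^ 2 + 3) ≤ N ^ 10 := by
    have h1 : N * (nb + 1) ≤ N * N := Nat.mul_le_mul le_rfl hnb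
    have h2 : 2 ^ 6 ≤ N ^ 6 := Nat.pow_le_pow_left hN 6
    have h3 : N ^ 10 = N ^ 4 * N ^ 6 := by ring
    have h4 : N ^ 4 * 64 ≤ N ^ 4 * N ^ 6 := Nat.mul_le_mul le_rfl (by norm_num at h2 ⊢; exact h2)
    have h5 : N ^ 2 ≤ N ^ 4 := Nat.pow_le_pow_right hN1 (by norm_num)
    have h6 : N * N = N ^ 2 := by ring
    have h7 : N ^ 2 * (N ^ 2 + 3) = N ^ 4 + 3 * N ^ 2 := by ring
    rw [h3, h7]
    rw [h6] at h1
    omega
  have hlev : ∀ Y : Sys, ∀ l : ℕ, ∑ S : Finset (Sym2 (Fin N)),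
      wlev m b Y l (nb + 1) (N ^ 2 + 3) S ≤ Real.exp 1 := fun Y l => sum_wlev_le hN1 hyp m b Y l
  have hKR : (0 : ℝ) < K := by exact_mod_cast hK
  have htR : (0 : ℝ) < tp := by exact_mod_cast htp
  have hPR : (0 : ℝ) < (Fintype.card (Prof q cm tp) : ℝ) := by
    have : 0 < Fintype.card (Prof q cm tp) := Fintype.card_pos
    exact_mod_cast this
  have hsum : ∑ S : Finset (Sym2 (Fin N)),
      w0 m b q r K Γ ηB ηC lo cm tp (nb + 1) (N ^ 2 + 3) S ≤ 1 + 1 + Real.exp 1 := by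
    unfold w0
    rw [sum_add_distrib, sum_add_distrib]
    refine add_le_add (add_le_add (sum_wD1_le hN1 q r) (sum_wD2_le hN1 q)) ?_
    rw [sum_comm]
    have h1 : ∀ i0 ∈ Ico lo (lo + K), ∑ S : Finset (Sym2 (Fin N)), ∑ π : Prof q cm tp,
        ∑ l ∈ range tp, ((K : ℝ) * (Fintype.card (Prof q cm tp) : ℝ) * tp)⁻¹ *
          wlev m b (mkY q K Γ ηB ηC i0 π.t π.c) l (nb + 1) (N ^ 2 + 3) S ≤
        (Fintype.card (Prof q cm tp) : ℝ) * (tp *
          (((K : ℝ) * (Fintype.card (Prof q cm tp) : ℝ) * tp)⁻¹ * Real.exp 1)) := by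
      intro i0 _
      rw [sum_comm]
      have h2 : ∀ π ∈ (univ : Finset (Prof q cm tp)), ∑ S : Finset (Sym2 (Fin N)),
          ∑ l ∈ range tp, ((K : ℝ) * (Fintype.card (Prof q cm tp) : ℝ) * tp)⁻¹ *
            wlev m b (mkY q K Γ ηB ηC i0 π.t π.c) l (nb + 1) (N ^ 2 + 3) S ≤
          tp * (((K : ℝ) * (Fintype.card (Prof q cm tp) : ℝ) * tp)⁻¹ * Real.exp 1) := by
        intro π _
        rw [sum_comm]
        have h3 : ∀ l ∈ range tp, ∑ S : Finset (Sym2 (Fin N)),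
            ((K : ℝ) * (Fintype.card (Prof q cm tp) : ℝ) * tp)⁻¹ *
              wlev m b (mkY q K Γ ηB ηC i0 π.t π.c) l (nb + 1) (N ^ 2 + 3) S ≤
            ((K : ℝ) * (Fintype.card (Prof q cm tp) : ℝ) * tp)⁻¹ * Real.exp 1 := by
          intro l _
          rw [← mul_sum]
          exact mul_le_mul_of_nonneg_left (hlev _ l) (by positivity)
        refine (sum_le_sum h3).trans (le_of_eq ?_)
        rw [sum_const, card_range, nsmul_eq_mul]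
      refine (sum_le_sum h2).trans (le_of_eq ?_)
      rw [sum_const, card_univ, nsmul_eq_mul]
    refine (sum_le_sum h1).trans (le_of_eq ?_)
    rw [sum_const, Nat.card_Ico, nsmul_eq_mul, Nat.add_sub_cancel_left]
    field_simp
  have he : Real.exp 1 ≤ 3 := by
    have := Real.exp_one_lt_d9
    linarith
  have hb : (0 : ℝ) ≤ 1 + (b : ℝ) := by positivity
  unfold CC
  have h5 : (1 + (b : ℝ)) * ∑ S : Finset (Sym2 (Fin N)),
      w0 m b q r K Γ ηB ηC lo cm tp (nb + 1) (N ^ 2 + 3) S ≤ (1 + (b : ℝ)) * 5 :=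
    mul_le_mul_of_nonneg_left (by linarith) hb
  linarith

private theorem w0t_gain_nonneg {α : Type*} [DecidableEq α] (m b : ℕ) (l : List (Finset α))
    (S : Finset α) : 0 ≤ gain m b l S := by
  unfold gain
  refine List.prod_nonneg ?_
  intro a ha
  rw [List.mem_map] at ha
  obtain ⟨X, _, rfl⟩ := ha
  positivity

private theorem w0t_pot_mono {N : ℕ} (m b : ℕ) {w w' : Finset (Sym2 (Fin N)) → ℝ}
    (h : ∀ S, w S ≤ w' S) (P : Pos (Sym2 (Fin N))) : pot m b w P ≤ pot m b w' P := by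
  unfold pot
  exact sum_le_sum fun S _ => mul_le_mul_of_nonneg_right (h S) (w0t_gain_nonneg m b P.mv S)

private theorem w0t_tail_nonneg {N : ℕ} (m b q K : ℕ) (Γ ηB ηC : ℝ) (lo cm tp nb nt : ℕ)
    (S : Finset (Sym2 (Fin N))) : 0 ≤ ∑ i0 ∈ Ico lo (lo + K), ∑ π : Prof q cm tp,
      ∑ l ∈ range tp, ((K : ℝ) * (Fintype.card (Prof q cm tp) : ℝ) * tp)⁻¹ *
        wlev m b (mkY q K Γ ηB ηC i0 π.t π.c) l nb nt S := by
  refine sum_nonneg fun i0 _ => sum_nonneg fun π _ => sum_nonneg fun l _ => ?_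
  exact mul_nonneg (by positivity) (wlev_nonneg _ _ _ _ _ _ _)

theorem pot_wD1_le {N : ℕ} (m b q r K : ℕ) (Γ ηB ηC : ℝ) (lo cm tp nb nt : ℕ)
    (P : Pos (Sym2 (Fin N))) :
    pot m b (wD1 q r) P ≤ pot m b (w0 m b q r K Γ ηB ηC lo cm tp nb nt) P := by
  refine w0t_pot_mono m b (fun S => ?_) P
  have h1 := w0t_tail_nonneg m b q K Γ ηB ηC lo cm tp nb nt S
  have h2 := wD2_nonneg q S
  unfold w0
  linarith

theorem pot_wD2_le {N : ℕ} (m b q r K : ℕ) (Γ ηB ηC : ℝ) (lo cm tp nb nt : ℕ)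
    (P : Pos (Sym2 (Fin N))) :
    pot m b (wD2 q) P ≤ pot m b (w0 m b q r K Γ ηB ηC lo cm tp nb nt) P := by
  refine w0t_pot_mono m b (fun S => ?_) P
  have h1 := w0t_tail_nonneg m b q K Γ ηB ηC lo cm tp nb nt S
  have h2 := wD1_nonneg q r S
  unfold w0
  linarith

end Pool.Agent.Helper5.CV
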