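import Mathlib
import Pool.Agent.Helper5.CV.Defs
import Pool.Agent.Helper5.CV.Kap
import Pool.Agent.Helper5.CV.CostL

/-!
# MP_d32cb0_co, module D04: the star bound

PROOF.  The term `R = ρ`, `Z` of `wD2`: `S = bip ρ Z` is disjoint from `P.B`, `|S| = e|Z|` (`ρ`, `Z` disjoint), at most `s2 |Z|` of its
elements are not in `P.M`: `gain ≥ exp(μ |Z| (e - s2))` (`log_gain_ge`; `μ ≥ 0`).  So
`C ≥ (q+1)^{-1} N^{-e} (N+1)^{-1} C(N,|Z|)^{-1} exp(μ|Z|(e-s2))`.  `C(N,z) ≤ N^z/z! ≤ (e N/z)^z`, i.e.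
`log C(N,z) ≤ z (L - log z + 1)` (`z! ≥ (z/e)^z`).  Take logarithms and divide by `|Z|`.
-/

set_option autoImplicit false

namespace Pool.Agent.Helper5.CV

open Finset Pool.Agent.Helper25.CliqueGame
open Pool.Agent.Helper78.CG (EI)

private theorem log_choose_le {N z : ℕ} (hN : 1 ≤ N) (hz : 1 ≤ z) (hzN : z ≤ N) :
    Real.log (N.choose z : ℕ) ≤ z * (Real.log N - Real.log z + 1) := by
  have hN0 : (0 : ℝ) < N := by exact_mod_cast hN
  have hz0 : (0 : ℝ) < z := by exact_mod_cast hz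
  have h1 : ((N.choose z : ℕ) : ℝ) ≤ (N : ℝ) ^ z / (z.factorial : ℝ) :=
    Nat.choose_le_pow_div z N
  have h2 : (z : ℝ) ^ z / (z.factorial : ℝ) ≤ Real.exp z :=
    Real.pow_div_factorial_le_exp (z : ℝ) hz0.le z
  have hf : (0 : ℝ) < (z.factorial : ℝ) := by exact_mod_cast Nat.factorial_pos z
  have hc : (0 : ℝ) < ((N.choose z : ℕ) : ℝ) := by exact_mod_cast Nat.choose_pos hzN
  have h3 : Real.log (N.choose z : ℕ) ≤ Real.log ((N : ℝ) ^ z / (z.factorial : ℝ)) :=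
    Real.log_le_log hc h1
  have h4 : Real.log ((z : ℝ) ^ z / (z.factorial : ℝ)) ≤ z := by
    have h5 := Real.log_le_log (by positivity) h2
    rwa [Real.log_exp] at h5
  rw [Real.log_div (by positivity) hf.ne', Real.log_pow] at h3 h4
  nlinarith [h3, h4]

private theorem bip_union {V : Type*} [DecidableEq V] (R Z : Finset V) :
    bip R Z = Z.biUnion (fun v => bip R {v}) := by
  ext e
  simp only [bip, mem_image, mem_product, mem_biUnion, mem_singleton, Prod.exists]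
  constructor
  · rintro ⟨a, v, ⟨ha, hv⟩, rfl⟩
    exact ⟨v, hv, a, v, ⟨ha, rfl⟩, rfl⟩
  · rintro ⟨v, hv, a, w, ⟨ha, rfl⟩, rfl⟩
    exact ⟨a, w, ⟨ha, hv⟩, rfl⟩

private theorem card_bip {V : Type*} [DecidableEq V] {R Z : Finset V} (h : ∀ v ∈ Z, v ∉ R) :
    (bip R Z).card = R.card * Z.card := by
  unfold bip
  rw [card_image_of_injOn, card_product]
  rintro ⟨a, v⟩ hx ⟨a', v'⟩ hy hxy
  simp only [coe_product, Set.mem_prod, mem_coe] at hx hy
  simp only [Sym2.eq_iff] at hxy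
  rcases hxy with ⟨h1, h2⟩ | ⟨h1, h2⟩
  · rw [h1, h2]
  · exfalso
    exact h v' hy.2 (h1 ▸ hx.1)

theorem star_bound {N m b q : ℕ} (hm : 1 ≤ m) (hN : 2 ≤ N)
    {P : Pos (Sym2 (Fin N))} (hP : GP m (edges N) P) {C : ℝ} (hC : 0 < C)
    (hpot : pot m b (wD2 q) P ≤ C) {ρ Z : Finset (Fin N)} (hρ : ρ.card ≤ q) (hZ1 : Z.Nonempty)
    {s2 : ℝ} (hZ : ∀ v ∈ Z, v ∉ ρ ∧ Disjoint (bip ρ {v}) P.B ∧
      ((bip ρ {v} \ P.M).card : ℝ) ≤ s2) :
    mu m b * ((ρ.card : ℝ) - s2) ≤ Real.log N - Real.log Z.card + 1 +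
      (ρ.card * Real.log N + Real.log C + Real.log (q + 1) + Real.log (N + 1)) / Z.card := by
  classical
  have hN0 : (0 : ℝ) < N := by
    have : 0 < N := by omega
    exact_mod_cast this
  have hz : 1 ≤ Z.card := hZ1.card_pos
  have hz0 : (0 : ℝ) < Z.card := by exact_mod_cast hz
  have hzN : Z.card ≤ N := by
    have := card_le_univ Z
    simpa using this
  have hmu : 0 ≤ mu m b := by
    unfold mu
    exact div_nonneg (lam_nonneg m b m) (Nat.cast_nonneg m)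
  set S := bip ρ Z with hS
  have hSB : Disjoint S P.B := by
    rw [hS, bip_union, disjoint_biUnion_left]
    intro v hv
    exact (hZ v hv).2.1
  have hScard : S.card = ρ.card * Z.card := card_bip (fun v hv => (hZ v hv).1)
  have hSM : ((S \ P.M).card : ℝ) ≤ s2 * Z.card := by
    have h1 : S \ P.M ⊆ Z.biUnion (fun v => bip ρ {v} \ P.M) := by
      intro e he
      rw [mem_sdiff, hS, bip_union, mem_biUnion] at he
      obtain ⟨⟨v, hv, hev⟩, heM⟩ := he
      exact mem_biUnion.2 ⟨v, hv, mem_sdiff.2 ⟨hev, heM⟩⟩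
    have h2 : (S \ P.M).card ≤ ∑ v ∈ Z, (bip ρ {v} \ P.M).card :=
      (card_le_card h1).trans card_biUnion_le
    calc ((S \ P.M).card : ℝ) ≤ ((∑ v ∈ Z, (bip ρ {v} \ P.M).card : ℕ) : ℝ) := by exact_mod_cast h2
      _ = ∑ v ∈ Z, ((bip ρ {v} \ P.M).card : ℝ) := by push_cast; rfl
      _ ≤ ∑ _v ∈ Z, s2 := sum_le_sum (fun v hv => (hZ v hv).2.2)
      _ = s2 * Z.card := by rw [sum_const, nsmul_eq_mul, mul_comm]
  have hSI : ((ρ.card : ℝ) - s2) * Z.card ≤ ((S ∩ uni P.mv).card : ℝ) := by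
    have h1 : (S ∩ uni P.mv).card + (S \ P.M).card = S.card := by
      have := card_inter_add_card_sdiff S (uni P.mv)
      exact this
    have h2 : ((S ∩ uni P.mv).card : ℝ) + ((S \ P.M).card : ℝ) = (ρ.card : ℝ) * Z.card := by
      have h3 : (((S ∩ uni P.mv).card + (S \ P.M).card : ℕ) : ℝ) = ((ρ.card * Z.card : ℕ) : ℝ) := by
        rw [h1, hScard]
      push_cast at h3
      exact h3
    nlinarith [h2, hSM]
  have hg1 : 1 ≤ gain m b P.mv S := one_le_gain m b P.mv S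
  have hg0 : 0 < gain m b P.mv S := lt_of_lt_of_le one_pos hg1
  have hgl : mu m b * (((ρ.card : ℝ) - s2) * Z.card) ≤ Real.log (gain m b P.mv S) :=
    (mul_le_mul_of_nonneg_left hSI hmu).trans (log_gain_ge hm P.mv hP.card hP.pw S)
  have hch0 : (0 : ℝ) < ((N.choose Z.card : ℕ) : ℝ) := by exact_mod_cast Nat.choose_pos hzN
  -- the weight
  set w0 : ℝ := ((q : ℝ) + 1)⁻¹ * (N : ℝ)⁻¹ ^ ρ.card * ((N : ℝ) + 1)⁻¹ *
    ((N.choose Z.card : ℕ) : ℝ)⁻¹ with hw0
  have hw0pos : 0 < w0 := by rw [hw0]; positivity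
  have hterm : ∀ (R Z' : Finset (Fin N)) (T : Finset (Sym2 (Fin N))), 0 ≤ (if bip R Z' = T then
        ((q : ℝ) + 1)⁻¹ * (N : ℝ)⁻¹ ^ R.card * ((N : ℝ) + 1)⁻¹ * ((N.choose Z'.card : ℕ) : ℝ)⁻¹
      else 0) := by
    intro R Z' T
    split_ifs
    · positivity
    · exact le_rfl
  have hwnn : ∀ T : Finset (Sym2 (Fin N)), 0 ≤ wD2 q T := by
    intro T
    unfold wD2
    exact sum_nonneg (fun R _ => sum_nonneg (fun Z' _ => hterm R Z' T))
  have hw : w0 ≤ wD2 q S := by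
    unfold wD2
    calc w0 = (if bip ρ Z = S then
        ((q : ℝ) + 1)⁻¹ * (N : ℝ)⁻¹ ^ ρ.card * ((N : ℝ) + 1)⁻¹ * ((N.choose Z.card : ℕ) : ℝ)⁻¹
      else 0) := by rw [if_pos hS.symm]
      _ ≤ ∑ Z' : Finset (Fin N), (if bip ρ Z' = S then
        ((q : ℝ) + 1)⁻¹ * (N : ℝ)⁻¹ ^ ρ.card * ((N : ℝ) + 1)⁻¹ * ((N.choose Z'.card : ℕ) : ℝ)⁻¹
      else 0) := single_le_sum (f := fun Z' : Finset (Fin N) => (if bip ρ Z' = S then
        ((q : ℝ) + 1)⁻¹ * (N : ℝ)⁻¹ ^ ρ.card * ((N : ℝ) + 1)⁻¹ * ((N.choose Z'.card : ℕ) : ℝ)⁻¹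
      else 0)) (fun Z' _ => hterm ρ Z' S) (mem_univ Z)
      _ ≤ _ := single_le_sum (f := fun R : Finset (Fin N) => ∑ Z' : Finset (Fin N),
        (if bip R Z' = S then
        ((q : ℝ) + 1)⁻¹ * (N : ℝ)⁻¹ ^ R.card * ((N : ℝ) + 1)⁻¹ * ((N.choose Z'.card : ℕ) : ℝ)⁻¹
      else 0)) (fun R _ => sum_nonneg (fun Z' _ => hterm R Z' S))
        (mem_filter.2 ⟨mem_univ ρ, hρ⟩)
  have hCg : w0 * gain m b P.mv S ≤ C := by
    refine le_trans ?_ hpot
    unfold pot
    calc w0 * gain m b P.mv S ≤ wD2 q S * gain m b P.mv S :=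
          mul_le_mul_of_nonneg_right hw hg0.le
      _ ≤ _ := single_le_sum (f := fun T => wD2 q T * gain m b P.mv T)
        (fun T _ => mul_nonneg (hwnn T) (zero_le_one.trans (one_le_gain m b P.mv T)))
        (mem_filter.2 ⟨mem_univ S, hSB⟩)
  have hlog := Real.log_le_log (mul_pos hw0pos hg0) hCg
  rw [Real.log_mul hw0pos.ne' hg0.ne'] at hlog
  have hq0 : (0 : ℝ) < (q : ℝ) + 1 := by positivity
  have hlw : Real.log w0 = -(Real.log (q + 1) + ρ.card * Real.log N + Real.log (N + 1) +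
      Real.log (N.choose Z.card : ℕ)) := by
    rw [hw0, Real.log_mul (by positivity) (by positivity),
      Real.log_mul (by positivity) (by positivity),
      Real.log_mul (by positivity) (by positivity), Real.log_inv, Real.log_inv, Real.log_inv,
      Real.log_pow, Real.log_inv]
    ring
  have hlc := log_choose_le (by omega : 1 ≤ N) hz hzN
  have hfin : mu m b * ((ρ.card : ℝ) - s2) * Z.card ≤
      (Real.log N - Real.log Z.card + 1) * Z.card +
      (ρ.card * Real.log N + Real.log C + Real.log (q + 1) + Real.log (N + 1)) := by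
    rw [hlw] at hlog
    nlinarith [hlog, hlc, hgl]
  have hfin2 : mu m b * ((ρ.card : ℝ) - s2) ≤
      ((Real.log N - Real.log Z.card + 1) * Z.card +
      (ρ.card * Real.log N + Real.log C + Real.log (q + 1) + Real.log (N + 1))) / Z.card := by
    rw [le_div_iff₀ hz0]
    exact hfin
  rw [add_div, mul_div_assoc, div_self hz0.ne', mul_one] at hfin2
  exact hfin2

end Pool.Agent.Helper5.CV
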