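import Mathlib
import Pool.Agent.Helper5.CV.DefsN
import Pool.Agent.Helper5.CV.NN
import Pool.Agent.Helper5.CV.StarB
import Pool.Agent.Helper5.CV.Kap

/-!
# MP_d32cb0_co, module F01: the set `Z`

`Z = Zs P ρ (q/K)`.
`card_out`: for `B ∈ ℬ` every `v ∈ B \ Z` has `v ∉ ρ`, `bip ρ {v}` disjoint from `P.B` (it is contained in `EI (ρ ∪ B)`), so more than `q/K` elements of
`bip ρ {v}` are not in `P.M`; these sets are disjoint subsets of `EI (ρ∪B) \ P.M` (`u` elements): `|B \ Z| q/K ≤ u ≤ u0 + m`.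
`z_small`: if `|Z| < q³`: `Σ_B #{v ∈ B ∩ Z : n(v) < p2|ℬ|} ≤ |Z| p2 |ℬ| ≤ |ℬ|` (`hn.qp2`), and `Σ_B #{v ∈ B : p2|ℬ| ≤ n(v)} ≤ (1/K) q |ℬ|`, so some `B` has
`|B ∩ Z| ≤ q/K + 1`; `q = |ρ| + |B| ≤ |ρ| + q/K + 1 + (u0+m)K/q ≤ |ρ| + σ L` (`hn.com`).
`z_large`: `star_bound` with `s2 = q/K`, `C = CC b`: if `q³ ≤ |Z|` the last quotient is `≤ 1` (`hn.st2`, `|ρ| ≤ q`), so
`μ|ρ| - μ q/K ≤ L - log|Z| + 2`; `hn.st1`.
-/

set_option autoImplicit false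

namespace Pool.Agent.Helper5.CV

open Finset Pool.Agent.Helper25.CliqueGame
open Pool.Agent.Helper78.CG (EI)

private theorem h86_mem_EI {N : ℕ} {W : Finset (Fin N)} {a v : Fin N} (ha : a ∈ W) (hv : v ∈ W)
    (h : a ≠ v) : s(a, v) ∈ EI W := by
  unfold EI edges
  rw [mem_filter, mem_filter]
  refine ⟨⟨mem_univ _, ?_⟩, ?_⟩
  · rw [Sym2.mk_isDiag_iff]
    exact h
  · intro x hx
    rw [Sym2.mem_iff] at hx
    rcases hx with rfl | rfl
    · exact ha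
    · exact hv

private theorem h86_bip_sub {N : ℕ} {ρ B : Finset (Fin N)} (hd : Disjoint ρ B) {v : Fin N}
    (hv : v ∈ B) : bip ρ {v} ⊆ EI (ρ ∪ B) := by
  intro e he
  unfold bip at he
  rw [mem_image] at he
  obtain ⟨⟨a, w⟩, hp, rfl⟩ := he
  rw [mem_product, mem_singleton] at hp
  obtain ⟨ha, hw⟩ := hp
  simp only at ha hw ⊢
  subst hw
  refine h86_mem_EI (mem_union_left _ ha) (mem_union_right _ hv) ?_
  rintro rfl
  exact (disjoint_left.1 hd ha) hv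

private theorem h86_bip_disj {N : ℕ} {ρ : Finset (Fin N)} {v w : Fin N} (hv : v ∉ ρ)
    (hvw : v ≠ w) : Disjoint (bip ρ {v}) (bip ρ {w}) := by
  rw [disjoint_left]
  intro e he he'
  unfold bip at he he'
  rw [mem_image] at he he'
  obtain ⟨⟨a, x⟩, hp, rfl⟩ := he
  obtain ⟨⟨a', x'⟩, hp', heq⟩ := he'
  rw [mem_product, mem_singleton] at hp hp'
  obtain ⟨ha, hx⟩ := hp
  obtain ⟨ha', hx'⟩ := hp'
  simp only at ha hx ha' hx' heq
  subst hx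
  subst hx'
  rw [Sym2.eq_iff] at heq
  rcases heq with ⟨_, h2⟩ | ⟨h1, _⟩
  · exact hvw h2.symm
  · exact hv (h1 ▸ ha')

theorem card_out {m b K N q u : ℕ} {σ R0 : ℝ} (hn : Num m b K N q σ R0)
    {P : Pos (Sym2 (Fin N))} {ρ : Finset (Fin N)} {ℬ : Finset (Finset (Fin N))}
    (hB : ∀ B ∈ ℬ, Disjoint ρ B ∧ ρ ∪ B ∈ AA P q u) (hu : u < u0q K q + m) :
    ∀ B ∈ ℬ, ((B \ Zs P ρ ((q : ℝ) / K)).card : ℝ) ≤ ((u0q K q : ℝ) + m) * K / q := by
  intro B hBm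
  obtain ⟨hd, hA⟩ := hB B hBm
  unfold AA at hA
  rw [mem_filter] at hA
  obtain ⟨-, -, hAB, hAu⟩ := hA
  have hq0 : (0 : ℝ) < q := by exact_mod_cast hn.q1
  have hK0 : (0 : ℝ) < K := by
    have : 0 < K := by have := hn.K4; omega
    exact_mod_cast this
  set Z := Zs P ρ ((q : ℝ) / K) with hZ
  have h1 : ∀ v ∈ B \ Z, (q : ℝ) / K ≤ ((bip ρ {v} \ P.M).card : ℝ) := by
    intro v hv
    rw [mem_sdiff] at hv
    by_contra hcon
    push Not at hcon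
    apply hv.2
    rw [hZ]
    unfold Zs
    rw [mem_filter]
    refine ⟨mem_univ _, ?_, ?_, hcon.le⟩
    · intro h
      exact (disjoint_left.1 hd h) hv.1
    · exact Disjoint.mono_left (h86_bip_sub hd hv.1) hAB
  have h2 : ((B \ Z).biUnion (fun v => bip ρ {v} \ P.M)).card =
      ∑ v ∈ B \ Z, (bip ρ {v} \ P.M).card := by
    apply card_biUnion
    intro v hv w hw hvw
    refine Disjoint.mono sdiff_subset sdiff_subset (h86_bip_disj ?_ hvw)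
    intro h
    exact (disjoint_left.1 hd h) (mem_sdiff.1 hv).1
  have h3 : ((B \ Z).biUnion (fun v => bip ρ {v} \ P.M)).card ≤ u := by
    rw [← hAu]
    apply card_le_card
    intro e he
    rw [mem_biUnion] at he
    obtain ⟨v, hv, hev⟩ := he
    rw [mem_sdiff] at hev ⊢
    exact ⟨h86_bip_sub hd (mem_sdiff.1 hv).1 hev.1, hev.2⟩
  have h4 : ((B \ Z).card : ℝ) * ((q : ℝ) / K) ≤ (u : ℝ) := by
    calc ((B \ Z).card : ℝ) * ((q : ℝ) / K) = ∑ _v ∈ B \ Z, (q : ℝ) / K := by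
          rw [sum_const, nsmul_eq_mul]
      _ ≤ ∑ v ∈ B \ Z, ((bip ρ {v} \ P.M).card : ℝ) := sum_le_sum h1
      _ = ((∑ v ∈ B \ Z, (bip ρ {v} \ P.M).card : ℕ) : ℝ) := by push_cast; rfl
      _ ≤ (u : ℝ) := by
          rw [← h2]
          exact_mod_cast h3
  have h5 : (u : ℝ) ≤ (u0q K q : ℝ) + m := by exact_mod_cast hu.le
  rw [le_div_iff₀ hq0]
  have h6 : ((B \ Z).card : ℝ) * ((q : ℝ) / K) ≤ (u0q K q : ℝ) + m := h4.trans h5
  have h7 : ((B \ Z).card : ℝ) * ((q : ℝ) / K) * K = ((B \ Z).card : ℝ) * q := by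
    field_simp
  rw [← h7]
  exact mul_le_mul_of_nonneg_right h6 hK0.le

private theorem h86_sum_inter {N : ℕ} (ℬ : Finset (Finset (Fin N))) (Y : Finset (Fin N)) :
    ∑ B ∈ ℬ, (B ∩ Y).card = ∑ v ∈ Y, nn ℬ {v} := by
  have h1 : ∀ B : Finset (Fin N), (B ∩ Y).card = ∑ v ∈ Y, if v ∈ B then 1 else 0 := by
    intro B
    rw [← card_filter]
    congr 1
    ext x
    rw [mem_inter, mem_filter]
    tauto
  have h2 : ∀ v : Fin N, nn ℬ {v} = ∑ B ∈ ℬ, if v ∈ B then 1 else 0 := by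
    intro v
    unfold nn
    rw [← card_filter]
    congr 1
    ext x
    rw [mem_filter, mem_filter, singleton_subset_iff]
  calc ∑ B ∈ ℬ, (B ∩ Y).card = ∑ B ∈ ℬ, ∑ v ∈ Y, (if v ∈ B then 1 else 0) :=
        sum_congr rfl (fun B _ => h1 B)
    _ = ∑ v ∈ Y, ∑ B ∈ ℬ, (if v ∈ B then 1 else 0) := sum_comm
    _ = ∑ v ∈ Y, nn ℬ {v} := sum_congr rfl (fun v _ => (h2 v).symm)

theorem z_small {m b K N q u : ℕ} {σ R0 : ℝ} (hn : Num m b K N q σ R0)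
    {P : Pos (Sym2 (Fin N))} {ρ : Finset (Fin N)} {ℬ : Finset (Finset (Fin N))}
    (hne : ℬ.Nonempty) (hB : ∀ B ∈ ℬ, Disjoint ρ B ∧ ρ ∪ B ∈ AA P q u)
    (hu : u < u0q K q + m)
    (h1 : ((∑ B ∈ ℬ, (B.filter (fun v => p2N K N * ℬ.card ≤
      (nn ℬ {v} : ℝ))).card : ℕ) : ℝ) ≤ 1 / (K : ℝ) * q * ℬ.card)
    (hZ : (Zs P ρ ((q : ℝ) / K)).card < q ^ 3) :
    (q : ℝ) ≤ ρ.card + σ * Real.log N := by
  classical
  have hout := card_out hn hB hu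
  set Z := Zs P ρ ((q : ℝ) / K) with hZdef
  have hp2 : 0 ≤ p2N K N := by
    unfold p2N thr
    exact (Real.exp_pos _).le
  have hb0 : (0 : ℝ) < ℬ.card := by exact_mod_cast hne.card_pos
  -- the rare vertices of `Z`
  set Y := Z.filter (fun v => (nn ℬ {v} : ℝ) < p2N K N * ℬ.card) with hY
  have h2 : ((∑ B ∈ ℬ, (B ∩ Y).card : ℕ) : ℝ) ≤ ℬ.card := by
    rw [h86_sum_inter]
    push_cast
    calc ∑ v ∈ Y, (nn ℬ {v} : ℝ) ≤ ∑ _v ∈ Y, p2N K N * ℬ.card :=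
          sum_le_sum (fun v hv => (mem_filter.1 hv).2.le)
      _ = (Y.card : ℝ) * (p2N K N * ℬ.card) := by rw [sum_const, nsmul_eq_mul]
      _ ≤ ((q : ℝ) ^ 3) * (p2N K N * ℬ.card) := by
          apply mul_le_mul_of_nonneg_right _ (mul_nonneg hp2 hb0.le)
          have h3 : Y.card ≤ q ^ 3 := (card_filter_le _ _).trans hZ.le
          exact_mod_cast h3
      _ = ((q : ℝ) ^ 3 * p2N K N) * ℬ.card := by ring
      _ ≤ 1 * ℬ.card := mul_le_mul_of_nonneg_right hn.qp2 hb0.le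
      _ = ℬ.card := one_mul _
  have h3 : ∀ B : Finset (Fin N), (B ∩ Z).card ≤ (B ∩ Y).card +
      (B.filter (fun v => p2N K N * ℬ.card ≤ (nn ℬ {v} : ℝ))).card := by
    intro B
    refine le_trans (card_le_card ?_) (card_union_le _ _)
    intro v hv
    rw [mem_inter] at hv
    rw [mem_union, mem_inter]
    by_cases h : p2N K N * ℬ.card ≤ (nn ℬ {v} : ℝ)
    · exact Or.inr (mem_filter.2 ⟨hv.1, h⟩)
    · push Not at h
      exact Or.inl ⟨hv.1, mem_filter.2 ⟨hv.2, h⟩⟩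
  have h4 : ∑ B ∈ ℬ, ((B ∩ Z).card : ℝ) ≤ ∑ _B ∈ ℬ, ((q : ℝ) / K + 1) := by
    rw [sum_const, nsmul_eq_mul]
    have h5 : ∑ B ∈ ℬ, ((B ∩ Z).card : ℝ) ≤ ((∑ B ∈ ℬ, (B ∩ Y).card : ℕ) : ℝ) +
        ((∑ B ∈ ℬ, (B.filter (fun v => p2N K N * ℬ.card ≤
          (nn ℬ {v} : ℝ))).card : ℕ) : ℝ) := by
      push_cast
      rw [← sum_add_distrib]
      refine sum_le_sum (fun B _ => ?_)
      exact_mod_cast h3 B
    calc ∑ B ∈ ℬ, ((B ∩ Z).card : ℝ) ≤ (ℬ.card : ℝ) + 1 / (K : ℝ) * q * ℬ.card :=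
          h5.trans (add_le_add h2 h1)
      _ = (ℬ.card : ℝ) * ((q : ℝ) / K + 1) := by ring
  obtain ⟨B, hBm, hBZ⟩ := exists_le_of_sum_le hne h4
  obtain ⟨hd, hA⟩ := hB B hBm
  unfold AA at hA
  rw [mem_filter] at hA
  have hq : ρ.card + B.card = q := by
    rw [← card_union_of_disjoint hd]
    exact hA.2.1
  have h6 : (B ∩ Z).card + (B \ Z).card = B.card := card_inter_add_card_sdiff B Z
  have h7 : (q : ℝ) = ρ.card + ((B ∩ Z).card + (B \ Z).card) := by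
    rw [← hq, ← h6]
    push_cast
    ring
  have h8 := hout B hBm
  have h9 := hn.com
  linarith

theorem z_large {m b K N q : ℕ} {σ R0 : ℝ} (hm : 1 ≤ m) (hb : 1 ≤ b)
    (hn : Num m b K N q σ R0) {P : Pos (Sym2 (Fin N))} (hP : GP m (edges N) P)
    (hpot : pot m b (wD2 q) P ≤ CC b) {ρ : Finset (Fin N)} (hρ : ρ.card ≤ q)
    (hZ : q ^ 3 ≤ (Zs P ρ ((q : ℝ) / K)).card) :
    Real.log (Zs P ρ ((q : ℝ) / K)).card ≤
      Real.log N - mu m b * ρ.card + σ * Real.log N := by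
  have _ := hb
  have hC : 0 < CC b := by
    unfold CC
    positivity
  have hq3 : 1 ≤ q ^ 3 := Nat.one_le_pow _ _ hn.q1
  have hZ1 : (Zs P ρ ((q : ℝ) / K)).Nonempty := card_pos.1 (by omega)
  have hz0 : (0 : ℝ) < (Zs P ρ ((q : ℝ) / K)).card := by exact_mod_cast hZ1.card_pos
  have hprop : ∀ v ∈ Zs P ρ ((q : ℝ) / K), v ∉ ρ ∧ Disjoint (bip ρ {v}) P.B ∧
      ((bip ρ {v} \ P.M).card : ℝ) ≤ (q : ℝ) / K := by
    intro v hv
    unfold Zs at hv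
    rw [mem_filter] at hv
    exact hv.2
  have h1 := star_bound hm hn.N2 hP hC hpot hρ hZ1 hprop
  have hlogN : 0 ≤ Real.log N := Real.log_natCast_nonneg N
  have hρ' : (ρ.card : ℝ) ≤ q := by exact_mod_cast hρ
  have hZ' : ((q : ℝ)) ^ 3 ≤ ((Zs P ρ ((q : ℝ) / K)).card : ℝ) := by exact_mod_cast hZ
  have h2 : (ρ.card * Real.log N + Real.log (CC b) + Real.log (q + 1) + Real.log (N + 1)) /
      (Zs P ρ ((q : ℝ) / K)).card ≤ 1 := by
    rw [div_le_one hz0]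
    have h3 := hn.st2
    have h4 : (ρ.card : ℝ) * Real.log N ≤ q * Real.log N :=
      mul_le_mul_of_nonneg_right hρ' hlogN
    linarith
  have h5 := hn.st1
  have h6 : mu m b * ((ρ.card : ℝ) - (q : ℝ) / K) = mu m b * ρ.card - mu m b * (q / K) := by
    ring
  rw [h6] at h1
  linarith

end Pool.Agent.Helper5.CV
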