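import Mathlib
import Pool.Agent.Helper5.CV.DefsN
import Pool.Agent.Helper5.CV.W0T
import Pool.Agent.Helper5.CV.ESmall
import Pool.Agent.Helper5.CV.ZCase
import Pool.Agent.Helper5.CV.TimeL
import Pool.Agent.Helper5.CV.RootL
import Pool.Agent.Helper5.CV.CostL
import Pool.Agent.Helper5.CV.Typ
import Pool.Agent.Helper5.CV.Core
import Pool.Agent.Helper5.CV.TrimL
import Pool.Agent.Helper5.CV.MissL
import Pool.Agent.Helper5.CV.CwFull
import Pool.Agent.Helper5.CV.Cls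
import Pool.Agent.Helper5.CV.Buck

/-!
# MP_d32cb0_co, module F02: the structure of a win of Maker

PROOF (assembly).  Parameters: `Γ = GamN K N`, `j0 = K + 5`, `nb = nbK K`, `tp = tpK K`, `lo = 8`, `r = K^3`, `ηB = ηC = gamK K`, `cm = cmq m b q`,
`w0 = w0 m b q (K^3) K Γ ηB ηC 8 cm tp (nb+1) (N²+3)`, `C = CC b`.
1. `ub_input` (`u0 = u0q K q`; `sum_w0_le`): `P, u`.  `e`-potentials: `pot_wD1_le`, `pot_wD2_le`.
2. `root_exists` for `𝒜 = AA P q u`, `tn = tn0 P` (`card_tn0_eq_le`), `T = thr Γ (K+5)`, `ζ = 1/K⁴`, `ηD = 1/K`, `K0 = K0q K q` (`hn.big`, `hn.loss`; `Fintype.card (Fin N) = N`;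
   `log |AA| ≥ μu - log(…) ≥ μ u0 - log(…)`; `T.F > 1`, `p1 < p0`, `p2 > 0`): `ρ, ℬ`.
3. `e := |ρ|`; `e_small`.  `Z = Zs P ρ (q/K)`.  If `|Z| < q³`: `z_small` gives the first alternative.
4. Otherwise `z = log |Z| ≥ 0`, `z_large`.  `typical` (`εb = 4/K`; `hn.eps` and the bad pair bound of the root: `4 eps1 ≤ 4/K`): `i0 ∈ [8, 8+K)`, `ℬ'`;
   the bracket is `Dbar K N`.  `core_ineq` (`ε = epsK K`, `err = errN m b K N q`, `Δ = DelN`; `hn.col`; `ε (2/ηB)^tp = 1`): `B ∈ ℬ'` with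
   `0 ≤ Σ_l (tl z - ⌊cwl⌋ + err)`.
5. `d = dat P ℬ Γ Z (K+5) nb`, `A = trim d K i0 B`, `s = A.image (cl d.sm A)`: `Σ_l tl ≤ |s|` (`sum_tl_le`; `hsim`: `sim_bkD` both ways (`Sim` is symmetric);
   `h0`: bucketed points have `bk ≥ j0`), `Σ_l ⌊cwl⌋ ≥ Σ cwl - tp`, `cw_allP_le` (`2 nb ≤ i0 + K tp` as `K tp ≥ 2 nb`), `cw_full`:
   `1/2 Σκ ≤ cw(allP A) + 1/2 |A| Λ_1 ≤ |s| z + tp (err + 1) + Λ_1(lost + u + bad) + 1/2 q Λ_1 ≤ |s| z + σ² L²` (`hn.cost`).
6. `Σ_{C∈s} |C| = |A| ≥ |B| - |B\Z| - 2 Dbar q ≥ q - e - σ L` (`sum_card_classes`, `card_out`, `hn.siz`).  `|C| ≥ 1`: `class_card_pos`.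
-/

set_option autoImplicit false

namespace Pool.Agent.Helper5.CV

open Finset Pool.Agent.Helper25.CliqueGame
open Pool.Agent.Helper78.CG (EI)

private theorem gamK_pos {K : ℕ} (hK : 4 ≤ K) : 0 < gamK K := by
  unfold gamK
  have : (0 : ℝ) < K := by exact_mod_cast (by omega : 0 < K)
  positivity

private theorem gamK_lt_one {K : ℕ} (hK : 4 ≤ K) : gamK K < 1 := by
  unfold gamK
  have h1 : (1 : ℝ) ≤ K := by exact_mod_cast (by omega : 1 ≤ K)
  have h2 : (1 : ℝ) ≤ (K : ℝ) ^ 6 := one_le_pow₀ h1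
  rw [div_lt_one (by positivity)]
  linarith

private theorem one_le_CC (b : ℕ) : 1 ≤ CC b := by
  unfold CC
  have : (0 : ℝ) ≤ b := Nat.cast_nonneg b
  linarith

private theorem eps_mul {K : ℕ} (hK : 4 ≤ K) : epsK K * (2 / gamK K) ^ tpK K ≤ 1 := by
  have h := gamK_pos hK
  unfold epsK
  rw [← mul_pow]
  have h1 : gamK K / 2 * (2 / gamK K) = 1 := by
    field_simp
  rw [h1, one_pow]

private theorem mem_AA {N : ℕ} {P : Pos (Sym2 (Fin N))} {q u : ℕ} {A : Finset (Fin N)}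
    (h : A ∈ AA P q u) : A.card = q := by
  unfold AA at h
  exact (mem_filter.1 h).2.1

private theorem two_nb_le (K i0 : ℕ) (hK : 4 ≤ K) : 2 * nbK K ≤ i0 + K * tpK K := by
  unfold tpK
  have h1 := Nat.div_add_mod (2 * nbK K) K
  have h2 := Nat.mod_lt (2 * nbK K) (by omega : K > 0)
  rw [mul_add, mul_one]
  omega

/-- Logarithmic form of the input inequality. -/
private theorem log_input {m b N q u u0 : ℕ} (hm : 1 ≤ m) (hb : 1 ≤ b) (hN : 1 ≤ N) {P : Pos (Sym2 (Fin N))}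
    (hne : (AA P q u).Nonempty) (hu : u0 ≤ u)
    (hA : Real.exp (mu m b * u) ≤
      (AA P q u).card * (CC b * ((q : ℝ) ^ 2 + 1) * (N : ℝ) ^ 2)) :
    mu m b * u0 - Real.log (CC b * ((q : ℝ) ^ 2 + 1) * (N : ℝ) ^ 2) ≤
      Real.log (AA P q u).card := by
  have hNr : (0 : ℝ) < N := by exact_mod_cast hN
  have hC : (0 : ℝ) < CC b := lt_of_lt_of_le one_pos (one_le_CC b)
  have h1 : (0 : ℝ) < (AA P q u).card := by exact_mod_cast hne.card_pos
  have h2 : (0 : ℝ) < CC b * ((q : ℝ) ^ 2 + 1) * (N : ℝ) ^ 2 := by positivity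
  have h3 := Real.log_le_log (Real.exp_pos _) hA
  rw [Real.log_exp, Real.log_mul h1.ne' h2.ne'] at h3
  have h4 : mu m b * (u0 : ℝ) ≤ mu m b * u :=
    mul_le_mul_of_nonneg_left (by exact_mod_cast hu) (mu_pos hm hb).le
  linarith

/-- The thresholds satisfy the conditions of the root lemma. -/
private theorem thr_ok {Γ : ℝ} (hΓ : 0 < Γ) (j0 : ℕ) :
    1 < (thr Γ j0).F ∧ 0 < (thr Γ j0).p1 ∧ (thr Γ j0).p1 < (thr Γ j0).p0 ∧ 0 < (thr Γ j0).p2 := by
  refine ⟨?_, ?_, ?_, ?_⟩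
  · change 1 < Real.exp (Γ / 16)
    exact Real.one_lt_exp_iff.2 (by positivity)
  · exact Real.exp_pos _
  · change Real.exp (-(Γ / 8)) < Real.exp (-(Γ / 16))
    exact Real.exp_lt_exp.2 (by linarith)
  · exact Real.exp_pos _

/-- The last chain of inequalities. -/
private theorem final_chain {tp : ℕ} {tl fl cw : ℕ → ℝ} {z err sc cwf kp lam1 lo u bad q u0 D ac W : ℝ}
    (hz : 0 ≤ z) (hcore : 0 ≤ ∑ l ∈ range tp, (tl l * z - fl l + err))
    (hfl : ∀ l, cw l ≤ fl l + 1) (hsum : ∑ l ∈ range tp, tl l ≤ sc)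
    (hall : cwf ≤ ∑ l ∈ range tp, cw l + (lo + u + bad) * lam1)
    (hkap : kp ≤ 2 * cwf + ac * lam1) (hl : 0 ≤ lam1) (hac : ac ≤ q)
    (hlb : lo + bad ≤ 2 * D * q ^ 2) (hu : u ≤ u0)
    (hcost : tp * (err + 1) + 1 / 2 * lam1 * q + lam1 * (2 * D * q ^ 2 + u0) ≤ W) :
    1 / 2 * kp ≤ sc * z + W := by
  have h1 : ∑ l ∈ range tp, (tl l * z - fl l + err) =
      (∑ l ∈ range tp, tl l) * z - ∑ l ∈ range tp, fl l + tp * err := by
    rw [sum_add_distrib, sum_sub_distrib, sum_mul, sum_const, card_range, nsmul_eq_mul]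
  have h2 : ∑ l ∈ range tp, cw l ≤ ∑ l ∈ range tp, fl l + tp := by
    have h3 : ∑ l ∈ range tp, cw l ≤ ∑ l ∈ range tp, (fl l + 1) := sum_le_sum fun l _ => hfl l
    rw [sum_add_distrib, sum_const, card_range, nsmul_eq_mul, mul_one] at h3
    exact h3
  have h4 : (∑ l ∈ range tp, tl l) * z ≤ sc * z := mul_le_mul_of_nonneg_right hsum hz
  have h5 : (lo + u + bad) * lam1 ≤ lam1 * (2 * D * q ^ 2 + u0) := by
    rw [mul_comm]
    exact mul_le_mul_of_nonneg_left (by linarith) hl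
  have h6 : ac * lam1 ≤ lam1 * q := by
    rw [mul_comm]
    exact mul_le_mul_of_nonneg_left hac hl
  rw [h1] at hcore
  linarith

theorem ub_stage {m b K N q : ℕ} {σ R0 : ℝ} (hm : 1 ≤ m) (hb : 1 ≤ b) (hσ : 0 < σ)
    (hn : Num m b K N q σ R0) (hwin : MakerWins N m b q) :
    ∃ e : ℕ, mu m b * e ≤ (1 + σ) * Real.log N ∧ ((q : ℝ) ≤ e + σ * Real.log N ∨
      ∃ (s : Finset (Finset (Fin N))) (z : ℝ), 0 ≤ z ∧
        z ≤ Real.log N - mu m b * e + σ * Real.log N ∧ (∀ C ∈ s, 1 ≤ C.card) ∧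
        (q : ℝ) - e ≤ ∑ C ∈ s, (C.card : ℝ) + σ * Real.log N ∧
        1 / 2 * ∑ C ∈ s, ∑ C' ∈ s, kap m b (C.card * C'.card) ≤
          s.card * z + σ ^ 2 * (Real.log N) ^ 2) := by
  classical
  have hK := hn.K4
  have hN := hn.N2
  have hq := hn.q1
  have hKr : (0 : ℝ) < K := by exact_mod_cast (by omega : 0 < K)
  have hqr : (0 : ℝ) < q := by exact_mod_cast (by omega : 0 < q)
  have htp : 1 ≤ tpK K := Nat.le_add_left 1 _
  -- step 1: the position
  obtain ⟨P, u, hP, hlen, hu0, hu1, hpot, hAne, hAexp⟩ :=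
    ub_input (u0 := u0q K q) hm (by omega) hwin hn.u1 hn.u2
      (w0 m b q (K ^ 3) K (GamN K N) (gamK K) (gamK K) 8 (cmq m b q) (tpK K) (nbK K + 1)
        (N ^ 2 + 3))
      (w0_nonneg m b q (K ^ 3) K (GamN K N) (gamK K) (gamK K) 8 (cmq m b q) (tpK K) (nbK K + 1)
        (N ^ 2 + 3))
      (C := CC b)
      (sum_w0_le hN hn.nbN (by omega) htp m b q (K ^ 3) (GamN K N) (gamK K) (gamK K) 8
        (cmq m b q))
  have hD1 : pot m b (wD1 q (K ^ 3)) P ≤ CC b :=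
    (pot_wD1_le m b q (K ^ 3) K (GamN K N) (gamK K) (gamK K) 8 (cmq m b q) (tpK K) (nbK K + 1)
      (N ^ 2 + 3) P).trans hpot
  have hD2 : pot m b (wD2 q) P ≤ CC b :=
    (pot_wD2_le m b q (K ^ 3) K (GamN K N) (gamK K) (gamK K) 8 (cmq m b q) (tpK K) (nbK K + 1)
      (N ^ 2 + 3) P).trans hpot
  -- step 2: the root
  obtain ⟨hF, hp1, h01, hp2⟩ := thr_ok hn.Gam (K + 5)
  have hcardN : ((Fintype.card (Fin N) : ℕ) : ℝ) = N := by rw [Fintype.card_fin]
  obtain ⟨ρ, ℬ, hne, hB, hroot, hcommon, hbad⟩ :=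
    root_exists (V := Fin N) (𝒜 := AA P q u) (q := q) (m := m) (K0 := K0q K q) hAne hq
      (fun A hA => mem_AA hA) (by rw [Fintype.card_fin]; exact hN) (tn0 P)
      (fun t ht => card_tn0_eq_le hP ht) (thr (GamN K N) (K + 5)) hF hp1 h01 hp2
      (R0 := R0) hn.R1 hn.K01 (ζ := 1 / (K : ℝ) ^ 4) (ηD := 1 / (K : ℝ)) (by positivity)
      (by positivity)
      (by
        rw [hcardN]
        exact hn.big.trans (log_input hm hb (by omega) hAne hu0 hAexp))
      (by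
        rw [hcardN]
        exact hn.loss)
  rw [hcardN] at hroot hbad
  -- step 3
  have hcardB : ∀ B ∈ ℬ, ρ.card + B.card = q := by
    intro B hBm
    have h1 := hB B hBm
    rw [← card_union_of_disjoint h1.1]
    exact mem_AA h1.2
  have hρ : ρ.card ≤ q := by
    obtain ⟨B, hBm⟩ := hne
    have := hcardB B hBm
    omega
  refine ⟨ρ.card, e_small hm hb hσ hn hP hD1 hu0 hAexp hne hB hroot, ?_⟩
  by_cases hZ : (Zs P ρ ((q : ℝ) / K)).card < q ^ 3
  · left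
    exact z_small hn hne hB hu1 hcommon hZ
  right
  push Not at hZ
  -- step 4
  have hZne : (Zs P ρ ((q : ℝ) / K)).Nonempty := by
    rw [← card_pos]
    exact lt_of_lt_of_le (pow_pos (by omega) 3) hZ
  have heps : 4 * eps1 (Real.log N) m q (K0q K q) (thr (GamN K N) (K + 5)) R0 ≤ 4 / (K : ℝ) := by
    have h1 := hn.eps
    have h2 : (4 : ℝ) / K = 4 * (1 / K) := by ring
    rw [h2]
    linarith
  obtain ⟨i0, hi1, hi2, ℬ', hsub, hcard2, htyp⟩ :=
    typical (N := N) (q := q) (K := K) (j0 := K + 5) (nb := nbK K) (lo := 8) hq (by omega)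
      (P := P) hne (fun B hBm => by have := hcardB B hBm; omega) hn.Gam (by omega)
      (Zs P ρ ((q : ℝ) / K)) (ηD := 1 / (K : ℝ)) (εb := 4 / (K : ℝ)) (by positivity) hcommon
      (hbad.trans (by
        refine mul_le_mul_of_nonneg_right ?_ (Nat.cast_nonneg _)
        exact mul_le_mul_of_nonneg_right heps (by positivity)))
  have hne' : ℬ'.Nonempty := by
    rw [← card_pos]
    have h1 : (0 : ℝ) < ℬ.card := by exact_mod_cast hne.card_pos
    have h2 : (0 : ℝ) < ℬ'.card := by linarith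
    exact_mod_cast h2
  obtain ⟨B, hBm', hcore⟩ :=
    core_ineq (N := N) (m := m) (b := b) (q := q) (r := K ^ 3) (u := u) (K := K) (i0 := i0)
      (j0 := K + 5) (nb := nbK K) (lo := 8) (tp := tpK K) (cm := cmq m b q) (Δ := DelN K N q)
      hm (by omega) hq (by omega) htp hP hlen hB (Γ := GamN K N) (ηB := gamK K) (ηC := gamK K)
      (C := CC b) (err := errN m b K N q) (ε := epsK K) hn.Gam (by omega) hi1 hi2 (by omega)
      (gamK_pos hK) (gamK_lt_one hK) (gamK_pos hK) (one_le_CC b) hpot hZne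
      (by unfold cmq; exact Nat.le_ceil _) (by unfold DelN; exact Nat.le_ceil _)
      hsub hne' hcard2 (le_of_eq rfl)
      (by unfold epsK; exact pow_pos (by have := gamK_pos hK; positivity) _) (eps_mul hK)
      hn.col
  have hBm : B ∈ ℬ := hsub hBm'
  obtain ⟨htB1, htB2⟩ := htyp B hBm'
  -- step 5
  set d := dat P ℬ (GamN K N) (Zs P ρ ((q : ℝ) / K)) (K + 5) (nbK K) with hd
  have h0 : ∀ v, 1 ≤ d.bk v → i0 < d.bk v + 3 := by
    intro v hv
    have h1 := (bkD_spec hn.Gam (by omega : 1 ≤ K + 5) hv).2.2.1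
    have h2 : K + 5 ≤ d.bk v := h1
    omega
  have hsim : ∀ a c, (a, c) ∈ d.sm → d.bk a ≤ d.bk c + 1 ∧ d.bk c ≤ d.bk a + 1 := by
    intro a c hac
    have h1 : 1 ≤ bkD ℬ (GamN K N) (Zs P ρ ((q : ℝ) / K)) (K + 5) (nbK K) a ∧
        1 ≤ bkD ℬ (GamN K N) (Zs P ρ ((q : ℝ) / K)) (K + 5) (nbK K) c ∧
        Sim ℬ (thr (GamN K N) (K + 5)) a c := by
      have h2 : (a, c) ∈ (dat P ℬ (GamN K N) (Zs P ρ ((q : ℝ) / K)) (K + 5) (nbK K)).sm := hac
      unfold dat at h2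
      exact (mem_filter.1 h2).2
    refine ⟨sim_bkD hn.Gam (by omega) h1.1 h1.2.1 h1.2.2, ?_⟩
    refine sim_bkD hn.Gam (by omega) h1.2.1 h1.1 ?_
    have h3 := h1.2.2
    unfold Sim at h3 ⊢
    rw [pair_comm c a]
    exact ⟨h3.2, h3.1⟩
  set A := trim d K i0 B with hA
  have hsum := sum_tl_le d (by omega : 1 ≤ K) h0 hsim (tpK K) B
  have hall := cw_allP_le (b := b) (tp := tpK K) (i0 := i0) hm hB hn.Gam (Zs P ρ ((q : ℝ) / K))
    (by omega : 3 ≤ K) (by omega : K + 3 ≤ K + 5) (by omega) (two_nb_le K i0 hK) hBm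
  have hfull := cw_full (b := b) hm d.sm A
  have hAB : A ⊆ B := by
    rw [hA]
    exact filter_subset _ _
  have hAq : (A.card : ℝ) ≤ q := by
    have h1 := card_le_card hAB
    have h2 := hcardB B hBm
    exact_mod_cast (by omega : A.card ≤ q)
  have hz0 : 0 ≤ Real.log (Zs P ρ ((q : ℝ) / K)).card := Real.log_natCast_nonneg _
  refine ⟨A.image (cl d.sm A), Real.log (Zs P ρ ((q : ℝ) / K)).card, hz0,
    z_large hm hb hn hP hD2 hρ hZ, class_card_pos d.sm A, ?_, ?_⟩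
  · -- step 6
    have h1 := sum_card_classes d.sm A
    have h2 : ∑ C ∈ A.image (cl d.sm A), (C.card : ℝ) = A.card := by
      rw [← h1]
      push_cast
      rfl
    have h3 := card_out hn hB hu1 B hBm
    have h4 := hcardB B hBm
    have h5 : (q : ℝ) = ρ.card + B.card := by exact_mod_cast h4.symm
    have h6 := hn.siz
    have h7 : (B.card : ℝ) ≤ A.card + (B \ Zs P ρ ((q : ℝ) / K)).card + 2 * Dbar K N * q := htB1
    rw [h2]
    linarith
  · refine final_chain (tp := tpK K) (tl := fun l => (tl d K i0 l B : ℝ))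
      (fl := fun l => (⌊cwl m b P ℬ (thr (GamN K N) (K + 5)) d K i0 l B⌋₊ : ℝ))
      (cw := fun l => cwl m b P ℬ (thr (GamN K N) (K + 5)) d K i0 l B)
      (err := errN m b K N q) (cwf := cw m b d.sm A (allP A)) (lam1 := lam m b 1)
      (lo := ((lost d K i0 B).card : ℝ)) (u := (u : ℝ))
      (bad := ((badP ℬ (tn0 P) (thr (GamN K N) (K + 5)) B).card : ℝ)) (q := (q : ℝ))
      (u0 := (u0q K q : ℝ) + m) (D := Dbar K N) (ac := (A.card : ℝ)) hz0 hcore
      (fun l => (Nat.lt_floor_add_one _).le) ?_ hall hfull (lam_nonneg m b 1) hAq htB2 ?_ hn.cost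
    · have h1 : ((∑ l ∈ range (tpK K), tl d K i0 l B : ℕ) : ℝ) ≤
          ((A.image (cl d.sm A)).card : ℝ) := by exact_mod_cast hsum
      rw [Nat.cast_sum] at h1
      exact h1
    · have h1 : u ≤ u0q K q + m := hu1.le
      exact_mod_cast h1

end Pool.Agent.Helper5.CV
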