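import Mathlib
import Pool.Agent.Helper5.CV.DefsN
import Pool.Agent.Helper5.CV.Stage
import Pool.Agent.Helper5.CV.FinA
import Pool.Agent.Helper5.CV.NumA
import Pool.Agent.Helper5.CV.NumB
import Pool.Agent.Helper5.CV.NumC
import Pool.Agent.Helper5.CV.NumD
import Pool.Agent.Helper5.CV.NumE
import Pool.Agent.Helper5.CV.Kap

/-!
# MP_d32cb0_co, module F06: the upper bound

PROOF.  `num_eventually`: take `K = max K1's, 4` and collect the conditions.  `ub_final`: `a = cst m b + ε`, `μ a ≥ μ · m/Λ_m = 1`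
(`cst ≥ m/lam m b m`, `mu = lam m b m/m`).  `fin_arith` gives `σ`; `num_eventually` gives `K, R0`; for large `N`, with `q = ⌈a log N⌉₊`:
if `MakerWins N m b q` then `ub_stage` and `fin_arith` give `q < a log N`, contradiction.  So `value N m b < q`
(`value_lt`), i.e. `value ≤ q - 1 < a log N`.
-/

set_option autoImplicit false

namespace Pool.Agent.Helper5.CV

open Finset Pool.Agent.Helper25.CliqueGame
open Pool.Agent.Helper78.CG (EI)

theorem num_eventually {m b : ℕ} (hm : 1 ≤ m) (hb : 1 ≤ b) {a σ : ℝ} (ha : 0 < a)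
    (hμ : 1 ≤ mu m b * a) (hσ : 0 < σ) :
    ∃ (K : ℕ) (R0 : ℝ), ∀ᶠ N : ℕ in Filter.atTop, Num m b K N ⌈a * Real.log N⌉₊ σ R0 := by
  obtain ⟨K1, h1⟩ := numB hm hb ha hμ hσ
  obtain ⟨K2, h2⟩ := numD hm hb ha hσ
  obtain ⟨K3, h3⟩ := numE hm hb ha hσ
  obtain ⟨K, hK4, hK1, hK2, hK3⟩ : ∃ K : ℕ, 4 ≤ K ∧ K1 ≤ K ∧ K2 ≤ K ∧ K3 ≤ K :=
    ⟨4 + K1 + K2 + K3, by omega, by omega, by omega, by omega⟩
  obtain ⟨R0, hR1, hR⟩ := numC (m := m) hK4 ha
  refine ⟨K, R0, ?_⟩
  filter_upwards [numA hm hb hK4 ha, numA2 hm hb hK4 ha, h1 K hK1, h2 K hK2, h3 K hK3, hR]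
    with N hA hA2 hB hD hE hC
  obtain ⟨a1, a2, a3, a4, a5, a6, a7, a8, a9⟩ := hA
  obtain ⟨a10, a11⟩ := hA2
  obtain ⟨b1, b2, b3, b4⟩ := hB
  obtain ⟨d1, d2, d3⟩ := hD
  exact
    { K4 := hK4
      N2 := a1
      nbN := a2
      q1 := a3
      R1 := hR1
      Gam := a4
      K01 := a5
      u1 := a6
      u2 := a7
      big := b1
      loss := b2
      eps := hC
      dis := a8
      ebd := b3
      ebp := b4
      st1 := d1
      st2 := a10
      qp2 := a9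
      com := d2
      siz := d3
      cost := hE
      col := a11 }

theorem ub_final {m b : ℕ} (hm : 1 ≤ m) (hb : 1 ≤ b)
    (ST : ∀ {ι : Type} (s : Finset ι) (g : ι → ℕ), (∀ i ∈ s, 1 ≤ g i) →
      2 * (s.card : ℝ) * ∑ i ∈ s, (g i : ℝ) ≤
        cst m b * ∑ i ∈ s, ∑ j ∈ s, kap m b (g i * g j)) {ε : ℝ} (hε : 0 < ε) :
    ∀ᶠ N : ℕ in Filter.atTop, (value N m b : ℝ) < (cst m b + ε) * Real.log N := by
  have hm0 : (0 : ℝ) < m := by exact_mod_cast hm
  have hlam : 0 < lam m b m := lam_pos hm hb hm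
  have hmu : 0 < mu m b := mu_pos hm hb
  have hc1 : (m : ℝ) / lam m b m ≤ cst m b := le_max_left _ _
  have hc0 : 0 < cst m b := lt_of_lt_of_le (div_pos hm0 hlam) hc1
  have hmc : 1 ≤ mu m b * cst m b := by
    have h1 : mu m b * (m / lam m b m) = 1 := by
      unfold mu
      field_simp
    rw [← h1]
    exact mul_le_mul_of_nonneg_left hc1 hmu.le
  have ha : 0 < cst m b + ε := by linarith
  have hμ : 1 ≤ mu m b * (cst m b + ε) := by
    have h1 : 0 < mu m b * ε := mul_pos hmu hε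
    rw [mul_add]
    linarith
  obtain ⟨σ, hσ, hfin⟩ := fin_arith hm hb ST hε
  obtain ⟨K, R0, hN⟩ := num_eventually hm hb ha hμ hσ
  filter_upwards [hN] with N hn
  by_contra hcon
  have hwin : MakerWins N m b ⌈(cst m b + ε) * Real.log N⌉₊ := by
    by_contra hnw
    have h1 := value_lt hnw
    exact hcon (Nat.lt_ceil.1 h1)
  have h2 := ub_stage hm hb hσ hn hwin
  have h3 := hfin N ⌈(cst m b + ε) * Real.log N⌉₊ hn.N2 h2
  have h4 := Nat.le_ceil ((cst m b + ε) * Real.log N)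
  linarith

end Pool.Agent.Helper5.CV
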